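import Mathlib

/-! Basic definitions for the renorming project (problem MP_e0f470_an). -/

set_option autoImplicit false

namespace Pool.Agent.Lib.MP_e0f470_an

open Finset
open scoped BigOperators

/-- The discrete cube of signs. -/
abbrev Cube (ι : Type*) := ι → Bool

/-- The real sign of a Boolean. -/
def sg (b : Bool) : ℝ := if b then 1 else -1

/-- Rademacher sum of the family `x` at the sign pattern `ε`. -/
def rs {ι W : Type*} [Fintype ι] [AddCommGroup W] (x : ι → W) (ε : Cube ι) : W :=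
  ∑ i, if ε i then x i else -x i

/-- The opposite sign pattern. -/
def neg {ι : Type*} (ε : Cube ι) : Cube ι := fun i => !ε i

/-- The Walsh character of the set `S`. -/
def chi {ι : Type*} (S : Finset ι) (ε : Cube ι) : ℝ := ∏ i ∈ S, sg (ε i)

/-- Take the coordinate from `ε` where `s` is true and from `ε'` elsewhere. -/
def mix {ι : Type*} (s ε ε' : Cube ι) : Cube ι := fun i => if s i then ε i else ε' i

/-- The defect of linearity of a function on the cube. -/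
def dfc {ι W : Type*} [AddCommGroup W] (f : Cube ι → W) (s ε ε' : Cube ι) : W :=
  f ε + f ε' - f (mix s ε ε') - f (mix s ε' ε)

/-- Euclidean space on the index type `ι`. -/
abbrev Eu (𝕜 : Type*) (ι : Type) := EuclideanSpace 𝕜 ι

/-- The standard basis vector. -/
noncomputable def ev (𝕜 : Type*) [RCLike 𝕜] {ι : Type} [DecidableEq ι] (i : ι) : Eu 𝕜 ι :=
  EuclideanSpace.single i (1 : 𝕜)

variable {𝕜 : Type*} [RCLike 𝕜]

/-- Trace of an endomorphism of Euclidean space. -/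
noncomputable abbrev tr {ι : Type} (T : Eu 𝕜 ι →ₗ[𝕜] Eu 𝕜 ι) : 𝕜 :=
  LinearMap.trace 𝕜 (Eu 𝕜 ι) T

/-- Normalised sign vector (it has Euclidean norm one when `ι` is nonempty). -/
noncomputable def sv (𝕜 : Type*) [RCLike 𝕜] {ι : Type} [Fintype ι] [DecidableEq ι]
    (ε : Cube ι) : Eu 𝕜 ι :=
  ((√(Fintype.card ι : ℝ) : ℝ) : 𝕜)⁻¹ • rs (fun i => ev 𝕜 i) ε

@[simp] lemma sg_true : sg true = 1 := rfl
@[simp] lemma sg_false : sg false = -1 := rfl
lemma sg_not (b : Bool) : sg (!b) = -sg b := by cases b <;> simp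
lemma sg_sq (b : Bool) : sg b ^ 2 = 1 := by cases b <;> simp
lemma sg_mul_self (b : Bool) : sg b * sg b = 1 := by cases b <;> simp
lemma abs_sg (b : Bool) : |sg b| = 1 := by cases b <;> simp

@[simp] lemma neg_neg_cube {ι : Type*} (ε : Cube ι) : neg (neg ε) = ε := by
  funext i; simp [neg]

lemma rs_eq_smul {ι W : Type*} [Fintype ι] [AddCommGroup W] [Module 𝕜 W] (x : ι → W)
    (ε : Cube ι) : rs x ε = ∑ i, ((sg (ε i) : ℝ) : 𝕜) • x i := by
  unfold rs
  refine Finset.sum_congr rfl fun i _ => ?_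
  cases ε i <;> simp

lemma rs_neg {ι W : Type*} [Fintype ι] [AddCommGroup W] (x : ι → W) (ε : Cube ι) :
    rs x (neg ε) = -rs x ε := by
  unfold rs
  rw [← Finset.sum_neg_distrib]
  refine Finset.sum_congr rfl fun i _ => ?_
  rcases h : ε i <;> simp [neg, h]

lemma map_rs {ι W W' F : Type*} [Fintype ι] [AddCommGroup W] [AddCommGroup W']
    [FunLike F W W'] [AddMonoidHomClass F W W'] (f : F) (x : ι → W) (ε : Cube ι) :
    f (rs x ε) = rs (fun i => f (x i)) ε := by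
  unfold rs
  rw [map_sum]
  refine Finset.sum_congr rfl fun i _ => ?_
  cases ε i <;> simp

lemma rs_add {ι W : Type*} [Fintype ι] [AddCommGroup W] (x y : ι → W) (ε : Cube ι) :
    rs (fun i => x i + y i) ε = rs x ε + rs y ε := by
  unfold rs
  rw [← Finset.sum_add_distrib]
  refine Finset.sum_congr rfl fun i _ => ?_
  cases ε i <;> simp [add_comm]

lemma rs_sub {ι W : Type*} [Fintype ι] [AddCommGroup W] (x y : ι → W) (ε : Cube ι) :
    rs (fun i => x i - y i) ε = rs x ε - rs y ε := by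
  unfold rs
  rw [← Finset.sum_sub_distrib]
  refine Finset.sum_congr rfl fun i _ => ?_
  cases ε i <;> simp [sub_eq_add_neg, add_comm]

/-- Rademacher sums have no defect. -/
lemma dfc_rs {ι W : Type*} [Fintype ι] [AddCommGroup W] (x : ι → W) (s ε ε' : Cube ι) :
    dfc (rs x) s ε ε' = 0 := by
  unfold dfc rs mix
  rw [← Finset.sum_add_distrib, ← Finset.sum_sub_distrib, ← Finset.sum_sub_distrib]
  refine Finset.sum_eq_zero fun i _ => ?_
  cases s i <;> simp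

section eu
variable {ι : Type} [Fintype ι] [DecidableEq ι]

lemma tr_eq_sum (T : Eu 𝕜 ι →ₗ[𝕜] Eu 𝕜 ι) : tr T = ∑ i, T (ev 𝕜 i) i := by
  rw [tr, LinearMap.trace_eq_sum_inner T (EuclideanSpace.basisFun ι 𝕜)]
  simp [ev, EuclideanSpace.inner_single_left]

lemma norm_ev (i : ι) : ‖ev 𝕜 i‖ = 1 := by simp [ev]

lemma sum_ev (a : Eu 𝕜 ι) : ∑ i, a i • ev 𝕜 i = a := by
  simpa [ev] using (EuclideanSpace.basisFun ι 𝕜).sum_repr a

lemma inner_ev (i : ι) (a : Eu 𝕜 ι) : inner 𝕜 (ev 𝕜 i) a = a i := by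
  simp [ev, EuclideanSpace.inner_single_left]

omit [Fintype ι] in
lemma ev_apply (i j : ι) : ev 𝕜 i j = if j = i then 1 else 0 := by
  simp [ev]

end eu

/-- Average of the seminorm `p` of `A ξ`, where the coordinates of `ξ` are independent
normalised sums of `m` signs. -/
noncomputable def ell {W : Type*} [AddCommGroup W] [Module 𝕜 W] {r : ℕ} (m : ℕ)
    (p : Seminorm 𝕜 W) (A : Eu 𝕜 (Fin r) →ₗ[𝕜] W) : ℝ :=
  𝔼 ε : Cube (Fin r × Fin m), p (rs (fun kl => ((√m : ℝ) : 𝕜)⁻¹ • A (ev 𝕜 kl.1)) ε)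

/-- Euclidean `r`-space does not factor through `(W, p)`, in an averaged sense. -/
def PP {W : Type*} [AddCommGroup W] [Module 𝕜 W] (r m : ℕ) (δ : ℝ) (p : Seminorm 𝕜 W) : Prop :=
  ∀ (A : Eu 𝕜 (Fin r) →ₗ[𝕜] W) (B : W →ₗ[𝕜] Eu 𝕜 (Fin r)) (β : ℝ), 0 ≤ β →
    (∀ x, ‖B x‖ ≤ β * p x) → ‖tr (B ∘ₗ A)‖ ≤ δ * √r * β * ell m p A

/-- `K`-bounded operators on `(𝕜^ι, ν)` are almost scalar as far as traces can see. -/
def Rigid {ι : Type} [Fintype ι] (ν : Seminorm 𝕜 (Eu 𝕜 ι)) (K ε : ℝ) : Prop :=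
  ∀ T : Eu 𝕜 ι →ₗ[𝕜] Eu 𝕜 ι, (∀ x, ν (T x) ≤ K * ν x) →
    ‖tr (T ∘ₗ T) - tr T ^ 2 / (Fintype.card ι : 𝕜)‖ ≤ ε * Fintype.card ι

/-- Operators on `(𝕜^ι, ν)` that factor through `(Y, q)` have small trace. -/
def Small {ι : Type} [Fintype ι] (ν : Seminorm 𝕜 (Eu 𝕜 ι)) {Y : Type*} [AddCommGroup Y]
    [Module 𝕜 Y] (q : Seminorm 𝕜 Y) (δ : ℝ) : Prop :=
  ∀ (A : Eu 𝕜 ι →ₗ[𝕜] Y) (B : Y →ₗ[𝕜] Eu 𝕜 ι), (∀ x, q (A x) ≤ ν x) → (∀ y, ν (B y) ≤ q y) →
    ‖tr (B ∘ₗ A)‖ ≤ δ * Fintype.card ι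

/-- The seminorm `q` is equivalent to the norm. -/
def Equi {Y : Type*} [NormedAddCommGroup Y] [NormedSpace 𝕜 Y] (q : Seminorm 𝕜 Y) : Prop :=
  ∃ c C : ℝ, 0 < c ∧ 0 < C ∧ ∀ y, c * ‖y‖ ≤ q y ∧ q y ≤ C * ‖y‖

/-- The identity of `(G, γ)` does not factor through `(Y, q)` with constant `K`. -/
def NoFactor {G Y : Type*} [AddCommGroup G] [Module 𝕜 G] [AddCommGroup Y] [Module 𝕜 Y]
    (γ : Seminorm 𝕜 G) (q : Seminorm 𝕜 Y) (K : ℝ) : Prop :=
  ∀ (a : G →ₗ[𝕜] Y) (b : Y →ₗ[𝕜] G), (∀ g, q (a g) ≤ γ g) → (∀ y, γ (b y) ≤ K * q y) →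
    b ∘ₗ a ≠ LinearMap.id

/-- For every `K` some finite dimensional space does not `K`-factor through some renorming. -/
def HF (𝕜 : Type*) [RCLike 𝕜] (E : Type*) [NormedAddCommGroup E] [NormedSpace 𝕜 E] : Prop :=
  ∀ K : ℝ, 1 ≤ K → ∃ q : Seminorm 𝕜 E, Equi q ∧
    ∃ (ι : Type) (_ : Fintype ι) (_ : DecidableEq ι) (γ : Seminorm 𝕜 (Eu 𝕜 ι)),
      Equi γ ∧ NoFactor γ q K

/-- Every `K` is beaten by some equivalent norm. -/
def Kill (𝕜 : Type*) [RCLike 𝕜] (E : Type*) [NormedAddCommGroup E] [NormedSpace 𝕜 E] : Prop :=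
  ∀ K : ℝ, 1 ≤ K → ∃ q : Seminorm 𝕜 E, Equi q ∧
    ∀ b : SchauderBasis 𝕜 E, ¬ ∀ k x, q (b.proj k x) ≤ K * q x

/-- All columns `w i - lam • e i` are within `d` of a subspace of dimension at most `k`. -/
def Near {ι : Type} [Fintype ι] [DecidableEq ι] (w : ι → Eu 𝕜 ι) (lam : 𝕜) (k d : ℝ) : Prop :=
  ∃ U : Submodule 𝕜 (Eu 𝕜 ι), (Module.finrank 𝕜 U : ℝ) ≤ k ∧
    ∀ i, ∃ u ∈ U, ‖w i - lam • ev 𝕜 i - u‖ ≤ d

/-- Quotient seminorm along a surjective linear map. -/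
noncomputable def quotSemi {W W' : Type*} [AddCommGroup W] [Module 𝕜 W] [AddCommGroup W']
    [Module 𝕜 W'] (π : W' →ₗ[𝕜] W) (hπ : Function.Surjective π) (p : Seminorm 𝕜 W') :
    Seminorm 𝕜 W :=
  Seminorm.ofSMulLE (fun x => ⨅ z : {z // π z = x}, p z.1)
    (by
      apply le_antisymm
      · exact (ciInf_le ⟨0, by rintro _ ⟨z, rfl⟩; exact apply_nonneg _ _⟩
          (⟨0, map_zero π⟩ : {z // π z = 0})).trans (by simp)
      · exact Real.iInf_nonneg fun z => apply_nonneg _ _)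
    (by
      intro x y
      have : Nonempty {z // π z = x} := ⟨⟨_, (hπ x).choose_spec⟩⟩
      have : Nonempty {z // π z = y} := ⟨⟨_, (hπ y).choose_spec⟩⟩
      refine le_ciInf_add_ciInf fun a b => ?_
      exact (ciInf_le ⟨0, by rintro _ ⟨z, rfl⟩; exact apply_nonneg _ _⟩
        (⟨a.1 + b.1, by rw [map_add, a.2, b.2]⟩ : {z // π z = x + y})).trans
        (map_add_le_add p _ _))
    (by
      intro c x
      have : Nonempty {z // π z = x} := ⟨⟨_, (hπ x).choose_spec⟩⟩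
      rw [Real.mul_iInf_of_nonneg (norm_nonneg c)]
      refine le_ciInf fun a => ?_
      exact (ciInf_le ⟨0, by rintro _ ⟨z, rfl⟩; exact apply_nonneg _ _⟩
        (⟨c • a.1, by rw [map_smul, a.2]⟩ : {z // π z = c • x})).trans
        (map_smul_eq_mul p _ _).le)

lemma quotSemi_le {W W' : Type*} [AddCommGroup W] [Module 𝕜 W] [AddCommGroup W']
    [Module 𝕜 W'] (π : W' →ₗ[𝕜] W) (hπ : Function.Surjective π) (p : Seminorm 𝕜 W') (z : W') :
    quotSemi π hπ p (π z) ≤ p z :=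
  ciInf_le (f := fun w : {w // π w = π z} => p w.1)
    ⟨0, by rintro _ ⟨z, rfl⟩; exact apply_nonneg _ _⟩ ⟨z, rfl⟩

lemma exists_lt_of_quotSemi_lt {W W' : Type*} [AddCommGroup W] [Module 𝕜 W] [AddCommGroup W']
    [Module 𝕜 W'] (π : W' →ₗ[𝕜] W) (hπ : Function.Surjective π) (p : Seminorm 𝕜 W') {x : W}
    {t : ℝ} (h : quotSemi π hπ p x < t) : ∃ z, π z = x ∧ p z < t := by
  have : Nonempty {z // π z = x} := ⟨⟨_, (hπ x).choose_spec⟩⟩
  obtain ⟨z, hz⟩ := exists_lt_of_ciInf_lt (f := fun w : {w // π w = x} => p w.1) h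
  exact ⟨z.1, z.2, hz⟩

/-- A norming functional for a seminorm (Hahn-Banach). -/
lemma exists_norming {W : Type*} [AddCommGroup W] [Module 𝕜 W] (p : Seminorm 𝕜 W) (x : W) :
    ∃ φ : W →ₗ[𝕜] 𝕜, φ x = (p x : 𝕜) ∧ ∀ y, ‖φ y‖ ≤ p y := by
  by_cases hx : x = 0
  · exact ⟨0, by simp [hx], fun y => by simp⟩
  let f : Module.Dual 𝕜 (Submodule.span 𝕜 {x}) :=
    (p x : 𝕜) • (LinearEquiv.toSpanNonzeroSingleton 𝕜 W x hx).symm.toLinearMap
  have hf : ∀ c : 𝕜, f ⟨c • x, Submodule.smul_mem _ _ (Submodule.mem_span_singleton_self x)⟩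
      = (p x : 𝕜) * c := by
    intro c
    have : (LinearEquiv.toSpanNonzeroSingleton 𝕜 W x hx).symm
        ⟨c • x, Submodule.smul_mem _ _ (Submodule.mem_span_singleton_self x)⟩ = c := by
      rw [LinearEquiv.symm_apply_eq]; ext; simp
    simp [f, this, RCLike.real_smul_eq_coe_mul]
  obtain ⟨g, hg, hle⟩ := Module.Dual.exists_extension_of_le_seminorm (Submodule.span 𝕜 {x}) f
    (p := p) (by
      rintro ⟨y, hy⟩
      obtain ⟨c, rfl⟩ := Submodule.mem_span_singleton.1 hy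
      rw [hf, norm_mul, map_smul_eq_mul, RCLike.norm_ofReal, abs_of_nonneg (apply_nonneg _ _),
        mul_comm])
  refine ⟨g, ?_, hle⟩
  have := hg ⟨(1 : 𝕜) • x, Submodule.smul_mem _ _ (Submodule.mem_span_singleton_self x)⟩
  rw [hf] at this
  simpa using this

/-- The gauge of the absolutely convex hull of the unit ball of `p` and of the vectors `s a`.
It is a seminorm below `p`. -/
lemma exists_hull {W : Type*} [AddCommGroup W] [Module 𝕜 W] (p : Seminorm 𝕜 W) {Λ : Type*}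
    (s : Λ → W) : ∃ p' : Seminorm 𝕜 W, (∀ x, p' x ≤ p x) ∧ (∀ a, p' (s a) ≤ 1) ∧
      ∀ (x : W) (κ : ℝ), 0 < κ → ∃ (F : Finset Λ) (c : Λ → 𝕜) (w : W),
        x = w + ∑ a ∈ F, c a • s a ∧ p w + ∑ a ∈ F, ‖c a‖ ≤ p' x + κ := by
  classical
  let l1 : Seminorm 𝕜 (Λ →₀ 𝕜) := Seminorm.ofSMulLE (fun c => c.sum fun _ t => ‖t‖) (by simp)
    (by
      intro c d
      rw [Finsupp.sum_of_support_subset (c + d) Finsupp.support_add _ (by simp),
        Finsupp.sum_of_support_subset c Finset.subset_union_left _ (by simp),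
        Finsupp.sum_of_support_subset d Finset.subset_union_right _ (by simp),
        ← Finset.sum_add_distrib]
      exact Finset.sum_le_sum fun a _ => by simpa using norm_add_le _ _)
    (by
      intro t c
      rw [Finsupp.sum_of_support_subset (t • c) Finsupp.support_smul _ (by simp), Finsupp.sum,
        Finset.mul_sum]
      exact Finset.sum_le_sum fun a _ => by simp)
  let π : W × (Λ →₀ 𝕜) →ₗ[𝕜] W := LinearMap.id.coprod (Finsupp.linearCombination 𝕜 s)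
  have hπ : Function.Surjective π := fun x => ⟨(x, 0), by simp [π]⟩
  let P : Seminorm 𝕜 (W × (Λ →₀ 𝕜)) :=
    p.comp (LinearMap.fst 𝕜 _ _) + l1.comp (LinearMap.snd 𝕜 _ _)
  have hP : ∀ z, P z = p z.1 + z.2.sum fun _ t => ‖t‖ := fun z => rfl
  refine ⟨quotSemi π hπ P, fun x => ?_, fun a => ?_, fun x κ hκ => ?_⟩
  · have := quotSemi_le π hπ P (x, 0)
    simpa [π, hP] using this
  · have := quotSemi_le π hπ P (0, Finsupp.single a 1)
    simpa [π, hP] using this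
  · obtain ⟨z, hz, hlt⟩ := exists_lt_of_quotSemi_lt π hπ P (x := x)
      (t := quotSemi π hπ P x + κ) (by linarith)
    refine ⟨z.2.support, z.2, z.1, ?_, ?_⟩
    · rw [← hz]
      simp [π, Finsupp.linearCombination_apply, Finsupp.sum]
    · rw [hP] at hlt
      exact hlt.le

end Pool.Agent.Lib.MP_e0f470_an
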