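import Pool.Agent.Lib.MP_e0f470_an.Khin

/-! The Bonami inequality for the noise operator with parameter one half. -/

set_option autoImplicit false

namespace Pool.Agent.Lib.MP_e0f470_an

open Finset
open scoped BigOperators

variable {𝕜 : Type*} [RCLike 𝕜]

/-- The noise operator: each coordinate is resampled with probability one half. -/
noncomputable def noise {ι : Type*} [Fintype ι] [DecidableEq ι] (f : Cube ι → ℝ) (ε : Cube ι) : ℝ :=
  𝔼 s : Cube ι, 𝔼 ε' : Cube ι, f (mix s ε ε')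

lemma bonami_split {n : ℕ} (F : Cube (Fin (n + 1)) → ℝ) :
    𝔼 ε, F ε = 𝔼 ε : Cube (Fin n), (F (Fin.cons true ε) + F (Fin.cons false ε)) / 2 := by
  rw [← Fintype.expect_equiv (Fin.consEquiv fun _ : Fin (n + 1) => Bool)
    (fun p => F (Fin.cons p.1 p.2)) F (fun _ => rfl), ← univ_product_univ, expect_product,
    expect_comm]
  refine expect_congr rfl fun ε _ => ?_
  rw [Fintype.expect_eq_sum_div_card]
  simp

lemma bonami_mix {n : ℕ} (s₀ t t' : Bool) (s ε ε' : Cube (Fin n)) :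
    mix (Fin.cons s₀ s : Cube (Fin (n + 1))) (Fin.cons t ε) (Fin.cons t' ε') =
      Fin.cons (if s₀ then t else t') (mix s ε ε') := by
  funext i
  refine Fin.cases ?_ (fun j => ?_) i <;> simp [mix]

lemma bonami_noise {n : ℕ} (f : Cube (Fin (n + 1)) → ℝ) (t : Bool) (ε : Cube (Fin n)) :
    noise f (Fin.cons t ε) =
      noise (fun η => (f (Fin.cons true η) + f (Fin.cons false η)) / 2) ε +
        sg t / 2 * noise (fun η => (f (Fin.cons true η) - f (Fin.cons false η)) / 2) ε := by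
  unfold noise
  rw [bonami_split, mul_expect, ← expect_add_distrib]
  refine expect_congr rfl fun s _ => ?_
  rw [bonami_split, bonami_split, mul_expect, ← expect_add_distrib, ← expect_add_distrib,
    expect_div]
  refine expect_congr rfl fun ε' _ => ?_
  simp only [bonami_mix]
  cases t <;> simp <;> ring

lemma bonami_fin (n : ℕ) : ∀ f : Cube (Fin n) → ℝ,
    𝔼 ε, noise f ε ^ 4 ≤ (𝔼 ε, f ε ^ 2) ^ 2 := by
  induction n with
  | zero =>
    intro f
    have h : ∀ ε : Cube (Fin 0), ε = default := fun ε => Subsingleton.elim _ _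
    have h1 : ∀ ε, noise f ε = f default := by
      intro ε
      unfold noise
      simp only [h (mix _ _ _), Fintype.expect_const]
    have h2 : ∀ ε, f ε = f default := fun ε => by rw [h ε]
    simp only [h1, h2, Fintype.expect_const]
    exact le_of_eq (by ring)
  | succ n ih =>
    intro f
    set a : Cube (Fin n) → ℝ := fun η => (f (Fin.cons true η) + f (Fin.cons false η)) / 2 with ha
    set b : Cube (Fin n) → ℝ := fun η => (f (Fin.cons true η) - f (Fin.cons false η)) / 2 with hb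
    have h4 : 𝔼 ε, noise f ε ^ 4 = 𝔼 ε, noise a ε ^ 4 +
        3 / 2 * 𝔼 ε, noise a ε ^ 2 * noise b ε ^ 2 + 1 / 16 * 𝔼 ε, noise b ε ^ 4 := by
      rw [bonami_split, mul_expect, mul_expect, ← expect_add_distrib, ← expect_add_distrib]
      refine expect_congr rfl fun ε _ => ?_
      rw [bonami_noise, bonami_noise, ← ha, ← hb, sg_true, sg_false]
      ring
    have h2 : 𝔼 ε, f ε ^ 2 = 𝔼 ε, a ε ^ 2 + 𝔼 ε, b ε ^ 2 := by
      rw [bonami_split, ← expect_add_distrib]
      refine expect_congr rfl fun ε _ => ?_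
      simp only [ha, hb]
      ring
    have hA : 0 ≤ 𝔼 ε, a ε ^ 2 := expect_nonneg fun _ _ => sq_nonneg _
    have hB : 0 ≤ 𝔼 ε, b ε ^ 2 := expect_nonneg fun _ _ => sq_nonneg _
    have hcs := expect_mul_sq_le_sq_mul_sq univ (fun ε => noise a ε ^ 2) (fun ε => noise b ε ^ 2)
    simp only [← pow_mul] at hcs
    have hX : 0 ≤ 𝔼 ε, noise b ε ^ 4 := expect_nonneg fun _ _ => by positivity
    have hm : 𝔼 ε, noise a ε ^ 2 * noise b ε ^ 2 ≤ (𝔼 ε, a ε ^ 2) * 𝔼 ε, b ε ^ 2 := by
      refine abs_le_of_sq_le_sq' ?_ (mul_nonneg hA hB) |>.2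
      rw [mul_pow]
      exact hcs.trans (mul_le_mul (ih a) (ih b) hX (sq_nonneg _))
    rw [h4, h2]
    nlinarith [ih a, ih b, mul_nonneg hA hB, sq_nonneg (𝔼 ε, b ε ^ 2)]

/-- Hypercontractivity from `L²` to `L⁴`. Suggested proof: induction on the index type
(`Fintype.induction_empty_option`, or prove it for `Fin n` and transport, or induct on a finset of
active coordinates). For one more coordinate write `f (t, ε) = a ε + sg t * b ε`; then
`noise f (t, ε) = noise a ε + sg t / 2 * noise b ε`, so with `A = 𝔼 a ^ 2`, `B = 𝔼 b ^ 2`: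
`𝔼 (noise f) ^ 4 = 𝔼 (Ta) ^ 4 + 3 / 2 * 𝔼 (Ta) ^ 2 * (Tb) ^ 2 + 𝔼 (Tb) ^ 4 / 16
 ≤ A ^ 2 + 3 / 2 * A * B + B ^ 2 / 16 ≤ (A + B) ^ 2` by Cauchy-Schwarz, and `𝔼 f ^ 2 = A + B`. -/
theorem bonami {ι : Type*} [Fintype ι] [DecidableEq ι] (f : Cube ι → ℝ) :
    𝔼 ε, noise f ε ^ 4 ≤ (𝔼 ε, f ε ^ 2) ^ 2 := by
  let e : (Cube (Fin (Fintype.card ι))) ≃ Cube ι :=
    Equiv.arrowCongr (Fintype.equivFin ι).symm (Equiv.refl Bool)
  have hn : ∀ ε, noise (fun η => f (e η)) ε = noise f (e ε) := by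
    intro ε
    unfold noise
    exact Fintype.expect_equiv e _ _ fun s => Fintype.expect_equiv e _ _ fun ε' => rfl
  have h := bonami_fin _ fun η => f (e η)
  simp only [hn] at h
  rwa [Fintype.expect_equiv e _ (fun ε => noise f ε ^ 4) fun _ => rfl,
    Fintype.expect_equiv e _ (fun ε => f ε ^ 2) fun _ => rfl] at h

end Pool.Agent.Lib.MP_e0f470_an
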