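import Mathlib

/-! Statement level definitions for problem MP_e0f470_an. -/

set_option autoImplicit false

namespace Pool.Agent.Lib.MP_e0f470_an

universe v

/-- The index of a normed space: the supremum, over all Schauder bases `b`, of the inverse of the
basis constant `sup_m ‖s_m‖` of `b` (zero if there is no basis). -/
noncomputable def basisIndex (𝕜 : Type*) [RCLike 𝕜] (X : Type*) [NormedAddCommGroup X]
    [NormedSpace 𝕜 X] : ℝ :=
  ⨆ b : SchauderBasis 𝕜 X, ((b.nnnormProjBound : ℝ))⁻¹

/-- For every `n ≥ 1` the space `E` has an equivalent norm (a normed space `X` linearly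
homeomorphic to `E`) whose index lies strictly between `0` and `1 / n`. -/
def SmallIndexRenormings (𝕜 : Type*) [RCLike 𝕜] (E : Type v) [NormedAddCommGroup E]
    [NormedSpace 𝕜 E] : Prop :=
  ∀ n : ℕ, 1 ≤ n → ∃ (X : Type v) (_ : NormedAddCommGroup X) (_ : NormedSpace 𝕜 X),
    Nonempty (E ≃L[𝕜] X) ∧ 0 < basisIndex 𝕜 X ∧ basisIndex 𝕜 X < 1 / (n : ℝ)

end Pool.Agent.Lib.MP_e0f470_an
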