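import Pool.Agent.Lib.MP_e0f470_an.Base

/-! Fourier analysis on the discrete cube. -/

set_option autoImplicit false

namespace Pool.Agent.Lib.MP_e0f470_an

open Finset
open scoped BigOperators

variable {𝕜 : Type*} [RCLike 𝕜]

section
variable {ι : Type*} [Fintype ι] [DecidableEq ι]

/-- Averages are invariant under `ε ↦ neg ε` (an involution of the cube). -/
lemma expect_neg (f : Cube ι → ℝ) : 𝔼 ε, f (neg ε) = 𝔼 ε, f ε := by
  have hinv : Function.Involutive (neg : Cube ι → Cube ι) := fun ε => neg_neg_cube ε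
  exact Fintype.expect_equiv hinv.toPerm _ _ fun ε => rfl

omit [Fintype ι] in
lemma four_flip_invol (i : ι) :
    Function.Involutive (fun ε : Cube ι => Function.update ε i (!ε i)) := by
  intro ε
  funext j
  by_cases h : j = i
  · subst h
    simp
  · simp [Function.update_of_ne h]

lemma four_expect_flip (i : ι) (f : Cube ι → ℝ) :
    𝔼 ε, f (Function.update ε i (!ε i)) = 𝔼 ε, f ε :=
  Fintype.expect_equiv (four_flip_invol i).toPerm _ _ fun _ => rfl

/-- Averaging out one coordinate first. Hint: flipping coordinate `i` is an involution, so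
`𝔼 f = 𝔼 (f ε + f (flip ε)) / 2`, and the two values are those at the two updates. -/
lemma expect_update (i : ι) (f : Cube ι → ℝ) :
    𝔼 ε, f ε = 𝔼 ε, (f (Function.update ε i true) + f (Function.update ε i false)) / 2 := by
  have h1 : ∀ ε : Cube ι, (f (Function.update ε i true) + f (Function.update ε i false)) / 2 =
      (1 / 2) * (f ε + f (Function.update ε i (!ε i))) := by
    intro ε
    rcases h : ε i with _ | _
    · have : Function.update ε i false = ε := by rw [← h]; exact Function.update_eq_self i ε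
      rw [this, Bool.not_false]
      ring
    · have : Function.update ε i true = ε := by rw [← h]; exact Function.update_eq_self i ε
      rw [this, Bool.not_true]
      ring
  simp only [h1]
  rw [← Finset.mul_expect, Finset.expect_add_distrib, four_expect_flip]
  ring

/-- Averages of products of functions of single coordinates factor
(`Finset.prod_univ_sum`, `Fintype.piFinset_univ`). -/
lemma expect_prod_coord {Ω : Type*} [Fintype Ω] (f : ι → Ω → ℝ) :
    𝔼 z : ι → Ω, ∏ i, f i (z i) = ∏ i, 𝔼 t : Ω, f i t := by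
  simp only [Finset.expect_eq_sum_div_card]
  rw [Finset.prod_div_distrib, Finset.prod_univ_sum, Fintype.piFinset_univ, Finset.prod_const,
    Finset.card_univ, Finset.card_univ, Finset.card_univ, Fintype.card_fun]
  push_cast
  rfl

omit [Fintype ι] [DecidableEq ι] in
lemma abs_chi (S : Finset ι) (ε : Cube ι) : |chi S ε| = 1 := by
  unfold chi
  rw [Finset.abs_prod]
  exact Finset.prod_eq_one fun i _ => abs_sg _

omit [Fintype ι] [DecidableEq ι] in
lemma chi_neg (S : Finset ι) (ε : Cube ι) : chi S (neg ε) = (-1) ^ S.card * chi S ε := by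
  unfold chi
  rw [← Finset.prod_const, ← Finset.prod_mul_distrib]
  refine Finset.prod_congr rfl fun i _ => ?_
  rw [neg, sg_not]
  ring

lemma four_chi_eq (S : Finset ι) (ε : Cube ι) :
    chi S ε = ∏ i, if i ∈ S then sg (ε i) else 1 := by
  unfold chi
  rw [Finset.prod_ite_mem, Finset.univ_inter]

lemma four_expect_bool (g : Bool → ℝ) : 𝔼 b : Bool, g b = (g true + g false) / 2 := by
  rw [Finset.expect_eq_sum_div_card]
  simp

/-- Orthogonality of characters. Write `chi S ε * chi T ε` as a product over all coordinates and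
use `expect_prod_coord`. -/
lemma expect_chi_mul (S T : Finset ι) :
    𝔼 ε : Cube ι, chi S ε * chi T ε = if S = T then 1 else 0 := by
  have h1 : ∀ ε : Cube ι, chi S ε * chi T ε =
      ∏ i, (fun i b => (if i ∈ S then sg b else 1) * (if i ∈ T then sg b else 1)) i (ε i) := by
    intro ε
    rw [four_chi_eq, four_chi_eq, ← Finset.prod_mul_distrib]
  simp only [h1]
  rw [expect_prod_coord (fun i b => (if i ∈ S then sg b else 1) * (if i ∈ T then sg b else 1))]
  simp only [four_expect_bool]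
  split_ifs with h
  · subst h
    refine Finset.prod_eq_one fun i _ => ?_
    by_cases hi : i ∈ S <;> simp [hi]
  · obtain ⟨i, hi⟩ : ∃ i, ¬ (i ∈ S ↔ i ∈ T) := by
      by_contra hc
      push Not at hc
      exact h (Finset.ext hc)
    refine Finset.prod_eq_zero (Finset.mem_univ i) ?_
    by_cases h1 : i ∈ S <;> by_cases h2 : i ∈ T <;> simp_all

/-- Dual orthogonality: `∑ S, ∏ i ∈ S, t i = ∏ i, (1 + t i)` (`Finset.prod_one_add`). -/
lemma sum_chi_mul (ε ε' : Cube ι) :
    ∑ S : Finset ι, chi S ε * chi S ε' = if ε = ε' then (2 : ℝ) ^ Fintype.card ι else 0 := by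
  have h1 : ∀ S : Finset ι, chi S ε * chi S ε' = ∏ i ∈ S, sg (ε i) * sg (ε' i) := by
    intro S
    unfold chi
    rw [Finset.prod_mul_distrib]
  simp only [h1]
  rw [← Finset.powerset_univ, ← Finset.prod_one_add]
  split_ifs with h
  · subst h
    simp only [sg_mul_self]
    rw [Finset.prod_const, Finset.card_univ]
    norm_num
  · obtain ⟨i, hi⟩ := Function.ne_iff.1 h
    refine Finset.prod_eq_zero (Finset.mem_univ i) ?_
    rcases h1 : ε i <;> rcases h2 : ε' i <;> simp_all

lemma expect_sg_mul (i j : ι) :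
    𝔼 ε : Cube ι, sg (ε i) * sg (ε j) = if i = j then 1 else 0 := by
  have := expect_chi_mul ({i} : Finset ι) {j}
  simpa [chi] using this

lemma four_expect_prod_coord2 (f : ι → Bool → Bool → ℝ) :
    𝔼 s : Cube ι, 𝔼 ε' : Cube ι, ∏ i, f i (s i) (ε' i) =
      ∏ i, 𝔼 a : Bool, 𝔼 b : Bool, f i a b := by
  have h1 : ∀ s : Cube ι, 𝔼 ε' : Cube ι, ∏ i, f i (s i) (ε' i) = ∏ i, 𝔼 b : Bool, f i (s i) b :=
    fun s => expect_prod_coord (fun i b => f i (s i) b)
  simp only [h1]
  exact expect_prod_coord (fun i a => 𝔼 b : Bool, f i a b)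

/-- The character at a mixed point, averaged over the selector and the second point. -/
lemma expect_chi_mix (S : Finset ι) (ε : Cube ι) :
    𝔼 s : Cube ι, 𝔼 ε' : Cube ι, chi S (mix s ε ε') = (1 / 2) ^ S.card * chi S ε := by
  have h1 : ∀ s ε' : Cube ι, chi S (mix s ε ε') =
      ∏ i, (fun i (a b : Bool) => if i ∈ S then sg (if a then ε i else b) else 1) i (s i) (ε' i) :=
    fun s ε' => four_chi_eq S _
  simp only [h1]
  rw [four_expect_prod_coord2
    (fun i (a b : Bool) => if i ∈ S then sg (if a then ε i else b) else 1)]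
  simp only [four_expect_bool]
  unfold chi
  rw [← Finset.prod_const, ← Finset.prod_mul_distrib, ← Finset.univ_inter S,
    ← Finset.prod_ite_mem]
  refine Finset.prod_congr rfl fun i _ => ?_
  by_cases hi : i ∈ S
  · simp [hi]
    ring
  · simp [hi]

/-- For a fixed selector the map `(ε, ε') ↦ (mix s ε ε', mix s ε' ε)` is an involution. -/
lemma expect_mix_mix (s : Cube ι) (F : Cube ι → Cube ι → ℝ) :
    𝔼 ε, 𝔼 ε', F (mix s ε ε') (mix s ε' ε) = 𝔼 ε, 𝔼 ε', F ε ε' := by
  have hinv : Function.Involutive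
      (fun p : Cube ι × Cube ι => (mix s p.1 p.2, mix s p.2 p.1)) := by
    rintro ⟨a, b⟩
    refine Prod.ext ?_ ?_ <;> funext i <;> rcases h : s i <;> simp [mix, h]
  have h1 := Fintype.expect_equiv hinv.toPerm
    (fun p : Cube ι × Cube ι => F (mix s p.1 p.2) (mix s p.2 p.1)) (fun p => F p.1 p.2)
    fun _ => rfl
  rw [← Finset.univ_product_univ, Finset.expect_product, Finset.expect_product] at h1
  exact h1

variable {W : Type*} [AddCommGroup W] [Module 𝕜 W]

variable (𝕜) in
/-- Fourier coefficient of a vector valued function. -/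
noncomputable def fc (f : Cube ι → W) (S : Finset ι) : W :=
  ((2 : 𝕜) ^ Fintype.card ι)⁻¹ • ∑ ε, ((chi S ε : ℝ) : 𝕜) • f ε

/-- Fourier inversion (from `sum_chi_mul`). -/
lemma fourier_inv (f : Cube ι → W) (ε : Cube ι) :
    f ε = ∑ S : Finset ι, ((chi S ε : ℝ) : 𝕜) • fc 𝕜 f S := by
  unfold fc
  simp only [Finset.smul_sum, smul_smul]
  rw [Finset.sum_comm]
  simp only [← Finset.sum_smul]
  have h1 : ∀ ε' : Cube ι, ∑ S : Finset ι, ((chi S ε : ℝ) : 𝕜) *
      (((2 : 𝕜) ^ Fintype.card ι)⁻¹ * ((chi S ε' : ℝ) : 𝕜)) = if ε = ε' then 1 else 0 := by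
    intro ε'
    have h2 : ∑ S : Finset ι, ((chi S ε : ℝ) : 𝕜) *
        (((2 : 𝕜) ^ Fintype.card ι)⁻¹ * ((chi S ε' : ℝ) : 𝕜)) =
        ((2 : 𝕜) ^ Fintype.card ι)⁻¹ * ((∑ S : Finset ι, chi S ε * chi S ε' : ℝ) : 𝕜) := by
      push_cast
      rw [Finset.mul_sum]
      exact Finset.sum_congr rfl fun S _ => by ring
    rw [h2, sum_chi_mul]
    split_ifs with h
    · push_cast
      exact inv_mul_cancel₀ (pow_ne_zero _ two_ne_zero)
    · simp
  simp only [h1]
  simp

variable {H : Type*} [NormedAddCommGroup H] [InnerProductSpace 𝕜 H]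

lemma four_re_inner (F : Finset (Finset ι)) (a b : Finset ι → H) :
    𝔼 ε : Cube ι, RCLike.re (inner 𝕜 (∑ S ∈ F, ((chi S ε : ℝ) : 𝕜) • a S)
      (∑ S ∈ F, ((chi S ε : ℝ) : 𝕜) • b S)) = ∑ S ∈ F, RCLike.re (inner 𝕜 (a S) (b S)) := by
  have h1 : ∀ ε : Cube ι, RCLike.re (inner 𝕜 (∑ S ∈ F, ((chi S ε : ℝ) : 𝕜) • a S)
      (∑ S ∈ F, ((chi S ε : ℝ) : 𝕜) • b S)) =
      ∑ S ∈ F, ∑ T ∈ F, (chi S ε * chi T ε) * RCLike.re (inner 𝕜 (a S) (b T)) := by
    intro ε
    rw [sum_inner, map_sum]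
    refine Finset.sum_congr rfl fun S _ => ?_
    rw [inner_sum, map_sum]
    refine Finset.sum_congr rfl fun T _ => ?_
    rw [inner_smul_left, inner_smul_right, RCLike.conj_ofReal, ← mul_assoc, ← RCLike.ofReal_mul,
      RCLike.re_ofReal_mul]
  simp only [h1]
  rw [Finset.expect_sum_comm]
  refine Finset.sum_congr rfl fun S hS => ?_
  rw [Finset.expect_sum_comm]
  simp only [← Finset.expect_mul, expect_chi_mul]
  simp [hS]

/-- Norm of a Walsh polynomial (expand the inner product, use `expect_chi_mul`). -/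
lemma expect_norm_sq_walsh (F : Finset (Finset ι)) (a : Finset ι → H) :
    𝔼 ε : Cube ι, ‖∑ S ∈ F, ((chi S ε : ℝ) : 𝕜) • a S‖ ^ 2 = ∑ S ∈ F, ‖a S‖ ^ 2 := by
  simp only [← inner_self_eq_norm_sq (𝕜 := 𝕜)]
  exact four_re_inner F a a

/-- Real part of the averaged inner product of two Walsh polynomials. -/
lemma expect_re_inner_walsh (F : Finset (Finset ι)) (a b : Finset ι → H) :
    𝔼 ε : Cube ι, RCLike.re (inner 𝕜 (∑ S ∈ F, ((chi S ε : ℝ) : 𝕜) • a S)
      (∑ S ∈ F, ((chi S ε : ℝ) : 𝕜) • b S)) = ∑ S ∈ F, RCLike.re (inner 𝕜 (a S) (b S)) := by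
  exact four_re_inner F a b

lemma four_sum_sg_mul (i j : ι) :
    ∑ ε : Cube ι, sg (ε i) * sg (ε j) = if i = j then (2 : ℝ) ^ Fintype.card ι else 0 := by
  have h := expect_sg_mul i j
  rw [Finset.expect_eq_sum_div_card, Finset.card_univ, Fintype.card_fun, Fintype.card_bool,
    div_eq_iff (by positivity)] at h
  rw [h]
  split_ifs <;> simp

lemma four_sum_inner_rs (x y : ι → H) :
    ∑ ε, inner 𝕜 (rs x ε) (rs y ε) = (2 : 𝕜) ^ Fintype.card ι * ∑ i, inner 𝕜 (x i) (y i) := by
  have h1 : ∀ ε : Cube ι, inner 𝕜 (rs x ε) (rs y ε) =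
      ∑ i, ∑ j, ((sg (ε i) * sg (ε j) : ℝ) : 𝕜) * inner 𝕜 (x i) (y j) := by
    intro ε
    rw [rs_eq_smul (𝕜 := 𝕜), rs_eq_smul (𝕜 := 𝕜), sum_inner]
    refine Finset.sum_congr rfl fun i _ => ?_
    rw [inner_sum]
    refine Finset.sum_congr rfl fun j _ => ?_
    rw [inner_smul_left, inner_smul_right, RCLike.conj_ofReal, ← mul_assoc, ← RCLike.ofReal_mul]
  simp only [h1]
  rw [Finset.sum_comm, Finset.mul_sum]
  refine Finset.sum_congr rfl fun i _ => ?_
  rw [Finset.sum_comm]
  have h2 : ∀ j, ∑ ε : Cube ι, ((sg (ε i) * sg (ε j) : ℝ) : 𝕜) * inner 𝕜 (x i) (y j) =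
      if i = j then (2 : 𝕜) ^ Fintype.card ι * inner 𝕜 (x i) (y j) else 0 := by
    intro j
    rw [← Finset.sum_mul, ← RCLike.ofReal_sum, four_sum_sg_mul]
    split_ifs
    · push_cast
      rfl
    · simp
  simp only [h2]
  simp

include 𝕜 in
/-- The second moment of a Rademacher sum in an inner product space. -/
lemma khin2 (x : ι → H) : 𝔼 ε, ‖rs x ε‖ ^ 2 = ∑ i, ‖x i‖ ^ 2 := by
  have h := congrArg RCLike.re (four_sum_inner_rs (𝕜 := 𝕜) x x)
  have e : (2 : 𝕜) ^ Fintype.card ι = (((2 : ℝ) ^ Fintype.card ι : ℝ) : 𝕜) := by push_cast; rfl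
  rw [e, RCLike.re_ofReal_mul, map_sum, map_sum] at h
  simp only [inner_self_eq_norm_sq] at h
  rw [Finset.expect_eq_sum_div_card, Finset.card_univ, Fintype.card_fun, Fintype.card_bool, h,
    div_eq_iff (by positivity)]
  push_cast
  ring

/-- Sum over the cube of inner products of Rademacher sums. -/
lemma sum_inner_rs (x y : ι → H) :
    ∑ ε, inner 𝕜 (rs x ε) (rs y ε) = (2 : 𝕜) ^ Fintype.card ι * ∑ i, inner 𝕜 (x i) (y i) := by
  exact four_sum_inner_rs x y

lemma four_inv_real (f : Cube ι → ℝ) (ε : Cube ι) :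
    f ε = ∑ S : Finset ι, chi S ε * 𝔼 ε', chi S ε' * f ε' := by
  rw [fourier_inv (𝕜 := ℝ) f ε]
  refine Finset.sum_congr rfl fun S _ => ?_
  rw [fc, Finset.expect_eq_sum_div_card, Finset.card_univ, Fintype.card_fun, Fintype.card_bool]
  simp [div_eq_inv_mul]

lemma four_planch (f g : Cube ι → ℝ) :
    𝔼 ε, f ε * g ε = ∑ S : Finset ι, (𝔼 ε, chi S ε * f ε) * (𝔼 ε, chi S ε * g ε) := by
  have h1 : ∀ ε, f ε * g ε =
      ∑ S : Finset ι, (𝔼 ε', chi S ε' * f ε') * (chi S ε * g ε) := by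
    intro ε
    rw [four_inv_real f ε, Finset.sum_mul]
    exact Finset.sum_congr rfl fun S _ => by ring
  rw [Finset.expect_congr rfl fun ε _ => h1 ε, Finset.expect_sum_comm]
  exact Finset.sum_congr rfl fun S _ => by rw [← Finset.mul_expect]

lemma four_chi_flip (S : Finset ι) (i : ι) (ε : Cube ι) :
    chi S (Function.update ε i (!ε i)) = (if i ∈ S then -1 else 1) * chi S ε := by
  rw [four_chi_eq, four_chi_eq, ← Finset.mul_prod_erase _ _ (Finset.mem_univ i),
    ← Finset.mul_prod_erase _ _ (Finset.mem_univ i), ← mul_assoc]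
  congr 1
  · by_cases hi : i ∈ S <;> simp [hi, sg_not]
  · refine Finset.prod_congr rfl fun j hj => ?_
    rw [Function.update_of_ne (Finset.mem_erase.1 hj).1]

/-- Parseval and the spectral form of the Dirichlet form for real functions:
`𝔼 f ^ 2 = ∑ S, a S ^ 2` and `∑ i, 𝔼 f ε * f (flip i ε) = ∑ S, (n - 2 * #S) * a S ^ 2`,
where `a S = 𝔼 chi S * f`. -/
lemma parseval_real (f : Cube ι → ℝ) :
    𝔼 ε, f ε ^ 2 = ∑ S : Finset ι, (𝔼 ε, chi S ε * f ε) ^ 2 := by
  simp only [sq]
  exact four_planch f f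

lemma dirichlet_real (f : Cube ι → ℝ) :
    ∑ i, 𝔼 ε, f ε * f (Function.update ε i (!ε i)) =
      ∑ S : Finset ι, ((Fintype.card ι : ℝ) - 2 * S.card) * (𝔼 ε, chi S ε * f ε) ^ 2 := by
  have h1 : ∀ (i : ι) (S : Finset ι), 𝔼 ε, chi S ε * f (Function.update ε i (!ε i)) =
      (if i ∈ S then -1 else 1) * 𝔼 ε, chi S ε * f ε := by
    intro i S
    rw [Finset.mul_expect, ← four_expect_flip i
      (fun ε => (if i ∈ S then -1 else 1) * (chi S ε * f ε))]
    refine Finset.expect_congr rfl fun ε _ => ?_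
    rw [four_chi_flip]
    split_ifs <;> ring
  have h2 : ∀ i : ι, 𝔼 ε, f ε * f (Function.update ε i (!ε i)) =
      ∑ S : Finset ι, (if i ∈ S then -1 else 1) * (𝔼 ε, chi S ε * f ε) ^ 2 := by
    intro i
    rw [four_planch f (fun ε => f (Function.update ε i (!ε i)))]
    refine Finset.sum_congr rfl fun S _ => ?_
    rw [h1]
    ring
  simp only [h2]
  rw [Finset.sum_comm]
  refine Finset.sum_congr rfl fun S _ => ?_
  rw [← Finset.sum_mul]
  congr 1
  have h3 : ∀ i : ι, (if i ∈ S then (-1 : ℝ) else 1) = 1 - 2 * (if i ∈ S then 1 else 0) := by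
    intro i
    split_ifs <;> norm_num
  simp only [h3]
  rw [Finset.sum_sub_distrib, ← Finset.mul_sum]
  simp

end

end Pool.Agent.Lib.MP_e0f470_an
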