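import Pool.Agent.Lib.MP_e0f470_an.GluskA

/-! Gluskin's lemma: existence of a rigid family of sign vectors. -/

set_option autoImplicit false

namespace Pool.Agent.Lib.MP_e0f470_an

open Finset
open scoped BigOperators

variable {𝕜 : Type*} [RCLike 𝕜]

/-- The numerical heart of the union bound. Use `poly_le_exp` twice with a small `κ` such that
`κ * (2 * D ^ 2 + s) < c * D / (10 * (s + 1))`, and `n ^ 3 / (s + 1) ≥ n ^ 3 / (2 (s + 1))` (real)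
once `s + 1 ≤ n ^ 3`. -/
lemma glusk_count {c : ℝ} (hc : 0 < c) (R L s D : ℕ) (hD : 0 < D) :
    ∃ n₀ : ℕ, ∀ n : ℕ, n₀ ≤ n →
      ((2 * R * (D * n ^ 2 * L) + 1 : ℕ) : ℝ) ^ (2 * ((D * n ^ 2) * (D * n ^ 2))) *
        (((D * n ^ 2 + n ^ 3) * 5 : ℕ) : ℝ) ^ (s * n ^ 3) *
        Real.exp (-(c / 5 * (D * n ^ 2 : ℕ))) ^ (n ^ 3 / (s + 1)) < 1 := by
  have hD' : (0 : ℝ) < D := by exact_mod_cast hD
  set β : ℝ := c * D / (10 * (s + 1)) with hβ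
  have hβ0 : 0 < β := by positivity
  set κ : ℝ := β / (2 * D ^ 2 + s + 1) with hκ
  have hκ0 : 0 < κ := by positivity
  have hκβ : κ * (2 * D ^ 2 + s) < β := by
    have : κ * (2 * D ^ 2 + s + 1) = β := by
      rw [hκ]; field_simp
    nlinarith
  obtain ⟨n₁, h1⟩ := poly_le_exp (2 * R * D * L + 1 : ℝ) 2 hκ0
  obtain ⟨n₂, h2⟩ := poly_le_exp (5 * (D + 1) : ℝ) 3 hκ0
  refine ⟨max (max n₁ n₂) (s + 1), fun n hn => ?_⟩
  have hn1 : n₁ ≤ n := le_trans (le_trans (le_max_left _ _) (le_max_left _ _)) hn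
  have hn2 : n₂ ≤ n := le_trans (le_trans (le_max_right _ _) (le_max_left _ _)) hn
  have hns : s + 1 ≤ n := le_trans (le_max_right _ _) hn
  have hn0 : 1 ≤ n := by omega
  have hnr : (1 : ℝ) ≤ n := by exact_mod_cast hn0
  have hA : ((2 * R * (D * n ^ 2 * L) + 1 : ℕ) : ℝ) ≤ Real.exp (κ * n) := by
    refine le_trans ?_ (h1 n hn1)
    push_cast
    have : (1 : ℝ) ≤ (n : ℝ) ^ 2 := one_le_pow₀ hnr
    nlinarith
  have hB : (((D * n ^ 2 + n ^ 3) * 5 : ℕ) : ℝ) ≤ Real.exp (κ * n) := by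
    refine le_trans ?_ (h2 n hn2)
    push_cast
    have : (n : ℝ) ^ 2 ≤ (n : ℝ) ^ 3 := pow_le_pow_right₀ hnr (by norm_num)
    nlinarith
  set m : ℕ := n ^ 3 / (s + 1) with hm
  have hn3 : s + 1 ≤ n ^ 3 := le_trans hns (Nat.le_self_pow (by norm_num) n)
  have hm1 : 1 ≤ m := Nat.div_pos hn3 (Nat.succ_pos _)
  have hm2 : n ^ 3 < m * (s + 1) + (s + 1) := Nat.lt_div_mul_add (Nat.succ_pos _)
  have hm3 : (n : ℝ) ^ 3 ≤ 2 * (s + 1) * m := by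
    have : n ^ 3 ≤ 2 * (s + 1) * m := by nlinarith
    exact_mod_cast this
  have hA' := pow_le_pow_left₀ (Nat.cast_nonneg _) hA (2 * ((D * n ^ 2) * (D * n ^ 2)))
  have hB' := pow_le_pow_left₀ (Nat.cast_nonneg _) hB (s * n ^ 3)
  refine lt_of_le_of_lt (mul_le_mul_of_nonneg_right
    (mul_le_mul hA' hB' (by positivity) (by positivity)) (by positivity)) ?_
  rw [← Real.exp_nat_mul, ← Real.exp_nat_mul, ← Real.exp_nat_mul, ← Real.exp_add, ← Real.exp_add,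
    Real.exp_lt_one_iff]
  push_cast
  have hs0 : (0 : ℝ) ≤ s := Nat.cast_nonneg s
  have e1 : β * (n : ℝ) ^ 5 ≤ m * (c / 5 * (D * (n : ℝ) ^ 2)) := by
    have : β * (n : ℝ) ^ 5 = c * D * (n : ℝ) ^ 2 / (10 * (s + 1)) * (n : ℝ) ^ 3 := by
      rw [hβ]; ring
    rw [this]
    refine le_trans (mul_le_mul_of_nonneg_left hm3 (by positivity)) (le_of_eq ?_)
    field_simp
    ring
  have e2 : (n : ℝ) ^ 4 ≤ (n : ℝ) ^ 5 := pow_le_pow_right₀ hnr (by norm_num)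
  have e3 : κ * s * (n : ℝ) ^ 4 ≤ κ * s * (n : ℝ) ^ 5 :=
    mul_le_mul_of_nonneg_left e2 (by positivity)
  have e4 : κ * (2 * D ^ 2 + s) * (n : ℝ) ^ 5 < β * (n : ℝ) ^ 5 :=
    mul_lt_mul_of_pos_right hκβ (by positivity)
  nlinarith

lemma glusk_seven : (7 / 10 : ℝ) ≤ Real.exp (-(1 / 3)) := by
  have h : (11 / 12 : ℝ) ≤ Real.exp (-(1 / 12)) := by
    have := Real.add_one_le_exp (-(1 / 12) : ℝ)
    linarith
  have h2 := pow_le_pow_left₀ (by norm_num) h 4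
  rw [← Real.exp_nat_mul] at h2
  norm_num at h2 ⊢
  linarith

lemma glusk_q {c d N : ℝ} (hc : 0 < c) (hd : 0 < d) (hN : 10 ≤ c * N) :
    Real.exp ((d * √(c / 10)) ^ 2 * N / d ^ 2) * (7 / 10) ^ ⌊c * N⌋₊ ≤
      Real.exp (-(c / 5 * N)) := by
  have h1 := pow_le_pow_left₀ (by norm_num) glusk_seven ⌊c * N⌋₊
  refine le_trans (mul_le_mul_of_nonneg_left h1 (Real.exp_pos _).le) ?_
  rw [← Real.exp_nat_mul, ← Real.exp_add, Real.exp_le_exp]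
  have h2 := Nat.lt_floor_add_one (c * N)
  have h3 : (d * √(c / 10)) ^ 2 * N / d ^ 2 = c / 10 * N := by
    rw [mul_pow, Real.sq_sqrt (by positivity)]
    field_simp
  rw [h3]
  linarith

lemma glusk_norm_rs_le {ι W : Type*} [Fintype ι] [NormedAddCommGroup W] (x : ι → W) {t : ℝ}
    (hx : ∀ i, ‖x i‖ ≤ t) (ε : Cube ι) : ‖rs x ε‖ ≤ Fintype.card ι * t := by
  unfold rs
  refine (norm_sum_le _ _).trans ?_
  have : ∑ i, ‖if ε i then x i else -x i‖ ≤ ∑ _i : ι, t := by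
    refine Finset.sum_le_sum fun i _ => ?_
    split_ifs
    · exact hx i
    · rw [norm_neg]; exact hx i
  simpa using this

lemma glusk_norm_le {ι : Type} [Fintype ι] (x : Eu 𝕜 ι) {t : ℝ} (ht : 0 ≤ t)
    (hx : ∀ i, ‖x i‖ ≤ t) : ‖x‖ ≤ √(Fintype.card ι : ℝ) * t := by
  rw [EuclideanSpace.norm_eq, ← Real.sqrt_sq ht, ← Real.sqrt_mul (Nat.cast_nonneg _)]
  refine Real.sqrt_le_sqrt ?_
  have : ∑ i, ‖x i‖ ^ 2 ≤ ∑ _i : ι, t ^ 2 :=
    Finset.sum_le_sum fun i _ => pow_le_pow_left₀ (norm_nonneg _) (hx i) 2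
  simpa using this

/-- Gluskin's lemma. Let `N = card ι = D n²`, `d = d₀ / 2`, `ϱ' = d * √(c / 10)`, `ϱ = ϱ' / 3`,
`s > 0` with `16 K² / s ≤ ϱ²`, `L > 0` with `2 / L ≤ min ϱ d`, `R = ⌈K⌉`, `k = ⌊c N⌋`,
`q = exp (-(c / 5 * N))` (valid when `10 ≤ c N`: `7/10 ≤ exp (-1/3)`, `k ≥ c N - 1`).
Take the grid `G` of `grid_net (ι × ι) R (N * L)`; each `t ∈ G` gives columns `w' i = (t (i, ·))`.
Call `t` bad if `∀ lam, ‖lam‖ ≤ 2 K → ¬ Near w' lam k d`. By `glusk_fixed` (radius `ϱ'`) and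
`glusk_count` the average over `g` of `∑ (t bad) ∑ f, ∏ j, indicator` is below one, so for some `g`
every product vanishes. If `w` satisfies the hypotheses but not the conclusion, round it to `t`
(columns move by at most `2 √N / (N L) ≤ d`, and `(√N)⁻¹ • rs` moves by at most `2 / L ≤ ϱ`); then
`t` is bad, and `maurey_pat` gives patterns `f j` with all indicators equal to one. -/
theorem gluskin {K c d₀ : ℝ} (hK : 1 ≤ K) (hc : 0 < c) (hd₀ : 0 < d₀) (D : ℕ) (hD : 0 < D) :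
    ∃ ϱ : ℝ, 0 < ϱ ∧ ∃ n₀ : ℕ, ∀ n : ℕ, n₀ ≤ n →
      ∀ (ι : Type) [Fintype ι] [DecidableEq ι], Fintype.card ι = D * n ^ 2 →
        ∃ g : Fin (n ^ 3) → Cube ι, ∀ w : ι → Eu 𝕜 ι, (∀ i, ‖w i‖ ≤ K) →
          (∀ j, ∃ c' : ι ⊕ Fin (n ^ 3) → 𝕜, ∑ a, ‖c' a‖ ≤ K ∧
            ‖((√(Fintype.card ι : ℝ) : ℝ) : 𝕜)⁻¹ • rs w (g j) - ∑ a, c' a • vecs 𝕜 g a‖ ≤ ϱ) →
          ∃ lam : 𝕜, ‖lam‖ ≤ 2 * K ∧ Near w lam (c * Fintype.card ι) d₀ := by
  classical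
  have hK0 : 0 < K := by linarith
  set d : ℝ := d₀ / 2 with hd
  have hd0 : 0 < d := by positivity
  set ϱ' : ℝ := d * √(c / 10) with hϱ'
  have hϱ'0 : 0 < ϱ' := by
    have : 0 < √(c / 10) := Real.sqrt_pos.2 (by positivity)
    positivity
  set ϱ : ℝ := ϱ' / 3 with hϱ
  have hϱ0 : 0 < ϱ := by positivity
  obtain ⟨s, hs⟩ := exists_nat_gt (16 * K ^ 2 / ϱ ^ 2)
  have hsr : (0 : ℝ) < s := lt_trans (by positivity) hs
  have hs0 : 0 < s := by exact_mod_cast hsr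
  have hsϱ : 16 * K ^ 2 / s ≤ ϱ ^ 2 := by
    rw [div_lt_iff₀ (by positivity)] at hs
    rw [div_le_iff₀ hsr]
    linarith
  have hmin : 0 < min ϱ d := lt_min hϱ0 hd0
  obtain ⟨L, hL⟩ := exists_nat_gt (2 / min ϱ d)
  have hLr : (0 : ℝ) < L := lt_trans (by positivity) hL
  have hL0 : 0 < L := by exact_mod_cast hLr
  have hLm : 2 / (L : ℝ) ≤ min ϱ d := by
    rw [div_lt_iff₀ hmin] at hL
    rw [div_le_iff₀ hLr]
    linarith
  have hLϱ : 2 / (L : ℝ) ≤ ϱ := hLm.trans (min_le_left _ _)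
  have hLd : 2 / (L : ℝ) ≤ d := hLm.trans (min_le_right _ _)
  obtain ⟨n₁, hn₁⟩ := glusk_count hc ⌈K⌉₊ L s D hD
  obtain ⟨n₂, hn₂⟩ := exists_nat_gt (10 / c)
  refine ⟨ϱ, hϱ0, max n₁ (n₂ + 1), fun n hn ι _ _ hcard => ?_⟩
  have hcount := hn₁ n (le_trans (le_max_left _ _) hn)
  have hn2 : n₂ + 1 ≤ n := le_trans (le_max_right _ _) hn
  have hNn : n ≤ Fintype.card ι := by
    rw [hcard]
    calc n ≤ n ^ 2 := Nat.le_self_pow (by norm_num) n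
      _ ≤ D * n ^ 2 := Nat.le_mul_of_pos_left _ hD
  have hN1 : 1 ≤ Fintype.card ι := by omega
  have : Nonempty ι := Fintype.card_pos_iff.1 hN1
  set N : ℕ := Fintype.card ι with hNdef
  have hNr : (1 : ℝ) ≤ N := by exact_mod_cast hN1
  have hcN : 10 ≤ c * N := by
    rw [div_lt_iff₀ hc] at hn₂
    have : (n₂ : ℝ) ≤ N := by exact_mod_cast (by omega : n₂ ≤ N)
    nlinarith
  have hsq : 0 < √(N : ℝ) := Real.sqrt_pos.2 (by linarith)
  have hsqN : √(N : ℝ) ≤ N := by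
    rw [Real.sqrt_le_left (by linarith)]
    nlinarith
  set k : ℕ := ⌊c * N⌋₊ with hk
  set q : ℝ := Real.exp (-(c / 5 * N)) with hq
  have hq1 : q ≤ 1 := by
    rw [hq, Real.exp_le_one_iff]
    have : 0 ≤ c / 5 * N := by positivity
    linarith
  have hqq : Real.exp (ϱ' ^ 2 * N / d ^ 2) * (7 / 10) ^ k ≤ q := glusk_q hc hd0 hcN
  obtain ⟨G, hG, hGnet⟩ := grid_net (𝕜 := 𝕜) (ι × ι) ⌈K⌉₊ (N * L) (Nat.mul_pos hN1 hL0)
  let col : (ι × ι → 𝕜) → ι → Eu 𝕜 ι := fun t i => WithLp.toLp 2 fun j => t (i, j)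
  let Bad : (ι × ι → 𝕜) → Prop := fun t =>
    ∀ lam : 𝕜, ‖lam‖ ≤ 2 * K → ¬ Near (col t) lam k d
  let P : (ι × ι → 𝕜) → (Fin (n ^ 3) → Fin s → (ι ⊕ Fin (n ^ 3)) × Fin 5) →
      (Fin (n ^ 3) → Cube ι) → ℝ := fun t f g =>
    ∏ j, (if ‖((√(N : ℝ) : ℝ) : 𝕜)⁻¹ • rs (col t) (g j) - pat 𝕜 K g (f j)‖ ≤ ϱ' then (1 : ℝ)
      else 0)
  have hP0 : ∀ t f g, 0 ≤ P t f g := fun t f g =>
    Finset.prod_nonneg fun j _ => by split_ifs <;> norm_num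
  have havg : 𝔼 g : Fin (n ^ 3) → Cube ι, ∑ t ∈ G.filter Bad, ∑ f, P t f g < 1 := by
    rw [Finset.expect_sum_comm]
    have h1 : ∀ t ∈ G.filter Bad, 𝔼 g : Fin (n ^ 3) → Cube ι, ∑ f, P t f g ≤
        (((D * n ^ 2 + n ^ 3) * 5 : ℕ) : ℝ) ^ (s * n ^ 3) * q ^ (n ^ 3 / (s + 1)) := by
      intro t ht
      rw [Finset.expect_sum_comm]
      have h2 : ∑ f, 𝔼 g : Fin (n ^ 3) → Cube ι, P t f g ≤
          ∑ _f : Fin (n ^ 3) → Fin s → (ι ⊕ Fin (n ^ 3)) × Fin 5, q ^ (n ^ 3 / (s + 1)) :=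
        Finset.sum_le_sum fun f _ =>
          glusk_fixed hK0 hd0 hϱ'0.le k hqq hq1 (col t) (Finset.mem_filter.1 ht).2 f
      refine h2.trans (le_of_eq ?_)
      rw [Finset.sum_const, Finset.card_univ, nsmul_eq_mul]
      congr 1
      rw [Fintype.card_fun, Fintype.card_fun, Fintype.card_prod, Fintype.card_sum, ← hNdef, hcard,
        Fintype.card_fin, Fintype.card_fin, Fintype.card_fin, ← pow_mul, Nat.cast_pow]
    refine lt_of_le_of_lt (Finset.sum_le_sum h1) (lt_of_le_of_lt ?_ hcount)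
    rw [Finset.sum_const, nsmul_eq_mul, mul_assoc, hq, hcard]
    refine mul_le_mul_of_nonneg_right ?_ (by positivity)
    rw [← Nat.cast_pow, Nat.cast_le]
    refine (Finset.card_filter_le _ _).trans (hG.trans (le_of_eq ?_))
    rw [Fintype.card_prod, ← hNdef, hcard]
  obtain ⟨g, hg⟩ : ∃ g : Fin (n ^ 3) → Cube ι, ∑ t ∈ G.filter Bad, ∑ f, P t f g < 1 := by
    by_contra hcon
    push Not at hcon
    exact absurd havg (not_lt.2 (Finset.le_expect Finset.univ_nonempty fun g _ => hcon g))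
  refine ⟨g, fun w hw hrep => ?_⟩
  by_contra hcon
  push Not at hcon
  obtain ⟨t, htG, ht⟩ := hGnet (fun p => w p.1 p.2) fun p =>
    ((PiLp.norm_apply_le (w p.1) p.2).trans (hw p.1)).trans (Nat.le_ceil K)
  have hNL : (0 : ℝ) < ((N * L : ℕ) : ℝ) := by push_cast; positivity
  have hcol : ∀ i, ‖w i - col t i‖ ≤ √(N : ℝ) * (2 / ((N * L : ℕ) : ℝ)) := fun i =>
    glusk_norm_le _ (by positivity) fun j => by simpa [col] using ht (i, j)
  have hNδ : (N : ℝ) * (2 / ((N * L : ℕ) : ℝ)) = 2 / L := by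
    push_cast
    field_simp
  have hcold : ∀ i, ‖w i - col t i‖ ≤ d := fun i => by
    refine (hcol i).trans (le_trans ?_ hLd)
    rw [← hNδ]
    exact mul_le_mul_of_nonneg_right hsqN (by positivity)
  have hbad : Bad t := by
    rintro lam hlam ⟨U, hU, hU2⟩
    refine hcon lam hlam ⟨U, hU.trans (Nat.floor_le (by positivity)), fun i => ?_⟩
    obtain ⟨u, hu, hu2⟩ := hU2 i
    refine ⟨u, hu, ?_⟩
    have e : w i - lam • ev 𝕜 i - u = (w i - col t i) + (col t i - lam • ev 𝕜 i - u) := by abel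
    rw [e]
    refine (norm_add_le _ _).trans ?_
    have := hcold i
    linarith
  have hpat : ∀ j, ∃ fj : Fin s → (ι ⊕ Fin (n ^ 3)) × Fin 5,
      ‖((√(N : ℝ) : ℝ) : 𝕜)⁻¹ • rs (col t) (g j) - pat 𝕜 K g fj‖ ≤ ϱ' := by
    intro j
    obtain ⟨c', hc', hc2⟩ := hrep j
    obtain ⟨fj, hfj⟩ := maurey_pat hK0 hs0 g c' hc'
    refine ⟨fj, ?_⟩
    have h1 : ‖∑ a, c' a • vecs 𝕜 g a - pat 𝕜 K g fj‖ ≤ ϱ :=
      (pow_le_pow_iff_left₀ (norm_nonneg _) hϱ0.le two_ne_zero).1 (hfj.trans hsϱ)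
    have h2 : ‖((√(N : ℝ) : ℝ) : 𝕜)⁻¹ • rs (fun i => w i - col t i) (g j)‖ ≤ ϱ := by
      rw [norm_smul, norm_inv, RCLike.norm_ofReal, abs_of_pos hsq, inv_mul_le_iff₀ hsq]
      refine (glusk_norm_rs_le _ hcol (g j)).trans ?_
      rw [← hNdef, mul_left_comm, hNδ]
      exact mul_le_mul_of_nonneg_left hLϱ hsq.le
    have e : ((√(N : ℝ) : ℝ) : 𝕜)⁻¹ • rs (col t) (g j) - pat 𝕜 K g fj =
        (((√(N : ℝ) : ℝ) : 𝕜)⁻¹ • rs w (g j) - ∑ a, c' a • vecs 𝕜 g a) +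
        (∑ a, c' a • vecs 𝕜 g a - pat 𝕜 K g fj) -
        ((√(N : ℝ) : ℝ) : 𝕜)⁻¹ • rs (fun i => w i - col t i) (g j) := by
      rw [rs_sub, smul_sub]
      abel
    rw [e]
    refine (norm_sub_le _ _).trans ?_
    have h3 := norm_add_le (((√(N : ℝ) : ℝ) : 𝕜)⁻¹ • rs w (g j) - ∑ a, c' a • vecs 𝕜 g a)
      (∑ a, c' a • vecs 𝕜 g a - pat 𝕜 K g fj)
    linarith
  choose f hf using hpat
  have hP1 : P t f g = 1 := Finset.prod_eq_one fun j _ => if_pos (hf j)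
  have h1 : P t f g ≤ ∑ f, P t f g :=
    Finset.single_le_sum (f := fun f => P t f g) (fun f _ => hP0 t f g) (Finset.mem_univ f)
  have h2 : ∑ f, P t f g ≤ ∑ t ∈ G.filter Bad, ∑ f, P t f g :=
    Finset.single_le_sum (f := fun t => ∑ f, P t f g)
      (fun t _ => Finset.sum_nonneg fun f _ => hP0 t f g) (Finset.mem_filter.2 ⟨htG, hbad⟩)
  linarith

end Pool.Agent.Lib.MP_e0f470_an
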