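import Pool.Agent.Lib.MP_e0f470_an.Base

/-! Products of weakly dependent events, grids, asymptotics. -/

set_option autoImplicit false

namespace Pool.Agent.Lib.MP_e0f470_an

open Finset
open scoped BigOperators

variable {𝕜 : Type*} [RCLike 𝕜]

lemma smallb_expect_update {ι Ω : Type*} [Fintype ι] [DecidableEq ι] [Fintype Ω] [Nonempty Ω]
    (j : ι) (H : (ι → Ω) → ℝ) :
    𝔼 g, H g = 𝔼 g, 𝔼 ω, H (Function.update g j ω) := by
  let e : (ι → Ω) × Ω ≃ (ι → Ω) × Ω :=
    { toFun := fun z => (Function.update z.1 j z.2, z.1 j)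
      invFun := fun z => (Function.update z.1 j z.2, z.1 j)
      left_inv := fun z => by simp
      right_inv := fun z => by simp }
  have h1 : 𝔼 g, 𝔼 ω, H (Function.update g j ω) =
      𝔼 z : (ι → Ω) × Ω, H (Function.update z.1 j z.2) := by
    rw [← Finset.univ_product_univ, Finset.expect_product]
  have h2 : 𝔼 z : (ι → Ω) × Ω, H (Function.update z.1 j z.2) = 𝔼 z : (ι → Ω) × Ω, H z.1 :=
    Fintype.expect_equiv e _ _ fun z => rfl
  have h3 : 𝔼 z : (ι → Ω) × Ω, H z.1 = 𝔼 g, H g := by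
    rw [← Finset.univ_product_univ, Finset.expect_product]
    refine Finset.expect_congr rfl fun g _ => ?_
    exact Fintype.expect_const (ι := Ω) (H g)
  rw [h1, h2, h3]

lemma smallb_low_indeg {ι : Type*} [DecidableEq ι] (s : ℕ) (D : ι → Finset ι)
    (hD : ∀ j, (D j).card ≤ s) (J : Finset ι) (hJ : J.Nonempty) :
    ∃ j ∈ J, (J.filter fun i => j ∈ D i).card ≤ s := by
  apply Finset.exists_le_of_sum_le hJ
  have h1 : ∑ j ∈ J, (J.filter fun i => j ∈ D i).card =
      ∑ i ∈ J, (J.filter fun j => j ∈ D i).card := by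
    simp only [Finset.card_filter]
    exact Finset.sum_comm
  rw [h1]
  refine Finset.sum_le_sum fun i _ => ?_
  refine le_trans (Finset.card_le_card ?_) (hD i)
  intro j hj
  exact (Finset.mem_filter.1 hj).2

/-- Strong induction on `J`. The digraph `i → j` for `j ∈ D i` restricted to `J` has average
in-degree at most `s`, so some `j ∈ J` has at most `s` predecessors `i ∈ J` with `j ∈ D i`. Let `J'`
be `J` without `j` and these predecessors: `#J ≤ #J' + (s + 1)`, the product over `J` is at most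
`F j g * ∏ J'`, the product over `J'` does not depend on `g j`, and averaging over `g j` first
(the map `(g, ω) ↦ (update g j ω, g j)` is an involution) gives a factor `q`. -/
theorem prod_events {ι Ω : Type*} [Fintype ι] [DecidableEq ι] [Fintype Ω] [Nonempty Ω] (s : ℕ)
    {q : ℝ} (hq0 : 0 ≤ q) (hq1 : q ≤ 1) (D : ι → Finset ι) (hD : ∀ j, (D j).card ≤ s)
    (F : ι → (ι → Ω) → ℝ) (hF0 : ∀ j g, 0 ≤ F j g) (hF1 : ∀ j g, F j g ≤ 1)
    (hdep : ∀ j g g', g j = g' j → (∀ i ∈ D j, g i = g' i) → F j g = F j g')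
    (hq : ∀ j g, 𝔼 ω, F j (Function.update g j ω) ≤ q) (J : Finset ι) :
    𝔼 g, ∏ j ∈ J, F j g ≤ q ^ (J.card / (s + 1)) := by
  induction J using Finset.strongInduction with
  | H J ih =>
  rcases J.eq_empty_or_nonempty with rfl | hJ
  · simp
  obtain ⟨j, hjJ, hj⟩ := smallb_low_indeg s D hD J hJ
  set J' := J.filter fun i => i ≠ j ∧ j ∉ D i with hJ'
  have hsub : J' ⊂ J := by
    refine Finset.ssubset_iff_subset_ne.2 ⟨Finset.filter_subset _ _, fun h => ?_⟩
    have : j ∈ J' := h ▸ hjJ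
    simp [hJ'] at this
  have hcard : J.card ≤ J'.card + (s + 1) := by
    have h1 : J ⊆ J' ∪ insert j (J.filter fun i => j ∈ D i) := by
      intro i hi
      by_cases h1 : i = j
      · simp [h1]
      · by_cases h2 : j ∈ D i
        · simp [hi, h2]
        · simp [hJ', hi, h1, h2]
    have h2 := Finset.card_le_card h1
    have h3 := Finset.card_union_le J' (insert j (J.filter fun i => j ∈ D i))
    have h4 := Finset.card_insert_le j (J.filter fun i => j ∈ D i)
    omega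
  have hjJ' : j ∉ J' := by simp [hJ']
  have hprod : ∀ g, ∏ i ∈ J, F i g ≤ F j g * ∏ i ∈ J', F i g := by
    intro g
    rw [← Finset.prod_insert (f := fun i => F i g) hjJ']
    refine Finset.prod_le_prod_of_subset_of_le_one ?_ (fun i _ => hF0 i g) (fun i _ _ => hF1 i g)
    intro i hi
    rcases Finset.mem_insert.1 hi with rfl | hi
    · exact hjJ
    · exact (Finset.mem_filter.1 hi).1
  have hind : ∀ g ω, ∏ i ∈ J', F i (Function.update g j ω) = ∏ i ∈ J', F i g := by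
    intro g ω
    refine Finset.prod_congr rfl fun i hi => ?_
    obtain ⟨-, h1, h2⟩ := Finset.mem_filter.1 hi
    refine hdep i _ _ (Function.update_of_ne h1 _ _) fun i' hi' => ?_
    exact Function.update_of_ne (fun h : i' = j => h2 (h ▸ hi')) _ _
  have hP0 : ∀ g, 0 ≤ ∏ i ∈ J', F i g := fun g => Finset.prod_nonneg fun i _ => hF0 i g
  calc 𝔼 g, ∏ i ∈ J, F i g ≤ 𝔼 g, F j g * ∏ i ∈ J', F i g :=
        Finset.expect_le_expect fun g _ => hprod g
    _ = 𝔼 g, 𝔼 ω, F j (Function.update g j ω) * ∏ i ∈ J', F i (Function.update g j ω) :=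
        smallb_expect_update j (fun g => F j g * ∏ i ∈ J', F i g)
    _ = 𝔼 g, (𝔼 ω, F j (Function.update g j ω)) * ∏ i ∈ J', F i g := by
        refine Finset.expect_congr rfl fun g _ => ?_
        rw [Finset.expect_mul]
        exact Finset.expect_congr rfl fun ω _ => by rw [hind]
    _ ≤ 𝔼 g, q * ∏ i ∈ J', F i g :=
        Finset.expect_le_expect fun g _ => mul_le_mul_of_nonneg_right (hq j g) (hP0 g)
    _ = q * 𝔼 g, ∏ i ∈ J', F i g := by rw [Finset.mul_expect]
    _ ≤ q * q ^ (J'.card / (s + 1)) := mul_le_mul_of_nonneg_left (ih J' hsub) hq0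
    _ = q ^ (J'.card / (s + 1) + 1) := by ring
    _ ≤ q ^ (J.card / (s + 1)) := by
        refine pow_le_pow_of_le_one hq0 hq1 ?_
        rw [← Nat.add_div_right _ (Nat.succ_pos s)]
        exact Nat.div_le_div_right hcard

/-- Round real and imaginary parts down to multiples of `1 / M`: the grid is the image of
`κ → Icc (-R M) (R M) × Icc (-R M) (R M)` (integers) under `(a, b) ↦ a / M + b / M * I`. -/
theorem grid_net (κ : Type*) [Fintype κ] (R M : ℕ) (hM : 0 < M) :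
    ∃ G : Finset (κ → 𝕜), G.card ≤ (2 * R * M + 1) ^ (2 * Fintype.card κ) ∧
      ∀ x : κ → 𝕜, (∀ i, ‖x i‖ ≤ R) → ∃ x' ∈ G, ∀ i, ‖x i - x' i‖ ≤ 2 / M := by
  classical
  let I : Finset ℤ := Finset.Icc (-(R * M : ℤ)) (R * M)
  let φ : ℤ × ℤ → 𝕜 := fun ab => ((ab.1 / M : ℝ) : 𝕜) + ((ab.2 / M : ℝ) : 𝕜) * RCLike.I
  have hI : I.card = 2 * R * M + 1 := by
    simp only [I, Int.card_Icc]
    have : (R * M : ℤ) + 1 - -(R * M : ℤ) = ((2 * R * M + 1 : ℕ) : ℤ) := by push_cast; ring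
    rw [this, Int.toNat_natCast]
  have hMR : (0 : ℝ) < M := by exact_mod_cast hM
  have key : ∀ t : ℝ, |t| ≤ R → ∃ a ∈ I, |t - a / M| ≤ 1 / M := by
    intro t ht
    obtain ⟨h1, h2⟩ := abs_le.1 ht
    refine ⟨⌊t * M⌋, ?_, ?_⟩
    · simp only [I, Finset.mem_Icc]
      constructor
      · rw [Int.le_floor]
        push_cast
        nlinarith
      · have h3 : (⌊t * M⌋ : ℝ) ≤ ((R * M : ℤ) : ℝ) := by
          push_cast
          have := Int.floor_le (t * M)
          nlinarith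
        exact_mod_cast h3
    · have h3 := Int.floor_le (t * M)
      have h4 := Int.lt_floor_add_one (t * M)
      have h5 : t - ⌊t * M⌋ / M = (t * M - ⌊t * M⌋) / M := by field_simp
      rw [h5, abs_div, abs_of_pos hMR]
      refine div_le_div_of_nonneg_right ?_ hMR.le
      rw [abs_le]
      constructor <;> linarith
  refine ⟨(Fintype.piFinset fun _ : κ => I ×ˢ I).image fun f i => φ (f i), ?_, fun x hx => ?_⟩
  · refine Finset.card_image_le.trans ?_
    rw [Fintype.card_piFinset]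
    simp only [Finset.card_product, hI, Finset.prod_const, Finset.card_univ]
    rw [← pow_two, ← pow_mul]
  · choose a ha ha' using fun i => key (RCLike.re (x i)) ((RCLike.abs_re_le_norm _).trans (hx i))
    choose b hb hb' using fun i => key (RCLike.im (x i)) ((RCLike.abs_im_le_norm _).trans (hx i))
    refine ⟨fun i => φ (a i, b i), Finset.mem_image.2 ⟨fun i => (a i, b i), ?_, rfl⟩, fun i => ?_⟩
    · rw [Fintype.mem_piFinset]
      intro i
      exact Finset.mem_product.2 ⟨ha i, hb i⟩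
    · have h1 : x i - φ (a i, b i) = ((RCLike.re (x i) - a i / M : ℝ) : 𝕜) +
          ((RCLike.im (x i) - b i / M : ℝ) : 𝕜) * RCLike.I := by
        conv_lhs => rw [← RCLike.re_add_im (x i)]
        simp only [φ]
        push_cast
        ring
      have hIn : ‖(RCLike.I : 𝕜)‖ ≤ 1 := by
        rw [RCLike.norm_I]
        split_ifs <;> norm_num
      rw [h1]
      refine (norm_add_le _ _).trans ?_
      rw [norm_mul, RCLike.norm_ofReal, RCLike.norm_ofReal]
      have h2 := ha' i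
      have h3 := hb' i
      have h4 : |RCLike.im (x i) - b i / M| * ‖(RCLike.I : 𝕜)‖ ≤ |RCLike.im (x i) - b i / M| :=
        mul_le_of_le_one_right (abs_nonneg _) hIn
      have h5 : (2 : ℝ) / M = 1 / M + 1 / M := by ring
      linarith

lemma poly_le_exp (C : ℝ) (k : ℕ) {c : ℝ} (hc : 0 < c) :
    ∃ n₀ : ℕ, ∀ n : ℕ, n₀ ≤ n → C * (n : ℝ) ^ k ≤ Real.exp (c * n) := by
  have h := (isLittleO_pow_exp_pos_mul_atTop k hc).const_mul_left C
  have h1 := (h.bound one_pos)
  obtain ⟨a, ha⟩ := Filter.eventually_atTop.1 h1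
  refine ⟨⌈a⌉₊, fun n hn => ?_⟩
  have h2 := ha n (Nat.ceil_le.1 hn)
  rw [one_mul, Real.norm_of_nonneg (Real.exp_pos _).le] at h2
  exact (le_abs_self _).trans h2

/-- A finite family in the unit ball that almost norms Euclidean space, indexed by an even
number. Hint: the closed unit ball is compact, take a finite `1 / 2`-net `N` of it inside it
(it is nonempty), `L = #N`, and repeat the enumeration twice. If `‖z - v / ‖v‖‖ ≤ 1 / 2` then
`‖v‖ / 2 ≤ ‖⟪z, v⟫‖`. -/
lemma exists_sphere_net (r : ℕ) : ∃ L : ℕ, 0 < L ∧ ∃ net : Fin (2 * L) → Eu 𝕜 (Fin r),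
    (∀ i, ‖net i‖ ≤ 1) ∧ ∀ v, ∃ i, ‖v‖ ≤ 2 * ‖inner 𝕜 (net i) v‖ := by
  have : ProperSpace (Eu 𝕜 (Fin r)) := FiniteDimensional.proper_rclike 𝕜 _
  obtain ⟨t, hts, htf, hcov⟩ := Metric.finite_approx_of_totallyBounded
    (isCompact_closedBall (0 : Eu 𝕜 (Fin r)) 1).totallyBounded (1 / 2) (by norm_num)
  have hne : t.Nonempty := by
    have h0 : (0 : Eu 𝕜 (Fin r)) ∈ Metric.closedBall (0 : Eu 𝕜 (Fin r)) 1 := by simp
    obtain ⟨y, hy, -⟩ := Set.mem_iUnion₂.1 (hcov h0)
    exact ⟨y, hy⟩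
  obtain ⟨L, f, hf⟩ := htf.fin_param
  have hL : 0 < L := by
    obtain ⟨y, hy⟩ := hne
    rw [← hf.2] at hy
    obtain ⟨i, -⟩ := hy
    exact i.pos
  refine ⟨L, hL, fun i => f ⟨i % L, Nat.mod_lt _ hL⟩, fun i => ?_, fun v => ?_⟩
  · have : f ⟨i % L, Nat.mod_lt _ hL⟩ ∈ t := hf.2 ▸ Set.mem_range_self _
    simpa using hts this
  · by_cases hv : v = 0
    · exact ⟨⟨0, by omega⟩, by simp [hv]⟩
    have hvp : 0 < ‖v‖ := norm_pos_iff.2 hv
    set u : Eu 𝕜 (Fin r) := ((‖v‖ : ℝ) : 𝕜)⁻¹ • v with hu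
    have hu1 : ‖u‖ = 1 := by
      rw [hu, norm_smul, norm_inv, RCLike.norm_ofReal, abs_of_pos hvp, inv_mul_cancel₀ hvp.ne']
    have hum : u ∈ Metric.closedBall (0 : Eu 𝕜 (Fin r)) 1 := by simp [hu1]
    obtain ⟨y, hy, hyu⟩ := Set.mem_iUnion₂.1 (hcov hum)
    rw [← hf.2] at hy
    obtain ⟨i, rfl⟩ := hy
    refine ⟨⟨i, by omega⟩, ?_⟩
    have hi : (⟨(i : ℕ) % L, Nat.mod_lt _ hL⟩ : Fin L) = i := by
      ext; simp [Nat.mod_eq_of_lt i.2]
    simp only [hi]
    have h1 : inner 𝕜 u v = ((‖v‖ : ℝ) : 𝕜) := by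
      rw [hu, inner_smul_left, inner_self_eq_norm_sq_to_K]
      have : ((‖v‖ : ℝ) : 𝕜) ≠ 0 := by exact_mod_cast hvp.ne'
      simp only [map_inv₀, RCLike.conj_ofReal]
      field_simp
    have h2 : ‖inner 𝕜 (u - f i) v‖ ≤ 1 / 2 * ‖v‖ := by
      refine (norm_inner_le_norm _ _).trans (mul_le_mul_of_nonneg_right ?_ hvp.le)
      rw [Metric.mem_ball, dist_eq_norm] at hyu
      exact hyu.le
    have h3 : ((‖v‖ : ℝ) : 𝕜) = inner 𝕜 (f i) v + inner 𝕜 (u - f i) v := by
      rw [inner_sub_left, h1]; ring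
    have h4 : ‖v‖ ≤ ‖inner 𝕜 (f i) v‖ + ‖inner 𝕜 (u - f i) v‖ := by
      have := norm_add_le (inner 𝕜 (f i) v) (inner 𝕜 (u - f i) v)
      rwa [← h3, RCLike.norm_ofReal, abs_of_pos hvp] at this
    linarith

/-- A finite net of the contractions from Euclidean space into a finite dimensional subspace.
Hint: the set of continuous linear maps `A : Eu →L F` with `q (A a) ≤ ‖a‖` is bounded in a finite
dimensional normed space, hence totally bounded (`Metric.finite_approx_of_totallyBounded` gives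
centres inside the set). -/
lemma exists_op_net {E : Type*} [NormedAddCommGroup E] [NormedSpace 𝕜 E] (q : Seminorm 𝕜 E)
    (hq : Equi q) (F : Submodule 𝕜 E) [FiniteDimensional 𝕜 F] (r : ℕ) {η : ℝ} (hη : 0 < η) :
    ∃ (L : ℕ) (A : Fin L → Eu 𝕜 (Fin r) →ₗ[𝕜] E), (∀ α a, A α a ∈ F) ∧ (∀ α a, q (A α a) ≤ ‖a‖) ∧
      ∀ A' : Eu 𝕜 (Fin r) →ₗ[𝕜] E, (∀ a, A' a ∈ F) → (∀ a, q (A' a) ≤ ‖a‖) →
        ∃ α, ∀ a, q (A' a - A α a) ≤ η * ‖a‖ := by
  obtain ⟨c, C, hc, hC, hqe⟩ := hq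
  have : ProperSpace (Eu 𝕜 (Fin r) →L[𝕜] F) := FiniteDimensional.proper_rclike 𝕜 _
  let S : Set (Eu 𝕜 (Fin r) →L[𝕜] F) := {A | ∀ a, q (A a) ≤ ‖a‖}
  have hS : S ⊆ Metric.closedBall 0 (1 / c) := by
    intro A hA
    rw [mem_closedBall_zero_iff]
    refine A.opNorm_le_bound (by positivity) fun a => ?_
    have h1 := (hqe (A a)).1
    have h2 := hA a
    rw [Submodule.coe_norm, div_mul_eq_mul_div, le_div_iff₀ hc]
    linarith
  obtain ⟨t, hts, htf, hcov⟩ := Metric.finite_approx_of_totallyBounded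
    ((isCompact_closedBall _ _).totallyBounded.subset hS) (η / C) (by positivity)
  obtain ⟨L, f, hf⟩ := htf.fin_param
  refine ⟨L, fun α => F.subtype ∘ₗ (f α : Eu 𝕜 (Fin r) →ₗ[𝕜] F), fun α a => (f α a).2,
    fun α a => ?_, fun A' hF hA' => ?_⟩
  · have : f α ∈ t := hf.2 ▸ Set.mem_range_self _
    exact hts this a
  · let B : Eu 𝕜 (Fin r) →L[𝕜] F := LinearMap.toContinuousLinearMap (A'.codRestrict F hF)
    have hB : B ∈ S := fun a => hA' a
    obtain ⟨y, hy, hyu⟩ := Set.mem_iUnion₂.1 (hcov hB)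
    rw [← hf.2] at hy
    obtain ⟨α, rfl⟩ := hy
    refine ⟨α, fun a => ?_⟩
    rw [Metric.mem_ball, dist_eq_norm] at hyu
    have h1 : ‖(B - f α) a‖ ≤ η / C * ‖a‖ :=
      ((B - f α).le_opNorm a).trans (mul_le_mul_of_nonneg_right hyu.le (norm_nonneg _))
    have h2 : A' a - (F.subtype ∘ₗ (f α : Eu 𝕜 (Fin r) →ₗ[𝕜] F)) a = ((B - f α) a : F) := rfl
    rw [h2]
    refine (hqe _).2.trans ?_
    rw [← Submodule.coe_norm]
    calc C * ‖(B - f α) a‖ ≤ C * (η / C * ‖a‖) := mul_le_mul_of_nonneg_left h1 hC.le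
      _ = η * ‖a‖ := by field_simp

end Pool.Agent.Lib.MP_e0f470_an
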