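import Pool.Agent.Lib.MP_e0f470_an.SmallA
import Pool.Agent.Lib.MP_e0f470_an.SmallB

/-! The probability of a fixed pattern in Gluskin's argument. -/

set_option autoImplicit false

namespace Pool.Agent.Lib.MP_e0f470_an

open Finset
open scoped BigOperators

variable {𝕜 : Type*} [RCLike 𝕜]

/-- Zero and the four units. -/
noncomputable def unit5 (𝕜 : Type*) [RCLike 𝕜] : Fin 5 → 𝕜 := ![0, 1, -1, RCLike.I, -RCLike.I]

section
variable {ι : Type} [Fintype ι] [DecidableEq ι] {M : ℕ}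

variable (𝕜) in
/-- The basis vectors together with the normalised sign vectors given by `g`. -/
noncomputable def vecs (g : Fin M → Cube ι) : ι ⊕ Fin M → Eu 𝕜 ι :=
  Sum.elim (fun i => ev 𝕜 i) (fun a => sv 𝕜 (g a))

variable (𝕜) in
/-- The vector described by the pattern `f`. -/
noncomputable def pat (K : ℝ) {s : ℕ} (g : Fin M → Cube ι)
    (f : Fin s → (ι ⊕ Fin M) × Fin 5) : Eu 𝕜 ι :=
  ((2 * K / s : ℝ) : 𝕜) • ∑ l, unit5 𝕜 (f l).2 • vecs 𝕜 g (f l).1

lemma gluskA_rs_ev_apply (ε : Cube ι) (j : ι) :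
    (rs (fun i => ev 𝕜 i) ε : Eu 𝕜 ι) j = ((sg (ε j) : ℝ) : 𝕜) := by
  rw [rs_eq_smul (𝕜 := 𝕜)]
  simp [ev_apply, RCLike.real_smul_eq_coe_mul]

lemma gluskA_norm_rs_ev (ε : Cube ι) :
    ‖(rs (fun i => ev 𝕜 i) ε : Eu 𝕜 ι)‖ = √(Fintype.card ι : ℝ) := by
  rw [EuclideanSpace.norm_eq]
  simp [gluskA_rs_ev_apply, sg_sq]

lemma norm_sv_le (ε : Cube ι) : ‖sv 𝕜 ε‖ ≤ 1 := by
  unfold sv
  rw [norm_smul, gluskA_norm_rs_ev, norm_inv, RCLike.norm_ofReal,
    abs_of_nonneg (Real.sqrt_nonneg _)]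
  exact inv_mul_le_one_of_le₀ le_rfl (Real.sqrt_nonneg _)

lemma norm_vecs_le (g : Fin M → Cube ι) (a : ι ⊕ Fin M) : ‖vecs 𝕜 g a‖ ≤ 1 := by
  rcases a with i | a
  · exact (norm_ev i).le
  · exact norm_sv_le _

lemma gluskA_norm_I : ‖(RCLike.I : 𝕜)‖ ≤ 1 := by
  by_cases h : (RCLike.I : 𝕜) = 0
  · simp [h]
  · exact (RCLike.norm_I_of_ne_zero h).le

lemma gluskA_norm_unit5 (u : Fin 5) : ‖unit5 𝕜 u‖ ≤ 1 := by
  fin_cases u <;> simp [unit5, gluskA_norm_I]

lemma gluskA_max_sub (x : ℝ) : max x 0 - max (-x) 0 = x := by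
  rcases le_total x 0 with h | h
  · rw [max_eq_right h, max_eq_left (by linarith)]; ring
  · rw [max_eq_left h, max_eq_right (by linarith)]; ring

lemma gluskA_max_add (x : ℝ) : max x 0 + max (-x) 0 = |x| := by
  rcases le_total x 0 with h | h
  · rw [max_eq_right h, max_eq_left (by linarith), abs_of_nonpos h]; ring
  · rw [max_eq_left h, max_eq_right (by linarith), abs_of_nonneg h]; ring

/-- Apply `maurey` to the points `(2 K u) • vecs g a` indexed by `(a, u)`. The weights: for each `a`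
put `max (re (c a)) 0 / (2 K)` on `1`, `max (-re (c a)) 0 / (2 K)` on `-1`, the same with `im` on
`± I`, and the remaining mass `1 - ∑ (|re| + |im|) / (2 K) ≥ 0` on `(a₀, 0)` for a fixed `a₀`. -/
lemma maurey_pat [Nonempty ι] {K : ℝ} (hK : 0 < K) {s : ℕ} (hs : 0 < s) (g : Fin M → Cube ι)
    (c : ι ⊕ Fin M → 𝕜) (hc : ∑ a, ‖c a‖ ≤ K) :
    ∃ f : Fin s → (ι ⊕ Fin M) × Fin 5,
      ‖∑ a, c a • vecs 𝕜 g a - pat 𝕜 K g f‖ ^ 2 ≤ 16 * K ^ 2 / s := by
  classical
  obtain ⟨i₀⟩ := ‹Nonempty ι›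
  have h2K : (0 : ℝ) < 2 * K := by linarith
  set T : ℝ := ∑ a, (|RCLike.re (c a)| + |RCLike.im (c a)|) with hT
  have hTle : T ≤ 2 * K := by
    have : T ≤ ∑ a, 2 * ‖c a‖ := by
      refine Finset.sum_le_sum fun a _ => ?_
      have h1 := RCLike.abs_re_le_norm (c a)
      have h2 := RCLike.abs_im_le_norm (c a)
      linarith
    rw [← Finset.mul_sum] at this
    linarith
  let μ : (ι ⊕ Fin M) × Fin 5 → ℝ := fun p =>
    ![if p.1 = Sum.inl i₀ then 1 - T / (2 * K) else 0, max (RCLike.re (c p.1)) 0 / (2 * K),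
      max (-RCLike.re (c p.1)) 0 / (2 * K), max (RCLike.im (c p.1)) 0 / (2 * K),
      max (-RCLike.im (c p.1)) 0 / (2 * K)] p.2
  let pt : (ι ⊕ Fin M) × Fin 5 → Eu 𝕜 ι := fun p =>
    ((2 * K : ℝ) : 𝕜) • unit5 𝕜 p.2 • vecs 𝕜 g p.1
  have hpt : ∀ p, ‖pt p‖ ≤ 2 * K := by
    intro p
    simp only [pt, norm_smul, RCLike.norm_ofReal, abs_of_pos h2K]
    have h1 := gluskA_norm_unit5 (𝕜 := 𝕜) p.2
    have h2 := norm_vecs_le (𝕜 := 𝕜) g p.1
    have h3 : ‖unit5 𝕜 p.2‖ * ‖vecs 𝕜 g p.1‖ ≤ 1 :=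
      mul_le_one₀ h1 (norm_nonneg _) h2
    exact mul_le_of_le_one_right h2K.le h3
  have hrest : 0 ≤ 1 - T / (2 * K) := by
    rw [sub_nonneg, div_le_one h2K]; exact hTle
  have hμ : ∀ p, 0 ≤ μ p := by
    rintro ⟨a, u⟩
    fin_cases u
    · simp only [μ]
      by_cases h : a = Sum.inl i₀
      · simpa [h] using hrest
      · simp [h]
    all_goals
      simp only [μ]
      exact div_nonneg (le_max_right _ _) h2K.le
  have hμ1 : ∑ p, μ p = 1 := by
    rw [Fintype.sum_prod_type]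
    have : ∀ a, ∑ u : Fin 5, μ (a, u) = (if a = Sum.inl i₀ then 1 - T / (2 * K) else 0) +
        (|RCLike.re (c a)| + |RCLike.im (c a)|) / (2 * K) := by
      intro a
      rw [Fin.sum_univ_five, ← gluskA_max_add (RCLike.re (c a)),
        ← gluskA_max_add (RCLike.im (c a))]
      simp only [μ, Matrix.cons_val_zero, Matrix.cons_val_one, Matrix.cons_val]
      ring
    rw [Finset.sum_congr rfl fun a _ => this a, Finset.sum_add_distrib, ← Finset.sum_div, ← hT]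
    simp
  have hsum : ∑ p, ((μ p : ℝ) : 𝕜) • pt p = ∑ a, c a • vecs 𝕜 g a := by
    rw [Fintype.sum_prod_type]
    refine Finset.sum_congr rfl fun a _ => ?_
    have hK' : ((2 * K : ℝ) : 𝕜) ≠ 0 := by exact_mod_cast h2K.ne'
    have e : ∀ u : Fin 5, ((μ (a, u) : ℝ) : 𝕜) • pt (a, u) =
        (((μ (a, u) : ℝ) : 𝕜) * ((2 * K : ℝ) : 𝕜) * unit5 𝕜 u) • vecs 𝕜 g a := by
      intro u
      simp only [pt, smul_smul, mul_assoc]
    rw [Finset.sum_congr rfl fun u _ => e u, ← Finset.sum_smul]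
    congr 1
    have e2 : ∀ x : ℝ, ((x / (2 * K) : ℝ) : 𝕜) * ((2 * K : ℝ) : 𝕜) = (x : 𝕜) := by
      intro x
      rw [← RCLike.ofReal_mul, div_mul_cancel₀ _ h2K.ne']
    rw [Fin.sum_univ_five]
    simp only [μ, unit5, Matrix.cons_val_zero, Matrix.cons_val_one, Matrix.cons_val, e2]
    have h1 := congrArg (fun x : ℝ => (x : 𝕜)) (gluskA_max_sub (RCLike.re (c a)))
    have h2 := congrArg (fun x : ℝ => (x : 𝕜)) (gluskA_max_sub (RCLike.im (c a)))
    simp only [RCLike.ofReal_sub] at h1 h2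
    have h3 := RCLike.re_add_im (c a)
    linear_combination h1 + RCLike.I * h2 + h3
  obtain ⟨f, hf⟩ := maurey (𝕜 := 𝕜) pt hpt μ hμ hμ1 hs
  refine ⟨f, ?_⟩
  have hp : ((s : 𝕜))⁻¹ • ∑ l, pt (f l) = pat 𝕜 K g f := by
    simp only [pt, pat]
    rw [← Finset.smul_sum, smul_smul]
    congr 1
    push_cast
    ring
  rw [hp, hsum, norm_sub_rev] at hf
  calc _ ≤ 4 * (2 * K) ^ 2 / s := hf
    _ = 16 * K ^ 2 / s := by ring

omit [DecidableEq ι] in
lemma gluskA_rs_smul {W : Type*} [AddCommGroup W] [Module 𝕜 W] (μ : 𝕜) (x : ι → W)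
    (ε : Cube ι) : rs (fun i => μ • x i) ε = μ • rs x ε := by
  unfold rs
  rw [Finset.smul_sum]
  refine Finset.sum_congr rfl fun i _ => ?_
  cases ε i <;> simp

lemma gluskA_pat_update (K : ℝ) {s : ℕ} (g : Fin M → Cube ι) (j : Fin M) (ω : Cube ι)
    (f : Fin s → (ι ⊕ Fin M) × Fin 5) :
    pat 𝕜 K (Function.update g j ω) f =
      (((2 * K / s : ℝ) : 𝕜) * ∑ l, if (f l).1 = Sum.inr j then unit5 𝕜 (f l).2 else 0) • sv 𝕜 ω +
      ((2 * K / s : ℝ) : 𝕜) • ∑ l,
        if (f l).1 = Sum.inr j then 0 else unit5 𝕜 (f l).2 • vecs 𝕜 g (f l).1 := by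
  unfold pat
  rw [mul_smul, ← smul_add, Finset.sum_smul, ← Finset.sum_add_distrib]
  congr 1
  refine Finset.sum_congr rfl fun l _ => ?_
  rcases h : (f l).1 with i | a
  · simp [vecs]
  · by_cases ha : a = j
    · subst ha
      simp [vecs]
    · simp [vecs, ha]

/-- Apply `prod_events` with `D j = {a | ∃ l, (f j l).1 = inr a}` and `J = univ`. For fixed `j`, `g`
write `pat K (update g j ω) (f j) = μ • sv ω + y` where `μ = 2 K / s * ∑ unit5 (f j l).2` over the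
`l` with `(f j l).1 = inr j` (so `‖μ‖ ≤ 2 K`) and `y` does not depend on `ω`. With
`w' i = w i - μ • ev i` the difference is `(√N)⁻¹ • (rs w' ω - √N • y)`. By `hbad` the first
alternative of `small_ball` fails for `w'`, and the indicator is at most
`exp (ϱ ^ 2 * N / d ^ 2) * exp (-(‖rs w' ω - √N • y‖ ^ 2 / d ^ 2))`. -/
theorem glusk_fixed [Nonempty ι] {K d ϱ q : ℝ} (hK : 0 < K) (hd : 0 < d) (hϱ : 0 ≤ ϱ) (k : ℕ)
    (hq : Real.exp (ϱ ^ 2 * Fintype.card ι / d ^ 2) * (7 / 10) ^ k ≤ q) (hq1 : q ≤ 1)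
    (w : ι → Eu 𝕜 ι) (hbad : ∀ lam : 𝕜, ‖lam‖ ≤ 2 * K → ¬ Near w lam k d) {s : ℕ}
    (f : Fin M → Fin s → (ι ⊕ Fin M) × Fin 5) :
    𝔼 g : Fin M → Cube ι, ∏ j, (if ‖((√(Fintype.card ι : ℝ) : ℝ) : 𝕜)⁻¹ • rs w (g j) -
      pat 𝕜 K g (f j)‖ ≤ ϱ then (1 : ℝ) else 0) ≤ q ^ (M / (s + 1)) := by
  classical
  have hq0 : 0 ≤ q := le_trans (by positivity) hq
  have hN : (0 : ℝ) < Fintype.card ι := by exact_mod_cast Fintype.card_pos
  have hsq : 0 < √(Fintype.card ι : ℝ) := Real.sqrt_pos.2 hN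
  have key := prod_events (ι := Fin M) (Ω := Cube ι) s hq0 hq1
    (fun j => (Finset.univ.image fun l => (f j l).1).toRight)
    (fun j => by
      refine Finset.card_toRight_le.trans (Finset.card_image_le.trans ?_)
      simp)
    (fun j g => if ‖((√(Fintype.card ι : ℝ) : ℝ) : 𝕜)⁻¹ • rs w (g j) -
      pat 𝕜 K g (f j)‖ ≤ ϱ then (1 : ℝ) else 0)
    (fun j g => by split_ifs <;> norm_num)
    (fun j g => by split_ifs <;> norm_num)
    (fun j g g' h1 h2 => by
      have hp : pat 𝕜 K g (f j) = pat 𝕜 K g' (f j) := by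
        unfold pat
        congr 1
        refine Finset.sum_congr rfl fun l _ => ?_
        rcases h : (f j l).1 with i | a
        · simp [vecs]
        · have : g a = g' a := h2 a (by
            rw [Finset.mem_toRight, Finset.mem_image]
            exact ⟨l, Finset.mem_univ _, h⟩)
          simp [vecs, this]
      simp only [h1, hp])
    (fun j g => by
      set μ : 𝕜 := ((2 * K / s : ℝ) : 𝕜) *
        ∑ l, if (f j l).1 = Sum.inr j then unit5 𝕜 (f j l).2 else 0 with hμ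
      set y : Eu 𝕜 ι := ((2 * K / s : ℝ) : 𝕜) • ∑ l,
        if (f j l).1 = Sum.inr j then 0 else unit5 𝕜 (f j l).2 • vecs 𝕜 g (f j l).1 with hy
      have hμle : ‖μ‖ ≤ 2 * K := by
        have h1 : ‖∑ l, if (f j l).1 = Sum.inr j then unit5 𝕜 (f j l).2 else 0‖ ≤ s := by
          refine (norm_sum_le _ _).trans ?_
          have : ∑ l : Fin s, ‖if (f j l).1 = Sum.inr j then unit5 𝕜 (f j l).2 else 0‖ ≤
              ∑ _l : Fin s, (1 : ℝ) := by
            refine Finset.sum_le_sum fun l _ => ?_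
            split_ifs
            · exact gluskA_norm_unit5 _
            · simp
          simpa using this
        have h0 : 0 ≤ 2 * K / s := by positivity
        rw [hμ, norm_mul, RCLike.norm_ofReal, abs_of_nonneg h0]
        refine (mul_le_mul_of_nonneg_left h1 h0).trans ?_
        rcases Nat.eq_zero_or_pos s with h | h
        · simp [h, hK.le]
        · have : (s : ℝ) ≠ 0 := by exact_mod_cast h.ne'
          rw [div_mul_cancel₀ _ this]
      rcases small_ball (𝕜 := 𝕜) hd k (fun i => w i - μ • ev 𝕜 i) with ⟨U, hU, hU2⟩ | hsm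
      · exact absurd ⟨U, by exact_mod_cast hU, hU2⟩ (hbad μ hμle)
      have h2 := hsm (((√(Fintype.card ι : ℝ) : ℝ) : 𝕜) • y)
      refine le_trans ?_ hq
      refine le_trans ?_ (mul_le_mul_of_nonneg_left h2 (Real.exp_pos _).le)
      rw [Finset.mul_expect]
      refine Finset.expect_le_expect fun ω _ => ?_
      rw [Function.update_self, gluskA_pat_update, ← hμ, ← hy]
      have hne : ((√(Fintype.card ι : ℝ) : ℝ) : 𝕜) ≠ 0 := by exact_mod_cast hsq.ne'
      have e : ((√(Fintype.card ι : ℝ) : ℝ) : 𝕜)⁻¹ • rs w ω - (μ • sv 𝕜 ω + y) =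
          ((√(Fintype.card ι : ℝ) : ℝ) : 𝕜)⁻¹ • (rs (fun i => w i - μ • ev 𝕜 i) ω -
            ((√(Fintype.card ι : ℝ) : ℝ) : 𝕜) • y) := by
        rw [rs_sub, gluskA_rs_smul, smul_sub, smul_sub, inv_smul_smul₀ hne, sv, smul_comm μ]
        abel
      rw [e, ← Real.exp_add]
      split_ifs with h
      · rw [norm_smul, norm_inv, RCLike.norm_ofReal, abs_of_pos hsq, inv_mul_le_iff₀ hsq] at h
        refine Real.one_le_exp ?_
        have h3 := pow_le_pow_left₀ (norm_nonneg _) h 2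
        rw [mul_pow, Real.sq_sqrt hN.le] at h3
        rw [← sub_eq_add_neg, ← sub_div]
        refine div_nonneg ?_ (by positivity)
        linarith
      · exact (Real.exp_pos _).le)
    Finset.univ
  simpa using key

end

end Pool.Agent.Lib.MP_e0f470_an
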