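import Pool.Agent.Lib.MP_e0f470_an.Base

/-! Uniformly bounded projections of every finite rank. -/

set_option autoImplicit false

namespace Pool.Agent.Lib.MP_e0f470_an

open Finset
open scoped BigOperators

variable {𝕜 : Type*} [RCLike 𝕜]

section
variable {E : Type*} [NormedAddCommGroup E] [NormedSpace 𝕜 E]

/-- There are `r` vectors of `q`-size at least one with an upper `ℓ^∞` estimate `θ`. -/
def LinfFam (q : Seminorm 𝕜 E) (r : ℕ) (θ : ℝ) : Prop :=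
  ∃ y : Fin r → E, (∀ k, 1 ≤ q (y k)) ∧
    ∀ a : Fin r → 𝕜, (∀ k, ‖a k‖ ≤ 1) → q (∑ k, a k • y k) ≤ θ

lemma james_mono {q : Seminorm 𝕜 E} {r : ℕ} {θ θ' : ℝ} (h : LinfFam q r θ) (hθ : θ ≤ θ') :
    LinfFam q r θ' := by
  obtain ⟨y, h1, h2⟩ := h
  exact ⟨y, h1, fun a ha => (h2 a ha).trans hθ⟩

lemma james_scale (q : Seminorm 𝕜 E) {c : ℝ} (hc : 0 ≤ c) (x : E) :
    q ((c : 𝕜) • x) = c * q x := by
  rw [map_smul_eq_mul, RCLike.norm_ofReal, abs_of_nonneg hc]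

lemma james_step {q : Seminorm 𝕜 E} {r s : ℕ} {θ₁ θ₂ : ℝ} (h₁ : ¬ LinfFam q r θ₁)
    (h₂ : ¬ LinfFam q s θ₂) (hθ : 0 < θ₂) : ¬ LinfFam q (r * s) (θ₁ * θ₂) := by
  rintro ⟨y, hy1, hy2⟩
  have h3 : ∀ i : Fin r, ∃ a : Fin s → 𝕜, (∀ j, ‖a j‖ ≤ 1) ∧
      θ₂ < q (∑ j, a j • y (finProdFinEquiv (i, j))) := by
    intro i
    by_contra h4
    refine h₂ ⟨fun j => y (finProdFinEquiv (i, j)), fun j => hy1 _, fun a ha => ?_⟩
    by_contra h5
    exact h4 ⟨a, ha, not_le.mp h5⟩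
  choose a ha1 ha2 using h3
  have hi : 0 ≤ θ₂⁻¹ := (inv_pos.mpr hθ).le
  refine h₁ ⟨fun i => ((θ₂⁻¹ : ℝ) : 𝕜) • ∑ j, a i j • y (finProdFinEquiv (i, j)), fun i => ?_,
    fun b hb => ?_⟩
  · rw [james_scale q hi, ← div_eq_inv_mul, one_le_div hθ]
    exact (ha2 i).le
  · have h6 : ∑ i, b i • ((θ₂⁻¹ : ℝ) : 𝕜) • ∑ j, a i j • y (finProdFinEquiv (i, j)) =
        ((θ₂⁻¹ : ℝ) : 𝕜) • ∑ k, (b (finProdFinEquiv.symm k).1 *
          a (finProdFinEquiv.symm k).1 (finProdFinEquiv.symm k).2) • y k := by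
      rw [← finProdFinEquiv.sum_comp, Fintype.sum_prod_type, Finset.smul_sum]
      refine Finset.sum_congr rfl fun i _ => ?_
      rw [smul_comm, Finset.smul_sum]
      simp only [Equiv.symm_apply_apply, mul_smul]
    rw [h6, james_scale q hi, ← div_eq_inv_mul, div_le_iff₀ hθ]
    refine hy2 _ fun k => ?_
    rw [norm_mul]
    exact mul_le_one₀ (hb _) (norm_nonneg _) (ha1 _ _)

/-- Biorthogonal systems give projections. -/
lemma james_mk {ι : Type} [Fintype ι] [DecidableEq ι] (y : ι → E) (g : ι → E →L[𝕜] 𝕜)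
    (h : ∀ i j, g i (y j) = if i = j then 1 else 0) :
    ∃ (J : Eu 𝕜 ι →L[𝕜] E) (Q : E →L[𝕜] Eu 𝕜 ι), (∀ a, Q (J a) = a) ∧
      ∀ x, J (Q x) = ∑ i, g i x • y i := by
  let J : Eu 𝕜 ι →L[𝕜] E := ∑ i, (EuclideanSpace.proj i : Eu 𝕜 ι →L[𝕜] 𝕜).smulRight (y i)
  let Q : E →L[𝕜] Eu 𝕜 ι :=
    ((EuclideanSpace.equiv ι 𝕜).symm : (ι → 𝕜) →L[𝕜] Eu 𝕜 ι).comp (ContinuousLinearMap.pi g)
  have hJ : ∀ a, J a = ∑ i, a i • y i := fun a => by simp [J]
  have hQ : ∀ x i, Q x i = g i x := fun x i => rfl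
  refine ⟨J, Q, fun a => ?_, fun x => ?_⟩
  · ext i
    rw [hQ, hJ, map_sum]
    simp [h]
  · rw [hJ]
    exact Finset.sum_congr rfl fun i _ => by rw [hQ]

/-- James' blocking argument. Suppose `¬ LinfFam q r (3/2)`. Show by induction on `k` that
`¬ LinfFam q (r ^ k) ((3/2) ^ k / 2)`: given `y` indexed by `Fin (r ^ (k+1)) ≃ Fin r × Fin (r ^ k)`,
for each `i` there are coefficients `a i` in the polydisc with `(3/2)^k / 2 < q (∑ j, a i j • y (i, j))`,
and the normalised sums witness `LinfFam q r (3/2)`. Since `(3/2)^k / 2 ≥ C` for large `k` this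
contradicts the hypothesis (monotonicity in `θ`). -/
lemma james (q : Seminorm 𝕜 E) {C : ℝ} (h : ∀ r, LinfFam q r C) (r : ℕ) : LinfFam q r (3 / 2) := by
  by_contra h0
  have h1 : ∀ k : ℕ, ¬ LinfFam q (r ^ k) ((3 / 2) ^ k / 2) := by
    intro k
    induction k with
    | zero =>
      rw [pow_zero, pow_zero]
      rintro ⟨y, hy1, hy2⟩
      have h2 := hy2 (fun _ => 1) fun _ => by simp
      have h3 := hy1 0
      rw [Fin.sum_univ_one, one_smul] at h2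
      linarith
    | succ k ih =>
      have h2 := james_step h0 ih (by positivity)
      rwa [← pow_succ', ← mul_div_assoc, ← pow_succ'] at h2
  obtain ⟨k, hk⟩ := pow_unbounded_of_one_lt (2 * C) (show (1 : ℝ) < 3 / 2 by norm_num)
  exact h1 k (james_mono (h _) (by linarith))

/-- From `LinfFam q N (3/2)` with `N = card ι`. First `q (y k + ∑ j ≠ k, a j • y j) ≥ 1/2` for all
`a`: in general if `‖a k‖` is the largest coefficient then
`2 ‖a k‖ q (y k) ≤ q (∑ a j • y j) + q (2 a k • y k - ∑ a j • y j)`, so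
`q (∑ a j • y j) ≥ max ‖a j‖ / 2`. Let `p k` be the quotient seminorm (`quotSemi` along
`(x, a) ↦ x + ∑ j ≠ k, a j • y j`, seminorm `q ∘ fst`): `p k ≤ q`, `p k (y j) = 0` for `j ≠ k`,
`p k (y k) ≥ 1/2`. Normalising a norming functional (`exists_norming`) gives `φ k` with
`φ k (y j) = δ` and `‖φ k x‖ ≤ 2 q x`. Put `Q x = (φ k x)`, `J a = ∑ a k • y k`; both are continuous
(`Equi q`, finite dimension), and `q (J (Q x)) ≤ 3 q x`. -/
lemma exists_proj_of_linfFam (q : Seminorm 𝕜 E) (hq : Equi q) (ι : Type) [Fintype ι]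
    [DecidableEq ι] (h : LinfFam q (Fintype.card ι) (3 / 2)) :
    ∃ (J : Eu 𝕜 ι →L[𝕜] E) (Q : E →L[𝕜] Eu 𝕜 ι), (∀ a, Q (J a) = a) ∧
      ∀ x, q (x - J (Q x)) ≤ 4 * q x := by
  obtain ⟨y₀, hy1, hy2⟩ := h
  obtain ⟨c, C, hc, hC, hq⟩ := hq
  let e := Fintype.equivFin ι
  let y : ι → E := fun i => y₀ (e i)
  have up : ∀ (a : ι → 𝕜) (M : ℝ), 0 ≤ M → (∀ i, ‖a i‖ ≤ M) → q (∑ i, a i • y i) ≤ 3 / 2 * M := by
    intro a M hM ha
    rcases hM.eq_or_lt with rfl | hM'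
    · have h1 : ∀ i, a i = 0 := fun i => norm_le_zero_iff.mp (ha i)
      simp [h1]
    · have h1 : ∑ i, a i • y i =
          (M : 𝕜) • ∑ k, (((M⁻¹ : ℝ) : 𝕜) * a (e.symm k)) • y₀ k := by
        rw [← e.sum_comp, Finset.smul_sum]
        refine Finset.sum_congr rfl fun i _ => ?_
        rw [smul_smul, ← mul_assoc, ← RCLike.ofReal_mul, mul_inv_cancel₀ hM'.ne',
          RCLike.ofReal_one, one_mul, Equiv.symm_apply_apply]
      rw [h1, james_scale q hM, mul_comm]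
      refine mul_le_mul_of_nonneg_right (hy2 _ fun k => ?_) hM
      rw [norm_mul, RCLike.norm_ofReal, abs_of_pos (inv_pos.mpr hM'), ← div_eq_inv_mul,
        div_le_one hM']
      exact ha _
  have low : ∀ (a : ι → 𝕜) (k : ι), ‖a k‖ ≤ 2 * q (∑ i, a i • y i) := by
    intro a k
    obtain ⟨k₀, -, hk₀⟩ := Finset.exists_max_image Finset.univ (fun i => ‖a i‖)
      ⟨k, Finset.mem_univ _⟩
    have h1 := up (fun i => if i = k₀ then a i else -a i) ‖a k₀‖ (norm_nonneg _) fun i => by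
      split_ifs
      · exact hk₀ i (Finset.mem_univ _)
      · rw [norm_neg]
        exact hk₀ i (Finset.mem_univ _)
    have h2 : ∑ i, a i • y i + ∑ i, (if i = k₀ then a i else -a i) • y i =
        (2 * a k₀) • y k₀ := by
      rw [← Finset.sum_add_distrib, Finset.sum_eq_single k₀]
      · rw [if_pos rfl, two_mul, add_smul]
      · intro i _ hi
        rw [if_neg hi, neg_smul, add_neg_cancel]
      · intro hi
        exact absurd (Finset.mem_univ _) hi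
    have h3 := map_add_le_add q (∑ i, a i • y i) (∑ i, (if i = k₀ then a i else -a i) • y i)
    rw [h2, map_smul_eq_mul, norm_mul, RCLike.norm_two] at h3
    have h4 : ‖a k₀‖ * 1 ≤ ‖a k₀‖ * q (y k₀) :=
      mul_le_mul_of_nonneg_left (hy1 _) (norm_nonneg _)
    have h5 := hk₀ k (Finset.mem_univ _)
    linarith
  let L : (ι → 𝕜) →ₗ[𝕜] E := Fintype.linearCombination 𝕜 y
  have hL : ∀ a, L a = ∑ i, a i • y i := fun a => Fintype.linearCombination_apply 𝕜 y a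
  have hinj : Function.Injective L := by
    rw [injective_iff_map_eq_zero]
    intro a ha
    funext k
    have h1 := low a k
    rw [← hL, ha, map_zero, mul_zero] at h1
    exact norm_le_zero_iff.mp h1
  have hg : ∀ k : ι, ∃ g : E →ₗ[𝕜] 𝕜, (∀ a, g (L a) = a k) ∧ ∀ x, ‖g x‖ ≤ 2 * q x := by
    intro k
    let f : Module.Dual 𝕜 (LinearMap.range L) :=
      (LinearMap.proj k).comp (LinearEquiv.ofInjective L hinj).symm.toLinearMap
    have hf : ∀ a, f ⟨L a, a, rfl⟩ = a k := by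
      intro a
      have h1 : (LinearEquiv.ofInjective L hinj).symm ⟨L a, a, rfl⟩ = a := by
        rw [LinearEquiv.symm_apply_eq]
        rfl
      exact congrFun h1 k
    obtain ⟨g, hg1, hg2⟩ := Module.Dual.exists_extension_of_le_seminorm (LinearMap.range L) f
      (p := q + q) (by
        rintro ⟨_, a, rfl⟩
        have h1 := low a k
        rw [← hL, two_mul, ← hf a] at h1
        exact h1)
    refine ⟨g, fun a => (hg1 ⟨L a, a, rfl⟩).trans (hf a), fun x => ?_⟩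
    rw [two_mul]
    exact hg2 x
  choose g hg1 hg2 using hg
  obtain ⟨J, Q, h1, h2⟩ := james_mk y
    (fun k => (g k).mkContinuous (2 * C) fun x => (hg2 k x).trans (by linarith [(hq x).2]))
    fun i j => by
      have h3 := hg1 i (Pi.single j 1)
      rw [hL, Finset.sum_eq_single j (fun k _ hk => by simp [hk]) (by simp)] at h3
      simpa [Pi.single_apply] using h3
  refine ⟨J, Q, h1, fun x => ?_⟩
  have h3 := up (fun k => g k x) (2 * q x) (by positivity) fun k => hg2 k x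
  have h4 := map_sub_le_add q x (J (Q x))
  rw [h2] at h4 ⊢
  simp only [LinearMap.mkContinuous_apply] at h4 ⊢
  linarith

/-- Projections from a basis: `J a = ∑ i, a i • b (e i)`, `Q x = (b.coord (e i) x)` with
`e = Fintype.equivFin ι`, so `J (Q x) = b.proj (card ι) x`. -/
lemma exists_proj_of_basis [CompleteSpace E] (b : SchauderBasis 𝕜 E) :
    ∃ C₀ : ℝ, 1 ≤ C₀ ∧ ∀ (ι : Type) [Fintype ι] [DecidableEq ι],
      ∃ (J : Eu 𝕜 ι →L[𝕜] E) (Q : E →L[𝕜] Eu 𝕜 ι), (∀ a, Q (J a) = a) ∧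
        ∀ x, ‖x - J (Q x)‖ ≤ C₀ * ‖x‖ := by
  obtain ⟨C, hC⟩ := b.exists_norm_proj_le
  have hC0 : 0 ≤ C := (norm_nonneg _).trans (hC 0)
  refine ⟨1 + C, by linarith, fun ι _ _ => ?_⟩
  let e := Fintype.equivFin ι
  obtain ⟨J, Q, h1, h2⟩ := james_mk (fun i => b (e i)) (fun i => b.coord (e i)) fun i j => by
    rw [b.ortho]
    simp [Pi.single_apply, Fin.val_inj]
  refine ⟨J, Q, h1, fun x => ?_⟩
  have h3 : J (Q x) = b.proj (Fintype.card ι) x := by
    rw [h2, b.proj_apply, ← Fin.sum_univ_eq_sum_range (fun k => b.coord k x • b k),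
      ← e.sum_comp]
  have h4 := (b.proj (Fintype.card ι)).le_of_opNorm_le (hC _) x
  have h5 := norm_sub_le x (J (Q x))
  rw [h3] at h5 ⊢
  linarith

/-- If `ℓ^∞_r` factors with constant `K` then `y k = K • a (ev k)` witness `LinfFam`. Here `γ` is the
sup norm on `Eu 𝕜 (Fin r)` (for instance the norm seminorm composed with `WithLp.linearEquiv`);
`r = 0` is impossible because `LinfFam q 0 K` holds. -/
lemma noFactor_of_not_linfFam (q : Seminorm 𝕜 E) {r : ℕ} {K : ℝ} (hK : 1 ≤ K)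
    (h : ¬ LinfFam q r K) : ∃ γ : Seminorm 𝕜 (Eu 𝕜 (Fin r)), Equi γ ∧ NoFactor γ q K := by
  let T := EuclideanSpace.equiv (Fin r) 𝕜
  let γ : Seminorm 𝕜 (Eu 𝕜 (Fin r)) :=
    (normSeminorm 𝕜 (Fin r → 𝕜)).comp T.toLinearEquiv.toLinearMap
  have hγ : ∀ v, γ v = ‖T v‖ := fun v => rfl
  have hK0 : 0 ≤ K := by linarith
  refine ⟨γ, ?_, fun a b ha hb hab => h ⟨fun k => (K : 𝕜) • a (ev 𝕜 k), fun k => ?_,
    fun c hc => ?_⟩⟩
  · obtain ⟨c, hc, h1⟩ := (T.symm : (Fin r → 𝕜) →L[𝕜] Eu 𝕜 (Fin r)).bound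
    obtain ⟨C, hC, h2⟩ := (T : Eu 𝕜 (Fin r) →L[𝕜] (Fin r → 𝕜)).bound
    refine ⟨c⁻¹, C, inv_pos.mpr hc, hC, fun v => ⟨?_, h2 v⟩⟩
    rw [hγ, ← div_eq_inv_mul, div_le_iff₀' hc]
    simpa using h1 (T v)
  · have h1 : b (a (ev 𝕜 k)) = ev 𝕜 k := LinearMap.congr_fun hab _
    have h2 := hb (a (ev 𝕜 k))
    have h3 := norm_le_pi_norm (T (ev 𝕜 k)) k
    have h4 : T (ev 𝕜 k) k = 1 := (ev_apply k k).trans (if_pos rfl)
    rw [h4, norm_one] at h3
    rw [h1, hγ] at h2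
    rw [james_scale q hK0]
    linarith
  · have h1 : ∑ k, c k • (K : 𝕜) • a (ev 𝕜 k) = (K : 𝕜) • a (T.symm c) := by
      rw [← sum_ev (T.symm c), map_sum, Finset.smul_sum]
      refine Finset.sum_congr rfl fun k _ => ?_
      rw [map_smul, smul_comm]
      rfl
    have h2 := ha (T.symm c)
    rw [hγ, T.apply_symm_apply] at h2
    have h3 : ‖c‖ ≤ 1 := (pi_norm_le_iff_of_nonneg zero_le_one).mpr hc
    rw [h1, james_scale q hK0]
    exact mul_le_of_le_one_right hK0 (h2.trans h3)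

/-- Case distinction. If `∃ C, ∀ r, LinfFam norm r C`, the same holds for every equivalent `q`
(rescale), so take `q, γ` from `HF` and `C₀ = 4`. Otherwise take `q = norm`,
`noFactor_of_not_linfFam` and `exists_proj_of_basis`. -/
theorem exists_proj [CompleteSpace E] (b : SchauderBasis 𝕜 E) (h : HF 𝕜 E) :
    ∃ C₀ : ℝ, 1 ≤ C₀ ∧ ∀ K : ℝ, 1 ≤ K → ∃ q : Seminorm 𝕜 E, Equi q ∧
      (∃ (κ : Type) (_ : Fintype κ) (_ : DecidableEq κ) (γ : Seminorm 𝕜 (Eu 𝕜 κ)),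
        Equi γ ∧ NoFactor γ q K) ∧
      ∀ (ι : Type) [Fintype ι] [DecidableEq ι],
        ∃ (J : Eu 𝕜 ι →L[𝕜] E) (Q : E →L[𝕜] Eu 𝕜 ι), (∀ a, Q (J a) = a) ∧
          ∀ x, q (x - J (Q x)) ≤ C₀ * q x := by
  by_cases h0 : ∃ C, ∀ r, LinfFam (normSeminorm 𝕜 E) r C
  · obtain ⟨C, hC⟩ := h0
    refine ⟨4, by norm_num, fun K hK => ?_⟩
    obtain ⟨q, hq, hκ⟩ := h K hK
    refine ⟨q, hq, hκ, fun ι _ _ => exists_proj_of_linfFam q hq ι ?_⟩
    obtain ⟨c, C', hc, hC', hq⟩ := hq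
    have hi : 0 ≤ c⁻¹ := (inv_pos.mpr hc).le
    refine james q (C := c⁻¹ * (C' * C)) (fun r => ?_) _
    obtain ⟨y, hy1, hy2⟩ := hC r
    refine ⟨fun k => ((c⁻¹ : ℝ) : 𝕜) • y k, fun k => ?_, fun a ha => ?_⟩
    · rw [james_scale q hi, ← div_eq_inv_mul, one_le_div hc]
      exact (le_mul_of_one_le_right hc.le (hy1 k)).trans (hq _).1
    · have h1 : ∑ k, a k • ((c⁻¹ : ℝ) : 𝕜) • y k = ((c⁻¹ : ℝ) : 𝕜) • ∑ k, a k • y k := by
        rw [Finset.smul_sum]
        exact Finset.sum_congr rfl fun k _ => smul_comm _ _ _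
      rw [h1, james_scale q hi]
      exact mul_le_mul_of_nonneg_left
        ((hq _).2.trans (mul_le_mul_of_nonneg_left (hy2 a ha) hC'.le)) hi
  · obtain ⟨C₀, h1, h2⟩ := exists_proj_of_basis b
    refine ⟨C₀, h1, fun K hK => ⟨normSeminorm 𝕜 E,
      ⟨1, 1, one_pos, one_pos, fun y => by simp⟩, ?_, h2⟩⟩
    obtain ⟨r, hr⟩ := not_forall.mp (not_exists.mp h0 K)
    exact ⟨Fin r, inferInstance, inferInstance, noFactor_of_not_linfFam _ hK hr⟩

end

end Pool.Agent.Lib.MP_e0f470_an
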