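import Pool.Agent.Lib.MP_e0f470_an.Four

/-! Khintchine and Kahane inequalities. -/

set_option autoImplicit false

namespace Pool.Agent.Lib.MP_e0f470_an

open Finset
open scoped BigOperators

variable {𝕜 : Type*} [RCLike 𝕜]

section
variable {ι : Type*} [Fintype ι] [DecidableEq ι]

/-- Cauchy-Schwarz for averages. -/
lemma expect_mul_le_sqrt {Ω : Type*} [Fintype Ω] (f g : Ω → ℝ) :
    𝔼 t, f t * g t ≤ √(𝔼 t, f t ^ 2) * √(𝔼 t, g t ^ 2) := by
  rw [← Real.sqrt_mul (Finset.expect_nonneg fun _ _ => sq_nonneg _)]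
  exact Real.le_sqrt_of_sq_le (Finset.expect_mul_sq_le_sq_mul_sq _ f g)

lemma expect_le_sqrt {Ω : Type*} [Fintype Ω] (f : Ω → ℝ) :
    𝔼 t, f t ≤ √(𝔼 t, f t ^ 2) := by
  cases isEmpty_or_nonempty Ω with
  | inl h => simp
  | inr h => simpa [Fintype.expect_const] using expect_mul_le_sqrt f (fun _ => 1)

variable {H : Type*} [NormedAddCommGroup H] [InnerProductSpace 𝕜 H]

omit [Fintype ι] [DecidableEq ι] in
include 𝕜 in
lemma khin_aux_four (z y : H) :
    (‖y + z‖ ^ 4 + ‖-y + z‖ ^ 4) / 2 ≤ ‖z‖ ^ 4 + 6 * ‖y‖ ^ 2 * ‖z‖ ^ 2 + ‖y‖ ^ 4 := by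
  have h1 := norm_add_sq (𝕜 := 𝕜) z y
  have h2 := norm_sub_sq (𝕜 := 𝕜) z y
  have h3 : |RCLike.re (inner 𝕜 z y)| ≤ ‖z‖ * ‖y‖ :=
    (RCLike.abs_re_le_norm _).trans (norm_inner_le_norm _ _)
  have h4 : RCLike.re (inner 𝕜 z y) ^ 2 ≤ (‖z‖ * ‖y‖) ^ 2 := by
    rw [← sq_abs]
    exact pow_le_pow_left₀ (abs_nonneg _) h3 2
  rw [add_comm y z, neg_add_eq_sub]
  have e1 : ‖z + y‖ ^ 4 = (‖z + y‖ ^ 2) ^ 2 := by ring
  have e2 : ‖z - y‖ ^ 4 = (‖z - y‖ ^ 2) ^ 2 := by ring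
  rw [e1, e2, h1, h2]
  nlinarith

include 𝕜 in
lemma khin_aux_trunc (x : ι → H) (F : Finset ι) :
    𝔼 ε : Cube ι, ‖∑ i ∈ F, if ε i then x i else -x i‖ ^ 2 = ∑ i ∈ F, ‖x i‖ ^ 2 := by
  have h := khin2 (𝕜 := 𝕜) (fun i => if i ∈ F then x i else 0)
  have h1 : ∀ ε : Cube ι, rs (fun i => if i ∈ F then x i else 0) ε =
      ∑ i ∈ F, if ε i then x i else -x i := by
    intro ε
    unfold rs
    rw [← Finset.sum_subset (Finset.subset_univ F)]
    · exact Finset.sum_congr rfl fun i hi => by simp [hi]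
    · intro i _ hi
      simp [hi]
  have h2 : ∑ i, ‖if i ∈ F then x i else 0‖ ^ 2 = ∑ i ∈ F, ‖x i‖ ^ 2 := by
    rw [← Finset.sum_subset (Finset.subset_univ F)]
    · exact Finset.sum_congr rfl fun i hi => by simp [hi]
    · intro i _ hi
      simp [hi]
  simp_rw [h1] at h
  rw [h, h2]

include 𝕜 in
/-- Fourth moment. Induct on a finset `F` for the partial sums
`Z F ε = ∑ i ∈ F, if ε i then x i else -x i`, using `expect_update` and
`(‖z + y‖ ^ 4 + ‖z - y‖ ^ 4) / 2 ≤ ‖z‖ ^ 4 + 6 * ‖z‖ ^ 2 * ‖y‖ ^ 2 + ‖y‖ ^ 4`, together with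
the second moment of the partial sums (apply `khin2` to the truncated family). -/
lemma khin4 (x : ι → H) : 𝔼 ε, ‖rs x ε‖ ^ 4 ≤ 3 * (∑ i, ‖x i‖ ^ 2) ^ 2 := by
  have key : ∀ F : Finset ι, 𝔼 ε : Cube ι, ‖∑ i ∈ F, if ε i then x i else -x i‖ ^ 4 ≤
      3 * (∑ i ∈ F, ‖x i‖ ^ 2) ^ 2 := by
    intro F
    induction F using Finset.induction_on with
    | empty => simp
    | insert j F hj ih =>
      have h2 := khin_aux_trunc (𝕜 := 𝕜) x F
      rw [expect_update j, Finset.sum_insert hj]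
      have hb : ∀ ε : Cube ι,
          (‖∑ i ∈ insert j F, if Function.update ε j true i then x i else -x i‖ ^ 4 +
            ‖∑ i ∈ insert j F, if Function.update ε j false i then x i else -x i‖ ^ 4) / 2 ≤
          ‖∑ i ∈ F, if ε i then x i else -x i‖ ^ 4 +
            6 * ‖x j‖ ^ 2 * ‖∑ i ∈ F, if ε i then x i else -x i‖ ^ 2 + ‖x j‖ ^ 4 := by
        intro ε
        have hu : ∀ b : Bool, (∑ i ∈ F, if Function.update ε j b i then x i else -x i) =
            ∑ i ∈ F, if ε i then x i else -x i := by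
          intro b
          refine Finset.sum_congr rfl fun i hi => ?_
          have : i ≠ j := fun h => hj (h ▸ hi)
          rw [Function.update_of_ne this]
        rw [Finset.sum_insert hj, Finset.sum_insert hj, hu, hu, Function.update_self,
          Function.update_self]
        simpa using khin_aux_four (𝕜 := 𝕜) (∑ i ∈ F, if ε i then x i else -x i) (x j)
      refine (Finset.expect_le_expect fun ε _ => hb ε).trans ?_
      rw [Finset.expect_add_distrib, Finset.expect_add_distrib, ← Finset.mul_expect, h2,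
        Fintype.expect_const]
      have h0 : 0 ≤ ‖x j‖ ^ 4 := by positivity
      nlinarith
  exact key univ

include 𝕜 in
lemma khin_le (x : ι → H) : 𝔼 ε, ‖rs x ε‖ ≤ √(∑ i, ‖x i‖ ^ 2) := by
  rw [← khin2 (𝕜 := 𝕜) x]
  exact expect_le_sqrt _

variable {W : Type*} [AddCommGroup W] [Module 𝕜 W]

lemma khin_aux_flip (x : ι → W) (ε : Cube ι) (i : ι) :
    rs x (Function.update ε i (!ε i)) = rs x ε - (2 : 𝕜) • (if ε i then x i else -x i) := by
  unfold rs
  rw [← Finset.add_sum_erase _ _ (Finset.mem_univ i),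
    ← Finset.add_sum_erase _ (fun j => if ε j then x j else -x j) (Finset.mem_univ i)]
  have : ∑ j ∈ univ.erase i, (if Function.update ε i (!ε i) j then x j else -x j) =
      ∑ j ∈ univ.erase i, if ε j then x j else -x j := by
    refine Finset.sum_congr rfl fun j hj => ?_
    rw [Function.update_of_ne (Finset.ne_of_mem_erase hj)]
  rw [this, Function.update_self, two_smul]
  cases ε i <;> simp <;> abel

omit [Fintype ι] [DecidableEq ι] in
lemma khin_aux_sum (p : Seminorm 𝕜 W) (F : Finset ι) (v : ι → W) :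
    p (∑ i ∈ F, v i) ≤ ∑ i ∈ F, p (v i) :=
  Finset.le_sum_of_subadditive p (map_zero p).le (map_add_le_add p) F v

/-- Kahane inequality with the Latala-Oleszkiewicz proof. Let `f ε = p (rs x ε)`, `n = card ι`.
Since `∑ i, rs x (flip i ε) = (n - 2) • rs x ε`, convexity gives
`(n - 2) * f ε ≤ ∑ i, f (flip i ε)`; multiply by `f ε ≥ 0` and average. By `dirichlet_real`,
`parseval_real` and the vanishing of the coefficients with `#S` odd (`f` is even: `rs_neg`,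
`chi_neg`, `expect_neg`) this reads
`(n - 2) * ∑ a S ^ 2 ≤ n * a ∅ ^ 2 + (n - 4) * (∑ a S ^ 2 - a ∅ ^ 2)`. -/
lemma kahane (p : Seminorm 𝕜 W) (x : ι → W) :
    𝔼 ε, p (rs x ε) ^ 2 ≤ 2 * (𝔼 ε, p (rs x ε)) ^ 2 := by
  set f : Cube ι → ℝ := fun ε => p (rs x ε) with hf
  have hf0 : ∀ ε, 0 ≤ f ε := fun ε => apply_nonneg _ _
  have hconv : ∀ ε, ((Fintype.card ι : ℝ) - 2) * f ε ≤
      ∑ i, f (Function.update ε i (!ε i)) := by
    intro ε
    have h1 : ∑ i, rs x (Function.update ε i (!ε i)) =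
        (((Fintype.card ι : ℝ) - 2 : ℝ) : 𝕜) • rs x ε := by
      simp_rw [khin_aux_flip (𝕜 := 𝕜) x ε]
      rw [Finset.sum_sub_distrib, ← Finset.smul_sum, Finset.sum_const, Finset.card_univ,
        ← Nat.cast_smul_eq_nsmul 𝕜]
      push_cast
      rw [sub_smul]
      rfl
    calc ((Fintype.card ι : ℝ) - 2) * f ε
        ≤ ‖(((Fintype.card ι : ℝ) - 2 : ℝ) : 𝕜)‖ * f ε := by
          rw [RCLike.norm_ofReal]
          exact mul_le_mul_of_nonneg_right (le_abs_self _) (hf0 ε)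
      _ = p (∑ i, rs x (Function.update ε i (!ε i))) := by
          rw [h1, map_smul_eq_mul]
      _ ≤ _ := khin_aux_sum p _ _
  have hodd : ∀ S : Finset ι, Odd S.card → 𝔼 ε, chi S ε * f ε = 0 := by
    intro S hS
    have h1 := expect_neg (fun ε => chi S ε * f ε)
    have h2 : ∀ ε, chi S (neg ε) * f (neg ε) = -(chi S ε * f ε) := by
      intro ε
      have : f (neg ε) = f ε := by simp only [hf, rs_neg, map_neg_eq_map]
      rw [this, chi_neg, hS.neg_one_pow]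
      ring
    simp_rw [h2] at h1
    rw [Finset.expect_neg_distrib] at h1
    linarith
  have hD := dirichlet_real f
  have hP := parseval_real f
  have hlow : ((Fintype.card ι : ℝ) - 2) * 𝔼 ε, f ε ^ 2 ≤
      ∑ i, 𝔼 ε, f ε * f (Function.update ε i (!ε i)) := by
    rw [← Finset.expect_sum_comm, Finset.mul_expect]
    refine Finset.expect_le_expect fun ε _ => ?_
    rw [← Finset.mul_sum]
    nlinarith [mul_le_mul_of_nonneg_left (hconv ε) (hf0 ε)]
  have hup : ∑ S : Finset ι, ((Fintype.card ι : ℝ) - 2 * S.card) * (𝔼 ε, chi S ε * f ε) ^ 2 ≤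
      ∑ S : Finset ι, (((Fintype.card ι : ℝ) - 4) * (𝔼 ε, chi S ε * f ε) ^ 2 +
        if S = ∅ then 4 * (𝔼 ε, f ε) ^ 2 else 0) := by
    refine Finset.sum_le_sum fun S _ => ?_
    by_cases hS : S = ∅
    · subst hS
      simp only [chi, Finset.prod_empty, one_mul, Finset.card_empty, Nat.cast_zero, if_true]
      linarith
    · rw [if_neg hS]
      rcases Nat.even_or_odd S.card with he | ho
      · have h1 : S.card ≠ 0 := by simpa using hS
        have h2 : 2 ≤ S.card := by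
          obtain ⟨k, hk⟩ := he
          omega
        have h3 : (2 : ℝ) ≤ S.card := by exact_mod_cast h2
        nlinarith [sq_nonneg (𝔼 ε, chi S ε * f ε)]
      · rw [hodd S ho]
        simp
  rw [Finset.sum_add_distrib, ← Finset.mul_sum, ← hP, Finset.sum_ite_eq' univ ∅,
    if_pos (Finset.mem_univ _)] at hup
  change 𝔼 ε, f ε ^ 2 ≤ 2 * (𝔼 ε, f ε) ^ 2
  linarith

include 𝕜 in
/-- From `khin2` and `kahane` for the norm seminorm. -/
lemma khin1 (x : ι → H) : √(∑ i, ‖x i‖ ^ 2) ≤ 2 * 𝔼 ε, ‖rs x ε‖ := by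
  have h1 := kahane (normSeminorm 𝕜 H) x
  simp only [coe_normSeminorm] at h1
  rw [khin2 (𝕜 := 𝕜) x] at h1
  have h0 : 0 ≤ 𝔼 ε, ‖rs x ε‖ := Finset.expect_nonneg fun _ _ => norm_nonneg _
  rw [Real.sqrt_le_left (by positivity)]
  nlinarith [sq_nonneg (𝔼 ε, ‖rs x ε‖)]

/-- Take a norming functional `φ` for the left side (`exists_norming`), Cauchy-Schwarz, and
`khin1` for the scalars `φ (x i)` (with `H = 𝕜`), `map_rs`. -/
lemma weak_le (p : Seminorm 𝕜 W) (x : ι → W) (a : ι → 𝕜) :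
    p (∑ i, a i • x i) ≤ 2 * √(∑ i, ‖a i‖ ^ 2) * 𝔼 ε, p (rs x ε) := by
  obtain ⟨φ, hφ, hle⟩ := exists_norming p (∑ i, a i • x i)
  have h1 : p (∑ i, a i • x i) = ‖∑ i, a i * φ (x i)‖ := by
    have : φ (∑ i, a i • x i) = ∑ i, a i * φ (x i) := by simp
    rw [← this, hφ, RCLike.norm_ofReal, abs_of_nonneg (apply_nonneg _ _)]
  have h2 : √(∑ i, ‖φ (x i)‖ ^ 2) ≤ 2 * 𝔼 ε, p (rs x ε) := by
    refine (khin1 (𝕜 := 𝕜) (fun i => φ (x i))).trans ?_
    refine mul_le_mul_of_nonneg_left (Finset.expect_le_expect fun ε _ => ?_) (by norm_num)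
    rw [← map_rs φ x ε]
    exact hle _
  calc p (∑ i, a i • x i) ≤ ∑ i, ‖a i‖ * ‖φ (x i)‖ := by
        rw [h1]
        refine (norm_sum_le _ _).trans (le_of_eq ?_)
        simp
    _ ≤ √(∑ i, ‖a i‖ ^ 2) * √(∑ i, ‖φ (x i)‖ ^ 2) := Real.sum_mul_le_sqrt_mul_sqrt _ _ _
    _ ≤ √(∑ i, ‖a i‖ ^ 2) * (2 * 𝔼 ε, p (rs x ε)) :=
        mul_le_mul_of_nonneg_left h2 (Real.sqrt_nonneg _)
    _ = _ := by ring

/-- The averaged norm of a contraction of Euclidean `r`-space is at most `√r`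
(`map_rs`, `khin_le`). -/
lemma ell_le {r m : ℕ} (hm : 0 < m) (p : Seminorm 𝕜 W) (A : Eu 𝕜 (Fin r) →ₗ[𝕜] W)
    (hA : ∀ a, p (A a) ≤ ‖a‖) : ell m p A ≤ √r := by
  unfold ell
  have hm' : (0 : ℝ) < m := by exact_mod_cast hm
  have h1 : ∀ ε : Cube (Fin r × Fin m),
      p (rs (fun kl => ((√m : ℝ) : 𝕜)⁻¹ • A (ev 𝕜 kl.1)) ε) ≤
        ‖rs (fun kl : Fin r × Fin m => ((√m : ℝ) : 𝕜)⁻¹ • ev 𝕜 kl.1) ε‖ := by
    intro ε
    refine le_trans (le_of_eq ?_) (hA _)
    rw [map_rs A]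
    simp only [map_smul]
  refine (Finset.expect_le_expect fun ε _ => h1 ε).trans ((khin_le (𝕜 := 𝕜) _).trans ?_)
  refine le_of_eq (congrArg _ ?_)
  have h2 : ∀ kl : Fin r × Fin m, ‖((√m : ℝ) : 𝕜)⁻¹ • ev 𝕜 kl.1‖ ^ 2 = (m : ℝ)⁻¹ := by
    intro kl
    rw [norm_smul, norm_ev, mul_one, norm_inv, RCLike.norm_ofReal,
      abs_of_nonneg (Real.sqrt_nonneg _), inv_pow, Real.sq_sqrt hm'.le]
  simp_rw [h2]
  simp only [Finset.sum_const, Finset.card_univ, Fintype.card_prod, Fintype.card_fin,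
    nsmul_eq_mul, Nat.cast_mul]
  field_simp

end

end Pool.Agent.Lib.MP_e0f470_an
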