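import Pool.Agent.Lib.MP_e0f470_an.Push

/-! Spaces that contain a copy of the space of summable sequences. -/

set_option autoImplicit false

namespace Pool.Agent.Lib.MP_e0f470_an

open Finset
open scoped BigOperators

variable {𝕜 : Type*} [RCLike 𝕜]

section
variable {E : Type*} [NormedAddCommGroup E] [NormedSpace 𝕜 E]

omit [NormedAddCommGroup E] [NormedSpace 𝕜 E] in
/-- `PP` excludes factorisations of Euclidean space: `r = ‖tr id‖ ≤ δ √r K ell ≤ δ K r`
(`ell_le`). -/
lemma noFactor_of_pp {W : Type*} [AddCommGroup W] [Module 𝕜 W] {r m : ℕ} (hr : 0 < r) (hm : 0 < m)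
    {δ K : ℝ} (hδ : 0 ≤ δ) (hK : 0 ≤ K) (hδK : δ * K < 1) (p : Seminorm 𝕜 W) (h : PP r m δ p) :
    NoFactor (normSeminorm 𝕜 (Eu 𝕜 (Fin r))) p K := by
  intro a b ha hb hab
  have h1 := h a b K hK hb
  have h2 := ell_le hm p a ha
  have hr' : (0 : ℝ) < r := by exact_mod_cast hr
  rw [hab, tr, LinearMap.trace_id] at h1
  simp only [finrank_euclideanSpace, Fintype.card_fin, RCLike.norm_natCast] at h1
  have h3 : δ * √r * K * ell m p a ≤ δ * √r * K * √r := by gcongr
  have h4 : √(r : ℝ) * √r = r := Real.mul_self_sqrt hr'.le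
  have h5 : δ * √r * K * √r = δ * K * r := by
    calc δ * √r * K * √r = δ * K * (√r * √r) := by ring
      _ = _ := by rw [h4]
  nlinarith

/-- A space with a basis is separable (finite combinations of the basis vectors span a dense
subspace: `TopologicalSpace.IsSeparable.span`, `b.tendsto_proj`). -/
lemma separable_of_basis (b : SchauderBasis 𝕜 E) : TopologicalSpace.SeparableSpace E := by
  have h1 : TopologicalSpace.IsSeparable
      (Submodule.span 𝕜 (Set.range b) : Set E) :=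
    (Set.countable_range _).isSeparable.span
  rw [← TopologicalSpace.isSeparable_univ_iff]
  refine h1.closure.mono fun x _ => mem_closure_of_tendsto (b.tendsto_proj x) ?_
  refine Filter.Eventually.of_forall fun n => ?_
  rw [SchauderBasis.proj_apply]
  exact Submodule.sum_mem _ fun i _ =>
    Submodule.smul_mem _ _ (Submodule.subset_span (Set.mem_range_self i))

lemma l1_norm_sum {I : Type*} (j : I → ℕ) (hj : Function.Injective j) (G : Finset I) (h : I → 𝕜) :
    ‖∑ i ∈ G, h i • (lp.single 1 (j i) (1 : 𝕜) : lp (fun _ : ℕ => 𝕜) 1)‖ = ∑ i ∈ G, ‖h i‖ := by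
  have h1 := lp.norm_sum_single (p := 1) (E := fun _ : ℕ => 𝕜) (by simp)
    (Function.extend j h 0) (G.map ⟨j, hj⟩)
  simp only [ENNReal.toReal_one, Real.rpow_one, Finset.sum_map, Function.Embedding.coeFn_mk,
    hj.extend_apply] at h1
  rw [← h1]
  congr 1
  refine Finset.sum_congr rfl fun i _ => ?_
  rw [← lp.single_smul, smul_eq_mul, mul_one]

/-- Apply `push` with `c₀ = c / ‖T‖`, `CH = 2`, `δ = 1 / (2 K)`, `p` the norm, `Γ` a countable dense
subset of the closed unit ball of `Eu 𝕜 (Fin r) →L[𝕜] E` (second countable; there is an instance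
`SecondCountableTopology (E →L[𝕜] F)` for finite dimensional `E`), and
`u α S = ‖T‖⁻¹ • T (lp.single 1 (j (α, S)) 1)` for an injection `j : Γ × Finset (Fin r) → ℕ`.
The hypothesis on traces follows from `tr_le_of_bound` with `‖A' - A α‖ ≤ 1 / √r`. -/
theorem hf_of_l1 [TopologicalSpace.SeparableSpace E] (T : lp (fun _ : ℕ => 𝕜) 1 →L[𝕜] E) {c : ℝ}
    (hc : 0 < c) (hT : ∀ x, c * ‖x‖ ≤ ‖T x‖) : HF 𝕜 E := by
  intro K hK
  have hT0 : 0 < ‖T‖ := by
    have h1 := hT (lp.single 1 0 1)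
    have h2 := T.le_opNorm (lp.single 1 0 1)
    rw [lp.norm_single (by simp), norm_one, mul_one] at h1 h2
    linarith
  obtain ⟨r, m, hr, hm, M, hM, H⟩ := push (𝕜 := 𝕜) (c₀ := c / ‖T‖) (CH := 2) (δ := 1 / (2 * K))
    (by positivity) two_pos (by positivity)
  obtain ⟨Γ, hΓc, hΓd⟩ := TopologicalSpace.exists_countable_dense
    (Metric.closedBall (0 : Eu 𝕜 (Fin r) →L[𝕜] E) 1)
  have : Countable Γ := hΓc.to_subtype
  obtain ⟨j, hj⟩ := exists_injective_nat (Γ × Finset (Fin r))
  have hnT : ‖((‖T‖ : ℝ) : 𝕜)⁻¹‖ = ‖T‖⁻¹ := by simp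
  obtain ⟨p', hp1, hp2⟩ := H E (normSeminorm 𝕜 E) Γ (fun α => α.1.1.toLinearMap)
    (fun α S => ((‖T‖ : ℝ) : 𝕜)⁻¹ • T (lp.single 1 (j (α, S)) 1))
    (by
      intro α a
      have h1 : ‖α.1.1‖ ≤ 1 := mem_closedBall_zero_iff.1 α.1.2
      exact (α.1.1.le_opNorm a).trans (mul_le_of_le_one_left (norm_nonneg _) h1))
    (by
      intro α S
      have h2 := T.le_opNorm (lp.single 1 (j (α, S)) 1)
      rw [lp.norm_single (by simp), norm_one, mul_one] at h2
      rw [coe_normSeminorm, norm_smul, hnT, inv_mul_le_iff₀ hT0, mul_one]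
      exact h2)
    (by
      intro F h
      have e : ∑ α ∈ F, ∑ S, h α S • ((‖T‖ : ℝ) : 𝕜)⁻¹ • T (lp.single 1 (j (α, S)) 1)
          = ((‖T‖ : ℝ) : 𝕜)⁻¹ • T (∑ i ∈ F ×ˢ Finset.univ,
            h i.1 i.2 • (lp.single 1 (j i) (1 : 𝕜) : lp (fun _ : ℕ => 𝕜) 1)) := by
        rw [map_sum, Finset.smul_sum, Finset.sum_product]
        refine Finset.sum_congr rfl fun α _ => Finset.sum_congr rfl fun S _ => ?_
        rw [map_smul, smul_comm]
      have h1 := hT (∑ i ∈ F ×ˢ Finset.univ,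
        h i.1 i.2 • (lp.single 1 (j i) (1 : 𝕜) : lp (fun _ : ℕ => 𝕜) 1))
      rw [l1_norm_sum j hj _ (fun i => h i.1 i.2), Finset.sum_product] at h1
      rw [coe_normSeminorm, e, norm_smul, hnT, div_eq_inv_mul, mul_assoc]
      gcongr)
    (by
      intro B hB hA A' hA'
      have hr' : (0 : ℝ) < √r := Real.sqrt_pos.2 (by exact_mod_cast hr)
      have hm' : LinearMap.toContinuousLinearMap A' ∈
          Metric.closedBall (0 : Eu 𝕜 (Fin r) →L[𝕜] E) 1 := by
        rw [mem_closedBall_zero_iff]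
        exact ContinuousLinearMap.opNorm_le_bound _ zero_le_one fun a => by
          simpa using hA' a
      obtain ⟨α, hα, hd⟩ := hΓd.exists_dist_lt ⟨_, hm'⟩ (inv_pos.2 hr')
      rw [Subtype.dist_eq, dist_eq_norm] at hd
      have h1 := tr_le_of_bound (B ∘ₗ (A' - α.1.toLinearMap)) (β := (√r)⁻¹) (fun a => by
        refine (hB _).trans ?_
        exact ((LinearMap.toContinuousLinearMap A' - α.1).le_opNorm a).trans
          (mul_le_mul_of_nonneg_right hd.le (norm_nonneg _)))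
      have h2 := hA ⟨α, hα⟩
      have e : tr (B ∘ₗ A') = tr (B ∘ₗ α.1.toLinearMap) + tr (B ∘ₗ (A' - α.1.toLinearMap)) := by
        rw [← map_add, ← LinearMap.comp_add, add_sub_cancel]
      have h4 : (√(r : ℝ))⁻¹ * (Fintype.card (Fin r) : ℝ) = √r := by
        rw [Fintype.card_fin, inv_mul_eq_iff_eq_mul₀ hr'.ne',
          Real.mul_self_sqrt (Nat.cast_nonneg _)]
      rw [e]
      refine (norm_add_le _ _).trans ?_
      linarith)
  refine ⟨p', ⟨M⁻¹, 1, by positivity, one_pos, fun y => ⟨?_, ?_⟩⟩, Fin r, inferInstance,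
    inferInstance, normSeminorm 𝕜 _, ⟨1, 1, one_pos, one_pos, fun y => by simp⟩,
    noFactor_of_pp hr hm (by positivity) (by positivity) ?_ p' hp2⟩
  · rw [inv_mul_le_iff₀ (by positivity)]
    exact (hp1 y).2
  · rw [one_mul]
    exact (hp1 y).1
  · have : 1 / (2 * K) * K = 1 / 2 := by field_simp
    rw [this]
    norm_num

/-- The same for a bounded sequence equivalent to the unit vector basis of `ℓ¹`. -/
theorem hf_of_l1_seq [TopologicalSpace.SeparableSpace E] (x : ℕ → E) {c : ℝ} (hc : 0 < c)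
    (hx : ∀ k, ‖x k‖ ≤ 1)
    (hT : ∀ (s : Finset ℕ) (a : ℕ → 𝕜), c * ∑ k ∈ s, ‖a k‖ ≤ ‖∑ k ∈ s, a k • x k‖) :
    HF 𝕜 E := by
  intro K hK
  obtain ⟨r, m, hr, hm, M, hM, H⟩ := push (𝕜 := 𝕜) (c₀ := c) (CH := 2) (δ := 1 / (2 * K))
    hc two_pos (by positivity)
  obtain ⟨Γ, hΓc, hΓd⟩ := TopologicalSpace.exists_countable_dense
    (Metric.closedBall (0 : Eu 𝕜 (Fin r) →L[𝕜] E) 1)
  have : Countable Γ := hΓc.to_subtype
  obtain ⟨j, hj⟩ := exists_injective_nat (Γ × Finset (Fin r))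
  obtain ⟨p', hp1, hp2⟩ := H E (normSeminorm 𝕜 E) Γ (fun α => α.1.1.toLinearMap)
    (fun α S => x (j (α, S)))
    (by
      intro α a
      have h1 : ‖α.1.1‖ ≤ 1 := mem_closedBall_zero_iff.1 α.1.2
      exact (α.1.1.le_opNorm a).trans (mul_le_of_le_one_left (norm_nonneg _) h1))
    (fun α S => hx _)
    (by
      intro F h
      have h1 := hT ((F ×ˢ Finset.univ).map ⟨j, hj⟩)
        (Function.extend j (fun i => h i.1 i.2) 0)
      simp only [Finset.sum_map, Function.Embedding.coeFn_mk, hj.extend_apply,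
        Finset.sum_product] at h1
      exact h1)
    (by
      intro B hB hA A' hA'
      have hr' : (0 : ℝ) < √r := Real.sqrt_pos.2 (by exact_mod_cast hr)
      have hm' : LinearMap.toContinuousLinearMap A' ∈
          Metric.closedBall (0 : Eu 𝕜 (Fin r) →L[𝕜] E) 1 := by
        rw [mem_closedBall_zero_iff]
        exact ContinuousLinearMap.opNorm_le_bound _ zero_le_one fun a => by
          simpa using hA' a
      obtain ⟨α, hα, hd⟩ := hΓd.exists_dist_lt ⟨_, hm'⟩ (inv_pos.2 hr')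
      rw [Subtype.dist_eq, dist_eq_norm] at hd
      have h1 := tr_le_of_bound (B ∘ₗ (A' - α.1.toLinearMap)) (β := (√r)⁻¹) (fun a => by
        refine (hB _).trans ?_
        exact ((LinearMap.toContinuousLinearMap A' - α.1).le_opNorm a).trans
          (mul_le_mul_of_nonneg_right hd.le (norm_nonneg _)))
      have h2 := hA ⟨α, hα⟩
      have e : tr (B ∘ₗ A') = tr (B ∘ₗ α.1.toLinearMap) + tr (B ∘ₗ (A' - α.1.toLinearMap)) := by
        rw [← map_add, ← LinearMap.comp_add, add_sub_cancel]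
      have h4 : (√(r : ℝ))⁻¹ * (Fintype.card (Fin r) : ℝ) = √r := by
        rw [Fintype.card_fin, inv_mul_eq_iff_eq_mul₀ hr'.ne',
          Real.mul_self_sqrt (Nat.cast_nonneg _)]
      rw [e]
      refine (norm_add_le _ _).trans ?_
      linarith)
  refine ⟨p', ⟨M⁻¹, 1, by positivity, one_pos, fun y => ⟨?_, ?_⟩⟩, Fin r, inferInstance,
    inferInstance, normSeminorm 𝕜 _, ⟨1, 1, one_pos, one_pos, fun y => by simp⟩,
    noFactor_of_pp hr hm (by positivity) (by positivity) ?_ p' hp2⟩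
  · rw [inv_mul_le_iff₀ (by positivity)]
    exact (hp1 y).2
  · rw [one_mul]
    exact (hp1 y).1
  · have : 1 / (2 * K) * K = 1 / 2 := by field_simp
    rw [this]
    norm_num

end

end Pool.Agent.Lib.MP_e0f470_an
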