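import Pool.Agent.Lib.MP_e0f470_an.Tail

/-! Odd functions with small defect are close to Rademacher sums. -/

set_option autoImplicit false

namespace Pool.Agent.Lib.MP_e0f470_an

open Finset
open scoped BigOperators

variable {𝕜 : Type*} [RCLike 𝕜]

section
variable {ι : Type*} [Fintype ι] [DecidableEq ι] {H : Type*} [NormedAddCommGroup H]
  [InnerProductSpace 𝕜 H]

omit [Fintype ι] [DecidableEq ι] in
lemma lin_mix_neg (s ε ε' : Cube ι) : mix (neg s) ε ε' = mix s ε' ε := by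
  funext i
  rcases h : s i <;> simp [mix, neg, h]

lemma lin_fc_empty (f : Cube ι → H) (hf : ∀ ε, f (neg ε) = -f ε) : fc 𝕜 f ∅ = 0 := by
  have h1 : ∑ ε, f ε = -∑ ε, f ε := by
    rw [← Finset.sum_neg_distrib]
    refine Fintype.sum_equiv ⟨neg, neg, neg_neg_cube, neg_neg_cube⟩ _ _ fun ε => ?_
    simp [hf]
  have h2 : (2 : 𝕜) • ∑ ε, f ε = 0 := by
    rw [two_smul]
    exact add_eq_zero_iff_eq_neg.mpr h1
  have h3 : ∑ ε, f ε = 0 := (smul_eq_zero.mp h2).resolve_left two_ne_zero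
  simp [fc, chi, h3]

lemma lin_parseval (f : Cube ι → H) :
    𝔼 ε, ‖f ε‖ ^ 2 = ∑ S : Finset ι, ‖fc 𝕜 f S‖ ^ 2 := by
  rw [← expect_norm_sq_walsh (𝕜 := 𝕜) univ (fc 𝕜 f)]
  exact Finset.expect_congr rfl fun ε _ => by rw [← fourier_inv]

lemma lin_cross (f : Cube ι → H) :
    𝔼 s : Cube ι, 𝔼 ε : Cube ι, 𝔼 ε' : Cube ι, RCLike.re (inner 𝕜 (f ε) (f (mix s ε ε'))) =
      ∑ S : Finset ι, (1 / 2) ^ S.card * ‖fc 𝕜 f S‖ ^ 2 := by
  rw [Finset.expect_comm]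
  have h1 : ∀ ε : Cube ι, 𝔼 s : Cube ι, 𝔼 ε' : Cube ι,
      RCLike.re (inner 𝕜 (f ε) (f (mix s ε ε'))) =
      RCLike.re (inner 𝕜 (∑ S : Finset ι, ((chi S ε : ℝ) : 𝕜) • fc 𝕜 f S)
        (∑ S : Finset ι, ((chi S ε : ℝ) : 𝕜) •
          (((((1 / 2 : ℝ) ^ S.card : ℝ)) : 𝕜) • fc 𝕜 f S))) := by
    intro ε
    rw [← fourier_inv]
    have e1 : ∀ η : Cube ι, RCLike.re (inner 𝕜 (f ε) (f η)) =
        ∑ S : Finset ι, chi S η * RCLike.re (inner 𝕜 (f ε) (fc 𝕜 f S)) := by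
      intro η
      rw [fourier_inv (𝕜 := 𝕜) f η, inner_sum, map_sum]
      refine Finset.sum_congr rfl fun S _ => ?_
      rw [inner_smul_right, RCLike.re_ofReal_mul]
    simp only [e1]
    rw [inner_sum, map_sum]
    simp only [Finset.expect_sum_comm]
    refine Finset.sum_congr rfl fun S _ => ?_
    rw [inner_smul_right, RCLike.re_ofReal_mul, inner_smul_right, RCLike.re_ofReal_mul]
    simp only [← Finset.expect_mul]
    rw [expect_chi_mix]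
    ring
  simp only [h1]
  rw [expect_re_inner_walsh]
  refine Finset.sum_congr rfl fun S _ => ?_
  rw [inner_smul_right, RCLike.re_ofReal_mul, inner_self_eq_norm_sq]

lemma lin_indep (f : Cube ι → H) (hf : ∀ ε, f (neg ε) = -f ε) (ε : Cube ι) :
    𝔼 ε' : Cube ι, RCLike.re (inner 𝕜 (f ε) (f ε')) = 0 := by
  have h := expect_neg (fun ε' : Cube ι => RCLike.re (inner 𝕜 (f ε) (f ε')))
  simp only [hf, inner_neg_right, map_neg, Finset.expect_neg_distrib] at h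
  linarith

lemma lin_dfc_sq (f : Cube ι → H) (hf : ∀ ε, f (neg ε) = -f ε) :
    𝔼 s : Cube ι, 𝔼 ε : Cube ι, 𝔼 ε' : Cube ι, ‖dfc f s ε ε'‖ ^ 2 =
      ∑ S : Finset ι, (4 - 8 * (1 / 2) ^ S.card) * ‖fc 𝕜 f S‖ ^ 2 := by
  have hA : 𝔼 ε : Cube ι, 𝔼 ε' : Cube ι, ‖f ε + f ε'‖ ^ 2 = 2 * 𝔼 ε, ‖f ε‖ ^ 2 := by
    simp only [norm_add_sq (𝕜 := 𝕜), Finset.expect_add_distrib, ← Finset.mul_expect,
      lin_indep f hf, Finset.expect_const Finset.univ_nonempty]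
    ring
  have hexp : ∀ s ε ε' : Cube ι, ‖dfc f s ε ε'‖ ^ 2 =
      ‖f ε + f ε'‖ ^ 2 + ‖f (mix s ε ε') + f (mix s ε' ε)‖ ^ 2 -
        2 * (RCLike.re (inner 𝕜 (f ε) (f (mix s ε ε'))) +
          RCLike.re (inner 𝕜 (f ε) (f (mix s ε' ε))) +
          RCLike.re (inner 𝕜 (f ε') (f (mix s ε ε'))) +
          RCLike.re (inner 𝕜 (f ε') (f (mix s ε' ε)))) := by
    intro s ε ε'
    have e : dfc f s ε ε' = (f ε + f ε') - (f (mix s ε ε') + f (mix s ε' ε)) := by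
      unfold dfc; abel
    rw [e, norm_sub_sq (𝕜 := 𝕜)]
    simp only [inner_add_left, inner_add_right, map_add]
    ring
  have hB : ∀ s : Cube ι, 𝔼 ε : Cube ι, 𝔼 ε' : Cube ι,
      ‖f (mix s ε ε') + f (mix s ε' ε)‖ ^ 2 = 2 * 𝔼 ε, ‖f ε‖ ^ 2 := fun s => by
    rw [expect_mix_mix s (fun a b => ‖f a + f b‖ ^ 2), hA]
  have T1 := lin_cross (𝕜 := 𝕜) f
  have T2 : 𝔼 s : Cube ι, 𝔼 ε : Cube ι, 𝔼 ε' : Cube ι,
      RCLike.re (inner 𝕜 (f ε) (f (mix s ε' ε))) =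
      ∑ S : Finset ι, (1 / 2) ^ S.card * ‖fc 𝕜 f S‖ ^ 2 := by
    rw [← T1, ← expect_neg (fun s => 𝔼 ε : Cube ι, 𝔼 ε' : Cube ι,
      RCLike.re (inner 𝕜 (f ε) (f (mix s ε ε'))))]
    simp only [lin_mix_neg]
  have T3 : 𝔼 s : Cube ι, 𝔼 ε : Cube ι, 𝔼 ε' : Cube ι,
      RCLike.re (inner 𝕜 (f ε') (f (mix s ε ε'))) =
      ∑ S : Finset ι, (1 / 2) ^ S.card * ‖fc 𝕜 f S‖ ^ 2 := by
    rw [← T2]
    exact Finset.expect_congr rfl fun s _ => Finset.expect_comm _ _ _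
  have T4 : 𝔼 s : Cube ι, 𝔼 ε : Cube ι, 𝔼 ε' : Cube ι,
      RCLike.re (inner 𝕜 (f ε') (f (mix s ε' ε))) =
      ∑ S : Finset ι, (1 / 2) ^ S.card * ‖fc 𝕜 f S‖ ^ 2 := by
    rw [← T1]
    exact Finset.expect_congr rfl fun s _ => Finset.expect_comm _ _ _
  simp only [hexp, Finset.expect_sub_distrib, Finset.expect_add_distrib, ← Finset.mul_expect,
    hA, hB, T1, T2, T3, T4, Finset.expect_const Finset.univ_nonempty]
  rw [lin_parseval (𝕜 := 𝕜) f]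
  simp only [sub_mul, Finset.sum_sub_distrib, mul_assoc, ← Finset.mul_sum]
  ring

include 𝕜 in
/-- The `L²` statement. Let `a S = fc 𝕜 f S`, `v i = a {i}`; `a ∅ = 0` because `f` is odd.
Expanding the square and using `expect_mix_mix`, symmetry in `s ↦ neg s` and independence,
`𝔼 ‖dfc‖ ^ 2 = 4 * 𝔼 ‖f‖ ^ 2 + 4 * ‖a ∅‖ ^ 2 - 8 * 𝔼 re ⟪f ε, f (mix s ε ε')⟫`, and by
`fourier_inv`, `expect_chi_mix`, `expect_chi_mul` the last average is `∑ S, ‖a S‖ ^ 2 / 2 ^ #S`.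
So `𝔼 ‖dfc‖ ^ 2 = ∑ S ≠ ∅, (4 - 8 / 2 ^ #S) * ‖a S‖ ^ 2 ≥ 2 * ∑ (#S ≥ 2), ‖a S‖ ^ 2`.
(An alternative: `dfc f = ∑ S, dfc (chi S) • a S` and compute `𝔼 dfc (chi S) * dfc (chi T)`.) -/
theorem l2gap (f : Cube ι → H) (hf : ∀ ε, f (neg ε) = -f ε) :
    ∃ v : ι → H, 𝔼 ε, ‖f ε - rs v ε‖ ^ 2 ≤
      1 / 2 * 𝔼 s : Cube ι, 𝔼 ε : Cube ι, 𝔼 ε' : Cube ι, ‖dfc f s ε ε'‖ ^ 2 := by
  refine ⟨fun i => fc 𝕜 f {i}, ?_⟩
  have h1 : ∀ ε, f ε - rs (fun i => fc 𝕜 f {i}) ε =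
      ∑ S ∈ univ.filter (fun S : Finset ι => S.card ≠ 1), ((chi S ε : ℝ) : 𝕜) • fc 𝕜 f S := by
    intro ε
    have e1 : rs (fun i => fc 𝕜 f {i}) ε =
        ∑ S ∈ univ.filter (fun S : Finset ι => S.card = 1), ((chi S ε : ℝ) : 𝕜) • fc 𝕜 f S := by
      rw [rs_eq_smul (𝕜 := 𝕜)]
      refine Finset.sum_bij (fun i _ => ({i} : Finset ι)) (fun i _ => by simp)
        (fun i _ j _ h => Finset.singleton_injective h) (fun S hS => ?_) (fun i _ => by simp [chi])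
      obtain ⟨i, hi⟩ := Finset.card_eq_one.mp (Finset.mem_filter.mp hS).2
      exact ⟨i, Finset.mem_univ _, hi.symm⟩
    rw [e1, sub_eq_iff_eq_add, add_comm, Finset.sum_filter_add_sum_filter_not, ← fourier_inv]
  simp only [h1]
  rw [expect_norm_sq_walsh, lin_dfc_sq (𝕜 := 𝕜) f hf, Finset.mul_sum, Finset.sum_filter]
  refine Finset.sum_le_sum fun S _ => ?_
  have hn : 0 ≤ ‖fc 𝕜 f S‖ ^ 2 := by positivity
  by_cases h : S.card = 1
  · simp only [h, ne_eq, not_true_eq_false, if_false]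
    norm_num
  · simp only [h, ne_eq, not_false_eq_true, if_true]
    rcases Nat.eq_zero_or_pos S.card with h0 | h0
    · rw [Finset.card_eq_zero.mp h0, lin_fc_empty f hf]
      simp
    · have h2 : (1 / 2 : ℝ) ^ S.card ≤ (1 / 2) ^ 2 :=
        pow_le_pow_of_le_one (by norm_num) (by norm_num) (by omega)
      nlinarith

/-- The constant of the linearisation theorem. -/
noncomputable def linC : ℝ := 10 ^ 30

lemma lin_sq_le (f : Cube ι → H) {c : ℝ} (hc : ∀ s ε ε', ‖dfc f s ε ε'‖ ≤ c) :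
    𝔼 s : Cube ι, 𝔼 ε : Cube ι, 𝔼 ε' : Cube ι, ‖dfc f s ε ε'‖ ^ 2 ≤ c * dfcAvg f := by
  unfold dfcAvg
  simp only [Finset.mul_expect]
  refine Finset.expect_le_expect fun s _ => Finset.expect_le_expect fun ε _ =>
    Finset.expect_le_expect fun ε' _ => ?_
  rw [sq]
  exact mul_le_mul_of_nonneg_right (hc s ε ε') (norm_nonneg _)

lemma lin_dfcAvg_nonneg (f : Cube ι → H) : 0 ≤ dfcAvg f :=
  Finset.expect_nonneg fun _ _ => Finset.expect_nonneg fun _ _ =>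
    Finset.expect_nonneg fun _ _ => norm_nonneg _

lemma lin_dfcAvg_sub (f g : Cube ι → H) :
    dfcAvg (fun ε => f ε - g ε) ≤ dfcAvg f + dfcAvg g := by
  unfold dfcAvg
  simp only [← Finset.expect_add_distrib]
  refine Finset.expect_le_expect fun s _ => Finset.expect_le_expect fun ε _ =>
    Finset.expect_le_expect fun ε' _ => ?_
  have e : dfc (fun ε => f ε - g ε) s ε ε' = dfc f s ε ε' - dfc g s ε ε' := by
    simp only [dfc]; abel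
  rw [e]
  exact norm_sub_le _ _

lemma lin_dfcAvg_rs (f : Cube ι → H) (v : ι → H) :
    dfcAvg (fun ε => f ε - rs v ε) = dfcAvg f := by
  unfold dfcAvg
  refine Finset.expect_congr rfl fun s _ => Finset.expect_congr rfl fun ε _ =>
    Finset.expect_congr rfl fun ε' _ => ?_
  have e : dfc (fun ε => f ε - rs v ε) s ε ε' = dfc f s ε ε' - dfc (rs v) s ε ε' := by
    simp only [dfc]; abel
  rw [e, dfc_rs, sub_zero]

include 𝕜 in
/-- Improvement step. With `σ = 𝔼 ‖f‖`, `b = 4 ^ 32 * 48 ^ 4 * σ`, truncate `F = f` where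
`‖f‖ ≤ b` and `0` elsewhere (odd again). Then `‖dfc F‖ ≤ 4 * b`,
`dfcAvg F ≤ δ + 4 * tailAvg f b` (`dfcAvg_le` for `f - F`), so `l2gap` gives `v` with
`𝔼 ‖F - rs v‖ ^ 2 ≤ 2 * b * (δ + 4 * tailAvg f b)`; use `tail_iter f 32`, `expect_le_sqrt` and
`√(42 * B * σ * δ) ≤ σ / 8 + 84 * B * δ` for `B = 4 ^ 32 * 48 ^ 4 < 10 ^ 26`. -/
lemma lin_step (f : Cube ι → H) (hf : ∀ ε, f (neg ε) = -f ε) :
    ∃ v : ι → H, 𝔼 ε, ‖f ε - rs v ε‖ ≤ (𝔼 ε, ‖f ε‖) / 2 + 10 ^ 28 * dfcAvg f := by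
  have htail := tail_iter f 32
  set σ : ℝ := 𝔼 ε, ‖f ε‖ with hσ
  set δ : ℝ := dfcAvg f with hδ
  set b : ℝ := 4 ^ 32 * 48 ^ 4 * σ with hb
  have hσ0 : 0 ≤ σ := Finset.expect_nonneg fun _ _ => norm_nonneg _
  have hδ0 : 0 ≤ δ := lin_dfcAvg_nonneg f
  have hb0 : 0 ≤ b := by positivity
  let G : Cube ι → H := fun ε => if b < ‖f ε‖ then f ε else 0
  have hG : 𝔼 ε, ‖G ε‖ = tailAvg f b := by
    unfold tailAvg
    refine Finset.expect_congr rfl fun ε _ => ?_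
    by_cases h : b < ‖f ε‖ <;> simp [G, h]
  have hFb : ∀ ε, ‖f ε - G ε‖ ≤ b := by
    intro ε
    by_cases h : b < ‖f ε‖
    · simpa [G, h] using hb0
    · simp only [G, h, if_false, sub_zero]
      exact not_lt.mp h
  have hFodd : ∀ ε, f (neg ε) - G (neg ε) = -(f ε - G ε) := by
    intro ε
    by_cases h : b < ‖f ε‖ <;> simp [G, hf, h]
  obtain ⟨v, hv⟩ := l2gap (𝕜 := 𝕜) (fun ε => f ε - G ε) hFodd
  have h4 : ∀ s ε ε', ‖dfc (fun ε => f ε - G ε) s ε ε'‖ ≤ 4 * b := by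
    intro s ε ε'
    unfold dfc
    have a1 := norm_sub_le ((f ε - G ε) + (f ε' - G ε') - (f (mix s ε ε') - G (mix s ε ε')))
      (f (mix s ε' ε) - G (mix s ε' ε))
    have a2 := norm_sub_le ((f ε - G ε) + (f ε' - G ε')) (f (mix s ε ε') - G (mix s ε ε'))
    have a3 := norm_add_le (f ε - G ε) (f ε' - G ε')
    have := hFb ε
    have := hFb ε'
    have := hFb (mix s ε ε')
    have := hFb (mix s ε' ε)
    linarith
  have h5 := lin_sq_le _ h4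
  have h6 := lin_dfcAvg_sub f G
  have h7 := dfcAvg_le G
  rw [hG] at h7
  have h8 : dfcAvg (fun ε => f ε - G ε) ≤ 21 * δ + 4 * (σ / 8 ^ 32) := by linarith
  have h9 := mul_le_mul_of_nonneg_left h8 (by positivity : 0 ≤ 4 * b)
  have h10 : 𝔼 ε, ‖f ε - G ε - rs v ε‖ ^ 2 ≤ (σ / 4 + 84 * (4 ^ 32 * 48 ^ 4) * δ) ^ 2 := by
    have e : 1 / 2 * (4 * b * (21 * δ + 4 * (σ / 8 ^ 32))) =
        42 * (4 ^ 32 * 48 ^ 4) * (σ * δ) + 8 * (4 ^ 32 * 48 ^ 4) / 8 ^ 32 * σ ^ 2 := by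
      rw [hb]; ring
    have e2 : (σ / 4 + 84 * (4 ^ 32 * 48 ^ 4) * δ) ^ 2 =
        42 * (4 ^ 32 * 48 ^ 4) * (σ * δ) + 1 / 16 * σ ^ 2 + (84 * (4 ^ 32 * 48 ^ 4) * δ) ^ 2 := by
      ring
    have e3 : (8 * (4 ^ 32 * 48 ^ 4) / 8 ^ 32 : ℝ) * σ ^ 2 ≤ 1 / 16 * σ ^ 2 :=
      mul_le_mul_of_nonneg_right (by norm_num) (sq_nonneg σ)
    have e4 := sq_nonneg (84 * (4 ^ 32 * 48 ^ 4) * δ)
    linarith
  have h11 : 𝔼 ε, ‖f ε - G ε - rs v ε‖ ≤ σ / 4 + 84 * (4 ^ 32 * 48 ^ 4) * δ :=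
    le_trans (expect_le_sqrt _) (Real.sqrt_le_iff.mpr ⟨by positivity, h10⟩)
  refine ⟨v, ?_⟩
  have h12 : 𝔼 ε, ‖f ε - rs v ε‖ ≤ 𝔼 ε, (‖f ε - G ε - rs v ε‖ + ‖G ε‖) := by
    refine Finset.expect_le_expect fun ε _ => ?_
    have e : f ε - rs v ε = (f ε - G ε - rs v ε) + G ε := by abel
    rw [e]
    exact norm_add_le _ _
  rw [Finset.expect_add_distrib, hG] at h12
  have h13 : σ / 8 ^ 32 ≤ σ / 4 := div_le_div_of_nonneg_left hσ0 (by norm_num) (by norm_num)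
  have h14 : (84 * (4 ^ 32 * 48 ^ 4) + 5 : ℝ) * δ ≤ 10 ^ 28 * δ :=
    mul_le_mul_of_nonneg_right (by norm_num) hδ0
  linarith

include 𝕜 in
/-- Iterate `lin_step` on `f - rs v` (same defect by `dfc_rs`, odd by `rs_neg`, `rs_add`) until the
first term is below `δ`; if `δ = 0` all defects vanish and `l2gap` gives an exact `v`. -/
theorem lin_odd (f : Cube ι → H) (hf : ∀ ε, f (neg ε) = -f ε) :
    ∃ v : ι → H, 𝔼 ε, ‖f ε - rs v ε‖ ≤ linC * dfcAvg f := by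
  have hδ0 : 0 ≤ dfcAvg f := lin_dfcAvg_nonneg f
  rcases hδ0.eq_or_lt with h0 | h0
  · obtain ⟨v, hv⟩ := l2gap (𝕜 := 𝕜) f hf
    obtain ⟨c, hc⟩ := Finite.exists_le
      (fun p : Cube ι × Cube ι × Cube ι => ‖dfc f p.1 p.2.1 p.2.2‖)
    have h1 := lin_sq_le f (c := c) fun s ε ε' => hc (s, ε, ε')
    rw [← h0] at h1 ⊢
    refine ⟨v, le_trans (expect_le_sqrt _) ?_⟩
    rw [mul_zero, Real.sqrt_eq_zero'.mpr (by linarith)]
  · have hind : ∀ n : ℕ, ∃ v : ι → H, 𝔼 ε, ‖f ε - rs v ε‖ ≤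
        (𝔼 ε, ‖f ε‖) * (1 / 2) ^ n + 2 * 10 ^ 28 * dfcAvg f := by
      intro n
      induction n with
      | zero =>
        refine ⟨fun _ => 0, ?_⟩
        have e : ∀ ε, rs (fun _ : ι => (0 : H)) ε = 0 := fun ε => by simp [rs]
        simp only [e, sub_zero, pow_zero, mul_one]
        have : 0 ≤ 2 * 10 ^ 28 * dfcAvg f := by positivity
        linarith
      | succ n ih =>
        obtain ⟨v, hv⟩ := ih
        obtain ⟨v', hv'⟩ := lin_step (𝕜 := 𝕜) (fun ε => f ε - rs v ε)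
          (fun ε => by rw [hf, rs_neg]; abel)
        rw [lin_dfcAvg_rs] at hv'
        refine ⟨fun i => v i + v' i, ?_⟩
        simp only [rs_add, ← sub_sub]
        rw [pow_succ]
        linarith
    have hσ0 : 0 ≤ 𝔼 ε, ‖f ε‖ := Finset.expect_nonneg fun _ _ => norm_nonneg _
    obtain ⟨n, hn⟩ := exists_pow_lt_of_lt_one
      (div_pos h0 (by linarith : 0 < (𝔼 ε, ‖f ε‖) + 1)) (by norm_num : (1 / 2 : ℝ) < 1)
    obtain ⟨v, hv⟩ := hind n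
    refine ⟨v, le_trans hv ?_⟩
    rw [lt_div_iff₀ (by linarith)] at hn
    have h2 : (0 : ℝ) ≤ (1 / 2) ^ n := by positivity
    unfold linC
    nlinarith

end

end Pool.Agent.Lib.MP_e0f470_an
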