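import Pool.Agent.Lib.MP_e0f470_an.LiftK
import Pool.Agent.Lib.MP_e0f470_an.Lin

/-! Linear lifting of Rademacher sums. -/

set_option autoImplicit false

namespace Pool.Agent.Lib.MP_e0f470_an

open Finset
open scoped BigOperators

variable {𝕜 : Type*} [RCLike 𝕜]

/-- The constant of the lifting theorem. -/
noncomputable def liftC (c₀ : ℝ) : ℝ := 1 + 26 * linC + 24 * linC / c₀

lemma lift_map_dfc {ι W W' F : Type*} [AddCommGroup W] [AddCommGroup W'] [FunLike F W W']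
    [AddMonoidHomClass F W W'] (φ : F) (f : Cube ι → W) (s ε ε' : Cube ι) :
    φ (dfc f s ε ε') = dfc (fun ε => φ (f ε)) s ε ε' := by
  simp only [dfc, map_add, map_sub]

lemma lift_dfc_sum {ι W Γ : Type*} [AddCommGroup W] [Fintype Γ] (w : Cube ι → W)
    (f : Γ → Cube ι → W) (s ε ε' : Cube ι) :
    dfc (fun ε => w ε + ∑ α, f α ε) s ε ε' = dfc w s ε ε' + ∑ α, dfc (f α) s ε ε' := by
  simp only [dfc, Finset.sum_sub_distrib, Finset.sum_add_distrib]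
  abel

lemma lift_rs_sum {ι W Γ : Type*} [Fintype ι] [AddCommGroup W] [Fintype Γ] (f : Γ → ι → W)
    (ε : Cube ι) : rs (fun j => ∑ α, f α j) ε = ∑ α, rs (f α) ε := by
  unfold rs
  rw [Finset.sum_comm]
  refine Finset.sum_congr rfl fun i _ => ?_
  cases ε i <;> simp

lemma lift_avg4 {ι : Type*} [Fintype ι] [DecidableEq ι] (τ : Cube ι → ℝ) :
    𝔼 s : Cube ι, 𝔼 ε : Cube ι, 𝔼 ε' : Cube ι,
      (τ ε + τ ε' + (τ (mix s ε ε') + τ (mix s ε' ε))) = 4 * 𝔼 ε, τ ε := by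
  have h2 : 𝔼 ε : Cube ι, 𝔼 ε' : Cube ι, (τ ε + τ ε') = 2 * 𝔼 ε, τ ε := by
    simp only [Finset.expect_add_distrib, Fintype.expect_const]
    ring
  have h : ∀ s : Cube ι, 𝔼 ε : Cube ι, 𝔼 ε' : Cube ι,
      (τ ε + τ ε' + (τ (mix s ε ε') + τ (mix s ε' ε))) = 4 * 𝔼 ε, τ ε := by
    intro s
    have h1 := expect_mix_mix s (fun a b => τ a + τ b)
    have e : 𝔼 ε : Cube ι, 𝔼 ε' : Cube ι, (τ ε + τ ε' + (τ (mix s ε ε') + τ (mix s ε' ε))) =
        𝔼 ε : Cube ι, 𝔼 ε' : Cube ι, (τ ε + τ ε') +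
          𝔼 ε : Cube ι, 𝔼 ε' : Cube ι, (τ (mix s ε ε') + τ (mix s ε' ε)) := by
      rw [← Finset.expect_add_distrib]
      refine Finset.expect_congr rfl fun ε _ => ?_
      rw [← Finset.expect_add_distrib]
    rw [e, h1, h2]
    ring
  simp only [h, Fintype.expect_const]

section
variable {r : ℕ}

/-- `zc` as an additive map. -/
noncomputable def liftZ : (Cube (Fin r) → 𝕜) →+ Eu 𝕜 (Fin r) :=
  AddMonoidHom.mk' zc (fun a b => by
    simp only [zc, Pi.add_apply, add_smul, Finset.sum_add_distrib])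

/-- `hc` as an additive map. -/
noncomputable def liftH (S : Finset (Fin r)) : (Cube (Fin r) → 𝕜) →+ 𝕜 :=
  AddMonoidHom.mk' (fun c => hc c S) (fun a b => by
    simp only [hc, Pi.add_apply, add_mul, Finset.sum_add_distrib])

/-- `synth` as an additive map. -/
noncomputable def liftS : Eu 𝕜 (Fin r) × (Finset (Fin r) → 𝕜) →+ (Cube (Fin r) → 𝕜) :=
  AddMonoidHom.mk' (fun q => synth q.1 q.2) (fun a b => by
    funext ω
    simp only [synth, Pi.add_apply, Prod.fst_add, Prod.snd_add, PiLp.add_apply, add_mul,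
      Finset.sum_add_distrib]
    ring)

/-- Combination of the special vectors as an additive map. -/
noncomputable def liftP {W : Type*} [AddCommGroup W] [Module 𝕜 W] (η : ℝ)
    (A : Eu 𝕜 (Fin r) →ₗ[𝕜] W) (u : Finset (Fin r) → W) : (Cube (Fin r) → 𝕜) →+ W :=
  AddMonoidHom.mk' (fun c => ∑ ω, c ω • spec η A u ω) (fun a b => by
    simp only [Pi.add_apply, add_smul, Finset.sum_add_distrib])

lemma lift_rs_synth {κ : Type*} [Fintype κ] (Z : κ → Eu 𝕜 (Fin r))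
    (Hc : Finset (Fin r) → κ → 𝕜) (ε : Cube κ) :
    rs (fun j => synth (Z j) (fun S => Hc S j)) ε = synth (rs Z ε) (fun S => rs (Hc S) ε) := by
  have h := map_rs (liftS (𝕜 := 𝕜) (r := r)) (fun j => (Z j, fun S => Hc S j)) ε
  have h1 := map_rs (AddMonoidHom.fst (Eu 𝕜 (Fin r)) (Finset (Fin r) → 𝕜))
    (fun j => (Z j, fun S => Hc S j)) ε
  have h2 : (rs (fun j => (Z j, fun S => Hc S j)) ε).2 = fun S => rs (Hc S) ε := by
    funext S
    exact map_rs ((Pi.evalAddMonoidHom (fun _ : Finset (Fin r) => 𝕜) S).comp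
      (AddMonoidHom.snd (Eu 𝕜 (Fin r)) (Finset (Fin r) → 𝕜))) (fun j => (Z j, fun S => Hc S j)) ε
  have h1' : (rs (fun j => (Z j, fun S => Hc S j)) ε).1 = rs Z ε := h1
  have h3 : synth (rs (fun j => (Z j, fun S => Hc S j)) ε).1
      (rs (fun j => (Z j, fun S => Hc S j)) ε).2 =
      rs (fun j => synth (Z j) (fun S => Hc S j)) ε := h
  rw [← h3, h1', h2]

lemma lift_sub_synth (c : Cube (Fin r) → 𝕜) (Z : Eu 𝕜 (Fin r)) (Hc : Finset (Fin r) → 𝕜) :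
    c - synth Z Hc = synth (zc c - Z) (fun S => hc c S - Hc S) := by
  have h := map_sub (liftS (𝕜 := 𝕜) (r := r)) (zc c, hc c) (Z, Hc)
  have h' : synth (zc c - Z) (fun S => hc c S - Hc S) = synth (zc c) (hc c) - synth Z Hc := h
  rw [h', synth_zc_hc]

lemma lift_P_le {W : Type*} [AddCommGroup W] [Module 𝕜 W] (p : Seminorm 𝕜 W) {η : ℝ}
    (hη : 0 ≤ η) (A : Eu 𝕜 (Fin r) →ₗ[𝕜] W) (hA : ∀ a, p (A a) ≤ ‖a‖)
    (u : Finset (Fin r) → W) (hu : ∀ S, p (u S) ≤ 1) (Z : Eu 𝕜 (Fin r))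
    (Hc : Finset (Fin r) → 𝕜) :
    p (liftP η A u (synth Z Hc)) ≤ ‖Z‖ + η * ∑ S ∈ hi r, ‖Hc S‖ := by
  have e : liftP η A u (synth Z Hc) = A Z + ∑ S ∈ hi r, ((η : 𝕜) * Hc S) • u S := by
    have h : liftP η A u (synth Z Hc) = ∑ ω, synth Z Hc ω • spec η A u ω := rfl
    rw [h, sum_smul_spec, zc_synth]
    refine congrArg _ (Finset.sum_congr rfl fun S hS => ?_)
    rw [hc_synth Z Hc hS]
  rw [e]
  refine (map_add_le_add p _ _).trans (add_le_add (hA Z) ?_)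
  refine (Finset.le_sum_of_subadditive p (map_zero p).le (map_add_le_add p) _ _).trans ?_
  rw [Finset.mul_sum]
  refine Finset.sum_le_sum fun S _ => ?_
  rw [map_smul_eq_mul, norm_mul, RCLike.norm_ofReal, abs_of_nonneg hη]
  exact mul_le_of_le_one_right (mul_nonneg hη (norm_nonneg _)) (hu S)

end

/-- The averaged kernel estimate. -/
lemma lift_defect {W : Type*} [AddCommGroup W] [Module 𝕜 W] {r : ℕ} (p : Seminorm 𝕜 W)
    {Γ : Type*} [Fintype Γ] (A : Γ → Eu 𝕜 (Fin r) →ₗ[𝕜] W) (hA : ∀ α a, p (A α a) ≤ ‖a‖)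
    (u : Γ → Finset (Fin r) → W) {c₀ : ℝ} (hc₀ : 0 < c₀)
    (hl : ∀ h : Γ → Finset (Fin r) → 𝕜,
      c₀ * ∑ α, ∑ S, ‖h α S‖ ≤ p (∑ α, ∑ S, h α S • u α S))
    {κ : Type*} [Fintype κ] [DecidableEq κ] (y : κ → W) (w : Cube κ → W)
    (c : Cube κ → Γ → Cube (Fin r) → 𝕜)
    (hrep : ∀ ε, rs y ε = w ε + ∑ α, ∑ ω, c ε α ω • spec (4 / c₀) (A α) (u α) ω) :
    ∑ α, dfcAvg (fun ε => zc (c ε α)) ≤ 20 * 𝔼 ε, (p (w ε) + ∑ α, ∑ ω, ‖c ε α ω‖) ∧
      ∑ α, ∑ S ∈ hi r, dfcAvg (fun ε => hc (c ε α) S) ≤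
        6 * 𝔼 ε, (p (w ε) + ∑ α, ∑ ω, ‖c ε α ω‖) := by
  set τ : Cube κ → ℝ := fun ε => p (w ε) + ∑ α, ∑ ω, ‖c ε α ω‖ with hτ
  have key : ∀ s ε ε' : Cube κ,
      ∑ α, ‖dfc (fun ε => zc (c ε α)) s ε ε'‖ ≤
        5 * (τ ε + τ ε' + (τ (mix s ε ε') + τ (mix s ε' ε))) ∧
      ∑ α, ∑ S ∈ hi r, ‖dfc (fun ε => hc (c ε α) S) s ε ε'‖ ≤
        3 / 2 * (τ ε + τ ε' + (τ (mix s ε ε') + τ (mix s ε' ε))) := by
    intro s ε ε'
    have h0 : dfc w s ε ε' + ∑ α, ∑ ω, dfc (fun ε => c ε α) s ε ε' ω •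
        spec (4 / c₀) (A α) (u α) ω = 0 := by
      have e1 : rs y = fun ε => w ε + ∑ α, liftP (4 / c₀) (A α) (u α) (c ε α) := funext hrep
      have e2 := dfc_rs y s ε ε'
      rw [e1, lift_dfc_sum] at e2
      rw [← e2]
      refine congrArg _ (Finset.sum_congr rfl fun α _ => ?_)
      exact lift_map_dfc (liftP (4 / c₀) (A α) (u α)) (fun ε => c ε α) s ε ε'
    obtain ⟨k1, k2⟩ := kernel_est p A hA u hc₀ hl _ (fun α => dfc (fun ε => c ε α) s ε ε') h0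
    have hD : p (dfc w s ε ε') + ∑ α, ∑ ω, ‖dfc (fun ε => c ε α) s ε ε' ω‖ ≤
        τ ε + τ ε' + (τ (mix s ε ε') + τ (mix s ε' ε)) := by
      have a1 : p (dfc w s ε ε') ≤
          p (w ε) + p (w ε') + (p (w (mix s ε ε')) + p (w (mix s ε' ε))) := by
        have b1 := map_sub_le_add p (w ε + w ε' - w (mix s ε ε')) (w (mix s ε' ε))
        have b2 := map_sub_le_add p (w ε + w ε') (w (mix s ε ε'))
        have b3 := map_add_le_add p (w ε) (w ε')
        unfold dfc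
        linarith
      have a2 : ∑ α, ∑ ω, ‖dfc (fun ε => c ε α) s ε ε' ω‖ ≤
          ∑ α, ∑ ω, (‖c ε α ω‖ + ‖c ε' α ω‖ +
            (‖c (mix s ε ε') α ω‖ + ‖c (mix s ε' ε) α ω‖)) := by
        refine Finset.sum_le_sum fun α _ => Finset.sum_le_sum fun ω _ => ?_
        have b1 := norm_sub_le (c ε α ω + c ε' α ω - c (mix s ε ε') α ω) (c (mix s ε' ε) α ω)
        have b2 := norm_sub_le (c ε α ω + c ε' α ω) (c (mix s ε ε') α ω)
        have b3 := norm_add_le (c ε α ω) (c ε' α ω)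
        have e : dfc (fun ε => c ε α) s ε ε' ω =
            c ε α ω + c ε' α ω - c (mix s ε ε') α ω - c (mix s ε' ε) α ω := rfl
        rw [e]
        linarith
      simp only [Finset.sum_add_distrib] at a2
      simp only [hτ]
      linarith
    have z1 : ∀ α, dfc (fun ε => zc (c ε α)) s ε ε' = zc (dfc (fun ε => c ε α) s ε ε') :=
      fun α => (lift_map_dfc (liftZ (𝕜 := 𝕜) (r := r)) (fun ε => c ε α) s ε ε').symm
    have z2 : ∀ α S, dfc (fun ε => hc (c ε α) S) s ε ε' =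
        hc (dfc (fun ε => c ε α) s ε ε') S :=
      fun α S => (lift_map_dfc (liftH (𝕜 := 𝕜) S) (fun ε => c ε α) s ε ε').symm
    simp only [z1, z2]
    constructor <;> linarith
  have h4 := lift_avg4 τ
  constructor
  · calc ∑ α, dfcAvg (fun ε => zc (c ε α))
        = 𝔼 s : Cube κ, 𝔼 ε : Cube κ, 𝔼 ε' : Cube κ,
            ∑ α, ‖dfc (fun ε => zc (c ε α)) s ε ε'‖ := by
          simp only [dfcAvg, Finset.expect_sum_comm]
      _ ≤ 𝔼 s : Cube κ, 𝔼 ε : Cube κ, 𝔼 ε' : Cube κ,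
            5 * (τ ε + τ ε' + (τ (mix s ε ε') + τ (mix s ε' ε))) :=
          Finset.expect_le_expect fun s _ => Finset.expect_le_expect fun ε _ =>
            Finset.expect_le_expect fun ε' _ => (key s ε ε').1
      _ = 20 * 𝔼 ε, τ ε := by
          simp only [← Finset.mul_expect]
          rw [h4]
          ring
  · calc ∑ α, ∑ S ∈ hi r, dfcAvg (fun ε => hc (c ε α) S)
        = 𝔼 s : Cube κ, 𝔼 ε : Cube κ, 𝔼 ε' : Cube κ,
            ∑ α, ∑ S ∈ hi r, ‖dfc (fun ε => hc (c ε α) S) s ε ε'‖ := by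
          simp only [dfcAvg, Finset.expect_sum_comm]
      _ ≤ 𝔼 s : Cube κ, 𝔼 ε : Cube κ, 𝔼 ε' : Cube κ,
            3 / 2 * (τ ε + τ ε' + (τ (mix s ε ε') + τ (mix s ε' ε))) :=
          Finset.expect_le_expect fun s _ => Finset.expect_le_expect fun ε _ =>
            Finset.expect_le_expect fun ε' _ => (key s ε ε').2
      _ = 6 * 𝔼 ε, τ ε := by
          simp only [← Finset.mul_expect]
          rw [h4]
          ring

/-- The lifting theorem. Let `τ ε = p (w ε) + ∑ ∑ ‖c ε α ω‖`. Taking defects in `hrep` (`dfc_rs`)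
shows that `(dfc w, dfc c)` satisfies the kernel relation at each `(s, ε, ε')`, with size at most
the sum of four values of `τ`, whose average is `4 * 𝔼 τ` (`dfcAvg_le` applied to the real function
`τ`, or `expect_mix_mix`). By `kernel_est`, `∑ α, dfcAvg (zc (c · α)) ≤ 20 𝔼 τ` and
`∑ α S, dfcAvg (hc (c · α) S) ≤ 6 𝔼 τ`. Linearise these odd functions with `lin_odd`
(`H = Eu 𝕜 (Fin r)` and `H = 𝕜`) to get `Z α j`, `Hc α S j`, and put
`e j α = synth (Z α j) (fun S => Hc α S j)`, `x j = y j - ∑ ∑ e j α ω • spec`. Then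
`rs x ε = w ε + ∑ α, (A α (zc - rs Z) + ∑ S ∈ hi r, η (hc - rs Hc) • u)` and
`rs (e · α ω) ε - c ε α ω = synth (rs Z - zc) (rs Hc - hc) ω` (`synth_zc_hc`, linearity). -/
theorem lift {W : Type*} [AddCommGroup W] [Module 𝕜 W] {r : ℕ} (p : Seminorm 𝕜 W) {Γ : Type*}
    [Fintype Γ] (A : Γ → Eu 𝕜 (Fin r) →ₗ[𝕜] W) (hA : ∀ α a, p (A α a) ≤ ‖a‖)
    (u : Γ → Finset (Fin r) → W) (hu : ∀ α S, p (u α S) ≤ 1) {c₀ : ℝ} (hc₀ : 0 < c₀)
    (hl : ∀ h : Γ → Finset (Fin r) → 𝕜,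
      c₀ * ∑ α, ∑ S, ‖h α S‖ ≤ p (∑ α, ∑ S, h α S • u α S))
    {κ : Type*} [Fintype κ] [DecidableEq κ] (y : κ → W) (w : Cube κ → W)
    (c : Cube κ → Γ → Cube (Fin r) → 𝕜) (hc' : ∀ ε α ω, c (neg ε) α ω = -c ε α ω)
    (hrep : ∀ ε, rs y ε = w ε + ∑ α, ∑ ω, c ε α ω • spec (4 / c₀) (A α) (u α) ω) :
    ∃ (x : κ → W) (e : κ → Γ → Cube (Fin r) → 𝕜),
      (∀ j, y j = x j + ∑ α, ∑ ω, e j α ω • spec (4 / c₀) (A α) (u α) ω) ∧
      𝔼 ε, p (rs x ε) ≤ liftC c₀ * 𝔼 ε, (p (w ε) + ∑ α, ∑ ω, ‖c ε α ω‖) ∧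
      ∑ α, ∑ ω, 𝔼 ε, ‖rs (fun j => e j α ω) ε‖ ≤
        liftC c₀ * 𝔼 ε, (p (w ε) + ∑ α, ∑ ω, ‖c ε α ω‖) := by
  obtain ⟨d1, d2⟩ := lift_defect p A hA u hc₀ hl y w c hrep
  set T : ℝ := 𝔼 ε, (p (w ε) + ∑ α, ∑ ω, ‖c ε α ω‖) with hT
  have hodd : ∀ ε α, c (neg ε) α = -c ε α := fun ε α => funext fun ω => hc' ε α ω
  have hZ : ∀ α, ∃ v : κ → Eu 𝕜 (Fin r), 𝔼 ε, ‖zc (c ε α) - rs v ε‖ ≤
      linC * dfcAvg (fun ε => zc (c ε α)) := fun α =>
    lin_odd (𝕜 := 𝕜) (fun ε => zc (c ε α)) (fun ε => by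
      rw [hodd]
      exact map_neg (liftZ (𝕜 := 𝕜) (r := r)) (c ε α))
  have hH : ∀ α S, ∃ v : κ → 𝕜, 𝔼 ε, ‖hc (c ε α) S - rs v ε‖ ≤
      linC * dfcAvg (fun ε => hc (c ε α) S) := fun α S =>
    lin_odd (𝕜 := 𝕜) (fun ε => hc (c ε α) S) (fun ε => by
      rw [hodd]
      exact map_neg (liftH (𝕜 := 𝕜) S) (c ε α))
  choose Z hZ using hZ
  choose Hc hH using hH
  have hC : 0 ≤ linC := by unfold linC; positivity
  have hη : 0 ≤ 4 / c₀ := by positivity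
  have hT0 : 0 ≤ T := Finset.expect_nonneg fun ε _ => by positivity
  set a : Cube κ → Γ → Eu 𝕜 (Fin r) := fun ε α => zc (c ε α) - rs (Z α) ε with ha
  set h : Cube κ → Γ → Finset (Fin r) → 𝕜 := fun ε α S => hc (c ε α) S - rs (Hc α S) ε with hh
  have s1 : 𝔼 ε, ∑ α, ‖a ε α‖ ≤ 20 * linC * T := by
    rw [Finset.expect_sum_comm]
    refine (Finset.sum_le_sum fun α _ => hZ α).trans ?_
    rw [← Finset.mul_sum]
    nlinarith [mul_le_mul_of_nonneg_left d1 hC]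
  have s2 : 𝔼 ε, ∑ α, ∑ S ∈ hi r, ‖h ε α S‖ ≤ 6 * linC * T := by
    simp only [Finset.expect_sum_comm]
    refine (Finset.sum_le_sum fun α _ => Finset.sum_le_sum fun S _ => hH α S).trans ?_
    simp only [← Finset.mul_sum]
    nlinarith [mul_le_mul_of_nonneg_left d2 hC]
  set e : κ → Γ → Cube (Fin r) → 𝕜 := fun j α => synth (Z α j) (fun S => Hc α S j) with he
  have hsub : ∀ ε α, c ε α - rs (fun j => e j α) ε = synth (a ε α) (h ε α) := by
    intro ε α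
    simp only [he]
    rw [lift_rs_synth, lift_sub_synth]
  have w1 : 𝔼 ε, p (w ε) ≤ T :=
    Finset.expect_le_expect fun ε _ => le_add_of_nonneg_right (by positivity)
  have w2 : 𝔼 ε, ∑ α, ∑ ω, ‖c ε α ω‖ ≤ T :=
    Finset.expect_le_expect fun ε _ => le_add_of_nonneg_left (apply_nonneg _ _)
  have hCT : 0 ≤ linC * T := mul_nonneg hC hT0
  have hCT' : 0 ≤ linC / c₀ * T := by positivity
  refine ⟨fun j => y j - ∑ α, liftP (4 / c₀) (A α) (u α) (e j α), e, fun j => ?_, ?_, ?_⟩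
  · exact (sub_add_cancel _ _).symm
  · have hx : ∀ ε, p (rs (fun j => y j - ∑ α, liftP (4 / c₀) (A α) (u α) (e j α)) ε) ≤
        p (w ε) + (∑ α, ‖a ε α‖ + 4 / c₀ * ∑ α, ∑ S ∈ hi r, ‖h ε α S‖) := by
      intro ε
      have e1 : rs (fun j => y j - ∑ α, liftP (4 / c₀) (A α) (u α) (e j α)) ε =
          w ε + ∑ α, liftP (4 / c₀) (A α) (u α) (synth (a ε α) (h ε α)) := by
        have e2 : rs y ε = w ε + ∑ α, liftP (4 / c₀) (A α) (u α) (c ε α) := hrep ε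
        rw [rs_sub, lift_rs_sum (fun α j => liftP (4 / c₀) (A α) (u α) (e j α)), e2,
          add_sub_assoc, ← Finset.sum_sub_distrib]
        refine congrArg _ (Finset.sum_congr rfl fun α _ => ?_)
        rw [← hsub, map_sub, map_rs]
      rw [e1]
      refine (map_add_le_add p _ _).trans (add_le_add le_rfl ?_)
      refine (Finset.le_sum_of_subadditive p (map_zero p).le (map_add_le_add p) _ _).trans ?_
      rw [Finset.mul_sum, ← Finset.sum_add_distrib]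
      exact Finset.sum_le_sum fun α _ => lift_P_le p hη (A α) (hA α) (u α) (hu α) _ _
    refine (Finset.expect_le_expect fun ε _ => hx ε).trans ?_
    rw [Finset.expect_add_distrib, Finset.expect_add_distrib, ← Finset.mul_expect]
    have s3 := mul_le_mul_of_nonneg_left s2 hη
    have e3 : liftC c₀ * T = T + 26 * (linC * T) + 4 / c₀ * (6 * linC * T) := by
      unfold liftC
      ring
    rw [e3]
    linarith
  · have hx : ∀ ε, ∑ α, ∑ ω, ‖rs (fun j => e j α ω) ε‖ ≤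
        ∑ α, ∑ ω, ‖c ε α ω‖ + (∑ α, ‖a ε α‖ + ∑ α, ∑ S ∈ hi r, ‖h ε α S‖) := by
      intro ε
      rw [← Finset.sum_add_distrib, ← Finset.sum_add_distrib]
      refine Finset.sum_le_sum fun α _ => ?_
      refine le_trans ?_ (add_le_add le_rfl (sum_norm_synth_le (a ε α) (h ε α)))
      rw [← Finset.sum_add_distrib]
      refine Finset.sum_le_sum fun ω _ => ?_
      have e1 : rs (fun j => e j α) ε ω = rs (fun j => e j α ω) ε :=
        map_rs (Pi.evalAddMonoidHom (fun _ : Cube (Fin r) => 𝕜) ω) (fun j => e j α) ε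
      have e2 : rs (fun j => e j α ω) ε = c ε α ω - synth (a ε α) (h ε α) ω := by
        rw [← hsub, ← e1, Pi.sub_apply, sub_sub_cancel]
      rw [e2]
      exact norm_sub_le _ _
    have e0 : ∑ α, ∑ ω, 𝔼 ε, ‖rs (fun j => e j α ω) ε‖ =
        𝔼 ε, ∑ α, ∑ ω, ‖rs (fun j => e j α ω) ε‖ := by
      simp only [Finset.expect_sum_comm]
    rw [e0]
    refine (Finset.expect_le_expect fun ε _ => hx ε).trans ?_
    rw [Finset.expect_add_distrib, Finset.expect_add_distrib]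
    have e3 : liftC c₀ * T = T + 26 * (linC * T) + 24 * (linC / c₀ * T) := by
      unfold liftC
      ring
    rw [e3]
    linarith

end Pool.Agent.Lib.MP_e0f470_an
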