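import Pool.Agent.Lib.MP_e0f470_an.Khin

/-! Special vectors and the kernel estimate. -/

set_option autoImplicit false

namespace Pool.Agent.Lib.MP_e0f470_an

open Finset
open scoped BigOperators

variable {𝕜 : Type*} [RCLike 𝕜]

section
variable {W : Type*} [AddCommGroup W] [Module 𝕜 W] {r : ℕ}

/-- The subsets whose cardinality is not one. -/
def hi (r : ℕ) : Finset (Finset (Fin r)) := Finset.univ.filter fun S => S.card ≠ 1

/-- The special vector attached to `A`, `u` and the sign pattern `ω`. -/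
noncomputable def spec (η : ℝ) (A : Eu 𝕜 (Fin r) →ₗ[𝕜] W) (u : Finset (Fin r) → W)
    (ω : Cube (Fin r)) : W :=
  A (rs (fun k => ev 𝕜 k) ω) + ∑ S ∈ hi r, ((η * chi S ω : ℝ) : 𝕜) • u S

/-- The Rademacher coefficients of a function on the cube. -/
noncomputable def zc (c : Cube (Fin r) → 𝕜) : Eu 𝕜 (Fin r) :=
  ∑ ω, c ω • rs (fun k => ev 𝕜 k) ω

/-- The Walsh coefficients of a function on the cube. -/
noncomputable def hc (c : Cube (Fin r) → 𝕜) (S : Finset (Fin r)) : 𝕜 :=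
  ∑ ω, c ω * ((chi S ω : ℝ) : 𝕜)

/-- The function with prescribed coefficients. -/
noncomputable def synth (Z : Eu 𝕜 (Fin r)) (Hc : Finset (Fin r) → 𝕜) (ω : Cube (Fin r)) : 𝕜 :=
  ((2 : 𝕜) ^ r)⁻¹ * (∑ k, Z k * ((sg (ω k) : ℝ) : 𝕜) + ∑ S ∈ hi r, Hc S * ((chi S ω : ℝ) : 𝕜))

lemma liftk_card : (Fintype.card (Cube (Fin r)) : ℝ) = 2 ^ r := by simp

lemma liftk_sum_eq (f : Cube (Fin r) → ℝ) : ∑ ω, f ω = 2 ^ r * 𝔼 ω, f ω := by
  rw [Finset.expect_eq_sum_div_card, Finset.card_univ, liftk_card]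
  field_simp

lemma liftk_orth (S T : Finset (Fin r)) :
    ∑ ω : Cube (Fin r), ((chi S ω : ℝ) : 𝕜) * ((chi T ω : ℝ) : 𝕜) =
      if S = T then (2 : 𝕜) ^ r else 0 := by
  have h := liftk_sum_eq (fun ω : Cube (Fin r) => chi S ω * chi T ω)
  rw [expect_chi_mul] at h
  have h2 := congrArg (fun t : ℝ => (t : 𝕜)) h
  simp only [RCLike.ofReal_sum, RCLike.ofReal_mul] at h2
  rw [h2]
  split_ifs
  · push_cast; ring
  · simp

lemma liftk_single (k : Fin r) (ω : Cube (Fin r)) : chi {k} ω = sg (ω k) := by simp [chi]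

lemma liftk_rs_apply (ω : Cube (Fin r)) (k : Fin r) :
    rs (fun j => ev 𝕜 j) ω k = ((sg (ω k) : ℝ) : 𝕜) := by
  rw [rs_eq_smul (𝕜 := 𝕜)]
  simp [ev_apply, RCLike.real_smul_eq_coe_mul]

lemma liftk_split {M : Type*} [AddCommMonoid M] (f : Finset (Fin r) → M) :
    ∑ S, f S = ∑ k, f {k} + ∑ S ∈ hi r, f S := by
  rw [← Finset.sum_filter_add_sum_filter_not Finset.univ (fun S : Finset (Fin r) => S.card = 1)]
  congr 1
  have : Finset.univ.filter (fun S : Finset (Fin r) => S.card = 1) =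
      Finset.univ.image (fun k : Fin r => ({k} : Finset (Fin r))) := by
    ext S
    simp only [mem_filter, mem_univ, true_and, mem_image, Finset.card_eq_one]
    exact ⟨fun ⟨a, h⟩ => ⟨a, h.symm⟩, fun ⟨a, h⟩ => ⟨a, h.symm⟩⟩
  rw [this, Finset.sum_image (fun a _ b _ h => Finset.singleton_injective h)]

lemma liftk_norm_rs (ω : Cube (Fin r)) : ‖rs (fun j => ev 𝕜 j) ω‖ = √r := by
  rw [EuclideanSpace.norm_eq]
  congr 1
  simp [liftk_rs_apply, abs_sg]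

lemma liftk_ne (k : Fin r) {S : Finset (Fin r)} (hS : S ∈ hi r) : S ≠ {k} := by
  rintro rfl
  simp [hi] at hS

lemma liftk_hc_synth (Z : Eu 𝕜 (Fin r)) (Hc : Finset (Fin r) → 𝕜) (T : Finset (Fin r)) :
    hc (synth Z Hc) T = ∑ k, (if {k} = T then Z k else 0) +
      ∑ S ∈ hi r, (if S = T then Hc S else 0) := by
  have h2 : (2 : 𝕜) ^ r ≠ 0 := pow_ne_zero _ two_ne_zero
  unfold hc synth
  have e : ∀ ω : Cube (Fin r), ((2 : 𝕜) ^ r)⁻¹ * (∑ k, Z k * ((sg (ω k) : ℝ) : 𝕜) +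
      ∑ S ∈ hi r, Hc S * ((chi S ω : ℝ) : 𝕜)) * ((chi T ω : ℝ) : 𝕜) =
      ∑ k, ((2 : 𝕜) ^ r)⁻¹ * Z k * (((chi {k} ω : ℝ) : 𝕜) * ((chi T ω : ℝ) : 𝕜)) +
      ∑ S ∈ hi r, ((2 : 𝕜) ^ r)⁻¹ * Hc S * (((chi S ω : ℝ) : 𝕜) * ((chi T ω : ℝ) : 𝕜)) := by
    intro ω
    rw [mul_add, add_mul, Finset.mul_sum, Finset.mul_sum, Finset.sum_mul, Finset.sum_mul]
    congr 1
    · exact Finset.sum_congr rfl fun k _ => by rw [liftk_single]; ring
    · exact Finset.sum_congr rfl fun S _ => by ring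
  rw [Finset.sum_congr rfl fun ω _ => e ω, Finset.sum_add_distrib, Finset.sum_comm,
    Finset.sum_comm (s := Finset.univ) (t := hi r)]
  congr 1
  · refine Finset.sum_congr rfl fun k _ => ?_
    rw [← Finset.mul_sum, liftk_orth]
    split_ifs
    · field_simp
    · simp
  · refine Finset.sum_congr rfl fun S _ => ?_
    rw [← Finset.mul_sum, liftk_orth]
    split_ifs
    · field_simp
    · simp

lemma liftk_norm_chi (S : Finset (Fin r)) (ω : Cube (Fin r)) : ‖((chi S ω : ℝ) : 𝕜)‖ = 1 := by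
  rw [RCLike.norm_ofReal, abs_chi]

lemma liftk_rs_scalar (Z : Eu 𝕜 (Fin r)) (ω : Cube (Fin r)) :
    rs (fun k => Z k) ω = ∑ k, Z k * ((sg (ω k) : ℝ) : 𝕜) := by
  rw [rs_eq_smul (𝕜 := 𝕜)]
  exact Finset.sum_congr rfl fun k _ => by rw [smul_eq_mul, mul_comm]

lemma liftk_hi_le (Hc : Finset (Fin r) → 𝕜) (ω : Cube (Fin r)) :
    ‖∑ S ∈ hi r, Hc S * ((chi S ω : ℝ) : 𝕜)‖ ≤ ∑ S ∈ hi r, ‖Hc S‖ := by
  refine (norm_sum_le _ _).trans (le_of_eq (Finset.sum_congr rfl fun S _ => ?_))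
  rw [norm_mul, liftk_norm_chi, mul_one]

lemma liftk_p_sum {κ : Type*} (p : Seminorm 𝕜 W) (s : Finset κ) (f : κ → W) :
    p (∑ i ∈ s, f i) ≤ ∑ i ∈ s, p (f i) :=
  Finset.le_sum_of_subadditive p (map_zero p).le (map_add_le_add p) s f

lemma sum_smul_spec (η : ℝ) (A : Eu 𝕜 (Fin r) →ₗ[𝕜] W) (u : Finset (Fin r) → W)
    (c : Cube (Fin r) → 𝕜) :
    ∑ ω, c ω • spec η A u ω = A (zc c) + ∑ S ∈ hi r, ((η : 𝕜) * hc c S) • u S := by
  unfold spec zc hc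
  simp only [smul_add, Finset.sum_add_distrib, map_sum, map_smul]
  congr 1
  simp only [Finset.smul_sum]
  rw [Finset.sum_comm]
  refine Finset.sum_congr rfl fun S _ => ?_
  rw [Finset.mul_sum, Finset.sum_smul]
  refine Finset.sum_congr rfl fun ω _ => ?_
  rw [smul_smul]
  congr 1
  push_cast
  ring

lemma zc_apply (c : Cube (Fin r) → 𝕜) (k : Fin r) : zc c k = hc c {k} := by
  unfold zc hc
  simp [liftk_rs_apply, liftk_single]

/-- Orthogonality (`expect_chi_mul`, `chi {k} ω = sg (ω k)`). -/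
lemma zc_synth (Z : Eu 𝕜 (Fin r)) (Hc : Finset (Fin r) → 𝕜) : zc (synth Z Hc) = Z := by
  ext k
  rw [zc_apply, liftk_hc_synth, Finset.sum_eq_zero (s := hi r)
    (fun S hS => if_neg (liftk_ne k hS))]
  simp

lemma hc_synth (Z : Eu 𝕜 (Fin r)) (Hc : Finset (Fin r) → 𝕜) {S : Finset (Fin r)} (hS : S ∈ hi r) :
    hc (synth Z Hc) S = Hc S := by
  rw [liftk_hc_synth, Finset.sum_eq_zero (s := Finset.univ)
    (fun k _ => if_neg (liftk_ne k hS).symm)]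
  simp [hS]

/-- Fourier inversion (`sum_chi_mul`; the sets of cardinality one are the singletons). -/
lemma synth_zc_hc (c : Cube (Fin r) → 𝕜) : synth (zc c) (hc c) = c := by
  funext ω
  have h2 : (2 : 𝕜) ^ r ≠ 0 := pow_ne_zero _ two_ne_zero
  unfold synth
  have e := liftk_split (fun S => hc c S * ((chi S ω : ℝ) : 𝕜))
  simp only [liftk_single, ← zc_apply] at e
  rw [← e]
  unfold hc
  simp only [Finset.sum_mul]
  rw [Finset.sum_comm]
  have e2 : ∀ ω' : Cube (Fin r), ∑ S : Finset (Fin r), c ω' * ((chi S ω' : ℝ) : 𝕜) *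
      ((chi S ω : ℝ) : 𝕜) = if ω' = ω then c ω' * 2 ^ r else 0 := by
    intro ω'
    have h3 := congrArg (fun t : ℝ => (t : 𝕜)) (sum_chi_mul ω' ω)
    simp only [RCLike.ofReal_sum, RCLike.ofReal_mul] at h3
    simp only [mul_assoc]
    rw [← Finset.mul_sum, h3, Fintype.card_fin]
    split_ifs
    · push_cast; ring
    · simp
  rw [Finset.sum_congr rfl fun ω' _ => e2 ω']
  simp only [Finset.sum_ite_eq', Finset.mem_univ, if_true]
  field_simp

/-- Upper bound (`khin_le` with `H = 𝕜`, `abs_chi`). -/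
lemma sum_norm_synth_le (Z : Eu 𝕜 (Fin r)) (Hc : Finset (Fin r) → 𝕜) :
    ∑ ω, ‖synth Z Hc ω‖ ≤ ‖Z‖ + ∑ S ∈ hi r, ‖Hc S‖ := by
  have h1 : ∀ ω, ‖synth Z Hc ω‖ ≤
      ((2 : ℝ) ^ r)⁻¹ * (‖rs (fun k => Z k) ω‖ + ∑ S ∈ hi r, ‖Hc S‖) := by
    intro ω
    unfold synth
    rw [norm_mul, norm_inv, norm_pow, RCLike.norm_two, liftk_rs_scalar]
    exact mul_le_mul_of_nonneg_left ((norm_add_le _ _).trans
      (add_le_add le_rfl (liftk_hi_le Hc ω))) (by positivity)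
  refine (Finset.sum_le_sum fun ω _ => h1 ω).trans ?_
  rw [← Finset.mul_sum, Finset.sum_add_distrib, liftk_sum_eq, Finset.sum_const, Finset.card_univ,
    nsmul_eq_mul, liftk_card, ← mul_add, ← mul_assoc, inv_mul_cancel₀ (by positivity), one_mul]
  have h2 := khin_le (𝕜 := 𝕜) (fun k => Z k)
  rw [← EuclideanSpace.norm_eq] at h2
  linarith

/-- Lower bound (`khin1` with `H = 𝕜` and `synth_zc_hc`). -/
lemma norm_zc_le (c : Cube (Fin r) → 𝕜) :
    ‖zc c‖ ≤ 2 * ∑ ω, ‖c ω‖ + 2 * ∑ S ∈ hi r, ‖hc c S‖ := by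
  have h2 : (2 : 𝕜) ^ r ≠ 0 := pow_ne_zero _ two_ne_zero
  have h1 : ∀ ω, ‖rs (fun k => zc c k) ω‖ ≤ 2 ^ r * ‖c ω‖ + ∑ S ∈ hi r, ‖hc c S‖ := by
    intro ω
    have e := congrFun (synth_zc_hc c) ω
    unfold synth at e
    have e2 : rs (fun k => zc c k) ω =
        2 ^ r * c ω - ∑ S ∈ hi r, hc c S * ((chi S ω : ℝ) : 𝕜) := by
      rw [liftk_rs_scalar, ← e, ← mul_assoc, mul_inv_cancel₀ h2, one_mul, add_sub_cancel_right]
    rw [e2]
    refine (norm_sub_le _ _).trans (add_le_add (le_of_eq ?_) (liftk_hi_le _ ω))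
    rw [norm_mul, norm_pow, RCLike.norm_two]
  have h3 := khin1 (𝕜 := 𝕜) (fun k => zc c k)
  rw [← EuclideanSpace.norm_eq] at h3
  have h4 := Finset.sum_le_sum fun ω (_ : ω ∈ Finset.univ) => h1 ω
  rw [liftk_sum_eq, Finset.sum_add_distrib, ← Finset.mul_sum, Finset.sum_const, Finset.card_univ,
    nsmul_eq_mul, liftk_card, ← mul_add] at h4
  have h5 := le_of_mul_le_mul_left h4 (by positivity)
  linarith

/-- Special vectors are bounded. -/
lemma spec_le (p : Seminorm 𝕜 W) {η : ℝ} (hη : 0 ≤ η) (A : Eu 𝕜 (Fin r) →ₗ[𝕜] W)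
    (hA : ∀ a, p (A a) ≤ ‖a‖) (u : Finset (Fin r) → W) (hu : ∀ S, p (u S) ≤ 1) (ω : Cube (Fin r)) :
    p (spec η A u ω) ≤ √r + η * 2 ^ r := by
  unfold spec
  refine (map_add_le_add p _ _).trans (add_le_add ((hA _).trans (liftk_norm_rs ω).le) ?_)
  refine (liftk_p_sum p _ _).trans ?_
  have h1 : ∀ S ∈ hi r, p (((η * chi S ω : ℝ) : 𝕜) • u S) ≤ η := by
    intro S _
    rw [map_smul_eq_mul, RCLike.norm_ofReal, abs_mul, abs_chi, mul_one, abs_of_nonneg hη]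
    exact mul_le_of_le_one_right hη (hu S)
  refine (Finset.sum_le_card_nsmul _ _ _ h1).trans ?_
  rw [nsmul_eq_mul, mul_comm]
  refine mul_le_mul_of_nonneg_left ?_ hη
  have h2 : (hi r).card ≤ 2 ^ r := (Finset.card_le_univ _).trans (by simp)
  exact_mod_cast h2

/-- An operator that is bounded on the special vectors has small trace on `A`:
`2 ^ r * tr (B A) = ∑ ω, ⟪rs ev ω, B (spec ω)⟫` (`sum_inner_rs`, `expect_chi_mul`), and
`‖rs ev ω‖ = √r`. -/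
lemma tr_le_of_spec (η : ℝ) (A : Eu 𝕜 (Fin r) →ₗ[𝕜] W) (u : Finset (Fin r) → W)
    (B : W →ₗ[𝕜] Eu 𝕜 (Fin r)) (hB : ∀ ω, ‖B (spec η A u ω)‖ ≤ 1) : ‖tr (B ∘ₗ A)‖ ≤ √r := by
  have h1 : ∑ ω, inner 𝕜 (rs (fun k => ev 𝕜 k) ω) (B (spec η A u ω)) =
      (2 : 𝕜) ^ r * tr (B ∘ₗ A) := by
    unfold spec
    simp only [map_add, inner_add_right, Finset.sum_add_distrib]
    have e1 : ∑ ω, inner 𝕜 (rs (fun k => ev 𝕜 k) ω) (B (A (rs (fun k => ev 𝕜 k) ω))) =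
        (2 : 𝕜) ^ r * tr (B ∘ₗ A) := by
      have e := sum_inner_rs (𝕜 := 𝕜) (fun k : Fin r => ev 𝕜 k) (fun k => (B ∘ₗ A) (ev 𝕜 k))
      simp only [← map_rs (B ∘ₗ A), inner_ev, Fintype.card_fin] at e
      rw [tr_eq_sum, ← e]
      rfl
    have e2 : ∑ ω, inner 𝕜 (rs (fun k => ev 𝕜 k) ω)
        (B (∑ S ∈ hi r, ((η * chi S ω : ℝ) : 𝕜) • u S)) = 0 := by
      have e3 : ∀ ω : Cube (Fin r), inner 𝕜 (rs (fun k => ev 𝕜 k) ω)
          (B (∑ S ∈ hi r, ((η * chi S ω : ℝ) : 𝕜) • u S)) =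
          ∑ S ∈ hi r, ∑ k, (η : 𝕜) * B (u S) k *
            (((chi S ω : ℝ) : 𝕜) * ((chi {k} ω : ℝ) : 𝕜)) := by
        intro ω
        rw [map_sum, inner_sum]
        refine Finset.sum_congr rfl fun S _ => ?_
        rw [map_smul, inner_smul_right, rs_eq_smul (𝕜 := 𝕜), sum_inner, Finset.mul_sum]
        refine Finset.sum_congr rfl fun k _ => ?_
        rw [inner_smul_left, inner_ev, RCLike.conj_ofReal, liftk_single]
        push_cast
        ring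
      rw [Finset.sum_congr rfl fun ω _ => e3 ω, Finset.sum_comm]
      refine Finset.sum_eq_zero fun S hS => ?_
      rw [Finset.sum_comm]
      refine Finset.sum_eq_zero fun k _ => ?_
      rw [← Finset.mul_sum, liftk_orth, if_neg (liftk_ne k hS), mul_zero]
    rw [e1, e2, add_zero]
  have h2 : ∀ ω, ‖inner 𝕜 (rs (fun k => ev 𝕜 k) ω) (B (spec η A u ω))‖ ≤ √r := by
    intro ω
    refine (norm_inner_le_norm _ _).trans ?_
    rw [liftk_norm_rs]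
    exact mul_le_of_le_one_right (Real.sqrt_nonneg _) (hB ω)
  have h3 := (norm_sum_le _ _).trans
    (Finset.sum_le_card_nsmul Finset.univ _ _ fun ω _ => h2 ω)
  rw [h1, norm_mul, norm_pow, RCLike.norm_two, Finset.card_univ, nsmul_eq_mul, liftk_card] at h3
  exact le_of_mul_le_mul_left h3 (by positivity)

/-- The kernel estimate. With `a = ∑ ‖zc (c α)‖`, `h = ∑ ∑ ‖hc (c α) S‖`: the relation and
`sum_smul_spec` give `c₀ * (4 / c₀) * h ≤ p w + a` (apply `hl` to the coefficients extended by zero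
outside `hi r`), and `norm_zc_le` gives `a ≤ 2 τ + 2 h`. -/
theorem kernel_est (p : Seminorm 𝕜 W) {Γ : Type*} [Fintype Γ] (A : Γ → Eu 𝕜 (Fin r) →ₗ[𝕜] W)
    (hA : ∀ α a, p (A α a) ≤ ‖a‖) (u : Γ → Finset (Fin r) → W) {c₀ : ℝ} (hc₀ : 0 < c₀)
    (hl : ∀ h : Γ → Finset (Fin r) → 𝕜,
      c₀ * ∑ α, ∑ S, ‖h α S‖ ≤ p (∑ α, ∑ S, h α S • u α S))
    (w : W) (c : Γ → Cube (Fin r) → 𝕜)
    (h0 : w + ∑ α, ∑ ω, c α ω • spec (4 / c₀) (A α) (u α) ω = 0) :
    ∑ α, ‖zc (c α)‖ ≤ 5 * (p w + ∑ α, ∑ ω, ‖c α ω‖) ∧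
      ∑ α, ∑ S ∈ hi r, ‖hc (c α) S‖ ≤ 3 / 2 * (p w + ∑ α, ∑ ω, ‖c α ω‖) := by
  simp only [sum_smul_spec, Finset.sum_add_distrib] at h0
  have h1 := hl (fun α S => if S ∈ hi r then ((4 / c₀ : ℝ) : 𝕜) * hc (c α) S else 0)
  have e1 : ∀ α, ∑ S, ‖(if S ∈ hi r then ((4 / c₀ : ℝ) : 𝕜) * hc (c α) S else 0)‖ =
      4 / c₀ * ∑ S ∈ hi r, ‖hc (c α) S‖ := by
    intro α
    rw [Finset.mul_sum, ← Finset.sum_ite_mem_eq (hi r)]
    refine Finset.sum_congr rfl fun S _ => ?_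
    split_ifs
    · rw [norm_mul, RCLike.norm_ofReal, abs_of_nonneg (by positivity)]
    · exact norm_zero
  have e2 : ∀ α, ∑ S, (if S ∈ hi r then ((4 / c₀ : ℝ) : 𝕜) * hc (c α) S else 0) • u α S =
      ∑ S ∈ hi r, (((4 / c₀ : ℝ) : 𝕜) * hc (c α) S) • u α S := by
    intro α
    rw [← Finset.sum_ite_mem_eq (hi r)]
    refine Finset.sum_congr rfl fun S _ => ?_
    split_ifs
    · rfl
    · exact zero_smul _ _
  simp only [e1, e2] at h1
  have e3 : ∑ α, ∑ S ∈ hi r, (((4 / c₀ : ℝ) : 𝕜) * hc (c α) S) • u α S =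
      -(w + ∑ α, A α (zc (c α))) := by
    rw [eq_neg_iff_add_eq_zero, add_comm, add_assoc]
    exact h0
  rw [e3, map_neg_eq_map, ← Finset.mul_sum, ← mul_assoc, mul_div_cancel₀ _ hc₀.ne'] at h1
  have h2 : p (w + ∑ α, A α (zc (c α))) ≤ p w + ∑ α, ‖zc (c α)‖ :=
    (map_add_le_add p _ _).trans (add_le_add le_rfl
      ((liftk_p_sum p _ _).trans (Finset.sum_le_sum fun α _ => hA α _)))
  have h3 := Finset.sum_le_sum fun α (_ : α ∈ Finset.univ) => norm_zc_le (c α)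
  rw [Finset.sum_add_distrib, ← Finset.mul_sum, ← Finset.mul_sum] at h3
  have h4 : 0 ≤ p w := apply_nonneg _ _
  have h5 : 0 ≤ ∑ α, ∑ ω, ‖c α ω‖ := by positivity
  constructor <;> linarith

end

end Pool.Agent.Lib.MP_e0f470_an
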