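import Pool.Agent.Lib.MP_e0f470_an.LpN
import Pool.Agent.Lib.MP_e0f470_an.Khin
import Pool.Agent.Lib.MP_e0f470_an.SmallB

/-! Sums of spaces without complemented Euclidean subspaces. -/

set_option autoImplicit false

namespace Pool.Agent.Lib.MP_e0f470_an

open Finset Filter Topology
open scoped BigOperators ENNReal

variable {𝕜 : Type*} [RCLike 𝕜]

section
variable {L r : ℕ}

variable (𝕜 L r) in
/-- The `j`-th Euclidean component. -/
noncomputable def cmp (j : Fin L) : Eu 𝕜 (Fin L × Fin r) →ₗ[𝕜] Eu 𝕜 (Fin r) where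
  toFun g := WithLp.toLp 2 fun l => g (j, l)
  map_add' g g' := by ext l; simp
  map_smul' c g := by ext l; simp

variable (𝕜 L r) in
/-- The inclusion of the `j`-th Euclidean component. -/
noncomputable def inc (j : Fin L) : Eu 𝕜 (Fin r) →ₗ[𝕜] Eu 𝕜 (Fin L × Fin r) where
  toFun v := WithLp.toLp 2 fun jl => if jl.1 = j then v jl.2 else 0
  map_add' v v' := by ext jl; by_cases h : jl.1 = j <;> simp [h]
  map_smul' c v := by ext jl; by_cases h : jl.1 = j <;> simp [h]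

variable (𝕜 L r) in
/-- The norm of `ℓ¹_L (ℓ²_r)`. -/
noncomputable def l1l2 : Seminorm 𝕜 (Eu 𝕜 (Fin L × Fin r)) :=
  ∑ j, (normSeminorm 𝕜 (Eu 𝕜 (Fin r))).comp (cmp 𝕜 L r j)

lemma lpabs_sum_apply {W ι : Type*} [AddCommGroup W] [Module 𝕜 W] (F : Finset ι)
    (f : ι → Seminorm 𝕜 W) (x : W) : (∑ j ∈ F, f j) x = ∑ j ∈ F, f j x := by
  classical
  induction F using Finset.induction_on with
  | empty => simp
  | insert a F ha ih => rw [Finset.sum_insert ha, Finset.sum_insert ha, add_apply, ih]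

lemma l1l2_apply (g : Eu 𝕜 (Fin L × Fin r)) : l1l2 𝕜 L r g = ∑ j, ‖cmp 𝕜 L r j g‖ := by
  unfold l1l2
  rw [lpabs_sum_apply]
  rfl

lemma lpabs_cmp_apply (j : Fin L) (g : Eu 𝕜 (Fin L × Fin r)) (l : Fin r) :
    cmp 𝕜 L r j g l = g (j, l) := rfl

lemma lpabs_inc_apply (j : Fin L) (v : Eu 𝕜 (Fin r)) (jl : Fin L × Fin r) :
    inc 𝕜 L r j v jl = if jl.1 = j then v jl.2 else 0 := rfl

lemma lpabs_norm_sq (g : Eu 𝕜 (Fin L × Fin r)) : ‖g‖ ^ 2 = ∑ j, ‖cmp 𝕜 L r j g‖ ^ 2 := by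
  rw [EuclideanSpace.norm_sq_eq, Fintype.sum_prod_type]
  refine Finset.sum_congr rfl fun j _ => ?_
  rw [EuclideanSpace.norm_sq_eq]
  rfl

lemma equi_l1l2 : Equi (l1l2 𝕜 L r) := by
  refine ⟨1, L + 1, one_pos, by positivity, fun g => ?_⟩
  rw [l1l2_apply, one_mul]
  constructor
  · refine abs_le_of_sq_le_sq'  ?_ (Finset.sum_nonneg fun j _ => norm_nonneg _) |>.2
    rw [lpabs_norm_sq]
    exact Finset.sum_sq_le_sq_sum_of_nonneg fun j _ => norm_nonneg _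
  · have h : ∀ j, ‖cmp 𝕜 L r j g‖ ≤ ‖g‖ := fun j => by
      refine (abs_le_of_sq_le_sq' ?_ (norm_nonneg _)).2
      rw [lpabs_norm_sq g]
      exact Finset.single_le_sum (f := fun j => ‖cmp 𝕜 L r j g‖ ^ 2) (fun j _ => by positivity)
        (Finset.mem_univ j)
    refine (Finset.sum_le_sum fun j _ => h j).trans ?_
    simp only [Finset.sum_const, Finset.card_univ, Fintype.card_fin, nsmul_eq_mul]
    nlinarith [norm_nonneg g]

lemma cmp_inc (j j' : Fin L) (v : Eu 𝕜 (Fin r)) :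
    cmp 𝕜 L r j' (inc 𝕜 L r j v) = if j' = j then v else 0 := by
  ext l
  rw [lpabs_cmp_apply, lpabs_inc_apply]
  split_ifs <;> simp

lemma l1l2_inc (j : Fin L) (v : Eu 𝕜 (Fin r)) : l1l2 𝕜 L r (inc 𝕜 L r j v) = ‖v‖ := by
  rw [l1l2_apply, Finset.sum_eq_single j]
  · rw [cmp_inc, if_pos rfl]
  · intro j' _ hj
    rw [cmp_inc, if_neg hj, norm_zero]
  · simp

end

variable {p : ℝ≥0∞} [Fact (1 ≤ p)] {E : Type*} [AddCommGroup E] [Module 𝕜 E]

/-- The seminorm `q` is the `ℓ^p` sum of the seminorms `s k` along the maps `R k`. -/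
structure IsSum (p : ℝ≥0∞) [Fact (1 ≤ p)] (q : Seminorm 𝕜 E) (s : ℕ → Seminorm 𝕜 E)
    (R : ℕ → E →ₗ[𝕜] E) : Prop where
  lower : ∀ n x, lpn p n (fun k => s k x) ≤ q x
  upper : ∀ n (y : ℕ → E), q (∑ k ∈ range n, R k (y k)) ≤ lpn p n fun k => s k (y k)
  single : ∀ k x, q (R k x) ≤ s k x
  lim : ∀ x, Tendsto (fun n => q (x - ∑ k ∈ range n, R k x)) atTop (𝓝 0)

/-- The key estimate. For each `(j, k)` let `θ j k` be a unimodular scalar making
`θ * ⟪net (ζ k j), cmp j (b (R k (y j k)))⟫` equal to its norm. For `z` and signs `ε` put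
`Y = ∑ k < n, R k (∑ j, if Only (ζ k) z j then (ℓ j k * sg (ε j) * θ j k) • y j k else 0)`.
Then `q Y ≤ lpn p n (t z)` (`upper`, `lpn_le_of_le`), and
`K * q Y ≥ ∑ j, ‖cmp j (b Y)‖ ≥ ∑ j, sg (ε j) * re ⟪net (z j), cmp j (b Y)⟫`. Average over `ε`
(`expect_sg_mul`): the right side becomes `∑ j k, if Only … then ℓ j k * β j k else 0` at least.
Average over `z` with `expect_only_ge` and `expect_lpn_sel_le`. -/
lemma sum_mul_le_of_isSum {q : Seminorm 𝕜 E} {s : ℕ → Seminorm 𝕜 E} {R : ℕ → E →ₗ[𝕜] E}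
    (h : IsSum p q s R) {L r : ℕ} (hL : 0 < L) (net : Fin (2 * L) → Eu 𝕜 (Fin r))
    (hnet : ∀ i, ‖net i‖ ≤ 1) (b : E →ₗ[𝕜] Eu 𝕜 (Fin L × Fin r)) {K : ℝ} (hK : 0 ≤ K)
    (hb : ∀ x, l1l2 𝕜 L r (b x) ≤ K * q x) (n : ℕ) (y : Fin L → ℕ → E) (hy : ∀ j k, s k (y j k) ≤ 1)
    (ζ : ℕ → Fin L → Fin (2 * L)) (β ℓ : Fin L → ℕ → ℝ) (hℓ : ∀ j k, 0 ≤ ℓ j k)
    (hβ0 : ∀ j k, 0 ≤ β j k)
    (hβ : ∀ j k, β j k ≤ ‖inner 𝕜 (net (ζ k j)) (cmp 𝕜 L r j (b (R k (y j k))))‖) {ρ : ℝ}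
    (hρ0 : 0 ≤ ρ) (hρ : ∀ j, lpn p n (ℓ j) ≤ ρ) :
    ∑ j, ∑ k ∈ range n, ℓ j k * β j k ≤ 8 * L * K * ρ := by
  choose θ hθ1 hθ using fun (j : Fin L) (k : ℕ) => RCLike.exists_norm_eq_mul_self
    (inner 𝕜 (net (ζ k j)) (cmp 𝕜 L r j (b (R k (y j k)))))
  have key : ∀ z : Fin L → Fin (2 * L),
      ∑ j, ∑ k ∈ range n, (if Only (ζ k) z j then ℓ j k * β j k else 0) ≤
        K * lpn p n fun k => ∑ j, if Only (ζ k) z j then ℓ j k else 0 := by
    intro z
    set G : Fin L → Fin L → ℝ := fun j j' => ∑ k ∈ range n, if Only (ζ k) z j' then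
      ℓ j' k * RCLike.re (θ j' k * inner 𝕜 (net (z j)) (cmp 𝕜 L r j (b (R k (y j' k))))) else 0
      with hG
    have h1 : ∀ ε : Cube (Fin L), ∑ j, ∑ j', sg (ε j) * sg (ε j') * G j j' ≤
        K * lpn p n fun k => ∑ j, if Only (ζ k) z j then ℓ j k else 0 := by
      intro ε
      set W : ℕ → E := fun k => ∑ j, if Only (ζ k) z j then
        (((ℓ j k * sg (ε j) : ℝ) : 𝕜) * θ j k) • y j k else 0 with hW
      have a1 : ∀ k, s k (W k) ≤ ∑ j, if Only (ζ k) z j then ℓ j k else 0 := by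
        intro k
        refine (Finset.le_sum_of_subadditive (s k) (map_zero _).le (map_add_le_add _) _ _).trans ?_
        refine Finset.sum_le_sum fun j _ => ?_
        split_ifs
        · rw [map_smul_eq_mul, norm_mul, hθ1, RCLike.norm_ofReal, abs_mul, abs_sg,
            abs_of_nonneg (hℓ j k), mul_one, mul_one]
          exact mul_le_of_le_one_right (hℓ j k) (hy j k)
        · simp
      have a2 : q (∑ k ∈ range n, R k (W k)) ≤
          lpn p n fun k => ∑ j, if Only (ζ k) z j then ℓ j k else 0 := by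
        refine (h.upper n W).trans (lpn_le_of_le fun k hk => ?_)
        rw [if_pos hk, abs_of_nonneg (apply_nonneg _ _)]
        exact (a1 k).trans (le_abs_self _)
      refine le_trans ?_ ((hb _).trans (mul_le_mul_of_nonneg_left a2 hK))
      rw [l1l2_apply]
      refine Finset.sum_le_sum fun j _ => ?_
      have a3 : ∑ j', sg (ε j) * sg (ε j') * G j j' = sg (ε j) * RCLike.re
          (inner 𝕜 (net (z j)) (cmp 𝕜 L r j (b (∑ k ∈ range n, R k (W k))))) := by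
        simp only [hW, hG, map_sum, inner_sum, Finset.mul_sum]
        rw [Finset.sum_comm]
        refine Finset.sum_congr rfl fun k _ => Finset.sum_congr rfl fun j' _ => ?_
        split_ifs
        · rw [map_smul, map_smul, map_smul, inner_smul_right, mul_assoc ((_ : ℝ) : 𝕜),
            RCLike.re_ofReal_mul]
          ring
        · simp
      rw [a3]
      refine (le_abs_self _).trans ?_
      rw [abs_mul, abs_sg, one_mul]
      refine (RCLike.abs_re_le_norm _).trans ((norm_inner_le_norm _ _).trans ?_)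
      exact mul_le_of_le_one_left (norm_nonneg _) (hnet _)
    have h2 : 𝔼 ε : Cube (Fin L), ∑ j, ∑ j', sg (ε j) * sg (ε j') * G j j' = ∑ j, G j j := by
      rw [Finset.expect_sum_comm]
      refine Finset.sum_congr rfl fun j _ => ?_
      rw [Finset.expect_sum_comm]
      simp only [← Finset.expect_mul, expect_sg_mul]
      simp
    have h3 := Finset.expect_le_expect (s := Finset.univ) fun ε _ => h1 ε
    rw [h2, Finset.expect_const Finset.univ_nonempty] at h3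
    refine le_trans (Finset.sum_le_sum fun j _ => Finset.sum_le_sum fun k _ => ?_) h3
    split_ifs with ho
    · rw [ho.1, ← hθ, RCLike.ofReal_re]
      exact mul_le_mul_of_nonneg_left (hβ j k) (hℓ j k)
    · exact le_rfl
  have h4 := Finset.expect_le_expect (s := Finset.univ) fun z _ => key z
  rw [← Finset.mul_expect] at h4
  have h5 := h4.trans (mul_le_mul_of_nonneg_left (expect_lpn_sel_le n ζ ℓ hℓ hρ0 hρ) hK)
  have hL' : (0 : ℝ) < L := by exact_mod_cast hL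
  have h6 : 1 / (4 * (L : ℝ)) * ∑ j, ∑ k ∈ range n, ℓ j k * β j k ≤ K * (2 * ρ) := by
    refine le_trans ?_ h5
    rw [Finset.expect_sum_comm, Finset.mul_sum]
    refine Finset.sum_le_sum fun j _ => ?_
    rw [Finset.expect_sum_comm, Finset.mul_sum]
    refine Finset.sum_le_sum fun k _ => ?_
    refine (mul_le_mul_of_nonneg_right (expect_only_ge (ζ k) j)
      (mul_nonneg (hℓ j k) (hβ0 j k))).trans (le_of_eq ?_)
    rw [Finset.expect_mul]
    refine Finset.expect_congr rfl fun z _ => ?_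
    split_ifs <;> simp
  rw [one_div, inv_mul_le_iff₀ (by positivity)] at h6
  linarith

lemma lpabs_opnorm {F : Type*} [NormedAddCommGroup F] [NormedSpace 𝕜 F] (s : Seminorm 𝕜 E)
    (B : E →ₗ[𝕜] F) {K : ℝ} (hK : 0 ≤ K) (hB : ∀ x, ‖B x‖ ≤ K * s x) :
    ∃ (β : ℝ) (y : E), 0 ≤ β ∧ s y ≤ 1 ∧ (∀ x, ‖B x‖ ≤ β * s x) ∧ β ≤ 2 * ‖B y‖ := by
  set S : Set ℝ := {t | ∃ x, s x ≤ 1 ∧ ‖B x‖ = t} with hS
  have h0 : (0 : ℝ) ∈ S := ⟨0, by simp, by simp⟩
  have hb : BddAbove S := ⟨K, by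
    rintro _ ⟨x, hx, rfl⟩
    exact (hB x).trans (mul_le_of_le_one_right hK hx)⟩
  have hβ : 0 ≤ sSup S := le_csSup hb h0
  have hle : ∀ x, ‖B x‖ ≤ sSup S * s x := by
    intro x
    rcases (apply_nonneg s x).eq_or_lt with hx | hx
    · have := hB x
      rw [← hx] at this ⊢
      simpa using this
    · have h1 : ‖B ((((s x)⁻¹ : ℝ) : 𝕜) • x)‖ ≤ sSup S := le_csSup hb ⟨_, by
        rw [map_smul_eq_mul, RCLike.norm_ofReal, abs_of_pos (inv_pos.2 hx),
          inv_mul_cancel₀ hx.ne'], rfl⟩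
      rw [map_smul, norm_smul, RCLike.norm_ofReal, abs_of_pos (inv_pos.2 hx),
        inv_mul_le_iff₀ hx, mul_comm] at h1
      exact h1
  rcases hβ.eq_or_lt with h | h
  · exact ⟨sSup S, 0, hβ, by simp, hle, by rw [← h]; positivity⟩
  · obtain ⟨_, ⟨y, hy, rfl⟩, hlt⟩ := exists_lt_of_lt_csSup ⟨0, h0⟩ (half_lt_self h)
    exact ⟨sSup S, y, hβ, hy, hle, by linarith⟩

/-- The space `ℓ¹_L (ℓ²_r)` does not factor. Let `L, net` come from `exists_sphere_net`. Suppose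
`b ∘ a = id`; `a j = a ∘ inc j`, `B j k = cmp j ∘ b ∘ R k`, so `‖B j k x‖ ≤ K * s k x`. Let
`β' j k = sSup {‖B j k x‖ | s k x ≤ 1}`; then `‖B j k x‖ ≤ β' j k * s k x` (scale; if `s k x = 0` the
left side vanishes) and there is `y j k` with `s k (y j k) ≤ 1`, `β' j k ≤ 2 ‖B j k (y j k)‖`, and
`ζ k j` with `β' j k / 4 ≤ ‖⟪net (ζ k j), B j k (y j k)⟫‖`. With `ℓ j k = ell m (s k) (a j)` we have
`lpn p n (ℓ j) ≤ 𝔼 lpn p n (s k (a j ξ)) ≤ ell m q (a j) ≤ √r` (`lpn_expect_le`, `lower`,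
`ell_le`). For `n` large `r / 2 ≤ ‖∑ k < n, tr (B j k ∘ a j)‖` for all `j` (`lim`, `tr_eq_sum`), so
`L r / 2 ≤ δ √r ∑ β' ℓ ≤ δ √r * 32 L K √r`. -/
theorem noFactor_of_isSum {q : Seminorm 𝕜 E} {s : ℕ → Seminorm 𝕜 E} {R : ℕ → E →ₗ[𝕜] E}
    (h : IsSum p q s R) {r m : ℕ} (hr : 0 < r) (hm : 0 < m) {δ K : ℝ} (hδ : 0 ≤ δ) (hK : 0 ≤ K)
    (hδK : 64 * δ * K < 1) (hPP : ∀ k, PP r m δ (s k)) :
    ∃ L : ℕ, NoFactor (l1l2 𝕜 L r) q K := by
  obtain ⟨L, hL, net, hnet, hnorm⟩ := exists_sphere_net (𝕜 := 𝕜) r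
  refine ⟨L, fun a b ha hb hab => ?_⟩
  set A : Fin L → Eu 𝕜 (Fin r) →ₗ[𝕜] E := fun j => a ∘ₗ inc 𝕜 L r j with hA
  set B : Fin L → ℕ → E →ₗ[𝕜] Eu 𝕜 (Fin r) := fun j k => cmp 𝕜 L r j ∘ₗ b ∘ₗ R k with hB
  have hA1 : ∀ j v, q (A j v) ≤ ‖v‖ := fun j v => (ha _).trans (l1l2_inc j v).le
  have hc : ∀ j x, ‖cmp 𝕜 L r j (b x)‖ ≤ K * q x := fun j x => by
    refine le_trans ?_ (hb x)
    rw [l1l2_apply]
    exact Finset.single_le_sum (f := fun j => ‖cmp 𝕜 L r j (b x)‖) (fun j _ => norm_nonneg _)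
      (Finset.mem_univ j)
  have hB1 : ∀ j k x, ‖B j k x‖ ≤ K * s k x := fun j k x =>
    (hc j _).trans (mul_le_mul_of_nonneg_left (h.single k x) hK)
  choose β y hβ0 hy hBβ hβy using fun j k => lpabs_opnorm (s k) (B j k) hK (hB1 j k)
  choose ζ hζ using fun k j => hnorm (B j k (y j k))
  have hev : ∀ᶠ n in atTop, ∀ j, ∑ i, K * q (A j (ev 𝕜 i) - ∑ k ∈ range n, R k (A j (ev 𝕜 i)))
      < r / 2 := by
    refine Filter.eventually_all.2 fun j => ?_
    have h1 : Tendsto (fun n => ∑ i, K * q (A j (ev 𝕜 i) - ∑ k ∈ range n, R k (A j (ev 𝕜 i))))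
        atTop (𝓝 (∑ _i : Fin r, K * 0)) :=
      tendsto_finsetSum _ fun i _ => (h.lim _).const_mul K
    simp only [mul_zero, Finset.sum_const_zero] at h1
    exact h1.eventually_lt_const (by positivity)
  obtain ⟨n, hn⟩ := hev.exists
  have hℓ : ∀ j, lpn p n (fun k => ell m (s k) (A j)) ≤ √r := by
    intro j
    refine le_trans ?_ (ell_le hm q (A j) (hA1 j))
    unfold ell
    exact (lpn_expect_le n _).trans (Finset.expect_le_expect fun ε _ => h.lower n _)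
  have hℓ0 : ∀ j k, 0 ≤ ell m (s k) (A j) := fun j k =>
    Finset.expect_nonneg fun ε _ => apply_nonneg _ _
  have key := sum_mul_le_of_isSum h hL net hnet b hK hb n y hy ζ (fun j k => β j k / 4)
    (fun j k => ell m (s k) (A j)) hℓ0 (fun j k => by have := hβ0 j k; positivity)
    (fun j k => by
      have h1 := hβy j k
      have h2 := hζ k j
      change β j k / 4 ≤ ‖inner 𝕜 (net (ζ k j)) (B j k (y j k))‖
      linarith) (Real.sqrt_nonneg r) hℓ
  have h2 : ∀ j, (r : ℝ) / 2 ≤ 4 * δ * √r * ∑ k ∈ range n, ell m (s k) (A j) * (β j k / 4) := by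
    intro j
    have a1 : (r : 𝕜) = ∑ k ∈ range n, tr (B j k ∘ₗ A j) +
        ∑ i, cmp 𝕜 L r j (b (A j (ev 𝕜 i) - ∑ k ∈ range n, R k (A j (ev 𝕜 i)))) i := by
      simp only [tr_eq_sum]
      rw [Finset.sum_comm, ← Finset.sum_add_distrib]
      have a0 : ∀ i : Fin r, cmp 𝕜 L r j (b (A j (ev 𝕜 i))) i = 1 := by
        intro i
        have := LinearMap.congr_fun hab (inc 𝕜 L r j (ev 𝕜 i))
        change b (A j (ev 𝕜 i)) = inc 𝕜 L r j (ev 𝕜 i) at this
        rw [this, cmp_inc, if_pos rfl, ev_apply, if_pos rfl]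
      rw [Finset.sum_congr rfl (g := fun _ => (1 : 𝕜)) fun i _ => ?_]
      · simp
      · rw [← a0 i]
        simp [hB]
    have a2 : (r : ℝ) ≤ ∑ k ∈ range n, ‖tr (B j k ∘ₗ A j)‖ +
        ∑ i, K * q (A j (ev 𝕜 i) - ∑ k ∈ range n, R k (A j (ev 𝕜 i))) := by
      have : ‖(r : 𝕜)‖ = r := by simp
      rw [← this, a1]
      refine (norm_add_le _ _).trans (add_le_add (norm_sum_le _ _) ((norm_sum_le _ _).trans ?_))
      exact Finset.sum_le_sum fun i _ => (PiLp.norm_apply_le _ i).trans (hc j _)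
    have a3 : ∑ k ∈ range n, ‖tr (B j k ∘ₗ A j)‖ ≤
        4 * δ * √r * ∑ k ∈ range n, ell m (s k) (A j) * (β j k / 4) := by
      rw [Finset.mul_sum]
      refine Finset.sum_le_sum fun k _ => (hPP k (A j) (B j k) (β j k) (hβ0 j k) (hBβ j k)).trans
        (le_of_eq ?_)
      ring
    linarith [hn j]
  have h3 := Finset.sum_le_sum (s := Finset.univ) fun j _ => h2 j
  rw [← Finset.mul_sum] at h3
  simp only [Finset.sum_const, Finset.card_univ, Fintype.card_fin, nsmul_eq_mul] at h3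
  have h4 : 4 * δ * √r * ∑ j, ∑ k ∈ range n, ell m (s k) (A j) * (β j k / 4) ≤
      4 * δ * √r * (8 * L * K * √r) := mul_le_mul_of_nonneg_left key (by positivity)
  have h5 : √(r : ℝ) * √r = r := Real.mul_self_sqrt (Nat.cast_nonneg r)
  have h6 : (0 : ℝ) < L * r := by positivity
  have h7 : 4 * δ * √r * (8 * L * K * √r) = 64 * δ * K * (L * r) / 2 := by
    linear_combination (32 * δ * L * K) * h5
  nlinarith

end Pool.Agent.Lib.MP_e0f470_an
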