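import Pool.Agent.Lib.MP_e0f470_an.Khin

/-! A Sudakov type minoration for Rademacher sums. -/

set_option autoImplicit false

namespace Pool.Agent.Lib.MP_e0f470_an

open Finset
open scoped BigOperators

variable {𝕜 : Type*} [RCLike 𝕜]

section
variable {W : Type*} [AddCommGroup W] [Module 𝕜 W] {r m : ℕ}

/-- The linear map `a ↦ ∑ (k, l), a k / √m • x (k, l)`. -/
noncomputable def bar (x : Fin r × Fin m → W) : Eu 𝕜 (Fin r) →ₗ[𝕜] W where
  toFun a := ∑ kl, (a kl.1 * ((√m : ℝ) : 𝕜)⁻¹) • x kl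
  map_add' a a' := by simp [add_mul, add_smul, Finset.sum_add_distrib]
  map_smul' c a := by simp [mul_assoc, mul_smul, Finset.smul_sum]

lemma bar_apply (x : Fin r × Fin m → W) (a : Eu 𝕜 (Fin r)) :
    bar x a = ∑ kl, (a kl.1 * ((√m : ℝ) : 𝕜)⁻¹) • x kl := rfl

lemma sud_bool (f : Bool → ℝ) : 𝔼 t, f t = (f true + f false) / 2 := by
  rw [Finset.expect_eq_sum_div_card]
  simp

lemma sud_scale (p : Seminorm 𝕜 W) {c : ℝ} (hc : 0 ≤ c) (x : W) :
    p ((c : 𝕜) • x) = c * p x := by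
  rw [map_smul_eq_mul, RCLike.norm_ofReal, abs_of_nonneg hc]

section
variable {κ : Type*} [Fintype κ] [DecidableEq κ]

/-- The density of the biased product measure. -/
def sudD (c : κ → ℝ) (ε : Cube κ) : ℝ := ∏ j, (1 + c j * sg (ε j))

omit [DecidableEq κ] in
lemma sudD_nonneg {c : κ → ℝ} (hc : ∀ j, |c j| ≤ 1) (ε : Cube κ) : 0 ≤ sudD c ε := by
  refine Finset.prod_nonneg fun j _ => ?_
  have h1 : |c j * sg (ε j)| ≤ 1 := by
    rw [abs_mul, abs_sg, mul_one]
    exact hc j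
  linarith [(abs_le.mp h1).1]

lemma sudD_sg (c : κ → ℝ) (k : κ) : 𝔼 ε, sudD c ε * sg (ε k) = c k := by
  have h1 : ∀ ε : Cube κ, sudD c ε * sg (ε k) =
      ∏ j, ((1 + c j * sg (ε j)) * if j = k then sg (ε j) else 1) := by
    intro ε
    rw [Finset.prod_mul_distrib, Finset.prod_ite_eq', if_pos (Finset.mem_univ _), sudD]
  simp only [h1]
  rw [expect_prod_coord fun j t => (1 + c j * sg t) * if j = k then sg t else 1,
    Finset.prod_eq_single k]
  · rw [sud_bool]
    simp only [if_true, sg_true, sg_false]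
    ring
  · intro j _ hj
    rw [sud_bool]
    simp only [if_neg hj, sg_true, sg_false]
    ring
  · intro h
    exact absurd (Finset.mem_univ _) h

lemma sudD_mul {c c' : κ → ℝ} (hc : ∀ j, |c j| ≤ 1) (hc' : ∀ j, |c' j| ≤ 1) :
    𝔼 ε, sudD c ε * sudD c' ε ≤ Real.exp (∑ j, c j * c' j) := by
  have h1 : ∀ ε : Cube κ, sudD c ε * sudD c' ε =
      ∏ j, ((1 + c j * sg (ε j)) * (1 + c' j * sg (ε j))) := by
    intro ε
    rw [Finset.prod_mul_distrib, sudD, sudD]
  simp only [h1]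
  rw [expect_prod_coord fun j t => (1 + c j * sg t) * (1 + c' j * sg t), Real.exp_sum]
  have h2 : ∀ j, 𝔼 t : Bool, (1 + c j * sg t) * (1 + c' j * sg t) = c j * c' j + 1 := by
    intro j
    rw [sud_bool]
    simp only [sg_true, sg_false]
    ring
  simp only [h2]
  refine Finset.prod_le_prod (fun j _ => ?_) fun j _ => Real.add_one_le_exp _
  have h3 : |c j * c' j| ≤ 1 := by
    rw [abs_mul]
    exact mul_le_one₀ (hc j) (abs_nonneg _) (hc' j)
  linarith [(abs_le.mp h3).1]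

lemma sudD_le (p : Seminorm 𝕜 W) (x : κ → W) {c : κ → ℝ} (hc : ∀ j, |c j| ≤ 1) :
    p (∑ j, (c j : 𝕜) • x j) ≤ 𝔼 ε, sudD c ε * p (rs x ε) := by
  obtain ⟨φ, h1, h2⟩ := exists_norming p (∑ j, (c j : 𝕜) • x j)
  have h3 : ∀ a : κ → ℝ, RCLike.re (φ (∑ j, (a j : 𝕜) • x j)) =
      ∑ j, a j * RCLike.re (φ (x j)) := by
    intro a
    simp only [map_sum, map_smul, smul_eq_mul, RCLike.re_ofReal_mul]
  have h4 : p (∑ j, (c j : 𝕜) • x j) = 𝔼 ε, sudD c ε * RCLike.re (φ (rs x ε)) := by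
    have h5 : ∀ ε : Cube κ, sudD c ε * RCLike.re (φ (rs x ε)) =
        ∑ j, sudD c ε * sg (ε j) * RCLike.re (φ (x j)) := by
      intro ε
      rw [rs_eq_smul (𝕜 := 𝕜), h3, Finset.mul_sum]
      simp only [mul_assoc]
    simp only [h5]
    rw [Finset.expect_sum_comm]
    simp only [← Finset.expect_mul, sudD_sg]
    rw [← h3, h1, RCLike.ofReal_re]
  rw [h4]
  exact Finset.expect_le_expect fun ε _ => mul_le_mul_of_nonneg_left
    ((RCLike.re_le_norm _).trans (h2 _)) (sudD_nonneg hc ε)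

end

/-- From `weak_le`: the coefficient family has Euclidean norm `‖a‖`. -/
lemma bar_le (hm : 0 < m) (p : Seminorm 𝕜 W) (x : Fin r × Fin m → W) (a : Eu 𝕜 (Fin r)) :
    p (bar x a) ≤ 2 * (𝔼 ε, p (rs x ε)) * ‖a‖ := by
  have hm0 : (0 : ℝ) < m := by exact_mod_cast hm
  have h1 := weak_le p x fun kl => a kl.1 * ((√m : ℝ) : 𝕜)⁻¹
  have h2 : ∑ kl : Fin r × Fin m, ‖a kl.1 * ((√m : ℝ) : 𝕜)⁻¹‖ ^ 2 = ∑ k, ‖a k‖ ^ 2 := by
    rw [Fintype.sum_prod_type]
    refine Finset.sum_congr rfl fun k _ => ?_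
    simp only [norm_mul, norm_inv, RCLike.norm_ofReal, mul_pow, inv_pow, sq_abs,
      Real.sq_sqrt hm0.le, Finset.sum_const, Finset.card_univ, Fintype.card_fin, nsmul_eq_mul]
    field_simp
  rw [h2, ← EuclideanSpace.norm_eq] at h1
  rw [bar_apply]
  linarith

/-- Biased signs. Let `θ = t / √m ≤ 1` and `D i ε = ∏ kl, (1 + θ * u i kl.1 * sg (ε kl)) ≥ 0`
(`|u i l| ≤ 1`). By `expect_prod_coord`, `𝔼 D i ε * sg (ε kl) = θ * u i kl.1`, so
`t • ∑ (u i kl.1 / √m) • x kl` is the average of `D i ε • rs x ε` and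
`t * p (…) ≤ 𝔼 D i ε * p (rs x ε)`. Also
`𝔼 D i * D j = ∏ kl, (1 + θ² u i u j) ≤ exp (t² * ⟪u i, u j⟫)`, which is `exp (t²) ≤ k` for `i = j`
and `1` otherwise. So `D = (∑ i, D i) / k` has `𝔼 D² ≤ 2`, and by Cauchy-Schwarz and `kahane`
`𝔼 D * p ≤ √2 * √2 * 𝔼 p`. Some `i` is at most the average. -/
theorem sudakov_real (hm : 0 < m) (p : Seminorm 𝕜 W) (x : Fin r × Fin m → W) {t : ℝ} (ht : 0 < t)
    (htm : t ^ 2 ≤ m) {k : ℕ} (hk : Real.exp (t ^ 2) ≤ k) (u : Fin k → Fin r → ℝ)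
    (hu : ∀ i j, ∑ l, u i l * u j l = if i = j then 1 else 0) :
    ∃ i, t * p (∑ kl : Fin r × Fin m, ((u i kl.1 / √m : ℝ) : 𝕜) • x kl) ≤
      2 * 𝔼 ε, p (rs x ε) := by
  have hm0 : (0 : ℝ) < m := by exact_mod_cast hm
  have hs : 0 < √(m : ℝ) := Real.sqrt_pos.mpr hm0
  have hk0 : (0 : ℝ) < k := (Real.exp_pos _).trans_le hk
  have hne : (Finset.univ : Finset (Fin k)).Nonempty :=
    ⟨⟨0, by exact_mod_cast hk0⟩, Finset.mem_univ _⟩
  let c : Fin k → Fin r × Fin m → ℝ := fun i kl => t * (u i kl.1 / √m)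
  have hc : ∀ i kl, |c i kl| ≤ 1 := by
    intro i kl
    have h1 : u i kl.1 * u i kl.1 ≤ 1 := by
      have h2 := hu i i
      rw [if_pos rfl] at h2
      rw [← h2]
      exact Finset.single_le_sum (f := fun l => u i l * u i l) (fun l _ => mul_self_nonneg _)
        (Finset.mem_univ _)
    rw [← sq_le_one_iff_abs_le_one, mul_pow, div_pow, Real.sq_sqrt hm0.le, ← mul_div_assoc,
      div_le_one hm0]
    nlinarith [sq_nonneg t]
  have hcc : ∀ i j, ∑ kl, c i kl * c j kl = t ^ 2 * if i = j then 1 else 0 := by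
    intro i j
    rw [← hu i j, Finset.mul_sum, Fintype.sum_prod_type]
    refine Finset.sum_congr rfl fun l _ => ?_
    simp only [c, Finset.sum_const, Finset.card_univ, Fintype.card_fin, nsmul_eq_mul]
    field_simp
    rw [Real.sq_sqrt hm0.le]
    ring
  have h2 : 𝔼 ε, (∑ i, sudD (c i) ε) ^ 2 ≤ 2 * (k : ℝ) ^ 2 := by
    simp only [sq, Finset.sum_mul_sum, Finset.expect_sum_comm]
    have h3 : ∀ i j, 𝔼 ε, sudD (c i) ε * sudD (c j) ε ≤ 1 + if i = j then (k : ℝ) else 0 := by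
      intro i j
      refine (sudD_mul (hc i) (hc j)).trans ?_
      rw [hcc]
      split_ifs
      · rw [mul_one]
        linarith
      · simp
    refine (Finset.sum_le_sum fun i _ => Finset.sum_le_sum fun j _ => h3 i j).trans (le_of_eq ?_)
    simp only [Finset.sum_add_distrib, Finset.sum_const, Finset.card_univ, Fintype.card_fin,
      nsmul_eq_mul, Finset.sum_ite_eq, Finset.mem_univ, if_true]
    ring
  have hE : 0 ≤ 𝔼 ε, p (rs x ε) := Finset.expect_nonneg fun ε _ => apply_nonneg _ _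
  have h4 : 𝔼 ε, (∑ i, sudD (c i) ε) * p (rs x ε) ≤ k * (2 * 𝔼 ε, p (rs x ε)) := by
    refine (expect_mul_le_sqrt _ _).trans ?_
    refine (mul_le_mul (Real.sqrt_le_sqrt h2) (Real.sqrt_le_sqrt (kahane p x))
      (Real.sqrt_nonneg _) (Real.sqrt_nonneg _)).trans (le_of_eq ?_)
    rw [← Real.sqrt_mul (by positivity), Real.sqrt_eq_iff_mul_self_eq (by positivity)
      (by positivity)]
    ring
  have h5 : ∀ i, t * p (∑ kl : Fin r × Fin m, ((u i kl.1 / √m : ℝ) : 𝕜) • x kl) ≤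
      𝔼 ε, sudD (c i) ε * p (rs x ε) := by
    intro i
    rw [← sud_scale p ht.le, Finset.smul_sum]
    simp only [smul_smul, ← RCLike.ofReal_mul]
    exact sudD_le p x (hc i)
  have h6 : ∑ i, t * p (∑ kl : Fin r × Fin m, ((u i kl.1 / √m : ℝ) : 𝕜) • x kl) ≤
      ∑ _i : Fin k, 2 * 𝔼 ε, p (rs x ε) := by
    refine (Finset.sum_le_sum fun i _ => h5 i).trans ?_
    rw [← Finset.expect_sum_comm, Finset.sum_const, Finset.card_univ, Fintype.card_fin,
      nsmul_eq_mul]
    simpa only [Finset.sum_mul] using h4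
  obtain ⟨i, -, hi⟩ := Finset.exists_le_of_sum_le hne h6
  exact ⟨i, hi⟩

/-- Take a real orthonormal family `u : Fin j → Fin r → ℝ` of maximal size `j` all of whose members
violate the conclusion of `sudakov_real` (`j < k`, e.g. `Nat.findGreatest`, subfamilies of such
families are such families), and `U` the `𝕜`-span of the `u i`. If `a ∈ Uᗮ` then the real vectors
`re a`, `im a` are orthogonal to all `u i`, so by maximality (normalise, `Fin.snoc`) each satisfies
`t * p (bar x v) ≤ 2 * 𝔼 * ‖v‖`; and `a = re a + I • im a`. -/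
theorem sud_subspace (hm : 0 < m) (p : Seminorm 𝕜 W) (x : Fin r × Fin m → W) {t : ℝ} (ht : 0 < t)
    (htm : t ^ 2 ≤ m) {k : ℕ} (hk : Real.exp (t ^ 2) ≤ k) :
    ∃ U : Submodule 𝕜 (Eu 𝕜 (Fin r)), Module.finrank 𝕜 U ≤ k ∧
      ∀ a ∈ Uᗮ, t * p (bar x a) ≤ 4 * (𝔼 ε, p (rs x ε)) * ‖a‖ := by
  let S : (Fin r → ℝ) → W := fun v => ∑ kl : Fin r × Fin m, ((v kl.1 / √m : ℝ) : 𝕜) • x kl
  let P : ℕ → Prop := fun j => ∃ u : Fin j → Fin r → ℝ,
    (∀ i i', ∑ l, u i l * u i' l = if i = i' then 1 else 0) ∧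
      ∀ i, 2 * 𝔼 ε, p (rs x ε) < t * p (S (u i))
  have hE : 0 ≤ 𝔼 ε, p (rs x ε) := Finset.expect_nonneg fun ε _ => apply_nonneg _ _
  have h0 : ∀ n, ¬ P n → ∃ j < n, P j ∧ ¬ P (j + 1) := by
    intro n
    induction n with
    | zero => exact fun h => absurd ⟨Fin.elim0, fun i => i.elim0, fun i => i.elim0⟩ h
    | succ n ih =>
      intro h
      by_cases h1 : P n
      · exact ⟨n, n.lt_succ_self, h1, h⟩
      · obtain ⟨j, h2, h3⟩ := ih h1
        exact ⟨j, h2.trans n.lt_succ_self, h3⟩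
  obtain ⟨j, hj, ⟨u, hu1, hu2⟩, hP⟩ := h0 k (by
    rintro ⟨u, hu1, hu2⟩
    obtain ⟨i, hi⟩ := sudakov_real hm p x ht htm hk u hu1
    exact absurd (hu2 i) (not_lt.mpr hi))
  have key : ∀ v : Fin r → ℝ, (∀ i, ∑ l, u i l * v l = 0) →
      t * p (S v) ≤ 2 * (𝔼 ε, p (rs x ε)) * √(∑ l, v l ^ 2) := by
    intro v hv
    have h1 : 0 ≤ ∑ l, v l ^ 2 := Finset.sum_nonneg fun l _ => sq_nonneg _
    rcases h1.eq_or_lt with h2 | h2
    · have h3 : ∀ l, v l = 0 := fun l => pow_eq_zero_iff two_ne_zero |>.mp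
        ((Finset.sum_eq_zero_iff_of_nonneg fun l _ => sq_nonneg _).mp h2.symm l
          (Finset.mem_univ _))
      simp [S, h3]
    · set n := √(∑ l, v l ^ 2) with hn
      have hn0 : 0 < n := Real.sqrt_pos.mpr h2
      have hn2 : n ^ 2 = ∑ l, v l ^ 2 := Real.sq_sqrt h1
      have h3 : S v = (n : 𝕜) • S fun l => v l / n := by
        simp only [S, Finset.smul_sum, smul_smul, ← RCLike.ofReal_mul]
        refine Finset.sum_congr rfl fun kl _ => ?_
        rw [← mul_div_assoc, mul_div_cancel₀ _ hn0.ne']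
      have h4 : ∀ i, ∑ l, u i l * (v l / n) = 0 := by
        intro i
        simp only [← mul_div_assoc, ← Finset.sum_div, hv i, zero_div]
      have h5 : t * p (S fun l => v l / n) ≤ 2 * 𝔼 ε, p (rs x ε) := by
        by_contra h6
        refine hP ⟨Fin.cons (fun l => v l / n) u, fun i i' => ?_, fun i => ?_⟩
        · refine Fin.cases ?_ (fun i => ?_) i <;> refine Fin.cases ?_ (fun i' => ?_) i'
          · simp only [Fin.cons_zero, if_true, ← sq, div_pow, ← Finset.sum_div, ← hn2]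
            exact div_self (pow_ne_zero 2 hn0.ne')
          · simp only [Fin.cons_zero, Fin.cons_succ, if_neg (Fin.succ_ne_zero i').symm]
            simpa only [mul_comm] using h4 i'
          · simp only [Fin.cons_zero, Fin.cons_succ, if_neg (Fin.succ_ne_zero i)]
            exact h4 i
          · simp only [Fin.cons_succ, Fin.succ_inj]
            exact hu1 i i'
        · refine Fin.cases ?_ (fun i => ?_) i
          · exact not_le.mp h6
          · exact hu2 i
      rw [h3, sud_scale p hn0.le]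
      nlinarith
  let w : Fin j → Eu 𝕜 (Fin r) := fun i => WithLp.toLp 2 fun l => (u i l : 𝕜)
  refine ⟨Submodule.span 𝕜 (Set.range w), ?_, fun a ha => ?_⟩
  · have h1 := finrank_range_le_card (R := 𝕜) w
    rw [Fintype.card_fin] at h1
    exact h1.trans hj.le
  · have h1 : ∀ i, ∑ l, (u i l : 𝕜) * a l = 0 := by
      intro i
      have h2 := Submodule.inner_right_of_mem_orthogonal
        (Submodule.subset_span (Set.mem_range_self i)) ha
      simpa [w, PiLp.inner_apply, mul_comm] using h2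
    have h2 := key (fun l => RCLike.re (a l)) fun i => by
      simpa only [map_sum, RCLike.re_ofReal_mul, map_zero] using congrArg RCLike.re (h1 i)
    have h3 := key (fun l => RCLike.im (a l)) fun i => by
      simpa only [map_sum, RCLike.im_ofReal_mul, map_zero] using congrArg RCLike.im (h1 i)
    have h4 : bar x a = S (fun l => RCLike.re (a l)) +
        (RCLike.I : 𝕜) • S fun l => RCLike.im (a l) := by
      simp only [S, bar_apply, Finset.smul_sum, smul_smul, ← Finset.sum_add_distrib, ← add_smul]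
      refine Finset.sum_congr rfl fun kl _ => congrArg (· • x kl) ?_
      rw [RCLike.ofReal_div, RCLike.ofReal_div]
      have h5 := RCLike.re_add_im (a kl.1)
      linear_combination (-((√m : ℝ) : 𝕜)⁻¹) * h5
    have h5 : √(∑ l, RCLike.re (a l) ^ 2) ≤ ‖a‖ := by
      rw [EuclideanSpace.norm_eq]
      exact Real.sqrt_le_sqrt (Finset.sum_le_sum fun l _ =>
        sq_le_sq.mpr ((RCLike.abs_re_le_norm _).trans (le_abs_self _)))
    have h6 : √(∑ l, RCLike.im (a l) ^ 2) ≤ ‖a‖ := by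
      rw [EuclideanSpace.norm_eq]
      exact Real.sqrt_le_sqrt (Finset.sum_le_sum fun l _ =>
        sq_le_sq.mpr ((RCLike.abs_im_le_norm _).trans (le_abs_self _)))
    have h7 : ‖(RCLike.I : 𝕜)‖ ≤ 1 := by
      rw [RCLike.norm_I]
      split_ifs <;> simp
    have h8 : p (bar x a) ≤ p (S fun l => RCLike.re (a l)) + p (S fun l => RCLike.im (a l)) := by
      rw [h4]
      refine (map_add_le_add p _ _).trans (add_le_add le_rfl ?_)
      rw [map_smul_eq_mul]
      exact mul_le_of_le_one_left (apply_nonneg _ _) h7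
    have h9 := mul_le_mul_of_nonneg_left h8 ht.le
    have h10 := mul_le_mul_of_nonneg_left h5 hE
    have h11 := mul_le_mul_of_nonneg_left h6 hE
    linarith

end

end Pool.Agent.Lib.MP_e0f470_an
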