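import Pool.Agent.Lib.MP_e0f470_an.Base

/-! Trace estimates. -/

set_option autoImplicit false

namespace Pool.Agent.Lib.MP_e0f470_an

open Finset
open scoped BigOperators

variable {𝕜 : Type*} [RCLike 𝕜]

section
variable {ι : Type} [Fintype ι] [DecidableEq ι]

omit [DecidableEq ι] in
lemma trace_inner_proj (U : Submodule 𝕜 (Eu 𝕜 ι)) (x : Eu 𝕜 ι) {u : Eu 𝕜 ι} (hu : u ∈ U) :
    inner 𝕜 (U.starProjection x) u = inner 𝕜 x u := by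
  rw [Submodule.inner_starProjection_left_eq_right, Submodule.starProjection_eq_self_iff.mpr hu]

lemma trace_tr_proj_comp (U : Submodule 𝕜 (Eu 𝕜 ι)) (Y : Eu 𝕜 ι →ₗ[𝕜] Eu 𝕜 ι) :
    tr ((U.starProjection : Eu 𝕜 ι →ₗ[𝕜] Eu 𝕜 ι) ∘ₗ Y)
      = ∑ i, inner 𝕜 (U.starProjection (ev 𝕜 i)) (Y (ev 𝕜 i)) := by
  rw [tr_eq_sum]
  refine Finset.sum_congr rfl fun i _ => ?_
  rw [← inner_ev, Submodule.inner_starProjection_left_eq_right]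
  rfl

lemma trace_comp_le (R X : Eu 𝕜 ι →ₗ[𝕜] Eu 𝕜 ι) {d L : ℝ} (hd : 0 ≤ d) (hL : 0 ≤ L)
    (hR : ∀ i, ‖R (ev 𝕜 i)‖ ≤ d) (hX : ∀ i, ‖X (ev 𝕜 i)‖ ≤ L) :
    ‖tr (R ∘ₗ X)‖ ≤ d * L * Fintype.card ι := by
  have e1 : tr (R ∘ₗ X) = ∑ p : ι × ι, X (ev 𝕜 p.1) p.2 * R (ev 𝕜 p.2) p.1 := by
    rw [tr_eq_sum, Fintype.sum_prod_type]
    refine Finset.sum_congr rfl fun i _ => ?_
    rw [LinearMap.comp_apply]
    conv_lhs => rw [← sum_ev (X (ev 𝕜 i))]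
    simp
  have hsq : ∀ (Y : Eu 𝕜 ι →ₗ[𝕜] Eu 𝕜 ι) (b : ℝ), (∀ i, ‖Y (ev 𝕜 i)‖ ≤ b) →
      ∑ i, ∑ j, ‖Y (ev 𝕜 i) j‖ ^ 2 ≤ b ^ 2 * Fintype.card ι := by
    intro Y b hb
    calc ∑ i, ∑ j, ‖Y (ev 𝕜 i) j‖ ^ 2 ≤ ∑ _i : ι, b ^ 2 := Finset.sum_le_sum fun i _ => by
          rw [← EuclideanSpace.norm_sq_eq]
          exact pow_le_pow_left₀ (norm_nonneg _) (hb i) 2
      _ = _ := by simp [mul_comm]
  rw [e1]
  refine (norm_sum_le _ _).trans ?_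
  simp only [norm_mul]
  refine (Real.sum_mul_le_sqrt_mul_sqrt _ _ _).trans ?_
  have a1 : ∑ p : ι × ι, ‖X (ev 𝕜 p.1) p.2‖ ^ 2 ≤ L ^ 2 * Fintype.card ι := by
    rw [Fintype.sum_prod_type]; exact hsq X L hX
  have a2 : ∑ p : ι × ι, ‖R (ev 𝕜 p.2) p.1‖ ^ 2 ≤ d ^ 2 * Fintype.card ι := by
    rw [Fintype.sum_prod_type_right]; exact hsq R d hR
  have hN : (0 : ℝ) ≤ Fintype.card ι := Nat.cast_nonneg _
  calc _ ≤ √(L ^ 2 * Fintype.card ι) * √(d ^ 2 * Fintype.card ι) :=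
        mul_le_mul (Real.sqrt_le_sqrt a1) (Real.sqrt_le_sqrt a2) (Real.sqrt_nonneg _)
          (Real.sqrt_nonneg _)
    _ = d * L * (√(Fintype.card ι) * √(Fintype.card ι)) := by
        rw [Real.sqrt_mul (sq_nonneg _), Real.sqrt_mul (sq_nonneg _), Real.sqrt_sq hL,
          Real.sqrt_sq hd]
        ring
    _ = _ := by rw [Real.mul_self_sqrt hN]

lemma trace_shift_le (T : Eu 𝕜 ι →ₗ[𝕜] Eu 𝕜 ι) {K : ℝ} {lam : 𝕜} (hT : ∀ i, ‖T (ev 𝕜 i)‖ ≤ K)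
    (hlam : ‖lam‖ ≤ 2 * K) (i : ι) :
    ‖(T - lam • LinearMap.id : Eu 𝕜 ι →ₗ[𝕜] Eu 𝕜 ι) (ev 𝕜 i)‖ ≤ 3 * K := by
  simp only [LinearMap.sub_apply, LinearMap.smul_apply, LinearMap.id_apply]
  refine (norm_sub_le _ _).trans ?_
  rw [norm_smul, norm_ev, mul_one]
  linarith [hT i]

omit [DecidableEq ι] in
lemma trace_tr_shift (T : Eu 𝕜 ι →ₗ[𝕜] Eu 𝕜 ι) (lam : 𝕜) :
    tr (T - lam • LinearMap.id : Eu 𝕜 ι →ₗ[𝕜] Eu 𝕜 ι) = tr T - lam * Fintype.card ι := by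
  simp [tr, LinearMap.trace_id]

omit [DecidableEq ι] in
lemma trace_sqrt {c : ℝ} (hc : 0 ≤ c) :
    √(c * Fintype.card ι) * √(Fintype.card ι) = √c * Fintype.card ι := by
  rw [Real.sqrt_mul hc, mul_assoc, Real.mul_self_sqrt (Nat.cast_nonneg _)]

/-- The Hilbert-Schmidt norm of an orthogonal projection: `‖P e‖ ^ 2 = re ⟪e, P e⟫`, and the trace
of a projection is the dimension of its range (`LinearMap.IsProj.trace`), or expand in an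
orthonormal basis of `U`. -/
lemma sum_norm_proj_sq (U : Submodule 𝕜 (Eu 𝕜 ι)) :
    ∑ i, ‖U.starProjection (ev 𝕜 i)‖ ^ 2 = Module.finrank 𝕜 U := by
  have hP : LinearMap.IsProj U (U.starProjection : Eu 𝕜 ι →ₗ[𝕜] Eu 𝕜 ι) :=
    ⟨fun x => U.starProjection_apply_mem x, fun x hx => Submodule.starProjection_eq_self_iff.mpr hx⟩
  have h1 : tr (U.starProjection : Eu 𝕜 ι →ₗ[𝕜] Eu 𝕜 ι) = (Module.finrank 𝕜 U : 𝕜) := hP.trace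
  rw [tr_eq_sum] at h1
  have h2 : ∀ i, (U.starProjection : Eu 𝕜 ι →ₗ[𝕜] Eu 𝕜 ι) (ev 𝕜 i) i
      = ((‖U.starProjection (ev 𝕜 i)‖ ^ 2 : ℝ) : 𝕜) := by
    intro i
    rw [← inner_ev, RCLike.ofReal_pow, ← inner_self_eq_norm_sq_to_K]
    exact (trace_inner_proj U (ev 𝕜 i) (U.starProjection_apply_mem _)).symm
  simp only [h2] at h1
  rw [← RCLike.ofReal_sum, ← RCLike.ofReal_natCast] at h1
  exact RCLike.ofReal_injective h1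

lemma tr_le_of_bound (X : Eu 𝕜 ι →ₗ[𝕜] Eu 𝕜 ι) {β : ℝ} (hX : ∀ a, ‖X a‖ ≤ β * ‖a‖) :
    ‖tr X‖ ≤ β * Fintype.card ι := by
  rw [tr_eq_sum]
  refine (norm_sum_le _ _).trans ?_
  calc ∑ i, ‖X (ev 𝕜 i) i‖ ≤ ∑ _i : ι, β := Finset.sum_le_sum fun i _ => by
        refine (PiLp.norm_apply_le (X (ev 𝕜 i)) i).trans ?_
        simpa [norm_ev] using hX (ev 𝕜 i)
    _ = β * Fintype.card ι := by simp [mul_comm]

/-- `tr (X P) = tr (P X P) = ∑ ⟪P e i, X P e i⟫`. -/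
lemma tr_comp_proj_le (X : Eu 𝕜 ι →ₗ[𝕜] Eu 𝕜 ι) {β : ℝ} (hβ : 0 ≤ β) (hX : ∀ a, ‖X a‖ ≤ β * ‖a‖)
    (U : Submodule 𝕜 (Eu 𝕜 ι)) :
    ‖tr (X ∘ₗ (U.starProjection : Eu 𝕜 ι →ₗ[𝕜] Eu 𝕜 ι))‖ ≤ β * Module.finrank 𝕜 U := by
  set P : Eu 𝕜 ι →ₗ[𝕜] Eu 𝕜 ι := (U.starProjection : Eu 𝕜 ι →ₗ[𝕜] Eu 𝕜 ι) with hP
  have hPP : P ∘ₗ P = P := by
    refine LinearMap.ext fun x => ?_
    exact Submodule.starProjection_eq_self_iff.mpr (U.starProjection_apply_mem x)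
  have h1 : tr (X ∘ₗ P) = tr (P ∘ₗ (X ∘ₗ P)) := by
    rw [tr, tr, LinearMap.trace_comp_comm' (X ∘ₗ P) P, LinearMap.comp_assoc, hPP]
  rw [h1, trace_tr_proj_comp, ← sum_norm_proj_sq, Finset.mul_sum]
  refine (norm_sum_le _ _).trans (Finset.sum_le_sum fun i _ => ?_)
  refine (norm_inner_le_norm _ _).trans ?_
  have := mul_le_mul_of_nonneg_left (hX (U.starProjection (ev 𝕜 i)))
    (norm_nonneg (U.starProjection (ev 𝕜 i)))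
  calc _ ≤ ‖U.starProjection (ev 𝕜 i)‖ * (β * ‖U.starProjection (ev 𝕜 i)‖) := this
    _ = _ := by ring

/-- The orthogonal projection is the nearest point. -/
lemma norm_sub_proj_le (U : Submodule 𝕜 (Eu 𝕜 ι)) (x : Eu 𝕜 ι) {u : Eu 𝕜 ι} (hu : u ∈ U) :
    ‖x - U.starProjection x‖ ≤ ‖x - u‖ := by
  rw [Submodule.starProjection_minimal]
  exact ciInf_le (f := fun y : U => ‖x - y‖) ⟨0, by rintro _ ⟨y, rfl⟩; exact norm_nonneg _⟩ ⟨u, hu⟩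

/-- Write `S = P S + R` with `‖R e i‖ ≤ d`. Then `tr (P S X) = ∑ ⟪P e i, S X e i⟫` is at most
`√k √N L₁` and `tr (R X) = ∑ i j, R (e j) i * X (e i) j` is at most `d √N * L₂ √N`
(Cauchy-Schwarz). -/
lemma tr_comp_le_of_near (S X : Eu 𝕜 ι →ₗ[𝕜] Eu 𝕜 ι) (U : Submodule 𝕜 (Eu 𝕜 ι)) {k d L₁ L₂ : ℝ}
    (hk : (Module.finrank 𝕜 U : ℝ) ≤ k) (hd : ∀ i, ∃ u ∈ U, ‖S (ev 𝕜 i) - u‖ ≤ d)
    (h₁ : ∀ i, ‖S (X (ev 𝕜 i))‖ ≤ L₁) (h₂ : ∀ i, ‖X (ev 𝕜 i)‖ ≤ L₂) :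
    ‖tr (S ∘ₗ X)‖ ≤ √k * √(Fintype.card ι) * L₁ + d * L₂ * Fintype.card ι := by
  rcases isEmpty_or_nonempty ι with hι | ⟨⟨i₀⟩⟩
  · simp [tr_eq_sum]
  have hL₁ : 0 ≤ L₁ := (norm_nonneg _).trans (h₁ i₀)
  have hL₂ : 0 ≤ L₂ := (norm_nonneg _).trans (h₂ i₀)
  have hd0 : 0 ≤ d := by
    obtain ⟨u, _, hu⟩ := hd i₀
    exact (norm_nonneg _).trans hu
  set P : Eu 𝕜 ι →ₗ[𝕜] Eu 𝕜 ι := (U.starProjection : Eu 𝕜 ι →ₗ[𝕜] Eu 𝕜 ι) with hP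
  have hR : ∀ i, ‖(S - P ∘ₗ S) (ev 𝕜 i)‖ ≤ d := by
    intro i
    obtain ⟨u, hu, hu'⟩ := hd i
    exact (norm_sub_proj_le U (S (ev 𝕜 i)) hu).trans hu'
  have e1 : tr (S ∘ₗ X) = tr (P ∘ₗ (S ∘ₗ X)) + tr ((S - P ∘ₗ S) ∘ₗ X) := by
    rw [tr, tr, tr, ← map_add, LinearMap.sub_comp, LinearMap.comp_assoc, add_sub_cancel]
  rw [e1]
  refine (norm_add_le _ _).trans (add_le_add ?_ (trace_comp_le _ _ hd0 hL₂ hR h₂))
  rw [trace_tr_proj_comp]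
  refine (norm_sum_le _ _).trans ?_
  calc ∑ i, ‖inner 𝕜 (U.starProjection (ev 𝕜 i)) ((S ∘ₗ X) (ev 𝕜 i))‖
      ≤ ∑ i, ‖U.starProjection (ev 𝕜 i)‖ * L₁ := Finset.sum_le_sum fun i _ =>
        (norm_inner_le_norm _ _).trans (mul_le_mul_of_nonneg_left (h₁ i) (norm_nonneg _))
    _ = (∑ i, ‖U.starProjection (ev 𝕜 i)‖ * 1) * L₁ := by simp [Finset.sum_mul]
    _ ≤ _ := by
        refine mul_le_mul_of_nonneg_right ?_ hL₁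
        refine (Real.sum_mul_le_sqrt_mul_sqrt _ _ _).trans ?_
        rw [sum_norm_proj_sq]
        simp only [one_pow, Finset.sum_const, Finset.card_univ, nsmul_eq_mul, mul_one]
        exact mul_le_mul_of_nonneg_right (Real.sqrt_le_sqrt hk) (Real.sqrt_nonneg _)

/-- The trace is close to `lam * N` (take `S = T - lam`, `X = id`). -/
lemma tr_sub_le_of_near (T : Eu 𝕜 ι →ₗ[𝕜] Eu 𝕜 ι) {K c d : ℝ} (hc : 0 ≤ c) {lam : 𝕜}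
    (hT : ∀ i, ‖T (ev 𝕜 i)‖ ≤ K) (hlam : ‖lam‖ ≤ 2 * K)
    (hN : Near (fun i => T (ev 𝕜 i)) lam (c * Fintype.card ι) d) :
    ‖tr T - lam * Fintype.card ι‖ ≤ (3 * K * √c + d) * Fintype.card ι := by
  obtain ⟨U, hU, hd⟩ := hN
  have h1 := tr_comp_le_of_near (T - lam • LinearMap.id) LinearMap.id U (L₁ := 3 * K) (L₂ := 1) hU
    (fun i => by simpa using hd i) (fun i => trace_shift_le T hT hlam i) (fun i => by simp [norm_ev])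
  rw [LinearMap.comp_id, trace_tr_shift, trace_sqrt hc] at h1
  calc _ ≤ _ := h1
    _ = _ := by ring

/-- With `S = T - lam`: `tr (T²) - (tr T)² / N = tr (S²) - (tr S)² / N` (trivial if `N = 0`),
`‖S e i‖ ≤ 3 K`, `‖S (S e i)‖ ≤ 9 K²`. -/
lemma rigid_of_near (T : Eu 𝕜 ι →ₗ[𝕜] Eu 𝕜 ι) {K c d : ℝ} (hc : 0 ≤ c) {lam : 𝕜}
    (hT : ∀ i, ‖T (ev 𝕜 i)‖ ≤ K) (hT2 : ∀ i, ‖T (T (ev 𝕜 i))‖ ≤ K ^ 2) (hlam : ‖lam‖ ≤ 2 * K)
    (hN : Near (fun i => T (ev 𝕜 i)) lam (c * Fintype.card ι) d) :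
    ‖tr (T ∘ₗ T) - tr T ^ 2 / (Fintype.card ι : 𝕜)‖ ≤
      (9 * K ^ 2 * √c + 3 * K * d + (3 * K * √c + d) ^ 2) * Fintype.card ι := by
  have h0 := tr_sub_le_of_near T hc hT hlam hN
  obtain ⟨U, hU, hd⟩ := hN
  rcases isEmpty_or_nonempty ι with hι | ⟨⟨i₀⟩⟩
  · simp [tr_eq_sum]
  have hK : 0 ≤ K := (norm_nonneg _).trans (hT i₀)
  have hNpos : (0 : ℝ) < Fintype.card ι := by
    exact_mod_cast Fintype.card_pos_iff.mpr ⟨i₀⟩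
  have hN0 : (Fintype.card ι : 𝕜) ≠ 0 := by
    exact_mod_cast (Fintype.card_pos_iff.mpr ⟨i₀⟩).ne'
  set S : Eu 𝕜 ι →ₗ[𝕜] Eu 𝕜 ι := T - lam • LinearMap.id with hS
  have hSS : ∀ i, ‖S (S (ev 𝕜 i))‖ ≤ 9 * K ^ 2 := by
    intro i
    have e : S (S (ev 𝕜 i)) = T (T (ev 𝕜 i)) - (2 * lam) • T (ev 𝕜 i) + (lam * lam) • ev 𝕜 i := by
      simp only [hS, LinearMap.sub_apply, LinearMap.smul_apply, LinearMap.id_apply, map_sub,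
        map_smul]
      module
    rw [e]
    have a1 : ‖(2 * lam) • T (ev 𝕜 i)‖ ≤ 2 * (2 * K) * K := by
      rw [norm_smul, norm_mul, RCLike.norm_two]
      exact mul_le_mul (by linarith) (hT i) (norm_nonneg _) (by linarith)
    have a2 : ‖(lam * lam) • ev 𝕜 i‖ ≤ (2 * K) * (2 * K) := by
      rw [norm_smul, norm_mul, norm_ev, mul_one]
      exact mul_le_mul hlam hlam (norm_nonneg _) (by linarith)
    have a3 := norm_add_le (T (T (ev 𝕜 i)) - (2 * lam) • T (ev 𝕜 i)) ((lam * lam) • ev 𝕜 i)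
    have a4 := norm_sub_le (T (T (ev 𝕜 i))) ((2 * lam) • T (ev 𝕜 i))
    nlinarith [hT2 i]
  have h1 := tr_comp_le_of_near S S U (L₁ := 9 * K ^ 2) (L₂ := 3 * K) hU
    (fun i => by simpa [hS] using hd i) hSS (fun i => trace_shift_le T hT hlam i)
  rw [trace_sqrt hc] at h1
  have e1 : tr (S ∘ₗ S) = tr (T ∘ₗ T) - 2 * lam * tr T + lam * lam * Fintype.card ι := by
    have : S ∘ₗ S = T ∘ₗ T - (2 * lam) • T + (lam * lam) • LinearMap.id := by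
      refine LinearMap.ext fun x => ?_
      simp only [hS, LinearMap.comp_apply, LinearMap.sub_apply, LinearMap.add_apply,
        LinearMap.smul_apply, LinearMap.id_apply, map_sub, map_smul]
      module
    rw [this]
    simp [tr, LinearMap.trace_id]
  have e2 : tr (T ∘ₗ T) - tr T ^ 2 / (Fintype.card ι : 𝕜)
      = tr (S ∘ₗ S) - (tr T - lam * Fintype.card ι) ^ 2 / (Fintype.card ι : 𝕜) := by
    rw [e1]; field_simp; ring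
  rw [e2]
  refine (norm_sub_le _ _).trans ?_
  have h2 : ‖(tr T - lam * Fintype.card ι) ^ 2 / (Fintype.card ι : 𝕜)‖
      ≤ (3 * K * √c + d) ^ 2 * Fintype.card ι := by
    rw [norm_div, norm_pow, RCLike.norm_natCast, div_le_iff₀ hNpos]
    calc _ ≤ ((3 * K * √c + d) * Fintype.card ι) ^ 2 := pow_le_pow_left₀ (norm_nonneg _) h0 2
      _ = _ := by ring
  calc _ ≤ _ := add_le_add h1 h2
    _ = _ := by ring

end

end Pool.Agent.Lib.MP_e0f470_an
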