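import Pool.Agent.Lib.MP_e0f470_an.Lift
import Pool.Agent.Lib.MP_e0f470_an.Sud
import Pool.Agent.Lib.MP_e0f470_an.Trace

/-! The push-out renorming. -/

set_option autoImplicit false

namespace Pool.Agent.Lib.MP_e0f470_an

open Finset
open scoped BigOperators

variable {𝕜 : Type*} [RCLike 𝕜]

universe v w

lemma push_liftC_pos {c₀ : ℝ} (hc₀ : 0 < c₀) : 0 < liftC c₀ := by
  unfold liftC linC
  positivity

lemma push_sqrt_sq {m : ℕ} (hm : 0 < m) :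
    (m : 𝕜) * (((√m : ℝ) : 𝕜)⁻¹ * ((√m : ℝ) : 𝕜)⁻¹) = 1 := by
  have h0 : (0 : ℝ) < √m := Real.sqrt_pos.2 (by exact_mod_cast hm)
  have h1 : ((√m : ℝ) : 𝕜) ≠ 0 := by exact_mod_cast h0.ne'
  have h2 : ((√m : ℝ) : 𝕜) * ((√m : ℝ) : 𝕜) = m := by
    rw [← RCLike.ofReal_mul, Real.mul_self_sqrt (Nat.cast_nonneg m)]
    simp
  rw [← h2]
  field_simp

lemma push_tr_bar {W : Type*} [AddCommGroup W] [Module 𝕜 W] {r m : ℕ}
    (B : W →ₗ[𝕜] Eu 𝕜 (Fin r)) (x : Fin r × Fin m → W) :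
    tr (B ∘ₗ bar x) = ∑ kl : Fin r × Fin m, ((√m : ℝ) : 𝕜)⁻¹ * B (x kl) kl.1 := by
  rw [tr_eq_sum]
  simp only [LinearMap.comp_apply, bar_apply, map_sum, map_smul, WithLp.ofLp_sum, Finset.sum_apply,
    WithLp.ofLp_smul, Pi.smul_apply, smul_eq_mul]
  rw [Finset.sum_comm]
  refine Finset.sum_congr rfl fun kl _ => ?_
  rw [Finset.sum_eq_single kl.1]
  · rw [ev_apply]; simp
  · intro b _ hb
    rw [ev_apply, if_neg (Ne.symm hb)]; simp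
  · simp

lemma push_bar_eq {W : Type*} [AddCommGroup W] [Module 𝕜 W] {r m : ℕ} (hm : 0 < m)
    (A' : Eu 𝕜 (Fin r) →ₗ[𝕜] W) :
    bar (fun kl : Fin r × Fin m => ((√m : ℝ) : 𝕜)⁻¹ • A' (ev 𝕜 kl.1)) = A' := by
  refine LinearMap.ext fun a => ?_
  rw [bar_apply, Fintype.sum_prod_type]
  conv_rhs => rw [← sum_ev a, map_sum]
  refine Finset.sum_congr rfl fun k _ => ?_
  simp only [Finset.sum_const, Finset.card_univ, Fintype.card_fin, smul_smul, map_smul]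
  rw [← Nat.cast_smul_eq_nsmul 𝕜, smul_smul]
  congr 1
  have := push_sqrt_sq (𝕜 := 𝕜) hm
  linear_combination (a k) * this

lemma push_tr_smul {ι : Type} (c : 𝕜) (T : Eu 𝕜 ι →ₗ[𝕜] Eu 𝕜 ι) : tr (c • T) = c • tr T :=
  map_smul _ c T

lemma push_tr_add {ι : Type} (S T : Eu 𝕜 ι →ₗ[𝕜] Eu 𝕜 ι) : tr (S + T) = tr S + tr T :=
  map_add _ S T

lemma push_scale {W : Type*} [AddCommGroup W] [Module 𝕜 W] {r : ℕ} (p : Seminorm 𝕜 W)
    (B : W →ₗ[𝕜] Eu 𝕜 (Fin r)) (hB : ∀ x, ‖B x‖ ≤ p x) {D : ℝ}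
    (hH : ∀ A' : Eu 𝕜 (Fin r) →ₗ[𝕜] W, (∀ a, p (A' a) ≤ ‖a‖) → ‖tr (B ∘ₗ A')‖ ≤ D)
    (A' : Eu 𝕜 (Fin r) →ₗ[𝕜] W) {β : ℝ} (hβ : 0 ≤ β) (hA : ∀ a, p (A' a) ≤ β * ‖a‖) :
    ‖tr (B ∘ₗ A')‖ ≤ β * D := by
  rcases hβ.eq_or_lt with h | h
  · subst h
    have : B ∘ₗ A' = 0 := by
      refine LinearMap.ext fun a => ?_
      have h1 := (hB (A' a)).trans (hA a)
      rw [zero_mul] at h1
      simpa using norm_le_zero_iff.1 h1
    simp [this]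
  · have h1 := hH (((β⁻¹ : ℝ) : 𝕜) • A') fun a => by
      rw [LinearMap.smul_apply, map_smul_eq_mul, RCLike.norm_ofReal,
        abs_of_pos (inv_pos.2 h), inv_mul_le_iff₀ h]
      exact hA a
    rw [LinearMap.comp_smul, push_tr_smul, norm_smul, RCLike.norm_ofReal,
      abs_of_pos (inv_pos.2 h), inv_mul_le_iff₀ h] at h1
    exact h1

/-- The trace estimate for one operator. Let `C₂ = liftC c₀`. Apply `lift` to
`y kl = (√m)⁻¹ • A' (ev kl.1)`. Since `tr (B A') = ∑ kl, (√m)⁻¹ * B (y kl) kl.1`, it equals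
`tr (B ∘ bar x) + ∑ α ω, ∑ kl, (√m)⁻¹ * e kl α ω * B (spec ω) kl.1`. Each inner sum is at most
`√(∑ ‖e kl α ω‖²) * ‖B (spec ω)‖ ≤ 2 𝔼 ‖rs e‖` (`khin1`). For the first term take `U` from
`sud_subspace`, `P = U.starProjection`: `tr (B bar P)` is bounded by `tr_comp_proj_le` and `bar_le`,
and `tr (B bar (1 - P))` by `hH` applied to the rescaled operator (if `𝔼 p (rs x) = 0` use any
positive upper bound for it, or note that the operator can be scaled arbitrarily). -/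
lemma push_trace {W : Type*} [AddCommGroup W] [Module 𝕜 W] {r m : ℕ} (hm : 0 < m)
    (p : Seminorm 𝕜 W) {Γ : Type*} [Fintype Γ] (A : Γ → Eu 𝕜 (Fin r) →ₗ[𝕜] W)
    (hA : ∀ α a, p (A α a) ≤ ‖a‖) (u : Γ → Finset (Fin r) → W) (hu : ∀ α S, p (u α S) ≤ 1)
    {c₀ : ℝ} (hc₀ : 0 < c₀)
    (hl : ∀ h : Γ → Finset (Fin r) → 𝕜,
      c₀ * ∑ α, ∑ S, ‖h α S‖ ≤ p (∑ α, ∑ S, h α S • u α S))
    {t CH : ℝ} (ht : 0 < t) (htm : t ^ 2 ≤ m) {k : ℕ} (hk : Real.exp (t ^ 2) ≤ k) (hCH : 0 ≤ CH)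
    (B : W →ₗ[𝕜] Eu 𝕜 (Fin r)) (hB : ∀ x, ‖B x‖ ≤ p x)
    (hBs : ∀ α ω, ‖B (spec (4 / c₀) (A α) (u α) ω)‖ ≤ 1)
    (hH : ∀ A' : Eu 𝕜 (Fin r) →ₗ[𝕜] W, (∀ a, p (A' a) ≤ ‖a‖) → ‖tr (B ∘ₗ A')‖ ≤ CH * √r)
    (A' : Eu 𝕜 (Fin r) →ₗ[𝕜] W) (w : Cube (Fin r × Fin m) → W)
    (c : Cube (Fin r × Fin m) → Γ → Cube (Fin r) → 𝕜) (hc' : ∀ ε α ω, c (neg ε) α ω = -c ε α ω)
    (hrep : ∀ ε, rs (fun kl : Fin r × Fin m => ((√m : ℝ) : 𝕜)⁻¹ • A' (ev 𝕜 kl.1)) ε =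
      w ε + ∑ α, ∑ ω, c ε α ω • spec (4 / c₀) (A α) (u α) ω) :
    ‖tr (B ∘ₗ A')‖ ≤ (2 + 2 * k + 4 * CH * √r / t) * liftC c₀ *
      𝔼 ε, (p (w ε) + ∑ α, ∑ ω, ‖c ε α ω‖) := by
  obtain ⟨x, e, hy, hx, he⟩ := lift p A hA u hu hc₀ hl _ w c hc' hrep
  set T := liftC c₀ * 𝔼 ε, (p (w ε) + ∑ α, ∑ ω, ‖c ε α ω‖) with hT
  set E := 𝔼 ε, p (rs x ε) with hE
  have hE0 : 0 ≤ E := Finset.expect_nonneg fun ε _ => apply_nonneg _ _
  have hsplit : tr (B ∘ₗ A') = tr (B ∘ₗ bar x) +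
      ∑ α, ∑ ω, bar (fun kl => e kl α ω) (B (spec (4 / c₀) (A α) (u α) ω)) := by
    conv_lhs => rw [← push_bar_eq hm A']
    rw [push_tr_bar, push_tr_bar]
    simp only [bar_apply]
    have h1 : ∀ kl : Fin r × Fin m,
        ((√m : ℝ) : 𝕜)⁻¹ * B (((√m : ℝ) : 𝕜)⁻¹ • A' (ev 𝕜 kl.1)) kl.1 =
        ((√m : ℝ) : 𝕜)⁻¹ * B (x kl) kl.1 + ∑ α, ∑ ω,
          (B (spec (4 / c₀) (A α) (u α) ω) kl.1 * ((√m : ℝ) : 𝕜)⁻¹) • e kl α ω := by
      intro kl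
      rw [hy kl]
      simp only [map_add, map_sum, map_smul, WithLp.ofLp_add, WithLp.ofLp_sum, Pi.add_apply,
        Finset.sum_apply, WithLp.ofLp_smul, Pi.smul_apply, smul_eq_mul, mul_add, Finset.mul_sum]
      congr 1
      refine Finset.sum_congr rfl fun α _ => Finset.sum_congr rfl fun ω _ => ?_
      ring
    rw [Finset.sum_congr rfl fun kl _ => h1 kl, Finset.sum_add_distrib]
    congr 1
    rw [Finset.sum_comm]
    refine Finset.sum_congr rfl fun α _ => ?_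
    rw [Finset.sum_comm]
  have h2 : ‖∑ α, ∑ ω, bar (fun kl => e kl α ω) (B (spec (4 / c₀) (A α) (u α) ω))‖ ≤ 2 * T := by
    refine (norm_sum_le _ _).trans ?_
    refine le_trans ?_ (mul_le_mul_of_nonneg_left he (by norm_num))
    rw [Finset.mul_sum]
    refine Finset.sum_le_sum fun α _ => (norm_sum_le _ _).trans ?_
    rw [Finset.mul_sum]
    refine Finset.sum_le_sum fun ω _ => ?_
    have h3 := bar_le hm (normSeminorm 𝕜 𝕜) (fun kl => e kl α ω)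
      (B (spec (4 / c₀) (A α) (u α) ω))
    simp only [coe_normSeminorm] at h3
    refine h3.trans ?_
    have h4 : 0 ≤ 𝔼 ε : Cube (Fin r × Fin m), ‖rs (fun kl => e kl α ω) ε‖ :=
      Finset.expect_nonneg fun ε _ => norm_nonneg _
    calc _ ≤ 2 * (𝔼 ε : Cube (Fin r × Fin m), ‖rs (fun kl => e kl α ω) ε‖) * 1 := by
          gcongr; exact hBs α ω
      _ = _ := mul_one _
  obtain ⟨U, hU, hUo⟩ := sud_subspace hm p x ht htm hk
  have h3 : ‖tr ((B ∘ₗ bar x) ∘ₗ (U.starProjection : Eu 𝕜 (Fin r) →ₗ[𝕜] Eu 𝕜 (Fin r)))‖ ≤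
      2 * k * T := by
    refine (tr_comp_proj_le (B ∘ₗ bar x) (β := 2 * E) (by positivity) (fun a => ?_) U).trans ?_
    · exact (hB _).trans (bar_le hm p x a)
    · have : (Module.finrank 𝕜 U : ℝ) ≤ k := by exact_mod_cast hU
      calc 2 * E * (Module.finrank 𝕜 U : ℝ) ≤ 2 * T * k := by
            have := hE0.trans hx
            gcongr
        _ = _ := by ring
  have h4 : ‖tr (B ∘ₗ (bar x ∘ₗ (LinearMap.id -
      (U.starProjection : Eu 𝕜 (Fin r) →ₗ[𝕜] Eu 𝕜 (Fin r)))))‖ ≤ 4 * CH * √r / t * T := by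
    refine (push_scale p B hB hH _ (β := 4 * E / t) (by positivity) fun a => ?_).trans ?_
    · have h5 := hUo (a - U.starProjection a) (Submodule.sub_starProjection_mem_orthogonal a)
      have h6 := norm_sub_proj_le U a U.zero_mem
      rw [sub_zero] at h6
      rw [div_mul_eq_mul_div, le_div_iff₀ ht, mul_comm]
      refine le_trans (le_of_eq ?_) (h5.trans ?_)
      · rfl
      · gcongr
    · calc 4 * E / t * (CH * √r) ≤ 4 * T / t * (CH * √r) := by gcongr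
        _ = _ := by ring
  have h5 : tr (B ∘ₗ bar x) =
      tr ((B ∘ₗ bar x) ∘ₗ (U.starProjection : Eu 𝕜 (Fin r) →ₗ[𝕜] Eu 𝕜 (Fin r))) +
      tr (B ∘ₗ (bar x ∘ₗ (LinearMap.id -
        (U.starProjection : Eu 𝕜 (Fin r) →ₗ[𝕜] Eu 𝕜 (Fin r))))) := by
    rw [← push_tr_add]
    congr 1
    refine LinearMap.ext fun a => ?_
    simp
  rw [hsplit, h5, mul_assoc, ← hT]
  refine (norm_add_le _ _).trans ?_
  have h6 := norm_add_le (tr ((B ∘ₗ bar x) ∘ₗ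
    (U.starProjection : Eu 𝕜 (Fin r) →ₗ[𝕜] Eu 𝕜 (Fin r)))) (tr (B ∘ₗ (bar x ∘ₗ (LinearMap.id -
        (U.starProjection : Eu 𝕜 (Fin r) →ₗ[𝕜] Eu 𝕜 (Fin r))))))
  linarith

lemma push_sum_ite {Γ Ω M : Type*} [DecidableEq Γ] [Fintype Ω] [DecidableEq Ω] [AddCommMonoid M]
    (Γ₀ : Finset Γ) (F : Finset (Γ × Ω)) (hF : ∀ a ∈ F, a.1 ∈ Γ₀) (g : Γ × Ω → M) :
    ∑ α : Γ₀, ∑ ω, (if (α.1, ω) ∈ F then g (α.1, ω) else 0) = ∑ a ∈ F, g a := by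
  rw [Finset.sum_coe_sort Γ₀ fun α => ∑ ω, (if (α, ω) ∈ F then g (α, ω) else 0),
    ← Finset.sum_product' Γ₀ Finset.univ fun α ω => if (α, ω) ∈ F then g (α, ω) else 0]
  simp only [Prod.mk.eta]
  rw [Finset.sum_ite_mem, Finset.inter_eq_right.2]
  intro a ha
  exact Finset.mem_product.2 ⟨hF a ha, Finset.mem_univ _⟩

/-- The normalised form of the estimate for the hull seminorm. -/
lemma push_core {W : Type*} [AddCommGroup W] [Module 𝕜 W] {r m : ℕ} (hm : 0 < m)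
    (p p' : Seminorm 𝕜 W) {Γ : Type*} (A : Γ → Eu 𝕜 (Fin r) →ₗ[𝕜] W)
    (hA : ∀ α a, p (A α a) ≤ ‖a‖) (u : Γ → Finset (Fin r) → W) (hu : ∀ α S, p (u α S) ≤ 1)
    {c₀ : ℝ} (hc₀ : 0 < c₀)
    (hl : ∀ (F : Finset Γ) (h : Γ → Finset (Fin r) → 𝕜),
      c₀ * ∑ α ∈ F, ∑ S, ‖h α S‖ ≤ p (∑ α ∈ F, ∑ S, h α S • u α S))
    {t CH : ℝ} (ht : 0 < t) (htm : t ^ 2 ≤ m) {k : ℕ} (hk : Real.exp (t ^ 2) ≤ k) (hCH : 0 ≤ CH)
    (hp' : ∀ (x : W) (κ : ℝ), 0 < κ → ∃ (F : Finset (Γ × Cube (Fin r)))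
      (c : Γ × Cube (Fin r) → 𝕜) (w : W),
        x = w + ∑ a ∈ F, c a • spec (4 / c₀) (A a.1) (u a.1) a.2 ∧
          p w + ∑ a ∈ F, ‖c a‖ ≤ p' x + κ)
    (B : W →ₗ[𝕜] Eu 𝕜 (Fin r)) (hB : ∀ x, ‖B x‖ ≤ p x)
    (hBs : ∀ α ω, ‖B (spec (4 / c₀) (A α) (u α) ω)‖ ≤ 1)
    (hH : ∀ A' : Eu 𝕜 (Fin r) →ₗ[𝕜] W, (∀ a, p (A' a) ≤ ‖a‖) → ‖tr (B ∘ₗ A')‖ ≤ CH * √r)
    (A' : Eu 𝕜 (Fin r) →ₗ[𝕜] W) {κ : ℝ} (hκ : 0 < κ) :
    ‖tr (B ∘ₗ A')‖ ≤ (2 + 2 * k + 4 * CH * √r / t) * liftC c₀ * (ell m p' A' + κ) := by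
  classical
  set y : Fin r × Fin m → W := fun kl => ((√m : ℝ) : 𝕜)⁻¹ • A' (ev 𝕜 kl.1) with hy
  choose F c0 w0 hrep hcost using fun ε : Cube (Fin r × Fin m) => hp' (rs y ε) κ hκ
  set Γ₀ : Finset Γ := Finset.univ.biUnion fun ε => (F ε).image Prod.fst with hΓ₀
  have hF : ∀ ε, ∀ a ∈ F ε, a.1 ∈ Γ₀ := fun ε a ha =>
    Finset.mem_biUnion.2 ⟨ε, Finset.mem_univ _, Finset.mem_image_of_mem _ ha⟩
  set c1 : Cube (Fin r × Fin m) → Γ₀ → Cube (Fin r) → 𝕜 :=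
    fun ε α ω => if (α.1, ω) ∈ F ε then c0 ε (α.1, ω) else 0 with hc1
  have hrep1 : ∀ ε, rs y ε = w0 ε + ∑ α : Γ₀, ∑ ω,
      c1 ε α ω • spec (4 / c₀) (A α.1) (u α.1) ω := by
    intro ε
    rw [hrep ε, ← push_sum_ite Γ₀ (F ε) (hF ε)]
    congr 1
    refine Finset.sum_congr rfl fun α _ => Finset.sum_congr rfl fun ω _ => ?_
    simp only [hc1]
    split_ifs <;> simp
  have hcost1 : ∀ ε, p (w0 ε) + ∑ α : Γ₀, ∑ ω, ‖c1 ε α ω‖ ≤ p' (rs y ε) + κ := by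
    intro ε
    refine le_trans (le_of_eq ?_) (hcost ε)
    rw [← push_sum_ite Γ₀ (F ε) (hF ε)]
    congr 1
    refine Finset.sum_congr rfl fun α _ => Finset.sum_congr rfl fun ω _ => ?_
    simp only [hc1]
    split_ifs <;> simp
  have h2 : ‖(2 : 𝕜)⁻¹‖ = 1 / 2 := by simp
  have key := push_trace hm p (Γ := Γ₀) (fun α => A α.1) (fun α => hA α.1) (fun α => u α.1)
    (fun α => hu α.1) hc₀ (fun h => by
      have h3 := hl Γ₀ fun α S => if hα : α ∈ Γ₀ then h ⟨α, hα⟩ S else 0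
      rw [← Finset.sum_coe_sort Γ₀, ← Finset.sum_coe_sort Γ₀] at h3
      simpa using h3) ht htm hk hCH B hB (fun α => hBs α.1) hH A'
    (fun ε => (2 : 𝕜)⁻¹ • (w0 ε - w0 (neg ε)))
    (fun ε α ω => (2 : 𝕜)⁻¹ * (c1 ε α ω - c1 (neg ε) α ω))
    (fun ε α ω => by rw [neg_neg_cube]; ring)
    (fun ε => by
      have e1 := hrep1 ε
      have e2 := hrep1 (neg ε)
      rw [rs_neg] at e2
      have e3 : rs y ε = (2 : 𝕜)⁻¹ • (rs y ε - -rs y ε) := by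
        rw [sub_neg_eq_add, ← two_smul 𝕜, smul_smul, inv_mul_cancel₀ two_ne_zero, one_smul]
      change rs y ε = _
      rw [e3, e2]
      conv_lhs => rw [e1]
      simp only [mul_smul, sub_smul, ← Finset.smul_sum, Finset.sum_sub_distrib, smul_sub, smul_add]
      abel)
  refine key.trans (mul_le_mul_of_nonneg_left ?_ ?_)
  · have h4 : ∀ ε, p ((2 : 𝕜)⁻¹ • (w0 ε - w0 (neg ε))) +
        ∑ α : Γ₀, ∑ ω, ‖(2 : 𝕜)⁻¹ * (c1 ε α ω - c1 (neg ε) α ω)‖ ≤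
        1 / 2 * (p' (rs y ε) + κ) + 1 / 2 * (p' (rs y (neg ε)) + κ) := by
      intro ε
      have a1 : p ((2 : 𝕜)⁻¹ • (w0 ε - w0 (neg ε))) ≤ 1 / 2 * (p (w0 ε) + p (w0 (neg ε))) := by
        rw [map_smul_eq_mul, h2]
        gcongr
        exact map_sub_le_add p _ _
      have a2 : ∑ α : Γ₀, ∑ ω, ‖(2 : 𝕜)⁻¹ * (c1 ε α ω - c1 (neg ε) α ω)‖ ≤
          1 / 2 * (∑ α : Γ₀, ∑ ω, ‖c1 ε α ω‖ + ∑ α : Γ₀, ∑ ω, ‖c1 (neg ε) α ω‖) := by
        rw [← Finset.sum_add_distrib, Finset.mul_sum]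
        refine Finset.sum_le_sum fun α _ => ?_
        rw [← Finset.sum_add_distrib, Finset.mul_sum]
        refine Finset.sum_le_sum fun ω _ => ?_
        rw [norm_mul, h2]
        gcongr
        exact norm_sub_le _ _
      have a3 := hcost1 ε
      have a4 := hcost1 (neg ε)
      linarith
    refine (Finset.expect_le_expect fun ε _ => h4 ε).trans (le_of_eq ?_)
    rw [Finset.expect_add_distrib, ← Finset.mul_expect, ← Finset.mul_expect,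
      expect_neg fun ε => p' (rs y ε) + κ, Finset.expect_add_distrib,
      Finset.expect_const Finset.univ_nonempty]
    unfold ell
    ring
  · have := push_liftC_pos hc₀
    positivity

/-- The push-out theorem. Choose `t` with `4 CH C₂ / t ≤ δ / 2`, `k ≥ exp (t²)`, `m ≥ t²`, `r` with
`(2 + 2 k) C₂ ≤ δ / 2 * √r`, `M = 1 + √r + 4 / c₀ * 2 ^ r`. Let `p'` come from `exists_hull p` for
the family `(α, ω) ↦ spec (4 / c₀) (A α) (u α) ω`; `p ≤ M p'` by `spec_le`. To prove `PP`, reduce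
to `β = 1` (for `β = 0` the operator `B` vanishes). Fix `κ > 0`, choose for each `ε` a
representation `(F ε, c₀ ε, w₀ ε)` of `rs y ε` with cost at most `p' (rs y ε) + κ`, extend the
coefficients by zero to the finite set `Γ₀` of all first components that occur, symmetrise
(`c ε = (c₀ ε - c₀ (neg ε)) / 2`, same for `w`; `rs_neg`, `expect_neg`) and apply `push_trace` with
the index type `Γ₀` (`tr_le_of_spec` and `hH` give its hypothesis `hH`). Let `κ → 0`. -/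
theorem push {c₀ CH δ : ℝ} (hc₀ : 0 < c₀) (hCH : 0 < CH) (hδ : 0 < δ) :
    ∃ r m : ℕ, 0 < r ∧ 0 < m ∧ ∃ M : ℝ, 1 ≤ M ∧
      ∀ (W : Type v) [AddCommGroup W] [Module 𝕜 W] (p : Seminorm 𝕜 W) (Γ : Type w)
        (A : Γ → Eu 𝕜 (Fin r) →ₗ[𝕜] W) (u : Γ → Finset (Fin r) → W),
        (∀ α a, p (A α a) ≤ ‖a‖) → (∀ α S, p (u α S) ≤ 1) →
        (∀ (F : Finset Γ) (h : Γ → Finset (Fin r) → 𝕜),
          c₀ * ∑ α ∈ F, ∑ S, ‖h α S‖ ≤ p (∑ α ∈ F, ∑ S, h α S • u α S)) →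
        (∀ B : W →ₗ[𝕜] Eu 𝕜 (Fin r), (∀ x, ‖B x‖ ≤ p x) → (∀ α, ‖tr (B ∘ₗ A α)‖ ≤ √r) →
          ∀ A' : Eu 𝕜 (Fin r) →ₗ[𝕜] W, (∀ a, p (A' a) ≤ ‖a‖) → ‖tr (B ∘ₗ A')‖ ≤ CH * √r) →
        ∃ p' : Seminorm 𝕜 W, (∀ x, p' x ≤ p x ∧ p x ≤ M * p' x) ∧ PP r m δ p' := by
  have hC := push_liftC_pos hc₀
  set C := liftC c₀ with hCdef
  set t : ℝ := 8 * CH * C / δ with ht
  have ht0 : 0 < t := by positivity
  set k : ℕ := ⌈Real.exp (t ^ 2)⌉₊ with hk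
  set m : ℕ := ⌈t ^ 2⌉₊ + 1 with hm
  set r : ℕ := ⌈(2 * (2 + 2 * k) * C / δ) ^ 2⌉₊ + 1 with hr
  have hm0 : 0 < m := Nat.succ_pos _
  have htm : t ^ 2 ≤ m := by
    rw [hm]; push_cast; linarith [Nat.le_ceil (t ^ 2)]
  have hrr : 2 * (2 + 2 * k) * C / δ ≤ √r := by
    refine Real.le_sqrt_of_sq_le ?_
    rw [hr]; push_cast; linarith [Nat.le_ceil ((2 * (2 + 2 * k) * C / δ) ^ 2)]
  have hconst : (2 + 2 * k + 4 * CH * √r / t) * C ≤ δ * √r := by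
    rw [div_le_iff₀ hδ] at hrr
    have e : 4 * CH * √r / t * C = δ / 2 * √r := by
      rw [ht]; field_simp; ring
    rw [add_mul, e]
    linarith
  have hη : 0 ≤ 4 / c₀ := by positivity
  refine ⟨r, m, Nat.succ_pos _, hm0, 1 + √r + 4 / c₀ * 2 ^ r, ?_, ?_⟩
  · have : 0 ≤ 4 / c₀ * 2 ^ r := by positivity
    linarith [Real.sqrt_nonneg (r : ℝ)]
  intro W _ _ p Γ A u hA hu hl hH
  obtain ⟨p', hle, hs, hp'⟩ := exists_hull p
    fun a : Γ × Cube (Fin r) => spec (4 / c₀) (A a.1) (u a.1) a.2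
  refine ⟨p', fun x => ⟨hle x, ?_⟩, ?_⟩
  · set M : ℝ := 1 + √r + 4 / c₀ * 2 ^ r with hM
    have hM2 : 0 ≤ √r + 4 / c₀ * 2 ^ r := by positivity
    have hM1 : 1 ≤ M := by rw [hM]; linarith
    have hM0 : 0 < M := by linarith
    refine le_of_forall_pos_le_add fun κ hκ => ?_
    obtain ⟨F, c, w, hx, hcost⟩ := hp' x (κ / M) (by positivity)
    have h1 : p x ≤ p w + ∑ a ∈ F, ‖c a‖ * M := by
      rw [hx]
      refine (map_add_le_add p _ _).trans (add_le_add le_rfl ?_)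
      refine (Finset.le_sum_of_subadditive p (map_zero p).le (map_add_le_add p) F _).trans ?_
      refine Finset.sum_le_sum fun a _ => ?_
      rw [map_smul_eq_mul]
      gcongr
      refine (spec_le p hη (A a.1) (hA a.1) (u a.1) (hu a.1) a.2).trans ?_
      rw [hM]; linarith
    rw [← Finset.sum_mul] at h1
    have h2 : p w ≤ p w * M := le_mul_of_one_le_right (apply_nonneg _ _) hM1
    have h3 : (p w + ∑ a ∈ F, ‖c a‖) * M ≤ (p' x + κ / M) * M := by gcongr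
    have h4 : (p' x + κ / M) * M = M * p' x + κ := by field_simp
    nlinarith
  · intro A' B β hβ hB
    rcases hβ.eq_or_lt with h | h
    · subst h
      have : B = 0 := by
        refine LinearMap.ext fun a => ?_
        have h1 := hB a
        rw [zero_mul] at h1
        simpa using norm_le_zero_iff.1 h1
      simp [this]
    · set B' : W →ₗ[𝕜] Eu 𝕜 (Fin r) := ((β⁻¹ : ℝ) : 𝕜) • B with hB'
      have h1 : ∀ x, ‖B' x‖ ≤ p' x := fun x => by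
        rw [hB', LinearMap.smul_apply, norm_smul, RCLike.norm_ofReal,
          abs_of_pos (inv_pos.2 h), inv_mul_le_iff₀ h]
        exact hB x
      have h2 : ∀ α ω, ‖B' (spec (4 / c₀) (A α) (u α) ω)‖ ≤ 1 := fun α ω =>
        (h1 _).trans (hs (α, ω))
      have h3 : ∀ x, ‖B' x‖ ≤ p x := fun x => (h1 x).trans (hle x)
      have h4 := hH B' h3 fun α => tr_le_of_spec _ (A α) (u α) B' (h2 α)
      have hell : 0 ≤ ell m p' A' := Finset.expect_nonneg fun ε _ => apply_nonneg _ _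
      have h5 : ‖tr (B' ∘ₗ A')‖ ≤ δ * √r * ell m p' A' := by
        have hD : 0 < δ * √r := by
          have : (0 : ℝ) < r := by exact_mod_cast Nat.succ_pos _
          positivity
        refine le_of_forall_pos_le_add fun κ hκ => ?_
        have h6 := push_core hm0 p p' A hA u hu hc₀ hl ht0 htm (Nat.le_ceil _) hCH.le hp' B' h3 h2
          h4 A' (κ := κ / (δ * √r)) (by positivity)
        refine h6.trans ?_
        calc _ ≤ δ * √r * (ell m p' A' + κ / (δ * √r)) := by gcongr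
          _ = _ := by rw [mul_add, mul_div_cancel₀ _ hD.ne']
      rw [hB', LinearMap.smul_comp, push_tr_smul, norm_smul, RCLike.norm_ofReal,
        abs_of_pos (inv_pos.2 h), inv_mul_le_iff₀ h] at h5
      calc _ ≤ _ := h5
        _ = _ := by ring

end Pool.Agent.Lib.MP_e0f470_an
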