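import Pool.Agent.Lib.MP_e0f470_an.LpFar
import Pool.Agent.Lib.MP_e0f470_an.Push
import Pool.Agent.Lib.MP_e0f470_an.SmallB

/-! Renorming one block. -/

set_option autoImplicit false

namespace Pool.Agent.Lib.MP_e0f470_an

open Finset Filter Topology
open scoped BigOperators ENNReal

variable {𝕜 : Type*} [RCLike 𝕜]

universe v

variable {p : ℝ≥0∞} [Fact (1 ≤ p)]

section aux
variable {E : Type*} [NormedAddCommGroup E] [NormedSpace 𝕜 E] {q : Seminorm 𝕜 E}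
  {P : ℕ → E →ₗ[𝕜] E} {K₀ : ℝ}

lemma lpblk_pi_apply (B : Blk q P K₀) (x : E) :
    B.pi x = P B.hi x - P B.lo x - B.a (B.b x) := rfl

lemma lpblk_hi_pi (h : LpDec p q P) (B : Blk q P K₀) (x : E) : P B.hi (B.pi x) = B.pi x := by
  rw [lpblk_pi_apply, map_sub, map_sub, h.comp, h.comp, B.a_hi, min_self, min_eq_right B.lt.le]

lemma lpblk_lo_pi (h : LpDec p q P) (B : Blk q P K₀) (x : E) : P B.lo (B.pi x) = 0 := by
  rw [lpblk_pi_apply, map_sub, map_sub, h.comp, h.comp, B.a_lo, min_self, min_eq_left B.lt.le]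
  simp

lemma lpblk_b_pi (B : Blk q P K₀) (x : E) : B.b (B.pi x) = 0 := by
  rw [lpblk_pi_apply, map_sub, ← B.b_loc, B.ba, sub_self]

lemma lpblk_pi_pi (h : LpDec p q P) (B : Blk q P K₀) (x : E) : B.pi (B.pi x) = B.pi x := by
  rw [lpblk_pi_apply B (B.pi x), lpblk_hi_pi h, lpblk_lo_pi h, lpblk_b_pi]
  simp

lemma lpblk_b_pi' (h : LpDec p q P) (B B' : Blk q P K₀) (hlo : B'.lo = B.hi) (x : E) :
    B'.b (B.pi x) = 0 := by
  have h1 : P B'.hi (B.pi x) = B.pi x := by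
    rw [← lpblk_hi_pi h B x, h.comp, min_eq_right (hlo ▸ B'.lt.le)]
  rw [B'.b_loc, h1, hlo, lpblk_hi_pi h, sub_self, map_zero]

lemma lpblk_pi_a (h : LpDec p q P) (B B' : Blk q P K₀) (hlo : B'.lo = B.hi)
    (c : Fin B'.L → 𝕜) : B.pi (B'.a c) = 0 := by
  have h1 : P B.hi (B'.a c) = 0 := hlo ▸ B'.a_lo c
  have h2 : P B.lo (B'.a c) = 0 := by
    have := h.comp B.lo B.hi (B'.a c)
    rw [h1, map_zero, min_eq_left B.lt.le] at this
    exact this.symm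
  rw [lpblk_pi_apply, B.b_loc, h1, h2]
  simp

lemma lpblk_sn_pi (h : LpDec p q P) (B B' : Blk q P K₀) (hlo : B'.lo = B.hi) (x : E) :
    B.sn B' (B.pi x) = q (B.pi x) := by
  rw [Blk.sn_apply, lpblk_pi_pi h, lpblk_b_pi' h B B' hlo]
  simp

lemma lpblk_sn_a (h : LpDec p q P) (B B' : Blk q P K₀) (hlo : B'.lo = B.hi)
    (c : Fin B'.L → 𝕜) : B.sn B' (B'.a c) = ∑ i, ‖c i‖ := by
  rw [Blk.sn_apply, lpblk_pi_a h B B' hlo, B'.ba]
  simp

lemma lpblk_sn_single (h : LpDec p q P) (B B' : Blk q P K₀) (hlo : B'.lo = B.hi)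
    (l : Fin B'.L) : B.sn B' (B'.a (Pi.single l 1)) = 1 := by
  rw [lpblk_sn_a h B B' hlo, Finset.sum_eq_single l]
  · simp
  · intro i _ hi
    simp [hi]
  · simp

lemma lpblk_sn_rest (h : LpDec p q P) (B B' : Blk q P K₀) (hlo : B'.lo = B.hi) (x : E) :
    B.sn B' (x - B.pi x - B'.a (B'.b x)) = 0 := by
  rw [Blk.sn_apply, map_sub B.pi, map_sub B.pi, map_sub B'.b, map_sub B'.b, lpblk_pi_pi h,
    lpblk_pi_a h B B' hlo, lpblk_b_pi' h B B' hlo, B'.ba]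
  simp

end aux

/-- The trace of an operator on Euclidean space that factors through `ℓ¹`. -/
lemma lpblk_tr_le {r L : ℕ} (X : (Fin L → 𝕜) →ₗ[𝕜] Eu 𝕜 (Fin r))
    (Y : Eu 𝕜 (Fin r) →ₗ[𝕜] (Fin L → 𝕜)) (hX : ∀ l, ‖X (Pi.single l 1)‖ ≤ 1)
    (hY : ∀ a, ∑ l, ‖Y a l‖ ≤ ‖a‖) : ‖tr (X ∘ₗ Y)‖ ≤ 2 * √(r : ℝ) := by
  have h1 : tr (X ∘ₗ Y) = ∑ l, ∑ k, Y (ev 𝕜 k) l * X (Pi.single l 1) k := by
    rw [tr_eq_sum, Finset.sum_comm]
    refine Finset.sum_congr rfl fun k _ => ?_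
    have : Y (ev 𝕜 k) = ∑ l, Y (ev 𝕜 k) l • (Pi.single l 1 : Fin L → 𝕜) := by
      funext i
      simp [Finset.sum_apply, Pi.single_apply]
    rw [LinearMap.comp_apply]
    conv_lhs => rw [this]
    simp
  have h2 : ∀ l, ‖∑ k, Y (ev 𝕜 k) l * X (Pi.single l 1) k‖ ≤
      2 * 𝔼 ε, ‖Y (rs (fun k => ev 𝕜 k) ε) l‖ := by
    intro l
    have h3 : √(∑ k, ‖Y (ev 𝕜 k) l‖ ^ 2) ≤ 2 * 𝔼 ε, ‖Y (rs (fun k => ev 𝕜 k) ε) l‖ := by
      refine (khin1 (𝕜 := 𝕜) fun k => Y (ev 𝕜 k) l).trans (le_of_eq ?_)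
      refine congrArg _ (Finset.expect_congr rfl fun ε _ => congrArg _ ?_)
      exact (map_rs ((LinearMap.proj l : (Fin L → 𝕜) →ₗ[𝕜] 𝕜) ∘ₗ Y) (fun k => ev 𝕜 k) ε).symm
    calc ‖∑ k, Y (ev 𝕜 k) l * X (Pi.single l 1) k‖
        ≤ ∑ k, ‖Y (ev 𝕜 k) l‖ * ‖X (Pi.single l 1) k‖ := by
          refine (norm_sum_le _ _).trans (le_of_eq ?_)
          simp
      _ ≤ √(∑ k, ‖Y (ev 𝕜 k) l‖ ^ 2) * √(∑ k, ‖X (Pi.single l 1) k‖ ^ 2) :=
          Real.sum_mul_le_sqrt_mul_sqrt _ _ _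
      _ ≤ √(∑ k, ‖Y (ev 𝕜 k) l‖ ^ 2) * 1 := by
          rw [← EuclideanSpace.norm_eq]
          exact mul_le_mul_of_nonneg_left (hX l) (Real.sqrt_nonneg _)
      _ ≤ _ := by rw [mul_one]; exact h3
  rw [h1]
  refine (norm_sum_le _ _).trans ((Finset.sum_le_sum fun l _ => h2 l).trans ?_)
  rw [← Finset.mul_sum, ← Finset.expect_sum_comm]
  refine mul_le_mul_of_nonneg_left ?_ (by norm_num)
  refine (Finset.expect_le_expect fun ε _ => hY _).trans ((khin_le (𝕜 := 𝕜) _).trans ?_)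
  simp [norm_ev]

/-- Apply `push` with `c₀ = 1`, `CH = 4`. Given `B`, let `F = range B.pi` (finite dimensional, inside
`range (P B.hi)`), take the net `A : Fin n → _` of `exists_op_net` with `η = 1 / √r` and
`L = n * 2 ^ r` (any `L` with an injection `idx : Fin n × Finset (Fin r) → Fin L`). For `B'` with
`B'.lo = B.hi` use `p = B.sn B'`, `u α S = B'.a (Pi.single (idx (α, S)) 1)`. Facts:
`B.pi (B.pi x) = B.pi x`, `B'.b (B.pi x) = 0`, `B.pi (B'.a c) = 0`, hence `p (B'.a c) = ‖c‖₁`,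
`p x = q x` on `F`, and `p (x - B.pi x - B'.a (B'.b x)) = 0`. For the trace hypothesis split
`tr (T A') = tr (T B.pi A') + tr (T B'.a B'.b A')`: the first is at most `√r + √r`
(`tr_le_of_bound`), the second is `∑ l k, B'.b (A' (ev k)) l * T (B'.a (e l)) k`, at most
`∑ l, √(∑ k, ‖B'.b (A' (ev k)) l‖²) ≤ 2 𝔼 ‖B'.b (A' (rs ev ε))‖₁ ≤ 2 √r` (`khin1`, `map_rs`). -/
theorem exists_block_norm {δ : ℝ} (hδ : 0 < δ) :
    ∃ r m : ℕ, 0 < r ∧ 0 < m ∧ ∃ M : ℝ, 1 ≤ M ∧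
      ∀ (E : Type v) [NormedAddCommGroup E] [NormedSpace 𝕜 E] (q : Seminorm 𝕜 E)
        (P : ℕ → E →ₗ[𝕜] E) (K₀ : ℝ), LpDec p q P → ∀ B : Blk q P K₀, ∃ L : ℕ,
          ∀ B' : Blk q P K₀, B'.lo = B.hi → B'.L = L →
            ∃ s : Seminorm 𝕜 E, (∀ x, s x ≤ B.sn B' x ∧ B.sn B' x ≤ M * s x) ∧ PP r m δ s := by
  obtain ⟨r, m, hr, hm, M, hM, hpush⟩ :=
    push.{v, 0} (𝕜 := 𝕜) (c₀ := 1) (CH := 4) one_pos (by norm_num) hδ
  refine ⟨r, m, hr, hm, M, hM, fun E _ _ q P K₀ h B => ?_⟩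
  have hr' : (0 : ℝ) < r := by exact_mod_cast hr
  have hsr : 0 < √(r : ℝ) := Real.sqrt_pos.2 hr'
  have hfin : FiniteDimensional 𝕜 (LinearMap.range B.pi) := by
    have := h.fin B.hi
    refine Submodule.finiteDimensional_of_le (S₂ := LinearMap.range (P B.hi)) ?_
    rintro _ ⟨x, rfl⟩
    exact ⟨_, lpblk_hi_pi h B x⟩
  obtain ⟨n, A, hAF, hA1, hnet⟩ := exists_op_net q h.equi (LinearMap.range B.pi) r
    (η := 1 / √(r : ℝ)) (by positivity)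
  refine ⟨Fintype.card (Fin n × Finset (Fin r)), fun B' hlo hL => ?_⟩
  let idx : Fin n × Finset (Fin r) ≃ Fin B'.L := Fintype.equivFinOfCardEq hL.symm
  have hF : ∀ x ∈ LinearMap.range B.pi, B.sn B' x = q x := by
    rintro _ ⟨x, rfl⟩
    exact lpblk_sn_pi h B B' hlo x
  refine hpush E (B.sn B') (Fin n) A (fun α S => B'.a (Pi.single (idx (α, S)) 1))
    (fun α a => ?_) (fun α S => ?_) (fun F c => ?_) (fun T hT hTA A' hA' => ?_)
  · rw [hF _ (hAF α a)]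
    exact hA1 α a
  · exact (lpblk_sn_single h B B' hlo _).le
  · have h1 : ∑ α ∈ F, ∑ S, c α S • B'.a (Pi.single (idx (α, S)) 1) =
        B'.a fun i => if (idx.symm i).1 ∈ F then c (idx.symm i).1 (idx.symm i).2 else 0 := by
      simp only [← map_smul, ← map_sum]
      refine congrArg _ (funext fun i => ?_)
      obtain ⟨⟨α, S⟩, rfl⟩ := idx.surjective i
      simp [Finset.sum_apply, Pi.single_apply, Prod.ext_iff, ite_and]
    rw [h1, lpblk_sn_a h B B' hlo, one_mul, ← idx.sum_comp, Fintype.sum_prod_type,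
      ← Finset.sum_subset (Finset.subset_univ F)]
    · refine le_of_eq (Finset.sum_congr rfl fun α hα => Finset.sum_congr rfl fun S _ => ?_)
      simp [hα]
    · intro α _ hα
      simp [hα]
  · have hsplit : T ∘ₗ A' = T ∘ₗ (B.pi ∘ₗ A') + T ∘ₗ B'.a ∘ₗ B'.b ∘ₗ A' := by
      refine LinearMap.ext fun a => ?_
      have h1 := hT (A' a - B.pi (A' a) - B'.a (B'.b (A' a)))
      rw [lpblk_sn_rest h B B' hlo, norm_le_zero_iff, map_sub, map_sub] at h1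
      simp only [LinearMap.comp_apply, LinearMap.add_apply]
      rw [← sub_eq_zero, ← h1]
      abel
    have hq : ∀ x, q (B.pi x) ≤ B.sn B' x := fun x => by
      rw [Blk.sn_apply]
      exact le_add_of_nonneg_right (Finset.sum_nonneg fun _ _ => norm_nonneg _)
    have hb : ∀ x, ∑ i, ‖B'.b x i‖ ≤ B.sn B' x := fun x => by
      rw [Blk.sn_apply]
      exact le_add_of_nonneg_left (apply_nonneg _ _)
    obtain ⟨α, hα⟩ := hnet (B.pi ∘ₗ A') (fun a => ⟨_, rfl⟩) fun a => (hq _).trans (hA' a)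
    have h1 : ‖tr (T ∘ₗ (B.pi ∘ₗ A' - A α))‖ ≤ √(r : ℝ) := by
      refine (tr_le_of_bound _ (β := 1 / √(r : ℝ)) fun a => ?_).trans (le_of_eq ?_)
      · refine (hT _).trans ?_
        rw [hF _ (by
          rw [LinearMap.sub_apply]
          exact Submodule.sub_mem _ ⟨_, rfl⟩ (hAF α a))]
        exact hα a
      · rw [Fintype.card_fin, one_div, inv_mul_eq_div, Real.div_sqrt]
    have h2 : ‖tr (T ∘ₗ (B.pi ∘ₗ A'))‖ ≤ √(r : ℝ) + √(r : ℝ) := by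
      have : T ∘ₗ (B.pi ∘ₗ A') = T ∘ₗ (B.pi ∘ₗ A' - A α) + T ∘ₗ A α := by
        rw [LinearMap.comp_sub, sub_add_cancel]
      rw [this, tr, map_add]
      exact (norm_add_le _ _).trans (add_le_add h1 (hTA α))
    have h3 := lpblk_tr_le (T ∘ₗ B'.a) (B'.b ∘ₗ A')
      (fun l => (hT _).trans (lpblk_sn_single h B B' hlo l).le)
      (fun a => (hb _).trans (hA' a))
    rw [hsplit, tr, map_add]
    refine (norm_add_le _ _).trans ((add_le_add h2 h3).trans (le_of_eq ?_))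
    ring

end Pool.Agent.Lib.MP_e0f470_an
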