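import Pool.Agent.Lib.MP_e0f470_an.LpN

/-! Far out complemented copies of finite dimensional spaces of summable sequences. -/

set_option autoImplicit false

namespace Pool.Agent.Lib.MP_e0f470_an

open Finset Filter Topology
open scoped BigOperators ENNReal

variable {𝕜 : Type*} [RCLike 𝕜]

variable {p : ℝ≥0∞} [Fact (1 ≤ p)] {E : Type*} [NormedAddCommGroup E] [NormedSpace 𝕜 E]

/-- A finite dimensional decomposition of `ℓ^p` type (of `c₀` type if `p = ∞`) for the equivalent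
norm `q`. -/
structure LpDec (p : ℝ≥0∞) [Fact (1 ≤ p)] (q : Seminorm 𝕜 E) (P : ℕ → E →ₗ[𝕜] E) : Prop where
  equi : Equi q
  zero : P 0 = 0
  comp : ∀ n m x, P n (P m x) = P (min n m) x
  fin : ∀ n, FiniteDimensional 𝕜 (LinearMap.range (P n))
  lim : ∀ x, Tendsto (fun n => q (x - P n x)) atTop (𝓝 0)
  block : ∀ n : ℕ → ℕ, Monotone n → ∀ J x,
    q (P (n J) x - P (n 0) x) = lpn p J fun j => q (P (n (j + 1)) x - P (n j) x)

/-- A block has norm at most the norm of the vector: use `block` with the sequence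
`0, a, b, c, c, …`, `le_lpn`, and let `c → ∞`. -/
lemma LpDec.sub_le {q : Seminorm 𝕜 E} {P : ℕ → E →ₗ[𝕜] E} (h : LpDec p q P) {a b : ℕ} (hab : a ≤ b)
    (x : E) : q (P b x - P a x) ≤ q x := by
  have key : ∀ c, b ≤ c → q (P b x - P a x) ≤ q x + q (x - P c x) := by
    intro c hc
    let n : ℕ → ℕ := fun j => if j = 0 then 0 else if j = 1 then a else if j = 2 then b else c
    have hn : Monotone n := by
      refine monotone_nat_of_le_succ fun j => ?_
      rcases j with _ | _ | _ | j <;> simp [n, hab, hc]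
    have h1 := h.block n hn 3 x
    have h2 := le_lpn (p := p) (show 1 < 3 by norm_num)
      (fun j => q (P (n (j + 1)) x - P (n j) x))
    rw [← h1] at h2
    have h3 : q (P b x - P a x) ≤ q (P c x) := by
      refine (le_abs_self _).trans ?_
      simpa [n, h.zero] using h2
    have h4 : q (P c x) ≤ q x + q (x - P c x) := by
      have := map_sub_le_add q x (x - P c x)
      rwa [sub_sub_cancel] at this
    linarith
  have hl : Tendsto (fun c => q x + q (x - P c x)) atTop (𝓝 (q x + 0)) :=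
    tendsto_const_nhds.add (h.lim x)
  rw [add_zero] at hl
  exact ge_of_tendsto hl (eventually_atTop.2 ⟨b, key⟩)

lemma lpFar_sum_apply {W A : Type*} [AddCommGroup W] [Module 𝕜 W] (F : Finset A)
    (s : A → Seminorm 𝕜 W) (x : W) : (∑ i ∈ F, s i) x = ∑ i ∈ F, s i x := by
  classical
  induction F using Finset.induction_on with
  | empty => simp
  | insert a F ha ih => rw [Finset.sum_insert ha, Finset.sum_insert ha, add_apply, ih]

lemma lpFar_semi_sum_le {W A : Type*} [AddCommGroup W] [Module 𝕜 W] [Fintype A]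
    (s : Seminorm 𝕜 W) (c : A → 𝕜) (w : A → W) {t : ℝ} (hw : ∀ l, s (w l) ≤ t) :
    s (∑ l, c l • w l) ≤ (∑ l, ‖c l‖) * t := by
  refine (Finset.le_sum_of_subadditive s (map_zero s).le (map_add_le_add s) _ _).trans ?_
  rw [Finset.sum_mul]
  refine Finset.sum_le_sum fun l _ => ?_
  rw [map_smul_eq_mul]
  exact mul_le_mul_of_nonneg_left (hw l) (norm_nonneg _)

/-- A complemented copy of `ℓ¹_L` supported in the interval `(lo, hi]`. -/
structure Blk (q : Seminorm 𝕜 E) (P : ℕ → E →ₗ[𝕜] E) (K₀ : ℝ) where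
  /-- left end -/
  lo : ℕ
  /-- right end -/
  hi : ℕ
  /-- dimension -/
  L : ℕ
  /-- embedding -/
  a : (Fin L → 𝕜) →ₗ[𝕜] E
  /-- projection -/
  b : E →ₗ[𝕜] (Fin L → 𝕜)
  lt : lo < hi
  ba : ∀ c, b (a c) = c
  a_hi : ∀ c, P hi (a c) = a c
  a_lo : ∀ c, P lo (a c) = 0
  b_loc : ∀ x, b x = b (P hi x - P lo x)
  a_le : ∀ c, q (a c) ≤ ∑ i, ‖c i‖
  b_le : ∀ x, ∑ i, ‖b x i‖ ≤ 2 * K₀ * q x

/-- Among many vectors of a bounded set in a finite dimensional subspace many are close.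
(Total boundedness gives a cover by `C` sets of `q`-diameter at most `η`; pigeonhole with
`Finset.exists_le_card_fiber_of_mul_le_card_of_maps_to`.) -/
lemma exists_close_family (q : Seminorm 𝕜 E) (hq : Equi q) (F : Submodule 𝕜 E)
    [FiniteDimensional 𝕜 F] {η : ℝ} (hη : 0 < η) (L : ℕ) :
    ∃ L' : ℕ, ∀ x : Fin L' → E, (∀ i, x i ∈ F) → (∀ i, q (x i) ≤ 1) →
      ∃ i : Fin L × Bool → Fin L', Function.Injective i ∧ ∀ s t, q (x (i s) - x (i t)) ≤ η := by
  classical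
  obtain ⟨c, C, hc, hC, hcC⟩ := hq
  have := FiniteDimensional.proper_rclike 𝕜 F
  have hε : 0 < η / (2 * C) := by positivity
  obtain ⟨T, hT, hcov⟩ := Metric.totallyBounded_iff.1
    (isCompact_closedBall (0 : F) (1 / c)).totallyBounded _ hε
  refine ⟨hT.toFinset.card * Fintype.card (Fin L × Bool), fun x hxF hx1 => ?_⟩
  have hmem : ∀ i, ∃ y ∈ T, (⟨x i, hxF i⟩ : F) ∈ Metric.ball y (η / (2 * C)) := by
    intro i
    have h1 : (⟨x i, hxF i⟩ : F) ∈ Metric.closedBall (0 : F) (1 / c) := by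
      rw [mem_closedBall_zero_iff, le_div_iff₀ hc]
      have := (hcC (x i)).1
      have h2 := hx1 i
      change ‖x i‖ * c ≤ 1
      linarith
    simpa using hcov h1
  choose y hyT hy using hmem
  have hne : hT.toFinset.Nonempty := by
    have h0 : (0 : F) ∈ Metric.closedBall (0 : F) (1 / c) :=
      Metric.mem_closedBall_self (by positivity)
    have h1 := hcov h0
    simp only [Set.mem_iUnion] at h1
    obtain ⟨z, hz, -⟩ := h1
    exact ⟨z, hT.mem_toFinset.2 hz⟩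
  obtain ⟨z, -, hz⟩ := Finset.exists_le_card_fiber_of_mul_le_card_of_maps_to
    (s := Finset.univ) (t := hT.toFinset) (f := y) (n := Fintype.card (Fin L × Bool))
    (fun i _ => hT.mem_toFinset.2 (hyT i)) hne (by simp)
  obtain ⟨e⟩ := Function.Embedding.nonempty_of_card_le (α := Fin L × Bool)
    (β := ↥(Finset.univ.filter fun i => y i = z)) (by rw [Fintype.card_coe]; exact hz)
  refine ⟨fun s => (e s).1, Subtype.val_injective.comp e.injective, fun s t => ?_⟩
  have h1 := hy (e s).1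
  have h2 := hy (e t).1
  rw [(Finset.mem_filter.1 (e s).2).2] at h1
  rw [(Finset.mem_filter.1 (e t).2).2] at h2
  have h3 := dist_triangle_right (⟨x (e s).1, hxF _⟩ : F) ⟨x (e t).1, hxF _⟩ z
  rw [Metric.mem_ball] at h1 h2
  have h4 : ‖x (e s).1 - x (e t).1‖ ≤ η / C := by
    have h5 : η / (2 * C) + η / (2 * C) = η / C := by field_simp; ring
    rw [← dist_eq_norm]
    change dist (⟨x (e s).1, hxF _⟩ : F) ⟨x (e t).1, hxF _⟩ ≤ η / C
    linarith
  refine (hcC _).2.trans ?_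
  rw [le_div_iff₀ hC] at h4
  linarith

variable (𝕜) in
/-- The sum of the norms of the coordinates. -/
noncomputable def lpFarL1 (ι : Type) [Fintype ι] : Seminorm 𝕜 (Eu 𝕜 ι) :=
  ∑ i, (normSeminorm 𝕜 𝕜).comp (EuclideanSpace.projₗ i)

lemma lpFarL1_apply {ι : Type} [Fintype ι] (g : Eu 𝕜 ι) : lpFarL1 𝕜 ι g = ∑ i, ‖g i‖ := by
  unfold lpFarL1
  rw [lpFar_sum_apply]
  rfl

lemma lpFarL1_equi {ι : Type} [Fintype ι] [DecidableEq ι] : Equi (lpFarL1 𝕜 ι) := by
  refine ⟨1, Fintype.card ι + 1, one_pos, by positivity, fun g => ?_⟩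
  rw [lpFarL1_apply]
  constructor
  · have := lpFar_semi_sum_le (normSeminorm 𝕜 (Eu 𝕜 ι)) (fun i => g i) (fun i => ev 𝕜 i) (t := 1)
      fun i => (norm_ev i).le
    rw [sum_ev] at this
    simpa using this
  · have : ∑ i, ‖g i‖ ≤ ∑ _i : ι, ‖g‖ := Finset.sum_le_sum fun i _ => PiLp.norm_apply_le g i
    rw [Finset.sum_const, Finset.card_univ, nsmul_eq_mul] at this
    nlinarith [norm_nonneg g]

lemma lpFarL1_ev {ι : Type} [Fintype ι] [DecidableEq ι] (i : ι) : lpFarL1 𝕜 ι (ev 𝕜 i) = 1 := by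
  rw [lpFarL1_apply, Finset.sum_eq_single i]
  · simp [ev_apply]
  · intro j _ hj
    simp [ev_apply, hj]
  · simp

lemma lpFar_half (q : Seminorm 𝕜 E) (x : E) : q ((2 : 𝕜)⁻¹ • x) = q x / 2 := by
  rw [map_smul_eq_mul, norm_inv, RCLike.norm_two]
  ring

/-- Let `η = 1 / (4 K₀)`, `L'` from `exists_close_family` for `F = range (P lo)`, `γ` the `ℓ¹` norm on
`Eu 𝕜 (Fin L')`, and `a₀, b₀` the factorisation; `x i = a₀ (ev i)`. Get `i` for the heads
`P lo (x i)` and `hi > lo` with `q (x i - P hi (x i)) ≤ η` for all `i`. Let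
`Fm c = ∑ l, c l / 2 • (ev (i (l, true)) - ev (i (l, false)))`,
`π g = fun l => g (i (l, true)) - g (i (l, false))`, so `π (Fm c) = c`, both `ℓ¹`-contractions.
Put `a = (P hi - P lo) ∘ a₀ ∘ Fm`, `b₁ = π ∘ b₀ ∘ (P hi - P lo)`. Then
`q (a c - a₀ (Fm c)) ≤ 2 η ‖c‖₁`, hence `‖b₁ (a c) - c‖₁ ≤ ‖c‖₁ / 2`, so `b₁ ∘ a` is injective,
thus bijective, with inverse of norm at most `2`; take `b = (b₁ ∘ a)⁻¹ ∘ b₁`. -/
theorem exists_blk {q : Seminorm 𝕜 E} {P : ℕ → E →ₗ[𝕜] E} (h : LpDec p q P) {K₀ : ℝ} (hK₀ : 1 ≤ K₀)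
    (hU : ∀ (ι : Type) [Fintype ι] [DecidableEq ι] (γ : Seminorm 𝕜 (Eu 𝕜 ι)), Equi γ →
      ¬ NoFactor γ q K₀) (lo L : ℕ) :
    ∃ B : Blk q P K₀, B.lo = lo ∧ B.L = L := by
  classical
  have hK : 0 < K₀ := by linarith
  set η : ℝ := 1 / (4 * K₀) with hη
  have hη0 : 0 < η := by positivity
  have := h.fin lo
  obtain ⟨L', hL'⟩ := exists_close_family q h.equi (LinearMap.range (P lo)) hη0 L
  have hfac := hU (Fin L') (lpFarL1 𝕜 (Fin L')) lpFarL1_equi
  unfold NoFactor at hfac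
  push Not at hfac
  obtain ⟨a₀, b₀, ha₀, hb₀, hab⟩ := hfac
  have hba : ∀ g, b₀ (a₀ g) = g := fun g => LinearMap.congr_fun hab g
  let x : Fin L' → E := fun i => a₀ (ev 𝕜 i)
  have hx : ∀ i, q (x i) ≤ 1 := fun i => (ha₀ _).trans (lpFarL1_ev i).le
  have hhead : ∀ y, q (P lo y) ≤ q y := fun y => by
    simpa [h.zero] using h.sub_le (Nat.zero_le lo) y
  obtain ⟨i, hi, hclose⟩ := hL' (fun j => P lo (x j)) (fun j => LinearMap.mem_range_self _ _)
    fun j => (hhead _).trans (hx j)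
  obtain ⟨hi', hhi, hlt⟩ : ∃ n, (∀ j, q (x j - P n (x j)) ≤ η) ∧ lo < n := by
    have h1 : ∀ᶠ n in atTop, ∀ j, q (x j - P n (x j)) ≤ η :=
      eventually_all.2 fun j => (h.lim (x j)).eventually (ge_mem_nhds hη0)
    exact (h1.and (eventually_gt_atTop lo)).exists
  let D : E →ₗ[𝕜] E := P hi' - P lo
  have hD : ∀ y, D y = P hi' y - P lo y := fun y => rfl
  have hDhi : ∀ y, P hi' (D y) = D y := fun y => by
    rw [hD, map_sub, h.comp, h.comp, min_self, min_eq_right hlt.le]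
  have hDlo : ∀ y, P lo (D y) = 0 := fun y => by
    rw [hD, map_sub, h.comp, h.comp, min_self, min_eq_left hlt.le, sub_self]
  have hDD : ∀ y, D (D y) = D y := fun y => by rw [hD (D y), hDhi, hDlo, sub_zero]
  have hDle : ∀ y, q (D y) ≤ q y := fun y => h.sub_le hlt.le y
  let v : Fin L → Eu 𝕜 (Fin L') := fun l =>
    (2 : 𝕜)⁻¹ • (ev 𝕜 (i (l, true)) - ev 𝕜 (i (l, false)))
  let Fm : (Fin L → 𝕜) →ₗ[𝕜] Eu 𝕜 (Fin L') := Fintype.linearCombination 𝕜 v
  have hFm : ∀ c, Fm c = ∑ l, c l • v l := fun c => Fintype.linearCombination_apply _ _ _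
  let π : Eu 𝕜 (Fin L') →ₗ[𝕜] (Fin L → 𝕜) := LinearMap.pi fun l =>
    EuclideanSpace.projₗ (i (l, true)) - EuclideanSpace.projₗ (i (l, false))
  have hπ : ∀ g l, π g l = g (i (l, true)) - g (i (l, false)) := fun g l => rfl
  have hπv : ∀ l l', π (v l) l' = if l' = l then 1 else 0 := by
    intro l l'
    rw [hπ]
    simp only [v, PiLp.smul_apply, PiLp.sub_apply, ev_apply, hi.eq_iff, Prod.mk.injEq]
    by_cases hl : l' = l
    · simp [hl]
      norm_num
    · simp [hl]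
  have hπF : ∀ c, π (Fm c) = c := by
    intro c
    funext l'
    rw [hFm, map_sum, Finset.sum_apply]
    simp [hπv]
  have hπle : ∀ g, ∑ l, ‖π g l‖ ≤ lpFarL1 𝕜 (Fin L') g := by
    intro g
    rw [lpFarL1_apply]
    calc ∑ l, ‖π g l‖ ≤ ∑ l, ∑ b : Bool, ‖g (i (l, b))‖ := by
          refine Finset.sum_le_sum fun l _ => ?_
          rw [hπ, Fintype.sum_bool]
          exact norm_sub_le _ _
      _ = ∑ s : Fin L × Bool, ‖g (i s)‖ := (Fintype.sum_prod_type (fun s => ‖g (i s)‖)).symm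
      _ = ∑ j ∈ Finset.univ.image i, ‖g j‖ :=
          (Finset.sum_image (f := fun j => ‖g j‖) fun s _ t _ hst => hi hst).symm
      _ ≤ ∑ j, ‖g j‖ :=
          Finset.sum_le_sum_of_subset_of_nonneg (Finset.subset_univ _) fun _ _ _ => norm_nonneg _
  have hav : ∀ l, a₀ (v l) = (2 : 𝕜)⁻¹ • (x (i (l, true)) - x (i (l, false))) := fun l => by
    simp only [v, x, map_smul, map_sub]
  have hav1 : ∀ l, q (a₀ (v l)) ≤ 1 := fun l => by
    rw [hav, lpFar_half]
    have h1 := map_sub_le_add q (x (i (l, true))) (x (i (l, false)))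
    have h2 := hx (i (l, true))
    have h3 := hx (i (l, false))
    linarith
  have hav2 : ∀ l, q (D (a₀ (v l)) - a₀ (v l)) ≤ 2 * η := fun l => by
    have e : D (a₀ (v l)) - a₀ (v l) = (2 : 𝕜)⁻¹ •
        (((x (i (l, false)) - P hi' (x (i (l, false)))) -
          (x (i (l, true)) - P hi' (x (i (l, true))))) -
          (P lo (x (i (l, true))) - P lo (x (i (l, false))))) := by
      rw [hav, map_smul, ← smul_sub, hD, map_sub, map_sub]
      congr 1
      abel
    rw [e, lpFar_half]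
    have h1 := map_sub_le_add q ((x (i (l, false)) - P hi' (x (i (l, false)))) -
          (x (i (l, true)) - P hi' (x (i (l, true)))))
      (P lo (x (i (l, true))) - P lo (x (i (l, false))))
    have h2 := map_sub_le_add q (x (i (l, false)) - P hi' (x (i (l, false))))
      (x (i (l, true)) - P hi' (x (i (l, true))))
    have h3 := hhi (i (l, true))
    have h4 := hhi (i (l, false))
    have h5 := hclose (l, true) (l, false)
    linarith
  let a : (Fin L → 𝕜) →ₗ[𝕜] E := D ∘ₗ a₀ ∘ₗ Fm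
  let b₁ : E →ₗ[𝕜] (Fin L → 𝕜) := π ∘ₗ b₀ ∘ₗ D
  have ha : ∀ c, a c = D (a₀ (Fm c)) := fun c => rfl
  have hb₁ : ∀ y, b₁ y = π (b₀ (D y)) := fun y => rfl
  have hπb : ∀ y, ∑ l, ‖π (b₀ y) l‖ ≤ K₀ * q y := fun y => (hπle _).trans (hb₀ y)
  have hpert : ∀ c, q (D (a₀ (Fm c)) - a₀ (Fm c)) ≤ (∑ l, ‖c l‖) * (2 * η) := by
    intro c
    have e : D (a₀ (Fm c)) - a₀ (Fm c) = ∑ l, c l • (D (a₀ (v l)) - a₀ (v l)) := by
      simp only [hFm, map_sum, map_smul, smul_sub, Finset.sum_sub_distrib]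
    rw [e]
    exact lpFar_semi_sum_le q c _ hav2
  have hT : ∀ c, ∑ l, ‖c l‖ ≤ 2 * ∑ l, ‖(b₁ ∘ₗ a) c l‖ := by
    intro c
    have e : π (b₀ (D (a₀ (Fm c)) - a₀ (Fm c))) = (b₁ ∘ₗ a) c - c := by
      rw [map_sub, map_sub, hba, hπF, LinearMap.comp_apply, hb₁, ha, hDD]
    have h1 := hπb (D (a₀ (Fm c)) - a₀ (Fm c))
    rw [e] at h1
    have h2 := mul_le_mul_of_nonneg_left (hpert c) hK.le
    have h3 : K₀ * ((∑ l, ‖c l‖) * (2 * η)) = (∑ l, ‖c l‖) / 2 := by
      rw [hη]; field_simp; ring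
    have h4 : ∑ l, ‖c l‖ ≤ ∑ l, ‖(b₁ ∘ₗ a) c l‖ + ∑ l, ‖((b₁ ∘ₗ a) c - c) l‖ := by
      rw [← Finset.sum_add_distrib]
      refine Finset.sum_le_sum fun l _ => ?_
      have := norm_sub_le ((b₁ ∘ₗ a) c l) (((b₁ ∘ₗ a) c - c) l)
      simpa using this
    linarith
  have hinj : Function.Injective (b₁ ∘ₗ a) := by
    rw [injective_iff_map_eq_zero]
    intro c hc
    have h1 := hT c
    rw [hc] at h1
    have h2 : ∑ l, ‖c l‖ = 0 :=
      le_antisymm (by simpa using h1) (Finset.sum_nonneg fun _ _ => norm_nonneg _)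
    rw [Finset.sum_eq_zero_iff_of_nonneg fun _ _ => norm_nonneg _] at h2
    funext l
    exact norm_eq_zero.1 (h2 l (Finset.mem_univ l))
  let e := LinearEquiv.ofInjectiveEndo (b₁ ∘ₗ a) hinj
  have he : ∀ c, e c = (b₁ ∘ₗ a) c := fun c => rfl
  refine ⟨{ lo := lo, hi := hi', L := L, a := a, b := e.symm.toLinearMap ∘ₗ b₁, lt := hlt
            ba := fun c => ?_, a_hi := fun c => hDhi _, a_lo := fun c => hDlo _
            b_loc := fun y => ?_, a_le := fun c => ?_, b_le := fun y => ?_ }, rfl, rfl⟩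
  · exact e.symm_apply_apply c
  · change e.symm (b₁ y) = e.symm (b₁ (D y))
    rw [hb₁, hb₁, hDD]
  · rw [ha]
    refine (hDle _).trans ?_
    have e1 : a₀ (Fm c) = ∑ l, c l • a₀ (v l) := by simp only [hFm, map_sum, map_smul]
    rw [e1]
    simpa using lpFar_semi_sum_le q c _ hav1
  · have h1 := hT (e.symm (b₁ y))
    rw [← he, e.apply_symm_apply] at h1
    have h2 := hπb (D y)
    have h3 := mul_le_mul_of_nonneg_left (hDle y) hK.le
    change ∑ l, ‖e.symm (b₁ y) l‖ ≤ 2 * K₀ * q y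
    rw [← hb₁] at h2
    linarith

namespace Blk

variable {q : Seminorm 𝕜 E} {P : ℕ → E →ₗ[𝕜] E} {K₀ : ℝ}

/-- The projection onto the complement of the copy of `ℓ¹` inside the block. -/
noncomputable def pi (B : Blk q P K₀) : E →ₗ[𝕜] E := P B.hi - P B.lo - B.a ∘ₗ B.b

/-- The seminorm `q (B.pi x) + ‖B'.b x‖₁`. -/
noncomputable def sn (B B' : Blk q P K₀) : Seminorm 𝕜 E :=
  q.comp B.pi + ∑ i, (normSeminorm 𝕜 𝕜).comp ((LinearMap.proj i) ∘ₗ B'.b)

lemma sn_apply (B B' : Blk q P K₀) (x : E) : B.sn B' x = q (B.pi x) + ∑ i, ‖B'.b x i‖ := by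
  unfold sn
  rw [add_apply, lpFar_sum_apply]
  rfl

end Blk

end Pool.Agent.Lib.MP_e0f470_an
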