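import Pool.Agent.Lib.MP_e0f470_an.LpFar
import Pool.Agent.Lib.MP_e0f470_an.LpAbs

/-! Gluing the block norms. -/

set_option autoImplicit false

namespace Pool.Agent.Lib.MP_e0f470_an

open Finset Filter Topology
open scoped BigOperators ENNReal

variable {𝕜 : Type*} [RCLike 𝕜]

variable {p : ℝ≥0∞} [Fact (1 ≤ p)] {E : Type*} [NormedAddCommGroup E] [NormedSpace 𝕜 E]

section glue
variable {q : Seminorm 𝕜 E} {P : ℕ → E →ₗ[𝕜] E} {K₀ : ℝ}

lemma glue_low (h : LpDec p q P) {a b : ℕ} (hab : a ≤ b) (x : E) : P a (P b x) = P a x := by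
  rw [h.comp, min_eq_left hab]

lemma glue_high (h : LpDec p q P) {a b : ℕ} (hab : a ≤ b) (x : E) : P b (P a x) = P a x := by
  rw [h.comp, min_eq_right hab]

lemma glue_pi_apply (B : Blk q P K₀) (x : E) :
    B.pi x = P B.hi x - P B.lo x - B.a (B.b x) := rfl

lemma glue_pi_hi (h : LpDec p q P) (B : Blk q P K₀) (x : E) : P B.hi (B.pi x) = B.pi x := by
  rw [glue_pi_apply, map_sub, map_sub, glue_low h le_rfl, glue_high h B.lt.le, B.a_hi]

lemma glue_pi_lo (h : LpDec p q P) (B : Blk q P K₀) (x : E) : P B.lo (B.pi x) = 0 := by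
  rw [glue_pi_apply, map_sub, map_sub, glue_low h B.lt.le, glue_low h le_rfl, B.a_lo]
  simp

lemma glue_b_pi (B : Blk q P K₀) (x : E) : B.b (B.pi x) = 0 := by
  rw [glue_pi_apply, map_sub, ← B.b_loc, B.ba, sub_self]

lemma glue_pi_pi (h : LpDec p q P) (B : Blk q P K₀) (x : E) : B.pi (B.pi x) = B.pi x := by
  rw [glue_pi_apply B (B.pi x), glue_pi_hi h, glue_pi_lo h, glue_b_pi]
  simp

lemma glue_pi_a (B : Blk q P K₀) (c : Fin B.L → 𝕜) : B.pi (B.a c) = 0 := by
  rw [glue_pi_apply, B.a_hi, B.a_lo, B.ba]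
  simp

/-- A vector supported in a disjoint interval is killed by the block. -/
lemma glue_far (h : LpDec p q P) (B : Blk q P K₀) {lo hi : ℕ} {y : E} (h1 : P hi y = y)
    (h2 : P lo y = 0) (hd : B.hi ≤ lo ∨ hi ≤ B.lo) : B.b y = 0 ∧ B.pi y = 0 := by
  have hD : P B.hi y - P B.lo y = 0 := by
    rcases hd with hd | hd
    · rw [← glue_low h hd y, ← glue_low h (B.lt.le.trans hd) y, h2]
      simp
    · rw [← h1, glue_high h hd, glue_high h (hd.trans B.lt.le)]
      simp
  have hb : B.b y = 0 := by rw [B.b_loc, hD, map_zero]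
  refine ⟨hb, ?_⟩
  rw [glue_pi_apply, hD, hb]
  simp

lemma glue_ab_le (B : Blk q P K₀) (x : E) :
    q (B.a (B.b x)) ≤ 2 * K₀ * q (P B.hi x - P B.lo x) := by
  refine (B.a_le _).trans ?_
  rw [B.b_loc]
  exact B.b_le _

lemma glue_semi_eq (s : Seminorm 𝕜 E) {x y : E} (h : s (x - y) ≤ 0) : s x = s y := by
  have h1 := abs_sub_map_le_sub s x y
  have h2 : |s x - s y| ≤ 0 := h1.trans h
  have := abs_nonpos_iff.1 h2
  linarith

end glue

/-- Let `n j = (B j).lo` (strictly increasing, `n 0 = 0`), `D j = P (n (j+1)) - P (n j)`,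
`R j = (B j).pi + (B (j+1)).a ∘ (B (j+1)).b`, `sn j = (B j).sn (B (j+1))`. Algebra:
`sn j (R j x - x) = 0` and `sn i (R j x) = 0` for `i ≠ j` (all of `pi`, `a b` factor through `D`,
`D i D j = 0`), hence `s j (R j x) = s j x`, `s i (R j x) = 0`;
`∑ j < J, R j = P (n J) + (B J).a (B J).b` (`(B 0).L = 0`). Estimates:
`sn j x ≤ (1 + 2 K₀) q (D j x) + 2 K₀ q (D (j+1) x)` and
`q (D j x) ≤ sn j x + (if j = 0 then 0 else sn (j-1) x)`. So `J ↦ lpn p J (s · x)` is bounded by
`(1 + 4 K₀) q x` (`block`, `lpn_shift_le`, `sub_le`); let `q' x` be its supremum (a seminorm by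
`lpn_add_le`, `lpn_mul`, `lpn_le_of_le`). Conversely `q (P (n J) x) ≤ 2 M q' x`
(`lpn_unshift_le`) and `q x ≤ 2 M q' x` in the limit. -/
theorem exists_isSum {q : Seminorm 𝕜 E} {P : ℕ → E →ₗ[𝕜] E} (h : LpDec p q P) {K₀ : ℝ}
    (hK₀ : 1 ≤ K₀) (B : ℕ → Blk q P K₀) (h0 : (B 0).lo = 0) (hL0 : (B 0).L = 0)
    (hB : ∀ j, (B (j + 1)).lo = (B j).hi) (s : ℕ → Seminorm 𝕜 E) {M : ℝ} (hM : 1 ≤ M)
    (hs : ∀ j x, s j x ≤ (B j).sn (B (j + 1)) x ∧ (B j).sn (B (j + 1)) x ≤ M * s j x) :
    ∃ (q' : Seminorm 𝕜 E) (R : ℕ → E →ₗ[𝕜] E), Equi q' ∧ IsSum p q' s R := by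
  have hmono : StrictMono fun j => (B j).lo :=
    strictMono_nat_of_lt_succ fun j => by rw [hB j]; exact (B j).lt
  have hdisj : ∀ i j, i ≠ j → (B i).hi ≤ (B j).lo ∨ (B j).hi ≤ (B i).lo := by
    intro i j hij
    rcases lt_or_gt_of_ne hij with hlt | hlt
    · left; rw [← hB]; exact hmono.monotone hlt
    · right; rw [← hB]; exact hmono.monotone hlt
  let R : ℕ → E →ₗ[𝕜] E := fun j => (B j).pi + (B (j + 1)).a ∘ₗ (B (j + 1)).b
  have hR : ∀ j x, R j x = (B j).pi x + (B (j + 1)).a ((B (j + 1)).b x) := fun j x => rfl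
  have hpipi : ∀ i j x, i ≠ j → (B i).pi ((B j).pi x) = 0 := fun i j x hij =>
    (glue_far h (B i) (glue_pi_hi h (B j) x) (glue_pi_lo h (B j) x) (hdisj i j hij)).2
  have hbpi : ∀ i j x, (B i).b ((B j).pi x) = 0 := by
    intro i j x
    by_cases hij : i = j
    · subst hij; exact glue_b_pi _ _
    · exact (glue_far h (B i) (glue_pi_hi h (B j) x) (glue_pi_lo h (B j) x) (hdisj i j hij)).1
  have hpia : ∀ i j c, (B i).pi ((B j).a c) = 0 := by
    intro i j c
    by_cases hij : i = j
    · subst hij; exact glue_pi_a _ _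
    · exact (glue_far h (B i) ((B j).a_hi c) ((B j).a_lo c) (hdisj i j hij)).2
  have hba : ∀ i j c, i ≠ j → (B i).b ((B j).a c) = 0 := fun i j c hij =>
    (glue_far h (B i) ((B j).a_hi c) ((B j).a_lo c) (hdisj i j hij)).1
  have hsR : ∀ j x, s j (R j x) = s j x := by
    intro j x
    refine glue_semi_eq _ ((hs j _).1.trans (le_of_eq ?_))
    have e1 : (B j).pi (R j x - x) = 0 := by
      rw [map_sub, hR, map_add, glue_pi_pi h, hpia]
      simp
    have e2 : (B (j + 1)).b (R j x - x) = 0 := by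
      rw [map_sub, hR, map_add, hbpi, (B (j + 1)).ba]
      simp
    rw [Blk.sn_apply, e1, e2]
    simp
  have hsR' : ∀ i j x, i ≠ j → s i (R j x) = 0 := by
    intro i j x hij
    refine le_antisymm ((hs i _).1.trans (le_of_eq ?_)) (apply_nonneg _ _)
    have e1 : (B i).pi (R j x) = 0 := by
      rw [hR, map_add, hpipi i j x hij, hpia]
      simp
    have e2 : (B (i + 1)).b (R j x) = 0 := by
      rw [hR, map_add, hbpi, hba (i + 1) (j + 1) _ (by omega)]
      simp
    rw [Blk.sn_apply, e1, e2]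
    simp
  have hsum : ∀ J x, ∑ j ∈ range J, R j x = P (B J).lo x + (B J).a ((B J).b x) := by
    intro J x
    induction J with
    | zero =>
      have : (B 0).b x = 0 := by
        funext i
        exact absurd i.2 (by omega)
      rw [this, h0, h.zero]
      simp
    | succ J ih =>
      rw [Finset.sum_range_succ, ih, hR, glue_pi_apply, hB J]
      abel
  -- the block norms
  let d : ℕ → E → ℝ := fun j x => q (P (B (j + 1)).lo x - P (B j).lo x)
  have hd0 : ∀ j x, 0 ≤ d j x := fun j x => apply_nonneg _ _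
  have hdl : ∀ J x, lpn p J (fun j => d j x) = q (P (B J).lo x) := by
    intro J x
    have := h.block (fun j => (B j).lo) hmono.monotone J x
    rw [h0, h.zero] at this
    simpa using this.symm
  have hPle : ∀ a x, q (P a x) ≤ q x := by
    intro a x
    have := h.sub_le (Nat.zero_le a) x
    rw [h.zero] at this
    simpa using this
  have hab : ∀ j x, q ((B j).a ((B j).b x)) ≤ 2 * K₀ * d j x := by
    intro j x
    have := glue_ab_le (B j) x
    rwa [← hB j] at this
  have hup : ∀ j x, s j x ≤ (1 + 2 * K₀) * d j x + 2 * K₀ * d (j + 1) x := by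
    intro j x
    refine (hs j x).1.trans ?_
    rw [Blk.sn_apply]
    have h1 : q ((B j).pi x) ≤ d j x + 2 * K₀ * d j x := by
      rw [glue_pi_apply, ← hB j]
      exact (map_sub_le_add q _ _).trans (add_le_add le_rfl (hab j x))
    have h2 : ∑ i, ‖(B (j + 1)).b x i‖ ≤ 2 * K₀ * d (j + 1) x := by
      rw [(B (j + 1)).b_loc, ← hB (j + 1)]
      exact (B (j + 1)).b_le _
    linarith
  have hbdd : ∀ J x, lpn p J (fun j => s j x) ≤ (1 + 4 * K₀) * q x := by
    intro J x
    have h1 : lpn p J (fun j => s j x) ≤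
        lpn p J (fun j => (1 + 2 * K₀) * d j x + 2 * K₀ * d (j + 1) x) := by
      refine lpn_le_of_le fun k hk => ?_
      rw [if_pos hk, abs_of_nonneg (apply_nonneg _ _)]
      exact (hup k x).trans (le_abs_self _)
    have h2 := lpn_add_le (p := p) J (fun j => (1 + 2 * K₀) * d j x)
      (fun j => 2 * K₀ * d (j + 1) x)
    have h3 := lpn_mul (p := p) J (1 + 2 * K₀) (fun j => d j x)
    have h4 := lpn_mul (p := p) J (2 * K₀) (fun j => d (j + 1) x)
    have h5 := lpn_shift_le (p := p) J (fun j => d j x)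
    rw [hdl] at h3 h5
    rw [abs_of_nonneg (by linarith)] at h3 h4
    have h6 := hPle (B J).lo x
    have h7 := hPle (B (J + 1)).lo x
    have h8 : 2 * K₀ * lpn p J (fun j => d (j + 1) x) ≤ 2 * K₀ * q x :=
      mul_le_mul_of_nonneg_left (h5.trans h7) (by linarith)
    have h9 : (1 + 2 * K₀) * q (P (B J).lo x) ≤ (1 + 2 * K₀) * q x :=
      mul_le_mul_of_nonneg_left h6 (by linarith)
    linarith
  let qn : ℕ → Seminorm 𝕜 E := fun J => Seminorm.ofSMulLE (fun x => lpn p J fun j => s j x)
    (by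
      have := lpn_mul (p := p) J 0 (fun _ => 0)
      simpa using this)
    (by
      intro x y
      refine le_trans (lpn_le_of_le fun k hk => ?_) (lpn_add_le J (fun j => s j x) fun j => s j y)
      rw [if_pos hk, abs_of_nonneg (apply_nonneg _ _)]
      exact (map_add_le_add _ _ _).trans (le_abs_self _))
    (by
      intro c x
      have := lpn_mul (p := p) J ‖c‖ (fun j => s j x)
      rw [abs_norm] at this
      rw [← this]
      simp only [map_smul_eq_mul]
      exact le_rfl)
  have hqn : ∀ J x, qn J x = lpn p J fun j => s j x := fun J x => rfl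
  have hbd : ∀ x, BddAbove (Set.range fun J => qn J x) := fun x =>
    ⟨(1 + 4 * K₀) * q x, by rintro _ ⟨J, rfl⟩; exact hbdd J x⟩
  have hq' : ∀ x, (⨆ J, qn J) x = ⨆ J, qn J x := fun x =>
    Seminorm.iSup_apply (Seminorm.bddAbove_range_iff.2 hbd)
  have hlow : ∀ J x, lpn p J (fun j => s j x) ≤ (⨆ J, qn J) x := by
    intro J x
    rw [hq']
    exact le_ciSup (hbd x) J
  have hle : ∀ x t, (∀ J, lpn p J (fun j => s j x) ≤ t) → (⨆ J, qn J) x ≤ t := by
    intro x t ht
    rw [hq']
    exact ciSup_le ht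
  have hPlim : ∀ x, Tendsto (fun J => q (x - P (B J).lo x)) atTop (𝓝 0) := fun x =>
    (h.lim x).comp hmono.tendsto_atTop
  have hrev : ∀ x, q x ≤ 2 * M * (⨆ J, qn J) x := by
    intro x
    have hdn : ∀ j, d j x ≤ M * s j x + M * (if j = 0 then 0 else s (j - 1) x) := by
      intro j
      have h1 : P (B (j + 1)).lo x - P (B j).lo x = (B j).pi x + (B j).a ((B j).b x) := by
        rw [glue_pi_apply, hB j]; abel
      have h2 : d j x ≤ q ((B j).pi x) + q ((B j).a ((B j).b x)) := by
        simp only [d]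
        rw [h1]
        exact map_add_le_add _ _ _
      have h3 : q ((B j).pi x) ≤ M * s j x := by
        refine le_trans ?_ (hs j x).2
        rw [Blk.sn_apply]
        exact le_add_of_nonneg_right (Finset.sum_nonneg fun _ _ => norm_nonneg _)
      have h4 : q ((B j).a ((B j).b x)) ≤ M * (if j = 0 then 0 else s (j - 1) x) := by
        rcases j with _ | j
        · have : (B 0).b x = 0 := by
            funext i
            exact absurd i.2 (by omega)
          rw [this]
          simp
        · rw [if_neg (by omega), Nat.add_sub_cancel]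
          refine ((B (j + 1)).a_le _).trans (le_trans ?_ (hs j x).2)
          rw [Blk.sn_apply]
          exact le_add_of_nonneg_left (apply_nonneg _ _)
      linarith
    have hJ : ∀ J, q (P (B J).lo x) ≤ 2 * M * (⨆ J, qn J) x := by
      intro J
      rw [← hdl]
      have h1 : lpn p J (fun j => d j x) ≤
          lpn p J (fun j => M * s j x + M * (if j = 0 then 0 else s (j - 1) x)) := by
        refine lpn_le_of_le fun k hk => ?_
        rw [if_pos hk, abs_of_nonneg (hd0 _ _)]
        exact (hdn k).trans (le_abs_self _)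
      have h2 := lpn_add_le (p := p) J (fun j => M * s j x)
        (fun j => M * (if j = 0 then 0 else s (j - 1) x))
      have h3 := lpn_mul (p := p) J M (fun j => s j x)
      have h4 := lpn_mul (p := p) J M (fun j => if j = 0 then 0 else s (j - 1) x)
      have h5 := lpn_unshift_le (p := p) J (fun j => s j x)
      rw [abs_of_nonneg (by linarith)] at h3 h4
      have h6 := hlow J x
      have h7 : M * lpn p J (fun j => if j = 0 then 0 else s (j - 1) x) ≤ M * (⨆ J, qn J) x :=
        mul_le_mul_of_nonneg_left (h5.trans h6) (by linarith)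
      have h8 : M * lpn p J (fun j => s j x) ≤ M * (⨆ J, qn J) x :=
        mul_le_mul_of_nonneg_left h6 (by linarith)
      linarith
    have hlim : Tendsto (fun J => q (x - P (B J).lo x) + 2 * M * (⨆ J, qn J) x) atTop
        (𝓝 (0 + 2 * M * (⨆ J, qn J) x)) := (hPlim x).add_const _
    rw [zero_add] at hlim
    refine ge_of_tendsto' hlim fun J => ?_
    have h1 : q x ≤ q (x - P (B J).lo x) + q (P (B J).lo x) := by
      have := map_add_le_add q (x - P (B J).lo x) (P (B J).lo x)
      rwa [sub_add_cancel] at this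
    linarith [hJ J]
  refine ⟨⨆ J, qn J, R, ?_, ⟨hlow, fun n y => hle _ _ fun J => ?_, fun k x => hle _ _ fun J => ?_,
    fun x => ?_⟩⟩
  · obtain ⟨c, C, hc, hC, hcC⟩ := h.equi
    refine ⟨c / (2 * M), (1 + 4 * K₀) * C, by positivity, by positivity, fun y => ⟨?_, ?_⟩⟩
    · rw [div_mul_eq_mul_div, div_le_iff₀ (by positivity)]
      linarith [(hcC y).1, hrev y]
    · refine (hle _ _ fun J => hbdd J y).trans ?_
      rw [mul_assoc]
      exact mul_le_mul_of_nonneg_left (hcC y).2 (by positivity)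
  · refine lpn_le_of_le fun i _ => ?_
    rw [abs_of_nonneg (apply_nonneg _ _)]
    have h1 : s i (∑ k ∈ range n, R k (y k)) ≤ ∑ k ∈ range n, s i (R k (y k)) :=
      Finset.le_sum_of_subadditive _ (by simp) (map_add_le_add _) _ _
    refine h1.trans ?_
    split_ifs with hi
    · rw [Finset.sum_eq_single i (fun k _ hk => hsR' i k _ hk.symm)
        (fun hn => absurd (Finset.mem_range.2 hi) hn), hsR]
      exact le_abs_self _
    · exact le_of_eq (Finset.sum_eq_zero fun k hk => hsR' i k _ (by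
        rintro rfl; exact hi (Finset.mem_range.1 hk)))
  · refine le_trans (lpn_le_of_le fun i hi => ?_)
      ((lpn_single_le (p := p) J k (s k x)).trans (le_of_eq (abs_of_nonneg (apply_nonneg _ _))))
    rw [if_pos hi]
    split_ifs with hik
    · subst hik
      rw [hsR]
    · rw [hsR' i k x hik]
  · have hdlim : Tendsto (fun J => q (x - P (B J).lo x) + q (x - P (B (J + 1)).lo x)) atTop
        (𝓝 (0 + 0)) := (hPlim x).add ((hPlim x).comp (tendsto_add_atTop_nat 1))
    have hlim : Tendsto (fun J => (1 + 4 * K₀) * (q (x - P (B J).lo x) +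
        2 * K₀ * (q (x - P (B J).lo x) + q (x - P (B (J + 1)).lo x)))) atTop
        (𝓝 ((1 + 4 * K₀) * (0 + 2 * K₀ * (0 + 0)))) :=
      ((hPlim x).add (hdlim.const_mul _)).const_mul _
    simp only [add_zero, mul_zero] at hlim
    refine squeeze_zero (fun J => apply_nonneg _ _) (fun J => ?_) hlim
    refine (hle _ _ fun J' => hbdd J' _).trans (mul_le_mul_of_nonneg_left ?_ (by positivity))
    rw [hsum, ← sub_sub]
    refine (map_sub_le_add q _ _).trans (add_le_add le_rfl ((hab J x).trans ?_))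
    refine mul_le_mul_of_nonneg_left ?_ (by positivity)
    have : P (B (J + 1)).lo x - P (B J).lo x = (x - P (B J).lo x) - (x - P (B (J + 1)).lo x) := by
      abel
    simp only [d]
    rw [this]
    exact map_sub_le_add q _ _

end Pool.Agent.Lib.MP_e0f470_an
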