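import Pool.Agent.Lib.MP_e0f470_an.LpFar

/-! The decomposition of a concrete sum of finite dimensional spaces. -/

set_option autoImplicit false

namespace Pool.Agent.Lib.MP_e0f470_an

open Finset Filter Topology
open scoped BigOperators ENNReal

variable {𝕜 : Type*} [RCLike 𝕜]

variable {p : ℝ≥0∞} [Fact (1 ≤ p)] {E : Type*} [NormedAddCommGroup E] [NormedSpace 𝕜 E]

section
variable {F : ℕ → Type*} [∀ k, NormedAddCommGroup (F k)]

/-- The part of a sequence with indices in `[a, b)`. -/
noncomputable def inst_seg (p : ℝ≥0∞) (a b : ℕ) (y : lp F p) : lp F p :=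
  ∑ k ∈ Ico a b, lp.single p k (y k)

omit [Fact (1 ≤ p)] in
lemma inst_seg_apply (a b : ℕ) (y : lp F p) (k : ℕ) :
    inst_seg p a b y k = if k ∈ Ico a b then y k else 0 := by
  simp only [inst_seg, lp.coeFn_single, lp.coeFn_sum, Finset.sum_apply, Finset.sum_pi_single]

omit [Fact (1 ≤ p)] in
lemma inst_seg_sub {a b : ℕ} (hab : a ≤ b) (y : lp F p) :
    inst_seg p 0 b y - inst_seg p 0 a y = inst_seg p a b y := by
  rw [sub_eq_iff_eq_add', inst_seg, inst_seg, inst_seg, sum_Ico_consecutive _ (Nat.zero_le a) hab]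

omit [Fact (1 ≤ p)] in
lemma inst_seg_seg (n m : ℕ) (y : lp F p) :
    inst_seg p 0 n (inst_seg p 0 m y) = inst_seg p 0 (min n m) y := by
  refine lp.ext (funext fun k => ?_)
  rw [inst_seg_apply, inst_seg_apply, inst_seg_apply]
  by_cases h1 : k < n <;> by_cases h2 : k < m <;> simp [h1, h2]

omit [Fact (1 ≤ p)] in
lemma inst_seg_tendsto (n : ℕ) (y : lp F p) :
    Tendsto (fun k => ‖inst_seg p 0 n y k‖) atTop (𝓝 0) := by
  refine tendsto_const_nhds.congr' ?_
  filter_upwards [eventually_ge_atTop n] with k hk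
  rw [inst_seg_apply, if_neg (by simp; omega), norm_zero]

lemma inst_lim (y : lp F p) (hy : Tendsto (fun k => ‖y k‖) atTop (𝓝 0)) :
    Tendsto (fun n => ‖y - inst_seg p 0 n y‖) atTop (𝓝 0) := by
  rcases eq_or_ne p ⊤ with rfl | hp
  · rw [Metric.tendsto_atTop] at hy ⊢
    intro ε hε
    obtain ⟨N, hN⟩ := hy (ε / 2) (half_pos hε)
    refine ⟨N, fun n hn => ?_⟩
    rw [dist_zero_right, norm_norm]
    refine lt_of_le_of_lt (lp.norm_le_of_forall_le (half_pos hε).le fun k => ?_) (half_lt_self hε)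
    rw [lp.coeFn_sub, Pi.sub_apply, inst_seg_apply]
    split_ifs with hk
    · rw [sub_self, norm_zero]
      exact (half_pos hε).le
    · have := hN k (by simp at hk; omega)
      rw [dist_zero_right, norm_norm] at this
      rw [sub_zero]
      exact this.le
  · have h1 := (lp.hasSum_single hp y).tendsto_sum_nat
    rw [tendsto_iff_norm_sub_tendsto_zero] at h1
    refine h1.congr fun n => ?_
    rw [norm_sub_rev, inst_seg, Nat.Ico_zero_eq_range]

lemma inst_exists_idx (n : ℕ → ℕ) (J k : ℕ) (h0 : n 0 ≤ k) (hJ : k < n J) :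
    ∃ j < J, n j ≤ k ∧ k < n (j + 1) := by
  induction J with
  | zero => omega
  | succ J ih =>
    by_cases h : k < n J
    · obtain ⟨j, h1, h2⟩ := ih h
      exact ⟨j, by omega, h2⟩
    · exact ⟨J, by omega, by omega, hJ⟩

lemma inst_block (n : ℕ → ℕ) (hn : Monotone n) (J : ℕ) (y : lp F p) :
    ‖inst_seg p (n 0) (n J) y‖ = lpn p J fun j => ‖inst_seg p (n j) (n (j + 1)) y‖ := by
  have hp0 : p ≠ 0 := (zero_lt_one.trans_le (Fact.out : 1 ≤ p)).ne'
  rcases eq_or_ne p ⊤ with rfl | hp
  · refine le_antisymm (lp.norm_le_of_forall_le (lpn_nonneg _ _) fun k => ?_)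
      ((lpn_top_le_iff _ _ (norm_nonneg _)).2 fun j hj => ?_)
    · rw [inst_seg_apply]
      split_ifs with hk
      · obtain ⟨j, hj, h1, h2⟩ := inst_exists_idx n J k (mem_Ico.1 hk).1 (mem_Ico.1 hk).2
        refine le_trans ?_ (le_lpn hj _)
        rw [abs_norm]
        refine le_trans ?_ (lp.norm_apply_le_norm hp0 _ k)
        rw [inst_seg_apply, if_pos (mem_Ico.2 ⟨h1, h2⟩)]
      · rw [norm_zero]
        exact lpn_nonneg _ _
    · rw [abs_norm]
      refine lp.norm_mono hp0 fun k => ?_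
      rw [inst_seg_apply, inst_seg_apply]
      split_ifs with h1 h2
      · exact le_rfl
      · exfalso
        have a1 := hn (Nat.zero_le j)
        have a2 := hn (Nat.succ_le_of_lt hj)
        simp only [mem_Ico, Nat.succ_eq_add_one] at h1 h2 a2
        omega
      · rw [norm_zero]
        exact norm_nonneg _
      · exact le_rfl
  · have hp' : 0 < p.toReal := ENNReal.toReal_pos hp0 hp
    have key : ∀ a b, ‖inst_seg p a b y‖ ^ p.toReal = ∑ k ∈ Ico a b, ‖y k‖ ^ p.toReal :=
      fun a b => lp.norm_sum_single hp' y (Ico a b)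
    have h1 : ∑ j ∈ range J, |‖inst_seg p (n j) (n (j + 1)) y‖| ^ p.toReal =
        ‖inst_seg p (n 0) (n J) y‖ ^ p.toReal := by
      rw [key]
      induction J with
      | zero => simp
      | succ J ih =>
        rw [sum_range_succ, ih, abs_norm, key,
          sum_Ico_consecutive _ (hn (Nat.zero_le J)) (hn (Nat.le_succ J))]
    rw [lpn_eq_sum hp, h1, one_div, Real.rpow_rpow_inv (norm_nonneg _) hp'.ne']

end

/-- Take `q x = ‖e x‖`. The truncation `tn n y = ∑ k ∈ range n, lp.single p k (y k)` has finitely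
many nonzero coordinates, so it lies in the range of the injective map `e`; let `P n x` be its
preimage (`LinearEquiv.ofInjective`, or `Classical.choose` and injectivity). The range of `P n`
embeds in `Π k : Fin n, F k`. For `lim` use `lp.hasSum_single` if `p ≠ ∞` and the decay of the
coordinates with `lp.norm_le_of_forall_le` if `p = ∞`. For `block` use
`lp.norm_sum_single` or `lp.norm_rpow_eq_tsum`, `lpn_eq_sum` and
`Finset.sum_Ico_consecutive` if `p ≠ ∞`, and `lpn_top_le_iff`, `le_lpn` if `p = ∞`. -/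
theorem exists_lpDec {F : ℕ → Type*} [∀ k, NormedAddCommGroup (F k)] [∀ k, NormedSpace 𝕜 (F k)]
    [∀ k, FiniteDimensional 𝕜 (F k)] (e : E →L[𝕜] lp F p) {c : ℝ} (hc : 0 < c)
    (he : ∀ x, c * ‖x‖ ≤ ‖e x‖)
    (hr : ∀ y : lp F p, (∃ x, e x = y) ↔ Tendsto (fun k => ‖y k‖) atTop (𝓝 0)) :
    ∃ (q : Seminorm 𝕜 E) (P : ℕ → E →ₗ[𝕜] E), LpDec p q P := by
  have hinj : Function.Injective e := by
    refine (injective_iff_map_eq_zero e).2 fun x hx => ?_
    have := he x
    rw [hx, norm_zero] at this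
    exact norm_le_zero_iff.1 (by nlinarith [norm_nonneg x])
  have hex : ∀ n x, ∃ z, e z = inst_seg p 0 n (e x) := fun n x =>
    (hr _).2 (inst_seg_tendsto n _)
  choose f hf using hex
  let P : ℕ → E →ₗ[𝕜] E := fun n =>
    { toFun := f n
      map_add' := fun x x' => hinj (by
        rw [map_add, hf, hf, hf, map_add]
        refine lp.ext (funext fun k => ?_)
        rw [lp.coeFn_add, Pi.add_apply, inst_seg_apply, inst_seg_apply, inst_seg_apply]
        split_ifs
        · rfl
        · rw [add_zero])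
      map_smul' := fun a x => hinj (by
        rw [RingHom.id_apply, map_smul, hf, hf, map_smul]
        refine lp.ext (funext fun k => ?_)
        rw [lp.coeFn_smul, Pi.smul_apply, inst_seg_apply, inst_seg_apply]
        split_ifs
        · rfl
        · rw [smul_zero]) }
  have hP : ∀ n x, e (P n x) = inst_seg p 0 n (e x) := hf
  let q : Seminorm 𝕜 E := (normSeminorm 𝕜 (lp F p)).comp (e : E →ₗ[𝕜] lp F p)
  have hq : ∀ x, q x = ‖e x‖ := fun x => rfl
  refine ⟨q, P, ⟨c, ‖e‖ + 1, hc, by positivity, fun x => ⟨he x, ?_⟩⟩, ?_, fun n m x => ?_,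
    fun n => ?_, fun x => ?_, fun n hn J x => ?_⟩
  · rw [hq]
    nlinarith [e.le_opNorm x, norm_nonneg x]
  · ext x
    refine hinj ?_
    rw [hP, LinearMap.zero_apply, map_zero, inst_seg]
    simp
  · refine hinj ?_
    rw [hP, hP, hP, inst_seg_seg]
  · let g : LinearMap.range (P n) →ₗ[𝕜] ((k : Fin n) → F k) :=
      LinearMap.pi fun k : Fin n => (lp.evalₗ F p (k : ℕ)) ∘ₗ (e : E →ₗ[𝕜] lp F p) ∘ₗ
        (LinearMap.range (P n)).subtype
    refine FiniteDimensional.of_injective g ((injective_iff_map_eq_zero g).2 ?_)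
    rintro ⟨_, x, rfl⟩ hz
    refine Subtype.ext (hinj ?_)
    change e (P n x) = e 0
    rw [map_zero]
    refine lp.ext (funext fun k => ?_)
    by_cases hk : k < n
    · exact congrFun hz ⟨k, hk⟩
    · rw [hP, inst_seg_apply, if_neg (by simpa using hk)]
      rfl
  · refine (inst_lim (e x) ((hr _).1 ⟨x, rfl⟩)).congr fun n => ?_
    rw [hq, map_sub, hP]
  · rw [hq, map_sub, hP, hP, inst_seg_sub (hn (Nat.zero_le J)), inst_block n hn]
    refine congrArg _ (funext fun j => ?_)
    rw [hq, map_sub, hP, hP, inst_seg_sub (hn (Nat.le_succ j))]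

end Pool.Agent.Lib.MP_e0f470_an
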