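import Pool.Agent.Lib.MP_e0f470_an.LpBlk
import Pool.Agent.Lib.MP_e0f470_an.LpGlue

/-! Sums of finite dimensional spaces. -/

set_option autoImplicit false

namespace Pool.Agent.Lib.MP_e0f470_an

open Finset Filter Topology
open scoped BigOperators ENNReal

variable {𝕜 : Type*} [RCLike 𝕜]

universe v

variable {p : ℝ≥0∞} [Fact (1 ≤ p)] {E : Type v} [NormedAddCommGroup E] [NormedSpace 𝕜 E]

theorem hf_of_lpDec {q : Seminorm 𝕜 E} {P : ℕ → E →ₗ[𝕜] E} (h : LpDec p q P) : HF 𝕜 E := by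
  by_cases hU : ∃ K₀ : ℝ, 1 ≤ K₀ ∧ ∀ (ι : Type) [Fintype ι] [DecidableEq ι]
      (γ : Seminorm 𝕜 (Eu 𝕜 ι)), Equi γ → ¬ NoFactor γ q K₀
  · obtain ⟨K₀, hK₀, hU⟩ := hU
    intro K hK
    have hδ : 0 < 1 / (128 * K) := by positivity
    obtain ⟨r, m, hr, hm, M, hM, hblk⟩ := exists_block_norm.{v} (𝕜 := 𝕜) (p := p) hδ
    choose Lf hLf using hblk E q P K₀ h
    choose nxt hlo hL using fun B : Blk q P K₀ => exists_blk h hK₀ hU B.hi (Lf B)
    obtain ⟨B₀, hB₀, hL₀⟩ := exists_blk h hK₀ hU 0 0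
    let B : ℕ → Blk q P K₀ := fun j => nxt^[j] B₀
    have hB : ∀ j, B (j + 1) = nxt (B j) := fun j => Function.iterate_succ_apply' _ _ _
    have hs : ∀ j, ∃ s : Seminorm 𝕜 E,
        (∀ x, s x ≤ (B j).sn (B (j + 1)) x ∧ (B j).sn (B (j + 1)) x ≤ M * s x) ∧
          PP r m (1 / (128 * K)) s := fun j =>
      hLf (B j) (B (j + 1)) (by rw [hB]; exact hlo _) (by rw [hB]; exact hL _)
    choose s hs hPP using hs
    obtain ⟨q', R, hq', hsum⟩ := exists_isSum h hK₀ B hB₀ hL₀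
      (fun j => by rw [hB]; exact hlo _) s hM hs
    obtain ⟨L, hNF⟩ := noFactor_of_isSum hsum hr hm hδ.le (K := K) (by linarith)
      (by field_simp; norm_num) hPP
    exact ⟨q', hq', Fin L × Fin r, inferInstance, inferInstance, _, equi_l1l2, hNF⟩
  · push Not at hU
    intro K hK
    obtain ⟨ι, _, _, γ, hγ, hNF⟩ := hU K hK
    exact ⟨q, h.equi, ι, inferInstance, inferInstance, γ, hγ, hNF⟩

end Pool.Agent.Lib.MP_e0f470_an
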