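import Pool.Agent.Lib.MP_e0f470_an.Four

/-! Finite sections of the norm of sequences in the classical sequence spaces. -/

set_option autoImplicit false

namespace Pool.Agent.Lib.MP_e0f470_an

open Finset Filter Topology
open scoped BigOperators ENNReal

variable {𝕜 : Type*} [RCLike 𝕜]

/-- The `ℓ^p` norm of the first `n` terms of a real sequence. -/
noncomputable def lpn (p : ℝ≥0∞) [Fact (1 ≤ p)] (n : ℕ) (t : ℕ → ℝ) : ℝ :=
  ‖(WithLp.toLp p fun k : Fin n => t k : PiLp p fun _ : Fin n => ℝ)‖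

section
variable {p : ℝ≥0∞} [Fact (1 ≤ p)]

lemma lpn_nonneg (n : ℕ) (t : ℕ → ℝ) : 0 ≤ lpn p n t := norm_nonneg _

lemma lpn_aux_one_le (hp : p ≠ ⊤) : 1 ≤ p.toReal := by
  have h : (1 : ℝ≥0∞) ≤ p := Fact.out
  simpa using ENNReal.toReal_mono hp h

/-- The formula for finite `p` (`PiLp.norm_eq_sum`, `Fin.sum_univ_eq_sum_range`). -/
lemma lpn_eq_sum (hp : p ≠ ⊤) (n : ℕ) (t : ℕ → ℝ) :
    lpn p n t = (∑ k ∈ range n, |t k| ^ p.toReal) ^ (1 / p.toReal) := by
  have h1 := lpn_aux_one_le hp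
  rw [lpn, PiLp.norm_eq_sum (by linarith),
    ← Fin.sum_univ_eq_sum_range (fun k => |t k| ^ p.toReal) n]
  rfl

/-- The characterisation for `p = ∞`. -/
lemma lpn_top_le_iff (n : ℕ) (t : ℕ → ℝ) {C : ℝ} (hC : 0 ≤ C) :
    lpn ⊤ n t ≤ C ↔ ∀ k < n, |t k| ≤ C := by
  rw [lpn, PiLp.norm_toLp, pi_norm_le_iff_of_nonneg hC]
  exact ⟨fun h k hk => h ⟨k, hk⟩, fun h k => h k k.2⟩

lemma le_lpn {n k : ℕ} (hk : k < n) (t : ℕ → ℝ) : |t k| ≤ lpn p n t :=
  PiLp.norm_apply_le (WithLp.toLp p fun k : Fin n => t k : PiLp p fun _ : Fin n => ℝ) ⟨k, hk⟩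

/-- Comparison along a map of indices that is injective where `t` does not vanish. -/
lemma lpn_aux_inj {n n' : ℕ} {t t' : ℕ → ℝ} (φ : ℕ → ℕ)
    (h : ∀ k < n, t k ≠ 0 → φ k < n' ∧ |t k| ≤ |t' (φ k)|)
    (hφ : ∀ k k', t k ≠ 0 → t k' ≠ 0 → φ k = φ k' → k = k') : lpn p n t ≤ lpn p n' t' := by
  by_cases hp : p = ⊤
  · subst hp
    rw [lpn_top_le_iff _ _ (lpn_nonneg _ _)]
    intro k hk
    by_cases h0 : t k = 0
    · rw [h0, abs_zero]
      exact lpn_nonneg _ _
    · exact (h k hk h0).2.trans (le_lpn (h k hk h0).1 t')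
  · have h1 := lpn_aux_one_le hp
    rw [lpn_eq_sum hp, lpn_eq_sum hp]
    refine Real.rpow_le_rpow (by positivity) ?_ (by positivity)
    have e1 : ∑ k ∈ range n, |t k| ^ p.toReal =
        ∑ k ∈ (range n).filter (fun k => t k ≠ 0), |t k| ^ p.toReal := by
      symm
      refine sum_filter_of_ne fun k _ hk => ?_
      intro h0
      apply hk
      rw [h0, abs_zero, Real.zero_rpow (by linarith)]
    rw [e1]
    calc _ ≤ ∑ k ∈ (range n).filter (fun k => t k ≠ 0), |t' (φ k)| ^ p.toReal := by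
          refine sum_le_sum fun k hk => ?_
          obtain ⟨h2, h3⟩ := mem_filter.1 hk
          exact Real.rpow_le_rpow (abs_nonneg _) (h k (mem_range.1 h2) h3).2 (by linarith)
      _ = ∑ k ∈ ((range n).filter (fun k => t k ≠ 0)).image φ, |t' k| ^ p.toReal := by
          rw [sum_image]
          intro k hk k' hk' e
          exact hφ k k' (mem_filter.1 hk).2 (mem_filter.1 hk').2 e
      _ ≤ _ := by
          refine sum_le_sum_of_subset_of_nonneg ?_ fun k _ _ => by positivity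
          intro k hk
          obtain ⟨j, hj, rfl⟩ := mem_image.1 hk
          obtain ⟨h2, h3⟩ := mem_filter.1 hj
          exact mem_range.2 (h j (mem_range.1 h2) h3).1

/-- Monotonicity, allowing different lengths: terms of `t` beyond `n'` vanish. -/
lemma lpn_le_of_le {n n' : ℕ} {t t' : ℕ → ℝ}
    (h : ∀ k < n, |t k| ≤ if k < n' then |t' k| else 0) : lpn p n t ≤ lpn p n' t' := by
  refine lpn_aux_inj id (fun k hk h0 => ?_) fun k k' _ _ e => e
  have h1 := h k hk
  split_ifs at h1 with h2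
  · exact ⟨h2, h1⟩
  · exact absurd (abs_nonpos_iff.1 h1) h0

lemma lpn_add_le (n : ℕ) (t t' : ℕ → ℝ) :
    lpn p n (fun k => t k + t' k) ≤ lpn p n t + lpn p n t' :=
  norm_add_le (WithLp.toLp p fun k : Fin n => t k : PiLp p fun _ : Fin n => ℝ)
    (WithLp.toLp p fun k : Fin n => t' k)

lemma lpn_mul (n : ℕ) (c : ℝ) (t : ℕ → ℝ) : lpn p n (fun k => c * t k) = |c| * lpn p n t :=
  norm_smul c (WithLp.toLp p fun k : Fin n => t k : PiLp p fun _ : Fin n => ℝ)

lemma lpn_shift_le (n : ℕ) (t : ℕ → ℝ) : lpn p n (fun k => t (k + 1)) ≤ lpn p (n + 1) t :=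
  lpn_aux_inj (fun k => k + 1) (fun _ hk _ => ⟨Nat.succ_lt_succ hk, le_rfl⟩)
    fun _ _ _ _ e => Nat.succ_injective e

lemma lpn_unshift_le (n : ℕ) (t : ℕ → ℝ) :
    lpn p n (fun k => if k = 0 then 0 else t (k - 1)) ≤ lpn p n t := by
  refine lpn_aux_inj (fun k => k - 1) (fun k hk h0 => ⟨by omega, ?_⟩) fun k k' h1 h2 e => ?_
  · have : k ≠ 0 := fun e => h0 (if_pos e)
    rw [if_neg this]
  · have h3 : k ≠ 0 := fun e => h1 (if_pos e)
    have h4 : k' ≠ 0 := fun e => h2 (if_pos e)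
    omega

lemma lpn_aux_one (c : ℝ) : lpn p 1 (fun _ => c) ≤ |c| := by
  by_cases hp : p = ⊤
  · subst hp
    rw [lpn_top_le_iff _ _ (abs_nonneg _)]
    exact fun _ _ => le_rfl
  · have h1 := lpn_aux_one_le hp
    rw [lpn_eq_sum hp, sum_range_one, one_div,
      Real.rpow_rpow_inv (abs_nonneg _) (by linarith)]

lemma lpn_single_le (n j : ℕ) (c : ℝ) : lpn p n (fun k => if k = j then c else 0) ≤ |c| := by
  refine le_trans (lpn_aux_inj (fun _ => 0) (fun k _ h0 => ⟨one_pos, ?_⟩)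
    fun k k' h1 h2 _ => ?_) (lpn_aux_one c)
  · have : k = j := by
      by_contra e
      exact h0 (if_neg e)
    rw [if_pos this]
  · have h3 : k = j := by
      by_contra e
      exact h1 (if_neg e)
    have h4 : k' = j := by
      by_contra e
      exact h2 (if_neg e)
    rw [h3, h4]

lemma lpn_aux_zero (n : ℕ) : lpn p n (fun _ => 0) = 0 := by
  simpa using lpn_mul (p := p) n 0 fun _ => 0

lemma lpn_aux_sum_le {Ω : Type*} (s : Finset Ω) (n : ℕ) (t : Ω → ℕ → ℝ) :
    lpn p n (fun k => ∑ ω ∈ s, t ω k) ≤ ∑ ω ∈ s, lpn p n (t ω) := by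
  classical
  induction s using Finset.induction_on with
  | empty => simp [lpn_aux_zero]
  | insert a s ha ih =>
    simp only [sum_insert ha]
    exact (lpn_add_le n _ _).trans (add_le_add le_rfl ih)

/-- Jensen's inequality. -/
lemma lpn_expect_le {Ω : Type*} [Fintype Ω] (n : ℕ) (t : Ω → ℕ → ℝ) :
    lpn p n (fun k => 𝔼 ω, t ω k) ≤ 𝔼 ω, lpn p n (t ω) := by
  simp only [Finset.expect_eq_sum_div_card, div_eq_inv_mul]
  rw [lpn_mul, abs_of_nonneg (by positivity)]
  exact mul_le_mul_of_nonneg_left (lpn_aux_sum_le _ n t) (by positivity)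

/-- The event that `j` is the only index with `z j = ζ j`. -/
def Only {L L' : ℕ} (ζ z : Fin L → Fin L') (j : Fin L) : Prop :=
  z j = ζ j ∧ ∀ j', j' ≠ j → z j' ≠ ζ j'

instance {L L' : ℕ} (ζ z : Fin L → Fin L') (j : Fin L) : Decidable (Only ζ z j) := by
  unfold Only; infer_instance

lemma lpn_aux_eq {M : ℕ} (a : Fin M) :
    (𝔼 t : Fin M, if t = a then (1 : ℝ) else 0) = 1 / (M : ℝ) := by
  rw [Finset.expect_eq_sum_div_card]
  simp

lemma lpn_aux_ne {M : ℕ} (a : Fin M) :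
    (𝔼 t : Fin M, if t = a then (0 : ℝ) else 1) = 1 - 1 / (M : ℝ) := by
  have : Nonempty (Fin M) := ⟨a⟩
  have h : ∀ t : Fin M, (if t = a then (0 : ℝ) else 1) = 1 - if t = a then (1 : ℝ) else 0 := by
    intro t
    split_ifs <;> simp
  simp only [h]
  rw [expect_sub_distrib, lpn_aux_eq, expect_const univ_nonempty]

/-- By `expect_prod_coord` the probability is `1 / (2 L) * (1 - 1 / (2 L)) ^ (L - 1)`, and
Bernoulli's inequality (`one_add_mul_le_pow`) bounds the power below by `1 / 2`. -/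
lemma expect_only_ge {L : ℕ} (ζ : Fin L → Fin (2 * L)) (j : Fin L) :
    1 / (4 * (L : ℝ)) ≤ 𝔼 z : Fin L → Fin (2 * L), if Only ζ z j then (1 : ℝ) else 0 := by
  have hL : (1 : ℝ) ≤ L := by exact_mod_cast j.pos
  let f : Fin L → Fin (2 * L) → ℝ := fun i t =>
    if i = j then (if t = ζ i then 1 else 0) else (if t = ζ i then 0 else 1)
  have h1 : ∀ z : Fin L → Fin (2 * L),
      (if Only ζ z j then (1 : ℝ) else 0) = ∏ i, f i (z i) := by
    intro z
    split_ifs with h
    · refine (prod_eq_one fun i _ => ?_).symm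
      by_cases e : i = j
      · subst e
        simp [f, h.1]
      · simp [f, e, h.2 i e]
    · symm
      by_cases e : z j = ζ j
      · obtain ⟨i, hi, hi'⟩ : ∃ i, i ≠ j ∧ z i = ζ i := by
          by_contra hc
          exact h ⟨e, fun i hi hi' => hc ⟨i, hi, hi'⟩⟩
        exact prod_eq_zero (mem_univ i) (by simp [f, hi, hi'])
      · exact prod_eq_zero (mem_univ j) (by simp [f, e])
  simp only [h1]
  rw [expect_prod_coord, ← mul_prod_erase univ _ (mem_univ j)]
  have h2 : (𝔼 t, f j t) = 1 / (2 * (L : ℝ)) := by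
    simp only [f, if_true]
    rw [lpn_aux_eq]
    push_cast
    rfl
  have h3 : ∏ i ∈ univ.erase j, (𝔼 t, f i t) = (1 + -(1 / (2 * (L : ℝ)))) ^ #(univ.erase j) := by
    rw [← prod_const]
    refine prod_congr rfl fun i hi => ?_
    simp only [f, if_neg (ne_of_mem_erase hi)]
    rw [lpn_aux_ne]
    push_cast
    ring
  have h4 : (#(univ.erase j) : ℝ) ≤ L := by
    have := card_erase_le (s := (univ : Finset (Fin L))) (a := j)
    rw [card_univ, Fintype.card_fin] at this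
    exact_mod_cast this
  have h5 : 1 / (2 * (L : ℝ)) ≤ 1 := by
    rw [div_le_one (by positivity)]
    linarith
  have h6 := one_add_mul_le_pow (a := -(1 / (2 * (L : ℝ)))) (by linarith) #(univ.erase j)
  have h7 : (#(univ.erase j) : ℝ) * (1 / (2 * (L : ℝ))) ≤ L * (1 / (2 * (L : ℝ))) :=
    mul_le_mul_of_nonneg_right h4 (by positivity)
  have h8 : (L : ℝ) * (1 / (2 * (L : ℝ))) = 1 / 2 := by field_simp
  rw [h2, h3]
  calc 1 / (4 * (L : ℝ)) = 1 / (2 * (L : ℝ)) * (1 / 2) := by field_simp; ring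
    _ ≤ _ := mul_le_mul_of_nonneg_left (by linarith) (by positivity)

lemma lpn_aux_coord {L M : ℕ} (a : Fin M) (j : Fin L) :
    (𝔼 z : Fin L → Fin M, if z j = a then (1 : ℝ) else 0) = 1 / (M : ℝ) := by
  have : Nonempty (Fin M) := ⟨a⟩
  let f : Fin L → Fin M → ℝ := fun i t => if i = j then (if t = a then 1 else 0) else 1
  have h1 : ∀ z : Fin L → Fin M, (if z j = a then (1 : ℝ) else 0) = ∏ i, f i (z i) := by
    intro z
    rw [← mul_prod_erase univ _ (mem_univ j), prod_eq_one fun i hi => by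
      simp only [f, if_neg (ne_of_mem_erase hi)]]
    simp [f]
  simp only [h1]
  rw [expect_prod_coord, ← mul_prod_erase univ _ (mem_univ j), prod_eq_one fun i hi => by
    simp only [f, if_neg (ne_of_mem_erase hi)]
    exact expect_const univ_nonempty _]
  simp only [f, if_true]
  rw [lpn_aux_eq, mul_one]

lemma lpn_aux_sel {L L' : ℕ} (ζ z : Fin L → Fin L') (ℓ : Fin L → ℝ) :
    (∑ j, if Only ζ z j then ℓ j else 0) = 0 ∨
      ∃ j, z j = ζ j ∧ (∑ j, if Only ζ z j then ℓ j else 0) = ℓ j := by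
  by_cases h : ∃ j, Only ζ z j
  · obtain ⟨j, hj⟩ := h
    refine Or.inr ⟨j, hj.1, ?_⟩
    rw [sum_eq_single j, if_pos hj]
    · intro i _ hi
      exact if_neg fun h' => hj.2 i hi h'.1
    · intro h'
      exact absurd (mem_univ j) h'
  · exact Or.inl (sum_eq_zero fun j _ => if_neg fun h' => h ⟨j, h'⟩)

lemma lpn_aux_root {x ρ q : ℝ} (hx : 0 ≤ x) (hρ : 0 < ρ) (hq : 1 ≤ q) :
    x ^ (1 / q) ≤ ρ + ρ / ρ ^ q * x := by
  have h1 : 0 < ρ ^ q := by positivity
  have h2 : x ^ (1 / q) = ρ * (x / ρ ^ q) ^ (1 / q) := by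
    rw [Real.div_rpow hx h1.le, one_div, Real.rpow_rpow_inv hρ.le (by linarith)]
    field_simp
  have h3 : (x / ρ ^ q) ^ (1 / q) ≤ 1 + x / ρ ^ q := by
    have h4 : 0 ≤ x / ρ ^ q := by positivity
    rcases le_total (x / ρ ^ q) 1 with h | h
    · have := Real.rpow_le_one h4 h (show 0 ≤ 1 / q by positivity)
      linarith
    · have := Real.rpow_le_rpow_of_exponent_le h
        (show 1 / q ≤ 1 from (div_le_one (by linarith)).2 hq)
      rw [Real.rpow_one] at this
      linarith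
  rw [h2]
  calc _ ≤ ρ * (1 + x / ρ ^ q) := mul_le_mul_of_nonneg_left h3 hρ.le
    _ = _ := by ring

/-- Random selection. At most one `j` is selected for each `k`. For `p = ∞` every term is at most
`ρ`. For finite `p`, `|t k| ^ p ≤ ∑ j, (if z j = ζ k j then ℓ j k ^ p else 0)`, whose average summed
over `k` is at most `ρ ^ p / 2`; use `x ≤ ρ * (1 + (x / ρ) ^ p)` (if `ρ = 0` all `ℓ j k` with
`k < n` vanish). -/
lemma expect_lpn_sel_le {L : ℕ} (n : ℕ) (ζ : ℕ → Fin L → Fin (2 * L)) (ℓ : Fin L → ℕ → ℝ)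
    (hℓ : ∀ j k, 0 ≤ ℓ j k) {ρ : ℝ} (hρ0 : 0 ≤ ρ) (hρ : ∀ j, lpn p n (ℓ j) ≤ ρ) :
    𝔼 z : Fin L → Fin (2 * L),
      lpn p n (fun k => ∑ j, if Only (ζ k) z j then ℓ j k else 0) ≤ 2 * ρ := by
  have hne : Nonempty (Fin L → Fin (2 * L)) := ⟨ζ 0⟩
  have hle : ∀ z : Fin L → Fin (2 * L), ∀ k < n,
      |∑ j, if Only (ζ k) z j then ℓ j k else 0| ≤ ρ := by
    intro z k hk
    rcases lpn_aux_sel (ζ k) z (fun j => ℓ j k) with h | ⟨j, -, h⟩
    · rw [h, abs_zero]
      exact hρ0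
    · rw [h]
      exact (le_lpn hk (ℓ j)).trans (hρ j)
  by_cases hp : p = ⊤
  · subst hp
    refine expect_le univ_nonempty fun z _ => ?_
    exact ((lpn_top_le_iff _ _ hρ0).2 (hle z)).trans (by linarith)
  have h1 := lpn_aux_one_le hp
  rcases hρ0.eq_or_lt with rfl | hρ1
  · refine expect_le univ_nonempty fun z _ => ?_
    rw [mul_zero]
    exact (lpn_le_of_le fun k hk => by simpa using hle z k hk).trans
      (lpn_aux_zero (p := p) 0).le
  have hq : 0 < ρ ^ p.toReal := by positivity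
  have h2 : ∀ z : Fin L → Fin (2 * L),
      lpn p n (fun k => ∑ j, if Only (ζ k) z j then ℓ j k else 0) ≤ ρ + ρ / ρ ^ p.toReal *
        ∑ j, ∑ k ∈ range n, |ℓ j k| ^ p.toReal * if z j = ζ k j then (1 : ℝ) else 0 := by
    intro z
    rw [lpn_eq_sum hp]
    refine (lpn_aux_root (by positivity) hρ1 h1).trans
      (add_le_add le_rfl (mul_le_mul_of_nonneg_left ?_ (by positivity)))
    rw [sum_comm]
    refine sum_le_sum fun k _ => ?_
    have h0 : ∀ j ∈ (univ : Finset (Fin L)),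
        0 ≤ |ℓ j k| ^ p.toReal * if z j = ζ k j then (1 : ℝ) else 0 := fun j _ => by positivity
    rcases lpn_aux_sel (ζ k) z (fun j => ℓ j k) with h | ⟨j, hj, h⟩
    · rw [h, abs_zero, Real.zero_rpow (by linarith)]
      exact sum_nonneg h0
    · rw [h]
      refine le_trans ?_ (single_le_sum h0 (mem_univ j))
      rw [if_pos hj, mul_one]
  have h3 : ∀ j, ∑ k ∈ range n, |ℓ j k| ^ p.toReal ≤ ρ ^ p.toReal := by
    intro j
    have h4 := Real.rpow_le_rpow (lpn_nonneg _ _) (hρ j) (show 0 ≤ p.toReal by linarith)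
    rwa [lpn_eq_sum hp, one_div, Real.rpow_inv_rpow (by positivity) (by linarith)] at h4
  refine (expect_le_expect fun z _ => h2 z).trans ?_
  rw [expect_add_distrib, expect_const univ_nonempty, ← mul_expect, expect_sum_comm]
  have h5 : ∀ j : Fin L, (𝔼 z : Fin L → Fin (2 * L), ∑ k ∈ range n,
      |ℓ j k| ^ p.toReal * if z j = ζ k j then (1 : ℝ) else 0) ≤ ρ ^ p.toReal / L := by
    intro j
    have hL : (1 : ℝ) ≤ L := by exact_mod_cast j.pos
    rw [expect_sum_comm]
    simp only [← mul_expect, lpn_aux_coord]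
    rw [← sum_mul, div_eq_mul_one_div (ρ ^ p.toReal)]
    refine mul_le_mul (h3 j) (one_div_le_one_div_of_le (by linarith) ?_) (by positivity) hq.le
    push_cast
    linarith
  have h6 := sum_le_sum fun j (_ : j ∈ (univ : Finset (Fin L))) => h5 j
  rw [sum_const, card_univ, Fintype.card_fin, nsmul_eq_mul] at h6
  have h7 : (L : ℝ) * (ρ ^ p.toReal / L) ≤ ρ ^ p.toReal := by
    rcases Nat.eq_zero_or_pos L with rfl | hL
    · simpa using hq.le
    · have : (0 : ℝ) < L := by exact_mod_cast hL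
      rw [mul_div_cancel₀ _ this.ne']
  have h8 := mul_le_mul_of_nonneg_left (h6.trans h7) (show 0 ≤ ρ / ρ ^ p.toReal by positivity)
  rw [div_mul_cancel₀ _ hq.ne'] at h8
  linarith

end

end Pool.Agent.Lib.MP_e0f470_an
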