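import Pool.Agent.Lib.MP_e0f470_an.Base

/-! Szarek's argument: no basis with small constant. -/

set_option autoImplicit false

namespace Pool.Agent.Lib.MP_e0f470_an

open Finset
open scoped BigOperators

variable {𝕜 : Type*} [RCLike 𝕜]

section
variable {E : Type*} [NormedAddCommGroup E] [NormedSpace 𝕜 E] {ι : Type} [Fintype ι]
  [DecidableEq ι]

/-- The norm `max (ν (Q x)) (q (x - J (Q x)))`. -/
noncomputable def sumSemi (ν : Seminorm 𝕜 (Eu 𝕜 ι)) (q : Seminorm 𝕜 E) (J : Eu 𝕜 ι →L[𝕜] E)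
    (Q : E →L[𝕜] Eu 𝕜 ι) : Seminorm 𝕜 E :=
  ν.comp (Q : E →ₗ[𝕜] Eu 𝕜 ι) ⊔ q.comp (LinearMap.id - (J ∘L Q).toLinearMap)

omit [DecidableEq ι] in
lemma sumSemi_apply (ν : Seminorm 𝕜 (Eu 𝕜 ι)) (q : Seminorm 𝕜 E) (J : Eu 𝕜 ι →L[𝕜] E)
    (Q : E →L[𝕜] Eu 𝕜 ι) (x : E) : sumSemi ν q J Q x = max (ν (Q x)) (q (x - J (Q x))) := by
  simp [sumSemi, Seminorm.sup_apply]

omit [DecidableEq ι] in
lemma equi_sumSemi {ν : Seminorm 𝕜 (Eu 𝕜 ι)} (hν : Equi ν) {q : Seminorm 𝕜 E} (hq : Equi q)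
    (J : Eu 𝕜 ι →L[𝕜] E) (Q : E →L[𝕜] Eu 𝕜 ι) : Equi (sumSemi ν q J Q) := by
  obtain ⟨c1, C1, hc1, hC1, h1⟩ := hν
  obtain ⟨c2, C2, hc2, hC2, h2⟩ := hq
  have hJ := norm_nonneg J
  have hQ := norm_nonneg Q
  refine ⟨1 / (‖J‖ / c1 + 1 / c2), C1 * ‖Q‖ + C2 * (1 + ‖J‖ * ‖Q‖), by positivity,
    by positivity, fun y => ⟨?_, ?_⟩⟩
  · rw [sumSemi_apply]
    set m := max (ν (Q y)) (q (y - J (Q y))) with hm
    have ha : ‖Q y‖ ≤ m / c1 := by
      rw [le_div_iff₀ hc1]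
      have := (h1 (Q y)).1.trans (le_max_left _ (q (y - J (Q y))))
      linarith
    have hb : ‖y - J (Q y)‖ ≤ m / c2 := by
      rw [le_div_iff₀ hc2]
      have := (h2 (y - J (Q y))).1.trans (le_max_right (ν (Q y)) _)
      linarith
    have hc : ‖y‖ ≤ ‖J‖ * ‖Q y‖ + ‖y - J (Q y)‖ := by
      calc ‖y‖ = ‖J (Q y) + (y - J (Q y))‖ := by congr 1; abel
        _ ≤ ‖J (Q y)‖ + ‖y - J (Q y)‖ := norm_add_le _ _
        _ ≤ _ := by gcongr; exact J.le_opNorm _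
    have hd : ‖y‖ ≤ (‖J‖ / c1 + 1 / c2) * m := by
      calc ‖y‖ ≤ ‖J‖ * (m / c1) + m / c2 := by
            refine hc.trans ?_
            gcongr
        _ = _ := by ring
    rw [one_div, inv_mul_le_iff₀ (by positivity)]
    exact hd
  · rw [sumSemi_apply]
    have hy := norm_nonneg y
    have ha : ‖Q y‖ ≤ ‖Q‖ * ‖y‖ := Q.le_opNorm _
    have hb : ‖y - J (Q y)‖ ≤ (1 + ‖J‖ * ‖Q‖) * ‖y‖ := by
      calc ‖y - J (Q y)‖ ≤ ‖y‖ + ‖J (Q y)‖ := norm_sub_le _ _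
        _ ≤ ‖y‖ + ‖J‖ * (‖Q‖ * ‖y‖) := by
            gcongr
            exact (J.le_opNorm _).trans (by gcongr)
        _ = _ := by ring
    have h3 : ν (Q y) ≤ C1 * ‖Q‖ * ‖y‖ := by
      refine (h1 _).2.trans ?_
      rw [mul_assoc]; gcongr
    have h4 : q (y - J (Q y)) ≤ C2 * (1 + ‖J‖ * ‖Q‖) * ‖y‖ := by
      refine (h2 _).2.trans ?_
      rw [mul_assoc]; gcongr
    have h5 : 0 ≤ C1 * ‖Q‖ * ‖y‖ := by positivity
    have h6 : 0 ≤ C2 * (1 + ‖J‖ * ‖Q‖) * ‖y‖ := by positivity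
    refine max_le ?_ ?_ <;> nlinarith

/-- Suppose all `P k = b.proj k` are `K`-bounded for `p = sumSemi ν q J Q`. Let `π = 1 - J Q`,
`T k = Q (P k) J`, `N = card ι`. Then `p (J a) = ν a`, `T k` is `K`-bounded for `ν`, `tr (T 0) = 0`,
`tr (T k) → N` (`tr_eq_sum`, `b.tendsto_proj`). The step `T (k+1) - T k` is `a ↦ φ a • y` with
`y = Q (b k)`, `φ = b.coord k ∘ J`, of trace `φ y`, and `2 K`-bounded, so `‖φ y‖ ≤ 2 K`
(evaluate at `y`; `ν y = 0` forces `y = 0`). Moreover `T k - T k ∘ T k = B ∘ A` with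
`A = π (P k) J`, `B = Q (P k) π` (`b.proj_comp`, `π π = π`), where `q (A a) ≤ K ν a` and
`ν (B y) ≤ K p (π y) = K q (π y) ≤ K C₀ q y`; rescale and use `Small`:
`‖tr (T k - T k ∘ T k)‖ ≤ N / 16`. With `Rigid`, `t = tr (T k) / N` has `‖t - t²‖ ≤ 1 / 8`. For the
first `k` with `N / 2 ≤ re (tr (T k))` we have `1/2 ≤ re t ≤ 1/2 + 1/32`, and
`re (t - t²) = re t - (re t)² + (im t)² > 1 / 8`, a contradiction. -/
theorem no_basis {ν : Seminorm 𝕜 (Eu 𝕜 ι)} (hν : Equi ν) {K C₀ : ℝ} (hK : 1 ≤ K) (hC : 1 ≤ C₀)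
    (hR : Rigid ν K (1 / 16)) (hN : 64 * K ≤ Fintype.card ι) (J : Eu 𝕜 ι →L[𝕜] E)
    (Q : E →L[𝕜] Eu 𝕜 ι) (hQJ : ∀ a, Q (J a) = a) (q : Seminorm 𝕜 E)
    (hq : ∀ x, q (x - J (Q x)) ≤ C₀ * q x) (hS : Small ν q (1 / (16 * K ^ 2 * C₀)))
    (b : SchauderBasis 𝕜 E) :
    ¬ ∀ k x, sumSemi ν q J Q (b.proj k x) ≤ K * sumSemi ν q J Q x := by
  intro hP
  set p := sumSemi ν q J Q with hp
  set N : ℝ := (Fintype.card ι : ℝ) with hNdef
  have hK0 : 0 < K := by linarith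
  have hC0 : 0 < C₀ := by linarith
  have hN0 : 0 < N := by linarith
  have hpν : ∀ x, ν (Q x) ≤ p x := fun x => by rw [hp, sumSemi_apply]; exact le_max_left _ _
  have hpq : ∀ x, q (x - J (Q x)) ≤ p x := fun x => by
    rw [hp, sumSemi_apply]; exact le_max_right _ _
  have hpJ : ∀ a, p (J a) = ν a := fun a => by
    rw [hp, sumSemi_apply, hQJ, sub_self, map_zero]
    exact max_eq_left (apply_nonneg _ _)
  let T : ℕ → Eu 𝕜 ι →ₗ[𝕜] Eu 𝕜 ι := fun k => (Q ∘L b.proj k ∘L J).toLinearMap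
  have hT : ∀ k a, T k a = Q (b.proj k (J a)) := fun k a => rfl
  have hTb : ∀ k a, ν (T k a) ≤ K * ν a := fun k a => by
    rw [hT, ← hpJ a]; exact (hpν _).trans (hP k _)
  have hT0 : tr (T 0) = 0 := by
    rw [tr_eq_sum]
    simp [hT, b.proj_zero]
  have hlim : Filter.Tendsto (fun k => RCLike.re (tr (T k))) Filter.atTop (nhds N) := by
    have h1 : Filter.Tendsto (fun k => tr (T k)) Filter.atTop
        (nhds (∑ i : ι, (Q (J (ev 𝕜 i))) i)) := by
      simp_rw [tr_eq_sum, hT]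
      refine tendsto_finsetSum _ fun i _ => ?_
      exact ((EuclideanSpace.proj (𝕜 := 𝕜) i).continuous.tendsto _).comp
        ((Q.continuous.tendsto _).comp (b.tendsto_proj _))
    have h2 : (∑ i : ι, (Q (J (ev 𝕜 i))) i) = (N : 𝕜) := by
      simp [hQJ, ev_apply, hNdef]
    rw [h2] at h1
    have h3 := (RCLike.continuous_re.tendsto _).comp h1
    rw [RCLike.ofReal_re] at h3
    exact h3
  have hstep : ∀ k, ‖tr (T (k + 1)) - tr (T k)‖ ≤ 2 * K := by
    intro k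
    set y := Q (b k) with hy
    have h1 : ∀ a, T (k + 1) a - T k a = b.coord k (J a) • y := fun a => by
      rw [hT, hT, b.proj_apply, b.proj_apply, Finset.sum_range_succ, map_add, map_smul]
      abel
    have h2 : tr (T (k + 1)) - tr (T k) = b.coord k (J y) := by
      rw [tr_eq_sum, tr_eq_sum, ← Finset.sum_sub_distrib]
      conv_rhs => rw [← sum_ev y, map_sum, map_sum]
      refine Finset.sum_congr rfl fun i _ => ?_
      have := congrArg (fun v : Eu 𝕜 ι => v i) (h1 (ev 𝕜 i))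
      simp only [PiLp.sub_apply, PiLp.smul_apply, smul_eq_mul] at this
      rw [this, map_smul, map_smul, smul_eq_mul, mul_comm]
    rw [h2]
    have h3 : ‖b.coord k (J y)‖ * ν y ≤ 2 * K * ν y := by
      rw [← map_smul_eq_mul, ← h1]
      have := map_sub_le_add ν (T (k + 1) y) (T k y)
      have := hTb (k + 1) y
      have := hTb k y
      linarith
    rcases (apply_nonneg ν y).eq_or_lt with h0 | h0
    · obtain ⟨c, C, hc, -, h⟩ := hν
      have h4 : ‖y‖ ≤ 0 := by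
        have := (h y).1
        rw [← h0] at this
        by_contra hh
        push Not at hh
        have := mul_pos hc hh
        linarith
      rw [norm_le_zero_iff.mp h4]
      simp only [map_zero, norm_zero]
      positivity
    · exact le_of_mul_le_mul_right h3 h0
  have hsmall : ∀ k, ‖tr (T k) - tr (T k ∘ₗ T k)‖ ≤ N / 16 := by
    intro k
    let π : E →ₗ[𝕜] E := LinearMap.id - (J ∘L Q).toLinearMap
    have hπ : ∀ x, π x = x - J (Q x) := fun x => rfl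
    have hQπ : ∀ x, Q (π x) = 0 := fun x => by rw [hπ, map_sub, hQJ, sub_self]
    let A : Eu 𝕜 ι →ₗ[𝕜] E := π ∘ₗ (b.proj k ∘L J).toLinearMap
    let B : E →ₗ[𝕜] Eu 𝕜 ι := (Q ∘L b.proj k).toLinearMap ∘ₗ π
    have hA : ∀ a, A a = π (b.proj k (J a)) := fun a => rfl
    have hB : ∀ y, B y = Q (b.proj k (π y)) := fun y => rfl
    have hBA : B ∘ₗ A = T k - T k ∘ₗ T k := by
      refine LinearMap.ext fun a => ?_
      show B (A a) = T k a - T k (T k a)
      rw [hB, hA, hπ (π _), hQπ,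
        map_zero, sub_zero, hπ, map_sub, map_sub, b.proj_comp, min_self, hT, hT]
    have hA' : ∀ a, q ((((K⁻¹ : ℝ) : 𝕜) • A) a) ≤ ν a := fun a => by
      rw [LinearMap.smul_apply, map_smul_eq_mul, RCLike.norm_ofReal, abs_of_pos (inv_pos.2 hK0),
        inv_mul_le_iff₀ hK0, hA, hπ, ← hpJ a]
      exact (hpq _).trans (hP k _)
    have hB' : ∀ y, ν (((((K * C₀)⁻¹ : ℝ) : 𝕜) • B) y) ≤ q y := fun y => by
      rw [LinearMap.smul_apply, map_smul_eq_mul, RCLike.norm_ofReal,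
        abs_of_pos (inv_pos.2 (mul_pos hK0 hC0)), inv_mul_le_iff₀ (mul_pos hK0 hC0), hB]
      refine ((hpν _).trans (hP k _)).trans ?_
      have : p (π y) = q (π y) := by
        rw [hp, sumSemi_apply, hQπ, map_zero, map_zero, sub_zero]
        exact max_eq_right (apply_nonneg _ _)
      rw [this, mul_assoc, hπ]
      exact mul_le_mul_of_nonneg_left (hq y) hK0.le
    have h := hS _ _ hA' hB'
    rw [LinearMap.smul_comp, LinearMap.comp_smul, hBA] at h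
    simp only [tr, map_smul, map_sub, norm_smul, RCLike.norm_ofReal] at h
    rw [abs_of_pos (inv_pos.2 hK0), abs_of_pos (inv_pos.2 (mul_pos hK0 hC0))] at h
    have h2 : (K * C₀)⁻¹ * (K⁻¹ * (N / 16)) = 1 / (16 * K ^ 2 * C₀) * N := by
      field_simp
    rw [← hNdef, ← h2] at h
    exact le_of_mul_le_mul_left (le_of_mul_le_mul_left h (inv_pos.2 (mul_pos hK0 hC0)))
      (inv_pos.2 hK0)
  have hex : ∃ k, N / 2 ≤ RCLike.re (tr (T k)) :=
    (hlim.eventually (eventually_ge_nhds (by linarith : N / 2 < N))).exists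
  classical
  have hk := Nat.find_spec hex
  have hk0 : Nat.find hex ≠ 0 := by
    intro h
    rw [h, hT0] at hk
    simp only [map_zero] at hk
    linarith
  obtain ⟨k, hkk⟩ := Nat.exists_eq_succ_of_ne_zero hk0
  have hlt : ¬ N / 2 ≤ RCLike.re (tr (T k)) := Nat.find_min hex (by omega)
  rw [hkk] at hk
  set τ := tr (T (k + 1)) with hτ
  have hup : RCLike.re τ ≤ N / 2 + N / 32 := by
    have h1 := (RCLike.re_le_norm _).trans (hstep k)
    rw [map_sub] at h1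
    push Not at hlt
    linarith
  have h8 : ‖τ - τ ^ 2 / (Fintype.card ι : 𝕜)‖ ≤ N / 8 := by
    have h1 := hR (T (k + 1)) (hTb (k + 1))
    have h2 := hsmall (k + 1)
    calc ‖τ - τ ^ 2 / (Fintype.card ι : 𝕜)‖
        = ‖(τ - tr (T (k + 1) ∘ₗ T (k + 1))) +
            (tr (T (k + 1) ∘ₗ T (k + 1)) - τ ^ 2 / (Fintype.card ι : 𝕜))‖ := by congr 1; ring
      _ ≤ _ := norm_add_le _ _
      _ ≤ N / 16 + 1 / 16 * N := add_le_add h2 h1
      _ = N / 8 := by ring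
  have h9 := (RCLike.re_le_norm _).trans h8
  have h10 : RCLike.re (τ ^ 2 / (Fintype.card ι : 𝕜)) =
      (RCLike.re τ ^ 2 - RCLike.im τ ^ 2) / N := by
    have : (Fintype.card ι : 𝕜) = ((N : ℝ) : 𝕜) := by simp [hNdef]
    rw [this, RCLike.div_re_ofReal, pow_two, RCLike.mul_re]
    ring
  rw [map_sub, h10] at h9
  have h11 : RCLike.re τ * N - (RCLike.re τ ^ 2 - RCLike.im τ ^ 2) ≤ N / 8 * N := by
    have := mul_le_mul_of_nonneg_right h9 hN0.le
    rwa [sub_mul, div_mul_cancel₀ _ hN0.ne'] at this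
  nlinarith [sq_nonneg (RCLike.im τ), mul_pos hN0 hN0,
    mul_nonneg (sub_nonneg.2 hk) (sub_nonneg.2 hup)]

end

end Pool.Agent.Lib.MP_e0f470_an
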