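import Pool.Agent.Lib.MP_e0f470_an.Base
import Pool.Agent.Lib.MP_e0f470_an.Defs

/-! From equivalent seminorms to normed spaces. -/

set_option autoImplicit false

namespace Pool.Agent.Lib.MP_e0f470_an

open Finset
open scoped BigOperators

variable {𝕜 : Type*} [RCLike 𝕜]

universe v

/-- A copy of a type, to carry another norm. -/
def RenCopy (E : Type v) : Type v := E

section
variable {E : Type v} [NormedAddCommGroup E] [NormedSpace 𝕜 E]

/-- An equivalent seminorm is the norm of an isomorphic normed space. Use a type synonym (a one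
field structure or a `def` copy of `E` with the transported module structure),
`AddGroupNorm.toNormedAddCommGroup` and `LinearEquiv.toContinuousLinearEquivOfBounds`. -/
lemma exists_renorm (q : Seminorm 𝕜 E) (hq : Equi q) :
    ∃ (X : Type v) (_ : NormedAddCommGroup X) (_ : NormedSpace 𝕜 X) (e : E ≃L[𝕜] X),
      ∀ x, ‖e x‖ = q x := by
  obtain ⟨c, C, hc, hC, h⟩ := hq
  let _ : AddCommGroup (RenCopy E) := inferInstanceAs (AddCommGroup E)
  let _ : Module 𝕜 (RenCopy E) := inferInstanceAs (Module 𝕜 E)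
  let e0 : E ≃ₗ[𝕜] RenCopy E := LinearEquiv.refl 𝕜 E
  let N : AddGroupNorm (RenCopy E) :=
    { toFun := fun x => q (e0.symm x)
      map_zero' := by simp
      add_le' := fun x y => by rw [map_add]; exact map_add_le_add q _ _
      neg' := fun x => by rw [map_neg]; exact map_neg_eq_map q _
      eq_zero_of_map_eq_zero' := fun x hx => by
        have h1 := (h (e0.symm x)).1
        have h2 : ‖e0.symm x‖ ≤ 0 := by
          by_contra h3
          have := mul_pos hc (not_le.1 h3)
          linarith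
        have h3 : e0.symm x = 0 := norm_le_zero_iff.1 h2
        simpa using h3 }
  let _ : NormedAddCommGroup (RenCopy E) := N.toNormedAddCommGroup
  have hn : ∀ x : RenCopy E, ‖x‖ = q (e0.symm x) := fun x => rfl
  let _ : NormedSpace 𝕜 (RenCopy E) :=
    { norm_smul_le := fun a x => by rw [hn, hn, map_smul, map_smul_eq_mul] }
  refine ⟨RenCopy E, inferInstance, inferInstance,
    e0.toContinuousLinearEquivOfBounds C c⁻¹ (fun x => ?_) (fun x => ?_), fun x => ?_⟩
  · rw [hn, e0.symm_apply_apply]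
    exact (h x).2
  · rw [hn, le_inv_mul_iff₀ hc]
    exact (h _).1
  · exact (hn _).trans (congrArg q (e0.symm_apply_apply x))

/-- Transport of a Schauder basis along an isomorphism. -/
lemma exists_basis_map {X : Type*} [NormedAddCommGroup X] [NormedSpace 𝕜 X] (e : E ≃L[𝕜] X)
    (b : SchauderBasis 𝕜 E) :
    ∃ b' : SchauderBasis 𝕜 X, ∀ k x, b'.proj k (e x) = e (b.proj k x) := by
  refine ⟨{ basis := fun i => e (b i)
            coord := fun i => (b.coord i).comp (e.symm : X →L[𝕜] E)
            ortho := fun i j => by simpa using b.ortho i j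
            expansion := fun x => ?_ }, fun k x => ?_⟩
  · have := (b.expansion (e.symm x)).map (e : E →L[𝕜] X) e.continuous
    simpa [Function.comp_def] using this
  · simp [SchauderBasis.proj_apply]

/-- Apply `Kill` with `K = n + 1`, take `X` from `exists_renorm` (complete because `E` is). Every
basis `b'` of `X` has `n + 1 < b'.nnnormProjBound` (otherwise transport it back by `e.symm` and use
`norm_proj_le_nnnormProjBound`), so the supremum is at most `1 / (n + 1)` and positive. -/
theorem smallIndex_of_kill [CompleteSpace E] (b : SchauderBasis 𝕜 E) (h : Kill 𝕜 E) :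
    SmallIndexRenormings 𝕜 E := by
  intro n hn
  have hn' : (1 : ℝ) ≤ n := by exact_mod_cast hn
  obtain ⟨q, hq, hk⟩ := h (n + 1) (by linarith)
  obtain ⟨X, _, _, e, he⟩ := exists_renorm q hq
  have : CompleteSpace X :=
    (completeSpace_congr (e := e.toEquiv) e.isUniformEmbedding).1 inferInstance
  have hbig : ∀ b' : SchauderBasis 𝕜 X, (n : ℝ) + 1 < b'.nnnormProjBound := by
    intro b'
    by_contra hle
    obtain ⟨b'', hb''⟩ := exists_basis_map e.symm b'
    refine hk b'' fun k x => ?_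
    have h1 := hb'' k (e x)
    rw [e.symm_apply_apply] at h1
    rw [h1, ← he, ← he, e.apply_symm_apply]
    exact ((b'.proj k).le_opNorm _).trans (mul_le_mul_of_nonneg_right
      ((b'.norm_proj_le_nnnormProjBound k).trans (not_lt.1 hle)) (norm_nonneg _))
  have hle : ∀ b' : SchauderBasis 𝕜 X, ((b'.nnnormProjBound : ℝ))⁻¹ ≤ ((n : ℝ) + 1)⁻¹ :=
    fun b' => inv_anti₀ (by linarith) (hbig b').le
  obtain ⟨b', -⟩ := exists_basis_map e b
  refine ⟨X, inferInstance, inferInstance, ⟨e⟩, ?_, ?_⟩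
  · refine lt_of_lt_of_le (inv_pos.2 (lt_trans (by linarith) (hbig b'))) ?_
    exact le_ciSup (f := fun b' : SchauderBasis 𝕜 X => ((b'.nnnormProjBound : ℝ))⁻¹)
      ⟨_, by rintro _ ⟨b₁, rfl⟩; exact hle b₁⟩ b'
  · refine lt_of_le_of_lt (Real.iSup_le hle (by positivity)) ?_
    rw [one_div]
    exact inv_strictAnti₀ (by linarith) (by linarith)

/-- The pull back of the norm along an isomorphism is equivalent to the norm. -/
lemma renorm_aux_equi {Y X : Type*} [NormedAddCommGroup Y] [NormedSpace 𝕜 Y]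
    [NormedAddCommGroup X] [NormedSpace 𝕜 X] (e : Y ≃L[𝕜] X) :
    Equi ((normSeminorm 𝕜 X).comp e.toLinearEquiv.toLinearMap) := by
  refine ⟨(‖(e.symm : X →L[𝕜] Y)‖ + 1)⁻¹, ‖(e : Y →L[𝕜] X)‖ + 1, by positivity, by positivity,
    fun y => ⟨?_, ?_⟩⟩
  · change _ ≤ ‖e y‖
    rw [inv_mul_le_iff₀ (by positivity)]
    have := (e.symm : X →L[𝕜] Y).le_opNorm (e y)
    simp only [ContinuousLinearEquiv.coe_coe, ContinuousLinearEquiv.symm_apply_apply] at this
    nlinarith [norm_nonneg (e y)]
  · change ‖e y‖ ≤ _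
    have := (e : Y →L[𝕜] X).le_opNorm y
    simp only [ContinuousLinearEquiv.coe_coe] at this
    nlinarith [norm_nonneg y]

/-- The hypothesis in terms of normed spaces implies `HF`. Take `q x = ‖e x‖`, a linear
equivalence `φ : Eu 𝕜 (Fin d) ≃L G` (`d = finrank G`), `γ g = ‖φ g‖`. If `a, b` factor the
identity, then `e a φ⁻¹` and `φ b e⁻¹` are continuous with norms at most `1` and `K`. -/
theorem hf_of_normed (h : ∀ K : ℝ, ∃ (X : Type v) (_ : NormedAddCommGroup X) (_ : NormedSpace 𝕜 X)
      (G : Type*) (_ : NormedAddCommGroup G) (_ : NormedSpace 𝕜 G),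
      Nonempty (E ≃L[𝕜] X) ∧ FiniteDimensional 𝕜 G ∧
      ∀ (a : G →L[𝕜] X) (b : X →L[𝕜] G), b ∘L a = ContinuousLinearMap.id 𝕜 G → K < ‖a‖ * ‖b‖) :
    HF 𝕜 E := by
  intro K hK
  obtain ⟨X, _, _, G, _, _, ⟨e⟩, hG, hab⟩ := h K
  let φ : Eu 𝕜 (Fin (Module.finrank 𝕜 G)) ≃L[𝕜] G :=
    ContinuousLinearEquiv.ofFinrankEq (by simp)
  refine ⟨(normSeminorm 𝕜 X).comp e.toLinearEquiv.toLinearMap, renorm_aux_equi e,
    Fin (Module.finrank 𝕜 G), inferInstance, inferInstance,
    (normSeminorm 𝕜 G).comp φ.toLinearEquiv.toLinearMap, renorm_aux_equi φ, ?_⟩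
  intro a b ha hb hid
  have ha' : ∀ g, ‖e (a g)‖ ≤ ‖φ g‖ := ha
  have hb' : ∀ y, ‖φ (b y)‖ ≤ K * ‖e y‖ := hb
  have hA : ∀ g : G, ‖(e.toLinearEquiv.toLinearMap ∘ₗ a ∘ₗ φ.symm.toLinearEquiv.toLinearMap) g‖ ≤
      1 * ‖g‖ := fun g => by simpa using ha' (φ.symm g)
  have hB : ∀ x : X, ‖(φ.toLinearEquiv.toLinearMap ∘ₗ b ∘ₗ e.symm.toLinearEquiv.toLinearMap) x‖ ≤
      K * ‖x‖ := fun x => by simpa using hb' (e.symm x)
  have h1 := hab (LinearMap.mkContinuous _ 1 hA) (LinearMap.mkContinuous _ K hB) (by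
    ext g
    have := LinearMap.congr_fun hid (φ.symm g)
    simp only [LinearMap.comp_apply, LinearMap.id_apply] at this
    simp [this])
  have h2 := LinearMap.mkContinuous_norm_le _ zero_le_one hA
  have h3 := LinearMap.mkContinuous_norm_le _ (by linarith : (0 : ℝ) ≤ K) hB
  have h4 := mul_le_mul h2 h3 (norm_nonneg _) zero_le_one
  linarith

end

end Pool.Agent.Lib.MP_e0f470_an
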