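import Pool.Agent.Lib.MP_e0f470_an.Pack
import Pool.Agent.Lib.MP_e0f470_an.NoBasis
import Pool.Agent.Lib.MP_e0f470_an.Renorm
import Pool.Agent.Lib.MP_e0f470_an.James

/-! The reduction theorem. -/

set_option autoImplicit false

namespace Pool.Agent.Lib.MP_e0f470_an

open Finset
open scoped BigOperators

variable {𝕜 : Type*} [RCLike 𝕜]

universe v

variable {E : Type v} [NormedAddCommGroup E] [NormedSpace 𝕜 E] [CompleteSpace E]

theorem kill_of_hf (b : SchauderBasis 𝕜 E) (h : HF 𝕜 E) : Kill 𝕜 E := by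
  obtain ⟨C₀, hC₀, hP⟩ := exists_proj b h
  intro K hK
  have hδ : 0 < 1 / (16 * K ^ 2 * C₀) := by positivity
  have hK' : (1 : ℝ) ≤ 4 / (1 / (16 * K ^ 2 * C₀)) := by
    rw [div_div_eq_mul_div, div_one]
    have : 1 ≤ K ^ 2 := one_le_pow₀ hK
    nlinarith
  obtain ⟨q, hq, ⟨κ, _, _, γ, hγ, hNF⟩, hJQ⟩ := hP _ hK'
  have : Nonempty κ := by
    by_contra hκ
    rw [not_nonempty_iff] at hκ
    exact hNF 0 0 (fun g => by simp) (fun y => by simp; positivity)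
      (by ext x i; exact hκ.elim i)
  obtain ⟨ι, _, _, ν, hN, hν, hR, hS⟩ :=
    exists_rigid_space.{v, _} γ hγ hK (ε := 1 / 16) (by norm_num) hδ ⌈64 * K⌉₊
  obtain ⟨J, Q, hQJ, hπ⟩ := hJQ ι
  refine ⟨sumSemi ν q J Q, equi_sumSemi hν hq J Q, fun b' => ?_⟩
  refine no_basis hν hK hC₀ hR ?_ J Q hQJ q hπ (hS E q hNF) b'
  exact (Nat.le_ceil _).trans (by exact_mod_cast hN)

theorem smallIndex_of_hf (b : SchauderBasis 𝕜 E) (h : HF 𝕜 E) : SmallIndexRenormings 𝕜 E :=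
  smallIndex_of_kill b (kill_of_hf b h)

end Pool.Agent.Lib.MP_e0f470_an
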