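import Pool.Agent.Lib.MP_e0f470_an.Khin
import Pool.Agent.Lib.MP_e0f470_an.Trace

/-! Random sections by sign vectors. -/

set_option autoImplicit false

namespace Pool.Agent.Lib.MP_e0f470_an

open Finset
open scoped BigOperators

variable {𝕜 : Type*} [RCLike 𝕜]

section
variable {m : ℕ} {κ : Type} [Fintype κ] [DecidableEq κ]

variable (𝕜 κ) in
/-- The diagonal embedding with signs `ω`. -/
noncomputable def secI (ω : Cube (Fin m)) : Eu 𝕜 κ →ₗ[𝕜] Eu 𝕜 (Fin m × κ) where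
  toFun g := WithLp.toLp 2 fun jl => ((sg (ω jl.1) / √m : ℝ) : 𝕜) * g jl.2
  map_add' g g' := by ext jl; simp [mul_add]
  map_smul' c g := by ext jl; simp [mul_left_comm]

variable (𝕜 κ) in
/-- The averaging map with signs `ω` (the adjoint of `secI`). -/
noncomputable def secP (ω : Cube (Fin m)) : Eu 𝕜 (Fin m × κ) →ₗ[𝕜] Eu 𝕜 κ where
  toFun x := WithLp.toLp 2 fun l => ∑ j, ((sg (ω j) / √m : ℝ) : 𝕜) * x (j, l)
  map_add' x y := by ext l; simp [mul_add, Finset.sum_add_distrib]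
  map_smul' c x := by ext l; simp [mul_left_comm, Finset.mul_sum]

lemma sect_coef_sq (_hm : 0 < m) (b : Bool) : (sg b / √m) ^ 2 = 1 / (m : ℝ) := by
  have : (0 : ℝ) ≤ m := Nat.cast_nonneg m
  rw [div_pow, sg_sq, Real.sq_sqrt this]

lemma sect_coef_mul (_hm : 0 < m) (b b' : Bool) : |sg b / √m * (sg b' / √m)| = 1 / (m : ℝ) := by
  have : (0 : ℝ) ≤ m := Nat.cast_nonneg m
  rw [div_mul_div_comm, Real.mul_self_sqrt this, abs_div, abs_mul, abs_sg, abs_sg,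
    abs_of_nonneg this, one_mul]

lemma sect_inv_sq (_hm : 0 < m) : ‖((√m : ℝ) : 𝕜)⁻¹‖ ^ 2 = 1 / (m : ℝ) := by
  have : (0 : ℝ) ≤ m := Nat.cast_nonneg m
  rw [norm_inv, RCLike.norm_ofReal, inv_pow, sq_abs, Real.sq_sqrt this, one_div]

omit [Fintype κ] [DecidableEq κ] in
lemma sect_I_apply (ω : Cube (Fin m)) (g : Eu 𝕜 κ) (jl : Fin m × κ) :
    secI 𝕜 κ ω g jl = ((sg (ω jl.1) / √m : ℝ) : 𝕜) * g jl.2 := rfl

omit [Fintype κ] [DecidableEq κ] in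
lemma sect_P_apply (ω : Cube (Fin m)) (x : Eu 𝕜 (Fin m × κ)) (l : κ) :
    secP 𝕜 κ ω x l = ∑ j, ((sg (ω j) / √m : ℝ) : 𝕜) * x (j, l) := rfl

omit [DecidableEq κ] in
lemma sect_adj (ω : Cube (Fin m)) (g : Eu 𝕜 κ) (x : Eu 𝕜 (Fin m × κ)) :
    inner 𝕜 g (secP 𝕜 κ ω x) = inner 𝕜 (secI 𝕜 κ ω g) x := by
  rw [PiLp.inner_apply, PiLp.inner_apply, Fintype.sum_prod_type, Finset.sum_comm]
  refine Finset.sum_congr rfl fun l _ => ?_
  rw [sect_P_apply, inner_sum]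
  refine Finset.sum_congr rfl fun j _ => ?_
  rw [sect_I_apply]
  simp only [RCLike.inner_apply, map_mul, RCLike.conj_ofReal]
  ring

omit [Fintype κ] in
lemma sect_I_ev (ω : Cube (Fin m)) (l : κ) :
    secI 𝕜 κ ω (ev 𝕜 l) = rs (fun j => ((√m : ℝ) : 𝕜)⁻¹ • ev 𝕜 ((j, l) : Fin m × κ)) ω := by
  rw [rs_eq_smul (𝕜 := 𝕜)]
  ext ⟨j, l'⟩
  rw [sect_I_apply, WithLp.ofLp_sum, Finset.sum_apply, Finset.sum_eq_single j]
  · simp only [WithLp.ofLp_smul, Pi.smul_apply, ev_apply, smul_eq_mul, Prod.mk.injEq, true_and]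
    push_cast
    ring
  · intro j' _ hj
    simp only [WithLp.ofLp_smul, Pi.smul_apply, ev_apply, smul_eq_mul, Prod.mk.injEq]
    rw [if_neg (fun h => hj h.1.symm)]
    simp
  · simp

omit [Fintype κ] [DecidableEq κ] in
lemma sect_P_rs (ω : Cube (Fin m)) (x : Eu 𝕜 (Fin m × κ)) :
    secP 𝕜 κ ω x = rs (fun j => ((√m : ℝ) : 𝕜)⁻¹ •
      (WithLp.toLp 2 fun l => x (j, l) : Eu 𝕜 κ)) ω := by
  rw [rs_eq_smul (𝕜 := 𝕜)]
  ext l
  rw [sect_P_apply, WithLp.ofLp_sum, Finset.sum_apply]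
  refine Finset.sum_congr rfl fun j _ => ?_
  simp only [WithLp.ofLp_smul, Pi.smul_apply, smul_eq_mul]
  push_cast
  ring

lemma sect_norm_le_sum (v : Eu 𝕜 κ) : ‖v‖ ≤ ∑ l, ‖v l‖ := by
  conv_lhs => rw [← sum_ev v]
  refine (norm_sum_le _ _).trans (Finset.sum_le_sum fun l _ => ?_)
  rw [norm_smul, norm_ev, mul_one]

omit [DecidableEq κ] in
lemma norm_secI (hm : 0 < m) (ω : Cube (Fin m)) (g : Eu 𝕜 κ) : ‖secI 𝕜 κ ω g‖ = ‖g‖ := by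
  have hm' : (m : ℝ) ≠ 0 := by exact_mod_cast hm.ne'
  rw [EuclideanSpace.norm_eq, EuclideanSpace.norm_eq, Fintype.sum_prod_type]
  congr 1
  have : ∀ j : Fin m, ∑ l, ‖secI 𝕜 κ ω g (j, l)‖ ^ 2 = 1 / (m : ℝ) * ∑ l, ‖g l‖ ^ 2 := by
    intro j
    rw [Finset.mul_sum]
    refine Finset.sum_congr rfl fun l _ => ?_
    rw [sect_I_apply, norm_mul, mul_pow, RCLike.norm_ofReal, sq_abs, sect_coef_sq hm]
  simp only [this, Finset.sum_const, Finset.card_univ, Fintype.card_fin, nsmul_eq_mul]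
  field_simp

omit [Fintype κ] [DecidableEq κ] in
lemma secP_secI (hm : 0 < m) (ω ω' : Cube (Fin m)) :
    ∃ t : 𝕜, ‖t‖ ≤ 1 ∧ ∀ g : Eu 𝕜 κ, secP 𝕜 κ ω' (secI 𝕜 κ ω g) = t • g := by
  have hm' : (m : ℝ) ≠ 0 := by exact_mod_cast hm.ne'
  refine ⟨∑ j, ((sg (ω' j) / √m * (sg (ω j) / √m) : ℝ) : 𝕜), ?_, fun g => ?_⟩
  · refine (norm_sum_le _ _).trans (le_of_eq ?_)
    simp only [RCLike.norm_ofReal, sect_coef_mul hm, Finset.sum_const, Finset.card_univ,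
      Fintype.card_fin, nsmul_eq_mul]
    field_simp
  · ext l
    rw [sect_P_apply]
    simp only [sect_I_apply, WithLp.ofLp_smul, Pi.smul_apply, smul_eq_mul, Finset.sum_mul]
    refine Finset.sum_congr rfl fun j _ => ?_
    push_cast
    ring

omit [Fintype κ] [DecidableEq κ] in
lemma secP_secI_self (hm : 0 < m) (ω : Cube (Fin m)) (g : Eu 𝕜 κ) :
    secP 𝕜 κ ω (secI 𝕜 κ ω g) = g := by
  have hm' : (m : 𝕜) ≠ 0 := by exact_mod_cast hm.ne'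
  ext l
  rw [sect_P_apply]
  have : ∀ j : Fin m, ((sg (ω j) / √m : ℝ) : 𝕜) * secI 𝕜 κ ω g (j, l) = 1 / (m : 𝕜) * g l := by
    intro j
    rw [sect_I_apply, ← mul_assoc, ← RCLike.ofReal_mul, ← pow_two, sect_coef_sq hm]
    push_cast
    ring
  simp only [this, Finset.sum_const, Finset.card_univ, Fintype.card_fin, nsmul_eq_mul]
  field_simp

omit [DecidableEq κ] in
lemma norm_secP_le (hm : 0 < m) (ω : Cube (Fin m)) (x : Eu 𝕜 (Fin m × κ)) :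
    ‖secP 𝕜 κ ω x‖ ≤ ‖x‖ := by
  have h1 : ‖secP 𝕜 κ ω x‖ ^ 2 ≤ ‖secP 𝕜 κ ω x‖ * ‖x‖ := by
    have h2 := norm_inner_le_norm (𝕜 := 𝕜) (secI 𝕜 κ ω (secP 𝕜 κ ω x)) x
    rw [← sect_adj, norm_secI hm, inner_self_eq_norm_sq_to_K, norm_pow, RCLike.norm_ofReal,
      abs_norm] at h2
    exact h2
  rcases (norm_nonneg (secP 𝕜 κ ω x)).eq_or_lt with h | h
  · rw [← h]; exact norm_nonneg _
  · rw [pow_two] at h1
    exact le_of_mul_le_mul_left h1 h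

omit [DecidableEq κ] in
/-- `secP ω x = rs (fun j => (√m)⁻¹ • x (j, ·)) ω`, then `khin4`. -/
lemma expect_secP_four (hm : 0 < m) (x : Eu 𝕜 (Fin m × κ)) :
    𝔼 ω, ‖secP 𝕜 κ ω x‖ ^ 4 ≤ 3 * ‖x‖ ^ 4 / (m : ℝ) ^ 2 := by
  have hm' : (m : ℝ) ≠ 0 := by exact_mod_cast hm.ne'
  simp only [sect_P_rs]
  refine (khin4 (𝕜 := 𝕜) _).trans (le_of_eq ?_)
  have h1 : ∑ j : Fin m, ‖((√m : ℝ) : 𝕜)⁻¹ • (WithLp.toLp 2 fun l => x (j, l) : Eu 𝕜 κ)‖ ^ 2 =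
      1 / (m : ℝ) * ‖x‖ ^ 2 := by
    rw [EuclideanSpace.norm_sq_eq x, Fintype.sum_prod_type, Finset.mul_sum]
    refine Finset.sum_congr rfl fun j _ => ?_
    rw [norm_smul, mul_pow, sect_inv_sq hm, EuclideanSpace.norm_sq_eq]
  rw [h1]
  field_simp

/-- The entry is `⟪secI ω (e l), S (secI ω (e l'))⟫`. Split `S y = P (S y) + (S y - P (S y))` with
`P` the projection on `U`; `secI ω (e l) = rs (fun j => (√m)⁻¹ • e (j, l)) ω`, so by `map_rs` and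
`khin2`: `𝔼 ‖P secI ω (e l)‖² ≤ k / m` (`sum_norm_proj_sq`), `𝔼 ‖S secI ω (e l')‖² ≤ L²`,
`𝔼 ‖(S - P S) secI ω (e l')‖² ≤ d²` (`norm_sub_proj_le`); then Cauchy-Schwarz. -/
lemma expect_entry_le (hm : 0 < m) (S : Eu 𝕜 (Fin m × κ) →ₗ[𝕜] Eu 𝕜 (Fin m × κ))
    (U : Submodule 𝕜 (Eu 𝕜 (Fin m × κ))) {k d L : ℝ} (hk : (Module.finrank 𝕜 U : ℝ) ≤ k)
    (hd : ∀ i, ∃ u ∈ U, ‖S (ev 𝕜 i) - u‖ ≤ d) (hL : ∀ i, ‖S (ev 𝕜 i)‖ ≤ L) (l l' : κ) :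
    𝔼 ω, ‖secP 𝕜 κ ω (S (secI 𝕜 κ ω (ev 𝕜 l'))) l‖ ≤ L * √(k / m) + d := by
  have hm' : (0 : ℝ) < m := by exact_mod_cast hm
  have hL0 : 0 ≤ L := (norm_nonneg _).trans (hL (⟨0, hm⟩, l))
  have hd0 : 0 ≤ d := by
    obtain ⟨u, -, hu⟩ := hd (⟨0, hm⟩, l)
    exact (norm_nonneg _).trans hu
  have hpt : ∀ ω : Cube (Fin m), ‖secP 𝕜 κ ω (S (secI 𝕜 κ ω (ev 𝕜 l'))) l‖ ≤
      ‖U.starProjection (secI 𝕜 κ ω (ev 𝕜 l))‖ * ‖S (secI 𝕜 κ ω (ev 𝕜 l'))‖ +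
      ‖S (secI 𝕜 κ ω (ev 𝕜 l')) - U.starProjection (S (secI 𝕜 κ ω (ev 𝕜 l')))‖ := by
    intro ω
    set a := secI 𝕜 κ ω (ev 𝕜 l) with ha
    set y := S (secI 𝕜 κ ω (ev 𝕜 l')) with hy
    have ha1 : ‖a‖ = 1 := by rw [ha, norm_secI hm, norm_ev]
    have h1 : secP 𝕜 κ ω y l = inner 𝕜 (U.starProjection a) y +
        inner 𝕜 a (y - U.starProjection y) := by
      rw [← inner_ev l, sect_adj, ← ha, inner_sub_right, Submodule.inner_starProjection_left_eq_right]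
      ring
    rw [h1]
    refine (norm_add_le _ _).trans (add_le_add (norm_inner_le_norm _ _) ?_)
    refine (norm_inner_le_norm _ _).trans (le_of_eq ?_)
    rw [ha1, one_mul]
  have hA : 𝔼 ω : Cube (Fin m), ‖U.starProjection (secI 𝕜 κ ω (ev 𝕜 l))‖ ^ 2 ≤ k / m := by
    simp only [sect_I_ev, map_rs]
    rw [khin2 (𝕜 := 𝕜)]
    simp only [map_smul, norm_smul, mul_pow, sect_inv_sq hm]
    rw [← Finset.mul_sum]
    have h1 : ∑ j : Fin m, ‖U.starProjection (ev 𝕜 ((j, l) : Fin m × κ))‖ ^ 2 ≤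
        ∑ i : Fin m × κ, ‖U.starProjection (ev 𝕜 i)‖ ^ 2 := by
      rw [Fintype.sum_prod_type]
      refine Finset.sum_le_sum fun j _ => ?_
      exact Finset.single_le_sum (f := fun l => ‖U.starProjection (ev 𝕜 ((j, l) : Fin m × κ))‖ ^ 2)
        (fun _ _ => sq_nonneg _) (Finset.mem_univ l)
    rw [sum_norm_proj_sq] at h1
    calc 1 / (m : ℝ) * ∑ j : Fin m, ‖U.starProjection (ev 𝕜 ((j, l) : Fin m × κ))‖ ^ 2
        ≤ 1 / (m : ℝ) * k := mul_le_mul_of_nonneg_left (h1.trans hk) (by positivity)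
      _ = k / m := by ring
  have hB : 𝔼 ω : Cube (Fin m), ‖S (secI 𝕜 κ ω (ev 𝕜 l'))‖ ^ 2 ≤ L ^ 2 := by
    simp only [sect_I_ev, map_rs]
    rw [khin2 (𝕜 := 𝕜)]
    simp only [map_smul, norm_smul, mul_pow, sect_inv_sq hm]
    calc ∑ j : Fin m, 1 / (m : ℝ) * ‖S (ev 𝕜 ((j, l') : Fin m × κ))‖ ^ 2
        ≤ ∑ j : Fin m, 1 / (m : ℝ) * L ^ 2 := Finset.sum_le_sum fun j _ =>
          mul_le_mul_of_nonneg_left (pow_le_pow_left₀ (norm_nonneg _) (hL _) 2) (by positivity)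
      _ = L ^ 2 := by
          simp only [Finset.sum_const, Finset.card_univ, Fintype.card_fin, nsmul_eq_mul]
          field_simp
  have hC : 𝔼 ω : Cube (Fin m),
      ‖S (secI 𝕜 κ ω (ev 𝕜 l')) - U.starProjection (S (secI 𝕜 κ ω (ev 𝕜 l')))‖ ≤ d := by
    simp only [sect_I_ev, map_rs, ← rs_sub]
    refine (khin_le (𝕜 := 𝕜) _).trans ?_
    rw [Real.sqrt_le_left hd0]
    simp only [map_smul, ← smul_sub, norm_smul, mul_pow, sect_inv_sq hm]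
    calc ∑ j : Fin m, 1 / (m : ℝ) * ‖S (ev 𝕜 ((j, l') : Fin m × κ)) -
          U.starProjection (S (ev 𝕜 ((j, l') : Fin m × κ)))‖ ^ 2
        ≤ ∑ j : Fin m, 1 / (m : ℝ) * d ^ 2 := Finset.sum_le_sum fun j _ => by
          obtain ⟨u, hu, hu'⟩ := hd (j, l')
          exact mul_le_mul_of_nonneg_left (pow_le_pow_left₀ (norm_nonneg _)
            ((norm_sub_proj_le U _ hu).trans hu') 2) (by positivity)
      _ = d ^ 2 := by
          simp only [Finset.sum_const, Finset.card_univ, Fintype.card_fin, nsmul_eq_mul]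
          field_simp
  refine (Finset.expect_le_expect fun ω _ => hpt ω).trans ?_
  rw [Finset.expect_add_distrib]
  refine add_le_add ((expect_mul_le_sqrt _ _).trans ?_) hC
  rw [mul_comm]
  refine mul_le_mul ?_ (Real.sqrt_le_sqrt hA) (Real.sqrt_nonneg _) hL0
  rw [Real.sqrt_le_left hL0]
  exact hB

/-- A section that is good for all purposes. The average over `ω` of
`(∑ l l', ‖entry‖) / σ + ∑ a, ‖secP ω (V a)‖ ^ 4 / τ ^ 4` is below one (`≤ 1/2` plus `< 1/2`), so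
for some `ω` both terms are below one; an operator norm is at most the sum of the entries. -/
theorem exists_good_section (hm : 0 < m) (S : Eu 𝕜 (Fin m × κ) →ₗ[𝕜] Eu 𝕜 (Fin m × κ))
    (U : Submodule 𝕜 (Eu 𝕜 (Fin m × κ))) {k d L : ℝ} (hk : (Module.finrank 𝕜 U : ℝ) ≤ k)
    (hd : ∀ i, ∃ u ∈ U, ‖S (ev 𝕜 i) - u‖ ≤ d) (hL : ∀ i, ‖S (ev 𝕜 i)‖ ≤ L)
    {Λ : Type*} [Fintype Λ] (V : Λ → Eu 𝕜 (Fin m × κ)) (hV : ∀ a, ‖V a‖ ≤ 1) {τ σ : ℝ}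
    (hτ : 0 < τ) (hσ : 0 < σ) (hcard : 6 * (Fintype.card Λ : ℝ) < (m : ℝ) ^ 2 * τ ^ 4)
    (hσ' : 2 * (Fintype.card κ : ℝ) ^ 2 * (L * √(k / m) + d) ≤ σ) :
    ∃ ω : Cube (Fin m), (∀ a, ‖secP 𝕜 κ ω (V a)‖ ≤ τ) ∧
      ∀ g, ‖secP 𝕜 κ ω (S (secI 𝕜 κ ω g))‖ ≤ σ * ‖g‖ := by
  have hm' : (0 : ℝ) < m := by exact_mod_cast hm
  have h1 : 𝔼 ω : Cube (Fin m), ∑ l', ∑ l, ‖secP 𝕜 κ ω (S (secI 𝕜 κ ω (ev 𝕜 l'))) l‖ ≤ σ / 2 := by
    rw [Finset.expect_sum_comm]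
    simp only [Finset.expect_sum_comm]
    calc ∑ l', ∑ l, 𝔼 ω : Cube (Fin m), ‖secP 𝕜 κ ω (S (secI 𝕜 κ ω (ev 𝕜 l'))) l‖
        ≤ ∑ l' : κ, ∑ l : κ, (L * √(k / m) + d) := Finset.sum_le_sum fun l' _ =>
          Finset.sum_le_sum fun l _ => expect_entry_le hm S U hk hd hL l l'
      _ = (Fintype.card κ : ℝ) ^ 2 * (L * √(k / m) + d) := by
          simp only [Finset.sum_const, Finset.card_univ, nsmul_eq_mul]
          ring
      _ ≤ σ / 2 := by linarith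
  have h2 : 𝔼 ω : Cube (Fin m), ∑ a, ‖secP 𝕜 κ ω (V a)‖ ^ 4 < τ ^ 4 / 2 := by
    rw [Finset.expect_sum_comm]
    calc ∑ a, 𝔼 ω : Cube (Fin m), ‖secP 𝕜 κ ω (V a)‖ ^ 4 ≤ ∑ a : Λ, 3 / (m : ℝ) ^ 2 :=
          Finset.sum_le_sum fun a _ => (expect_secP_four hm (V a)).trans (by
            refine div_le_div_of_nonneg_right ?_ (by positivity)
            have := pow_le_one₀ (n := 4) (norm_nonneg (V a)) (hV a)
            linarith)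
      _ = 3 * (Fintype.card Λ : ℝ) / (m : ℝ) ^ 2 := by
          simp only [Finset.sum_const, Finset.card_univ, nsmul_eq_mul]
          ring
      _ < τ ^ 4 / 2 := by
          rw [div_lt_div_iff₀ (by positivity) (by norm_num)]
          linarith
  have h3 : 𝔼 ω : Cube (Fin m), ((∑ l', ∑ l, ‖secP 𝕜 κ ω (S (secI 𝕜 κ ω (ev 𝕜 l'))) l‖) / σ +
      (∑ a, ‖secP 𝕜 κ ω (V a)‖ ^ 4) / τ ^ 4) < 1 := by
    rw [Finset.expect_add_distrib, ← Finset.expect_div, ← Finset.expect_div]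
    have h4 : (𝔼 ω : Cube (Fin m), ∑ l', ∑ l, ‖secP 𝕜 κ ω (S (secI 𝕜 κ ω (ev 𝕜 l'))) l‖) / σ ≤
        1 / 2 := by
      rw [div_le_iff₀ hσ]; linarith
    have h5 : (𝔼 ω : Cube (Fin m), ∑ a, ‖secP 𝕜 κ ω (V a)‖ ^ 4) / τ ^ 4 < 1 / 2 := by
      rw [div_lt_iff₀ (by positivity)]; linarith
    linarith
  obtain ⟨ω, -, hω⟩ := Finset.exists_lt_of_expect_lt Finset.univ_nonempty h3
  have hX : 0 ≤ (∑ l', ∑ l, ‖secP 𝕜 κ ω (S (secI 𝕜 κ ω (ev 𝕜 l'))) l‖) / σ := by positivity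
  have hY : 0 ≤ (∑ a, ‖secP 𝕜 κ ω (V a)‖ ^ 4) / τ ^ 4 := by positivity
  have hX1 : ∑ l', ∑ l, ‖secP 𝕜 κ ω (S (secI 𝕜 κ ω (ev 𝕜 l'))) l‖ ≤ σ := by
    rw [← div_le_one hσ]; linarith
  have hY1 : ∑ a, ‖secP 𝕜 κ ω (V a)‖ ^ 4 ≤ τ ^ 4 := by
    rw [← div_le_one (by positivity)]; linarith
  refine ⟨ω, fun a => ?_, fun g => ?_⟩
  · refine le_of_pow_le_pow_left₀ (n := 4) (by norm_num) hτ.le (le_trans ?_ hY1)
    exact Finset.single_le_sum (f := fun a => ‖secP 𝕜 κ ω (V a)‖ ^ 4)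
      (fun _ _ => by positivity) (Finset.mem_univ a)
  · conv_lhs => rw [← sum_ev g]
    simp only [map_sum, map_smul]
    refine (norm_sum_le _ _).trans ?_
    calc ∑ l', ‖g l' • secP 𝕜 κ ω (S (secI 𝕜 κ ω (ev 𝕜 l')))‖
        ≤ ∑ l', (∑ l, ‖secP 𝕜 κ ω (S (secI 𝕜 κ ω (ev 𝕜 l'))) l‖) * ‖g‖ :=
          Finset.sum_le_sum fun l' _ => by
            rw [norm_smul, mul_comm]
            exact mul_le_mul (sect_norm_le_sum _) (PiLp.norm_apply_le g l') (norm_nonneg _)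
              (by positivity)
      _ ≤ σ * ‖g‖ := by
          rw [← Finset.sum_mul]
          exact mul_le_mul_of_nonneg_right hX1 (norm_nonneg _)

end

end Pool.Agent.Lib.MP_e0f470_an
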