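import Pool.Agent.Lib.MP_e0f470_an.Glusk
import Pool.Agent.Lib.MP_e0f470_an.Sect

/-! A rigid space that contains many well complemented copies of a given space. -/

set_option autoImplicit false

namespace Pool.Agent.Lib.MP_e0f470_an

open Finset
open scoped BigOperators

variable {𝕜 : Type*} [RCLike 𝕜]

universe v

/-- Inverting a small perturbation of a scalar. The map `T` satisfies
`δ / 4 * γ g ≤ γ (T g)`, so it is injective (`γ` is a norm), hence bijective; use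
`a' = a`, `b' = T⁻¹ ∘ b`. -/
lemma not_noFactor_of_near_scalar {κ : Type} [Fintype κ] (γ : Seminorm 𝕜 (Eu 𝕜 κ)) (hγ : Equi γ)
    {Y : Type*} [AddCommGroup Y] [Module 𝕜 Y] (q : Seminorm 𝕜 Y) (a : Eu 𝕜 κ →ₗ[𝕜] Y)
    (b : Y →ₗ[𝕜] Eu 𝕜 κ) (ha : ∀ g, q (a g) ≤ γ g) (hb : ∀ y, γ (b y) ≤ q y) {δ : ℝ} (hδ : 0 < δ)
    {lam : 𝕜} (hlam : δ / 2 ≤ ‖lam‖) (hab : ∀ g, γ (b (a g) - lam • g) ≤ δ / 4 * γ g) :
    ¬ NoFactor γ q (4 / δ) := by
  intro hno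
  obtain ⟨c₁, C₁, hc₁, -, hγ⟩ := hγ
  have hlow : ∀ g, δ / 4 * γ g ≤ γ ((b ∘ₗ a) g) := by
    intro g
    have h1 : γ (lam • g) ≤ γ (b (a g)) + γ (b (a g) - lam • g) := by
      have := map_sub_le_add γ (b (a g)) (b (a g) - lam • g)
      rwa [sub_sub_cancel] at this
    rw [map_smul_eq_mul] at h1
    have h2 := mul_le_mul_of_nonneg_right hlam (apply_nonneg γ g)
    have h3 := hab g
    rw [LinearMap.comp_apply]
    linarith
  have hinj : Function.Injective (b ∘ₗ a) := by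
    rw [injective_iff_map_eq_zero]
    intro g hg
    have h1 := hlow g
    rw [hg, map_zero] at h1
    have h2 := (hγ g).1
    have h3 : γ g ≤ 0 := by
      by_contra h
      have := mul_pos (show 0 < δ / 4 by positivity) (not_le.mp h)
      linarith
    have h4 : ‖g‖ ≤ 0 := by
      by_contra h
      have := mul_pos hc₁ (not_le.mp h)
      linarith
    exact norm_le_zero_iff.mp h4
  let e := LinearEquiv.ofInjectiveEndo (b ∘ₗ a) hinj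
  have he : ∀ g, e g = b (a g) := fun g => rfl
  refine hno a (e.symm.toLinearMap ∘ₗ b) ha (fun y => ?_) ?_
  · have h1 := hlow (e.symm (b y))
    rw [LinearMap.comp_apply, ← he, e.apply_symm_apply] at h1
    have h2 : γ (e.symm (b y)) = 4 / δ * (δ / 4 * γ (e.symm (b y))) := by field_simp
    change γ (e.symm (b y)) ≤ _
    rw [h2]
    exact mul_le_mul_of_nonneg_left (h1.trans (hb y)) (by positivity)
  · ext1 g
    change e.symm (b (a g)) = g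
    rw [← he, e.symm_apply_apply]

lemma pack_small (A : ℝ) {e : ℝ} (he : 0 < e) :
    ∃ t₀ : ℝ, 0 < t₀ ∧ ∀ t, 0 ≤ t → t ≤ t₀ → A * t ≤ e := by
  refine ⟨e / (|A| + 1), by positivity, fun t ht h => ?_⟩
  rw [le_div_iff₀ (by positivity)] at h
  nlinarith [le_abs_self A]

lemma pack_dom {W : Type*} [AddCommGroup W] [Module 𝕜 W] {Λ : Type*} {μ ν p : Seminorm 𝕜 W}
    {s : Λ → W} (hν : ∀ (x : W) (κ : ℝ), 0 < κ → ∃ (F : Finset Λ) (c : Λ → 𝕜) (w : W),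
      x = w + ∑ a ∈ F, c a • s a ∧ μ w + ∑ a ∈ F, ‖c a‖ ≤ ν x + κ) {ρ : ℝ} (hρ : 0 < ρ)
    (h1 : ∀ x, p x ≤ ρ * μ x) (h2 : ∀ a, p (s a) ≤ ρ) (x : W) : p x ≤ ρ * ν x := by
  refine le_of_forall_pos_le_add fun κ hκ => ?_
  obtain ⟨F, c, w, hx, hle⟩ := hν x (κ / ρ) (by positivity)
  have h3 : p (∑ a ∈ F, c a • s a) ≤ ρ * ∑ a ∈ F, ‖c a‖ := by
    rw [Finset.mul_sum]
    refine (Finset.le_sum_of_subadditive p (map_zero p).le (map_add_le_add p) F _).trans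
      (Finset.sum_le_sum fun a _ => ?_)
    rw [map_smul_eq_mul, mul_comm]
    exact mul_le_mul_of_nonneg_right (h2 a) (norm_nonneg _)
  calc p x ≤ p w + p (∑ a ∈ F, c a • s a) := by rw [hx]; exact map_add_le_add p _ _
    _ ≤ ρ * (μ w + ∑ a ∈ F, ‖c a‖) := by rw [mul_add]; exact add_le_add (h1 w) h3
    _ ≤ ρ * (ν x + κ / ρ) := mul_le_mul_of_nonneg_left hle hρ.le
    _ = ρ * ν x + κ := by field_simp

lemma pack_mu {W : Type*} [NormedAddCommGroup W] [NormedSpace 𝕜 W] {Ω : Type*} [Fintype Ω]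
    (p : Ω → Seminorm 𝕜 W) {c₁ ρ : ℝ} (hc₁ : 0 < c₁) (hρ : 0 < ρ) :
    ∃ μ : Seminorm 𝕜 W, (∀ x, c₁ * ‖x‖ ≤ ρ * μ x) ∧ (∀ ω x, p ω x ≤ ρ * μ x) ∧
      ∀ x t, c₁ * ‖x‖ ≤ t → (∀ ω, p ω x ≤ t) → ρ * μ x ≤ t := by
  let r : NNReal := ⟨ρ⁻¹, by positivity⟩
  let c : NNReal := ⟨c₁, hc₁.le⟩
  let ν : Seminorm 𝕜 W := (c • normSeminorm 𝕜 W) ⊔ Finset.univ.sup p
  have hν : ∀ x, ν x = max (c₁ * ‖x‖) (Finset.univ.sup p x) := fun x => rfl
  have hr : ∀ x, ρ * (r • ν) x = ν x := by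
    intro x
    change ρ * (ρ⁻¹ * ν x) = ν x
    field_simp
  refine ⟨r • ν, fun x => ?_, fun ω x => ?_, fun x t h1 h2 => ?_⟩
  · rw [hr, hν]
    exact le_max_left _ _
  · rw [hr, hν]
    exact (Seminorm.le_finset_sup_apply (Finset.mem_univ ω)).trans (le_max_right _ _)
  · rw [hr, hν]
    exact max_le h1 (Seminorm.finset_sup_apply_le
      ((mul_nonneg hc₁.le (norm_nonneg x)).trans h1) fun ω _ => h2 ω)

lemma pack_large (n₀ N₀ D : ℕ) (hD : 0 < D) {τ : ℝ} (hτ : 0 < τ) :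
    ∃ n : ℕ, n₀ ≤ n ∧ 0 < n ∧ N₀ ≤ n ^ 2 * D ∧
      6 * ((n ^ 2 * D + n ^ 3 : ℕ) : ℝ) < ((n ^ 2 : ℕ) : ℝ) ^ 2 * τ ^ 4 := by
  obtain ⟨k, hk⟩ := exists_nat_gt (6 * (D + 1) / τ ^ 4)
  refine ⟨n₀ + N₀ + k + 1, by omega, by omega, ?_, ?_⟩
  · have h1 : N₀ ≤ (n₀ + N₀ + k + 1) ^ 2 :=
      (show N₀ ≤ n₀ + N₀ + k + 1 by omega).trans (Nat.le_self_pow two_ne_zero _)
    exact h1.trans (Nat.le_mul_of_pos_right _ hD)
  · have h1 : (k : ℝ) + 1 ≤ (n₀ + N₀ + k + 1 : ℕ) := by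
      exact_mod_cast (show k + 1 ≤ n₀ + N₀ + k + 1 by omega)
    generalize n₀ + N₀ + k + 1 = n at h1
    have hk0 : (0 : ℝ) ≤ k := Nat.cast_nonneg k
    have hn : (1 : ℝ) ≤ n := by linarith
    rw [div_lt_iff₀ (by positivity)] at hk
    have h2 : 6 * ((D : ℝ) + 1) < n * τ ^ 4 :=
      hk.trans_le (mul_le_mul_of_nonneg_right (by linarith) (by positivity))
    have h3 := mul_lt_mul_of_pos_left h2 (show (0 : ℝ) < (n : ℝ) ^ 3 by positivity)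
    have h4 : (n : ℝ) ^ 2 * D ≤ (n : ℝ) ^ 3 * D :=
      mul_le_mul_of_nonneg_right (pow_le_pow_right₀ hn (by norm_num)) (Nat.cast_nonneg D)
    push_cast
    nlinarith

/-- The main finite dimensional theorem. Let `D = card κ`, `c₁ ‖g‖ ≤ γ g ≤ C₁ ‖g‖`, `K' = K + 1`.
Choose `c, d₀ > 0` so small that `9 K'² √c + 3 K' d₀ + (3 K' √c + d₀)² ≤ ε`,
`3 K' √c + d₀ ≤ δ / 2` and `σ := 2 D² (3 K' √(c D) + d₀) ≤ δ c₁ / (4 C₁)`. Get `ϱ, n₀` from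
`gluskin K' c d₀ D`, choose `ρ > 0` with `ρ ≤ c₁` and `ρ K' / c₁ ≤ ϱ`, then `n` large
(`n ≥ n₀`, `N₀ ≤ n² D`, `6 (n² D + n³) < n⁴ (ρ / C₁)⁴`), `m = n²`, `ι = Fin m × κ`, and `g`.
Let `μ = ρ⁻¹ • (c₁ • norm ⊔ sup_ω γ ∘ secP ω)` and `ν` from `exists_hull μ (vecs g)`. Facts:
`‖x‖ ≤ ν x ≤ μ x ≤ C ‖x‖`; `ν (secI ω g) ≤ γ g / ρ` (`norm_secI`, `secP_secI`); if
`γ (secP ω (vecs g a)) ≤ ρ` for all `a` then `γ (secP ω x) ≤ ρ ν x`. If `ν (T x) ≤ K ν x` then the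
columns `T (ev i)` satisfy the hypotheses of `gluskin` (`T (sv (g j))` is the normalised `rs` of the
columns by `map_rs`; use the representation with `κ = 1`, extend the coefficients by zero outside
`F`), which gives `lam` and `Near`; `rigid_of_near` gives `Rigid`. For `Small`: `T = B ∘ A` is
`1`-bounded; if `δ N < ‖tr T‖` then `δ / 2 ≤ ‖lam‖` by `tr_sub_le_of_near`; `exists_good_section`
for `S = T - lam`, `τ = ρ / C₁` gives `ω`, and `a = ρ • A ∘ secI ω`, `b = ρ⁻¹ • secP ω ∘ B`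
contradict `NoFactor` by `not_noFactor_of_near_scalar`. -/
theorem exists_rigid_space {κ : Type} [Fintype κ] [DecidableEq κ] [Nonempty κ]
    (γ : Seminorm 𝕜 (Eu 𝕜 κ)) (hγ : Equi γ) {K ε δ : ℝ} (hK : 1 ≤ K) (hε : 0 < ε) (hδ : 0 < δ)
    (N₀ : ℕ) :
    ∃ (ι : Type) (_ : Fintype ι) (_ : DecidableEq ι) (ν : Seminorm 𝕜 (Eu 𝕜 ι)),
      N₀ ≤ Fintype.card ι ∧ Equi ν ∧ Rigid ν K ε ∧
      ∀ (Y : Type v) [AddCommGroup Y] [Module 𝕜 Y] (q : Seminorm 𝕜 Y),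
        NoFactor γ q (4 / δ) → Small ν q δ := by
  classical
  obtain ⟨c₁, C₁, hc₁, hC₁, hγ'⟩ := id hγ
  have hD : 0 < Fintype.card κ := Fintype.card_pos
  set D := Fintype.card κ with hDdef
  have hD1 : (1 : ℝ) ≤ D := by exact_mod_cast hD
  obtain ⟨K', hK'⟩ : ∃ K', K' = K + 1 := ⟨_, rfl⟩
  have hK'1 : 1 ≤ K' := by linarith
  have hσ : 0 < δ * c₁ / (4 * C₁) := by positivity
  obtain ⟨t₁, ht₁, h₁⟩ := pack_small (9 * K' ^ 2 + 3 * K' + (3 * K' + 1) ^ 2) hε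
  obtain ⟨t₂, ht₂, h₂⟩ := pack_small (3 * K' + 1) (half_pos hδ)
  obtain ⟨t₃, ht₃, h₃⟩ := pack_small (2 * (D : ℝ) ^ 2 * (3 * K' * √D + 1)) hσ
  obtain ⟨t, ht0, ht1, h₁, h₂, h₃⟩ : ∃ t : ℝ, 0 < t ∧ t ≤ 1 ∧
      (9 * K' ^ 2 + 3 * K' + (3 * K' + 1) ^ 2) * t ≤ ε ∧ (3 * K' + 1) * t ≤ δ / 2 ∧
      2 * (D : ℝ) ^ 2 * (3 * K' * √D + 1) * t ≤ δ * c₁ / (4 * C₁) := by
    have h0 : 0 < min (min 1 t₁) (min t₂ t₃) := by positivity
    exact ⟨_, h0, (min_le_left _ _).trans (min_le_left _ _),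
      h₁ _ h0.le ((min_le_left _ _).trans (min_le_right _ _)),
      h₂ _ h0.le ((min_le_right _ _).trans (min_le_left _ _)),
      h₃ _ h0.le ((min_le_right _ _).trans (min_le_right _ _))⟩
  have hsq : √(t ^ 2) = t := Real.sqrt_sq ht0.le
  obtain ⟨ϱ, hϱ, n₀, hgl⟩ := gluskin (𝕜 := 𝕜) hK'1 (pow_pos ht0 2) ht0 D hD
  obtain ⟨ρ, hρ, hρ1, hρ2⟩ : ∃ ρ : ℝ, 0 < ρ ∧ ρ ≤ c₁ ∧ ρ * K' ≤ c₁ * ϱ := by
    refine ⟨min c₁ (c₁ * ϱ / K'), by positivity, min_le_left _ _, ?_⟩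
    rw [← le_div_iff₀ (by positivity)]
    exact min_le_right _ _
  obtain ⟨n, hn₀, hn, hN₀, hcard⟩ := pack_large n₀ N₀ D hD (div_pos hρ hC₁)
  have hm : 0 < n ^ 2 := pow_pos hn 2
  have hι : Fintype.card (Fin (n ^ 2) × κ) = n ^ 2 * D := by simp [hDdef]
  obtain ⟨g, hg⟩ := hgl n hn₀ (Fin (n ^ 2) × κ) (by rw [hι, mul_comm])
  obtain ⟨μ, hμ1, hμ2, hμ3⟩ :=
    pack_mu (fun ω : Cube (Fin (n ^ 2)) => γ.comp (secP 𝕜 κ ω)) hc₁ hρ
  simp only [Seminorm.comp_apply] at hμ2 hμ3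
  obtain ⟨ν, hν1, hν2, hν3⟩ := exists_hull μ (vecs 𝕜 g)
  have F1 : ∀ x, ‖x‖ ≤ ν x := by
    intro x
    have := pack_dom (p := normSeminorm 𝕜 _) hν3 one_pos (fun y => ?_)
      (fun a => norm_vecs_le g a) x
    · simpa using this
    · have h1 := (hμ1 y).trans (mul_le_mul_of_nonneg_right hρ1 (apply_nonneg μ y))
      simpa using le_of_mul_le_mul_left h1 hc₁
  have F2 : ∀ x, ν x ≤ (c₁ + C₁) / ρ * ‖x‖ := by
    intro x
    refine (hν1 x).trans ?_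
    rw [div_mul_eq_mul_div, le_div_iff₀ hρ, mul_comm]
    have hx := norm_nonneg x
    refine hμ3 x _ (by nlinarith) fun ω => (hγ' _).2.trans ?_
    have := norm_secP_le hm ω x
    nlinarith
  have F3 : ∀ ω y, ρ * ν (secI 𝕜 κ ω y) ≤ γ y := by
    intro ω y
    refine (mul_le_mul_of_nonneg_left (hν1 _) hρ.le).trans (hμ3 _ _ ?_ fun ω' => ?_)
    · rw [norm_secI hm]
      exact (hγ' y).1
    · obtain ⟨u, hu, hu'⟩ := secP_secI (𝕜 := 𝕜) (κ := κ) hm ω ω'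
      rw [hu', map_smul_eq_mul]
      exact mul_le_of_le_one_left (apply_nonneg _ _) hu
  have F5 : ∀ T : Eu 𝕜 (Fin (n ^ 2) × κ) →ₗ[𝕜] Eu 𝕜 (Fin (n ^ 2) × κ),
      (∀ x, ν (T x) ≤ K * ν x) → (∀ i, ‖T (ev 𝕜 i)‖ ≤ K') ∧ (∀ i, ‖T (T (ev 𝕜 i))‖ ≤ K' ^ 2) ∧
        ∃ lam : 𝕜, ‖lam‖ ≤ 2 * K' ∧ Near (fun i => T (ev 𝕜 i)) lam
          (t ^ 2 * Fintype.card (Fin (n ^ 2) × κ)) t := by
    intro T hT
    have hv : ∀ a, ν (T (vecs 𝕜 g a)) ≤ K := fun a =>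
      (hT _).trans (mul_le_of_le_one_right (by linarith) (hν2 a))
    have hcol : ∀ i, ‖T (ev 𝕜 i)‖ ≤ K' := fun i =>
      ((F1 _).trans (hv (Sum.inl i))).trans (by linarith)
    refine ⟨hcol, fun i => ?_, hg _ hcol fun j => ?_⟩
    · have h1 := (F1 _).trans (hT (T (ev 𝕜 i)))
      have h2 : ν (T (ev 𝕜 i)) ≤ K := hv (Sum.inl i)
      nlinarith
    · obtain ⟨F, c, w, hx, hle⟩ := hν3 (T (vecs 𝕜 g (Sum.inr j))) 1 one_pos
      have hle' : μ w + ∑ a ∈ F, ‖c a‖ ≤ K' := by linarith [hv (Sum.inr j)]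
      have hs0 : 0 ≤ ∑ a ∈ F, ‖c a‖ := Finset.sum_nonneg fun a _ => norm_nonneg _
      refine ⟨fun a => if a ∈ F then c a else 0, ?_, ?_⟩
      · simp only [apply_ite norm, norm_zero, Finset.sum_ite_mem, Finset.univ_inter]
        linarith [apply_nonneg μ w]
      · have h1 : T (vecs 𝕜 g (Sum.inr j)) =
            ((√(Fintype.card (Fin (n ^ 2) × κ) : ℝ) : ℝ) : 𝕜)⁻¹ •
              rs (fun i => T (ev 𝕜 i)) (g j) := by
          change T (sv 𝕜 (g j)) = _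
          rw [sv, map_smul, map_rs]
        simp only [ite_smul, zero_smul, Finset.sum_ite_mem, Finset.univ_inter]
        rw [← h1, hx, add_sub_cancel_right]
        have h2 : c₁ * ‖w‖ ≤ c₁ * ϱ :=
          ((hμ1 w).trans (mul_le_mul_of_nonneg_left (by linarith) hρ.le)).trans hρ2
        exact le_of_mul_le_mul_left h2 hc₁
  have hN0 : (0 : ℝ) < Fintype.card (Fin (n ^ 2) × κ) := by
    rw [hι]
    exact_mod_cast Nat.mul_pos hm hD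
  refine ⟨Fin (n ^ 2) × κ, inferInstance, inferInstance, ν, hι ▸ hN₀,
    ⟨1, (c₁ + C₁) / ρ, one_pos, by positivity, fun x => ⟨by simpa using F1 x, F2 x⟩⟩,
    fun T hT => ?_, fun Y _ _ q hno A B hA hB => ?_⟩
  · obtain ⟨e1, e2, lam, e3, e4⟩ := F5 T hT
    refine (rigid_of_near T (sq_nonneg t) e1 e2 e3 e4).trans
      (mul_le_mul_of_nonneg_right ?_ hN0.le)
    rw [hsq]
    have : ((3 * K' + 1) * t) ^ 2 ≤ (3 * K' + 1) ^ 2 * t := by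
      rw [mul_pow]
      exact mul_le_mul_of_nonneg_left (by nlinarith) (sq_nonneg _)
    nlinarith
  · by_contra hlt
    rw [not_le] at hlt
    obtain ⟨e1, -, lam, e3, e4⟩ := F5 (B ∘ₗ A) fun x =>
      ((hB _).trans (hA x)).trans (le_mul_of_one_le_left (apply_nonneg _ _) hK)
    have hlam : δ / 2 ≤ ‖lam‖ := by
      have h1 := tr_sub_le_of_near _ (sq_nonneg t) e1 e3 e4
      rw [hsq] at h1
      have h2 := norm_sub_norm_le (tr (B ∘ₗ A)) (lam * Fintype.card (Fin (n ^ 2) × κ))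
      rw [norm_mul, RCLike.norm_natCast] at h2
      have h3 := mul_le_mul_of_nonneg_right h₂ hN0.le
      refine le_of_mul_le_mul_right ?_ hN0
      nlinarith
    obtain ⟨U, hU, hUd⟩ := e4
    obtain ⟨ω, hω1, hω2⟩ := exists_good_section hm (B ∘ₗ A - lam • LinearMap.id) U hU
      (L := 3 * K') (fun i => by simpa using hUd i) (fun i => by
        have h1 := norm_sub_le ((B ∘ₗ A) (ev 𝕜 i)) (lam • ev 𝕜 i)
        rw [norm_smul, norm_ev, mul_one] at h1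
        have h2 := e1 i
        change ‖(B ∘ₗ A) (ev 𝕜 i) - lam • ev 𝕜 i‖ ≤ _
        linarith)
      (vecs 𝕜 g) (norm_vecs_le g) (div_pos hρ hC₁) hσ
      (by rw [Fintype.card_sum, hι, Fintype.card_fin]; exact hcard) (by
        have h1 : t ^ 2 * (Fintype.card (Fin (n ^ 2) × κ) : ℝ) / ((n ^ 2 : ℕ) : ℝ) =
            t ^ 2 * D := by
          have : ((n ^ 2 : ℕ) : ℝ) ≠ 0 := by exact_mod_cast hm.ne'
          rw [hι, Nat.cast_mul]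
          field_simp
        rw [h1, Real.sqrt_mul (sq_nonneg t), hsq]
        refine le_trans (le_of_eq ?_) h₃
        rw [← hDdef]
        ring)
    have F4 : ∀ x, γ (secP 𝕜 κ ω x) ≤ ρ * ν x :=
      pack_dom (p := γ.comp (secP 𝕜 κ ω)) hν3 hρ (hμ2 ω) fun a => by
        have h1 := hω1 a
        rw [le_div_iff₀ hC₁, mul_comm] at h1
        exact (hγ' _).2.trans h1
    have hρ' : ‖(ρ : 𝕜)‖ = ρ := by rw [RCLike.norm_ofReal, abs_of_pos hρ]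
    have hρ0 : (ρ : 𝕜) ≠ 0 := by exact_mod_cast hρ.ne'
    refine not_noFactor_of_near_scalar γ hγ q ((ρ : 𝕜) • (A ∘ₗ secI 𝕜 κ ω))
      ((ρ : 𝕜)⁻¹ • (secP 𝕜 κ ω ∘ₗ B)) (fun y => ?_) (fun y => ?_) hδ hlam (fun y => ?_) hno
    · rw [LinearMap.smul_apply, map_smul_eq_mul, hρ', LinearMap.comp_apply]
      exact (mul_le_mul_of_nonneg_left (hA _) hρ.le).trans (F3 ω y)
    · rw [LinearMap.smul_apply, map_smul_eq_mul, norm_inv, hρ', LinearMap.comp_apply,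
        inv_mul_le_iff₀ hρ]
      exact (F4 _).trans (mul_le_mul_of_nonneg_left (hB y) hρ.le)
    · have h1 : ((ρ : 𝕜)⁻¹ • (secP 𝕜 κ ω ∘ₗ B)) (((ρ : 𝕜) • (A ∘ₗ secI 𝕜 κ ω)) y) - lam • y =
          secP 𝕜 κ ω ((B ∘ₗ A - lam • LinearMap.id : _ →ₗ[𝕜] _) (secI 𝕜 κ ω y)) := by
        simp [secP_secI_self hm, smul_smul, hρ0]
      rw [h1]
      have h2 := mul_le_mul_of_nonneg_left (hω2 y) hC₁.le
      have h3 : C₁ * (δ * c₁ / (4 * C₁) * ‖y‖) = δ / 4 * (c₁ * ‖y‖) := by field_simp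
      rw [h3] at h2
      exact ((hγ' _).2.trans h2).trans (mul_le_mul_of_nonneg_left (hγ' y).1 (by positivity))

end Pool.Agent.Lib.MP_e0f470_an
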