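import Pool.Agent.Lib.MP_e0f470_an.RDefs

/-! Averages and probabilities on finite types. -/

set_option autoImplicit false

namespace Pool.Agent.Lib.MP_e0f470_an.Rob

open Finset Filter
open scoped BigOperators Topology

variable {𝕜 : Type} [RCLike 𝕜]

section ra
variable {α β : Type} [Fintype α] [Fintype β]

lemma ra_nonneg {f : α → ℝ} (h : ∀ a, 0 ≤ f a) : 0 ≤ ra f :=
  mul_nonneg (by positivity) (Finset.sum_nonneg fun a _ => h a)

lemma ra_mono {f g : α → ℝ} (h : ∀ a, f a ≤ g a) : ra f ≤ ra g :=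
  mul_le_mul_of_nonneg_left (Finset.sum_le_sum fun a _ => h a) (by positivity)

lemma ra_add (f g : α → ℝ) : (ra fun a => f a + g a) = ra f + ra g := by
  simp [ra, Finset.sum_add_distrib, mul_add]

lemma ra_sub (f g : α → ℝ) : (ra fun a => f a - g a) = ra f - ra g := by
  simp [ra, Finset.sum_sub_distrib, mul_sub]

lemma ra_const [Nonempty α] (c : ℝ) : (ra fun _ : α => c) = c := by
  have : (Fintype.card α : ℝ) ≠ 0 := by positivity
  simp [ra, Finset.card_univ, this]

lemma ra_zero : (ra fun _ : α => (0 : ℝ)) = 0 := by simp [ra]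

lemma ra_const_mul (c : ℝ) (f : α → ℝ) : (ra fun a => c * f a) = c * ra f := by
  simp [ra, ← Finset.mul_sum, mul_left_comm]

lemma ra_mul_const (c : ℝ) (f : α → ℝ) : (ra fun a => f a * c) = ra f * c := by
  simp [ra, ← Finset.sum_mul, mul_assoc]

lemma ra_div_const (c : ℝ) (f : α → ℝ) : (ra fun a => f a / c) = ra f / c := by
  simp only [div_eq_mul_inv, ra_mul_const]

lemma ra_sum {ι : Type*} (s : Finset ι) (f : ι → α → ℝ) :
    (ra fun a => ∑ i ∈ s, f i a) = ∑ i ∈ s, ra (f i) := by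
  simp only [ra, ← Finset.mul_sum]
  rw [Finset.sum_comm]

lemma ra_comm (f : α → β → ℝ) :
    (ra fun a => ra fun b => f a b) = ra fun b => ra fun a => f a b := by
  simp only [ra, ← Finset.mul_sum]
  rw [Finset.sum_comm, mul_left_comm]

lemma ra_le_of_le {f : α → ℝ} {c : ℝ} (hc : 0 ≤ c) (h : ∀ a, f a ≤ c) : ra f ≤ c := by
  cases isEmpty_or_nonempty α with
  | inl _ => simpa [ra] using hc
  | inr _ => exact (ra_mono h).trans (ra_const c).le

lemma ra_le_of_le' [Nonempty α] {f : α → ℝ} {c : ℝ} (h : ∀ a, f a ≤ c) : ra f ≤ c :=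
  (ra_mono h).trans (ra_const c).le

lemma le_ra_of_le [Nonempty α] {f : α → ℝ} {c : ℝ} (h : ∀ a, c ≤ f a) : c ≤ ra f :=
  (ra_const c).ge.trans (ra_mono h)

lemma abs_ra_le (f : α → ℝ) : |ra f| ≤ ra fun a => |f a| := by
  unfold ra
  rw [abs_mul, abs_of_nonneg (by positivity)]
  exact mul_le_mul_of_nonneg_left (Finset.abs_sum_le_sum_abs _ _) (by positivity)

lemma ra_prod (f : α × β → ℝ) : ra f = ra fun a => ra fun b => f (a, b) := by
  simp only [ra, ← Finset.mul_sum, Fintype.card_prod, Fintype.sum_prod_type]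
  push_cast
  rw [mul_inv, mul_assoc]

lemma ra_equiv (e : α ≃ β) (f : β → ℝ) : (ra fun a => f (e a)) = ra f := by
  unfold ra
  rw [Fintype.card_congr e, Equiv.sum_comp e f]

lemma ra_pi_prod {I : Type} [Fintype I] [DecidableEq I] (g : I → α → ℝ) :
    (ra fun r : I → α => ∏ i, g i (r i)) = ∏ i, ra (g i) := by
  unfold ra
  rw [Finset.prod_mul_distrib, Finset.prod_const, Fintype.card_fun, Finset.card_univ,
    Finset.prod_univ_sum, Fintype.piFinset_univ]
  push_cast
  rw [inv_pow]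

lemma ra_update {I : Type} [Fintype I] [DecidableEq I] [Nonempty α] (i : I) (f : (I → α) → ℝ) :
    ra f = ra fun ξ => ra fun a => f (Function.update ξ i a) := by
  let e : (I → α) × α ≃ (I → α) × α :=
    { toFun := fun z => (Function.update z.1 i z.2, z.1 i)
      invFun := fun z => (Function.update z.1 i z.2, z.1 i)
      left_inv := fun z => by simp
      right_inv := fun z => by simp }
  have h1 := ra_equiv e fun z => f z.1
  rw [ra_prod, ra_prod] at h1
  simp only [ra_const] at h1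
  exact h1.symm

lemma ra_sq_le (f : α → ℝ) : ra f ^ 2 ≤ ra fun a => f a ^ 2 := by
  cases isEmpty_or_nonempty α with
  | inl _ => simp [ra]
  | inr _ =>
    have h0 : (0 : ℝ) < Fintype.card α := by positivity
    have h := sq_sum_le_card_mul_sum_sq (s := (univ : Finset α)) (f := f)
    rw [Finset.card_univ] at h
    unfold ra
    rw [mul_pow, sq ((Fintype.card α : ℝ)⁻¹), mul_assoc]
    refine mul_le_mul_of_nonneg_left ?_ (by positivity)
    rw [inv_mul_le_iff₀ h0]
    exact h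

lemma ra_le_sqrt (f : α → ℝ) : ra f ≤ √(ra fun a => f a ^ 2) :=
  Real.le_sqrt_of_sq_le (ra_sq_le f)

/-- Jensen's inequality for the exponential function. -/
lemma exp_ra_le [Nonempty α] (f : α → ℝ) : Real.exp (ra f) ≤ ra fun a => Real.exp (f a) := by
  have h0 : (0 : ℝ) < Fintype.card α := by positivity
  have h := (convexOn_exp).map_sum_le (t := (univ : Finset α))
    (w := fun _ => (Fintype.card α : ℝ)⁻¹) (p := f) (fun _ _ => by positivity)
    (by simp [Finset.card_univ, h0.ne']) (fun _ _ => Set.mem_univ _)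
  simpa [ra, Finset.mul_sum] using h

end ra

section pr
variable {α β : Type} [Fintype α] [Fintype β]

lemma pr_nonneg (P : α → Prop) : 0 ≤ pr P :=
  ra_nonneg fun a => by split_ifs <;> norm_num

lemma pr_le_one (P : α → Prop) : pr P ≤ 1 :=
  ra_le_of_le zero_le_one fun a => by split_ifs <;> norm_num

lemma pr_mono {P Q : α → Prop} (h : ∀ a, P a → Q a) : pr P ≤ pr Q :=
  ra_mono fun a => by
    by_cases hP : P a
    · simp [hP, h a hP]
    · simp only [hP, if_false]
      split_ifs <;> norm_num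

lemma pr_congr {P Q : α → Prop} (h : ∀ a, P a ↔ Q a) : pr P = pr Q :=
  le_antisymm (pr_mono fun a => (h a).1) (pr_mono fun a => (h a).2)

lemma pr_false {P : α → Prop} (h : ∀ a, ¬ P a) : pr P = 0 := by
  simp [pr, h, ra]

lemma pr_or_le (P Q : α → Prop) : pr (fun a => P a ∨ Q a) ≤ pr P + pr Q := by
  unfold pr
  rw [← ra_add]
  refine ra_mono fun a => ?_
  by_cases hP : P a <;> by_cases hQ : Q a <;> simp [hP, hQ]

lemma pr_exists_le (P : β → α → Prop) : pr (fun a => ∃ b, P b a) ≤ ∑ b, pr (P b) := by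
  unfold pr
  rw [← ra_sum]
  refine ra_mono fun a => ?_
  have h0 : ∀ b ∈ (univ : Finset β), (0 : ℝ) ≤ @ite ℝ (P b a) (Classical.propDecidable _) 1 0 :=
    fun b _ => by split_ifs <;> norm_num
  split_ifs with h
  · obtain ⟨b, hb⟩ := h
    simpa [hb] using Finset.single_le_sum h0 (Finset.mem_univ b)
  · exact Finset.sum_nonneg h0

lemma pr_exists_le_card (P : β → α → Prop) {δ : ℝ} (h : ∀ b, pr (P b) ≤ δ) :
    pr (fun a => ∃ b, P b a) ≤ Fintype.card β * δ := by
  refine (pr_exists_le P).trans ((Finset.sum_le_sum fun b _ => h b).trans ?_)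
  simp [Finset.card_univ]

/-- Markov's inequality. -/
lemma pr_le_ra {P : α → Prop} {f : α → ℝ} (h0 : ∀ a, 0 ≤ f a) (h1 : ∀ a, P a → 1 ≤ f a) :
    pr P ≤ ra f :=
  ra_mono fun a => by
    split_ifs with h
    · exact h1 a h
    · exact h0 a

lemma exists_not_of_pr_lt_one [Nonempty α] {P : α → Prop} (h : pr P < 1) : ∃ a, ¬ P a := by
  by_contra hc
  push Not at hc
  have : pr P = 1 := by simp [pr, hc, ra_const]
  linarith

lemma ra_le_pr_split {P : α → Prop} {f : α → ℝ} {c C : ℝ} (hc : 0 ≤ c)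
    (h1 : ∀ a, ¬ P a → f a ≤ c) (h2 : ∀ a, f a ≤ C) : ra f ≤ c + C * pr P := by
  have h3 : ra f ≤ ra fun a => c + C * @ite ℝ (P a) (Classical.propDecidable _) 1 0 :=
    ra_mono fun a => by
      split_ifs with h
      · linarith [h2 a]
      · simpa using h1 a h
  refine h3.trans ?_
  rw [ra_add, ra_const_mul]
  exact add_le_add (ra_le_of_le hc fun _ => le_rfl) le_rfl

lemma pr_prod (P : α × β → Prop) : pr P = ra fun a => pr fun b => P (a, b) := ra_prod _

lemma pr_equiv (e : α ≃ β) (P : β → Prop) : (pr fun a => P (e a)) = pr P :=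
  ra_equiv e fun b => @ite ℝ (P b) (Classical.propDecidable _) 1 0

lemma pr_eq_card (P : α → Prop) [DecidablePred P] :
    pr P = ((univ.filter P).card : ℝ) / Fintype.card α := by
  unfold pr ra
  rw [div_eq_inv_mul]
  congr 1
  rw [Finset.card_filter]
  push_cast
  exact Finset.sum_congr rfl fun a _ => by congr

end pr

section av
variable {α β V V' : Type} [Fintype α] [Fintype β] [AddCommGroup V] [Module 𝕜 V]
  [AddCommGroup V'] [Module 𝕜 V']

lemma map_av (L : V →ₗ[𝕜] V') (f : α → V) : L (av 𝕜 f) = av 𝕜 fun a => L (f a) := by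
  simp [av, map_sum]

lemma av_add (f g : α → V) : (av 𝕜 fun a => f a + g a) = av 𝕜 f + av 𝕜 g := by
  simp [av, Finset.sum_add_distrib]

lemma av_sub (f g : α → V) : (av 𝕜 fun a => f a - g a) = av 𝕜 f - av 𝕜 g := by
  simp [av, Finset.sum_sub_distrib, smul_sub]

lemma av_smul (s : 𝕜) (f : α → V) : (av 𝕜 fun a => s • f a) = s • av 𝕜 f := by
  simp only [av, ← Finset.smul_sum]
  exact smul_comm _ _ _

lemma av_smul_const (f : α → 𝕜) (v : V) : (av 𝕜 fun a => f a • v) = av 𝕜 f • v := by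
  simp [av, ← Finset.sum_smul, mul_smul]

lemma av_const_mul (s : 𝕜) (f : α → 𝕜) : (av 𝕜 fun a => s * f a) = s * av 𝕜 f :=
  av_smul s f

lemma av_mul_const (s : 𝕜) (f : α → 𝕜) : (av 𝕜 fun a => f a * s) = av 𝕜 f * s :=
  av_smul_const f s

lemma av_const [Nonempty α] (v : V) : (av 𝕜 fun _ : α => v) = v := by
  have : (Fintype.card α : 𝕜) ≠ 0 := Nat.cast_ne_zero.2 Fintype.card_ne_zero
  simp [av, Finset.card_univ, ← Nat.cast_smul_eq_nsmul 𝕜, smul_smul, this]

lemma av_sum {ι : Type*} (s : Finset ι) (f : ι → α → V) :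
    (av 𝕜 fun a => ∑ i ∈ s, f i a) = ∑ i ∈ s, av 𝕜 (f i) := by
  simp only [av, ← Finset.smul_sum]
  rw [Finset.sum_comm]

lemma av_comm (f : α → β → V) :
    (av 𝕜 fun a => av 𝕜 fun b => f a b) = av 𝕜 fun b => av 𝕜 fun a => f a b := by
  simp only [av, ← Finset.smul_sum]
  rw [Finset.sum_comm, smul_comm]

lemma av_apply {A : Type} (f : α → A → 𝕜) (z : A) : av 𝕜 f z = av 𝕜 fun a => f a z := by
  simp [av, Finset.sum_apply]

lemma seminorm_sum_le {ι : Type*} (p : Seminorm 𝕜 V) (s : Finset ι) (f : ι → V) :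
    p (∑ i ∈ s, f i) ≤ ∑ i ∈ s, p (f i) :=
  Finset.le_sum_of_subadditive p (map_zero p).le (map_add_le_add p) s f

lemma seminorm_av_le (p : Seminorm 𝕜 V) (f : α → V) : p (av 𝕜 f) ≤ ra fun a => p (f a) := by
  unfold av ra
  rw [map_smul_eq_mul, norm_inv, RCLike.norm_natCast]
  exact mul_le_mul_of_nonneg_left (seminorm_sum_le p _ _) (by positivity)

lemma norm_av_le (f : α → 𝕜) : ‖av 𝕜 f‖ ≤ ra fun a => ‖f a‖ :=
  seminorm_av_le (normSeminorm 𝕜 𝕜) f

lemma av_ofReal (f : α → ℝ) : (av 𝕜 fun a => ((f a : ℝ) : 𝕜)) = ((ra f : ℝ) : 𝕜) := by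
  simp [av, ra]

lemma re_av (f : α → 𝕜) : RCLike.re (av 𝕜 f) = ra fun a => RCLike.re (f a) := by
  unfold av ra
  rw [smul_eq_mul, ← RCLike.ofReal_natCast, ← RCLike.ofReal_inv, RCLike.re_ofReal_mul, map_sum]

lemma im_av (f : α → 𝕜) : RCLike.im (av 𝕜 f) = ra fun a => RCLike.im (f a) := by
  unfold av ra
  rw [smul_eq_mul, ← RCLike.ofReal_natCast, ← RCLike.ofReal_inv, RCLike.im_ofReal_mul, map_sum]

end av

lemma sk_eq_sr (b : Bool) : sk 𝕜 b = ((sr b : ℝ) : 𝕜) := by cases b <;> simp [sk, sr]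

lemma norm_sk (b : Bool) : ‖sk 𝕜 b‖ = 1 := by cases b <;> simp [sk]

lemma sk_mul_self (b : Bool) : sk 𝕜 b * sk 𝕜 b = 1 := by cases b <;> simp [sk]

lemma abs_sr (b : Bool) : |sr b| = 1 := by cases b <;> simp [sr]

lemma sr_sq (b : Bool) : sr b ^ 2 = 1 := by cases b <;> simp [sr]

end Pool.Agent.Lib.MP_e0f470_an.Rob
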