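import Pool.Agent.Lib.MP_e0f470_an.RCover

/-! One block of the basis. -/

set_option autoImplicit false

namespace Pool.Agent.Lib.MP_e0f470_an.Rob

open Finset Filter
open scoped BigOperators Topology

variable {𝕜 : Type} [RCLike 𝕜]

theorem bstep_transport {X Y : Type} [NormedAddCommGroup X] [NormedSpace 𝕜 X]
    [NormedAddCommGroup Y] [NormedSpace 𝕜 Y] (Φ : Y →L[𝕜] X) (Ψ : X →L[𝕜] Y) (Δ : X →L[𝕜] X)
    {A B : ℝ} (hA : 0 ≤ A) (hΦ : ∀ y, ‖Φ y‖ ≤ A * ‖y‖) (hΨ : ∀ x, ‖Ψ x‖ ≤ B * ‖x‖)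
    (h1 : ∀ y, Ψ (Φ y) = y) (h2 : ∀ x, Φ (Ψ x) = Δ x)
    (hY : Blocked (ContinuousLinearMap.id 𝕜 Y) 1) : Blocked Δ (A * B) := by
  obtain ⟨m, y, φ, hm, hbi, hsum, hbd⟩ := hY
  have key : ∀ r x, ∑ s ∈ range r, ((φ s).comp Ψ) x • Φ (y s) =
      Φ (∑ s ∈ range r, φ s (Ψ x) • y s) := by
    intro r x
    simp only [map_sum, map_smul, ContinuousLinearMap.comp_apply]
  refine ⟨m, fun s => Φ (y s), fun s => (φ s).comp Ψ, hm, ?_, ?_, ?_⟩
  · intro s hs s' hs'
    simp only [ContinuousLinearMap.comp_apply, h1]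
    exact hbi s hs s' hs'
  · intro x
    rw [key, hsum, ContinuousLinearMap.id_apply, h2]
  · intro r hr x
    rw [key]
    calc ‖Φ (∑ s ∈ range r, φ s (Ψ x) • y s)‖ ≤ A * ‖∑ s ∈ range r, φ s (Ψ x) • y s‖ := hΦ _
      _ ≤ A * (B * ‖x‖) := by
        refine mul_le_mul_of_nonneg_left ?_ hA
        have := hbd r hr (Ψ x)
        rw [one_mul] at this
        exact this.trans (hΨ x)
      _ = A * B * ‖x‖ := by ring

/-- Take a projection `P` between `S n` and `S n1` (with `n1 > n`, enlarge it), let `H` be the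
range of `P - R` (finite-dimensional; `P - R` is a projection as `P R = R = R P`), take `Y, j, q`
from `exists_cover` and `a, b` for `Y` between `n1` and `n'`. Put `R' = P + a (1 - j q) b`. The maps
`Φ = incl q + a (1 - j q) : Y → X` and `Ψ = j (P - R) + (1 - j q) b : X → Y` satisfy `Ψ Φ = 1`,
`Φ Ψ = R' - R`, `‖Φ‖ ≤ 4`, `‖Ψ‖ ≤ 2 * (2 * C + 3 * K) + 3 * K`; transport the basis of `Y`. -/
theorem basis_step {X : Type} [NormedAddCommGroup X] [NormedSpace 𝕜 X] {S : ℕ → X →L[𝕜] X}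
    (hS : FDD S) {C K : ℝ} (hC : 0 ≤ C) (hK : 0 ≤ K) (hP : Projs S C) (hU : Univ2 S K) (n : ℕ)
    (R : X →L[𝕜] X) (hR : ‖R‖ ≤ C + 3 * K) (h1 : ∀ x, R (R x) = R x)
    (h2 : ∀ x, R (S n x) = R x) (h3 : ∀ x, S n (R x) = R x) :
    ∃ (n' : ℕ) (R' : X →L[𝕜] X), n < n' ∧ ‖R'‖ ≤ C + 3 * K ∧ (∀ x, R' (R' x) = R' x) ∧
      Btw S n n' R' ∧ Blocked (R' - R) (4 * (2 * (2 * C + 3 * K) + 3 * K)) := by
  obtain ⟨n0, P, hn0, hPn, ⟨p1, p2, p3, p4⟩, pp⟩ := hP n
  have hSl : ∀ i k, i ≤ k → ∀ x, S i (S k x) = S i x := fun i k h x => by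
    rw [hS.comp, min_eq_left h]
  have hSr : ∀ i k, i ≤ k → ∀ x, S k (S i x) = S i x := fun i k h x => by
    rw [hS.comp, min_eq_right h]
  have p3' : ∀ k, n0 ≤ k → ∀ x, P (S k x) = P x := fun k h x => by
    rw [← p3 (S k x), hSl n0 k h, p3]
  have p4' : ∀ k, n0 ≤ k → ∀ x, S k (P x) = P x := fun k h x => by
    rw [← p4 x, hSr n0 k h]
  have hPR : ∀ x, P (R x) = R x := fun x => by rw [← h3 x, p1]
  have hRP : ∀ x, R (P x) = R x := fun x => by rw [← h2 (P x), p2, h2]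
  set D : X →L[𝕜] X := P - R with hD
  have hDa : ∀ x, D x = P x - R x := fun x => rfl
  have hDD : ∀ x, D (D x) = D x := fun x => by
    rw [hDa, hDa x, map_sub, map_sub, pp, hPR, hRP, h1]
    abel
  have hSD : ∀ x, S (n0 + 1) (D x) = D x := fun x => by
    rw [hDa, map_sub, p4' _ (by omega), ← h3 x, hSr n (n0 + 1) (by omega)]
  have hDn : ∀ x, ‖D x‖ ≤ (2 * C + 3 * K) * ‖x‖ := fun x => by
    have e1 : ‖P x‖ ≤ C * ‖x‖ := P.le_of_opNorm_le hPn x
    have e2 : ‖R x‖ ≤ (C + 3 * K) * ‖x‖ := R.le_of_opNorm_le hR x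
    have e3 := norm_sub_le (P x) (R x)
    rw [hDa]
    linarith
  let H : Submodule 𝕜 X := LinearMap.range D.toLinearMap
  have hH : H ≤ LinearMap.range (S (n0 + 1)).toLinearMap := by
    rintro _ ⟨x, rfl⟩
    exact ⟨D x, hSD x⟩
  have := hS.fin (n0 + 1)
  have : FiniteDimensional 𝕜 H := Submodule.finiteDimensional_of_le hH
  let D' : X →L[𝕜] H := D.codRestrict H fun x => ⟨x, rfl⟩
  have hD' : ∀ x, ((D' x : H) : X) = D x := fun x => rfl
  have hD'h : ∀ h : H, D' (h : X) = h := by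
    rintro ⟨_, x, rfl⟩
    exact Subtype.ext (hDD x)
  have hSh : ∀ h : H, S (n0 + 1) (h : X) = h := by
    rintro ⟨_, x, rfl⟩
    exact hSD x
  obtain ⟨Y, i1, i2, i3, j, q, hj, hq, hqj, hY⟩ := exists_cover (𝕜 := 𝕜) H
  obtain ⟨n', a, b, hn', ha, hb, hba, a1, a2, b1, b2⟩ := hU (n0 + 1) Y
  set e : Y →L[𝕜] Y := ContinuousLinearMap.id 𝕜 Y - j.comp q with he
  have hea : ∀ y, e y = y - j (q y) := fun y => rfl
  have hej : ∀ h, e (j h) = 0 := fun h => by rw [hea, hqj, sub_self]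
  have hqe : ∀ y, q (e y) = 0 := fun y => by rw [hea, map_sub, hqj, sub_self]
  have hee : ∀ y, e (e y) = e y := fun y => by rw [hea (e y), hqe, map_zero, sub_zero]
  have hjn : ∀ h, ‖j h‖ ≤ 2 * ‖h‖ := fun h => j.le_of_opNorm_le hj h
  have hqn : ∀ y, ‖q y‖ ≤ ‖y‖ := fun y => by
    have := q.le_of_opNorm_le hq y
    rwa [one_mul] at this
  have han : ∀ y, ‖a y‖ ≤ ‖y‖ := fun y => by
    have := a.le_of_opNorm_le ha y
    rwa [one_mul] at this
  have hbn : ∀ x, ‖b x‖ ≤ K * ‖x‖ := fun x => b.le_of_opNorm_le hb x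
  have hen : ∀ y, ‖e y‖ ≤ 3 * ‖y‖ := fun y => by
    have e1 := hjn (q y)
    have e2 := hqn y
    have e3 := norm_sub_le y (j (q y))
    rw [hea]
    linarith
  have hPa : ∀ y, P (a y) = 0 := fun y => by rw [← p3' (n0 + 1) (by omega), a1, map_zero]
  have hSa : ∀ y, S n (a y) = 0 := fun y => by rw [← hSl n (n0 + 1) (by omega), a1, map_zero]
  have hRa : ∀ y, R (a y) = 0 := fun y => by rw [← h2, hSa, map_zero]
  have hbP : ∀ x, b (P x) = 0 := fun x => by rw [← p4' (n0 + 1) (by omega), b1]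
  have hbS : ∀ x, b (S n x) = 0 := fun x => by rw [← hSr n (n0 + 1) (by omega), b1]
  have hbh : ∀ h : H, b (h : X) = 0 := fun h => by rw [← hSh h, b1]
  have hD'a : ∀ y, D' (a y) = 0 := fun y => Subtype.ext (by
    rw [hD', hDa, hPa, hRa, sub_self]
    rfl)
  set R' : X →L[𝕜] X := P + a.comp (e.comp b) with hR'
  have hR'a : ∀ x, R' x = P x + a (e (b x)) := fun x => rfl
  have haeb : ∀ x, ‖e (b x)‖ ≤ 3 * K * ‖x‖ := fun x => by
    have e1 := hen (b x)
    have e2 := hbn x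
    linarith
  refine ⟨n', R', by omega, ?_, ?_, ⟨?_, ?_, ?_, ?_⟩, ?_⟩
  · refine ContinuousLinearMap.opNorm_le_bound _ (by positivity) fun x => ?_
    have e1 : ‖P x‖ ≤ C * ‖x‖ := P.le_of_opNorm_le hPn x
    have e2 := han (e (b x))
    have e3 := haeb x
    have e4 := norm_add_le (P x) (a (e (b x)))
    rw [hR'a]
    linarith
  · intro x
    rw [hR'a, hR'a x, map_add, map_add, pp, hPa, hbP, hba, zero_add, add_zero, hee]
  · intro x
    rw [hR'a, p1, hbS, map_zero, map_zero, add_zero]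
  · intro x
    rw [hR'a, map_add, p2, hSa, add_zero]
  · intro x
    rw [hR'a, hR'a, p3' n' (by omega), b2]
  · intro x
    rw [hR'a, map_add, p4' n' (by omega), a2]
  · refine bstep_transport (H.subtypeL.comp q + a.comp e) (j.comp D' + e.comp b) _ (by norm_num)
      ?_ ?_ ?_ ?_ hY
    · intro y
      have e0 : (H.subtypeL.comp q + a.comp e) y = (q y : X) + a (e y) := rfl
      have e1 : ‖(q y : X)‖ ≤ ‖y‖ := hqn y
      have e2 := han (e y)
      have e3 := hen y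
      have e4 := norm_add_le (q y : X) (a (e y))
      rw [e0]
      linarith
    · intro x
      have e0 : (j.comp D' + e.comp b) x = j (D' x) + e (b x) := rfl
      have e1 := hjn (D' x)
      have e2 : ‖D' x‖ ≤ (2 * C + 3 * K) * ‖x‖ := hDn x
      have e3 := haeb x
      have e4 := norm_add_le (j (D' x)) (e (b x))
      rw [e0]
      linarith
    · intro y
      have e0 : (H.subtypeL.comp q + a.comp e) y = (q y : X) + a (e y) := rfl
      have e1 : ∀ x, (j.comp D' + e.comp b) x = j (D' x) + e (b x) := fun x => rfl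
      rw [e0, e1, map_add, map_add b, hD'h, hD'a, hbh, hba, add_zero, zero_add, hee, hea]
      abel
    · intro x
      have e0 : ∀ y, (H.subtypeL.comp q + a.comp e) y = (q y : X) + a (e y) := fun y => rfl
      have e1 : (j.comp D' + e.comp b) x = j (D' x) + e (b x) := rfl
      have e2 : (R' - R) x = R' x - R x := rfl
      rw [e0, e1, map_add, map_add e, hqj, hqe, hej, hee, add_zero, zero_add, hD', e2, hR'a, hDa]
      abel

end Pool.Agent.Lib.MP_e0f470_an.Rob
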