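import Pool.Agent.Lib.MP_e0f470_an.RDefs

/-! Concatenation of finite bases. -/

set_option autoImplicit false

namespace Pool.Agent.Lib.MP_e0f470_an.Rob

open Finset Filter
open scoped BigOperators Topology

variable {𝕜 : Type} [RCLike 𝕜]

/-- The walk through the pairs `(n, s)` with `s < m n`. -/
def cat_pos (m : ℕ → ℕ) : ℕ → ℕ × ℕ
  | 0 => (0, 0)
  | k + 1 => if (cat_pos m k).2 + 1 < m (cat_pos m k).1 then ((cat_pos m k).1, (cat_pos m k).2 + 1)
      else ((cat_pos m k).1 + 1, 0)

theorem cat_succ (m : ℕ → ℕ) (k : ℕ) :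
    ((cat_pos m k).2 + 1 < m (cat_pos m k).1 ∧
      cat_pos m (k + 1) = ((cat_pos m k).1, (cat_pos m k).2 + 1)) ∨
    (m (cat_pos m k).1 ≤ (cat_pos m k).2 + 1 ∧ cat_pos m (k + 1) = ((cat_pos m k).1 + 1, 0)) := by
  by_cases h : (cat_pos m k).2 + 1 < m (cat_pos m k).1
  · exact Or.inl ⟨h, by rw [cat_pos, if_pos h]⟩
  · exact Or.inr ⟨not_lt.1 h, by rw [cat_pos, if_neg h]⟩

theorem cat_lt {m : ℕ → ℕ} (hm : ∀ n, 0 < m n) (k : ℕ) : (cat_pos m k).2 < m (cat_pos m k).1 := by
  cases k with
  | zero => exact hm 0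
  | succ k =>
    rcases cat_succ m k with ⟨h, e⟩ | ⟨-, e⟩ <;> rw [e]
    · exact h
    · exact hm _

theorem cat_inj (m : ℕ → ℕ) : Function.Injective (cat_pos m) := by
  have h : StrictMono fun k => toLex (cat_pos m k) := strictMono_nat_of_lt_succ fun k => by
    rw [Prod.Lex.toLex_lt_toLex]
    rcases cat_succ m k with ⟨-, e⟩ | ⟨-, e⟩ <;> rw [e] <;> simp
  exact fun a b e => h.injective (congrArg toLex e)

theorem cat_tendsto {m : ℕ → ℕ} (hm : ∀ n, 0 < m n) :
    Tendsto (fun k => (cat_pos m k).1) atTop atTop := by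
  refine tendsto_atTop_atTop_of_monotone (monotone_nat_of_le_succ fun k => ?_) fun n => ?_
  · rcases cat_succ m k with ⟨-, e⟩ | ⟨-, e⟩ <;> simp [e]
  · suffices h : ∃ k, cat_pos m k = (n, 0) by
      obtain ⟨k, hk⟩ := h
      exact ⟨k, by rw [hk]⟩
    induction n with
    | zero => exact ⟨0, rfl⟩
    | succ n ih =>
      obtain ⟨k, hk⟩ := ih
      have h : ∀ s, s < m n → cat_pos m (k + s) = (n, s) := by
        intro s
        induction s with
        | zero => exact fun _ => hk
        | succ s ihs =>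
          intro hs
          rw [← add_assoc, cat_pos, ihs (by omega), if_pos hs]
      have h1 := hm n
      refine ⟨k + (m n - 1) + 1, ?_⟩
      rw [cat_pos, h _ (by omega), if_neg (by simp only; omega)]

/-- Choose the data `m n, y n, φ n` of the blocks `Δ n = R (n + 1) - R n`. One has
`Δ n (y n s) = y n s`, `φ n s (Δ n x) = φ n s x` and `Δ n (Δ n' x) = 0` for `n ≠ n'`
(`SchauderBasis.succSub_ortho`). Let `A n = ∑ n' < n, m n'` (strictly increasing); each `k` is
uniquely `A n + s` with `s < m n` (`Nat.findGreatest` or `Nat.find`). The sum of the first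
`A n + r` terms is `R n x + ∑ s < r, φ n s x • y n s`, and the last sum is unchanged if `x` is
replaced by `Δ n x`, which tends to zero. For the field `expansion` see the proof of
`SchauderBasis.RankOneDecomposition.basis` in Mathlib. -/
theorem basis_of_blocked {X : Type} [NormedAddCommGroup X] [NormedSpace 𝕜 X]
    (R : ℕ → X →L[𝕜] X) (C : ℝ) (h0 : R 0 = 0) (hcomp : ∀ n m x, R n (R m x) = R (min n m) x)
    (htend : ∀ x, Tendsto (fun n => R n x) atTop (𝓝 x)) (hR : ∀ n, ‖R n‖ ≤ C)
    (hB : ∀ n, Blocked (R (n + 1) - R n) C) :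
    ∃ b : SchauderBasis 𝕜 X, ∀ k, ‖b.proj k‖ ≤ 2 * C := by
  choose m y φ hm hbi hsum hbd using hB
  have hC : 0 ≤ C := (norm_nonneg _).trans (hR 0)
  have hφ : ∀ n s, s < m n → ∀ x, φ n s ((R (n + 1) - R n) x) = φ n s x := by
    intro n s hs x
    rw [← hsum, map_sum, sum_eq_single s]
    · rw [map_smul, hbi n s hs s hs, if_pos rfl, smul_eq_mul, mul_one]
    · intro s' hs' hne
      rw [map_smul, hbi n s hs s' (mem_range.1 hs'), if_neg hne.symm, smul_zero]
    · intro h
      exact absurd (mem_range.2 hs) h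
  have hy : ∀ n s, s < m n → (R (n + 1) - R n) (y n s) = y n s := by
    intro n s hs
    rw [← hsum, sum_eq_single s]
    · rw [hbi n s hs s hs, if_pos rfl, one_smul]
    · intro s' hs' hne
      rw [hbi n s' (mem_range.1 hs') s hs, if_neg hne, zero_smul]
    · intro h
      exact absurd (mem_range.2 hs) h
  have hpart : ∀ x k, ∑ i ∈ range k, φ (cat_pos m i).1 (cat_pos m i).2 x •
      y (cat_pos m i).1 (cat_pos m i).2 = R (cat_pos m k).1 x +
        ∑ s ∈ range (cat_pos m k).2, φ (cat_pos m k).1 s x • y (cat_pos m k).1 s := by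
    intro x k
    induction k with
    | zero => simp [cat_pos, h0]
    | succ k ih =>
      rw [sum_range_succ, ih, add_assoc, ← sum_range_succ]
      rcases cat_succ m k with ⟨-, e⟩ | ⟨h, e⟩ <;> rw [e]
      have h1 := cat_lt hm k
      rw [show (cat_pos m k).2 + 1 = m (cat_pos m k).1 by omega, hsum]
      simp
  have hΔ : ∀ x, Tendsto (fun n => (R (n + 1) - R n) x) atTop (𝓝 0) := by
    intro x
    have := ((htend x).comp (tendsto_add_atTop_nat 1)).sub (htend x)
    simpa [Function.comp_def] using this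
  refine ⟨⟨fun k => y (cat_pos m k).1 (cat_pos m k).2, fun k => φ (cat_pos m k).1 (cat_pos m k).2,
    fun i j => ?_, fun x => ?_⟩, fun k => ?_⟩
  · simp only [Pi.single_apply]
    by_cases h : (cat_pos m i).1 = (cat_pos m j).1
    · have h1 := cat_lt hm i
      rw [h] at h1 ⊢
      rw [hbi _ _ h1 _ (cat_lt hm j)]
      by_cases e : i = j
      · simp [e]
      · rw [if_neg fun e' => e (cat_inj m (Prod.ext h e'))]
        simp [e]
    · have h2 := SchauderBasis.succSub_ortho hcomp (cat_pos m i).1 (cat_pos m j).1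
        (y (cat_pos m j).1 (cat_pos m j).2)
      rw [if_neg h] at h2
      simp only [SchauderBasis.succSub] at h2
      have e : ¬ i = j := fun e => h (by rw [e])
      rw [← hφ _ _ (cat_lt hm i), ← hy _ _ (cat_lt hm j), h2, map_zero]
      simp [e]
  · rw [HasSum, SummationFilter.conditional_filter_eq_map_range, tendsto_map'_iff]
    simp only [Function.comp_def, hpart]
    have h1 : Tendsto (fun k => ∑ s ∈ range (cat_pos m k).2,
        φ (cat_pos m k).1 s x • y (cat_pos m k).1 s) atTop (𝓝 0) := by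
      have h2 := (((hΔ x).comp (cat_tendsto hm)).norm).const_mul C
      rw [norm_zero, mul_zero] at h2
      refine squeeze_zero_norm (fun k => ?_) h2
      have h3 := cat_lt hm k
      refine le_of_eq_of_le (congrArg _ (sum_congr rfl fun s hs => ?_)) (hbd _ _ h3.le _)
      simp only [Function.comp]
      rw [hφ _ _ ((mem_range.1 hs).trans h3)]
    simpa using ((htend x).comp (cat_tendsto hm)).add h1
  · refine ContinuousLinearMap.opNorm_le_bound _ (by positivity) fun x => ?_
    rw [SchauderBasis.proj_apply]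
    simp only
    rw [hpart]
    have h1 := (R (cat_pos m k).1).le_of_opNorm_le (hR _) x
    have h2 := hbd _ _ (cat_lt hm k).le x
    exact (norm_add_le _ _).trans (by linarith)

end Pool.Agent.Lib.MP_e0f470_an.Rob
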