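import Pool.Agent.Lib.MP_e0f470_an.RProj
import Pool.Agent.Lib.MP_e0f470_an.RBStep
import Pool.Agent.Lib.MP_e0f470_an.RCat

/-! A basis with bounded constant. -/

set_option autoImplicit false

namespace Pool.Agent.Lib.MP_e0f470_an.Rob

open Finset Filter
open scoped BigOperators Topology

variable {𝕜 : Type} [RCLike 𝕜]

theorem rbasis_blocked_mono {X : Type} [NormedAddCommGroup X] [NormedSpace 𝕜 X]
    {Δ : X →L[𝕜] X} {C C' : ℝ} (h : Blocked Δ C) (hC : C ≤ C') : Blocked Δ C' := by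
  obtain ⟨m, y, φ, h0, h1, h2, h3⟩ := h
  exact ⟨m, y, φ, h0, h1, h2, fun r hr x =>
    (h3 r hr x).trans (mul_le_mul_of_nonneg_right hC (norm_nonneg x))⟩

/-- The sequence of projections obtained by iterating a one step construction. -/
theorem rbasis_seq {X : Type} [NormedAddCommGroup X] [NormedSpace 𝕜 X] {S : ℕ → X →L[𝕜] X}
    {B D : ℝ} (hB : 0 ≤ B)
    (step : ∀ (n : ℕ) (R : X →L[𝕜] X), ‖R‖ ≤ B → (∀ x, R (R x) = R x) →
      (∀ x, R (S n x) = R x) → (∀ x, S n (R x) = R x) →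
      ∃ (n' : ℕ) (R' : X →L[𝕜] X), n < n' ∧ ‖R'‖ ≤ B ∧ (∀ x, R' (R' x) = R' x) ∧
        Btw S n n' R' ∧ Blocked (R' - R) D) :
    ∃ (n : ℕ → ℕ) (R : ℕ → X →L[𝕜] X), R 0 = 0 ∧ (∀ i, n i < n (i + 1)) ∧ (∀ i, ‖R i‖ ≤ B) ∧
      (∀ i x, R i (R i x) = R i x) ∧ (∀ i x, R i (S (n i) x) = R i x) ∧
      (∀ i x, S (n i) (R i x) = R i x) ∧ (∀ i, Btw S (n i) (n (i + 1)) (R (i + 1))) ∧
      ∀ i, Blocked (R (i + 1) - R i) D := by
  let St := {p : ℕ × (X →L[𝕜] X) // ‖p.2‖ ≤ B ∧ (∀ x, p.2 (p.2 x) = p.2 x) ∧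
    (∀ x, p.2 (S p.1 x) = p.2 x) ∧ ∀ x, S p.1 (p.2 x) = p.2 x}
  have hstep : ∀ p : St, ∃ p' : St, p.1.1 < p'.1.1 ∧ Btw S p.1.1 p'.1.1 p'.1.2 ∧
      Blocked (p'.1.2 - p.1.2) D := by
    rintro ⟨⟨n, R⟩, h1, h2, h3, h4⟩
    obtain ⟨n', R', a1, a2, a3, a4, a5⟩ := step n R h1 h2 h3 h4
    exact ⟨⟨(n', R'), a2, a3, a4.2.2.1, a4.2.2.2⟩, a1, a4, a5⟩
  choose f hf using hstep
  let p0 : St := ⟨(0, 0), by simpa using hB, by simp, by simp, by simp⟩
  let p : ℕ → St := fun i => f^[i] p0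
  have hp : ∀ i, p (i + 1) = f (p i) := fun i => Function.iterate_succ_apply' f i p0
  refine ⟨fun i => (p i).1.1, fun i => (p i).1.2, rfl, fun i => ?_, fun i => (p i).2.1,
    fun i => (p i).2.2.1, fun i => (p i).2.2.2.1, fun i => (p i).2.2.2.2, fun i => ?_,
    fun i => ?_⟩
  · simp only [hp]
    exact (hf (p i)).1
  · simp only [hp]
    exact (hf (p i)).2.1
  · simp only [hp]
    exact (hf (p i)).2.2

/-- Iterate `basis_step` from `(0, 0)` (recursion on the subtype of pairs `(n, R)` with the four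
properties) and apply `basis_of_blocked`. For `i < i'` one has `R i (R i' x) = R i x` and
`R i' (R i x) = R i x`, and `R (i + 1) (S i x) = S i x` gives the convergence. -/
theorem basis_of_univ (l K : ℝ) (hl : 0 ≤ l) (hK : 0 ≤ K) : ∃ C : ℝ, 1 ≤ C ∧
    ∀ (X : Type) [NormedAddCommGroup X] [NormedSpace 𝕜 X] (S : ℕ → X →L[𝕜] X), FDD S →
      Mult S l → Univ S K → ∃ b : SchauderBasis 𝕜 X, ∀ k, ‖b.proj k‖ ≤ C := by
  set K2 := K * (1 + l) * l with hK2
  have hK2' : 0 ≤ K2 := by positivity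
  set C1 := l + K2 + (l + l ^ 2) + (1 + l) * K2 with hC1
  have hC1' : 0 ≤ C1 := by positivity
  set B := C1 + 3 * K2 with hBdef
  set D := 4 * (2 * (2 * C1 + 3 * K2) + 3 * K2) with hDdef
  have hB : 0 ≤ B := by positivity
  have hD : 0 ≤ D := by positivity
  refine ⟨2 * (B + D) + 1, by linarith, ?_⟩
  intro X _ _ S hS hM hU
  have hU2 : Univ2 S K2 := univ2_of_univ hS hl hK hM hU
  have hP : Projs S C1 := projs_of_univ2 hS hl hK2' hM hU2
  obtain ⟨n, R, h0, hn, hR, hRR, hRS, hSR, hbtw, hblk⟩ := rbasis_seq (S := S) (D := D) hB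
    (fun n R a1 a2 a3 a4 => basis_step hS hC1' hK2' hP hU2 n R a1 a2 a3 a4)
  have hmono : StrictMono n := strictMono_nat_of_lt_succ hn
  have hlt1 : ∀ i j, i ≤ j → ∀ x, R i (R (j + 1) x) = R i x := by
    intro i j hij x
    have hle : n i ≤ n j := hmono.monotone hij
    have e : ∀ y, S (n i) (S (n j) y) = S (n i) y := fun y => by
      rw [hS.comp, min_eq_left hle]
    calc R i (R (j + 1) x) = R i (S (n i) (S (n j) (R (j + 1) x))) := by rw [e, hRS]
      _ = R i x := by rw [(hbtw j).2.1, e, hRS]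
  have hlt2 : ∀ i j, i ≤ j → ∀ x, R (j + 1) (R i x) = R i x := by
    intro i j hij x
    have hle : n i ≤ n j := hmono.monotone hij
    have e : S (n j) (R i x) = R i x := by
      calc S (n j) (R i x) = S (n j) (S (n i) (R i x)) := by rw [hSR]
        _ = S (n i) (R i x) := by rw [hS.comp, min_eq_right hle]
        _ = R i x := hSR i x
    calc R (j + 1) (R i x) = R (j + 1) (S (n j) (R i x)) := by rw [e]
      _ = R i x := by rw [(hbtw j).1, e]
  have hcomp : ∀ i j x, R i (R j x) = R (min i j) x := by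
    intro i j x
    rcases lt_trichotomy i j with h | h | h
    · obtain ⟨j', rfl⟩ : ∃ j', j = j' + 1 := ⟨j - 1, by omega⟩
      rw [min_eq_left h.le]
      exact hlt1 i j' (by omega) x
    · subst h
      rw [min_self]
      exact hRR i x
    · obtain ⟨i', rfl⟩ : ∃ i', i = i' + 1 := ⟨i - 1, by omega⟩
      rw [min_eq_right h.le]
      exact hlt2 j i' (by omega) x
  have htend : ∀ x, Tendsto (fun i => R i x) atTop (𝓝 x) := by
    intro x
    rw [← tendsto_add_atTop_iff_nat 1, tendsto_iff_norm_sub_tendsto_zero]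
    have h1 : Tendsto (fun i => S (n i) x) atTop (𝓝 x) := (hS.tend x).comp hmono.tendsto_atTop
    have h2 : Tendsto (fun i => (B + 1) * ‖S (n i) x - x‖) atTop (𝓝 0) := by
      simpa using (tendsto_iff_norm_sub_tendsto_zero.1 h1).const_mul (B + 1)
    refine squeeze_zero (fun i => norm_nonneg _) (fun i => ?_) h2
    have e : R (i + 1) x - x = (S (n i) x - x) - R (i + 1) (S (n i) x - x) := by
      rw [map_sub, (hbtw i).1]
      abel
    have h3 : ‖R (i + 1) (S (n i) x - x)‖ ≤ B * ‖S (n i) x - x‖ :=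
      ((R (i + 1)).le_opNorm _).trans (mul_le_mul_of_nonneg_right (hR _) (norm_nonneg _))
    have h4 := norm_sub_le (S (n i) x - x) (R (i + 1) (S (n i) x - x))
    rw [e]
    linarith
  obtain ⟨b, hb⟩ := basis_of_blocked R (B + D) h0 hcomp htend
    (fun i => (hR i).trans (by linarith))
    (fun i => rbasis_blocked_mono (hblk i) (by linarith))
  exact ⟨b, fun k => (hb k).trans (by linarith)⟩

end Pool.Agent.Lib.MP_e0f470_an.Rob
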