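import Pool.Agent.Lib.MP_e0f470_an.RNorm3

/-! Capacity estimates in the global space. -/

set_option autoImplicit false

namespace Pool.Agent.Lib.MP_e0f470_an.Rob

open Finset Filter
open scoped BigOperators Topology

variable {𝕜 : Type} [RCLike 𝕜]

lemma cap_aux1 {V Ω : Type} [AddCommGroup V] [Module 𝕜 V] [Fintype Ω] (ν : Seminorm 𝕜 V)
    (g : Ω → 𝕜) (hg : ∀ τ, ‖g τ‖ ≤ 2) (v : Ω → V) :
    ν (av 𝕜 fun τ => g τ • v τ) ≤ 2 * ra fun τ => ν (v τ) := by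
  refine (seminorm_av_le ν _).trans ?_
  rw [← ra_const_mul]
  refine ra_mono fun τ => ?_
  rw [map_smul_eq_mul]
  exact mul_le_mul_of_nonneg_right (hg τ) (apply_nonneg ν _)

/-- From `L∞ → L1` to `L2 → L2`. Let `B ^ 2` be the average of `ν (v τ) ^ 2` (the case `B = 0` is
trivial) and split `v` at the height `B / δ ^ 2`. The large part has `ra (ν v) ≤ δ ^ 2 * B`, so
the average of `ν (y c)` is at most `3 * δ ^ 2 * B`, while `ν (y c) ≤ 2 * B` for all `c`. -/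
theorem cap_sq {V Ω Φ : Type} [AddCommGroup V] [Module 𝕜 V] [Fintype Ω] [Fintype Φ]
    (ν : Seminorm 𝕜 V) (f : Ω → Φ → 𝕜) (hf : ∀ τ c, ‖f τ c‖ ≤ 2) (δ : ℝ) (hδ : 0 < δ)
    (h : ∀ v : Ω → V, (∀ τ, ν (v τ) ≤ 1) → (ra fun c => ν (av 𝕜 fun τ => f τ c • v τ)) ≤ δ ^ 4)
    (v : Ω → V) :
    (ra fun c => ν (av 𝕜 fun τ => f τ c • v τ) ^ 2) ≤ 6 * δ ^ 2 * ra fun τ => ν (v τ) ^ 2 := by
  classical
  have hA : 0 ≤ ra fun τ => ν (v τ) ^ 2 := ra_nonneg fun τ => sq_nonneg _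
  set B : ℝ := √(ra fun τ => ν (v τ) ^ 2) with hB
  have hB0 : 0 ≤ B := Real.sqrt_nonneg _
  have hB2 : B ^ 2 = ra fun τ => ν (v τ) ^ 2 := Real.sq_sqrt hA
  have h2B : ∀ c, ν (av 𝕜 fun τ => f τ c • v τ) ≤ 2 * B := fun c =>
    (cap_aux1 ν _ (fun τ => hf τ c) v).trans
      (mul_le_mul_of_nonneg_left (ra_le_sqrt _) (by norm_num))
  have hsq : (ra fun c => ν (av 𝕜 fun τ => f τ c • v τ) ^ 2) ≤
      2 * B * ra fun c => ν (av 𝕜 fun τ => f τ c • v τ) := by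
    rw [← ra_const_mul]
    refine ra_mono fun c => ?_
    rw [sq]
    exact mul_le_mul_of_nonneg_right (h2B c) (apply_nonneg ν _)
  rw [← hB2]
  rcases hB0.eq_or_lt with h0 | h0
  · rw [← h0] at hsq ⊢
    simpa using hsq
  have hδ2 : 0 < δ ^ 2 := by positivity
  set H : ℝ := B / δ ^ 2 with hH
  have hH0 : 0 < H := by positivity
  have hHk : ((H : ℝ) : 𝕜) ≠ 0 := by exact_mod_cast hH0.ne'
  set v1 : Ω → V := fun τ => if ν (v τ) ≤ H then ((H : ℝ) : 𝕜)⁻¹ • v τ else 0 with hv1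
  set v2 : Ω → V := fun τ => if ν (v τ) ≤ H then 0 else v τ with hv2
  have hsplit : ∀ τ, v τ = ((H : ℝ) : 𝕜) • v1 τ + v2 τ := by
    intro τ
    by_cases hτ : ν (v τ) ≤ H
    · simp only [hv1, hv2, if_pos hτ, add_zero, smul_smul, mul_inv_cancel₀ hHk, one_smul]
    · simp only [hv1, hv2, if_neg hτ, smul_zero, zero_add]
  have hn : ‖((H : ℝ) : 𝕜)‖ = H := by rw [RCLike.norm_ofReal, abs_of_pos hH0]
  have h1 : ∀ τ, ν (v1 τ) ≤ 1 := by
    intro τ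
    by_cases hτ : ν (v τ) ≤ H
    · simp only [hv1, if_pos hτ]
      rw [map_smul_eq_mul, norm_inv, hn, inv_mul_le_iff₀ hH0, mul_one]
      exact hτ
    · simp only [hv1, if_neg hτ, map_zero]
      exact zero_le_one
  have h2 : (ra fun τ => ν (v2 τ)) ≤ δ ^ 2 * B := by
    have e : δ ^ 2 * B = (ra fun τ => ν (v τ) ^ 2) / H := by
      rw [← hB2, hH]
      field_simp
    rw [e, ← ra_div_const]
    refine ra_mono fun τ => ?_
    by_cases hτ : ν (v τ) ≤ H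
    · simp only [hv2, if_pos hτ, map_zero]
      positivity
    · simp only [hv2, if_neg hτ]
      rw [le_div_iff₀ hH0, sq]
      exact mul_le_mul_of_nonneg_left (not_le.1 hτ).le (apply_nonneg ν _)
  have h3 : ∀ c, ν (av 𝕜 fun τ => f τ c • v τ) ≤
      H * ν (av 𝕜 fun τ => f τ c • v1 τ) + 2 * (δ ^ 2 * B) := by
    intro c
    have e : (av 𝕜 fun τ => f τ c • v τ) = ((H : ℝ) : 𝕜) • (av 𝕜 fun τ => f τ c • v1 τ) +
        av 𝕜 fun τ => f τ c • v2 τ := by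
      rw [← av_smul, ← av_add]
      congr 1
      funext τ
      rw [smul_comm, ← smul_add, ← hsplit τ]
    rw [e]
    refine (map_add_le_add ν _ _).trans (add_le_add ?_ ?_)
    · rw [map_smul_eq_mul, hn]
    · exact (cap_aux1 ν _ (fun τ => hf τ c) v2).trans
        (mul_le_mul_of_nonneg_left h2 (by norm_num))
  have h4 : (ra fun c => ν (av 𝕜 fun τ => f τ c • v τ)) ≤ 3 * (δ ^ 2 * B) := by
    refine (ra_mono h3).trans ?_
    rw [ra_add, ra_const_mul]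
    have a1 : H * (ra fun c => ν (av 𝕜 fun τ => f τ c • v1 τ)) ≤ δ ^ 2 * B := by
      refine (mul_le_mul_of_nonneg_left (h v1 h1) hH0.le).trans_eq ?_
      rw [hH]
      field_simp
    have a2 : (ra fun _ : Φ => 2 * (δ ^ 2 * B)) ≤ 2 * (δ ^ 2 * B) :=
      ra_le_of_le (by positivity) fun _ => le_rfl
    linarith
  refine hsq.trans ((mul_le_mul_of_nonneg_left h4 (by positivity)).trans_eq ?_)
  ring

/-- Blocks of small dimension: argue coordinatewise (`le_ν`, `ν_le`, `av_apply`). -/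
theorem cap_of_scal (F : Frame 𝕜) (i : ℕ) {Ω Φ : Type} [Fintype Ω] [Fintype Φ] (f : Ω → Φ → 𝕜)
    (ε : ℝ)
    (h : ∀ v : Ω → 𝕜, (∀ τ, ‖v τ‖ ≤ 1) → (ra fun c => ‖av 𝕜 fun τ => f τ c * v τ‖) ≤ ε)
    (v : Ω → F.C i → 𝕜) (hv : ∀ τ, F.ν i (v τ) ≤ 1) :
    (ra fun c => F.ν i (av 𝕜 fun τ => f τ c • v τ)) ≤ Fintype.card (F.C i) * ε := by
  have h1 : ∀ c, F.ν i (av 𝕜 fun τ => f τ c • v τ) ≤
      ∑ z : F.C i, ‖av 𝕜 fun τ => f τ c * v τ z‖ := by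
    intro c
    refine (F.ν_le i _).trans_eq (Finset.sum_congr rfl fun z _ => ?_)
    rw [av_apply]
    rfl
  refine (ra_mono h1).trans ?_
  rw [ra_sum]
  refine (Finset.sum_le_sum fun z _ =>
    h (fun τ => v τ z) fun τ => (F.le_ν i (v τ) z).trans (hv τ)).trans_eq ?_
  rw [Finset.sum_const, Finset.card_univ, nsmul_eq_mul]

/-- Sum `cap_sq` over a common finite support (`exists_supp_family`, `N1_sq`, `av_apply_blk`), then
use `ra_le_sqrt` and `nrm_le_sqrt`. -/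
theorem cap_l2 (F : Frame 𝕜) (i : ℕ) {Ω Φ : Type} [Fintype Ω] [Fintype Φ] (f : Ω → Φ → 𝕜)
    (hf : ∀ τ c, ‖f τ c‖ ≤ 2) (δ : ℝ) (hδ : 0 < δ)
    (h : ∀ i', i' ≤ i → ∀ v : Ω → F.C i' → 𝕜, (∀ τ, F.ν i' (v τ) ≤ 1) →
      (ra fun c => F.ν i' (av 𝕜 fun τ => f τ c • v τ)) ≤ δ ^ 4)
    (Lm : ℝ) (hL : ∀ i', i' ≤ i → (F.L i' : ℝ) ≤ Lm) (w : Ω → F.D) (hw : ∀ τ, F.nrm (w τ) ≤ 1) :
    (ra fun c => F.nrm (F.res {β | β.1 ≤ i} (av 𝕜 fun τ => f τ c • w τ))) ≤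
      (1 + √Lm) * (3 * δ) := by
  obtain ⟨A, hA⟩ := F.exists_supp_family w
  have hblk : ∀ c β, (av 𝕜 fun τ => f τ c • w τ) β = av 𝕜 fun τ => f τ c • w τ β := by
    intro c β
    rw [F.av_apply_blk]
    rfl
  have hzero : ∀ c β, β ∉ A → F.res {β | β.1 ≤ i} (av 𝕜 fun τ => f τ c • w τ) β = 0 := by
    intro c β hβ
    by_cases hi : β ∈ {β : Bk | β.1 ≤ i}
    · rw [F.res_apply_of_mem hi, hblk]
      simp [hA _ β hβ, av]
    · exact F.res_apply_of_notMem hi _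
  have h1 : ∀ c, F.nrm (F.res {β | β.1 ≤ i} (av 𝕜 fun τ => f τ c • w τ)) ≤
      (1 + √Lm) * F.N1 (F.res {β | β.1 ≤ i} (av 𝕜 fun τ => f τ c • w τ)) := by
    intro c
    refine F.nrm_le_sqrt _ Lm fun β hβ => hL β.1 ?_
    by_contra hi
    exact hβ (F.res_apply_of_notMem (A := {β : Bk | β.1 ≤ i}) hi _)
  refine (ra_mono h1).trans ?_
  rw [ra_const_mul]
  refine mul_le_mul_of_nonneg_left ((ra_le_sqrt _).trans ?_) (by positivity)
  refine Real.sqrt_le_iff.2 ⟨by positivity, ?_⟩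
  have h2 : ∀ β ∈ A, (ra fun c =>
      F.ν β.1 (F.res {β | β.1 ≤ i} (av 𝕜 fun τ => f τ c • w τ) β) ^ 2) ≤
      6 * δ ^ 2 * ra fun τ => F.ν β.1 (w τ β) ^ 2 := by
    intro β _
    by_cases hi : β ∈ {β : Bk | β.1 ≤ i}
    · simp only [F.res_apply_of_mem hi, hblk]
      exact cap_sq (F.ν β.1) f hf δ hδ (h β.1 hi) fun τ => w τ β
    · simp only [F.res_apply_of_notMem hi, map_zero]
      refine ra_le_of_le (mul_nonneg (by positivity) (ra_nonneg fun τ => sq_nonneg _)) fun c => ?_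
      rw [zero_pow two_ne_zero]
      exact mul_nonneg (by positivity) (ra_nonneg fun τ => sq_nonneg _)
  have h3 : (ra fun τ => ∑ β ∈ A, F.ν β.1 (w τ β) ^ 2) ≤ 1 := by
    refine ra_le_of_le zero_le_one fun τ => (F.sum_sq_le_N1 _ A).trans ?_
    exact pow_le_one₀ (F.N1_nonneg _) ((F.N1_le_nrm _).trans (hw τ))
  simp only [fun c => F.N1_sq _ A (hzero c)]
  rw [ra_sum]
  refine (Finset.sum_le_sum h2).trans ?_
  rw [← Finset.mul_sum, ← ra_sum]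
  have h4 : 0 < δ ^ 2 := by positivity
  nlinarith

end Pool.Agent.Lib.MP_e0f470_an.Rob
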