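import Pool.Agent.Lib.MP_e0f470_an.RDefs

/-! Finite-dimensional spaces are complemented in spaces with a monotone basis. -/

set_option autoImplicit false

namespace Pool.Agent.Lib.MP_e0f470_an.Rob

open Finset Filter
open scoped BigOperators Topology

variable {𝕜 : Type} [RCLike 𝕜]

/-- A long expansion of the identity with bounded initial sums. -/
theorem cover_seq (H : Type) [NormedAddCommGroup H] [NormedSpace 𝕜 H] [FiniteDimensional 𝕜 H] :
    ∃ (m : ℕ) (v : ℕ → H) (ψ : ℕ → H →L[𝕜] 𝕜), (∀ h, ∑ s ∈ range (m + 1), ψ s h • v s = h) ∧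
      (∀ s h, ‖ψ s h‖ ≤ 2 * ‖h‖) ∧ ∀ r ≤ m + 1, ∀ h, ‖∑ s ∈ range r, ψ s h • v s‖ ≤ 2 * ‖h‖ := by
  obtain ⟨d, hd⟩ : ∃ d, d = Module.finrank 𝕜 H := ⟨_, rfl⟩
  have e : Module.Basis (Fin d) 𝕜 H := Module.finBasisOfFinrankEq 𝕜 H hd.symm
  obtain ⟨E, hE⟩ : ∃ E : ℕ → H, E = fun i => if h : i < d then e ⟨i, h⟩ else 0 := ⟨_, rfl⟩
  obtain ⟨f, hf⟩ : ∃ f : ℕ → H →L[𝕜] 𝕜, f = fun i =>
    if h : i < d then LinearMap.toContinuousLinearMap (e.coord ⟨i, h⟩) else 0 := ⟨_, rfl⟩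
  have hsum : ∀ h, ∑ i ∈ range (d + 1), f i h • E i = h := by
    intro h
    rw [sum_range_succ, ← Fin.sum_univ_eq_sum_range (fun i => f i h • E i) d]
    have h1 : ∀ i : Fin d, f i h • E i = e.repr h i • e i := by
      intro i
      simp [hE, hf]
    have h2 : E d = 0 := by simp [hE]
    rw [h2, smul_zero, add_zero, sum_congr rfl fun i _ => h1 i, e.sum_repr]
  obtain ⟨R, hR⟩ := exists_nat_ge (∑ i ∈ range (d + 1), ‖f i‖ * (‖E i‖ + 1))
  have hR0 : (0 : ℝ) < (R + 1 : ℕ) := by positivity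
  have hRk : ((R + 1 : ℕ) : 𝕜) ≠ 0 := Nat.cast_ne_zero.2 (Nat.succ_ne_zero R)
  have hRn : ‖((R + 1 : ℕ) : 𝕜)⁻¹‖ = ((R + 1 : ℕ) : ℝ)⁻¹ := by rw [norm_inv, RCLike.norm_natCast]
  have hR1 : ∑ i ∈ range (d + 1), ‖f i‖ * (‖E i‖ + 1) ≤ (R + 1 : ℕ) := by push_cast; linarith
  have hblock : ∀ (h : H) (a b : ℕ), b ≤ d + 1 →
      ∑ s ∈ range b, f ((a * (d + 1) + s) % (d + 1)) h • E ((a * (d + 1) + s) % (d + 1)) =
        ∑ s ∈ range b, f s h • E s := by
    intro h a b hb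
    refine sum_congr rfl fun s hs => ?_
    rw [Nat.mul_add_mod_of_lt (lt_of_lt_of_le (mem_range.1 hs) hb)]
  have hfull : ∀ (h : H) (a : ℕ),
      ∑ s ∈ range (a * (d + 1)), f (s % (d + 1)) h • E (s % (d + 1)) = (a : 𝕜) • h := by
    intro h a
    induction a with
    | zero => simp
    | succ a ih =>
      rw [Nat.succ_mul, sum_range_add, ih, hblock h a _ le_rfl, hsum, Nat.cast_succ, add_smul,
        one_smul]
  have hm : (R + 1) * (d + 1) - 1 + 1 = (R + 1) * (d + 1) :=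
    Nat.sub_add_cancel (Nat.mul_pos (Nat.succ_pos R) (Nat.succ_pos d))
  have hpull : ∀ (h : H) (r : ℕ),
      ∑ s ∈ range r, (((R + 1 : ℕ) : 𝕜)⁻¹ • f (s % (d + 1))) h • E (s % (d + 1)) =
        ((R + 1 : ℕ) : 𝕜)⁻¹ • ∑ s ∈ range r, f (s % (d + 1)) h • E (s % (d + 1)) := by
    intro h r
    rw [smul_sum]
    refine sum_congr rfl fun s _ => ?_
    rw [_root_.smul_apply, smul_assoc]
  refine ⟨(R + 1) * (d + 1) - 1, fun s => E (s % (d + 1)),
    fun s => ((R + 1 : ℕ) : 𝕜)⁻¹ • f (s % (d + 1)), fun h => ?_, fun s h => ?_, fun r hr h => ?_⟩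
  · rw [hm, hpull, hfull, smul_smul, inv_mul_cancel₀ hRk, one_smul]
  · rw [_root_.smul_apply, norm_smul, hRn]
    have h1 : ‖f (s % (d + 1))‖ * (‖E (s % (d + 1))‖ + 1) ≤
        ∑ i ∈ range (d + 1), ‖f i‖ * (‖E i‖ + 1) :=
      single_le_sum (f := fun i => ‖f i‖ * (‖E i‖ + 1)) (fun i _ => by positivity)
        (mem_range.2 (Nat.mod_lt s (Nat.succ_pos d)))
    have h2 : ‖f (s % (d + 1))‖ ≤ (R + 1 : ℕ) := by
      nlinarith [mul_nonneg (norm_nonneg (f (s % (d + 1)))) (norm_nonneg (E (s % (d + 1))))]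
    have h3 := (f (s % (d + 1))).le_opNorm h
    have h4 := mul_le_mul_of_nonneg_right h2 (norm_nonneg h)
    rw [inv_mul_le_iff₀ hR0]
    nlinarith [mul_nonneg hR0.le (norm_nonneg h)]
  · rw [hm] at hr
    rw [hpull, norm_smul, hRn, inv_mul_le_iff₀ hR0]
    have hdec : r = r / (d + 1) * (d + 1) + r % (d + 1) := (Nat.div_add_mod' r (d + 1)).symm
    have hb : r % (d + 1) ≤ d + 1 := (Nat.mod_lt r (Nat.succ_pos d)).le
    have ha : r / (d + 1) ≤ R + 1 := Nat.div_le_of_le_mul (by rwa [Nat.mul_comm])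
    obtain ⟨a, ha'⟩ : ∃ a, a = r / (d + 1) := ⟨_, rfl⟩
    obtain ⟨b, hb'⟩ : ∃ b, b = r % (d + 1) := ⟨_, rfl⟩
    rw [← ha', ← hb'] at hdec
    rw [← ha'] at ha
    rw [← hb'] at hb
    rw [hdec, sum_range_add, hfull, hblock h a b hb]
    have h1 : ‖(a : 𝕜) • h‖ ≤ (R + 1 : ℕ) * ‖h‖ := by
      rw [norm_smul, RCLike.norm_natCast]
      exact mul_le_mul_of_nonneg_right (by exact_mod_cast ha) (norm_nonneg h)
    have h2 : ‖∑ s ∈ range b, f s h • E s‖ ≤ (R + 1 : ℕ) * ‖h‖ := by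
      calc ‖∑ s ∈ range b, f s h • E s‖ ≤ ∑ s ∈ range b, ‖f s‖ * (‖E s‖ + 1) * ‖h‖ := by
            refine norm_sum_le_of_le _ fun s _ => ?_
            rw [norm_smul]
            have h3 := mul_le_mul_of_nonneg_right ((f s).le_opNorm h) (norm_nonneg (E s))
            nlinarith [mul_nonneg (norm_nonneg (f s)) (norm_nonneg h)]
        _ ≤ ∑ s ∈ range (d + 1), ‖f s‖ * (‖E s‖ + 1) * ‖h‖ :=
            sum_le_sum_of_subset_of_nonneg (range_mono hb) fun s _ _ => by positivity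
        _ ≤ (R + 1 : ℕ) * ‖h‖ := by
            rw [← sum_mul]
            exact mul_le_mul_of_nonneg_right hR1 (norm_nonneg h)
    have h3 := norm_add_le ((a : 𝕜) • h) (∑ s ∈ range b, f s h • E s)
    linarith

/-- Extension of a finite sequence by zero. -/
def coverExt {m : ℕ} (t : Fin m → 𝕜) (s : ℕ) : 𝕜 := if h : s < m then t ⟨s, h⟩ else 0

/-- A sequence of scalars together with its initial sums. -/
def coverL {H : Type} [NormedAddCommGroup H] [NormedSpace 𝕜 H] (m : ℕ) (v : ℕ → H) :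
    (Fin m → 𝕜) →ₗ[𝕜] (Fin m → 𝕜) × (Fin m → H) where
  toFun t := (t, fun r => ∑ s ∈ range (r + 1), coverExt t s • v s)
  map_add' t t' := by
    refine Prod.ext rfl (funext fun r => ?_)
    simp only [Prod.snd_add, Pi.add_apply, ← sum_add_distrib]
    refine sum_congr rfl fun s _ => ?_
    unfold coverExt
    split_ifs <;> simp [add_smul]
  map_smul' c t := by
    refine Prod.ext rfl (funext fun r => ?_)
    simp only [Prod.smul_snd, Pi.smul_apply, smul_sum, RingHom.id_apply]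
    refine sum_congr rfl fun s _ => ?_
    unfold coverExt
    split_ifs <;> simp [mul_smul]

theorem cover_trunc {H : Type} [NormedAddCommGroup H] [NormedSpace 𝕜 H] (m : ℕ) (v : ℕ → H)
    (t : Fin m → 𝕜) (r : ℕ) :
    ‖coverL m v (fun i : Fin m => if (i : ℕ) < r then t i else 0)‖ ≤ ‖coverL m v t‖ := by
  rw [Prod.norm_def]
  refine max_le ?_ ?_
  · refine (pi_norm_le_iff_of_nonneg (norm_nonneg _)).2 fun i => ?_
    have h1 : ‖t i‖ ≤ ‖coverL m v t‖ := (norm_le_pi_norm t i).trans (norm_fst_le (coverL m v t))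
    change ‖if (i : ℕ) < r then t i else 0‖ ≤ _
    split_ifs
    · exact h1
    · simp
  · refine (pi_norm_le_iff_of_nonneg (norm_nonneg _)).2 fun i => ?_
    change ‖∑ s ∈ range (i + 1),
      coverExt (fun i : Fin m => if (i : ℕ) < r then t i else 0) s • v s‖ ≤ _
    have h1 : ∑ s ∈ range (i + 1),
        coverExt (fun i : Fin m => if (i : ℕ) < r then t i else 0) s • v s =
          ∑ s ∈ range (min r (i + 1)), coverExt t s • v s := by
      rw [← sum_subset (range_mono (min_le_right r (i + 1)))]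
      · refine sum_congr rfl fun s hs => ?_
        have : s < r := lt_of_lt_of_le (mem_range.1 hs) (min_le_left _ _)
        simp [coverExt, this]
      · intro s hs hs'
        have : ¬ s < r := fun h => hs' (mem_range.2 (lt_min h (mem_range.1 hs)))
        simp [coverExt, this]
    rw [h1]
    rcases Nat.eq_zero_or_pos (min r (i + 1)) with h | h
    · rw [h]; simp
    · have hlt : min r (i + 1) - 1 < m := by have := i.2; omega
      have h2 : ∑ s ∈ range (min r (i + 1)), coverExt t s • v s =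
          (coverL m v t).2 ⟨min r (i + 1) - 1, hlt⟩ := by
        change _ = ∑ s ∈ range (min r (i + 1) - 1 + 1), coverExt t s • v s
        rw [Nat.sub_add_cancel h]
      rw [h2]
      exact (norm_le_pi_norm _ _).trans (norm_snd_le _)

theorem cover_sum {m : ℕ} (t : Fin m → 𝕜) (r : ℕ) :
    ∑ s ∈ range r, coverExt t s • (fun i : Fin m => if (i : ℕ) = s then (1 : 𝕜) else 0) =
      fun i : Fin m => if (i : ℕ) < r then t i else 0 := by
  funext i
  simp only [Finset.sum_apply, Pi.smul_apply, smul_eq_mul, mul_ite, mul_one, mul_zero, sum_ite_eq,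
    mem_range]
  simp [coverExt]

/-- Pełczyński's trick. Take a basis `e r` of `H` with continuous coordinate functionals `f r`,
`r < d`, and `R ≥ 1` with `∑ r, ‖f r‖ * (‖e r‖ + 1) ≤ R`. Let `m = R * d + 1`, and for `s < R * d`
let `v s = e (s % d)`, `ψ s = R⁻¹ • f (s % d)`; let `v s = 0`, `ψ s = 0` for the last index. Then
`∑ s < m, ψ s h • v s = h` and all initial sums have norm at most `2 * ‖h‖`. Let `Y` be the graph
`{(t, fun r => ∑ s ≤ r, t s • v s)}` in `(Fin m → 𝕜) × (Fin m → H)` with the sup norm, `j h` the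
point with `t s = ψ s h`, `q` the last component, `y s` the point with `t = Pi.single s 1`. -/
theorem exists_cover (H : Type) [NormedAddCommGroup H] [NormedSpace 𝕜 H]
    [FiniteDimensional 𝕜 H] :
    ∃ (Y : Type) (_ : NormedAddCommGroup Y) (_ : NormedSpace 𝕜 Y) (_ : FiniteDimensional 𝕜 Y)
      (j : H →L[𝕜] Y) (q : Y →L[𝕜] H), ‖j‖ ≤ 2 ∧ ‖q‖ ≤ 1 ∧ (∀ h, q (j h) = h) ∧
      Blocked (ContinuousLinearMap.id 𝕜 Y) 1 := by
  obtain ⟨m, v, ψ, h1, h2, h3⟩ := cover_seq (𝕜 := 𝕜) H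
  have hext : ∀ (h : H) (r : ℕ), r ≤ m + 1 →
      ∑ s ∈ range r, coverExt (fun i : Fin (m + 1) => ψ i h) s • v s =
        ∑ s ∈ range r, ψ s h • v s := by
    intro h r hr
    refine sum_congr rfl fun s hs => ?_
    have : s < m + 1 := lt_of_lt_of_le (mem_range.1 hs) hr
    simp only [coverExt, this, dif_pos]
  let L := coverL (𝕜 := 𝕜) (m + 1) v
  let j0 : H →ₗ[𝕜] LinearMap.range L :=
    L.rangeRestrict ∘ₗ LinearMap.pi fun i : Fin (m + 1) => (ψ i : H →ₗ[𝕜] 𝕜)
  have hj0 : ∀ h, ‖j0 h‖ ≤ 2 * ‖h‖ := by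
    intro h
    change ‖coverL (m + 1) v (fun i : Fin (m + 1) => ψ i h)‖ ≤ _
    rw [Prod.norm_def]
    refine max_le ((pi_norm_le_iff_of_nonneg (by positivity)).2 fun i => h2 i h)
      ((pi_norm_le_iff_of_nonneg (by positivity)).2 fun i => ?_)
    change ‖∑ s ∈ range (i + 1), coverExt (fun i : Fin (m + 1) => ψ i h) s • v s‖ ≤ _
    rw [hext h _ i.2]
    exact h3 _ i.2 h
  let q0 : LinearMap.range L →ₗ[𝕜] H :=
    LinearMap.proj (Fin.last m) ∘ₗ LinearMap.snd 𝕜 _ _ ∘ₗ (LinearMap.range L).subtype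
  have hq0 : ∀ x, ‖q0 x‖ ≤ 1 * ‖x‖ := by
    intro x
    rw [one_mul]
    exact (norm_le_pi_norm x.1.2 (Fin.last m)).trans (norm_snd_le x.1)
  let φ : ℕ → LinearMap.range L →L[𝕜] 𝕜 := fun s =>
    if h : s < m + 1 then ContinuousLinearMap.proj (⟨s, h⟩ : Fin (m + 1)) ∘L
      ContinuousLinearMap.fst 𝕜 _ _ ∘L (LinearMap.range L).subtypeL else 0
  have hφ : ∀ s t, φ s (L.rangeRestrict t) = coverExt t s := by
    intro s t
    simp only [φ, coverExt]
    split_ifs
    · rfl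
    · rfl
  have hP : ∀ (t : Fin (m + 1) → 𝕜) (r : ℕ),
      ∑ s ∈ range r, φ s (L.rangeRestrict t) •
        L.rangeRestrict (fun i : Fin (m + 1) => if (i : ℕ) = s then (1 : 𝕜) else 0) =
          L.rangeRestrict fun i : Fin (m + 1) => if (i : ℕ) < r then t i else 0 := by
    intro t r
    rw [← cover_sum, map_sum]
    refine sum_congr rfl fun s _ => ?_
    rw [hφ, map_smul]
  refine ⟨LinearMap.range L, inferInstance, inferInstance, inferInstance,
    j0.mkContinuous 2 hj0, q0.mkContinuous 1 hq0,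
    LinearMap.mkContinuous_norm_le _ (by norm_num) _,
    LinearMap.mkContinuous_norm_le _ (by norm_num) _, fun h => ?_, m + 1,
    fun s => L.rangeRestrict fun i : Fin (m + 1) => if (i : ℕ) = s then (1 : 𝕜) else 0, φ,
    Nat.succ_pos m, fun s hs s' _ => ?_, fun x => ?_, fun r _ x => ?_⟩
  · change ∑ s ∈ range (m + 1), coverExt (fun i : Fin (m + 1) => ψ i h) s • v s = h
    rw [hext h _ le_rfl, h1]
  · rw [hφ]
    simp only [coverExt, hs, dif_pos]
  · obtain ⟨t, rfl⟩ := L.surjective_rangeRestrict x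
    rw [hP, ContinuousLinearMap.id_apply]
    congr 1
    funext i
    rw [if_pos i.2]
  · obtain ⟨t, rfl⟩ := L.surjective_rangeRestrict x
    rw [hP, one_mul]
    exact cover_trunc (m + 1) v t r

end Pool.Agent.Lib.MP_e0f470_an.Rob
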