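import Mathlib

/-! Definitions for the counterexample to problem MP_e0f470_an (a space all of whose renormings
have a basis with bounded constant). -/

set_option autoImplicit false

namespace Pool.Agent.Lib.MP_e0f470_an.Rob

open Finset Filter
open scoped BigOperators Topology

/-! ### Averages and signs -/

/-- Average of a real function over a finite type. -/
noncomputable def ra {α : Type} [Fintype α] (f : α → ℝ) : ℝ :=
  (Fintype.card α : ℝ)⁻¹ * ∑ a, f a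

/-- Average of a vector valued function over a finite type. -/
noncomputable def av (𝕜 : Type) [RCLike 𝕜] {α V : Type} [Fintype α] [AddCommGroup V] [Module 𝕜 V]
    (f : α → V) : V :=
  (Fintype.card α : 𝕜)⁻¹ • ∑ a, f a

open Classical in
/-- Uniform probability on a finite type. -/
noncomputable def pr {α : Type} [Fintype α] (P : α → Prop) : ℝ :=
  ra fun a => if P a then 1 else 0

/-- The sign of a Boolean, as a real number. -/
def sr (b : Bool) : ℝ := if b then 1 else -1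

/-- The sign of a Boolean, as a scalar. -/
def sk (𝕜 : Type) [RCLike 𝕜] (b : Bool) : 𝕜 := if b then 1 else -1

/-- Walsh functions on the discrete cube. -/
def walsh {k : ℕ} (S c : Fin k → Bool) : ℝ := ∏ i, if S i && c i then -1 else 1

/-- A real matrix with entries bounded by one and orthogonal columns of length `√n`. -/
def Had {Φ : Type} [Fintype Φ] [DecidableEq Φ] (W : Φ → Φ → ℝ) : Prop :=
  (∀ S c, |W S c| ≤ 1) ∧
    ∀ c c', ∑ S, W S c * W S c' = if c = c' then (Fintype.card Φ : ℝ) else 0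

/-! ### Powers of an ultrafilter -/

/-- Iterated powers of the hyperfilter; the first coordinate is the outermost one. -/
noncomputable def UPn : (n : ℕ) → Ultrafilter (Fin n → ℕ)
  | 0 => pure Fin.elim0
  | n + 1 => (hyperfilter ℕ).bind fun a => (UPn n).map fun w => (Fin.cons a w : Fin (n + 1) → ℕ)

/-- The power of the hyperfilter indexed by a finite linear order. -/
noncomputable def UP (ι : Type) [Fintype ι] [LinearOrder ι] : Ultrafilter (ι → ℕ) :=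
  (UPn (Fintype.card ι)).map fun w i => w ((monoEquivOfFin ι rfl).symm i)

/-- The `j`-th group of a big configuration. -/
def sub {K Γ R : Type} (W : K ×ₗ (Γ ×ₗ R) → ℕ) (j : Γ) : K ×ₗ R → ℕ :=
  fun z => W (toLex ((ofLex z).1, toLex (j, (ofLex z).2)))

/-! ### The global space -/

/-- Blocks: a kind `i` and a tuple of `i + 1` natural numbers. -/
abbrev Bk : Type := (i : ℕ) × (Fin (i + 1) → ℕ)

/-- The coordinates of a block (zero beyond the kind). -/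
def co (β : Bk) (ρ : ℕ) : ℕ := if h : ρ < β.1 + 1 then β.2 ⟨ρ, h⟩ else 0

/-- Interlacing (plegma) order of two blocks of the same kind. -/
def Prec (β β' : Bk) : Prop :=
  β.1 = β'.1 ∧ (∀ ρ, ρ ≤ β.1 → co β ρ < co β' ρ) ∧ ∀ ρ, ρ < β.1 → co β' ρ < co β (ρ + 1)

/-- The kind and the first coordinate of a block. -/
def key (β : Bk) : ℕ × ℕ := (β.1, co β 0)

/-- Blocks of kind less than `I` all of whose coordinates are less than `n`. -/
def box (I n : ℕ) : Set Bk := {β | β.1 < I ∧ ∀ ρ, ρ ≤ β.1 → co β ρ < n}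

/-- The data of the global construction: finite-dimensional blocks `C i → 𝕜` with norms `ν i`,
and the maximal length `L i` of a chain of blocks of kind `i`. -/
structure Frame (𝕜 : Type) [RCLike 𝕜] where
  C : ℕ → Type
  [fin : ∀ i, Fintype (C i)]
  ν : ∀ i, Seminorm 𝕜 (C i → 𝕜)
  L : ℕ → ℕ
  one_le_L : ∀ i, 1 ≤ L i
  le_ν : ∀ i u c, ‖u c‖ ≤ ν i u
  ν_le : ∀ i u, ν i u ≤ ∑ c, ‖u c‖

attribute [instance] Frame.fin

variable {𝕜 : Type} [RCLike 𝕜]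

namespace Frame

variable (F : Frame 𝕜)

/-- Finitely supported families of block vectors. -/
abbrev D : Type := Π₀ β : Bk, (F.C β.1 → 𝕜)

/-- A chain: a finite set of pairwise interlacing blocks, not longer than allowed. -/
def Chain (S : Finset Bk) : Prop :=
  (∀ β ∈ S, ∀ β' ∈ S, β ≠ β' → Prec β β' ∨ Prec β' β) ∧ ∀ β ∈ S, S.card ≤ F.L β.1

/-- An admissible system: chains with pairwise different keys and Euclidean weights. -/
def Adm {Q : Type} [Fintype Q] (S : Q → Finset Bk) (b : Q → ℝ) : Prop :=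
  (∀ q, F.Chain (S q)) ∧ (∀ q q', q ≠ q' → ∀ β ∈ S q, ∀ β' ∈ S q', key β ≠ key β') ∧
    (∀ q, 0 ≤ b q) ∧ ∑ q, b q ^ 2 ≤ 1

/-- The value of a system at a vector. -/
noncomputable def val {Q : Type} [Fintype Q] (S : Q → Finset Bk) (b : Q → ℝ) (x : F.D) : ℝ :=
  ∑ q, b q * ∑ β ∈ S q, F.ν β.1 (x β)

/-- Admissible systems indexed by `Fin m`. -/
def Sys : Type :=
  {σ : (m : ℕ) × (Fin m → Finset Bk) × (Fin m → ℝ) // F.Adm σ.2.1 σ.2.2}

open Classical in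
/-- The Euclidean part of the norm. -/
noncomputable def N1 (x : F.D) : ℝ := √(∑ β ∈ x.support, F.ν β.1 (x β) ^ 2)

/-- The chain part of the norm. -/
noncomputable def N2 (x : F.D) : ℝ := ⨆ σ : F.Sys, F.val σ.1.2.1 σ.1.2.2 x

/-- The norm. -/
noncomputable def nrm (x : F.D) : ℝ := F.N1 x + F.N2 x

/-- The best chain of kind `k` with first coordinates in `I`. -/
noncomputable def slot (x : F.D) (k : ℕ) (I : Finset ℕ) : ℝ :=
  ⨆ S : {S : Finset Bk // F.Chain S ∧ ∀ β ∈ S, β.1 = k ∧ co β 0 ∈ I},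
    ∑ β ∈ S.1, F.ν β.1 (x β)

/-- Diagonal multipliers. -/
noncomputable def mul (t : Bk → ℝ) : F.D →ₗ[𝕜] F.D :=
  DFinsupp.mapRange.linearMap fun β => ((t β : ℝ) : 𝕜) • LinearMap.id

/-- Restriction to a set of blocks. -/
noncomputable def res (A : Set Bk) : F.D →ₗ[𝕜] F.D := F.mul (A.indicator 1)

open Classical in
/-- A vector placed in one block. -/
noncomputable def sing (β : Bk) : (F.C β.1 → 𝕜) →ₗ[𝕜] F.D :=
  DFinsupp.lsingle (M := fun β : Bk => F.C β.1 → 𝕜) β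

/-- `p` is a renorming with distortion `M`. -/
def Ren (p : Seminorm 𝕜 F.D) (M : ℝ) : Prop :=
  1 ≤ M ∧ (∀ x, p x ≤ F.nrm x) ∧ ∀ x, F.nrm x ≤ M * p x

@[simp] lemma mul_apply (t : Bk → ℝ) (x : F.D) (β : Bk) :
    F.mul t x β = ((t β : ℝ) : 𝕜) • x β := by
  simp [mul]

lemma res_apply_of_mem {A : Set Bk} {β : Bk} (h : β ∈ A) (x : F.D) : F.res A x β = x β := by
  simp [res, Set.indicator_of_mem h]

lemma res_apply_of_notMem {A : Set Bk} {β : Bk} (h : β ∉ A) (x : F.D) : F.res A x β = 0 := by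
  simp [res, Set.indicator_of_notMem h]

lemma sing_apply_self (β : Bk) (u : F.C β.1 → 𝕜) : F.sing β u β = u := by
  simp [sing]

lemma sing_apply_ne {β β' : Bk} (h : β' ≠ β) (u : F.C β.1 → 𝕜) : F.sing β u β' = 0 := by
  classical
  simp only [sing, DFinsupp.lsingle_apply]
  exact DFinsupp.single_eq_of_ne h

end Frame

/-! ### Factorization data -/

section fac
variable {J X : Type} [Fintype J] [Fintype X]

/-- The span of the rows of `x`, with the sup norm, has unit ball comparable with the absolutely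
convex hull of the rows. -/
def Nice (x : X → J → 𝕜) : Prop :=
  ∀ y ∈ Submodule.span 𝕜 (Set.range x), ∃ l : X → 𝕜, y = ∑ i, l i • x i ∧ ∑ i, ‖l i‖ ≤ 6 * ‖y‖

/-- The map `a` is bounded on the rows of `x` and has an approximate left inverse. -/
def Fac {V : Type} [AddCommGroup V] [Module 𝕜 V] (x : X → J → 𝕜) (p : Seminorm 𝕜 V)
    (a : (J → 𝕜) →ₗ[𝕜] V) : Prop :=
  (∀ i, p (a (x i)) ≤ 1) ∧ ∃ b : V →ₗ[𝕜] (J → 𝕜),
    (∀ v, b v ∈ Submodule.span 𝕜 (Set.range x)) ∧ (∀ v, ‖b v‖ ≤ 2 * p v) ∧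
      ∀ y ∈ Submodule.span 𝕜 (Set.range x), ‖b (a y) - y‖ ≤ ‖y‖ / 2

end fac

/-- Codes for finite matrices. -/
abbrev Code : Type :=
  (d : ℕ) × (a : ℕ) × (b : ℕ) × (Fin (a + 1) → Fin d → ℕ) × (Fin (b + 1) → Fin d → ℕ)

/-- The matrix of pairings given by a code. -/
noncomputable def rawMat (𝕜 : Type) [RCLike 𝕜] (κ : Code) (i : Fin (κ.2.1 + 1))
    (j : Fin (κ.2.2.1 + 1)) : 𝕜 :=
  ∑ r, TopologicalSpace.denseSeq 𝕜 (κ.2.2.2.1 i r) * TopologicalSpace.denseSeq 𝕜 (κ.2.2.2.2 j r)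

open Classical in
/-- The matrix given by a code, replaced by zero if some entry is too large. -/
noncomputable def cmat (𝕜 : Type) [RCLike 𝕜] (κ : Code) :
    Fin (κ.2.1 + 1) → Fin (κ.2.2.1 + 1) → 𝕜 :=
  if ∀ i j, ‖rawMat 𝕜 κ i j‖ ≤ 1 then rawMat 𝕜 κ else 0

/-! ### The blocks -/

/-- Labels of the generators of one tensor level: a row `τ` with a vector `x i`, a Walsh
function, or a unit vector. -/
abbrev Lab (X Ω Φ : Type) : Type := (Ω × X) ⊕ (Φ ⊕ Φ)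

/-- The label of the vector `x i` seen through the row `τ`. -/
abbrev own {X Ω Φ : Type} (τ : Ω) (i : X) : Lab X Ω Φ := Sum.inl (τ, i)

/-- The label of a Walsh function. -/
abbrev wal {X Ω Φ : Type} (S : Φ) : Lab X Ω Φ := Sum.inr (Sum.inl S)

/-- The label of a unit vector. -/
abbrev del {X Ω Φ : Type} (c : Φ) : Lab X Ω Φ := Sum.inr (Sum.inr c)

section blk
variable {J X Ω Φ : Type} [Fintype J] [Fintype X] [Fintype Ω] [Fintype Φ] [DecidableEq J]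
  [DecidableEq Φ] {T : ℕ}

/-- A vector of `J → 𝕜` seen through a row. -/
def row (r : Φ → Bool × J) : (J → 𝕜) →ₗ[𝕜] (Φ → 𝕜) where
  toFun y c := sk 𝕜 (r c).1 * y (r c).2
  map_add' y z := by funext c; simp [mul_add]
  map_smul' s y := by funext c; simp [mul_left_comm]

/-- The generator of one level with a given label. -/
def vec (x : X → J → 𝕜) (W : Φ → Φ → ℝ) (r : Ω → Φ → Bool × J) : Lab X Ω Φ → Φ → 𝕜
  | Sum.inl z => row (r z.1) (x z.2)
  | Sum.inr (Sum.inl S) => fun c => ((W S c : ℝ) : 𝕜)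
  | Sum.inr (Sum.inr c') => fun c => if c = c' then 1 else 0

/-- Elementary tensors of generators. -/
def gen (x : X → J → 𝕜) (W : Φ → Φ → ℝ) (ξ : Fin T × Ω → Φ → Bool × J)
    (γ : Fin T → Lab X Ω Φ) : (Fin T → Φ) → 𝕜 :=
  fun cs => ∏ s, vec x W (fun τ => ξ (s, τ)) (γ s) (cs s)

/-- The elementary tensor with an arbitrary vector at level `t`. -/
def ten (x : X → J → 𝕜) (W : Φ → Φ → ℝ) (ξ : Fin T × Ω → Φ → Bool × J)
    (γ : Fin T → Lab X Ω Φ) (t : Fin T) : (Φ → 𝕜) →ₗ[𝕜] ((Fin T → Φ) → 𝕜) where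
  toFun v cs := v (cs t) * ∏ s ∈ univ.erase t, vec x W (fun τ => ξ (s, τ)) (γ s) (cs s)
  map_add' v w := by funext cs; simp [add_mul]
  map_smul' s v := by funext cs; simp [mul_assoc]

/-- The bilinear pairing. -/
def pair {A : Type} [Fintype A] (ζ u : A → 𝕜) : 𝕜 := ∑ a, ζ a * u a

/-- The polar of the set of generators. -/
def Pol (x : X → J → 𝕜) (W : Φ → Φ → ℝ) (ξ : Fin T × Ω → Φ → Bool × J)
    (ζ : (Fin T → Φ) → 𝕜) : Prop :=
  ∀ γ, ‖pair ζ (gen x W ξ γ)‖ ≤ 1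

/-- The block norm. -/
noncomputable def bn (x : X → J → 𝕜) (W : Φ → Φ → ℝ) (ξ : Fin T × Ω → Φ → Bool × J)
    (u : (Fin T → Φ) → 𝕜) : ℝ :=
  ⨆ ζ : {ζ // Pol x W ξ ζ}, ‖pair ζ.1 u‖

/-- The indicator that the entry `z` of a row points to `j`. -/
def ind (𝕜 : Type) [RCLike 𝕜] (z : Bool × J) (j : J) : 𝕜 := if z.2 = j then 1 else 0

/-- The signed indicator that the entry `z` of a row points to `j`. -/
def chi (𝕜 : Type) [RCLike 𝕜] (z : Bool × J) (j : J) : 𝕜 := if z.2 = j then sk 𝕜 z.1 else 0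

/-- The outcome of the probabilistic argument. -/
def Key (x : X → J → 𝕜) (W : Φ → Φ → ℝ) (ξ : Fin T × Ω → Φ → Bool × J) (ε : ℝ) : Prop :=
  ∀ (t : Fin T) (ζ : Φ → (Fin T → Φ) → 𝕜), (∀ c, Pol x W ξ (ζ c)) →
    pr (fun τ => ¬ ∀ (j : J) (γ : Fin T → Lab X Ω Φ),
      ((∀ i, γ t ≠ own τ i) →
        ‖av 𝕜 fun c => chi 𝕜 (ξ (t, τ) c) j * pair (ζ c) (gen x W ξ γ)‖ ≤ ε) ∧
      (∀ i, ‖(av 𝕜 fun c => chi 𝕜 (ξ (t, τ) c) j *
          pair (ζ c) (gen x W ξ (Function.update γ t (own τ i)))) -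
        x i j * (Fintype.card J : 𝕜)⁻¹ *
          av 𝕜 fun c => pair (ζ c) (gen x W ξ (Function.update γ t (del c)))‖ ≤ ε) ∧
      ‖av 𝕜 fun c => (ind 𝕜 (ξ (t, τ) c) j - (Fintype.card J : 𝕜)⁻¹) *
          pair (ζ c) (gen x W ξ (Function.update γ t (del c)))‖ ≤ ε) ≤ ε

/-- Bad rows, first type: a large correlation with a generator that uses an earlier row (or no
row) at level `t`, or a failure of one of the two estimates for the row itself. -/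
def BadLt [LinearOrder Ω] (x : X → J → 𝕜) (W : Φ → Φ → ℝ) (ε : ℝ) (t : Fin T)
    (ζ : Φ → (Fin T → Φ) → 𝕜) (τ : Ω) (ξ : Fin T × Ω → Φ → Bool × J) : Prop :=
  ∃ (j : J) (γ : Fin T → Lab X Ω Φ),
    ((∀ τ' i, γ t = own τ' i → τ' < τ) ∧ (∀ c, ‖pair (ζ c) (gen x W ξ γ)‖ ≤ 2) ∧
      ε < ‖av 𝕜 fun c => chi 𝕜 (ξ (t, τ) c) j * pair (ζ c) (gen x W ξ γ)‖) ∨
    ((∀ c S, ‖pair (ζ c) (gen x W ξ (Function.update γ t (wal S)))‖ ≤ 2) ∧
      ((∃ i, ε < ‖av 𝕜 fun c => ∑ c' ∈ univ.erase c,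
          pair (ζ c) (gen x W ξ (Function.update γ t (del c'))) *
            (chi 𝕜 (ξ (t, τ) c) j * (sk 𝕜 (ξ (t, τ) c').1 * x i (ξ (t, τ) c').2))‖) ∨
        ε < ‖av 𝕜 fun c => (ind 𝕜 (ξ (t, τ) c) j - (Fintype.card J : 𝕜)⁻¹) *
          pair (ζ c) (gen x W ξ (Function.update γ t (del c)))‖))

/-- Bad rows, second type: a large correlation with a generator that uses a later row. -/
def BadGt [LinearOrder Ω] (x : X → J → 𝕜) (W : Φ → Φ → ℝ) (ε : ℝ) (t : Fin T)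
    (ζ : Φ → (Fin T → Φ) → 𝕜) (τ : Ω) (ξ : Fin T × Ω → Φ → Bool × J) : Prop :=
  ∃ (j : J) (γ : Fin T → Lab X Ω Φ),
    (∃ τ' i, γ t = own τ' i ∧ τ < τ') ∧ (∀ c, ‖pair (ζ c) (gen x W ξ γ)‖ ≤ 2) ∧
      ε < ‖av 𝕜 fun c => chi 𝕜 (ξ (t, τ) c) j * pair (ζ c) (gen x W ξ γ)‖

/-- Points of the grid of mesh `1 / R` in the square. -/
noncomputable def grid (𝕜 : Type) [RCLike 𝕜] (R : ℕ) (g : Fin (2 * R + 1) × Fin (2 * R + 1)) : 𝕜 :=
  ((((g.1 : ℕ) : ℝ) - R) / R : ℝ) + ((((g.2 : ℕ) : ℝ) - R) / R : ℝ) * RCLike.I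

/-- The rigidity properties of a block. -/
structure Rig (x : X → J → 𝕜) (W : Φ → Φ → ℝ) (ξ : Fin T × Ω → Φ → Bool × J) (ε : ℝ) : Prop where
  cap : ∀ (t : Fin T) (κ : J → 𝕜), (∀ j, ‖κ j‖ ≤ 2) → (∀ i, ∑ j, κ j * x i j = 0) →
    ∀ v : Ω → (Fin T → Φ) → 𝕜, (∀ τ, bn x W ξ (v τ) ≤ 1) →
      (ra fun c => bn x W ξ
        (av 𝕜 fun τ => (sk 𝕜 (ξ (t, τ) c).1 * κ (ξ (t, τ) c).2) • v τ)) ≤ ε
  lin : ∀ (t : Fin T) (γ : Fin T → Lab X Ω Φ) (l : Ω → J → X → 𝕜),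
    (∀ τ j, ∑ i, ‖l τ j i‖ ≤ 1) →
      (ra fun c => bn x W ξ
        ((av 𝕜 fun τ => ((Fintype.card J : 𝕜) * sk 𝕜 (ξ (t, τ) c).1) •
            ∑ i, l τ (ξ (t, τ) c).2 i • gen x W ξ (Function.update γ t (own τ i))) -
          (av 𝕜 fun τ => ∑ j, ∑ i, l τ j i * x i j) •
            gen x W ξ (Function.update γ t (del c)))) ≤ ε
  freq : ∀ (t : Fin T) (j : J) (v : Ω → ℝ), (∀ τ, |v τ| ≤ 1) →
      (ra fun c => |ra fun τ =>
        ((if (ξ (t, τ) c).2 = j then (Fintype.card J : ℝ) else 0) - 1) * v τ|) ≤ ε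
  scal : ∀ (t : Fin T) (κ : J → 𝕜), (∀ j, ‖κ j‖ ≤ 2) → ∀ v : Ω → 𝕜, (∀ τ, ‖v τ‖ ≤ 1) →
      (ra fun c => ‖av 𝕜 fun τ => (sk 𝕜 (ξ (t, τ) c).1 * κ (ξ (t, τ) c).2) * v τ‖) ≤ ε

/-- No vector valued function into the kinds at most `i` can carry a nonlinear function of the
rows. -/
def Cap (F : Frame 𝕜) (i : ℕ) (x : X → J → 𝕜) (ξ : Fin T × Ω → Φ → Bool × J) (ε : ℝ) : Prop :=
  ∀ (t : Fin T) (κ : J → 𝕜), (∀ j, ‖κ j‖ ≤ 2) → (∀ i, ∑ j, κ j * x i j = 0) →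
    ∀ w : Ω → F.D, (∀ τ, F.nrm (w τ) ≤ 1) →
      (ra fun c => F.nrm (F.res {β | β.1 ≤ i}
        (av 𝕜 fun τ => (sk 𝕜 (ξ (t, τ) c).1 * κ (ξ (t, τ) c).2) • w τ))) ≤ ε

/-- The labels at stage `t` of the collapse: unit vectors below `t`, rows from `t` on. -/
def lab (t : ℕ) (cs : Fin T → Φ) (τs : Fin T → Ω) (xs : Fin T → X) : Fin T → Lab X Ω Φ :=
  fun s => if (s : ℕ) < t then del (cs s) else own (τs s) (xs s)

/-- The average size of the images of the generators of stage `t`. -/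
noncomputable def lam {V : Type} [AddCommGroup V] [Module 𝕜 V] (x : X → J → 𝕜) (W : Φ → Φ → ℝ)
    (ξ : Fin T × Ω → Φ → Bool × J) (p : Seminorm 𝕜 V) (𝒥 : ((Fin T → Φ) → 𝕜) →ₗ[𝕜] V) (t : ℕ) :
    ℝ :=
  ra fun cs : Fin T → Φ => ra fun τs : Fin T → Ω =>
    ⨆ xs : Fin T → X, p (𝒥 (gen x W ξ (lab t cs τs xs)))

end blk

/-- A vector of kind `i` spread with signs `σ` over the blocks given by the configuration `U`. -/
noncomputable def spread (F : Frame 𝕜) (i : ℕ) {R : Type} [Fintype R] (σ : R → 𝕜)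
    (U : Fin (i + 1) ×ₗ R → ℕ) : (F.C i → 𝕜) →ₗ[𝕜] F.D :=
  ∑ r, ((Fintype.card R : 𝕜)⁻¹ * σ r) • F.sing ⟨i, fun ρ => U (toLex (ρ, r))⟩

/-- Every renorming of the frame approximately factors every nice coded matrix far out. -/
def Robust (F : Frame 𝕜) : Prop :=
  ∀ (p : Seminorm 𝕜 F.D) (M : ℝ), F.Ren p M → ∀ (κ : Code), Nice (cmat 𝕜 κ) → ∀ n : ℕ,
    ∃ (i : ℕ) (a : (Fin (κ.2.2.1 + 1) → 𝕜) →ₗ[𝕜] F.D), n ≤ i ∧
      (∀ y β, β.1 ≠ i → a y β = 0) ∧ Fac (cmat 𝕜 κ) p a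

/-! ### The abstract setting for the construction of a basis -/

/-- A finite-dimensional decomposition `S` (with no bound on its constant). -/
structure FDD {X : Type} [NormedAddCommGroup X] [NormedSpace 𝕜 X] (S : ℕ → X →L[𝕜] X) :
    Prop where
  comp : ∀ n m x, S n (S m x) = S (min n m) x
  fin : ∀ n, FiniteDimensional 𝕜 (LinearMap.range (S n).toLinearMap)
  tend : ∀ x, Tendsto (fun n => S n x) atTop (𝓝 x)

/-- The operator `T` lies between `S n` and `S n'`. -/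
def Btw {X : Type} [NormedAddCommGroup X] [NormedSpace 𝕜 X] (S : ℕ → X →L[𝕜] X) (n n' : ℕ)
    (T : X →L[𝕜] X) : Prop :=
  (∀ x, T (S n x) = S n x) ∧ (∀ x, S n (T x) = S n x) ∧ (∀ x, T (S n' x) = T x) ∧
    ∀ x, S n' (T x) = T x

/-- There are uniformly bounded operators between far apart projections. -/
def Mult {X : Type} [NormedAddCommGroup X] [NormedSpace 𝕜 X] (S : ℕ → X →L[𝕜] X) (l : ℝ) : Prop :=
  ∀ n, ∃ (n' : ℕ) (T : X →L[𝕜] X), n ≤ n' ∧ ‖T‖ ≤ l ∧ Btw S n n' T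

/-- Every finite-dimensional space factors, with the embedding far out. -/
def Univ {X : Type} [NormedAddCommGroup X] [NormedSpace 𝕜 X] (S : ℕ → X →L[𝕜] X) (K : ℝ) : Prop :=
  ∀ (n : ℕ) (G : Type) [NormedAddCommGroup G] [NormedSpace 𝕜 G] [FiniteDimensional 𝕜 G],
    ∃ (n' : ℕ) (a : G →L[𝕜] X) (b : X →L[𝕜] G), n ≤ n' ∧ ‖a‖ ≤ 1 ∧ ‖b‖ ≤ K ∧
      (∀ g, b (a g) = g) ∧ (∀ g, S n (a g) = 0) ∧ ∀ g, S n' (a g) = a g

/-- Every finite-dimensional space factors, with both maps far out. -/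
def Univ2 {X : Type} [NormedAddCommGroup X] [NormedSpace 𝕜 X] (S : ℕ → X →L[𝕜] X) (K : ℝ) :
    Prop :=
  ∀ (n : ℕ) (G : Type) [NormedAddCommGroup G] [NormedSpace 𝕜 G] [FiniteDimensional 𝕜 G],
    ∃ (n' : ℕ) (a : G →L[𝕜] X) (b : X →L[𝕜] G), n ≤ n' ∧ ‖a‖ ≤ 1 ∧ ‖b‖ ≤ K ∧
      (∀ g, b (a g) = g) ∧ (∀ g, S n (a g) = 0) ∧ (∀ g, S n' (a g) = a g) ∧
      (∀ x, b (S n x) = 0) ∧ ∀ x, b (S n' x) = b x

/-- There are uniformly bounded projections between far apart projections. -/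
def Projs {X : Type} [NormedAddCommGroup X] [NormedSpace 𝕜 X] (S : ℕ → X →L[𝕜] X) (C : ℝ) :
    Prop :=
  ∀ n, ∃ (n' : ℕ) (P : X →L[𝕜] X), n ≤ n' ∧ ‖P‖ ≤ C ∧ Btw S n n' P ∧ ∀ x, P (P x) = P x

/-- The operator `Δ` is a sum of `m ≥ 1` biorthogonal rank one operators whose initial sums are
bounded by `C`. -/
def Blocked {X : Type} [NormedAddCommGroup X] [NormedSpace 𝕜 X] (Δ : X →L[𝕜] X) (C : ℝ) : Prop :=
  ∃ (m : ℕ) (y : ℕ → X) (φ : ℕ → X →L[𝕜] 𝕜), 0 < m ∧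
    (∀ s < m, ∀ s' < m, φ s (y s') = if s = s' then 1 else 0) ∧
    (∀ x, ∑ s ∈ range m, φ s x • y s = Δ x) ∧
    ∀ r ≤ m, ∀ x, ‖∑ s ∈ range r, φ s x • y s‖ ≤ C * ‖x‖

end Pool.Agent.Lib.MP_e0f470_an.Rob
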