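import Pool.Agent.Lib.MP_e0f470_an.RAvg

/-! Duality: either an approximate left inverse exists or there are small witnesses. -/

set_option autoImplicit false

namespace Pool.Agent.Lib.MP_e0f470_an.Rob

open Finset Filter
open scoped BigOperators Topology

variable {𝕜 : Type} [RCLike 𝕜]

/-- A projection onto a subspace of `J → 𝕜` with entries bounded by one: the matrix of the
orthogonal projection of `EuclideanSpace 𝕜 J` (`Submodule.starProjection`) onto the copy of `G`. -/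
theorem exists_projMat {J : Type} [Fintype J] [DecidableEq J] (G : Submodule 𝕜 (J → 𝕜)) :
    ∃ P : J → J → 𝕜, (∀ j, (fun j' => P j' j) ∈ G) ∧ (∀ y ∈ G, ∀ j', ∑ j, P j' j * y j = y j') ∧
      ∀ j' j, ‖P j' j‖ ≤ 1 := by
  let e := WithLp.linearEquiv 2 𝕜 (J → 𝕜)
  let K : Submodule 𝕜 (EuclideanSpace 𝕜 J) := G.comap e.toLinearMap
  refine ⟨fun j' j => K.starProjection (EuclideanSpace.single j 1) j', fun j => ?_,
    fun y hy j' => ?_, fun j' j => ?_⟩
  · exact K.starProjection_apply_mem _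
  · have h1 : K.starProjection (e.symm y) = e.symm y :=
      Submodule.starProjection_eq_self_iff.2 hy
    have h2 : (e.symm y : EuclideanSpace 𝕜 J) = ∑ j, y j • EuclideanSpace.single j (1 : 𝕜) := by
      ext i
      simp [e, Pi.single_apply]
    have h3 : K.starProjection (e.symm y) j' = y j' := by rw [h1]; rfl
    rw [← h3, h2, map_sum]
    simp only [map_smul, WithLp.ofLp_sum, WithLp.ofLp_smul, Finset.sum_apply, Pi.smul_apply,
      smul_eq_mul, mul_comm]
  · refine (PiLp.norm_apply_le _ j').trans ((K.norm_starProjection_apply_le _).trans ?_)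
    simp

/-- The seminorm of the duality argument. -/
noncomputable def RDual_q {V J : Type} [AddCommGroup V] [Module 𝕜 V] [Fintype J]
    (p : Seminorm 𝕜 V) (ρ : ℝ) (hρ : 0 ≤ ρ) : Seminorm 𝕜 ((J → V) × (J → J → 𝕜)) :=
  Seminorm.of (fun x => ρ * ∑ j, p (x.1 j) + (∑ j, ‖x.2 j‖) / 2)
    (fun x y => by
      have h1 : ∑ j, p ((x + y).1 j) ≤ ∑ j, p (x.1 j) + ∑ j, p (y.1 j) := by
        rw [← Finset.sum_add_distrib]
        exact Finset.sum_le_sum fun j _ => map_add_le_add p _ _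
      have h2 : ∑ j, ‖(x + y).2 j‖ ≤ ∑ j, ‖x.2 j‖ + ∑ j, ‖y.2 j‖ := by
        rw [← Finset.sum_add_distrib]
        exact Finset.sum_le_sum fun j _ => norm_add_le _ _
      have h3 := mul_le_mul_of_nonneg_left h1 hρ
      linarith)
    (fun c x => by
      simp only [Prod.smul_fst, Prod.smul_snd, Pi.smul_apply, map_smul_eq_mul, norm_smul,
        ← Finset.mul_sum]
      ring)

theorem RDual_q_apply {V J : Type} [AddCommGroup V] [Module 𝕜 V] [Fintype J]
    (p : Seminorm 𝕜 V) (ρ : ℝ) (hρ : 0 ≤ ρ) (x : (J → V) × (J → J → 𝕜)) :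
    RDual_q p ρ hρ x = ρ * ∑ j, p (x.1 j) + (∑ j, ‖x.2 j‖) / 2 := rfl

/-- The subspace of the duality argument. -/
def RDual_S {V J : Type} [AddCommGroup V] [Module 𝕜 V] [Fintype J]
    (G : Submodule 𝕜 (J → 𝕜)) (a : (J → 𝕜) →ₗ[𝕜] V) : Submodule 𝕜 ((J → V) × (J → J → 𝕜)) where
  carrier := {x | (∀ j, x.2 j ∈ G) ∧ ∀ y ∈ G, ∑ j, y j • x.1 j = a (∑ j, y j • x.2 j)}
  add_mem' := by
    rintro x x' ⟨h1, h2⟩ ⟨h3, h4⟩
    refine ⟨fun j => G.add_mem (h1 j) (h3 j), fun y hy => ?_⟩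
    simp only [Prod.fst_add, Prod.snd_add, Pi.add_apply, smul_add, Finset.sum_add_distrib,
      map_add, h2 y hy, h4 y hy]
  zero_mem' := ⟨fun _ => G.zero_mem, fun y _ => by simp⟩
  smul_mem' := by
    rintro c x ⟨h1, h2⟩
    refine ⟨fun j => G.smul_mem c (h1 j), fun y hy => ?_⟩
    simp only [Prod.smul_fst, Prod.smul_snd, Pi.smul_apply, smul_comm _ c, ← Finset.smul_sum,
      map_smul, h2 y hy]

theorem RDual_single {J M : Type} [Fintype J] [DecidableEq J] [Zero M] (F : M → ℝ) (h : F 0 = 0)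
    (j : J) (v : M) : ∑ i, F ((Pi.single j v : J → M) i) = F v := by
  rw [Finset.sum_eq_single j]
  · rw [Pi.single_eq_same]
  · intro i _ hi
    rw [Pi.single_eq_of_ne hi, h]
  · intro hj
    exact absurd (Finset.mem_univ j) hj

/-- Suppose the second alternative fails. On `(J → V) × (J → G)` consider the seminorm
`q (w, η) = ρ * ∑ j, p (w j) + (∑ j, ‖η j‖) / 2`, the subspace of pairs with
`∑ j, y j • w j = a (∑ j, y j • η j)` for all `y ∈ G` and the functional `∑ j, η j j` on it. By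
scaling it is dominated by `q`. Extend it with `Module.Dual.exists_extension_of_le_seminorm` to
`g`, and put `b v j = g (Pi.single j v, 0)`, `θ j η = g (0, Pi.single j η)`. The pairs
`(fun j => κ j • v, 0)` with `κ j = (if j = j' then 1 else 0) - P j' j` (`exists_projMat`) lie in
the subspace, so `b v = ∑ j, b v j • P · j ∈ G`. The pairs `(Pi.single j (a y), Pi.single j y)`
lie in the subspace and give `y j = b (a y) j + θ j y` with `‖θ j y‖ ≤ ‖y‖ / 2`. -/
theorem dual_alt {V J : Type} [AddCommGroup V] [Module 𝕜 V] [Fintype J] [DecidableEq J]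
    (p : Seminorm 𝕜 V) (G : Submodule 𝕜 (J → 𝕜)) (a : (J → 𝕜) →ₗ[𝕜] V) (ρ : ℝ) (hρ : 0 < ρ) :
    (∃ b : V →ₗ[𝕜] (J → 𝕜), (∀ v, b v ∈ G) ∧ (∀ v, ‖b v‖ ≤ ρ * p v) ∧
      ∀ y ∈ G, ‖b (a y) - y‖ ≤ ‖y‖ / 2) ∨
    ∃ (w : J → V) (η : J → J → 𝕜), (∀ j, η j ∈ G) ∧
      (∀ y ∈ G, ∑ j, y j • w j = a (∑ j, y j • η j)) ∧ ∑ j, η j j = 1 ∧
      ρ * ∑ j, p (w j) ≤ 1 ∧ ∑ j, ‖η j‖ ≤ 2 := by
  rw [or_iff_not_imp_right]
  intro hn
  let tr : ((J → V) × (J → J → 𝕜)) →ₗ[𝕜] 𝕜 :=
    { toFun := fun x => ∑ j, x.2 j j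
      map_add' := fun x y => by simp [Finset.sum_add_distrib]
      map_smul' := fun c x => by simp [Finset.mul_sum] }
  have hdom : ∀ x : RDual_S G a, ‖tr.comp (RDual_S G a).subtype x‖ ≤ RDual_q p ρ hρ.le x.1 := by
    intro x
    change ‖tr x‖ ≤ _
    by_cases h0 : tr x = 0
    · rw [h0, norm_zero]
      exact apply_nonneg _ _
    by_contra hlt
    have h1 := (RDual_S G a).smul_mem (tr x)⁻¹ x.2
    have h2 : tr ((tr x)⁻¹ • x.1) = 1 := by rw [map_smul, smul_eq_mul, inv_mul_cancel₀ h0]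
    have h3 : RDual_q p ρ hρ.le ((tr x)⁻¹ • x.1) ≤ 1 := by
      rw [map_smul_eq_mul, norm_inv, inv_mul_le_iff₀ (norm_pos_iff.2 h0), mul_one]
      exact (not_le.1 hlt).le
    rw [RDual_q_apply] at h3
    have h4 : 0 ≤ ρ * ∑ j, p (((tr x)⁻¹ • x.1).1 j) :=
      mul_nonneg hρ.le (Finset.sum_nonneg fun j _ => apply_nonneg _ _)
    have h5 : 0 ≤ ∑ j, ‖((tr x)⁻¹ • x.1).2 j‖ := Finset.sum_nonneg fun j _ => norm_nonneg _
    exact hn ⟨_, _, h1.1, h1.2, h2, by linarith, by linarith⟩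
  obtain ⟨g, hg, hq⟩ := Module.Dual.exists_extension_of_le_seminorm (RDual_S G a) _ hdom
  have hg' : ∀ x ∈ RDual_S G a, g x = ∑ j, x.2 j j := fun x hx => hg ⟨x, hx⟩
  let b : V →ₗ[𝕜] (J → 𝕜) := LinearMap.pi fun j =>
    g ∘ₗ LinearMap.inl 𝕜 _ _ ∘ₗ LinearMap.single 𝕜 (fun _ : J => V) j
  have hb : ∀ v j, b v j = g (Pi.single j v, 0) := fun v j => rfl
  refine ⟨b, fun v => ?_, fun v => ?_, fun y hy => ?_⟩
  · obtain ⟨P, hP1, hP2, -⟩ := exists_projMat G
    have h1 : b v = ∑ j, b v j • fun j' => P j' j := by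
      funext j'
      have h2 : ((Pi.single j' v, 0) - ∑ j, P j' j • (Pi.single j v, 0) :
          (J → V) × (J → J → 𝕜)) ∈ RDual_S G a := by
        refine ⟨fun j => by simp [Prod.snd_sum], fun y hy => ?_⟩
        have h3 := hP2 y hy j'
        simp [Prod.fst_sum, Prod.snd_sum, Pi.single_apply, smul_sub, smul_smul, ← Finset.sum_smul,
          mul_comm (y _), h3]
      have h4 := hg' _ h2
      rw [map_sub, map_sum] at h4
      simp only [map_smul, ← hb] at h4
      simpa [Prod.snd_sum, sub_eq_zero, mul_comm] using h4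
    rw [h1]
    exact G.sum_mem fun j _ => G.smul_mem _ (hP1 j)
  · refine (pi_norm_le_iff_of_nonneg (mul_nonneg hρ.le (apply_nonneg _ _))).2 fun j => ?_
    refine (hq (Pi.single j v, 0)).trans (le_of_eq ?_)
    rw [RDual_q_apply, RDual_single p (map_zero p)]
    simp
  · refine (pi_norm_le_iff_of_nonneg (by positivity)).2 fun j => ?_
    have h2 : ((Pi.single j (a y), 0) + (0, Pi.single j y) : (J → V) × (J → J → 𝕜)) ∈
        RDual_S G a := by
      refine ⟨fun i => ?_, fun y' _ => by simp [Pi.single_apply]⟩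
      by_cases h : i = j
      · simpa [h] using hy
      · simp [h]
    have h4 := hg' _ h2
    have h5 : ∑ i, (Pi.single j y : J → J → 𝕜) i i = y j := by
      rw [Finset.sum_eq_single j]
      · rw [Pi.single_eq_same]
      · intro i _ hi
        rw [Pi.single_eq_of_ne hi, Pi.zero_apply]
      · intro hj
        exact absurd (Finset.mem_univ j) hj
    rw [map_add, ← hb, Prod.snd_add, zero_add, h5] at h4
    rw [Pi.sub_apply, ← h4, sub_add_cancel_left, norm_neg]
    refine (hq _).trans (le_of_eq ?_)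
    rw [RDual_q_apply, RDual_single (fun z : J → 𝕜 => ‖z‖) norm_zero]
    simp

end Pool.Agent.Lib.MP_e0f470_an.Rob
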