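import Pool.Agent.Lib.MP_e0f470_an.RTen

/-! From the key property to rigidity: vector valued estimates. -/

set_option autoImplicit false

namespace Pool.Agent.Lib.MP_e0f470_an.Rob

open Finset Filter
open scoped BigOperators Topology

variable {𝕜 : Type} [RCLike 𝕜]

section
variable {J X Ω Φ : Type} [Fintype J] [Fintype X] [Fintype Ω] [Fintype Φ] [DecidableEq J]
  [DecidableEq Φ] {T : ℕ} {x : X → J → 𝕜} {W : Φ → Φ → ℝ} {ξ : Fin T × Ω → Φ → Bool × J} {ε : ℝ}

omit [Fintype J] [Fintype X] [Fintype Ω] [DecidableEq J] in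
/-- Duality: an average of block norms is an average of pairings. -/
lemma rigA_dual (y : Φ → (Fin T → Φ) → 𝕜) {B η : ℝ} (hη : 0 < η)
    (h : ∀ ζ : Φ → (Fin T → Φ) → 𝕜, (∀ c, Pol x W ξ (ζ c)) →
      ‖av 𝕜 fun c => pair (ζ c) (y c)‖ ≤ B) :
    (ra fun c => bn x W ξ (y c)) ≤ B + η := by
  choose ζ hζ hζ' using fun c => exists_norming x W ξ (y c) hη
  refine (ra_mono hζ').trans ?_
  rw [ra_add, ← re_av]
  exact add_le_add ((RCLike.re_le_norm _).trans (h ζ hζ)) (ra_le_of_le hη.le fun _ => le_rfl)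

omit [Fintype X] [Fintype Ω] [Fintype Φ] [DecidableEq Φ] in
lemma rigA_sum_chi (z : Bool × J) (f : J → 𝕜) :
    sk 𝕜 z.1 * f z.2 = ∑ j, f j * chi 𝕜 z j := by
  simp [chi, mul_comm]

omit [Fintype J] [Fintype X] [Fintype Ω] [Fintype Φ] [DecidableEq Φ] in
lemma rigA_norm_chi (z : Bool × J) (j : J) : ‖chi 𝕜 z j‖ ≤ 1 := by
  unfold chi
  split_ifs
  · exact (norm_sk _).le
  · simp

lemma rigA_norm_av_le {α : Type} [Fintype α] {f : α → 𝕜} {c : ℝ} (hc : 0 ≤ c)
    (h : ∀ a, ‖f a‖ ≤ c) : ‖av 𝕜 f‖ ≤ c :=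
  (norm_av_le f).trans (ra_le_of_le hc h)

omit [Fintype X] [Fintype Ω] [Fintype Φ] [DecidableEq J] [DecidableEq Φ] in
lemma rigA_norm_sum_le {κ A : J → 𝕜} (hκ : ∀ j, ‖κ j‖ ≤ 2) (hA : ∀ j, ‖A j‖ ≤ ε) :
    ‖∑ j, κ j * A j‖ ≤ 2 * (Fintype.card J : ℝ) * ε := by
  refine (norm_sum_le _ _).trans ?_
  have h1 : ∀ j ∈ (univ : Finset J), ‖κ j * A j‖ ≤ 2 * ε := fun j _ => by
    rw [norm_mul]
    exact mul_le_mul (hκ j) (hA j) (norm_nonneg _) (by norm_num)
  refine (Finset.sum_le_sum h1).trans (le_of_eq ?_)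
  simp only [Finset.sum_const, Finset.card_univ, nsmul_eq_mul]
  ring

omit [Fintype Ω] [Fintype Φ] [DecidableEq J] [DecidableEq Φ] in
lemma rigA_norm_sum2_le {l A : J → X → 𝕜} {e : ℝ} (he : 0 ≤ e) (hl : ∀ j, ∑ i, ‖l j i‖ ≤ 1)
    (hA : ∀ j i, ‖A j i‖ ≤ e) :
    ‖(Fintype.card J : 𝕜) * ∑ j, ∑ i, l j i * A j i‖ ≤ (Fintype.card J : ℝ) ^ 2 * e := by
  have h1 : ∀ j ∈ (univ : Finset J), ‖∑ i, l j i * A j i‖ ≤ e := fun j _ => by
    refine (norm_sum_le _ _).trans ?_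
    calc ∑ i, ‖l j i * A j i‖ ≤ ∑ i, ‖l j i‖ * e := Finset.sum_le_sum fun i _ => by
          rw [norm_mul]
          exact mul_le_mul_of_nonneg_left (hA j i) (norm_nonneg _)
      _ = (∑ i, ‖l j i‖) * e := by rw [Finset.sum_mul]
      _ ≤ 1 * e := mul_le_mul_of_nonneg_right (hl j) he
      _ = e := one_mul e
  have h2 : ‖∑ j, ∑ i, l j i * A j i‖ ≤ (Fintype.card J : ℝ) * e := by
    refine (norm_sum_le _ _).trans ((Finset.sum_le_sum h1).trans (le_of_eq ?_))
    simp only [Finset.sum_const, Finset.card_univ, nsmul_eq_mul]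
  rw [norm_mul, RCLike.norm_natCast, sq, mul_assoc]
  exact mul_le_mul_of_nonneg_left h2 (by positivity)

/-- Choose almost norming `ζ c` (`exists_norming` with `η = ε`) and exchange the averages: the
average over `c` of `pair (ζ c) (y c)` is the average over `τ` of `pair (ψ τ) (v τ)`, where
`ψ τ = av fun c => (sk * κ) • ζ c`. Note `sk z.1 * κ z.2 = ∑ j, κ j * chi z j`. For a good `τ` the
pairing of `ψ τ` with each generator is at most `2 * card J * ε` (if `γ t = own τ i` write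
`γ = update γ t (own τ i)` and use `∑ j, κ j * x i j = 0`); it is always at most two. Use
`norm_pair_le_bn` and `ra_le_pr_split`. -/
theorem rig_cap [Nonempty J] (hK : Key x W ξ ε) (hε : 0 < ε) (t : Fin T) (κ : J → 𝕜)
    (hκ : ∀ j, ‖κ j‖ ≤ 2) (hκ0 : ∀ i, ∑ j, κ j * x i j = 0) (v : Ω → (Fin T → Φ) → 𝕜)
    (hv : ∀ τ, bn x W ξ (v τ) ≤ 1) :
    (ra fun c => bn x W ξ (av 𝕜 fun τ => (sk 𝕜 (ξ (t, τ) c).1 * κ (ξ (t, τ) c).2) • v τ)) ≤
      6 * (Fintype.card J : ℝ) ^ 2 * ε := by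
  have hn : (1 : ℝ) ≤ Fintype.card J := by exact_mod_cast Fintype.card_pos
  refine (rigA_dual _ (B := 2 * (Fintype.card J : ℝ) * ε + 2 * ε) hε fun ζ hζ => ?_).trans ?_
  swap
  · have h1 : (Fintype.card J : ℝ) ≤ (Fintype.card J : ℝ) ^ 2 := by nlinarith
    have h2 : (Fintype.card J : ℝ) * ε ≤ (Fintype.card J : ℝ) ^ 2 * ε :=
      mul_le_mul_of_nonneg_right h1 hε.le
    have h3 : 1 * ε ≤ (Fintype.card J : ℝ) * ε := mul_le_mul_of_nonneg_right hn hε.le
    linarith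
  set ψ : Ω → (Fin T → Φ) → 𝕜 :=
    fun τ => av 𝕜 fun c => (sk 𝕜 (ξ (t, τ) c).1 * κ (ξ (t, τ) c).2) • ζ c with hψ
  have hψp : ∀ τ u, pair (ψ τ) u =
      av 𝕜 fun c => (sk 𝕜 (ξ (t, τ) c).1 * κ (ξ (t, τ) c).2) * pair (ζ c) u := by
    intro τ u
    simp only [hψ, pair_av_left, pair_smul_left]
  have hex : (av 𝕜 fun c => pair (ζ c)
      (av 𝕜 fun τ => (sk 𝕜 (ξ (t, τ) c).1 * κ (ξ (t, τ) c).2) • v τ)) =
      av 𝕜 fun τ => pair (ψ τ) (v τ) := by
    simp only [pair_av_right, pair_smul_right, hψp]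
    exact av_comm _
  rw [hex]
  refine (norm_av_le _).trans ?_
  have hsum : ∀ τ u, pair (ψ τ) u =
      ∑ j, κ j * av 𝕜 fun c => chi 𝕜 (ξ (t, τ) c) j * pair (ζ c) u := by
    intro τ u
    rw [hψp]
    simp only [rigA_sum_chi, Finset.sum_mul, av_sum, mul_assoc, av_const_mul]
  refine (ra_le_pr_split (c := 2 * (Fintype.card J : ℝ) * ε) (C := 2) (by positivity)
    (fun τ hτ => ?_) fun τ => ?_).trans (add_le_add le_rfl
      (mul_le_mul_of_nonneg_left (hK t ζ hζ) (by norm_num)))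
  · rw [not_not] at hτ
    have hs : 0 < 2 * (Fintype.card J : ℝ) * ε := by positivity
    refine (norm_pair_le_bn x W ξ hs (fun γ => ?_) (v τ)).trans ?_
    · rw [hsum]
      by_cases hγ : ∀ i, γ t ≠ own τ i
      · exact rigA_norm_sum_le hκ fun j => (hτ j γ).1 hγ
      · push Not at hγ
        obtain ⟨i, hi⟩ := hγ
        have h1 := rigA_norm_sum_le hκ fun j => (hτ j γ).2.1 i
        have h2 : Function.update γ t (own τ i) = γ := by rw [← hi, Function.update_eq_self]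
        rw [h2] at h1
        simp only [mul_sub, Finset.sum_sub_distrib, ← mul_assoc, ← Finset.sum_mul, hκ0,
          zero_mul, sub_zero] at h1
        exact h1
    · exact mul_le_of_le_one_right hs.le (hv τ)
  · refine (norm_pair_le_bn x W ξ two_pos (fun γ => ?_) (v τ)).trans ?_
    · rw [hψp]
      refine rigA_norm_av_le (by norm_num) fun c => ?_
      rw [norm_mul, norm_mul, norm_sk, one_mul]
      calc _ ≤ (2 : ℝ) * 1 := mul_le_mul (hκ _) (hζ c γ) (norm_nonneg _) (by norm_num)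
        _ = 2 := mul_one _
    · exact mul_le_of_le_one_right (by norm_num) (hv τ)

/-- As before; for each `τ` the average over `c` is
`card J * ∑ j, ∑ i, l τ j i * (second expression of Key)`, which is at most `card J ^ 2 * ε` for
good `τ` and at most `2 * card J ^ 2` in general. -/
theorem rig_lin [Nonempty J] (hx : ∀ i j, ‖x i j‖ ≤ 1) (hK : Key x W ξ ε) (hε : 0 < ε)
    (t : Fin T) (γ : Fin T → Lab X Ω Φ) (l : Ω → J → X → 𝕜) (hl : ∀ τ j, ∑ i, ‖l τ j i‖ ≤ 1) :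
    (ra fun c => bn x W ξ
      ((av 𝕜 fun τ => ((Fintype.card J : 𝕜) * sk 𝕜 (ξ (t, τ) c).1) •
          ∑ i, l τ (ξ (t, τ) c).2 i • gen x W ξ (Function.update γ t (own τ i))) -
        (av 𝕜 fun τ => ∑ j, ∑ i, l τ j i * x i j) •
          gen x W ξ (Function.update γ t (del c)))) ≤ 6 * (Fintype.card J : ℝ) ^ 2 * ε := by
  have hn : (1 : ℝ) ≤ Fintype.card J := by exact_mod_cast Fintype.card_pos
  have hn0 : (Fintype.card J : 𝕜) ≠ 0 := Nat.cast_ne_zero.2 Fintype.card_ne_zero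
  refine (rigA_dual _ (B := (Fintype.card J : ℝ) ^ 2 * ε + (Fintype.card J : ℝ) ^ 2 * 2 * ε) hε
    fun ζ hζ => ?_).trans ?_
  swap
  · have h1 : (1 : ℝ) ≤ (Fintype.card J : ℝ) ^ 2 := by nlinarith
    have h3 : 1 * ε ≤ (Fintype.card J : ℝ) ^ 2 * ε := mul_le_mul_of_nonneg_right h1 hε.le
    linarith
  set E : Ω → J → X → 𝕜 := fun τ j i => (av 𝕜 fun c => chi 𝕜 (ξ (t, τ) c) j *
      pair (ζ c) (gen x W ξ (Function.update γ t (own τ i)))) -
    x i j * (Fintype.card J : 𝕜)⁻¹ *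
      av 𝕜 fun c => pair (ζ c) (gen x W ξ (Function.update γ t (del c))) with hE
  have hex : (av 𝕜 fun c => pair (ζ c)
      ((av 𝕜 fun τ => ((Fintype.card J : 𝕜) * sk 𝕜 (ξ (t, τ) c).1) •
          ∑ i, l τ (ξ (t, τ) c).2 i • gen x W ξ (Function.update γ t (own τ i))) -
        (av 𝕜 fun τ => ∑ j, ∑ i, l τ j i * x i j) •
          gen x W ξ (Function.update γ t (del c)))) =
      av 𝕜 fun τ => (Fintype.card J : 𝕜) * ∑ j, ∑ i, l τ j i * E τ j i := by
    simp only [pair_sub_right, pair_av_right, pair_smul_right, pair_sum_right, av_sub]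
    rw [av_comm, av_const_mul, ← av_mul_const, ← av_sub]
    congr 1
    funext τ
    have h1 : ∀ c, (Fintype.card J : 𝕜) * sk 𝕜 (ξ (t, τ) c).1 *
        ∑ i, l τ (ξ (t, τ) c).2 i * pair (ζ c) (gen x W ξ (Function.update γ t (own τ i))) =
        (Fintype.card J : 𝕜) * ∑ j, ∑ i, l τ j i * (chi 𝕜 (ξ (t, τ) c) j *
          pair (ζ c) (gen x W ξ (Function.update γ t (own τ i)))) := by
      intro c
      rw [mul_assoc, rigA_sum_chi (ξ (t, τ) c) fun j =>
        ∑ i, l τ j i * pair (ζ c) (gen x W ξ (Function.update γ t (own τ i)))]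
      congr 1
      refine Finset.sum_congr rfl fun j _ => ?_
      rw [Finset.sum_mul]
      exact Finset.sum_congr rfl fun i _ => by ring
    simp only [h1, av_const_mul, av_sum, hE, mul_sub, Finset.sum_sub_distrib]
    congr 1
    simp only [Finset.sum_mul, Finset.mul_sum]
    refine Finset.sum_congr rfl fun j _ => Finset.sum_congr rfl fun i _ => ?_
    field_simp
  rw [hex]
  refine (norm_av_le _).trans ?_
  refine (ra_le_pr_split (c := (Fintype.card J : ℝ) ^ 2 * ε) (C := (Fintype.card J : ℝ) ^ 2 * 2)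
    (by positivity) (fun τ hτ => ?_) fun τ => ?_).trans (add_le_add le_rfl
      (mul_le_mul_of_nonneg_left (hK t ζ hζ) (by positivity)))
  · rw [not_not] at hτ
    exact rigA_norm_sum2_le hε.le (hl τ) fun j i => (hτ j γ).2.1 i
  · refine rigA_norm_sum2_le (by norm_num) (hl τ) fun j i => ?_
    refine (norm_sub_le _ _).trans ?_
    have h1 : ‖av 𝕜 fun c => chi 𝕜 (ξ (t, τ) c) j *
        pair (ζ c) (gen x W ξ (Function.update γ t (own τ i)))‖ ≤ 1 :=
      rigA_norm_av_le zero_le_one fun c => by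
        rw [norm_mul]
        exact mul_le_one₀ (rigA_norm_chi _ _) (norm_nonneg _) (hζ c _)
    have h2 : ‖av 𝕜 fun c => pair (ζ c) (gen x W ξ (Function.update γ t (del c)))‖ ≤ 1 :=
      rigA_norm_av_le zero_le_one fun c => hζ c _
    have h3 : ‖(Fintype.card J : 𝕜)⁻¹‖ ≤ 1 := by
      rw [norm_inv, RCLike.norm_natCast]
      exact inv_le_one_of_one_le₀ hn
    have h4 : ‖x i j * (Fintype.card J : 𝕜)⁻¹ *
        av 𝕜 fun c => pair (ζ c) (gen x W ξ (Function.update γ t (del c)))‖ ≤ 1 := by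
      rw [norm_mul, norm_mul]
      exact mul_le_one₀ (mul_le_one₀ (hx i j) (norm_nonneg _) h3) (norm_nonneg _) h2
    linarith

end

end Pool.Agent.Lib.MP_e0f470_an.Rob
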