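import Pool.Agent.Lib.MP_e0f470_an.RTen

/-! From the key property to rigidity: scalar estimates. -/

set_option autoImplicit false
set_option linter.unusedSectionVars false

namespace Pool.Agent.Lib.MP_e0f470_an.Rob

open Finset Filter
open scoped BigOperators Topology

variable {𝕜 : Type} [RCLike 𝕜]

section
variable {J X Ω Φ : Type} [Fintype J] [Fintype X] [Fintype Ω] [Fintype Φ] [DecidableEq J]
  [DecidableEq Φ] {T : ℕ} {x : X → J → 𝕜} {W : Φ → Φ → ℝ} {ξ : Fin T × Ω → Φ → Bool × J} {ε : ℝ}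

/-- Fix `c0 : Φ` (the average is zero if `Φ` is empty), let `γ s = del c0` and
`ζ c = Pi.single (update (fun _ => c0) t c) (s c)` with signs `s c` (`pol_single`, `gen_del`), and
use the third estimate of `Key`. -/
theorem rig_freq [Nonempty J] (hx : ∀ i j, ‖x i j‖ ≤ 1) (hW : Had W) (hK : Key x W ξ ε)
    (hε : 0 < ε) (t : Fin T) (j : J) (v : Ω → ℝ) (hv : ∀ τ, |v τ| ≤ 1) :
    (ra fun c => |ra fun τ =>
      ((if (ξ (t, τ) c).2 = j then (Fintype.card J : ℝ) else 0) - 1) * v τ|) ≤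
      6 * (Fintype.card J : ℝ) ^ 2 * ε := by
  cases isEmpty_or_nonempty Φ with
  | inl _ => simp only [ra, Finset.univ_eq_empty, Finset.sum_empty, mul_zero]; positivity
  | inr hΦ =>
  obtain ⟨c0⟩ := hΦ
  have hJ1 : (1 : ℝ) ≤ Fintype.card J := by exact_mod_cast Fintype.card_pos
  have hJ0 : (Fintype.card J : 𝕜) ≠ 0 := Nat.cast_ne_zero.2 Fintype.card_ne_zero
  set f : Ω → Φ → ℝ := fun τ c =>
    (if (ξ (t, τ) c).2 = j then (Fintype.card J : ℝ) else 0) - 1 with hf
  set s : Φ → ℝ := fun c => if 0 ≤ ra (fun τ => f τ c * v τ) then 1 else -1 with hs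
  have hs1 : ∀ c, |s c| = 1 := fun c => by simp only [hs]; split_ifs <;> simp
  have habs : ∀ c, |ra fun τ => f τ c * v τ| = ra fun τ => v τ * (f τ c * s c) := fun c => by
    have : (ra fun τ => v τ * (f τ c * s c)) = (ra fun τ => f τ c * v τ) * s c := by
      rw [← ra_mul_const]
      congr 1
      funext τ
      ring
    rw [this]
    simp only [hs]
    split_ifs with h
    · rw [abs_of_nonneg h, mul_one]
    · rw [abs_of_neg (not_le.1 h)]
      ring
  have hkey := hK t (fun c => Pi.single (Function.update (fun _ => c0) t c) ((s c : ℝ) : 𝕜))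
    fun c => pol_single x W ξ hx hW _ (by rw [RCLike.norm_ofReal, hs1])
  have hpair : ∀ c, pair (Pi.single (Function.update (fun _ => c0) t c) ((s c : ℝ) : 𝕜))
      (gen x W ξ (Function.update (fun _ => (del c0 : Lab X Ω Φ)) t (del c))) =
      ((s c : ℝ) : 𝕜) := fun c => by
    have : Function.update (fun _ => (del c0 : Lab X Ω Φ)) t (del c) =
        fun u => del (Function.update (fun _ => c0) t c u) := by
      funext u
      by_cases hu : u = t
      · subst hu
        simp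
      · simp [Function.update_of_ne hu]
    rw [this, gen_del, pair_single_left, Pi.single_eq_same, mul_one]
  have hav : ∀ τ, ((ra fun c => f τ c * s c : ℝ) : 𝕜) = (Fintype.card J : 𝕜) *
      av 𝕜 fun c => (ind 𝕜 (ξ (t, τ) c) j - (Fintype.card J : 𝕜)⁻¹) * ((s c : ℝ) : 𝕜) := fun τ => by
    rw [← av_ofReal, ← av_const_mul]
    congr 1
    funext c
    simp only [hf, ind]
    split_ifs
    · push_cast
      field_simp
    · push_cast
      field_simp
      ring
  have hfs : ∀ τ c, |f τ c * s c| ≤ Fintype.card J := fun τ c => by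
    rw [abs_mul, hs1, mul_one]
    simp only [hf]
    split_ifs
    · rw [abs_of_nonneg (by linarith)]
      linarith
    · simpa using hJ1
  change (ra fun c => |ra fun τ => f τ c * v τ|) ≤ _
  simp only [habs]
  rw [ra_comm]
  simp only [ra_const_mul]
  have hle : ∀ τ, v τ * (ra fun c => f τ c * s c) ≤ |ra fun c => f τ c * s c| := fun τ => by
    refine (le_abs_self _).trans ?_
    rw [abs_mul]
    exact mul_le_of_le_one_left (abs_nonneg _) (hv τ)
  refine (ra_mono hle).trans ((ra_le_pr_split (c := Fintype.card J * ε) (C := Fintype.card J)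
    (by positivity) (fun τ hτ => ?_) fun τ => ?_).trans
    ((add_le_add le_rfl (mul_le_mul_of_nonneg_left hkey (by positivity))).trans ?_))
  · have h3 := ((not_not.1 hτ) j fun _ => del c0).2.2
    simp only [hpair] at h3
    rw [← RCLike.norm_ofReal (K := 𝕜), hav, norm_mul, RCLike.norm_natCast]
    exact mul_le_mul_of_nonneg_left h3 (by positivity)
  · exact (abs_ra_le _).trans (ra_le_of_le (by positivity) (hfs τ))
  · nlinarith [mul_nonneg (sub_nonneg.2 hJ1) (mul_pos (lt_of_lt_of_le one_pos hJ1) hε).le,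
      mul_pos (lt_of_lt_of_le one_pos hJ1) hε]

/-- Let `γ s = del c0` and `ζ c = Pi.single (fun _ => c0) (s c)` with unimodular `s c`
(`RCLike.exists_norm_eq_mul_self`), and use the first estimate of `Key`. -/
theorem rig_scal [Nonempty J] (hx : ∀ i j, ‖x i j‖ ≤ 1) (hW : Had W) (hK : Key x W ξ ε)
    (hε : 0 < ε) (t : Fin T) (κ : J → 𝕜) (hκ : ∀ j, ‖κ j‖ ≤ 2) (v : Ω → 𝕜)
    (hv : ∀ τ, ‖v τ‖ ≤ 1) :
    (ra fun c => ‖av 𝕜 fun τ => (sk 𝕜 (ξ (t, τ) c).1 * κ (ξ (t, τ) c).2) * v τ‖) ≤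
      6 * (Fintype.card J : ℝ) ^ 2 * ε := by
  cases isEmpty_or_nonempty Φ with
  | inl _ => simp only [ra, Finset.univ_eq_empty, Finset.sum_empty, mul_zero]; positivity
  | inr hΦ =>
  obtain ⟨c0⟩ := hΦ
  have hJ1 : (1 : ℝ) ≤ Fintype.card J := by exact_mod_cast Fintype.card_pos
  choose s hs1 hs using fun c => RCLike.exists_norm_eq_mul_self
    (av 𝕜 fun τ => (sk 𝕜 (ξ (t, τ) c).1 * κ (ξ (t, τ) c).2) * v τ)
  have hkey := hK t (fun c => Pi.single (fun _ => c0) (s c))
    fun c => pol_single x W ξ hx hW _ (hs1 c).le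
  have hpair : ∀ c, pair (Pi.single (fun _ => c0) (s c))
      (gen x W ξ (fun _ => (del c0 : Lab X Ω Φ))) = s c := fun c => by
    rw [gen_del x W ξ fun _ => c0, pair_single_left, Pi.single_eq_same, mul_one]
  have hchi : ∀ z : Bool × J, sk 𝕜 z.1 * κ z.2 = ∑ j, κ j * chi 𝕜 z j := fun z => by
    simp [chi, mul_comm]
  set ψ : Ω → 𝕜 := fun τ => av 𝕜 fun c => (sk 𝕜 (ξ (t, τ) c).1 * κ (ξ (t, τ) c).2) * s c with hψ
  have h1 : (ra fun c => ‖av 𝕜 fun τ => (sk 𝕜 (ξ (t, τ) c).1 * κ (ξ (t, τ) c).2) * v τ‖) =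
      RCLike.re (av 𝕜 fun τ => ψ τ * v τ) := by
    have h2 : (av 𝕜 fun τ => ψ τ * v τ) = av 𝕜 fun c => s c *
        av 𝕜 fun τ => (sk 𝕜 (ξ (t, τ) c).1 * κ (ξ (t, τ) c).2) * v τ := by
      simp only [hψ, ← av_mul_const, ← av_const_mul]
      rw [av_comm]
      congr 1
      funext c
      congr 1
      funext τ
      ring
    rw [h2, re_av]
    congr 1
    funext c
    rw [← hs c, RCLike.ofReal_re]
  rw [h1]
  refine (RCLike.re_le_norm _).trans ((norm_av_le _).trans ?_)
  have hle : ∀ τ, ‖ψ τ * v τ‖ ≤ ‖ψ τ‖ := fun τ => by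
    rw [norm_mul]
    exact mul_le_of_le_one_right (norm_nonneg _) (hv τ)
  refine (ra_mono hle).trans ((ra_le_pr_split (c := 2 * Fintype.card J * ε) (C := 2)
    (by positivity) (fun τ hτ => ?_) fun τ => ?_).trans
    ((add_le_add le_rfl (mul_le_mul_of_nonneg_left hkey (by positivity))).trans ?_))
  · have h3 : ψ τ = ∑ j, κ j * av 𝕜 fun c => chi 𝕜 (ξ (t, τ) c) j * s c := by
      simp only [hψ, hchi, Finset.sum_mul, av_sum, ← av_const_mul, mul_assoc]
    rw [h3]
    refine (norm_sum_le _ _).trans ((Finset.sum_le_sum (g := fun _ => 2 * ε) fun j _ => ?_).trans ?_)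
    · have h4 := ((not_not.1 hτ) j fun _ => del c0).1 fun i => by simp
      simp only [hpair] at h4
      rw [norm_mul]
      exact mul_le_mul (hκ j) h4 (norm_nonneg _) (by norm_num)
    · simp only [Finset.sum_const, Finset.card_univ, nsmul_eq_mul]
      linarith
  · refine (norm_av_le _).trans (ra_le_of_le (by norm_num) fun c => ?_)
    rw [norm_mul, norm_mul, norm_sk, hs1, one_mul, mul_one]
    exact hκ _
  · nlinarith [mul_nonneg (sub_nonneg.2 hJ1) (mul_pos (lt_of_lt_of_le one_pos hJ1) hε).le,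
      mul_pos (lt_of_lt_of_le one_pos hJ1) hε, mul_nonneg (sub_nonneg.2 hJ1) hε.le]

end

end Pool.Agent.Lib.MP_e0f470_an.Rob
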