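import Pool.Agent.Lib.MP_e0f470_an.RKeyB
import Pool.Agent.Lib.MP_e0f470_an.RRigA
import Pool.Agent.Lib.MP_e0f470_an.RRigB

/-! Existence of rigid blocks. -/

set_option autoImplicit false

namespace Pool.Agent.Lib.MP_e0f470_an.Rob

open Finset Filter
open scoped BigOperators Topology

variable {𝕜 : Type} [RCLike 𝕜]

section
variable {J X Ω Φ : Type} [Fintype J] [Fintype X] [Fintype Ω] [Fintype Φ] [DecidableEq J]
  [DecidableEq Φ] {T : ℕ} {x : X → J → 𝕜} {W : Φ → Φ → ℝ} {ξ : Fin T × Ω → Φ → Bool × J} {ε : ℝ}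

theorem rig_of_key [Nonempty J] (hx : ∀ i j, ‖x i j‖ ≤ 1) (hW : Had W) (hK : Key x W ξ ε)
    (hε : 0 < ε) : Rig x W ξ (6 * (Fintype.card J : ℝ) ^ 2 * ε) :=
  ⟨rig_cap hK hε, rig_lin hx hK hε, rig_freq hx hW hK hε, rig_scal hx hW hK hε⟩

theorem Rig.mono {ε' : ℝ} (h : Rig x W ξ ε) (hε : ε ≤ ε') : Rig x W ξ ε' :=
  ⟨fun t κ h1 h2 v h3 => (h.cap t κ h1 h2 v h3).trans hε,
    fun t γ l h1 => (h.lin t γ l h1).trans hε, fun t j v h1 => (h.freq t j v h1).trans hε,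
    fun t κ h1 v h2 => (h.scal t κ h1 v h2).trans hε⟩

end

theorem exists_rig {J X : Type} [Fintype J] [Fintype X] [DecidableEq J] [Nonempty J]
    (x : X → J → 𝕜) (hx : ∀ i j, ‖x i j‖ ≤ 1) (T : ℕ) (ε : ℝ) (hε : 0 < ε) :
    ∃ (k N : ℕ) (ξ : Fin T × Fin (N + 1) → (Fin k → Bool) → Bool × J), Rig x walsh ξ ε := by
  have hJ : (0 : ℝ) < 6 * (Fintype.card J : ℝ) ^ 2 := by positivity
  obtain ⟨k, N, ξ, h⟩ := exists_key x hx T (ε / (6 * (Fintype.card J : ℝ) ^ 2)) (by positivity)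
  refine ⟨k, N, ξ, (rig_of_key hx (had_walsh k) h (by positivity)).mono (le_of_eq ?_)⟩
  field_simp

end Pool.Agent.Lib.MP_e0f470_an.Rob
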