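import Pool.Agent.Lib.MP_e0f470_an.RInd
import Pool.Agent.Lib.MP_e0f470_an.RRig
import Pool.Agent.Lib.MP_e0f470_an.RCap

/-! Construction of a robust frame. -/

set_option autoImplicit false

namespace Pool.Agent.Lib.MP_e0f470_an.Rob

open Finset Filter
open scoped BigOperators Topology

variable {𝕜 : Type} [RCLike 𝕜]

theorem norm_cmat_le (κ : Code) (i : Fin (κ.2.1 + 1)) (j : Fin (κ.2.2.1 + 1)) :
    ‖cmat 𝕜 κ i j‖ ≤ 1 := by
  unfold cmat
  split_ifs with h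
  · exact h i j
  · simp

/-- An enumeration of the codes in which each code occurs infinitely often
(`exists_surjective_nat (Code × ℕ)`). -/
theorem exists_enum : ∃ f : ℕ → Code, ∀ κ n, ∃ i, n ≤ i ∧ f i = κ := by
  have : Nonempty Code := ⟨⟨0, 0, 0, fun _ => Fin.elim0, fun _ => Fin.elim0⟩⟩
  obtain ⟨g, hg⟩ := exists_surjective_nat (Code × ℕ)
  refine ⟨fun i => (g i).1, fun κ n => ?_⟩
  choose u hu using fun m : ℕ => hg (κ, m)
  have hinj : Function.Injective u := fun m m' h => by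
    have h1 : g (u m) = g (u m') := by rw [h]
    rw [hu, hu] at h1
    exact (Prod.mk.inj h1).2
  obtain ⟨i, ⟨m, rfl⟩, hi⟩ := (Set.infinite_range_of_injective hinj).exists_gt n
  exact ⟨u m, hi.le, by simp only [hu]⟩

/-- The construction of the frame, for given sizes and accuracies. -/
theorem frame_build (f : ℕ → Code) (T L : ℕ → ℕ) (hL : ∀ i, 1 ≤ L i) (e : ℕ → ℝ)
    (he : ∀ i, 0 < e i) :
    ∃ F : Frame 𝕜, (∀ i, F.L i = L i) ∧ ∀ i, ∃ (k N : ℕ)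
      (ξ : Fin (T i) × Fin (N + 1) → (Fin k → Bool) → Bool × Fin ((f i).2.2.1 + 1))
      (ι : ((Fin (T i) → Fin k → Bool) → 𝕜) →ₗ[𝕜] (F.C i → 𝕜)),
      (∀ u, F.ν i (ι u) = bn (cmat 𝕜 (f i)) walsh ξ u) ∧ Rig (cmat 𝕜 (f i)) walsh ξ (e i) ∧
        Cap F i (cmat 𝕜 (f i)) ξ (e i) := by
  obtain ⟨Lm, hLm⟩ : ∃ Lm : ℕ → ℝ, ∀ i i', i' ≤ i → (L i' : ℝ) ≤ Lm i :=
    ⟨fun i => ∑ i' ∈ range (i + 1), (L i' : ℝ), fun i i' h =>
      single_le_sum (f := fun i' => (L i' : ℝ)) (fun _ _ => Nat.cast_nonneg _)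
        (mem_range.2 (Nat.lt_succ_of_le h))⟩
  obtain ⟨δ, hδ, hδe⟩ : ∃ δ : ℕ → ℝ, (∀ i, 0 < δ i) ∧ ∀ i, (1 + √(Lm i)) * (3 * δ i) ≤ e i := by
    refine ⟨fun i => e i / (3 * (1 + √(Lm i))), fun i => ?_, fun i => le_of_eq ?_⟩
    · have := he i
      positivity
    · have : 0 < 1 + √(Lm i) := by positivity
      field_simp
  have hex : ∀ i s : ℕ, ∃ (k N : ℕ)
      (ξ : Fin (T i) × Fin (N + 1) → (Fin k → Bool) → Bool × Fin ((f i).2.2.1 + 1)),
      Rig (cmat 𝕜 (f i)) walsh ξ (min (e i) (δ i ^ 4 / ((s : ℝ) + 1))) := fun i s =>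
    exists_rig _ (norm_cmat_le _) _ _ (lt_min (he i) (by have := hδ i; positivity))
  choose k N ξ hR using hex
  obtain ⟨s, hs⟩ : ∃ s : ℕ → ℕ,
      ∀ i, s (i + 1) = s i + Fintype.card (Fin (T i) → Fin (k i (s i)) → Bool) :=
    ⟨fun n => Nat.rec 0 (fun i si => si + Fintype.card (Fin (T i) → Fin (k i si) → Bool)) n,
      fun _ => rfl⟩
  have hmono : Monotone s := monotone_nat_of_le_succ fun i => by rw [hs]; omega
  let F : Frame 𝕜 :=
    { C := fun i => Fin (T i) → Fin (k i (s i)) → Bool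
      ν := fun i => bnS (cmat 𝕜 (f i)) walsh (ξ i (s i))
      L := L
      one_le_L := hL
      le_ν := fun i u c => norm_le_bn _ _ _ (norm_cmat_le _) (had_walsh _) u c
      ν_le := fun i u => bn_le_sum _ _ _ u }
  refine ⟨F, fun _ => rfl, fun i => ⟨k i (s i), N i (s i), ξ i (s i), LinearMap.id,
    fun u => rfl, (hR i (s i)).mono (min_le_left _ _), ?_⟩⟩
  intro t κ hκ hκx w hw
  refine (cap_l2 F i (fun τ c => sk 𝕜 (ξ i (s i) (t, τ) c).1 * κ (ξ i (s i) (t, τ) c).2)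
    (fun τ c => ?_) (δ i) (hδ i) (fun i' hi' v hv => ?_) (Lm i) (hLm i) w hw).trans (hδe i)
  · rw [norm_mul, norm_sk, one_mul]
    exact hκ _
  · have h4 : 0 < δ i ^ 4 := pow_pos (hδ i) 4
    have hs0 : (0 : ℝ) ≤ s i := Nat.cast_nonneg _
    rcases hi'.lt_or_eq with hlt | rfl
    · have h1 := cap_of_scal F i'
        (fun τ c => sk 𝕜 (ξ i (s i) (t, τ) c).1 * κ (ξ i (s i) (t, τ) c).2) _
        (fun v hv => (((hR i (s i)).mono (min_le_right _ _)).scal t κ hκ v hv)) v hv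
      refine h1.trans ?_
      have h2 : Fintype.card (F.C i') ≤ s i := by
        have h3 := hmono (Nat.succ_le_of_lt hlt)
        rw [Nat.succ_eq_add_one, hs] at h3
        exact le_trans (Nat.le_add_left _ _) h3
      have h2' : (Fintype.card (F.C i') : ℝ) ≤ (s i : ℝ) + 1 := by
        have : (Fintype.card (F.C i') : ℝ) ≤ (s i : ℝ) := by exact_mod_cast h2
        linarith
      calc (Fintype.card (F.C i') : ℝ) * (δ i ^ 4 / ((s i : ℝ) + 1))
          ≤ ((s i : ℝ) + 1) * (δ i ^ 4 / ((s i : ℝ) + 1)) :=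
            mul_le_mul_of_nonneg_right h2' (by positivity)
        _ = δ i ^ 4 := by field_simp
    · refine (((hR i' (s i')).mono (min_le_right _ _)).cap t κ hκ hκx v hv).trans ?_
      exact div_le_self h4.le (by linarith)

theorem frame_num1 {M : ℝ} {i : ℕ} (hi : M ≤ i) : 16 * M ≤ 2 ^ (i + 5) := by
  have h1 : (i : ℝ) ≤ 2 ^ i := by exact_mod_cast (Nat.lt_two_pow_self (n := i)).le
  have h2 : (0 : ℝ) ≤ 2 ^ i := by positivity
  rw [pow_add]
  linarith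

theorem frame_num2 {M A b : ℝ} {i : ℕ} (hM : 1 ≤ M) (hi : M ≤ i) (hA : 0 < A) (hb : 0 < b) :
    A * (30 * b ^ 2 * M * (1 / (480 * A * b ^ 2 * ((i : ℝ) + 1) ^ 2))) ≤ 1 / (16 * M) := by
  have h0 : (0 : ℝ) < (i : ℝ) + 1 := by positivity
  have h1 : A * (30 * b ^ 2 * M * (1 / (480 * A * b ^ 2 * ((i : ℝ) + 1) ^ 2))) =
      M / (16 * ((i : ℝ) + 1) ^ 2) := by
    field_simp
    ring
  rw [h1, div_le_div_iff₀ (by positivity) (by positivity)]
  nlinarith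

theorem frame_num3 {M : ℝ} {b i : ℕ} (hM : 1 ≤ M) (hi : M ≤ i) :
    (200 * (b : ℝ) * M ^ 2) ^ 2 ≤ 2 * ((((200 * b * (i + 1) ^ 2) ^ 2 : ℕ) : ℝ) + 1) := by
  push_cast
  have h1 : 200 * (b : ℝ) * M ^ 2 ≤ 200 * (b : ℝ) * ((i : ℝ) + 1) ^ 2 := by
    have : M ^ 2 ≤ ((i : ℝ) + 1) ^ 2 := pow_le_pow_left₀ (by linarith) (by linarith) 2
    exact mul_le_mul_of_nonneg_left this (by positivity)
  have h2 : (200 * (b : ℝ) * M ^ 2) ^ 2 ≤ (200 * (b : ℝ) * ((i : ℝ) + 1) ^ 2) ^ 2 :=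
    pow_le_pow_left₀ (by positivity) h1 2
  have h3 : 0 ≤ (200 * (b : ℝ) * ((i : ℝ) + 1) ^ 2) ^ 2 := by positivity
  linarith

/-- For the kind `i` let `κ = f i`, `a`, `b` the numbers of rows and columns of `cmat κ`,
`T i = i + 5`, `h i = (200 * b * (i + 1) ^ 2) ^ 2`, `L i = (2 * (h i + 1)) ^ T i`,
`Lm i = ∑ i' ∈ range (i + 1), L i'`, `e i = 1 / (480 * a ^ T i * b ^ 2 * (i + 1) ^ 2)` and
`δ i = e i / (3 * (1 + √(Lm i)))`. For `s : ℕ` choose `k i s`, `N i s`, `ξ i s` from `exists_rig`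
with the accuracy `min (e i) (δ i ^ 4 / (s + 1))`. Define `s 0 = 0`,
`s (i + 1) = s i + card (Fin (T i) → Fin (k i (s i)) → Bool)`, and let
`C i = Fin (T i) → Fin (k i (s i)) → Bool`, `ν i = bnS …` (`norm_le_bn`, `bn_le_sum`). Then `Cap`
holds with `e i` by `cap_l2` (`Rig.cap` for the kind `i`; `cap_of_scal` and `Rig.scal` for smaller
kinds, whose dimension is at most `s i`). Given `p`, `M`, `κ`, `n` take `i ≥ max n ⌈M⌉` with
`f i = κ`, substitute, and apply `collapse` with `ι = LinearMap.id`. -/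
theorem exists_robust : ∃ F : Frame 𝕜, Robust F := by
  obtain ⟨f, hf⟩ := exists_enum
  obtain ⟨F, hFL, hF⟩ := frame_build (𝕜 := 𝕜) f (fun i => i + 5)
    (fun i => (2 * ((200 * ((f i).2.2.1 + 1) * (i + 1) ^ 2) ^ 2 + 1)) ^ (i + 5))
    (fun i => Nat.one_le_pow _ _ (by positivity))
    (fun i => 1 / (480 * (((f i).2.1 + 1 : ℕ) : ℝ) ^ (i + 5) * (((f i).2.2.1 + 1 : ℕ) : ℝ) ^ 2 *
      ((i : ℝ) + 1) ^ 2)) (fun i => by positivity)
  refine ⟨F, fun p M hp κ hN n => ?_⟩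
  obtain ⟨i, hi, rfl⟩ := hf κ (max n ⌈M⌉₊)
  have hM : M ≤ i := (Nat.le_ceil M).trans (by exact_mod_cast (le_max_right _ _).trans hi)
  obtain ⟨k, N, ξ, ι, hι, hR, hC⟩ := hF i
  obtain ⟨a, ha⟩ := collapse F i (norm_cmat_le _) (had_walsh k) hN hR hC (by positivity) p M hp
    ι hι ((200 * ((f i).2.2.1 + 1) * (i + 1) ^ 2) ^ 2) (hFL i).ge (frame_num1 hM)
    (by
      rw [Fintype.card_fin, Fintype.card_fin]
      exact frame_num2 hp.1 hM (by positivity) (by positivity))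
    (by
      rw [Fintype.card_fin]
      exact frame_num3 hp.1 hM)
  exact ⟨i, a, (le_max_left _ _).trans hi, ha⟩

end Pool.Agent.Lib.MP_e0f470_an.Rob
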