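import Pool.Agent.Lib.MP_e0f470_an.RUlt

/-! No mass in the gaps of a configuration. -/

set_option autoImplicit false

namespace Pool.Agent.Lib.MP_e0f470_an.Rob

open Finset Filter
open scoped BigOperators Topology

variable {𝕜 : Type} [RCLike 𝕜]

/-- Consecutive intervals of large mass. -/
theorem RGap_chain (g : ℕ → ℝ) (ε : ℝ) (f : ℕ → ℕ) (r : ℕ)
    (h : ∀ s, s < r → f s ≤ f (s + 1) ∧ ε ≤ ∑ n ∈ Finset.Ico (f s) (f (s + 1)), g n) :
    f 0 ≤ f r ∧ r * ε ≤ ∑ n ∈ Finset.Ico (f 0) (f r), g n := by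
  induction r with
  | zero => simp
  | succ r ih =>
    obtain ⟨h1, h2⟩ := ih fun s hs => h s (by omega)
    obtain ⟨h3, h4⟩ := h r (by omega)
    refine ⟨h1.trans h3, ?_⟩
    rw [← Finset.sum_Ico_consecutive g h1 h3]
    push_cast
    linarith

theorem RGap_exists (B ε : ℝ) (hε : 0 < ε) : ∃ r : ℕ, B < r * ε := by
  obtain ⟨r, hr⟩ := exists_nat_gt (B / ε)
  exact ⟨r, (div_lt_iff₀ hε).1 hr⟩

/-- No mass between two positions that lie in the same gap. Otherwise (ultrafilter) the mass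
of `Ico (w a) (w b)` exceeds `ε` for almost all `w`. Take `r` with `B < r * ε`, the order
`ι ×ₗ Fin (r + 1)`, the positions `(e z, 0)` and `(a, s)`; by `UP_hom'` (with `κ ⊕ Bool`) the mass
of `Ico (w (a, s)) (w (a, s + 1))` exceeds `ε` for all `s < r` for almost all `w`, which are
also increasing (`UP_mono`), so that these intervals are disjoint. -/
theorem gap_mid {κ ι : Type} [Fintype κ] [Fintype ι] [LinearOrder ι] (e : κ → ι)
    (he : Function.Injective e) (a b : ι) (hab : a < b) (hgap : ∀ z, e z < a ∨ b < e z)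
    (m : (κ → ℕ) → ℕ → ℝ) (hm0 : ∀ U n, 0 ≤ m U n) (B : ℝ)
    (hB : ∀ U (A : Finset ℕ), ∑ n ∈ A, m U n ≤ B) (ε : ℝ) (hε : 0 < ε) :
    ∀ᶠ w in (UP ι : Filter (ι → ℕ)), ∑ n ∈ Finset.Ico (w a) (w b), m (w ∘ e) n ≤ ε := by
  classical
  have _ := hm0
  by_contra hcon
  have h1 : ∀ᶠ w in (UP ι : Filter (ι → ℕ)), ε < ∑ n ∈ Finset.Ico (w a) (w b), m (w ∘ e) n :=
    (Ultrafilter.eventually_not.2 hcon).mono fun w hw => lt_of_not_ge hw
  obtain ⟨r, hr⟩ := RGap_exists B ε hε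
  have hlt : ∀ z, e z < b → e z < a := fun z hz => (hgap z).resolve_right hz.not_gt
  have hgt : ∀ z, a < e z → b < e z := fun z hz => (hgap z).resolve_left hz.not_gt
  have hinj : Function.Injective (Sum.elim e fun t : Bool => cond t b a : κ ⊕ Bool → ι) := by
    rintro (z | t) (z' | t') h
    · exact congrArg Sum.inl (he h)
    · exfalso
      cases t'
      · exact (hlt z (lt_of_eq_of_lt h hab)).ne h
      · exact (hgt z (lt_of_lt_of_eq hab h.symm)).ne' h
    · exfalso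
      cases t
      · exact (hlt z' (lt_of_eq_of_lt h.symm hab)).ne h.symm
      · exact (hgt z' (lt_of_lt_of_eq hab h)).ne' h.symm
    · cases t <;> cases t'
      · rfl
      · exact absurd h hab.ne
      · exact absurd h hab.ne'
      · rfl
  have h2 : ∀ s : Fin r, ∀ᶠ w in (UP (ι ×ₗ Fin (r + 1)) : Filter (ι ×ₗ Fin (r + 1) → ℕ)),
      ε < ∑ n ∈ Finset.Ico (w (toLex (a, s.castSucc))) (w (toLex (a, s.succ))),
        m (fun z => w (toLex (e z, 0))) n := by
    intro s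
    refine (UP_hom' (Sum.elim e fun t : Bool => cond t b a : κ ⊕ Bool → ι)
      (Sum.elim (fun z => toLex (e z, 0)) fun t : Bool => toLex (a, cond t s.succ s.castSucc) :
        κ ⊕ Bool → ι ×ₗ Fin (r + 1)) hinj ?_
      (fun v => ε < ∑ n ∈ Finset.Ico (v (Sum.inr false)) (v (Sum.inr true)),
        m (fun z => v (Sum.inl z)) n)).1 h1
    rintro (z | t) (z' | t') h
    · exact Prod.Lex.toLex_lt_toLex.2 (Or.inl h)
    · refine Prod.Lex.toLex_lt_toLex.2 (Or.inl ?_)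
      cases t'
      · exact h
      · exact hlt z h
    · refine Prod.Lex.toLex_lt_toLex.2 (Or.inl ?_)
      cases t
      · exact h
      · exact hab.trans h
    · cases t <;> cases t'
      · exact absurd h (lt_irrefl _)
      · exact Prod.Lex.toLex_lt_toLex.2 (Or.inr ⟨rfl, Fin.castSucc_lt_succ⟩)
      · exact absurd h hab.not_gt
      · exact absurd h (lt_irrefl _)
  obtain ⟨w, hw1, hw2⟩ := ((Filter.eventually_all.2 h2).and (UP_mono (ι ×ₗ Fin (r + 1)))).exists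
  have h3 := RGap_chain (m fun z => w (toLex (e z, 0))) ε
    (fun s => if h : s < r + 1 then w (toLex (a, ⟨s, h⟩)) else 0) r fun s hs => by
      rw [dif_pos (by omega : s < r + 1), dif_pos (by omega : s + 1 < r + 1)]
      have hlt' : (toLex (a, ⟨s, by omega⟩) : ι ×ₗ Fin (r + 1)) < toLex (a, ⟨s + 1, by omega⟩) :=
        Prod.Lex.toLex_lt_toLex.2 (Or.inr ⟨rfl, Fin.mk_lt_mk.2 (Nat.lt_succ_self s)⟩)
      exact ⟨(hw2 hlt').le, (hw1 ⟨s, hs⟩).le⟩
  exact absurd (h3.2.trans (hB _ _)) hr.not_ge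

/-- No mass between a fixed large number and a position before all positions used. Otherwise, by
`UP_bot`, for every `N0` there is `d > N0` with mass of `Ico N0 d` more than `ε` for almost all
`U`; iterate to get more than `B / ε` disjoint intervals. -/
theorem gap_bot {κ : Type} [Fintype κ] [LinearOrder κ] (m : (κ → ℕ) → ℕ → ℝ)
    (hm0 : ∀ U n, 0 ≤ m U n) (B : ℝ) (hB : ∀ U (A : Finset ℕ), ∑ n ∈ A, m U n ≤ B) (ε : ℝ)
    (hε : 0 < ε) :
    ∃ N0 : ℕ, ∀ᶠ v in (UP (WithBot κ) : Filter (WithBot κ → ℕ)),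
      ∑ n ∈ Finset.Ico N0 (v ⊥), m (fun z => v (z : κ)) n ≤ ε := by
  have _ := hm0
  by_contra hcon
  have h1 : ∀ N0 : ℕ, ∃ d : ℕ, N0 ≤ d ∧
      ∀ᶠ U in (UP κ : Filter (κ → ℕ)), ε ≤ ∑ n ∈ Finset.Ico N0 d, m U n := by
    intro N0
    have h2 : ∀ᶠ v in (UP (WithBot κ) : Filter (WithBot κ → ℕ)),
        ε ≤ ∑ n ∈ Finset.Ico N0 (v ⊥), m (fun z => v (z : κ)) n :=
      (Ultrafilter.eventually_not.2 fun h => hcon ⟨N0, h⟩).mono fun w hw => (lt_of_not_ge hw).le
    have h3 := (UP_bot fun d U => ε ≤ ∑ n ∈ Finset.Ico N0 d, m U n).1 h2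
    exact (((eventually_ge_atTop N0).filter_mono Nat.hyperfilter_le_atTop).and h3).exists
  choose nx hnx1 hnx2 using h1
  obtain ⟨r, hr⟩ := RGap_exists B ε hε
  obtain ⟨U, hU⟩ := ((Filter.eventually_all_finset (Finset.range r)).2
    fun s _ => hnx2 (nx^[s] 0)).exists
  have h3 := RGap_chain (m U) ε (fun s => nx^[s] 0) r fun s hs => by
    simp only [Function.iterate_succ_apply']
    exact ⟨hnx1 _, hU s (Finset.mem_range.2 hs)⟩
  exact absurd (h3.2.trans (hB _ _)) hr.not_ge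

/-- No mass beyond a position after all positions used (`UP_top` and
`summable_of_sum_le`, tails of a summable series). -/
theorem gap_top {κ : Type} [Fintype κ] [LinearOrder κ] (m : (κ → ℕ) → ℕ → ℝ)
    (hm0 : ∀ U n, 0 ≤ m U n) (B : ℝ) (hB : ∀ U (A : Finset ℕ), ∑ n ∈ A, m U n ≤ B) (ε : ℝ)
    (hε : 0 < ε) :
    ∀ᶠ v in (UP (WithTop κ) : Filter (WithTop κ → ℕ)),
      ∀ A : Finset ℕ, (∀ n ∈ A, v ⊤ ≤ n) → ∑ n ∈ A, m (fun z => v (z : κ)) n ≤ ε := by
  refine UP_top (fun U d => ∀ A : Finset ℕ, (∀ n ∈ A, d ≤ n) → ∑ n ∈ A, m U n ≤ ε) fun U => ?_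
  obtain ⟨s, hs⟩ := (summable_of_sum_le (hm0 U) (hB U)).vanishing (Iic_mem_nhds hε)
  filter_upwards [eventually_gt_atTop (s.sup id)] with d hd A hA
  refine hs A (Finset.disjoint_left.2 fun n hn hn' => ?_)
  have h1 := hA n hn
  have h2 : id n ≤ s.sup id := Finset.le_sup hn'
  simp only [id] at h2 hd
  omega

end Pool.Agent.Lib.MP_e0f470_an.Rob
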