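import Pool.Agent.Lib.MP_e0f470_an.RDefs

/-! Every finite-dimensional space is coded by a nice matrix. -/

set_option autoImplicit false

namespace Pool.Agent.Lib.MP_e0f470_an.Rob

open Finset Filter
open scoped BigOperators Topology

variable {𝕜 : Type} [RCLike 𝕜]

section
variable {G : Type} [NormedAddCommGroup G] [NormedSpace 𝕜 G] [FiniteDimensional 𝕜 G]

include 𝕜 in
/-- A finite one half net of the unit ball inside a dense set: cover the compact unit ball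
(`FiniteDimensional.proper_rclike`, `isCompact_closedBall`) by the open balls of radius one half
about the points of `s` of norm less than one. -/
lemma exists_net (s : Set G) (hs : Dense s) :
    ∃ A : Finset G, A.Nonempty ∧ (∀ g ∈ A, g ∈ s ∧ ‖g‖ ≤ 1) ∧
      ∀ g, ‖g‖ ≤ 1 → ∃ g' ∈ A, ‖g - g'‖ ≤ 1 / 2 := by
  have := FiniteDimensional.proper_rclike 𝕜 G
  obtain ⟨b, hb, hf, hc⟩ := (isCompact_closedBall (0 : G) 1).elim_finite_subcover_image
    (b := {g | g ∈ s ∧ ‖g‖ ≤ 1}) (c := fun g => Metric.ball g (1 / 2))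
    (fun _ _ => Metric.isOpen_ball) fun x hx => by
      have h1 : ‖x‖ ≤ 1 := mem_closedBall_zero_iff.1 hx
      obtain ⟨y, hy, hd⟩ := hs.exists_dist_lt (((3 / 4 : ℝ) : 𝕜) • x)
        (show (0 : ℝ) < 1 / 4 by norm_num)
      rw [dist_eq_norm] at hd
      have h2 : ‖((3 / 4 : ℝ) : 𝕜) • x‖ ≤ 3 / 4 := by
        rw [norm_smul, RCLike.norm_ofReal, abs_of_pos (by norm_num)]
        linarith
      have h3 : ‖x - ((3 / 4 : ℝ) : 𝕜) • x‖ ≤ 1 / 4 := by
        have e : x - ((3 / 4 : ℝ) : 𝕜) • x = ((1 / 4 : ℝ) : 𝕜) • x := by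
          rw [sub_eq_iff_eq_add, ← add_smul, ← RCLike.ofReal_add]
          norm_num
        rw [e, norm_smul, RCLike.norm_ofReal, abs_of_pos (by norm_num)]
        linarith
      refine Set.mem_iUnion₂.2 ⟨y, ⟨hy, ?_⟩, ?_⟩
      · linarith [norm_le_norm_add_norm_sub' y (((3 / 4 : ℝ) : 𝕜) • x),
          norm_sub_rev y (((3 / 4 : ℝ) : 𝕜) • x)]
      · rw [mem_ball_iff_norm]
        linarith [norm_sub_le_norm_sub_add_norm_sub x (((3 / 4 : ℝ) : 𝕜) • x) y]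
  have key : ∀ g, ‖g‖ ≤ 1 → ∃ g' ∈ hf.toFinset, ‖g - g'‖ ≤ 1 / 2 := fun g hg => by
    obtain ⟨y, hy, hd⟩ := Set.mem_iUnion₂.1 (hc (mem_closedBall_zero_iff.2 hg))
    exact ⟨y, hf.mem_toFinset.2 hy, (mem_ball_iff_norm.1 hd).le⟩
  obtain ⟨y, hy, -⟩ := key 0 (by simp)
  exact ⟨hf.toFinset, ⟨y, hy⟩, fun g hg => hb (hf.mem_toFinset.1 hg), key⟩

omit [FiniteDimensional 𝕜 G] in
/-- Successive approximation. By induction on `m` every `g` is `∑ l i • u i` up to an error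
`‖g‖ / 2 ^ m`, with `∑ ‖l i‖ ≤ 2 * ‖g‖`. So the span of the `u i` is dense, hence everything
(`Submodule.closed_of_finiteDimensional`), and a linear right inverse of
`l ↦ ∑ l i • u i` is bounded; use it for the error with `m` large. -/
lemma net_span {X : Type} [Fintype X] (u : X → G)
    (hu : ∀ g, ‖g‖ ≤ 1 → ∃ i, ‖g - u i‖ ≤ 1 / 2) (g : G) :
    ∃ l : X → 𝕜, g = ∑ i, l i • u i ∧ ∑ i, ‖l i‖ ≤ 3 * ‖g‖ := by
  classical
  have step : ∀ (m : ℕ) (g : G), ∃ l : X → 𝕜,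
      ‖g - ∑ i, l i • u i‖ ≤ ‖g‖ * (1 / 2) ^ m ∧ ∑ i, ‖l i‖ ≤ 2 * ‖g‖ := by
    intro m
    induction m with
    | zero => exact fun g => ⟨0, by simp, by simp⟩
    | succ m ih =>
      intro g
      rcases eq_or_ne g 0 with rfl | h0
      · exact ⟨0, by simp, by simp⟩
      have hp : 0 < ‖g‖ := norm_pos_iff.2 h0
      have hk : ((‖g‖ : ℝ) : 𝕜) ≠ 0 := RCLike.ofReal_ne_zero.2 hp.ne'
      have hn : ‖((‖g‖ : ℝ) : 𝕜)‖ = ‖g‖ := by rw [RCLike.norm_ofReal, abs_norm]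
      obtain ⟨i, hi⟩ := hu (((‖g‖ : ℝ) : 𝕜)⁻¹ • g) (by
        rw [norm_smul, norm_inv, hn, inv_mul_cancel₀ hp.ne'])
      have h1 : ‖g - ((‖g‖ : ℝ) : 𝕜) • u i‖ ≤ ‖g‖ / 2 := by
        have := mul_le_mul_of_nonneg_left hi (norm_nonneg ((‖g‖ : ℝ) : 𝕜))
        rw [← norm_smul, smul_sub, smul_inv_smul₀ hk, hn] at this
        linarith
      obtain ⟨l, hl, hs⟩ := ih (g - ((‖g‖ : ℝ) : 𝕜) • u i)
      refine ⟨Pi.single i ((‖g‖ : ℝ) : 𝕜) + l, ?_, ?_⟩
      · have e : ∑ j, (Pi.single i ((‖g‖ : ℝ) : 𝕜) + l : X → 𝕜) j • u j =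
            ((‖g‖ : ℝ) : 𝕜) • u i + ∑ j, l j • u j := by
          simp [add_smul, sum_add_distrib, Pi.single_apply]
        rw [e, ← sub_sub, pow_succ']
        refine hl.trans ((mul_le_mul_of_nonneg_right h1 (by positivity)).trans_eq (by ring))
      · have e : ∑ j, ‖(Pi.single i ((‖g‖ : ℝ) : 𝕜) : X → 𝕜) j‖ = ‖g‖ := by
          rw [sum_eq_single i (fun j _ hj => by simp [hj]) (by simp), Pi.single_eq_same, hn]
        refine (sum_le_sum fun j _ => norm_add_le _ (l j)).trans ?_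
        rw [sum_add_distrib, e]
        linarith
  have := FiniteDimensional.proper_rclike 𝕜 (X → 𝕜)
  have hK : IsCompact {l : X → 𝕜 | ∑ i, ‖l i‖ ≤ 2 * ‖g‖} :=
    (isCompact_closedBall (0 : X → 𝕜) (2 * ‖g‖)).of_isClosed_subset
      (isClosed_le (by fun_prop) continuous_const) fun l hl =>
        mem_closedBall_zero_iff.2 ((pi_norm_le_iff_of_nonneg (by positivity)).2 fun i =>
          (single_le_sum (f := fun i => ‖l i‖) (fun _ _ => norm_nonneg _) (mem_univ i)).trans hl)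
  have hC := (hK.image (f := fun l : X → 𝕜 => ∑ i, l i • u i) (by fun_prop)).isClosed
  choose l hl hs using fun m => step m g
  have hT : Tendsto (fun m => ∑ i, l m i • u i) atTop (𝓝 g) := by
    rw [tendsto_iff_norm_sub_tendsto_zero]
    refine squeeze_zero (fun _ => norm_nonneg _) (fun m => (norm_sub_rev _ _).trans_le (hl m)) ?_
    simpa using (tendsto_pow_atTop_nhds_zero_of_lt_one (r := (1 / 2 : ℝ)) (by norm_num)
      (by norm_num)).const_mul ‖g‖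
  obtain ⟨l₀, h1, h2⟩ := hC.mem_of_tendsto hT (Eventually.of_forall fun m => ⟨l m, hs m, rfl⟩)
  exact ⟨l₀, h2.symm, le_trans h1 (by linarith [norm_nonneg g])⟩

omit [FiniteDimensional 𝕜 G] in
/-- A one half net of the dual ball is norming (`exists_dual_vector''`). -/
lemma net_norming {J : Type} (φ : J → StrongDual 𝕜 G)
    (hφ : ∀ ψ : StrongDual 𝕜 G, ‖ψ‖ ≤ 1 → ∃ j, ‖ψ - φ j‖ ≤ 1 / 2) (g : G) :
    ∃ j, ‖g‖ ≤ 2 * ‖φ j g‖ := by
  obtain ⟨ψ, h1, h2⟩ := exists_dual_vector'' 𝕜 g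
  obtain ⟨j, hj⟩ := hφ ψ h1
  have h3 : ‖ψ g‖ = ‖g‖ := by rw [h2, RCLike.norm_ofReal, abs_norm]
  have h4 := (ψ - φ j).le_of_opNorm_le hj g
  rw [sub_apply] at h4
  exact ⟨j, by linarith [norm_sub_norm_le (ψ g) (φ j g)]⟩

/-- Take a basis `e` of `G` (`Module.finBasis`). The vectors `∑ r, denseSeq (n r) • e r` are dense
in `G`, and the functionals `∑ r, denseSeq (n r) • e.coord r` are dense in the dual (images of a
dense subset of `Fin d → 𝕜` under continuous surjections). Take nets `u i` and `φ j` in these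
sets (`exists_net`), enumerate them by `Fin (a + 1)` and `Fin (b + 1)`, and let `ι g j = φ j g`.
Then `rawMat κ i j = φ j (u i)`, so `cmat κ i = ι (u i)`. -/
theorem exists_code (G : Type) [NormedAddCommGroup G] [NormedSpace 𝕜 G] [FiniteDimensional 𝕜 G] :
    ∃ (κ : Code) (ι : G →ₗ[𝕜] (Fin (κ.2.2.1 + 1) → 𝕜)), Nice (cmat 𝕜 κ) ∧
      LinearMap.range ι = Submodule.span 𝕜 (Set.range (cmat 𝕜 κ)) ∧
      (∀ g, ‖ι g‖ ≤ ‖g‖) ∧ ∀ g, ‖g‖ ≤ 2 * ‖ι g‖ := by
  let e := Module.finBasis 𝕜 G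
  let v : (Fin (Module.finrank 𝕜 G) → ℕ) → Fin (Module.finrank 𝕜 G) → 𝕜 :=
    fun n r => TopologicalSpace.denseSeq 𝕜 (n r)
  have hv : DenseRange v := DenseRange.piMap fun _ => TopologicalSpace.denseRange_denseSeq 𝕜
  let P : (Fin (Module.finrank 𝕜 G) → 𝕜) → G := fun c => ∑ r, c r • e r
  let Q : (Fin (Module.finrank 𝕜 G) → 𝕜) → StrongDual 𝕜 G :=
    fun c => ∑ r, c r • LinearMap.toContinuousLinearMap (e.coord r)
  have hQe : ∀ c r, Q c (e r) = c r := fun c r => by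
    simp [Q, Finsupp.single_apply]
  have hP : Function.Surjective P := fun g => ⟨e.repr g, e.sum_repr g⟩
  have hQ : Function.Surjective Q := fun ψ => ⟨fun r => ψ (e r),
    ContinuousLinearMap.coe_injective (e.ext fun r => hQe _ r)⟩
  obtain ⟨A, hA0, hA1, hA2⟩ := exists_net (𝕜 := 𝕜) _ (hP.denseRange.comp hv (by fun_prop))
  obtain ⟨B, hB0, hB1, hB2⟩ := exists_net (𝕜 := 𝕜) _ (hQ.denseRange.comp hv (by fun_prop))
  obtain ⟨a, ha⟩ := Nat.exists_eq_succ_of_ne_zero hA0.card_pos.ne'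
  obtain ⟨b, hb⟩ := Nat.exists_eq_succ_of_ne_zero hB0.card_pos.ne'
  let u : Fin (a + 1) → G := fun i => (A.equivFinOfCardEq ha).symm i
  let φ : Fin (b + 1) → StrongDual 𝕜 G := fun j => (B.equivFinOfCardEq hb).symm j
  have hu := fun i => hA1 (u i) ((A.equivFinOfCardEq ha).symm i).2
  have hφ := fun j => hB1 (φ j) ((B.equivFinOfCardEq hb).symm j).2
  choose n hn using fun i => (hu i).1
  choose m hm using fun j => (hφ j).1
  have hsp := net_span (𝕜 := 𝕜) u fun g hg => by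
    obtain ⟨y, hy, h⟩ := hA2 g hg
    exact ⟨A.equivFinOfCardEq ha ⟨y, hy⟩, by simpa [u] using h⟩
  have hno := net_norming φ fun ψ hψ => by
    obtain ⟨y, hy, h⟩ := hB2 ψ hψ
    exact ⟨B.equivFinOfCardEq hb ⟨y, hy⟩, by simpa [φ] using h⟩
  let κ : Code := ⟨Module.finrank 𝕜 G, a, b, n, m⟩
  let ι : G →ₗ[𝕜] (Fin (b + 1) → 𝕜) := LinearMap.pi fun j => (φ j : G →ₗ[𝕜] 𝕜)
  have hι : ∀ g j, ‖ι g j‖ ≤ ‖g‖ := fun g j =>
    ((φ j).le_of_opNorm_le (hφ j).2 g).trans_eq (one_mul _)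
  have hraw : rawMat 𝕜 κ = fun i => ι (u i) := by
    funext i j
    change _ = φ j (u i)
    rw [← hn i, ← hm j]
    simp only [Function.comp_apply, P, map_sum, map_smul, hQe, smul_eq_mul]
    rfl
  have hc : cmat 𝕜 κ = fun i => ι (u i) := by
    rw [cmat, hraw, if_pos fun i j => (hι (u i) j).trans (hu i).2]
  have h2 : ∀ g, ‖g‖ ≤ 2 * ‖ι g‖ := fun g => by
    obtain ⟨j, hj⟩ := hno g
    exact hj.trans (mul_le_mul_of_nonneg_left (norm_le_pi_norm (ι g) j) zero_le_two)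
  have hr : LinearMap.range ι = Submodule.span 𝕜 (Set.range (cmat 𝕜 κ)) := by
    rw [hc]
    refine le_antisymm ?_ (Submodule.span_le.2 ?_)
    · rintro _ ⟨g, rfl⟩
      obtain ⟨l, hl, -⟩ := hsp g
      rw [hl, map_sum]
      exact Submodule.sum_mem _ fun i _ => by
        rw [map_smul]
        exact Submodule.smul_mem _ _ (Submodule.subset_span ⟨i, rfl⟩)
    · rintro _ ⟨i, rfl⟩
      exact ⟨u i, rfl⟩
  refine ⟨κ, ι, fun y hy => ?_, hr, fun g => (pi_norm_le_iff_of_nonneg (norm_nonneg g)).2 (hι g), h2⟩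
  rw [← hr] at hy
  obtain ⟨g, rfl⟩ := hy
  obtain ⟨l, hl, hs⟩ := hsp g
  refine ⟨l, ?_, by linarith [h2 g]⟩
  rw [hc]
  conv_lhs => rw [hl]
  simp only [map_sum, map_smul]
  rfl

end

end Pool.Agent.Lib.MP_e0f470_an.Rob
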