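import Pool.Agent.Lib.MP_e0f470_an.RGlueA
import Pool.Agent.Lib.MP_e0f470_an.RNice

/-! From the dense subspace to a complete renorming: factorizations. -/

set_option autoImplicit false

namespace Pool.Agent.Lib.MP_e0f470_an.Rob

open Finset Filter
open scoped BigOperators Topology

variable {𝕜 : Type} [RCLike 𝕜]

variable (F : Frame 𝕜) {X : Type} [NormedAddCommGroup X] [NormedSpace 𝕜 X] [CompleteSpace X]
  (ι : F.D →ₗ[𝕜] X) (M : ℝ)

/-- Take `κ`, `ιG` from `exists_code` and `a`, `b` from `Robust`. Then `a0 = ι ∘ a ∘ ιG` has norm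
at most `6` (`Nice`), and `b0 = ιG⁻¹ ∘ b` (`LinearEquiv.ofInjective`, `LinearMap.codRestrict`)
satisfies `‖b0 v‖ ≤ 4 * ‖ι v‖` and extends to `X`. The map `u = b0 ∘ a ∘ ιG` satisfies
`‖g‖ ≤ 4 * ‖u g‖`, so it is invertible (`LinearEquiv.ofInjectiveEndo`). Use `24⁻¹ • a0 ∘ u⁻¹` and
`24 • b0`. The values of `a` are supported in one box: use `exists_supp_family` for the vectors
`a (Pi.single j 1)`. -/
theorem univ_of_frame (hF : Robust F) (hd : DenseRange ι) (hM : 1 ≤ M)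
    (h1 : ∀ x, ‖ι x‖ ≤ F.nrm x) (h2 : ∀ x, F.nrm x ≤ M * ‖ι x‖) (S : ℕ → X →L[𝕜] X)
    (hS : ∀ n x, S n (ι x) = ι (F.res (box n n) x)) : Univ S 96 := by
  intro n G _ _ _
  have : CompleteSpace G := FiniteDimensional.complete 𝕜 G
  obtain ⟨κ, ιG, hN, hr, hle, hge⟩ := exists_code (𝕜 := 𝕜) G
  let p : Seminorm 𝕜 F.D := (normSeminorm 𝕜 X).comp ι
  have hp : F.Ren p M := ⟨hM, h1, h2⟩
  obtain ⟨i, a, hni, hsupp, ha, b, hb1, hb2, hb3⟩ := hF p M hp κ hN n
  have hinj : LinearMap.ker ιG = ⊥ := by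
    rw [LinearMap.ker_eq_bot']
    intro g hg
    have := hge g
    rw [hg, norm_zero, mul_zero] at this
    exact norm_le_zero_iff.1 this
  obtain ⟨π, hπ⟩ := LinearMap.exists_leftInverse_of_injective ιG hinj
  have hπ' : ∀ g, π (ιG g) = g := fun g => LinearMap.congr_fun hπ g
  let b0 : F.D →ₗ[𝕜] G := π ∘ₗ b
  have hb0 : ∀ v, ιG (b0 v) = b v := by
    intro v
    have hv := hb1 v
    rw [← hr] at hv
    obtain ⟨g, hg⟩ := hv
    change ιG (π (b v)) = b v
    rw [← hg, hπ']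
  have hb0n : ∀ v, ‖b0 v‖ ≤ 4 * ‖ι v‖ := by
    intro v
    have h3 := hge (b0 v)
    rw [hb0] at h3
    have h4 : ‖b v‖ ≤ 2 * ‖ι v‖ := hb2 v
    linarith
  have hmem : ∀ g, ιG g ∈ Submodule.span 𝕜 (Set.range (cmat 𝕜 κ)) := fun g =>
    hr ▸ LinearMap.mem_range_self ιG g
  let u : G →ₗ[𝕜] G := b0 ∘ₗ a ∘ₗ ιG
  have hu : ∀ g, ‖g‖ ≤ 4 * ‖u g‖ := by
    intro g
    have h3 := hb3 _ (hmem g)
    have h4 := hle (u g)
    have h5 : ιG (u g) = b (a (ιG g)) := hb0 _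
    rw [h5] at h4
    have h6 := norm_sub_norm_le (ιG g) (b (a (ιG g)))
    rw [norm_sub_rev] at h6
    have h7 := hge g
    linarith
  have huinj : Function.Injective u := by
    rw [← LinearMap.ker_eq_bot, LinearMap.ker_eq_bot']
    intro g hg
    have := hu g
    rw [hg, norm_zero, mul_zero] at this
    exact norm_le_zero_iff.1 this
  let e : G ≃ₗ[𝕜] G := LinearEquiv.ofInjectiveEndo u huinj
  have he : ∀ g, u (e.symm g) = g := fun g => e.apply_symm_apply g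
  have ha0 : ∀ g, ‖ι (a (ιG g))‖ ≤ 6 * ‖g‖ := by
    intro g
    obtain ⟨l, hl, hl2⟩ := hN _ (hmem g)
    have h3 : ‖ι (a (ιG g))‖ ≤ ∑ j, ‖l j‖ := by
      rw [hl, map_sum, map_sum]
      refine norm_sum_le_of_le _ fun j _ => ?_
      rw [map_smul, map_smul, norm_smul]
      exact mul_le_of_le_one_right (norm_nonneg _) (ha j)
    have h4 := hle g
    linarith
  obtain ⟨A, hA⟩ := F.exists_supp_family fun j => a (Pi.single j 1)
  obtain ⟨n0, hn0⟩ := exists_box A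
  have hA' : ∀ y β, β ∉ A → a y β = 0 := by
    intro y β hβ
    rw [LinearMap.pi_apply_eq_sum_univ a y, DFinsupp.finsetSum_apply]
    refine Finset.sum_eq_zero fun j _ => ?_
    have h3 : (fun k => if j = k then (1 : 𝕜) else 0) = Pi.single j 1 := by
      funext k
      rw [Pi.single_apply]
      simp only [eq_comm]
    rw [h3, DFinsupp.smul_apply, hA j β hβ, smul_zero]
  have h24 : ‖(24 : 𝕜)‖ = 24 := by simp
  let a1 : G →ₗ[𝕜] X := (24 : 𝕜)⁻¹ • (ι ∘ₗ a ∘ₗ ιG ∘ₗ e.symm.toLinearMap)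
  have ha1 : ∀ g, a1 g = (24 : 𝕜)⁻¹ • ι (a (ιG (e.symm g))) := fun g => rfl
  have ha1n : ∀ g, ‖a1 g‖ ≤ 1 * ‖g‖ := by
    intro g
    have h3 := ha0 (e.symm g)
    have h4 := hu (e.symm g)
    rw [he] at h4
    rw [ha1, norm_smul, norm_inv, h24]
    linarith
  refine ⟨max n n0, a1.mkContinuous 1 ha1n, (24 : 𝕜) • b0.extendOfNorm ι, le_max_left _ _,
    LinearMap.mkContinuous_norm_le _ zero_le_one _, ?_, fun g => ?_, fun g => ?_, fun g => ?_⟩
  · have := LinearMap.opNorm_extendOfNorm_le hd (by norm_num : (0 : ℝ) ≤ 4) hb0n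
    rw [norm_smul, h24]
    linarith
  · rw [LinearMap.mkContinuous_apply, ha1, _root_.smul_apply, map_smul,
      LinearMap.extendOfNorm_eq hd ⟨4, hb0n⟩, smul_smul, mul_inv_cancel₀ (by norm_num), one_smul]
    exact he g
  · rw [LinearMap.mkContinuous_apply, ha1, map_smul, hS, F.res_eq_zero, map_zero, smul_zero]
    intro β hβ
    exact hsupp _ β (lt_of_lt_of_le hβ.1 hni).ne
  · rw [LinearMap.mkContinuous_apply, ha1, map_smul, hS, F.res_eq_self]
    intro β hβ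
    exact hA' _ β fun h => hβ (box_mono (le_max_right _ _) (le_max_right _ _) (hn0 β h))

end Pool.Agent.Lib.MP_e0f470_an.Rob
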