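import Pool.Agent.Lib.MP_e0f470_an.RMul

/-! From the dense subspace to a complete renorming: projections and multipliers. -/

set_option autoImplicit false

namespace Pool.Agent.Lib.MP_e0f470_an.Rob

open Finset Filter
open scoped BigOperators Topology

variable {𝕜 : Type} [RCLike 𝕜]

variable (F : Frame 𝕜) {X : Type} [NormedAddCommGroup X] [NormedSpace 𝕜 X] [CompleteSpace X]
  (ι : F.D →ₗ[𝕜] X) (M : ℝ)

omit [CompleteSpace X] in
lemma glueA_ext (hd : DenseRange ι) {f g : X → X} (hf : Continuous f) (hg : Continuous g)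
    (h : ∀ y, f (ι y) = g (ι y)) (x : X) : f x = g x :=
  hd.induction_on x (isClosed_eq hf hg) h

lemma glueA_box_min (n m : ℕ) : box n n ∩ box m m = box (min n m) (min n m) := by
  ext β
  simp only [box, Set.mem_inter_iff, Set.mem_ofPred_eq, lt_min_iff]
  constructor
  · rintro ⟨⟨h1, h2⟩, h3, h4⟩
    exact ⟨⟨h1, h3⟩, fun ρ hρ => ⟨h2 ρ hρ, h4 ρ hρ⟩⟩
  · rintro ⟨⟨h1, h3⟩, h2⟩
    exact ⟨⟨h1, fun ρ hρ => (h2 ρ hρ).1⟩, h3, fun ρ hρ => (h2 ρ hρ).2⟩

lemma glueA_res_eq_sum (A : Finset Bk) (x : F.D) :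
    F.res (A : Set Bk) x = ∑ β ∈ A, F.sing β (x β) := by
  classical
  refine DFinsupp.ext fun β => ?_
  rw [DFinsupp.finsetSum_apply]
  by_cases hβ : β ∈ A
  · rw [F.res_apply_of_mem (Finset.mem_coe.2 hβ), Finset.sum_eq_single β]
    · rw [F.sing_apply_self]
    · intro β' _ hne
      exact F.sing_apply_ne hne.symm _
    · intro h
      exact absurd hβ h
  · rw [F.res_apply_of_notMem (fun h => hβ (Finset.mem_coe.1 h))]
    symm
    refine Finset.sum_eq_zero fun β' hβ' => F.sing_apply_ne ?_ _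
    rintro rfl
    exact hβ hβ'

omit [CompleteSpace X] in
lemma glueA_fin {A : Set Bk} (hA : A.Finite) :
    ∃ V : Submodule 𝕜 X, FiniteDimensional 𝕜 V ∧ ∀ x, ι (F.res A x) ∈ V := by
  classical
  refine ⟨hA.toFinset.sup fun β => LinearMap.range (ι.comp (F.sing β)), inferInstance, fun x => ?_⟩
  have e : F.res A x = ∑ β ∈ hA.toFinset, F.sing β (x β) := by
    rw [← glueA_res_eq_sum, Set.Finite.coe_toFinset]
  rw [e, map_sum]
  refine Submodule.sum_mem _ fun β hβ => ?_
  exact (Finset.le_sup (f := fun β => LinearMap.range (ι.comp (F.sing β))) hβ)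
    (LinearMap.mem_range_self (ι.comp (F.sing β)) (x β))

lemma glueA_mul_res {t : Bk → ℝ} {A : Set Bk} (ht : ∀ β ∈ A, t β = 1) (x : F.D) :
    F.mul t (F.res A x) = F.res A x ∧ F.res A (F.mul t x) = F.res A x := by
  constructor
  · refine DFinsupp.ext fun β => ?_
    by_cases hβ : β ∈ A
    · rw [F.mul_apply, ht β hβ]
      simp
    · rw [F.mul_apply, F.res_apply_of_notMem hβ, smul_zero]
  · refine DFinsupp.ext fun β => ?_
    by_cases hβ : β ∈ A
    · rw [F.res_apply_of_mem hβ, F.res_apply_of_mem hβ, F.mul_apply, ht β hβ]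
      simp
    · rw [F.res_apply_of_notMem hβ, F.res_apply_of_notMem hβ]

lemma glueA_mul_res' {t : Bk → ℝ} {A : Set Bk} (ht : ∀ β, β ∉ A → t β = 0) (x : F.D) :
    F.mul t (F.res A x) = F.mul t x ∧ F.res A (F.mul t x) = F.mul t x := by
  constructor
  · refine DFinsupp.ext fun β => ?_
    by_cases hβ : β ∈ A
    · rw [F.mul_apply, F.mul_apply, F.res_apply_of_mem hβ]
    · rw [F.mul_apply, F.mul_apply, ht β hβ]
      simp
  · refine DFinsupp.ext fun β => ?_
    by_cases hβ : β ∈ A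
    · rw [F.res_apply_of_mem hβ]
    · rw [F.res_apply_of_notMem hβ, F.mul_apply, ht β hβ]
      simp

/-- Extend `ι ∘ res (box n n)` with `LinearMap.extendOfNorm`; identities extend by density
(`DenseRange.induction_on` or `DenseRange.equalizer`). The range of `S n` lies in the image of the
span of finitely many `sing β (Pi.single c 1)` (`box_finite`), a closed subspace. The operators are
bounded by `M` and eventually fix each `ι x` (`exists_supp`, `exists_box`, `box_mono`). -/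
theorem exists_fdd (hd : DenseRange ι) (hM : 1 ≤ M) (h1 : ∀ x, ‖ι x‖ ≤ F.nrm x)
    (h2 : ∀ x, F.nrm x ≤ M * ‖ι x‖) :
    ∃ S : ℕ → X →L[𝕜] X, FDD S ∧ ∀ n x, S n (ι x) = ι (F.res (box n n) x) := by
  have hb : ∀ (n : ℕ) (x : F.D), ‖(ι.comp (F.res (box n n))) x‖ ≤ M * ‖ι x‖ := fun n x =>
    ((h1 _).trans (F.nrm_res_le _ x)).trans (h2 x)
  set S : ℕ → X →L[𝕜] X := fun n => (ι.comp (F.res (box n n))).extendOfNorm ι with hSdef
  have hS : ∀ n x, S n (ι x) = ι (F.res (box n n) x) := fun n x =>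
    LinearMap.extendOfNorm_eq hd ⟨M, hb n⟩ x
  have hSb : ∀ n x, ‖S n x‖ ≤ M * ‖x‖ := fun n x =>
    LinearMap.norm_extendOfNorm_apply_le hd M (hb n) x
  refine ⟨S, ⟨fun n m => ?_, fun n => ?_, fun x => ?_⟩, hS⟩
  · refine glueA_ext F ι hd (f := fun x => S n (S m x)) (g := fun x => S (min n m) x)
      (by fun_prop) (by fun_prop) fun y => ?_
    simp only [hS, F.res_res, glueA_box_min]
  · obtain ⟨V, hV, hmem⟩ := glueA_fin F ι (box_finite n n)
    have hle : LinearMap.range (S n).toLinearMap ≤ V := by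
      rintro _ ⟨x, rfl⟩
      have hc : IsClosed {x : X | S n x ∈ V} :=
        V.closed_of_finiteDimensional.preimage (S n).continuous
      have hx : S n x ∈ V :=
        hd.induction_on (p := fun x => S n x ∈ V) x hc fun y => by
          rw [hS]
          exact hmem y
      exact hx
    exact Submodule.finiteDimensional_of_le hle
  · rw [Metric.tendsto_atTop]
    intro ε hε
    have hM1 : 0 < M + 1 := by linarith
    obtain ⟨y, hy⟩ := hd.exists_dist_lt x (div_pos hε hM1)
    obtain ⟨A, hA⟩ := F.exists_supp y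
    obtain ⟨N, hN⟩ := exists_box A
    refine ⟨N, fun n hn => ?_⟩
    have hfix : S n (ι y) = ι y := by
      rw [hS, F.res_eq_self]
      intro β hβ
      exact hA β fun h => hβ (box_mono hn hn (hN β h))
    rw [dist_eq_norm] at hy ⊢
    have e : S n x - x = S n (x - ι y) - (x - ι y) := by
      rw [map_sub, hfix]
      abel
    rw [e]
    calc _ ≤ ‖S n (x - ι y)‖ + ‖x - ι y‖ := norm_sub_le _ _
      _ ≤ (M + 1) * ‖x - ι y‖ := by linarith [hSb n (x - ι y)]
      _ < (M + 1) * (ε / (M + 1)) := mul_lt_mul_of_pos_left hy hM1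
      _ = ε := by field_simp

/-- Apply `exists_mult` to the seminorm `(normSeminorm 𝕜 X).comp ι` and extend `ι ∘ mul t`. -/
theorem mult_of_frame (hd : DenseRange ι) (hM : 1 ≤ M) (h1 : ∀ x, ‖ι x‖ ≤ F.nrm x)
    (h2 : ∀ x, F.nrm x ≤ M * ‖ι x‖) (S : ℕ → X →L[𝕜] X)
    (hS : ∀ n x, S n (ι x) = ι (F.res (box n n) x)) : Mult S 3 := by
  intro n
  have hp : F.Ren ((normSeminorm 𝕜 X).comp ι) M := ⟨hM, h1, h2⟩
  obtain ⟨n', t, hn, ht1, ht0, hb⟩ := exists_mult F _ M hp n
  have hb' : ∀ x : F.D, ‖(ι.comp (F.mul t)) x‖ ≤ 3 * ‖ι x‖ := hb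
  set T : X →L[𝕜] X := (ι.comp (F.mul t)).extendOfNorm ι with hTdef
  have hT : ∀ x, T (ι x) = ι (F.mul t x) := fun x => LinearMap.extendOfNorm_eq hd ⟨3, hb'⟩ x
  refine ⟨n', T, hn, LinearMap.opNorm_extendOfNorm_le hd (by norm_num) hb', ?_, ?_, ?_, ?_⟩
  · refine glueA_ext F ι hd (f := fun x => T (S n x)) (g := fun x => S n x)
      (by fun_prop) (by fun_prop) fun y => ?_
    simp only [hS, hT, (glueA_mul_res F ht1 y).1]
  · refine glueA_ext F ι hd (f := fun x => S n (T x)) (g := fun x => S n x)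
      (by fun_prop) (by fun_prop) fun y => ?_
    simp only [hS, hT, (glueA_mul_res F ht1 y).2]
  · refine glueA_ext F ι hd (f := fun x => T (S n' x)) (g := fun x => T x)
      (by fun_prop) (by fun_prop) fun y => ?_
    simp only [hS, hT, (glueA_mul_res' F ht0 y).1]
  · refine glueA_ext F ι hd (f := fun x => S n' (T x)) (g := fun x => T x)
      (by fun_prop) (by fun_prop) fun y => ?_
    simp only [hS, hT, (glueA_mul_res' F ht0 y).2]

end Pool.Agent.Lib.MP_e0f470_an.Rob
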