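import Pool.Agent.Lib.MP_e0f470_an.RGap

/-! Localization of masses along a big configuration. -/

set_option autoImplicit false

namespace Pool.Agent.Lib.MP_e0f470_an.Rob

open Finset Filter
open scoped BigOperators Topology

variable {𝕜 : Type} [RCLike 𝕜]

/-- Dummy positions. -/
def loc_d {K Γ R : Type} (κ : K ×ₗ Γ) : K ×ₗ (Γ ×ₗ WithBot R) :=
  toLex ((ofLex κ).1, toLex ((ofLex κ).2, (⊥ : WithBot R)))

/-- Positions of the group `j`. -/
def loc_g {K Γ R : Type} (j : Γ) (z : K ×ₗ R) : K ×ₗ (Γ ×ₗ WithBot R) :=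
  toLex ((ofLex z).1, toLex (j, (((ofLex z).2 : R) : WithBot R)))

/-- The inclusion of the true positions. -/
def loc_i {K Γ R : Type} (z : K ×ₗ (Γ ×ₗ R)) : K ×ₗ (Γ ×ₗ WithBot R) :=
  toLex ((ofLex z).1, toLex ((ofLex (ofLex z).2).1, (((ofLex (ofLex z).2).2 : R) : WithBot R)))

section Aux

variable {K Γ R : Type} [LinearOrder K] [LinearOrder Γ] [LinearOrder R]

theorem loc_d_mono : StrictMono (loc_d : K ×ₗ Γ → K ×ₗ (Γ ×ₗ WithBot R)) := by
  intro a b h
  rw [Prod.Lex.lt_iff] at h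
  simp only [loc_d, Prod.Lex.toLex_lt_toLex]
  rcases h with h | ⟨h1, h2⟩
  · exact Or.inl h
  · exact Or.inr ⟨h1, Or.inl h2⟩

theorem loc_g_mono (j : Γ) : StrictMono (loc_g j : K ×ₗ R → K ×ₗ (Γ ×ₗ WithBot R)) := by
  intro a b h
  rw [Prod.Lex.lt_iff] at h
  simp only [loc_g, Prod.Lex.toLex_lt_toLex]
  rcases h with h | ⟨h1, h2⟩
  · exact Or.inl h
  · exact Or.inr ⟨h1, Or.inr ⟨trivial, WithBot.coe_lt_coe.2 h2⟩⟩

theorem loc_i_mono : StrictMono (loc_i : K ×ₗ (Γ ×ₗ R) → K ×ₗ (Γ ×ₗ WithBot R)) := by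
  intro a b h
  rw [Prod.Lex.lt_iff] at h
  simp only [loc_i, Prod.Lex.toLex_lt_toLex]
  rcases h with h | ⟨h1, h2⟩
  · exact Or.inl h
  · refine Or.inr ⟨h1, ?_⟩
    rw [Prod.Lex.lt_iff] at h2
    rcases h2 with h2 | ⟨h3, h4⟩
    · exact Or.inl h2
    · exact Or.inr ⟨h3, WithBot.coe_lt_coe.2 h4⟩

theorem loc_g_lt_d (j : Γ) (z : K ×ₗ R) (κ : K ×ₗ Γ) (h : toLex ((ofLex z).1, j) < κ) :
    (loc_g j z : K ×ₗ (Γ ×ₗ WithBot R)) < loc_d κ := by
  rw [Prod.Lex.lt_iff] at h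
  simp only [loc_g, loc_d, Prod.Lex.toLex_lt_toLex]
  rcases h with h | ⟨h1, h2⟩
  · exact Or.inl h
  · exact Or.inr ⟨h1, Or.inl h2⟩

theorem loc_d_lt_g (j : Γ) (z : K ×ₗ R) (κ : K ×ₗ Γ) (h : κ ≤ toLex ((ofLex z).1, j)) :
    (loc_d κ : K ×ₗ (Γ ×ₗ WithBot R)) < loc_g j z := by
  rw [Prod.Lex.le_iff] at h
  simp only [loc_g, loc_d, Prod.Lex.toLex_lt_toLex]
  rcases h with h | ⟨h1, h2⟩
  · exact Or.inl h
  · refine Or.inr ⟨h1, ?_⟩
    rcases lt_or_eq_of_le h2 with h3 | h3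
    · exact Or.inl h3
    · exact Or.inr ⟨h3, WithBot.bot_lt_coe _⟩

end Aux

theorem loc_bot_mono {α β : Type} [LinearOrder α] [LinearOrder β] (b : β) (f : α → β)
    (hf : StrictMono f) (hb : ∀ a, b < f a) :
    StrictMono (fun x : WithBot α => (WithBot.recBotCoe b f x : β)) := by
  intro x y h
  induction x using WithBot.recBotCoe with
  | bot =>
    induction y using WithBot.recBotCoe with
    | bot => exact absurd h (lt_irrefl _)
    | coe y => exact hb y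
  | coe x =>
    induction y using WithBot.recBotCoe with
    | bot => exact absurd h (not_lt_bot)
    | coe y => exact hf (WithBot.coe_lt_coe.1 h)

theorem loc_top_mono {α β : Type} [LinearOrder α] [LinearOrder β] (b : β) (f : α → β)
    (hf : StrictMono f) (hb : ∀ a, f a < b) :
    StrictMono (fun x : WithTop α => (WithTop.recTopCoe b f x : β)) := by
  intro x y h
  induction y using WithTop.recTopCoe with
  | top =>
    induction x using WithTop.recTopCoe with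
    | top => exact absurd h (lt_irrefl _)
    | coe x => exact hb x
  | coe y =>
    induction x using WithTop.recTopCoe with
    | top => exact absurd h (not_top_lt)
    | coe x => exact hf (WithTop.coe_lt_coe.1 h)

/-- Localization. Work in `ι = K ×ₗ (Γ ×ₗ WithBot R)` with the dummy positions
`d κ = w (κ.1, κ.2, ⊥)` for `κ : K ×ₗ Γ` (strictly increasing in `κ` for increasing `w`) and come
back with `UP_hom` along the inclusion `K ×ₗ (Γ ×ₗ R) → ι`. Let `o n` be the largest `κ` with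
`d κ ≤ n` (the least element if there is none). Fix `j` and `κ` with second component `≠ j`, and
bound the mass of `{n ∈ A | o n = κ}` by `ε / card (K ×ₗ Γ)`. Let `κ'` be the least element above
`κ` with second component `j`. If `κ` is the least element, `n ∈ Ico N0 (d κ')` and `gap_bot`
applies (through `UP_hom`, all positions of the group `j` come after `d κ'`). Otherwise
`d κ ≤ n`; if `κ'` exists, `n ∈ Ico (d κ) (d κ')` and `gap_mid` applies; if not, all positions of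
the group `j` come before `d κ` and `gap_top` applies. -/
theorem loc {K Γ R : Type} [Fintype K] [LinearOrder K] [Nonempty K] [Fintype Γ] [LinearOrder Γ]
    [Nonempty Γ] [Fintype R] [LinearOrder R] (m : (K ×ₗ R → ℕ) → ℕ → ℝ)
    (hm0 : ∀ U n, 0 ≤ m U n) (B : ℝ) (hB : ∀ U (A : Finset ℕ), ∑ n ∈ A, m U n ≤ B) (ε : ℝ)
    (hε : 0 < ε) :
    ∃ N0 : ℕ, ∀ᶠ W in (UP (K ×ₗ (Γ ×ₗ R)) : Filter (K ×ₗ (Γ ×ₗ R) → ℕ)),
      ∃ o : ℕ → K ×ₗ Γ, Monotone o ∧ ∀ (j : Γ) (A : Finset ℕ),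
        (∀ n ∈ A, N0 ≤ n ∧ (ofLex (o n)).2 ≠ j) → ∑ n ∈ A, m (sub W j) n ≤ ε := by
  classical
  have hcard : (0 : ℝ) < Fintype.card (K ×ₗ Γ) := by
    exact_mod_cast (Fintype.card_pos : 0 < Fintype.card (K ×ₗ Γ))
  set δ : ℝ := ε / Fintype.card (K ×ₗ Γ) with hδ
  have hδ0 : 0 < δ := div_pos hε hcard
  obtain ⟨N0, hN0⟩ := gap_bot m hm0 B hB δ hδ0
  refine ⟨N0, ?_⟩
  rw [← UP_hom (loc_i : K ×ₗ (Γ ×ₗ R) → K ×ₗ (Γ ×ₗ WithBot R)) loc_i_mono]
  have hbot : ∀ᶠ w in (UP (K ×ₗ (Γ ×ₗ WithBot R)) : Filter (K ×ₗ (Γ ×ₗ WithBot R) → ℕ)),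
      ∀ (j : Γ) (κ' : K ×ₗ Γ), (∀ k : K, κ' ≤ toLex (k, j)) →
        ∑ n ∈ Finset.Ico N0 (w (loc_d κ')), m (w ∘ loc_g j) n ≤ δ := by
    refine Filter.eventually_all.2 fun j => Filter.eventually_all.2 fun κ' => ?_
    by_cases h : ∀ k : K, κ' ≤ toLex (k, j)
    · have he := loc_bot_mono (loc_d κ' : K ×ₗ (Γ ×ₗ WithBot R)) (loc_g j) (loc_g_mono j)
        fun z => loc_d_lt_g j z κ' (h _)
      have h2 := (UP_hom _ he (fun v : WithBot (K ×ₗ R) → ℕ =>
        ∑ n ∈ Finset.Ico N0 (v ⊥), m (fun z => v (z : K ×ₗ R)) n ≤ δ)).2 hN0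
      filter_upwards [h2] with w hw _
      exact hw
    · exact Filter.Eventually.of_forall fun w h' => absurd h' h
  have hmid : ∀ᶠ w in (UP (K ×ₗ (Γ ×ₗ WithBot R)) : Filter (K ×ₗ (Γ ×ₗ WithBot R) → ℕ)),
      ∀ (j : Γ) (κ κ' : K ×ₗ Γ), κ < κ' → (∀ k : K, toLex (k, j) < κ ∨ κ' ≤ toLex (k, j)) →
        ∑ n ∈ Finset.Ico (w (loc_d κ)) (w (loc_d κ')), m (w ∘ loc_g j) n ≤ δ := by
    refine Filter.eventually_all.2 fun j => Filter.eventually_all.2 fun κ =>
      Filter.eventually_all.2 fun κ' => ?_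
    by_cases h : κ < κ' ∧ ∀ k : K, toLex (k, j) < κ ∨ κ' ≤ toLex (k, j)
    · have h2 := gap_mid (loc_g j : K ×ₗ R → K ×ₗ (Γ ×ₗ WithBot R)) (loc_g_mono j).injective
        (loc_d κ) (loc_d κ') (loc_d_mono h.1)
        (fun z => (h.2 (ofLex z).1).imp (loc_g_lt_d j z κ) (loc_d_lt_g j z κ')) m hm0 B hB δ hδ0
      filter_upwards [h2] with w hw _ _
      exact hw
    · exact Filter.Eventually.of_forall fun w h1 h2 => absurd ⟨h1, h2⟩ h
  have htop : ∀ᶠ w in (UP (K ×ₗ (Γ ×ₗ WithBot R)) : Filter (K ×ₗ (Γ ×ₗ WithBot R) → ℕ)),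
      ∀ (j : Γ) (κ : K ×ₗ Γ), (∀ k : K, toLex (k, j) < κ) →
        ∀ A : Finset ℕ, (∀ n ∈ A, w (loc_d κ) ≤ n) → ∑ n ∈ A, m (w ∘ loc_g j) n ≤ δ := by
    refine Filter.eventually_all.2 fun j => Filter.eventually_all.2 fun κ => ?_
    by_cases h : ∀ k : K, toLex (k, j) < κ
    · have he := loc_top_mono (loc_d κ : K ×ₗ (Γ ×ₗ WithBot R)) (loc_g j) (loc_g_mono j)
        fun z => loc_g_lt_d j z κ (h _)
      have h2 := (UP_hom _ he (fun v : WithTop (K ×ₗ R) → ℕ =>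
        ∀ A : Finset ℕ, (∀ n ∈ A, v ⊤ ≤ n) → ∑ n ∈ A, m (fun z => v (z : K ×ₗ R)) n ≤ δ)).2
        (gap_top m hm0 B hB δ hδ0)
      filter_upwards [h2] with w hw _
      exact hw
    · exact Filter.Eventually.of_forall fun w h' => absurd h' h
  filter_upwards [hbot, hmid, htop] with w hb hm ht
  obtain ⟨κ0, -, hκ0⟩ := Finset.exists_min_image (Finset.univ : Finset (K ×ₗ Γ)) id
    Finset.univ_nonempty
  let S : ℕ → Finset (K ×ₗ Γ) := fun n => insert κ0 (Finset.univ.filter fun κ => w (loc_d κ) ≤ n)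
  have hS : ∀ n, (S n).Nonempty := fun n => Finset.insert_nonempty _ _
  let o : ℕ → K ×ₗ Γ := fun n => (S n).max' (hS n)
  have ho1 : ∀ n, o n ≠ κ0 → w (loc_d (o n)) ≤ n := by
    intro n hn
    have h1 : o n ∈ S n := Finset.max'_mem _ _
    rcases Finset.mem_insert.1 h1 with h | h
    · exact absurd h hn
    · exact (Finset.mem_filter.1 h).2
  have ho2 : ∀ n κ', o n < κ' → n < w (loc_d κ') := by
    intro n κ' h
    by_contra h'
    have h1 : κ' ∈ S n :=
      Finset.mem_insert_of_mem (Finset.mem_filter.2 ⟨Finset.mem_univ _, not_lt.1 h'⟩)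
    exact absurd (Finset.le_max' _ _ h1) (not_le.2 h)
  refine ⟨o, fun n n' hn => ?_, fun j A hA => ?_⟩
  · refine Finset.max'_le _ _ _ fun κ hκ => Finset.le_max' _ _ ?_
    rcases Finset.mem_insert.1 hκ with h | h
    · exact h ▸ Finset.mem_insert_self _ _
    · exact Finset.mem_insert_of_mem
        (Finset.mem_filter.2 ⟨Finset.mem_univ _, (Finset.mem_filter.1 h).2.trans hn⟩)
  · have hsub : sub (w ∘ (loc_i : K ×ₗ (Γ ×ₗ R) → K ×ₗ (Γ ×ₗ WithBot R))) j = w ∘ loc_g j := rfl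
    rw [hsub, ← Finset.sum_fiberwise A o]
    have hfib : ∀ κ : K ×ₗ Γ, ∑ n ∈ A with o n = κ, m (w ∘ loc_g j) n ≤ δ := by
      intro κ
      by_cases hj : (ofLex κ).2 = j
      · rw [Finset.sum_eq_zero]
        · exact hδ0.le
        · intro n hn
          obtain ⟨h1, h2⟩ := Finset.mem_filter.1 hn
          exact absurd (h2 ▸ hj) (hA n h1).2
      have hne : ∀ k : K, toLex (k, j) ≠ κ := by
        intro k hk
        apply hj
        rw [← hk]
        rfl
      by_cases hex : (Finset.univ.filter fun κ' => κ < κ').Nonempty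
      · obtain ⟨κ', hκ', hmin⟩ := Finset.exists_min_image _ id hex
        have hlt : κ < κ' := (Finset.mem_filter.1 hκ').2
        have hmin' : ∀ κ'', κ < κ'' → κ' ≤ κ'' := fun κ'' h =>
          hmin κ'' (Finset.mem_filter.2 ⟨Finset.mem_univ _, h⟩)
        by_cases h0 : κ = κ0
        · refine le_trans (Finset.sum_le_sum_of_subset_of_nonneg ?_ fun n _ _ => hm0 _ n)
            (hb j κ' fun k => hmin' _ (lt_of_le_of_ne ?_ (hne k).symm))
          · intro n hn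
            obtain ⟨h1, h2⟩ := Finset.mem_filter.1 hn
            exact Finset.mem_Ico.2 ⟨(hA n h1).1, ho2 n κ' (h2 ▸ hlt)⟩
          · rw [h0]
            exact hκ0 _ (Finset.mem_univ _)
        · refine le_trans (Finset.sum_le_sum_of_subset_of_nonneg ?_ fun n _ _ => hm0 _ n)
            (hm j κ κ' hlt fun k => (lt_or_gt_of_ne (hne k)).imp id (hmin' _))
          intro n hn
          obtain ⟨_, h2⟩ := Finset.mem_filter.1 hn
          refine Finset.mem_Ico.2 ⟨?_, ho2 n κ' (h2 ▸ hlt)⟩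
          have h3 := ho1 n (h2 ▸ h0)
          rwa [h2] at h3
      · have hall : ∀ k : K, toLex (k, j) < κ := by
          intro k
          refine lt_of_le_of_ne (not_lt.1 fun h => hex ⟨toLex (k, j), ?_⟩) (hne k)
          exact Finset.mem_filter.2 ⟨Finset.mem_univ _, h⟩
        have h0 : κ ≠ κ0 := by
          intro h
          have h1 := hall (Classical.arbitrary K)
          rw [h] at h1
          exact absurd (hκ0 _ (Finset.mem_univ _)) (not_le.2 h1)
        refine ht j κ hall _ fun n hn => ?_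
        obtain ⟨_, h2⟩ := Finset.mem_filter.1 hn
        have h3 := ho1 n (h2 ▸ h0)
        rwa [h2] at h3
    calc ∑ κ : K ×ₗ Γ, ∑ n ∈ A with o n = κ, m (w ∘ loc_g j) n
        ≤ ∑ _κ : K ×ₗ Γ, δ := Finset.sum_le_sum fun κ _ => hfib κ
      _ = ε := by
        rw [Finset.sum_const, Finset.card_univ, nsmul_eq_mul, hδ]
        field_simp

end Pool.Agent.Lib.MP_e0f470_an.Rob
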