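import Pool.Agent.Lib.MP_e0f470_an.RIncD
import Pool.Agent.Lib.MP_e0f470_an.RLoc

/-! The incoherence lemma. -/

set_option autoImplicit false

namespace Pool.Agent.Lib.MP_e0f470_an.Rob

open Finset Filter
open scoped BigOperators Topology

variable {𝕜 : Type} [RCLike 𝕜]

/-- The kinds beyond `I0` that do not belong to the group carry little mass. -/
lemma inc_aux1 (F : Frame 𝕜) (i : ℕ) {Γ R : Type} [Fintype Γ] [LinearOrder Γ] [Nonempty Γ]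
    [Fintype R] [LinearOrder R] (Z : (Fin (i + 1) ×ₗ R → ℕ) → F.D) (M : ℝ)
    (hM : ∀ U, F.nrm (Z U) ≤ M) (η : ℝ) (hη : 0 < η) :
    ∃ I0 : ℕ, ∀ᶠ W in (UP (Fin (i + 1) ×ₗ (Γ ×ₗ R)) : Filter (Fin (i + 1) ×ₗ (Γ ×ₗ R) → ℕ)),
      ∃ o1 : ℕ → Γ, ∀ j, F.nrm (F.res {β | I0 ≤ β.1 ∧ o1 β.1 ≠ j} (Z (sub W j))) ≤ η := by
  obtain ⟨I0, h⟩ := loc (K := Fin (i + 1)) (Γ := Γ) (R := R)
    (fun U n => F.nrm (F.res {β | β.1 = n} (Z U)) ^ 2) (fun U n => sq_nonneg _) (2 * M ^ 2)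
    (fun U A => (F.sum_kinds_le (Z U) A).trans (by
      have h1 := F.nrm_nonneg (Z U)
      have h2 := hM U
      nlinarith)) ((η / 2) ^ 2) (by positivity)
  refine ⟨I0, h.mono ?_⟩
  rintro W ⟨o, -, ho⟩
  refine ⟨fun n => (ofLex (o n)).2, fun j => ?_⟩
  obtain ⟨A, hA, hle⟩ := F.nrm_res_kinds (Z (sub W j)) {n | I0 ≤ n ∧ (ofLex (o n)).2 ≠ j}
  have h1 := ho j A hA
  have h2 : √(∑ n ∈ A, F.nrm (F.res {β | β.1 = n} (Z (sub W j))) ^ 2) ≤ η / 2 :=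
    Real.sqrt_le_iff.mpr ⟨by positivity, h1⟩
  exact hle.trans (by linarith)

/-- The large coordinates that do not belong to the group carry little mass. -/
lemma inc_aux2 (F : Frame 𝕜) (i : ℕ) {Γ R : Type} [Fintype Γ] [LinearOrder Γ] [Nonempty Γ]
    [Fintype R] [LinearOrder R] (Z : (Fin (i + 1) ×ₗ R → ℕ) → F.D) (M : ℝ)
    (hM : ∀ U, F.nrm (Z U) ≤ M) (η : ℝ) (hη : 0 < η) (I0 : ℕ) :
    ∃ N0 : ℕ, ∀ᶠ W in (UP (Fin (i + 1) ×ₗ (Γ ×ₗ R)) : Filter (Fin (i + 1) ×ₗ (Γ ×ₗ R) → ℕ)),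
      ∃ o2 : ℕ → Fin (i + 1) ×ₗ Γ, Monotone o2 ∧ ∀ j, F.nrm (F.res {β | β.1 < I0 ∧ ∃ ρ, ρ ≤ β.1 ∧
        (N0 ≤ co β ρ ∧ (ofLex (o2 (co β ρ))).2 ≠ j)} (Z (sub W j))) ≤ η := by
  set Lm : ℝ := ∑ k ∈ range I0, (F.L k : ℝ) with hLm
  have hs : 0 < 1 + √Lm := by positivity
  obtain ⟨N0, h⟩ := loc (K := Fin (i + 1)) (Γ := Γ) (R := R)
    (fun U n => ∑ ρ ∈ range I0, F.N1 (F.res {β | co β ρ = n} (Z U)) ^ 2)
    (fun U n => Finset.sum_nonneg fun _ _ => sq_nonneg _) (I0 * M ^ 2)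
    (fun U A => (F.sum_coords_le (Z U) I0 A).trans (by
      have h1 := F.N1_nonneg (Z U)
      have h2 := (F.N1_le_nrm (Z U)).trans (hM U)
      exact mul_le_mul_of_nonneg_left (by nlinarith) (Nat.cast_nonneg _)))
    ((η / (1 + √Lm)) ^ 2) (by positivity)
  refine ⟨N0, h.mono ?_⟩
  rintro W ⟨o, hmono, ho⟩
  refine ⟨o, hmono, fun j => ?_⟩
  obtain ⟨A, hA, hle⟩ := F.N1_res_coords (Z (sub W j)) I0 {n | N0 ≤ n ∧ (ofLex (o n)).2 ≠ j}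
  have h1 := hle.trans (ho j A hA)
  have h2 := (pow_le_pow_iff_left₀ (F.N1_nonneg _) (by positivity) two_ne_zero).mp h1
  refine (F.nrm_le_sqrt _ Lm ?_).trans ?_
  · intro β hβ
    have hmem : β.1 < I0 := by
      by_contra hn
      exact hβ (F.res_apply_of_notMem (fun hh => hn hh.1) _)
    exact Finset.single_le_sum (f := fun k => (F.L k : ℝ)) (fun k _ => Nat.cast_nonneg _)
      (Finset.mem_range.mpr hmem)
  · calc _ ≤ (1 + √Lm) * (η / (1 + √Lm)) := mul_le_mul_of_nonneg_left h2 hs.le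
      _ = η := by field_simp

/-- On a finite box all groups look the same, so the signed sum is small. -/
lemma inc_aux3 (F : Frame 𝕜) (i : ℕ) {Γ R : Type} [Fintype Γ] [LinearOrder Γ]
    [Fintype R] [LinearOrder R] (σ : Γ → 𝕜) (hσ : ∀ j, ‖σ j‖ ≤ 1) (hσ0 : ∑ j, σ j = 0)
    (Z : (Fin (i + 1) ×ₗ R → ℕ) → F.D) (M : ℝ)
    (hM : ∀ U, F.nrm (Z U) ≤ M) (η : ℝ) (hη : 0 < η) (I0 N0 : ℕ) :
    ∀ᶠ W in (UP (Fin (i + 1) ×ₗ (Γ ×ₗ R)) : Filter (Fin (i + 1) ×ₗ (Γ ×ₗ R) → ℕ)),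
      F.nrm (F.res (box I0 N0) (∑ j, σ j • Z (sub W j))) ≤ η := by
  classical
  set Bx : Finset Bk := (box_finite I0 N0).toFinset with hBx
  set N : ℝ := ∑ β ∈ Bx, (Fintype.card (F.C β.1) : ℝ) with hN
  have hN0 : 0 ≤ N := Finset.sum_nonneg fun _ _ => Nat.cast_nonneg _
  set n : ℝ := (Fintype.card Γ : ℝ) with hn
  have hn0 : 0 ≤ n := Nat.cast_nonneg _
  set θ : ℝ := η / (2 * (N * n) + 1) with hθ
  have hθ0 : 0 < θ := by positivity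
  have hl : ∀ (β : Bk) (c : F.C β.1), ∃ z : 𝕜, ∀ ε : ℝ, 0 < ε →
      ∀ᶠ U in (UP (Fin (i + 1) ×ₗ R) : Filter (Fin (i + 1) ×ₗ R → ℕ)), ‖Z U β c - z‖ ≤ ε :=
    fun β c => exists_ulim (UP (Fin (i + 1) ×ₗ R)) (fun U => Z U β c) M
      fun U => (F.norm_apply_le_nrm (Z U) β c).trans (hM U)
  choose lim hlim using hl
  have h1 : ∀ᶠ U in (UP (Fin (i + 1) ×ₗ R) : Filter (Fin (i + 1) ×ₗ R → ℕ)),
      ∀ β ∈ Bx, ∀ c : F.C β.1, ‖Z U β c - lim β c‖ ≤ θ :=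
    (Filter.eventually_all_finset Bx).mpr fun β _ =>
      Filter.eventually_all.mpr fun c => hlim β c θ hθ0
  refine (UP_sub (Γ := Γ) _ h1).mono fun W hW => ?_
  have h2 : ∀ β ∈ Bx, ∀ c : F.C β.1, ‖(∑ j, σ j • Z (sub W j)) β c‖ ≤ n * θ := by
    intro β hβ c
    have e : (∑ j, σ j • Z (sub W j)) β c = ∑ j, σ j * (Z (sub W j) β c - lim β c) := by
      simp only [mul_sub, Finset.sum_sub_distrib, ← Finset.sum_mul, hσ0, zero_mul, sub_zero]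
      rw [DFinsupp.finsetSum_apply, Finset.sum_apply]
      simp
    rw [e]
    calc _ ≤ ∑ j, ‖σ j * (Z (sub W j) β c - lim β c)‖ := norm_sum_le _ _
      _ ≤ ∑ _j : Γ, θ := Finset.sum_le_sum fun j _ => by
          rw [norm_mul]
          calc _ ≤ 1 * θ := mul_le_mul (hσ j) (hW j β hβ c) (norm_nonneg _) zero_le_one
            _ = θ := one_mul θ
      _ = n * θ := by simp [hn]
  have h3 := F.nrm_le_sum (F.res (box I0 N0) (∑ j, σ j • Z (sub W j))) Bx fun β hβ =>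
    F.res_apply_of_notMem (fun hh => hβ ((box_finite I0 N0).mem_toFinset.mpr hh)) _
  have h4 : ∑ β ∈ Bx, F.ν β.1 (F.res (box I0 N0) (∑ j, σ j • Z (sub W j)) β) ≤ N * (n * θ) := by
    rw [hN, Finset.sum_mul]
    refine Finset.sum_le_sum fun β hβ => (F.ν_res_le _ _ β).trans ((F.ν_le _ _).trans ?_)
    calc _ ≤ ∑ _c : F.C β.1, n * θ := Finset.sum_le_sum fun c _ => h2 β hβ c
      _ = _ := by simp
  have h5 : (2 * (N * n) + 1) * θ = η := by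
    rw [hθ]
    field_simp
  nlinarith

/-- All groups have nearly the same slots. -/
lemma inc_aux4 (F : Frame 𝕜) (i : ℕ) {Γ R : Type} [Fintype Γ] [LinearOrder Γ]
    [Fintype R] [LinearOrder R] (Z : (Fin (i + 1) ×ₗ R → ℕ) → F.D) (M : ℝ)
    (hM : ∀ U, F.nrm (Z U) ≤ M) (δ : ℝ) (hδ : 0 < δ) (I0 N0 : ℕ) :
    ∀ᶠ W in (UP (Fin (i + 1) ×ₗ (Γ ×ₗ R)) : Filter (Fin (i + 1) ×ₗ (Γ ×ₗ R) → ℕ)),
      ∀ j0 j k I, k < I0 → I ⊆ range N0 →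
        F.slot (Z (sub W j)) k I ≤ F.slot (Z (sub W j0)) k I + δ := by
  have hl : ∀ (k : ℕ) (I : Finset ℕ), ∃ z : ℝ, ∀ ε : ℝ, 0 < ε →
      ∀ᶠ U in (UP (Fin (i + 1) ×ₗ R) : Filter (Fin (i + 1) ×ₗ R → ℕ)),
        ‖F.slot (Z U) k I - z‖ ≤ ε :=
    fun k I => exists_ulim (𝕜 := ℝ) (UP (Fin (i + 1) ×ₗ R)) (fun U => F.slot (Z U) k I) M
      fun U => by
        rw [Real.norm_of_nonneg (F.slot_nonneg _ _ _)]
        exact (F.slot_le_N2 _ _ _).trans ((F.N2_le_nrm _).trans (hM U))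
  choose lim hlim using hl
  have h1 : ∀ᶠ U in (UP (Fin (i + 1) ×ₗ R) : Filter (Fin (i + 1) ×ₗ R → ℕ)),
      ∀ k ∈ range I0, ∀ I ∈ (range N0).powerset, ‖F.slot (Z U) k I - lim k I‖ ≤ δ / 2 :=
    (Filter.eventually_all_finset _).mpr fun k _ =>
      (Filter.eventually_all_finset _).mpr fun I _ => hlim k I _ (by positivity)
  refine (UP_sub (Γ := Γ) _ h1).mono fun W hW j0 j k I hk hI => ?_
  have h2 := hW j k (Finset.mem_range.mpr hk) I (Finset.mem_powerset.mpr hI)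
  have h3 := hW j0 k (Finset.mem_range.mpr hk) I (Finset.mem_powerset.mpr hI)
  rw [Real.norm_eq_abs, abs_le] at h2 h3
  linarith [h2.2, h3.1]

/-- Bounded families of vectors of larger kinds are incoherent along big configurations.
Let `η = ε / (2 * (2 * card Γ + 1))`. Apply `loc` to the masses `nrm (res {β | β.1 = n} (Z U)) ^ 2`
(`sum_kinds_le`, `nrm_res_kinds`) to get `I0` and `h1` of `inc_det` (with
`o1 n = (ofLex (o n)).2`). With `Lm = ∑ k ∈ range I0, L k`, apply `loc` to the masses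
`∑ ρ ∈ range I0, N1 (res {β | co β ρ = n} (Z U)) ^ 2` (`sum_coords_le`, `N1_res_coords`,
`nrm_le_sqrt`) to get `N0` and `h2`. On the finite box each coordinate `Z U β c` has a limit along
the ultrafilter (`exists_ulim`, `norm_apply_le_nrm`); by `UP_sub` all groups are close to it, and
the signs sum to zero, which gives `h3` (`nrm_le_sum`, `ν_le`). The finitely many bounded functions
`slot (Z U) k I` have limits (`exists_ulim` over `ℝ`), which gives `h4` with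
`δ = ε / (2 * (I0 * N0 + 1))`. -/
theorem incoherent (F : Frame 𝕜) (i : ℕ) {Γ R : Type} [Fintype Γ] [LinearOrder Γ] [Nonempty Γ]
    [Fintype R] [LinearOrder R] (σ : Γ → 𝕜) (hσ : ∀ j, ‖σ j‖ ≤ 1) (hσ0 : ∑ j, σ j = 0)
    (Z : (Fin (i + 1) ×ₗ R → ℕ) → F.D) (hZ : ∀ U β, β.1 ≤ i → Z U β = 0) (M : ℝ)
    (hM : ∀ U, F.nrm (Z U) ≤ M) (ε : ℝ) (hε : 0 < ε) :
    ∀ᶠ W in (UP (Fin (i + 1) ×ₗ (Γ ×ₗ R)) : Filter (Fin (i + 1) ×ₗ (Γ ×ₗ R) → ℕ)),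
      F.nrm (∑ j, σ j • Z (sub W j)) ≤ 4 * √(Fintype.card Γ) * M + ε := by
  set n : ℝ := (Fintype.card Γ : ℝ) with hn
  have hn0 : 0 ≤ n := Nat.cast_nonneg _
  have hη : 0 < ε / (2 * (2 * n + 1)) := by positivity
  obtain ⟨I0, h1⟩ := inc_aux1 F i (Γ := Γ) Z M hM _ hη
  obtain ⟨N0, h2⟩ := inc_aux2 F i (Γ := Γ) Z M hM _ hη I0
  have h3 := inc_aux3 F i σ hσ hσ0 Z M hM _ hη I0 N0
  have hδ : 0 < ε / (2 * ((I0 : ℝ) * N0 + 1)) := by positivity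
  have h4 := inc_aux4 F i (Γ := Γ) Z M hM _ hδ I0 N0
  filter_upwards [h1, h2, h3, h4] with W h1 h2 h3 h4
  obtain ⟨o1, h1⟩ := h1
  obtain ⟨o2, ho2, h2⟩ := h2
  have h5 := inc_det F i σ hσ (fun j => Z (sub W j)) (fun j β hβ => hZ _ β hβ) M
    (fun j => hM _) I0 N0 o1 o2 ho2 _ _ hδ.le h1 h2 h3 (Classical.arbitrary Γ)
    (h4 (Classical.arbitrary Γ))
  have e1 : (2 * n + 1) * (ε / (2 * (2 * n + 1))) = ε / 2 := by field_simp
  have e2 : ε / (2 * ((I0 : ℝ) * N0 + 1)) * ((I0 : ℝ) * N0) ≤ ε / 2 := by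
    have e3 : ε / (2 * ((I0 : ℝ) * N0 + 1)) * ((I0 : ℝ) * N0 + 1) = ε / 2 := by field_simp
    nlinarith
  rw [← hn, e1] at h5
  linarith

end Pool.Agent.Lib.MP_e0f470_an.Rob
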