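import Pool.Agent.Lib.MP_e0f470_an.RSlot

/-! The deterministic part of the incoherence lemma. -/

set_option autoImplicit false

namespace Pool.Agent.Lib.MP_e0f470_an.Rob

open Finset Filter
open scoped BigOperators Topology

variable {𝕜 : Type} [RCLike 𝕜]

lemma incD_smul_add (F : Frame 𝕜) (s : 𝕜) (x y : F.D) : s • (x + y) = s • x + s • y :=
  DFinsupp.ext fun β => by simp only [DFinsupp.smul_apply, DFinsupp.add_apply, smul_add]

lemma incD_le (F : Frame 𝕜) {s : 𝕜} (hs : ‖s‖ ≤ 1) (A : Set Bk) (z : F.D) (β : Bk) :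
    F.ν β.1 ((s • F.res A z) β) ≤ F.ν β.1 (z β) := by
  rw [DFinsupp.smul_apply, map_smul_eq_mul]
  exact (mul_le_of_le_one_left (apply_nonneg _ _) hs).trans (F.ν_res_le A z β)

lemma incD_ne (F : Frame 𝕜) (s : 𝕜) (A : Set Bk) (z : F.D) (β : Bk)
    (h : (s • F.res A z) β ≠ 0) : β ∈ A ∧ z β ≠ 0 := by
  rw [DFinsupp.smul_apply] at h
  by_cases hβ : β ∈ A
  · refine ⟨hβ, fun h0 => h ?_⟩
    rw [F.res_apply_of_mem hβ, h0, smul_zero]
  · exact absurd (by rw [F.res_apply_of_notMem hβ, smul_zero]) h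

lemma incD_sqrt {Γ : Type} [Fintype Γ] (f : Γ → ℝ) {M : ℝ} (hM : 0 ≤ M) (h0 : ∀ j, 0 ≤ f j)
    (h : ∀ j, f j ≤ M) : √(∑ j, f j ^ 2) ≤ √(Fintype.card Γ) * M := by
  have h1 : ∑ j, f j ^ 2 ≤ Fintype.card Γ * M ^ 2 := by
    calc ∑ j, f j ^ 2 ≤ ∑ _j : Γ, M ^ 2 :=
          Finset.sum_le_sum fun j _ => pow_le_pow_left₀ (h0 j) (h j) 2
      _ = Fintype.card Γ * M ^ 2 := by rw [Finset.sum_const, Finset.card_univ, nsmul_eq_mul]
  calc √(∑ j, f j ^ 2) ≤ √(Fintype.card Γ * M ^ 2) := Real.sqrt_le_sqrt h1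
    _ = √(Fintype.card Γ) * M := by
      rw [Real.sqrt_mul (Nat.cast_nonneg _), Real.sqrt_sq hM]

lemma incD_co {β β' : Bk} (h : Prec β β') (ρ : ℕ) (hρ : ρ ≤ β.1) : co β 0 ≤ co β ρ := by
  induction ρ with
  | zero => exact le_rfl
  | succ ρ ih =>
    have h1 := h.2.1 ρ (by omega)
    have h2 := h.2.2 ρ (by omega)
    have h3 := ih (by omega)
    omega

/-- Small kinds outside the box whose large coordinates are owned by `j`. -/
def incD_T {i : ℕ} {Γ : Type} (I0 N0 : ℕ) (o2 : ℕ → Fin (i + 1) ×ₗ Γ) (j : Γ) : Set Bk :=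
  {β | β.1 < I0 ∧ β ∉ box I0 N0 ∧ ∀ ρ, ρ ≤ β.1 → N0 ≤ co β ρ → (ofLex (o2 (co β ρ))).2 = j}

lemma incD_T_disj {i : ℕ} {Γ : Type} {I0 N0 : ℕ} {o2 : ℕ → Fin (i + 1) ×ₗ Γ} {j j' : Γ} {β : Bk}
    (h : β ∈ incD_T I0 N0 o2 j) (h' : β ∈ incD_T I0 N0 o2 j') : j = j' := by
  obtain ⟨h1, h2, h3⟩ := h
  have h4 : ∃ ρ, ρ ≤ β.1 ∧ N0 ≤ co β ρ := by
    by_contra hc
    push Not at hc
    exact h2 ⟨h1, hc⟩
  obtain ⟨ρ, hρ, hN⟩ := h4
  rw [← h3 ρ hρ hN, h'.2.2 ρ hρ hN]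

lemma incD_split (F : Frame 𝕜) {i : ℕ} {Γ : Type} (I0 N0 : ℕ) (o1 : ℕ → Γ)
    (o2 : ℕ → Fin (i + 1) ×ₗ Γ) (j : Γ) (z : F.D) :
    z = F.res (box I0 N0) z + F.res {β | I0 ≤ β.1 ∧ o1 β.1 ≠ j} z +
      F.res {β | β.1 < I0 ∧ ∃ ρ, ρ ≤ β.1 ∧ (N0 ≤ co β ρ ∧ (ofLex (o2 (co β ρ))).2 ≠ j)} z +
      F.res ({β | I0 ≤ β.1 ∧ o1 β.1 = j} ∪ incD_T I0 N0 o2 j) z := by
  refine DFinsupp.ext fun β => ?_
  simp only [DFinsupp.add_apply]
  by_cases hI : I0 ≤ β.1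
  · have hb : β ∉ box I0 N0 := fun h => absurd h.1 (not_lt.2 hI)
    have h2 : β ∉ {β : Bk | β.1 < I0 ∧ ∃ ρ, ρ ≤ β.1 ∧
        (N0 ≤ co β ρ ∧ (ofLex (o2 (co β ρ))).2 ≠ j)} := fun h => absurd h.1 (not_lt.2 hI)
    rw [F.res_apply_of_notMem hb, F.res_apply_of_notMem h2]
    by_cases ho : o1 β.1 = j
    · have h1 : β ∉ {β : Bk | I0 ≤ β.1 ∧ o1 β.1 ≠ j} := fun h => h.2 ho
      have h3 : β ∈ {β : Bk | I0 ≤ β.1 ∧ o1 β.1 = j} ∪ incD_T I0 N0 o2 j := Or.inl ⟨hI, ho⟩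
      rw [F.res_apply_of_notMem h1, F.res_apply_of_mem h3]
      simp
    · have h1 : β ∈ {β : Bk | I0 ≤ β.1 ∧ o1 β.1 ≠ j} := ⟨hI, ho⟩
      have h3 : β ∉ {β : Bk | I0 ≤ β.1 ∧ o1 β.1 = j} ∪ incD_T I0 N0 o2 j := by
        rintro (h | h)
        · exact ho h.2
        · exact absurd h.1 (not_lt.2 hI)
      rw [F.res_apply_of_mem h1, F.res_apply_of_notMem h3]
      simp
  · have h1 : β ∉ {β : Bk | I0 ≤ β.1 ∧ o1 β.1 ≠ j} := fun h => hI h.1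
    rw [F.res_apply_of_notMem h1]
    by_cases hb : β ∈ box I0 N0
    · have h2 : β ∉ {β : Bk | β.1 < I0 ∧ ∃ ρ, ρ ≤ β.1 ∧
          (N0 ≤ co β ρ ∧ (ofLex (o2 (co β ρ))).2 ≠ j)} := by
        rintro ⟨-, ρ, hρ, hN, -⟩
        exact absurd (hb.2 ρ hρ) (not_lt.2 hN)
      have h3 : β ∉ {β : Bk | I0 ≤ β.1 ∧ o1 β.1 = j} ∪ incD_T I0 N0 o2 j := by
        rintro (h | h)
        · exact hI h.1
        · exact h.2.1 hb
      rw [F.res_apply_of_mem hb, F.res_apply_of_notMem h2, F.res_apply_of_notMem h3]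
      simp
    · rw [F.res_apply_of_notMem hb]
      by_cases h2 : β ∈ {β : Bk | β.1 < I0 ∧ ∃ ρ, ρ ≤ β.1 ∧
          (N0 ≤ co β ρ ∧ (ofLex (o2 (co β ρ))).2 ≠ j)}
      · have h3 : β ∉ {β : Bk | I0 ≤ β.1 ∧ o1 β.1 = j} ∪ incD_T I0 N0 o2 j := by
          rintro (h | h)
          · exact hI h.1
          · obtain ⟨-, ρ, hρ, hN, hj⟩ := h2
            exact hj (h.2.2 ρ hρ hN)
        rw [F.res_apply_of_mem h2, F.res_apply_of_notMem h3]
        simp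
      · have h3 : β ∈ {β : Bk | I0 ≤ β.1 ∧ o1 β.1 = j} ∪ incD_T I0 N0 o2 j := by
          refine Or.inr ⟨not_le.1 hI, hb, fun ρ hρ hN => ?_⟩
          by_contra hj
          exact h2 ⟨not_le.1 hI, ρ, hρ, hN, hj⟩
        rw [F.res_apply_of_notMem h2, F.res_apply_of_mem h3]
        simp

lemma incD_split' (F : Frame 𝕜) {i : ℕ} {Γ : Type} (I0 N0 : ℕ) (o1 : ℕ → Γ)
    (o2 : ℕ → Fin (i + 1) ×ₗ Γ) (j : Γ) (z : F.D) :
    F.res ({β | I0 ≤ β.1 ∧ o1 β.1 = j} ∪ incD_T I0 N0 o2 j) z =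
      F.res {β | I0 ≤ β.1 ∧ o1 β.1 = j} z + F.res (incD_T I0 N0 o2 j ∩ {β | N0 ≤ co β 0}) z +
        F.res (incD_T I0 N0 o2 j ∩ {β | co β 0 < N0}) z := by
  have hd : Disjoint {β : Bk | I0 ≤ β.1 ∧ o1 β.1 = j} (incD_T I0 N0 o2 j) :=
    Set.disjoint_left.2 fun β h h' => absurd h'.1 (not_lt.2 h.1)
  have hd' : Disjoint (incD_T I0 N0 o2 j ∩ {β | N0 ≤ co β 0})
      (incD_T I0 N0 o2 j ∩ {β | co β 0 < N0}) :=
    Set.disjoint_left.2 fun β h h' =>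
      absurd (show co β 0 < N0 from h'.2) (not_lt.2 (show N0 ≤ co β 0 from h.2))
  have hu : (incD_T I0 N0 o2 j ∩ {β | N0 ≤ co β 0}) ∪ (incD_T I0 N0 o2 j ∩ {β | co β 0 < N0})
      = incD_T I0 N0 o2 j := by
    ext β
    constructor
    · rintro (h | h)
      · exact h.1
      · exact h.1
    · intro h
      rcases le_or_gt N0 (co β 0) with h' | h'
      · exact Or.inl ⟨h, h'⟩
      · exact Or.inr ⟨h, h'⟩
  rw [F.res_union hd, add_assoc, ← F.res_union hd', hu]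

lemma incD_bad (F : Frame 𝕜) {Γ : Type} [Fintype Γ] (σ : Γ → 𝕜) (hσ : ∀ j, ‖σ j‖ ≤ 1)
    (y : Γ → F.D) {η : ℝ} (h : ∀ j, F.nrm (y j) ≤ η) :
    F.nrm (∑ j, σ j • y j) ≤ Fintype.card Γ * η := by
  calc F.nrm (∑ j, σ j • y j) ≤ ∑ j, F.nrm (σ j • y j) := F.nrm_sum_le _ _
    _ ≤ ∑ _j : Γ, η := Finset.sum_le_sum fun j _ => by
        rw [F.nrm_smul]
        exact (mul_le_of_le_one_left (F.nrm_nonneg _) (hσ j)).trans (h j)
    _ = Fintype.card Γ * η := by rw [Finset.sum_const, Finset.card_univ, nsmul_eq_mul]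

/-- Split the blocks, for each `j`, into six disjoint sets: the box; the two bad sets of `h1` and
`h2`; `G1 j`: `I0 ≤ β.1` and `o1 β.1 = j`; and, among the blocks of kind `< I0` outside the box
all of whose coordinates `≥ N0` are owned by `j`, the sets `G2 j` (`N0 ≤ co β 0`) and `G3 j`
(`co β 0 < N0`). The sets `G1 j ∪ G2 j ∪ G3 j` are pairwise disjoint in `j`, so `N1_sum_disj`
bounds the Euclidean part of the good vectors by `√(card Γ) * M`. The chain part of the three good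
families is bounded with `N2_sum_sep` (`G1`: different kinds; `G2`: if `Prec β β'` then all
coordinates of both blocks are `≥ co β 0 ≥ N0`, so `not_prec_of_terr` applies, the kind being
larger than `i` by `hz`) and `N2_slot` with `y = z j0` (`G3`). -/
theorem inc_det (F : Frame 𝕜) (i : ℕ) {Γ : Type} [Fintype Γ] [LinearOrder Γ] (σ : Γ → 𝕜)
    (hσ : ∀ j, ‖σ j‖ ≤ 1) (z : Γ → F.D) (hz : ∀ j β, β.1 ≤ i → z j β = 0) (M : ℝ)
    (hM : ∀ j, F.nrm (z j) ≤ M) (I0 N0 : ℕ) (o1 : ℕ → Γ) (o2 : ℕ → Fin (i + 1) ×ₗ Γ)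
    (ho2 : Monotone o2) (η δ : ℝ) (hδ : 0 ≤ δ)
    (h1 : ∀ j, F.nrm (F.res {β | I0 ≤ β.1 ∧ o1 β.1 ≠ j} (z j)) ≤ η)
    (h2 : ∀ j, F.nrm (F.res {β | β.1 < I0 ∧ ∃ ρ, ρ ≤ β.1 ∧
      (N0 ≤ co β ρ ∧ (ofLex (o2 (co β ρ))).2 ≠ j)} (z j)) ≤ η)
    (h3 : F.nrm (F.res (box I0 N0) (∑ j, σ j • z j)) ≤ η) (j0 : Γ)
    (h4 : ∀ j k I, k < I0 → I ⊆ range N0 → F.slot (z j) k I ≤ F.slot (z j0) k I + δ) :
    F.nrm (∑ j, σ j • z j) ≤
      4 * √(Fintype.card Γ) * M + (2 * Fintype.card Γ + 1) * η + δ * (I0 * N0) := by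
  have hM0 : 0 ≤ M := (F.nrm_nonneg _).trans (hM j0)
  set B1 : Γ → Set Bk := fun j => {β | I0 ≤ β.1 ∧ o1 β.1 ≠ j} with hB1
  set B2 : Γ → Set Bk := fun j => {β | β.1 < I0 ∧ ∃ ρ, ρ ≤ β.1 ∧
      (N0 ≤ co β ρ ∧ (ofLex (o2 (co β ρ))).2 ≠ j)} with hB2
  set G1 : Γ → Set Bk := fun j => {β | I0 ≤ β.1 ∧ o1 β.1 = j} with hG1
  set G2 : Γ → Set Bk := fun j => incD_T I0 N0 o2 j ∩ {β | N0 ≤ co β 0} with hG2
  set G3 : Γ → Set Bk := fun j => incD_T I0 N0 o2 j ∩ {β | co β 0 < N0} with hG3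
  set G : Γ → Set Bk := fun j => G1 j ∪ incD_T I0 N0 o2 j with hG
  have hsplit : ∑ j, σ j • z j = F.res (box I0 N0) (∑ j, σ j • z j) +
      ∑ j, σ j • F.res (B1 j) (z j) + ∑ j, σ j • F.res (B2 j) (z j) +
      ∑ j, σ j • F.res (G j) (z j) := by
    rw [map_sum, ← Finset.sum_add_distrib, ← Finset.sum_add_distrib, ← Finset.sum_add_distrib]
    refine Finset.sum_congr rfl fun j _ => ?_
    rw [map_smul, ← incD_smul_add, ← incD_smul_add, ← incD_smul_add]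
    exact congrArg (σ j • ·) (incD_split F I0 N0 o1 o2 j (z j))
  have hsplit' : ∑ j, σ j • F.res (G j) (z j) = ∑ j, σ j • F.res (G1 j) (z j) +
      ∑ j, σ j • F.res (G2 j) (z j) + ∑ j, σ j • F.res (G3 j) (z j) := by
    rw [← Finset.sum_add_distrib, ← Finset.sum_add_distrib]
    refine Finset.sum_congr rfl fun j _ => ?_
    rw [← incD_smul_add, ← incD_smul_add]
    exact congrArg (σ j • ·) (incD_split' F I0 N0 o1 o2 j (z j))
  have hN2 : ∀ (A : Set Bk) (j : Γ), F.N2 (σ j • F.res A (z j)) ≤ M := fun A j =>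
    (F.N2_mono (incD_le F (hσ j) A (z j))).trans ((F.N2_le_nrm _).trans (hM j))
  have hN1 : ∀ (A : Set Bk) (j : Γ), F.N1 (σ j • F.res A (z j)) ≤ M := fun A j =>
    (F.N1_mono (incD_le F (hσ j) A (z j))).trans ((F.N1_le_nrm _).trans (hM j))
  have e1 : F.N1 (∑ j, σ j • F.res (G j) (z j)) ≤ √(Fintype.card Γ) * M := by
    have hd : ∀ j j', j ≠ j' → ∀ β, (σ j • F.res (G j) (z j)) β = 0 ∨
        (σ j' • F.res (G j') (z j')) β = 0 := by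
      intro j j' hj β
      by_contra hc
      push Not at hc
      have a1 := (incD_ne F _ _ _ _ hc.1).1
      have a2 := (incD_ne F _ _ _ _ hc.2).1
      rcases a1 with a1 | a1
      · rcases a2 with a2 | a2
        · exact hj (a1.2.symm.trans a2.2)
        · exact absurd a2.1 (not_lt.2 a1.1)
      · rcases a2 with a2 | a2
        · exact absurd a1.1 (not_lt.2 a2.1)
        · exact hj (incD_T_disj a1 a2)
    have h := F.N1_sum_disj (fun j => σ j • F.res (G j) (z j)) hd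
    calc F.N1 (∑ j, σ j • F.res (G j) (z j))
        = √(∑ j, F.N1 (σ j • F.res (G j) (z j)) ^ 2) := by
          rw [← h, Real.sqrt_sq (F.N1_nonneg _)]
      _ ≤ √(Fintype.card Γ) * M :=
          incD_sqrt _ hM0 (fun j => F.N1_nonneg _) fun j => hN1 _ j
  have e2 : F.N2 (∑ j, σ j • F.res (G1 j) (z j)) ≤ √(Fintype.card Γ) * M := by
    refine (F.N2_sum_sep (fun j => σ j • F.res (G1 j) (z j)) ?_).trans
      (incD_sqrt _ hM0 (fun j => F.N2_nonneg _) fun j => hN2 _ j)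
    intro j j' hj β β' hβ hβ'
    have a1 := (incD_ne F _ _ _ _ hβ).1
    have a2 := (incD_ne F _ _ _ _ hβ').1
    have hk : β.1 ≠ β'.1 := fun h => hj (a1.2.symm.trans ((congrArg o1 h).trans a2.2))
    exact ⟨fun h => hk (congrArg Sigma.fst h), fun h => hk h.1⟩
  have e3 : F.N2 (∑ j, σ j • F.res (G2 j) (z j)) ≤ √(Fintype.card Γ) * M := by
    refine (F.N2_sum_sep (fun j => σ j • F.res (G2 j) (z j)) ?_).trans
      (incD_sqrt _ hM0 (fun j => F.N2_nonneg _) fun j => hN2 _ j)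
    intro j j' hj β β' hβ hβ'
    obtain ⟨a1, b1⟩ := incD_ne F _ _ _ _ hβ
    obtain ⟨a2, -⟩ := incD_ne F _ _ _ _ hβ'
    refine ⟨fun h => hj (incD_T_disj a1.1 (h ▸ a2.1)), fun h => ?_⟩
    have hi : i < β.1 := not_le.1 fun hi => b1 (hz j β hi)
    have c1 : N0 ≤ co β 0 := a1.2
    refine not_prec_of_terr o2 ho2 hj hi (fun ρ hρ => a1.1.2.2 ρ hρ ?_)
      (fun ρ hρ => a2.1.2.2 ρ hρ ?_) h
    · exact c1.trans (incD_co h ρ hρ)
    · have hρ' : ρ ≤ β.1 := h.1 ▸ hρ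
      exact (c1.trans (incD_co h ρ hρ')).trans (h.2.1 ρ hρ').le
  have e4 : F.N2 (∑ j, σ j • F.res (G3 j) (z j)) ≤ √(Fintype.card Γ) * M + δ * (I0 * N0) := by
    refine (F.N2_slot (fun j => σ j • F.res (G3 j) (z j)) z (z j0) I0 N0 δ hδ
      (fun j β => incD_le F (hσ j) _ _ β) (fun j β h => ?_) (fun j j' hj β => ?_) h4).trans ?_
    · have a1 := (incD_ne F _ _ _ _ h).1
      exact ⟨a1.1.1, a1.2⟩
    · by_contra hc
      push Not at hc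
      exact hj (incD_T_disj (incD_ne F _ _ _ _ hc.1).1.1 (incD_ne F _ _ _ _ hc.2).1.1)
    · exact add_le_add (mul_le_mul_of_nonneg_left ((F.N2_le_nrm _).trans (hM j0))
        (Real.sqrt_nonneg _)) le_rfl
  have e5 : F.N2 (∑ j, σ j • F.res (G j) (z j)) ≤ 3 * √(Fintype.card Γ) * M + δ * (I0 * N0) := by
    rw [hsplit']
    have a1 := F.N2_add_le (∑ j, σ j • F.res (G1 j) (z j) + ∑ j, σ j • F.res (G2 j) (z j))
      (∑ j, σ j • F.res (G3 j) (z j))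
    have a2 := F.N2_add_le (∑ j, σ j • F.res (G1 j) (z j)) (∑ j, σ j • F.res (G2 j) (z j))
    linarith
  have e6 : F.nrm (∑ j, σ j • F.res (G j) (z j)) ≤ 4 * √(Fintype.card Γ) * M + δ * (I0 * N0) := by
    unfold Frame.nrm
    linarith
  have e7 := incD_bad F σ hσ (fun j => F.res (B1 j) (z j)) h1
  have e8 := incD_bad F σ hσ (fun j => F.res (B2 j) (z j)) h2
  have a1 := F.nrm_add_le (F.res (box I0 N0) (∑ j, σ j • z j) +
      ∑ j, σ j • F.res (B1 j) (z j) + ∑ j, σ j • F.res (B2 j) (z j))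
      (∑ j, σ j • F.res (G j) (z j))
  have a2 := F.nrm_add_le (F.res (box I0 N0) (∑ j, σ j • z j) +
      ∑ j, σ j • F.res (B1 j) (z j)) (∑ j, σ j • F.res (B2 j) (z j))
  have a3 := F.nrm_add_le (F.res (box I0 N0) (∑ j, σ j • z j)) (∑ j, σ j • F.res (B1 j) (z j))
  rw [← hsplit] at a1
  linarith

end Pool.Agent.Lib.MP_e0f470_an.Rob
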