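import Pool.Agent.Lib.MP_e0f470_an.RIndA

/-! The collapse. -/

set_option autoImplicit false

namespace Pool.Agent.Lib.MP_e0f470_an.Rob

open Finset Filter
open scoped BigOperators Topology

variable {𝕜 : Type} [RCLike 𝕜]

variable {J X Ω Φ : Type} [Fintype J] [Fintype X] [Fintype Ω] [Fintype Φ] [DecidableEq J]
  [DecidableEq Φ] {T : ℕ} {x : X → J → 𝕜} {W : Φ → Φ → ℝ} {ξ : Fin T × Ω → Φ → Bool × J} {ε : ℝ}

omit [Fintype J] [Fintype X] [DecidableEq J] in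
/-- The trivial upper bound for the average size. -/
lemma ind_lam_le [Nonempty X] (F : Frame 𝕜) (i : ℕ) (p : Seminorm 𝕜 F.D) (M : ℝ) (hp : F.Ren p M)
    (ι : ((Fin T → Φ) → 𝕜) →ₗ[𝕜] (F.C i → 𝕜)) (hι : ∀ u, F.ν i (ι u) = bn x W ξ u)
    {R : Type} [Fintype R] (σ : R → 𝕜) (hσ : ∀ r, ‖σ r‖ ≤ 1) (U : Fin (i + 1) ×ₗ R → ℕ) (t : ℕ) :
    lam x W ξ p (spread F i σ U ∘ₗ ι) t ≤ 2 := by
  unfold lam
  refine ra_le_of_le (by norm_num) fun cs => ra_le_of_le (by norm_num) fun τs =>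
    ciSup_le fun xs => ?_
  rw [LinearMap.comp_apply]
  refine (hp.2.1 _).trans ((nrm_spread_le F i σ hσ U _).trans ?_)
  rw [hι]
  have := bn_gen_le x W ξ (lab t cs τs xs)
  linarith

omit [Fintype J] [DecidableEq J] in
/-- The lower bound at the last level. -/
lemma ind_le_lam [Nonempty X] [Nonempty Ω] [Nonempty Φ] (F : Frame 𝕜) (i : ℕ)
    (hx : ∀ i j, ‖x i j‖ ≤ 1) (hW : Had W) (p : Seminorm 𝕜 F.D) (M : ℝ) (hp : F.Ren p M)
    (ι : ((Fin T → Φ) → 𝕜) →ₗ[𝕜] (F.C i → 𝕜)) (hι : ∀ u, F.ν i (ι u) = bn x W ξ u)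
    {R : Type} [Fintype R] [LinearOrder R] [Nonempty R] (σ : R → 𝕜) (hσ : ∀ r, ‖σ r‖ = 1)
    (hL : Fintype.card R ≤ F.L i) (U : Fin (i + 1) ×ₗ R → ℕ) (hU : StrictMono U) :
    1 / M ≤ lam x W ξ p (spread F i σ U ∘ₗ ι) T := by
  have hM : 0 < M := lt_of_lt_of_le one_pos hp.1
  unfold lam
  refine le_ra_of_le fun cs => le_ra_of_le fun τs => ?_
  obtain ⟨x0⟩ : Nonempty X := inferInstance
  refine le_ciSup_of_le (Finite.bddAbove_range _) (fun _ => x0) ?_
  have hl : lab T cs τs (fun _ => x0) = fun s => (del (cs s) : Lab X Ω Φ) := by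
    funext s
    simp [lab, s.2]
  rw [hl, gen_del, LinearMap.comp_apply, div_le_iff₀ hM, mul_comm]
  refine le_trans ?_ (hp.2.2 _)
  refine le_trans ?_ (le_nrm_spread F i σ hσ hL U hU _)
  rw [hι]
  have := norm_le_bn x W ξ hx hW (Pi.single cs 1) cs
  simpa using this

/-- Suppose no such `a` exists. Let `Γ = Fin (h + 1) ×ₗ Bool` with the signs `sk` of the second
component, `η = 1 / (200 * M)`; the error `e` in `level_ult` is at most `0.14 / M`. Show by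
induction on `t ≤ T` that there are a finite nonempty linear order `R` with
`card R = (2 * (h + 1)) ^ t` and unimodular `σ` with `lam … t ≤ 2 / 2 ^ t + 2 * e` for almost all
`U` (start with `R = Unit`, `nrm_spread_le`, `bn_gen_le`). For `t = T` and increasing `U`
(`UP_mono`), `lab T cs τs xs = fun s => del (cs s)`, and `gen_del`, `norm_le_bn`, `le_nrm_spread`
give `1 / M ≤ lam … T`. -/
theorem collapse [Nonempty J] [Nonempty X] [Nonempty Ω] [Nonempty Φ] (F : Frame 𝕜) (i : ℕ)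
    (hx : ∀ i j, ‖x i j‖ ≤ 1) (hW : Had W) (hN : Nice x) (hR : Rig x W ξ ε) (hC : Cap F i x ξ ε)
    (hε : 0 ≤ ε) (p : Seminorm 𝕜 F.D) (M : ℝ) (hp : F.Ren p M)
    (ι : ((Fin T → Φ) → 𝕜) →ₗ[𝕜] (F.C i → 𝕜)) (hι : ∀ u, F.ν i (ι u) = bn x W ξ u) (h : ℕ)
    (hL : (2 * (h + 1)) ^ T ≤ F.L i) (hT : 16 * M ≤ 2 ^ T)
    (hεM : (Fintype.card X : ℝ) ^ T * (30 * (Fintype.card J : ℝ) ^ 2 * M * ε) ≤ 1 / (16 * M))
    (hh : (200 * Fintype.card J * M ^ 2) ^ 2 ≤ 2 * ((h : ℝ) + 1)) :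
    ∃ a : (J → 𝕜) →ₗ[𝕜] F.D, (∀ y β, β.1 ≠ i → a y β = 0) ∧ Fac x p a := by
  by_contra hcon
  have H : ∀ a : (J → 𝕜) →ₗ[𝕜] F.D, (∀ y β, β.1 ≠ i → a y β = 0) → ¬ Fac x p a :=
    fun a ha hf => hcon ⟨a, ha, hf⟩
  have hM1 : 1 ≤ M := hp.1
  have hM : 0 < M := lt_of_lt_of_le one_pos hM1
  have hη : 0 < 1 / (200 * M) := by positivity
  have hη1 : 1 / (200 * M) ≤ 1 := by
    rw [div_le_one (by positivity)]
    linarith
  have hΓ : Fintype.card (Fin (h + 1) ×ₗ Bool) = 2 * (h + 1) := by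
    rw [Fintype.card_lex, Fintype.card_prod, Fintype.card_fin, Fintype.card_bool, mul_comm]
  obtain ⟨e, he⟩ : ∃ e : ℝ, e = 2 * (1 / (200 * M)) +
      (Fintype.card X : ℝ) ^ T * (30 * (Fintype.card J : ℝ) ^ 2 * M * ε) +
        12 * Fintype.card J * M / √(Fintype.card (Fin (h + 1) ×ₗ Bool)) := ⟨_, rfl⟩
  have he0 : 0 ≤ e := by
    rw [he]
    positivity
  have hn : (0 : ℝ) < Fintype.card J := by positivity
  have he1 : e ≤ 7 / 50 * (1 / M) := by
    have h1 : 200 * Fintype.card J * M ^ 2 ≤ √(Fintype.card (Fin (h + 1) ×ₗ Bool) : ℝ) := by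
      apply Real.le_sqrt_of_sq_le
      rw [hΓ]
      push_cast
      exact hh
    have h2 : 12 * Fintype.card J * M / √(Fintype.card (Fin (h + 1) ×ₗ Bool) : ℝ)
        ≤ 12 * Fintype.card J * M / (200 * Fintype.card J * M ^ 2) :=
      div_le_div_of_nonneg_left (by positivity) (by positivity) h1
    have h3 : 12 * (Fintype.card J : ℝ) * M / (200 * Fintype.card J * M ^ 2)
        = 3 / 50 * (1 / M) := by
      field_simp
      ring
    have h4 : 1 / (16 * M) = 1 / 16 * (1 / M) := by field_simp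
    have h5 : 2 * (1 / (200 * M)) = 1 / 100 * (1 / M) := by
      field_simp
      ring
    have h6 : 0 < 1 / M := by positivity
    rw [he]
    linarith
  have hs : ∀ j : Fin (h + 1) ×ₗ Bool, ‖sk 𝕜 (ofLex j).2‖ = 1 := fun j => norm_sk _
  have hs0 : ∑ j : Fin (h + 1) ×ₗ Bool, sk 𝕜 (ofLex j).2 = 0 := by
    rw [← Equiv.sum_comp (toLex : Fin (h + 1) × Bool ≃ Fin (h + 1) ×ₗ Bool), Fintype.sum_prod_type]
    simp [sk]
  have key : ∀ t, t ≤ T → ∃ (R : Type) (_ : Fintype R) (_ : LinearOrder R) (_ : Nonempty R)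
      (σ : R → 𝕜), Fintype.card R = (2 * (h + 1)) ^ t ∧ (∀ r, ‖σ r‖ = 1) ∧
        ∀ᶠ U in (UP (Fin (i + 1) ×ₗ R) : Filter (Fin (i + 1) ×ₗ R → ℕ)),
          lam x W ξ p (spread F i σ U ∘ₗ ι) t ≤ 2 / 2 ^ t + 2 * e := by
    intro t
    induction t with
    | zero =>
      intro _
      refine ⟨Unit, inferInstance, inferInstance, inferInstance, fun _ => 1, by simp,
        fun _ => by simp, Eventually.of_forall fun U => ?_⟩
      have := ind_lam_le (x := x) (W := W) (ξ := ξ) F i p M hp ι hι (fun _ : Unit => (1 : 𝕜))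
        (fun _ => by simp) U 0
      rw [pow_zero, div_one]
      linarith
    | succ t ih =>
      intro ht
      obtain ⟨R, _, _, _, σ, hc, hσ, hU⟩ := ih (by omega)
      have h1 := level_ult F i hN hR hC hε p M hp ι hι H t (by omega) _ hη hη1
        (fun j : Fin (h + 1) ×ₗ Bool => sk 𝕜 (ofLex j).2) (fun j => (hs j).le) hs0 σ
        (fun r => (hσ r).le) _ hU
      refine ⟨(Fin (h + 1) ×ₗ Bool) ×ₗ R, inferInstance, inferInstance, inferInstance,
        fun z => sk 𝕜 (ofLex (ofLex z).1).2 * σ (ofLex z).2, ?_, fun z => ?_,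
        h1.mono fun U hU' => hU'.trans (le_of_eq ?_)⟩
      · rw [Fintype.card_lex, Fintype.card_prod, hΓ, hc, pow_succ, mul_comm]
      · rw [norm_mul, hs, hσ, one_mul]
      · rw [← he, pow_succ]
        field_simp
        ring
  obtain ⟨R, _, _, _, σ, hc, hσ, hU⟩ := key T le_rfl
  obtain ⟨U, hU1, hU2⟩ := (hU.and (UP_mono _)).exists
  have h1 := ind_le_lam (x := x) (W := W) (ξ := ξ) F i hx hW p M hp ι hι σ hσ (hc ▸ hL) U hU2
  have h2 : (2 : ℝ) / 2 ^ T ≤ 2 / (16 * M) :=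
    div_le_div_of_nonneg_left (by norm_num) (by positivity) hT
  have h3 : 2 / (16 * M) = 1 / 8 * (1 / M) := by
    field_simp
    ring
  have h4 : 0 < 1 / M := by positivity
  linarith

end Pool.Agent.Lib.MP_e0f470_an.Rob
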