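import Pool.Agent.Lib.MP_e0f470_an.RDefs

/-! Powers of an ultrafilter indexed by finite linear orders. -/

set_option autoImplicit false

namespace Pool.Agent.Lib.MP_e0f470_an.Rob

open Finset Filter
open scoped BigOperators Topology

variable {𝕜 : Type} [RCLike 𝕜]

theorem ult_succ {n : ℕ} (P : (Fin (n + 1) → ℕ) → Prop) :
    (∀ᶠ w in (UPn (n + 1) : Filter (Fin (n + 1) → ℕ)), P w) ↔
      ∀ᶠ a in (hyperfilter ℕ : Filter ℕ), ∀ᶠ w in (UPn n : Filter (Fin n → ℕ)),
        P (Fin.cons a w) := Iff.rfl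

theorem ult_homn (n : ℕ) : ∀ (m : ℕ) (e : Fin m → Fin n), StrictMono e →
    ∀ P : (Fin m → ℕ) → Prop,
    (∀ᶠ w in (UPn n : Filter (Fin n → ℕ)), P (w ∘ e)) ↔
      ∀ᶠ v in (UPn m : Filter (Fin m → ℕ)), P v := by
  have h0 : ∀ (n : ℕ) (e : Fin 0 → Fin n) (P : (Fin 0 → ℕ) → Prop),
      (∀ᶠ w in (UPn n : Filter (Fin n → ℕ)), P (w ∘ e)) ↔
        ∀ᶠ v in (UPn 0 : Filter (Fin 0 → ℕ)), P v := by
    intro n e P
    have h1 : ∀ v : Fin 0 → ℕ, v = Fin.elim0 := fun v => Subsingleton.elim _ _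
    simp only [fun w : Fin n → ℕ => h1 (w ∘ e), eventually_const]
    exact Iff.rfl
  induction n with
  | zero =>
    intro m e he P
    cases m with
    | zero => exact h0 _ e P
    | succ m => exact (e 0).elim0
  | succ n ih =>
    intro m e he P
    cases m with
    | zero => exact h0 _ e P
    | succ m =>
      rw [ult_succ]
      by_cases h : e 0 = 0
      · have h1 : ∀ i : Fin m, e i.succ ≠ 0 := fun i => (h ▸ he i.succ_pos).ne'
        rw [ult_succ]
        refine eventually_congr (Eventually.of_forall fun a => ?_)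
        rw [← ih m (fun i => (e i.succ).pred (h1 i)) fun i j hij =>
          Fin.pred_lt_pred_iff.2 (he (Fin.succ_lt_succ_iff.2 hij))]
        refine eventually_congr (Eventually.of_forall fun w => iff_of_eq (congrArg P ?_))
        funext i
        refine Fin.cases ?_ (fun i => ?_) i
        · simp [h]
        · rw [Function.comp_apply, ← Fin.succ_pred (e i.succ) (h1 i), Fin.cons_succ,
            Fin.cons_succ, Function.comp_apply]
      · have h1 : ∀ i, e i ≠ 0 := fun i =>
          ((Fin.pos_iff_ne_zero.2 h).trans_le (he.monotone (Fin.zero_le i))).ne'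
        rw [← ih (m + 1) (fun i => (e i).pred (h1 i)) fun i j hij =>
          Fin.pred_lt_pred_iff.2 (he hij)]
        have h2 : ∀ (a : ℕ) (w : Fin n → ℕ), (Fin.cons a w : Fin (n + 1) → ℕ) ∘ e =
            w ∘ fun i => (e i).pred (h1 i) := by
          intro a w
          funext i
          rw [Function.comp_apply, ← Fin.succ_pred (e i) (h1 i), Fin.cons_succ,
            Function.comp_apply]
        simp only [h2, eventually_const]

theorem ult_mix {κ : Type} [Fintype κ] [LinearOrder κ] {n : ℕ} (e : κ → Fin n)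
    (he : StrictMono e) (P : (κ → ℕ) → Prop) :
    (∀ᶠ w in (UPn n : Filter (Fin n → ℕ)), P (w ∘ e)) ↔ ∀ᶠ v in (UP κ : Filter (κ → ℕ)), P v := by
  have h := ult_homn n _ (e ∘ monoEquivOfFin κ rfl) (he.comp (monoEquivOfFin κ rfl).strictMono)
    fun v => P fun i => v ((monoEquivOfFin κ rfl).symm i)
  simp only [Function.comp_apply, OrderIso.apply_symm_apply] at h
  exact h

theorem ult_top (n : ℕ) : ∀ P : (Fin n → ℕ) → ℕ → Prop, (∀ U, ∀ᶠ d in atTop, P U d) →
    ∀ᶠ w in (UPn (n + 1) : Filter (Fin (n + 1) → ℕ)),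
      P (fun i => w i.castSucc) (w (Fin.last n)) := by
  induction n with
  | zero =>
    intro P h
    rw [ult_succ]
    refine ((h Fin.elim0).filter_mono Nat.hyperfilter_le_atTop).mono fun a ha =>
      Eventually.of_forall fun w => ?_
    rwa [Subsingleton.elim (fun i : Fin 0 => (Fin.cons a w : Fin 1 → ℕ) i.castSucc) Fin.elim0]
  | succ n ih =>
    intro P h
    rw [ult_succ]
    refine Eventually.of_forall fun a => (ih (fun U d => P (Fin.cons a U) d) fun U => h _).mono
      fun w hw => ?_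
    have h1 : (fun i : Fin (n + 1) => (Fin.cons a w : Fin (n + 2) → ℕ) i.castSucc) =
        Fin.cons a fun i : Fin n => w i.castSucc := by
      funext i
      refine Fin.cases ?_ (fun i => ?_) i
      · rfl
      · rw [← Fin.succ_castSucc, Fin.cons_succ, Fin.cons_succ]
    rw [h1, ← Fin.succ_last, Fin.cons_succ]
    exact hw

/-- Projection to an increasing subfamily of coordinates. First prove the statement for `UPn` and
strictly monotone `e : Fin m → Fin n` by induction on `n` (generalizing `m`, `e`, `P`): if `0` is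
not in the range of `e` the outer coordinate is irrelevant (`e = succ ∘ e'`), otherwise `m = m' + 1`,
`e 0 = 0` and `e ∘ succ = succ ∘ e'`. Unfold `Ultrafilter.bind` with `Filter.eventually_bind`.
Then conjugate with `monoEquivOfFin`. -/
theorem UP_hom {κ ι : Type} [Fintype κ] [LinearOrder κ] [Fintype ι] [LinearOrder ι] (e : κ → ι)
    (he : StrictMono e) (P : (κ → ℕ) → Prop) :
    (∀ᶠ w in (UP ι : Filter (ι → ℕ)), P (w ∘ e)) ↔ ∀ᶠ v in (UP κ : Filter (κ → ℕ)), P v := by
  exact ult_mix (fun k => (monoEquivOfFin ι rfl).symm (e k))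
    ((monoEquivOfFin ι rfl).symm.strictMono.comp he) P

/-- Homogeneity: only the order type of the positions matters. Put the order
`LinearOrder.lift' e he` on `κ` and apply `UP_hom` twice. -/
theorem UP_hom' {κ ι ι' : Type} [Fintype κ] [Fintype ι] [LinearOrder ι] [Fintype ι']
    [LinearOrder ι'] (e : κ → ι) (e' : κ → ι') (he : Function.Injective e)
    (h : ∀ a b, e a < e b → e' a < e' b) (P : (κ → ℕ) → Prop) :
    (∀ᶠ w in (UP ι : Filter (ι → ℕ)), P (w ∘ e)) ↔
      ∀ᶠ w in (UP ι' : Filter (ι' → ℕ)), P (w ∘ e') := by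
  let _ : LinearOrder κ := LinearOrder.lift' e he
  exact (UP_hom e (fun _ _ hab => hab) P).trans (UP_hom e' (fun a b hab => h a b hab) P).symm

/-- The first coordinate is the outermost one. Reduce to `UPn (n + 1)` using `UP_hom` for the
order isomorphism between `WithBot κ` and `Fin (card κ + 1)` (and `UP (Fin n) = UPn n`). -/
theorem UP_bot {κ : Type} [Fintype κ] [LinearOrder κ] (P : ℕ → (κ → ℕ) → Prop) :
    (∀ᶠ v in (UP (WithBot κ) : Filter (WithBot κ → ℕ)), P (v ⊥) fun z => v (z : κ)) ↔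
      ∀ᶠ d in (hyperfilter ℕ : Filter ℕ), ∀ᶠ U in (UP κ : Filter (κ → ℕ)), P d U := by
  rw [← ult_mix (n := Fintype.card κ + 1)
    (fun z => WithBot.recBotCoe 0 (fun k => ((monoEquivOfFin κ rfl).symm k).succ) z) ?_, ult_succ]
  · exact Iff.rfl
  · refine WithBot.strictMono_iff.2 ⟨fun a b hab => ?_, fun a => Fin.succ_pos _⟩
    exact Fin.succ_lt_succ_iff.2 ((monoEquivOfFin κ rfl).symm.strictMono hab)

/-- The last coordinate is the innermost one. For `UPn (n + 1)` use induction on `n` and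
`Nat.hyperfilter_le_atTop`. -/
theorem UP_top {κ : Type} [Fintype κ] [LinearOrder κ] (P : (κ → ℕ) → ℕ → Prop)
    (h : ∀ U, ∀ᶠ d in atTop, P U d) :
    ∀ᶠ v in (UP (WithTop κ) : Filter (WithTop κ → ℕ)), P (fun z => v (z : κ)) (v ⊤) := by
  rw [← ult_mix (n := Fintype.card κ + 1) (fun z => WithTop.recTopCoe (Fin.last _)
    (fun k => ((monoEquivOfFin κ rfl).symm k).castSucc) z) ?_]
  · exact ult_top _ (fun U d => P (fun z => U ((monoEquivOfFin κ rfl).symm z)) d) fun U => h _
  · refine WithTop.strictMono_iff.2 ⟨fun a b hab => ?_, fun a => Fin.castSucc_lt_last _⟩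
    exact Fin.castSucc_lt_castSucc_iff.2 ((monoEquivOfFin κ rfl).symm.strictMono hab)

/-- Almost all configurations are increasing (`UP_top` for `κ = Unit` and `UP_hom`). -/
theorem UP_mono (ι : Type) [Fintype ι] [LinearOrder ι] :
    ∀ᶠ w in (UP ι : Filter (ι → ℕ)), StrictMono w := by
  have h1 := ult_top 1 (fun U d => U 0 < d) fun U => eventually_gt_atTop _
  have h2 : ∀ a b : ι, a < b → ∀ᶠ w in (UP ι : Filter (ι → ℕ)), w a < w b := by
    intro a b hab
    have he : StrictMono (![a, b] : Fin 2 → ι) := Fin.strictMono_iff_lt_succ.2 fun i => by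
      rw [Subsingleton.elim i 0]; exact hab
    have h3 := (ult_mix (κ := Fin 2) id strictMono_id fun v => v 0 < v 1).1 h1
    exact (UP_hom _ he fun v => v 0 < v 1).2 h3
  have h4 : ∀ᶠ w in (UP ι : Filter (ι → ℕ)), ∀ a b : ι, a < b → w a < w b :=
    eventually_all.2 fun a => eventually_all.2 fun b => eventually_all.2 (h2 a b)
  exact h4.mono fun w hw a b hab => hw a b hab

/-- Statements about a small configuration hold for each group of a big configuration. -/
theorem UP_sub {K Γ R : Type} [Fintype K] [LinearOrder K] [Fintype Γ] [LinearOrder Γ] [Fintype R]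
    [LinearOrder R] (P : (K ×ₗ R → ℕ) → Prop)
    (h : ∀ᶠ U in (UP (K ×ₗ R) : Filter (K ×ₗ R → ℕ)), P U) :
    ∀ᶠ W in (UP (K ×ₗ (Γ ×ₗ R)) : Filter (K ×ₗ (Γ ×ₗ R) → ℕ)), ∀ j, P (sub W j) := by
  refine eventually_all.2 fun j => ?_
  refine (UP_hom (fun z : K ×ₗ R => (toLex ((ofLex z).1, toLex (j, (ofLex z).2)) :
    K ×ₗ (Γ ×ₗ R))) ?_ P).2 h
  intro x y hxy
  rw [Prod.Lex.lt_iff] at hxy ⊢
  rcases hxy with h1 | ⟨h1, h2⟩
  · exact Or.inl h1
  · exact Or.inr ⟨h1, Prod.Lex.lt_iff.2 (Or.inr ⟨rfl, h2⟩)⟩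

/-- Bounded functions have a limit along an ultrafilter (`IsCompact.ultrafilter_le_nhds` for a
closed ball of `𝕜`). -/
theorem exists_ulim {α : Type} (𝒰 : Ultrafilter α) (f : α → 𝕜) (B : ℝ) (hB : ∀ a, ‖f a‖ ≤ B) :
    ∃ z : 𝕜, ∀ ε : ℝ, 0 < ε → ∀ᶠ a in (𝒰 : Filter α), ‖f a - z‖ ≤ ε := by
  obtain ⟨z, -, hz⟩ := (isCompact_closedBall (0 : 𝕜) B).ultrafilter_le_nhds (𝒰.map f) (by
    rw [Ultrafilter.coe_map, le_principal_iff, Filter.mem_map]
    exact Eventually.of_forall fun a => mem_closedBall_zero_iff.2 (hB a))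
  refine ⟨z, fun ε hε => ?_⟩
  have h1 : Tendsto f 𝒰 (𝓝 z) := hz
  exact (h1.eventually (Metric.closedBall_mem_nhds z hε)).mono fun a ha =>
    mem_closedBall_iff_norm.1 ha

end Pool.Agent.Lib.MP_e0f470_an.Rob
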