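import Pool.Agent.Lib.MP_e0f470_an.RNorm
import Pool.Agent.Lib.MP_e0f470_an.RUlt

/-! Vectors spread over many blocks. -/

set_option autoImplicit false

namespace Pool.Agent.Lib.MP_e0f470_an.Rob

open Finset Filter
open scoped BigOperators Topology

variable {𝕜 : Type} [RCLike 𝕜]

section spread
variable (F : Frame 𝕜) (i : ℕ) {R : Type} [Fintype R]

lemma spread_apply (σ : R → 𝕜) (U : Fin (i + 1) ×ₗ R → ℕ) (u : F.C i → 𝕜) :
    spread F i σ U u = ∑ r, ((Fintype.card R : 𝕜)⁻¹ * σ r) •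
      F.sing ⟨i, fun ρ => U (toLex (ρ, r))⟩ u := by
  unfold spread
  exact LinearMap.sum_apply _ _ u

theorem spread_supp (σ : R → 𝕜) (U : Fin (i + 1) ×ₗ R → ℕ) (u : F.C i → 𝕜) (β : Bk)
    (h : β.1 ≠ i) : spread F i σ U u β = 0 := by
  rw [spread_apply, DFinsupp.finsetSum_apply]
  refine Finset.sum_eq_zero fun r _ => ?_
  rw [DFinsupp.smul_apply, F.sing_apply_ne, smul_zero]
  rintro rfl
  exact h rfl

theorem nrm_spread_le (σ : R → 𝕜) (hσ : ∀ r, ‖σ r‖ ≤ 1) (U : Fin (i + 1) ×ₗ R → ℕ)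
    (u : F.C i → 𝕜) : F.nrm (spread F i σ U u) ≤ 2 * F.ν i u := by
  rw [spread_apply]
  refine (F.nrm_sum_le _ _).trans ?_
  have h0 : 0 ≤ 2 * F.ν i u := by positivity
  have h1 : ∀ r, F.nrm (((Fintype.card R : 𝕜)⁻¹ * σ r) •
      F.sing ⟨i, fun ρ => U (toLex (ρ, r))⟩ u) ≤ (Fintype.card R : ℝ)⁻¹ * (2 * F.ν i u) := fun r => by
    rw [F.nrm_smul, norm_mul, norm_inv, RCLike.norm_natCast, mul_assoc]
    refine mul_le_mul_of_nonneg_left ?_ (by positivity)
    exact (mul_le_of_le_one_left (F.nrm_nonneg _) (hσ r)).trans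
      (F.nrm_sing_le ⟨i, fun ρ => U (toLex (ρ, r))⟩ u)
  refine (Finset.sum_le_sum fun r _ => h1 r).trans ?_
  rw [← Finset.mul_sum]
  exact ra_le_of_le (f := fun _ : R => 2 * F.ν i u) h0 fun _ => le_rfl

/-- For increasing `U` the blocks used are different and form a chain (`co_mk`), so
`chain_sum_le_N2` applies. -/
theorem le_nrm_spread [LinearOrder R] [Nonempty R] (σ : R → 𝕜) (hσ : ∀ r, ‖σ r‖ = 1)
    (hL : Fintype.card R ≤ F.L i) (U : Fin (i + 1) ×ₗ R → ℕ) (hU : StrictMono U)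
    (u : F.C i → 𝕜) : F.ν i u ≤ F.nrm (spread F i σ U u) := by
  classical
  set B : R → Bk := fun r => ⟨i, fun ρ => U (toLex (ρ, r))⟩ with hB
  have hco : ∀ r ρ (h : ρ < i + 1), co (B r) ρ = U (toLex (⟨ρ, h⟩, r)) := fun r ρ h =>
    co_mk (fun ρ => U (toLex (ρ, r))) ⟨ρ, h⟩
  have hprec : ∀ r r', r < r' → Prec (B r) (B r') := fun r r' h => by
    refine ⟨rfl, fun ρ hρ => ?_, fun ρ hρ => ?_⟩
    · have hρ' : ρ < i + 1 := Nat.lt_succ_of_le hρ
      rw [hco r ρ hρ', hco r' ρ hρ']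
      exact hU (Prod.Lex.toLex_lt_toLex.2 (Or.inr ⟨rfl, h⟩))
    · have hρ' : ρ < i := hρ
      rw [hco r' ρ (by omega), hco r (ρ + 1) (by omega)]
      exact hU (Prod.Lex.toLex_lt_toLex.2 (Or.inl (by simp [Fin.lt_def])))
  have hinj : Function.Injective B := fun r r' h => by
    have h1 : co (B r) 0 = co (B r') 0 := by rw [h]
    rw [hco r 0 (by omega), hco r' 0 (by omega)] at h1
    simpa using hU.injective h1
  have hchain : F.Chain (univ.image B) := by
    refine ⟨fun β hβ β' hβ' hne => ?_, fun β hβ => ?_⟩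
    · obtain ⟨r, -, rfl⟩ := Finset.mem_image.1 hβ
      obtain ⟨r', -, rfl⟩ := Finset.mem_image.1 hβ'
      rcases lt_trichotomy r r' with h | h | h
      · exact Or.inl (hprec _ _ h)
      · exact absurd (by rw [h]) hne
      · exact Or.inr (hprec _ _ h)
    · obtain ⟨r, -, rfl⟩ := Finset.mem_image.1 hβ
      exact Finset.card_image_le.trans hL
  refine le_trans ?_ ((F.chain_sum_le_N2 hchain _).trans (F.N2_le_nrm _))
  rw [Finset.sum_image fun r _ r' _ h => hinj h]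
  have h2 : ∀ r, F.ν (B r).1 (spread F i σ U u (B r)) = (Fintype.card R : ℝ)⁻¹ * F.ν i u :=
    fun r => by
    have h3 : spread F i σ U u (B r) = ((Fintype.card R : 𝕜)⁻¹ * σ r) • u := by
      rw [spread_apply, DFinsupp.finsetSum_apply, Finset.sum_eq_single r]
      · rw [DFinsupp.smul_apply]
        exact congrArg _ (F.sing_apply_self (B r) u)
      · intro r' _ hr'
        rw [DFinsupp.smul_apply]
        exact (congrArg _ (F.sing_apply_ne (β := B r') (fun h => hr' (hinj h).symm) u)).trans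
          (smul_zero _)
      · simp
    rw [h3]
    change F.ν i (((Fintype.card R : 𝕜)⁻¹ * σ r) • u) = _
    rw [map_smul_eq_mul, norm_mul, norm_inv, RCLike.norm_natCast, hσ, mul_one]
  simp only [h2, ← Finset.mul_sum]
  exact (ra_const (α := R) (F.ν i u)).ge

theorem spread_lex {Γ : Type} [Fintype Γ] (s : Γ → 𝕜) (σ : R → 𝕜)
    (W : Fin (i + 1) ×ₗ (Γ ×ₗ R) → ℕ) (u : F.C i → 𝕜) :
    spread F i (fun z : Γ ×ₗ R => s (ofLex z).1 * σ (ofLex z).2) W u =
      av 𝕜 fun j => s j • spread F i σ (sub W j) u := by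
  rw [spread_apply, av, ← (toLex : Γ × R ≃ Γ ×ₗ R).sum_comp, Fintype.sum_prod_type,
    Finset.smul_sum]
  refine Finset.sum_congr rfl fun j _ => ?_
  rw [spread_apply, Finset.smul_sum, Finset.smul_sum]
  refine Finset.sum_congr rfl fun r _ => ?_
  rw [smul_smul, smul_smul, Fintype.card_lex, Fintype.card_prod]
  congr 1
  simp only [ofLex_toLex]
  push_cast
  rw [mul_inv]
  ring

end spread

end Pool.Agent.Lib.MP_e0f470_an.Rob
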