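import Pool.Agent.Lib.MP_e0f470_an.RLev
import Pool.Agent.Lib.MP_e0f470_an.RInc
import Pool.Agent.Lib.MP_e0f470_an.RSpr

/-! From one level of the collapse to the next. -/

set_option autoImplicit false

namespace Pool.Agent.Lib.MP_e0f470_an.Rob

open Finset Filter
open scoped BigOperators Topology

variable {𝕜 : Type} [RCLike 𝕜]

variable {J X Ω Φ : Type} [Fintype J] [Fintype X] [Fintype Ω] [Fintype Φ] [DecidableEq J]
  [DecidableEq Φ] {T : ℕ} {x : X → J → 𝕜} {W : Φ → Φ → ℝ} {ξ : Fin T × Ω → Φ → Bool × J} {ε : ℝ}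

lemma inda_num {n c η : ℝ} (hn : 1 ≤ n) (hη : 0 ≤ η) :
    n⁻¹ * (4 * √n * (3 * c) + η) ≤ η + 12 * c / √n := by
  have h0 : 0 < n := by linarith
  have h1 : 0 < √n := Real.sqrt_pos.2 h0
  have h2 : √n * √n = n := Real.mul_self_sqrt h0.le
  have h3 : n⁻¹ * (4 * √n * (3 * c)) = 12 * c / √n := by
    rw [eq_div_iff h1.ne']
    have : n⁻¹ * (4 * √n * (3 * c)) * √n = 12 * c * (n⁻¹ * (√n * √n)) := by ring
    rw [this, h2, inv_mul_cancel₀ h0.ne', mul_one]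
  have h4 : n⁻¹ * η ≤ η := mul_le_of_le_one_left hη (inv_le_one_of_one_le₀ hn)
  rw [mul_add, h3]
  linarith

lemma inda_split {V Γ : Type} [AddCommGroup V] [Module 𝕜 V] [Fintype Γ] (p : Seminorm 𝕜 V)
    (s : Γ → 𝕜) (hs : ∀ j, ‖s j‖ ≤ 1) (A Z : Γ → V) (g : Γ → ℝ) (hg : ∀ j, p (A j + Z j) ≤ g j)
    (B : ℝ) (hB : p (∑ j, s j • Z j) ≤ B) :
    p (av 𝕜 fun j => s j • A j) ≤ ra g + (Fintype.card Γ : ℝ)⁻¹ * B := by
  have e : (av 𝕜 fun j => s j • A j) =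
      (av 𝕜 fun j => s j • (A j + Z j)) - av 𝕜 fun j => s j • Z j := by
    rw [← av_sub]
    congr 1
    funext j
    rw [smul_add, add_sub_cancel_right]
  have h1 : p (av 𝕜 fun j => s j • (A j + Z j)) ≤ ra g := by
    refine (seminorm_av_le p _).trans (ra_mono fun j => ?_)
    rw [map_smul_eq_mul]
    exact (mul_le_of_le_one_left (apply_nonneg _ _) (hs j)).trans (hg j)
  have h2 : p (av 𝕜 fun j => s j • Z j) ≤ (Fintype.card Γ : ℝ)⁻¹ * B := by
    rw [av, map_smul_eq_mul, norm_inv, RCLike.norm_natCast]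
    exact mul_le_mul_of_nonneg_left hB (by positivity)
  rw [e]
  exact (map_sub_le_add p _ _).trans (add_le_add h1 h2)

/-- From one level to the next. For each `U` take `Z U`, `g U` from `level` for
`𝒥 = spread F i σ U ∘ ι`. For almost all `W'` all groups `sub W' j` satisfy the hypothesis
(`UP_sub`), and the conclusion of `incoherent` (with error `η`) holds for the finitely many
families `fun U => Z U cs τs xs` (`Filter.eventually_all`). By `spread_lex` the new vector is the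
average of `s j • (old vector + Z)` minus the average of `s j • Z`. -/
theorem level_ult [Nonempty J] [Nonempty X] [Nonempty Ω] [Nonempty Φ] (F : Frame 𝕜) (i : ℕ)
    (hN : Nice x) (hR : Rig x W ξ ε) (hC : Cap F i x ξ ε) (hε : 0 ≤ ε) (p : Seminorm 𝕜 F.D)
    (M : ℝ) (hp : F.Ren p M) (ι : ((Fin T → Φ) → 𝕜) →ₗ[𝕜] (F.C i → 𝕜))
    (hι : ∀ u, F.ν i (ι u) = bn x W ξ u)
    (H : ∀ a : (J → 𝕜) →ₗ[𝕜] F.D, (∀ y β, β.1 ≠ i → a y β = 0) → ¬ Fac x p a) (t : ℕ)
    (ht : t < T) (η : ℝ) (hη : 0 < η) (hη1 : η ≤ 1) {Γ R : Type} [Fintype Γ] [LinearOrder Γ]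
    [Nonempty Γ] [Fintype R] [LinearOrder R] (s : Γ → 𝕜) (hs : ∀ j, ‖s j‖ ≤ 1)
    (hs0 : ∑ j, s j = 0) (σ : R → 𝕜) (hσ : ∀ r, ‖σ r‖ ≤ 1) (Λ : ℝ)
    (hΛ : ∀ᶠ U in (UP (Fin (i + 1) ×ₗ R) : Filter (Fin (i + 1) ×ₗ R → ℕ)),
      lam x W ξ p (spread F i σ U ∘ₗ ι) t ≤ Λ) :
    ∀ᶠ W' in (UP (Fin (i + 1) ×ₗ (Γ ×ₗ R)) : Filter (Fin (i + 1) ×ₗ (Γ ×ₗ R) → ℕ)),
      lam x W ξ p (spread F i (fun z : Γ ×ₗ R => s (ofLex z).1 * σ (ofLex z).2) W' ∘ₗ ι) (t + 1) ≤
        Λ / 2 + (2 * η + (Fintype.card X : ℝ) ^ T * (30 * (Fintype.card J : ℝ) ^ 2 * M * ε) +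
          12 * Fintype.card J * M / √(Fintype.card Γ)) := by
  have hl := fun U : Fin (i + 1) ×ₗ R → ℕ =>
    level F i hN hR hC hε p M hp (spread F i σ U ∘ₗ ι)
      (fun u => by
        rw [← hι u]
        exact nrm_spread_le F i σ hσ U (ι u))
      (fun u β hβ => spread_supp F i σ U (ι u) β hβ) H t ht η hη hη1
  choose Z g hZ0 hZb hZp hg using hl
  have h1 := UP_sub (Γ := Γ) (fun U => lam x W ξ p (spread F i σ U ∘ₗ ι) t ≤ Λ) hΛ
  have h2 : ∀ᶠ W' in (UP (Fin (i + 1) ×ₗ (Γ ×ₗ R)) : Filter (Fin (i + 1) ×ₗ (Γ ×ₗ R) → ℕ)),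
      ∀ q : (Fin T → Φ) × (Fin T → Ω) × (Fin T → X),
        F.nrm (∑ j, s j • Z (sub W' j) q.1 q.2.1 q.2.2) ≤
          4 * √(Fintype.card Γ) * (3 * Fintype.card J * M) + η :=
    Filter.eventually_all.2 fun q => incoherent F i s hs hs0 (fun U => Z U q.1 q.2.1 q.2.2)
      (fun U β hβ => hZ0 U _ _ _ β hβ) _ (fun U => hZb U _ _ _) η hη
  filter_upwards [h1, h2] with W' h1 h2
  have hn : (1 : ℝ) ≤ Fintype.card Γ := by exact_mod_cast Fintype.card_pos
  have hnum := inda_num (c := Fintype.card J * M) hn hη.le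
  set e : ℝ := η + 12 * (Fintype.card J * M) / √(Fintype.card Γ) with he
  have h3 : lam x W ξ p
      (spread F i (fun z : Γ ×ₗ R => s (ofLex z).1 * σ (ofLex z).2) W' ∘ₗ ι) (t + 1) ≤
      ra fun cs => ra fun τs => (ra fun j => g (sub W' j) cs τs) + e := by
    refine ra_mono fun cs => ra_mono fun τs => ciSup_le fun xs => ?_
    rw [LinearMap.comp_apply, spread_lex]
    refine (inda_split p s hs _ (fun j => Z (sub W' j) cs τs xs) (fun j => g (sub W' j) cs τs)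
      (fun j => hZp (sub W' j) cs τs xs) _ ((hp.2.1 _).trans (h2 (cs, τs, xs)))).trans ?_
    rw [mul_assoc (3 : ℝ)]
    linarith
  have h4 : (ra fun cs => ra fun τs => (ra fun j => g (sub W' j) cs τs) + e) =
      (ra fun j => ra fun cs => ra fun τs => g (sub W' j) cs τs) + e := by
    simp only [ra_add, ra_const]
    congr 1
    rw [ra_comm (fun j cs => ra fun τs => g (sub W' j) cs τs)]
    congr 1
    funext cs
    exact ra_comm _
  have h5 : (ra fun j => ra fun cs => ra fun τs => g (sub W' j) cs τs) ≤ Λ / 2 + η +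
      (Fintype.card X : ℝ) ^ T * (30 * (Fintype.card J : ℝ) ^ 2 * M * ε) := by
    refine ra_le_of_le' fun j => (hg (sub W' j)).trans ?_
    have := h1 j
    linarith
  rw [h4] at h3
  rw [mul_assoc (12 : ℝ)]
  linarith

end Pool.Agent.Lib.MP_e0f470_an.Rob
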