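import Pool.Agent.Lib.MP_e0f470_an.RAvg

/-! Walsh matrices, grids and the choice of the parameters. -/

set_option autoImplicit false

namespace Pool.Agent.Lib.MP_e0f470_an.Rob

open Finset Filter
open scoped BigOperators Topology

variable {𝕜 : Type} [RCLike 𝕜]

/-- Walsh functions are orthogonal (`Finset.prod_univ_sum`). -/
theorem had_walsh (k : ℕ) : Had (walsh : (Fin k → Bool) → (Fin k → Bool) → ℝ) := by
  refine ⟨fun S c => ?_, fun c c' => ?_⟩
  · unfold walsh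
    rw [Finset.abs_prod]
    refine Finset.prod_le_one (fun i _ => abs_nonneg _) fun i _ => ?_
    split_ifs <;> simp
  · unfold walsh
    have h1 : ∀ S : Fin k → Bool,
        ((∏ i, if S i && c i then (-1 : ℝ) else 1) * ∏ i, if S i && c' i then (-1 : ℝ) else 1) =
          ∏ i, (if S i && c i then (-1 : ℝ) else 1) * (if S i && c' i then (-1 : ℝ) else 1) :=
      fun S => Finset.prod_mul_distrib.symm
    simp only [h1]
    have h2 := Finset.prod_univ_sum (fun _ : Fin k => (univ : Finset Bool))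
      (fun i s => (if s && c i then (-1 : ℝ) else 1) * (if s && c' i then (-1 : ℝ) else 1))
    rw [Fintype.piFinset_univ] at h2
    rw [← h2]
    have h3 : ∀ i, (∑ s : Bool, (if s && c i then (-1 : ℝ) else 1) *
        (if s && c' i then (-1 : ℝ) else 1)) = if c i = c' i then 2 else 0 := by
      intro i
      rw [Fintype.sum_bool]
      cases c i <;> cases c' i <;> norm_num
    simp only [h3]
    split_ifs with h
    · subst h
      simp
    · obtain ⟨i, hi⟩ := Function.ne_iff.1 h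
      exact Finset.prod_eq_zero (Finset.mem_univ i) (if_neg hi)

theorem par_real {Φ : Type} [Fintype Φ] [DecidableEq Φ] {W : Φ → Φ → ℝ} (hW : Had W) (r : Φ → ℝ) :
    ∑ S, (∑ c, r c * W S c) ^ 2 = (Fintype.card Φ : ℝ) * ∑ c, r c ^ 2 := by
  have h1 : ∀ S, (∑ c, r c * W S c) ^ 2 = ∑ c, ∑ c', r c * r c' * (W S c * W S c') := by
    intro S
    rw [sq, Finset.sum_mul_sum]
    refine Finset.sum_congr rfl fun c _ => Finset.sum_congr rfl fun c' _ => ?_
    ring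
  simp only [h1]
  rw [Finset.sum_comm, Finset.mul_sum]
  refine Finset.sum_congr rfl fun c _ => ?_
  rw [Finset.sum_comm]
  have h2 : ∀ c', ∑ S, r c * r c' * (W S c * W S c') =
      if c = c' then r c * r c' * (Fintype.card Φ : ℝ) else 0 := by
    intro c'
    rw [← Finset.mul_sum, hW.2]
    split_ifs <;> simp
  simp only [h2]
  rw [Finset.sum_ite_eq, if_pos (Finset.mem_univ c)]
  ring

/-- Parseval's inequality (expand `‖z‖ ^ 2` as `re ^ 2 + im ^ 2`, or as `z * conj z`). -/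
theorem parseval {Φ : Type} [Fintype Φ] [DecidableEq Φ] {W : Φ → Φ → ℝ} (hW : Had W) (u : Φ → 𝕜)
    (B : ℝ) (h : ∀ S, ‖∑ c, u c * ((W S c : ℝ) : 𝕜)‖ ≤ B) : ∑ c, ‖u c‖ ^ 2 ≤ B ^ 2 := by
  have hn : ∀ z : 𝕜, ‖z‖ ^ 2 = RCLike.re z ^ 2 + RCLike.im z ^ 2 := fun z => by
    rw [RCLike.norm_sq_eq_def]
    ring
  have h1 : ∑ S, ‖∑ c, u c * ((W S c : ℝ) : 𝕜)‖ ^ 2 = (Fintype.card Φ : ℝ) * ∑ c, ‖u c‖ ^ 2 := by
    simp only [hn, map_sum, RCLike.mul_re, RCLike.mul_im, RCLike.ofReal_re, RCLike.ofReal_im,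
      mul_zero, sub_zero, zero_add]
    rw [Finset.sum_add_distrib, Finset.sum_add_distrib, mul_add,
      par_real hW fun c => RCLike.re (u c), par_real hW fun c => RCLike.im (u c)]
  have h2 : ∑ S, ‖∑ c, u c * ((W S c : ℝ) : 𝕜)‖ ^ 2 ≤ (Fintype.card Φ : ℝ) * B ^ 2 := by
    calc ∑ S, ‖∑ c, u c * ((W S c : ℝ) : 𝕜)‖ ^ 2 ≤ ∑ _S : Φ, B ^ 2 :=
          Finset.sum_le_sum fun S _ => pow_le_pow_left₀ (norm_nonneg _) (h S) 2
      _ = (Fintype.card Φ : ℝ) * B ^ 2 := by simp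
  rcases isEmpty_or_nonempty Φ with hΦ | hΦ
  · simp only [Finset.univ_eq_empty, Finset.sum_empty]
    positivity
  · have hc : (0 : ℝ) < Fintype.card Φ := by exact_mod_cast Fintype.card_pos
    rw [h1] at h2
    exact le_of_mul_le_mul_left h2 hc

theorem par_round (R : ℕ) (hR : 1 ≤ R) (t : ℝ) (ht : |t| ≤ 1) :
    ∃ m : Fin (2 * R + 1), |(((m : ℕ) : ℝ) - R) / R - t| ≤ 1 / R := by
  have hR' : (0 : ℝ) < R := by exact_mod_cast hR
  obtain ⟨h1, h2⟩ := abs_le.1 ht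
  have h0 : 0 ≤ R * t + R := by nlinarith
  have h3 : R * t + R ≤ ((2 * R : ℕ) : ℝ) := by
    push_cast
    nlinarith
  have h4 : ⌊R * t + R⌋₊ ≤ 2 * R := Nat.floor_le_of_le h3
  refine ⟨⟨⌊R * t + R⌋₊, Nat.lt_succ_of_le h4⟩, ?_⟩
  have h5 := Nat.floor_le h0
  have h6 := Nat.lt_floor_add_one (R * t + R)
  have e : ((⌊R * t + R⌋₊ : ℝ) - R) / R - t = ((⌊R * t + R⌋₊ : ℝ) - (R * t + R)) / R := by
    field_simp
    ring
  change |((⌊R * t + R⌋₊ : ℝ) - R) / R - t| ≤ 1 / R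
  rw [e, abs_div, abs_of_pos hR']
  refine div_le_div_of_nonneg_right (abs_le.2 ⟨?_, ?_⟩) hR'.le <;> linarith

/-- Every point of the unit disc is close to a grid point (round down `R * re z + R` and
`R * im z + R`; note `z = re z + im z * I` and `‖I‖ ≤ 1`). -/
theorem exists_grid (R : ℕ) (hR : 1 ≤ R) (z : 𝕜) (hz : ‖z‖ ≤ 1) :
    ∃ g, ‖grid 𝕜 R g - z‖ ≤ 2 / R := by
  obtain ⟨m1, h1⟩ := par_round R hR (RCLike.re z) ((RCLike.abs_re_le_norm z).trans hz)
  obtain ⟨m2, h2⟩ := par_round R hR (RCLike.im z) ((RCLike.abs_im_le_norm z).trans hz)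
  refine ⟨(m1, m2), ?_⟩
  have e : grid 𝕜 R (m1, m2) - z = (((((m1 : ℕ) : ℝ) - R) / R - RCLike.re z : ℝ) : 𝕜) +
      (((((m2 : ℕ) : ℝ) - R) / R - RCLike.im z : ℝ) : 𝕜) * RCLike.I := by
    unfold grid
    rw [RCLike.ofReal_sub _ (RCLike.re z), RCLike.ofReal_sub _ (RCLike.im z)]
    linear_combination RCLike.re_add_im z
  have hI : ‖(RCLike.I : 𝕜)‖ ≤ 1 := by
    rcases eq_or_ne (RCLike.I : 𝕜) 0 with h | h
    · simp [h]
    · exact (RCLike.norm_I_of_ne_zero h).le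
  rw [e]
  refine (norm_add_le _ _).trans ?_
  rw [norm_mul, RCLike.norm_ofReal, RCLike.norm_ofReal]
  have h3 := mul_le_of_le_one_right (abs_nonneg ((((m2 : ℕ) : ℝ) - R) / R - RCLike.im z)) hI
  have h4 : (2 : ℝ) / R = 1 / R + 1 / R := by ring
  linarith

theorem par_tendsto (p : Polynomial ℝ) {c : ℝ} (hc : 0 < c) :
    Tendsto (fun k : ℕ => p.eval ((2 : ℝ) ^ k) * Real.exp (-(c * 2 ^ k))) atTop (𝓝 0) := by
  have h1 := Polynomial.tendsto_div_exp_atTop (p.comp (Polynomial.C c⁻¹ * Polynomial.X))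
  have h2 : Tendsto (fun k : ℕ => c * (2 : ℝ) ^ k) atTop atTop :=
    (tendsto_pow_atTop_atTop_of_one_lt one_lt_two).const_mul_atTop hc
  refine (h1.comp h2).congr fun k => ?_
  simp only [Function.comp, Polynomial.eval_comp, Polynomial.eval_mul, Polynomial.eval_C,
    Polynomial.eval_X]
  rw [inv_mul_cancel_left₀ hc.ne', Real.exp_neg, div_eq_mul_inv]

/-- The choice of the parameters. With `q = 2 ^ k`, `n = q ^ 4`, take `R = 2 * n ^ (T + 1)` and
`N = 2 * T + 2 * n ^ (T + 1) * (2 * R + 1)`. The left side of the third inequality is a polynomial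
in `q` times `exp (- ε ^ 2 q / 64)` and tends to zero
(`tendsto_pow_mul_exp_neg_atTop_nhds_zero`). For the last one use `y ≤ exp y`. -/
theorem exists_params (a b T : ℕ) (ε : ℝ) (hε : 0 < ε) : ∃ k N R : ℕ, 1 ≤ R ∧
    ((16 : ℝ) ^ k) ^ T * (2 / R) ≤ ε ∧
    (b : ℝ) * (((N : ℝ) + 1) * a + 2 * 16 ^ k) ^ T * (a + 2) *
      (16 * Real.exp (-(ε ^ 2 * 2 ^ k / 64))) ≤ Real.exp (-(4 / ε)) ∧
    2 * (T : ℝ) * ((2 * (R : ℝ) + 1) ^ 2) ^ (16 ^ k * (16 ^ k) ^ T) *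
      Real.exp (((N : ℝ) + 1) * (1 - 4 / ε * ε)) < 1 := by
  have hc : 0 < ε ^ 2 / 64 := by positivity
  have h1 := par_tendsto (Polynomial.C (b : ℝ) * ((Polynomial.C (2 * (T : ℝ)) +
    2 * (Polynomial.X ^ 4) ^ (T + 1) * (2 * (2 * (Polynomial.X ^ 4) ^ (T + 1)) + 1) + 1) *
      Polynomial.C (a : ℝ) + 2 * Polynomial.X ^ 4) ^ T * Polynomial.C (((a : ℝ) + 2) * 16)) hc
  have h2 := h1.eventually (gt_mem_nhds (Real.exp_pos (-(4 / ε))))
  have h3 : ∀ᶠ k : ℕ in atTop, ε⁻¹ ≤ (16 : ℝ) ^ k :=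
    (tendsto_pow_atTop_atTop_of_one_lt (by norm_num : (1 : ℝ) < 16)).eventually_ge_atTop _
  obtain ⟨k, hk2, hk3⟩ := (h2.and h3).exists
  have h16 : ((2 : ℝ) ^ k) ^ 4 = 16 ^ k := by
    rw [← pow_mul, mul_comm, pow_mul]
    norm_num
  have hn : (0 : ℝ) < 16 ^ k := by positivity
  refine ⟨k, 2 * T + 2 * (16 ^ k) ^ (T + 1) * (2 * (2 * (16 ^ k) ^ (T + 1)) + 1),
    2 * (16 ^ k) ^ (T + 1), ?_, ?_, ?_, ?_⟩
  · have : 0 < 2 * (16 ^ k) ^ (T + 1) := by positivity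
    exact this
  · push_cast
    have e : ((16 : ℝ) ^ k) ^ T * (2 / (2 * (16 ^ k) ^ (T + 1))) = (16 ^ k)⁻¹ := by
      rw [pow_succ]
      field_simp
    rw [e]
    exact inv_le_of_inv_le₀ hε hk3
  · simp only [Polynomial.eval_mul, Polynomial.eval_add, Polynomial.eval_pow, Polynomial.eval_C,
      Polynomial.eval_X, Polynomial.eval_one, Polynomial.eval_ofNat, h16] at hk2
    refine le_trans (le_of_eq ?_) hk2.le
    push_cast
    rw [show ε ^ 2 * 2 ^ k / 64 = ε ^ 2 / 64 * 2 ^ k by ring]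
    ring
  · have e1 : 1 - 4 / ε * ε = -3 := by
      field_simp
      norm_num
    rw [e1, ← pow_succ']
    generalize (16 ^ k) ^ (T + 1) = m
    push_cast
    have hm : (0 : ℝ) ≤ m := Nat.cast_nonneg m
    have hT : (0 : ℝ) ≤ T := Nat.cast_nonneg T
    have h4 : 2 * (T : ℝ) ≤ Real.exp (2 * T) := by linarith [Real.add_one_le_exp (2 * (T : ℝ))]
    have h5 : 2 * (2 * (m : ℝ)) + 1 ≤ Real.exp (2 * (2 * m) + 1) := by
      linarith [Real.add_one_le_exp (2 * (2 * (m : ℝ)) + 1)]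
    have h6 : ((2 * (2 * (m : ℝ)) + 1) ^ 2) ^ m ≤ Real.exp (2 * m * (2 * (2 * m) + 1)) := by
      rw [← pow_mul]
      refine (pow_le_pow_left₀ (by positivity) h5 _).trans (le_of_eq ?_)
      rw [← Real.exp_nat_mul]
      push_cast
      rfl
    calc 2 * (T : ℝ) * ((2 * (2 * (m : ℝ)) + 1) ^ 2) ^ m *
          Real.exp ((2 * T + 2 * m * (2 * (2 * m) + 1) + 1) * -3)
        ≤ Real.exp (2 * T) * Real.exp (2 * m * (2 * (2 * m) + 1)) *
          Real.exp ((2 * T + 2 * m * (2 * (2 * m) + 1) + 1) * -3) := by gcongr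
      _ < 1 := by
        rw [← Real.exp_add, ← Real.exp_add, Real.exp_lt_one_iff]
        have : 0 ≤ 2 * (m : ℝ) * (2 * (2 * m) + 1) := by positivity
        linarith

end Pool.Agent.Lib.MP_e0f470_an.Rob
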