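import Pool.Agent.Lib.MP_e0f470_an.RAvg

/-! Many conditionally unlikely events are very unlikely. -/

set_option autoImplicit false

namespace Pool.Agent.Lib.MP_e0f470_an.Rob

open Finset Filter
open scoped BigOperators Topology

variable {𝕜 : Type} [RCLike 𝕜]

/-- Show by induction on `s` (`Finset.induction_on_max`) that the average of
`∏ k ∈ s, (1 + exp a * 1_{bad k})` is at most `2 ^ s.card`: resample the coordinate `e k` of the
largest `k` (`ra_update`), which does not change the other factors. If the proportion of bad `k`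
exceeds `θ`, the product is at least `exp (a * θ * card K)`; use `pr_le_ra` and `2 ≤ exp 1`. -/
theorem peel {I A K : Type} [Fintype I] [DecidableEq I] [Fintype A] [Nonempty A] [Fintype K]
    [LinearOrder K] (e : K → I) (bad : K → (I → A) → Prop)
    (hdep : ∀ k k', k < k' → ∀ ξ r, bad k (Function.update ξ (e k') r) ↔ bad k ξ) (a θ : ℝ)
    (ha : 0 ≤ a) (hsmall : ∀ k ξ, pr (fun r => bad k (Function.update ξ (e k) r)) ≤ Real.exp (-a)) :
    pr (fun ξ => θ < pr fun k => bad k ξ) ≤ Real.exp (Fintype.card K * (1 - a * θ)) := by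
  classical
  set g : K → (I → A) → ℝ := fun k ξ => 1 + Real.exp a * if bad k ξ then 1 else 0 with hg
  have hg0 : ∀ k ξ, 0 ≤ g k ξ := fun k ξ => by
    simp only [hg]
    split_ifs <;> positivity
  have hind : ∀ s : Finset K, (ra fun ξ => ∏ k ∈ s, g k ξ) ≤ 2 ^ s.card := by
    intro s
    induction s using Finset.induction_on_max with
    | empty => simpa using (ra_const (α := I → A) 1).le
    | insert k s hk ih =>
      have hks : k ∉ s := fun h => lt_irrefl _ (hk k h)
      rw [ra_update (e k), Finset.card_insert_of_notMem hks, pow_succ]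
      refine le_trans (ra_mono (g := fun ξ => (∏ k ∈ s, g k ξ) * 2) fun ξ => ?_) ?_
      · have h1 : ∀ r, ∏ k' ∈ insert k s, g k' (Function.update ξ (e k) r) =
            (∏ k' ∈ s, g k' ξ) * g k (Function.update ξ (e k) r) := fun r => by
          rw [Finset.prod_insert hks, mul_comm]
          congr 1
          refine Finset.prod_congr rfl fun k' hk' => ?_
          simp only [hg, hdep k' k (hk k' hk') ξ r]
        simp only [h1, ra_const_mul]
        refine mul_le_mul_of_nonneg_left ?_ (Finset.prod_nonneg fun k' _ => hg0 _ _)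
        simp only [hg]
        rw [ra_add, ra_const, ra_const_mul]
        have h2 : Real.exp a * pr (fun r => bad k (Function.update ξ (e k) r)) ≤ 1 := by
          refine (mul_le_mul_of_nonneg_left (hsmall k ξ) (Real.exp_pos a).le).trans ?_
          rw [← Real.exp_add]
          simp
        have h3 : (ra fun r => if bad k (Function.update ξ (e k) r) then (1 : ℝ) else 0) =
            pr (fun r => bad k (Function.update ξ (e k) r)) := by
          unfold pr
          congr
        rw [h3]
        linarith
      · rw [ra_mul_const]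
        exact mul_le_mul_of_nonneg_right ih (by norm_num)
  have hlow : ∀ ξ, θ < pr (fun k => bad k ξ) →
      1 ≤ Real.exp (-(a * θ * Fintype.card K)) * ∏ k, g k ξ := fun ξ hξ => by
    have h1 : ∀ k, Real.exp (a * if bad k ξ then 1 else 0) ≤ g k ξ := fun k => by
      simp only [hg]
      split_ifs <;> simp
    have h2 : Real.exp (a * ∑ k, if bad k ξ then (1 : ℝ) else 0) ≤ ∏ k, g k ξ := by
      rw [Finset.mul_sum, Real.exp_sum]
      exact Finset.prod_le_prod (fun k _ => (Real.exp_pos _).le) fun k _ => h1 k
    have h3 : θ * Fintype.card K ≤ ∑ k, if bad k ξ then (1 : ℝ) else 0 := by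
      have h4 : pr (fun k => bad k ξ) =
          (Fintype.card K : ℝ)⁻¹ * ∑ k, if bad k ξ then (1 : ℝ) else 0 := by
        unfold pr ra
        congr
      rcases Nat.eq_zero_or_pos (Fintype.card K) with h5 | h5
      · rw [h5, Nat.cast_zero, mul_zero]
        exact Finset.sum_nonneg fun k _ => by split_ifs <;> norm_num
      · have h6 : (0 : ℝ) < Fintype.card K := by exact_mod_cast h5
        rw [h4, lt_inv_mul_iff₀ h6] at hξ
        linarith
    refine le_trans ?_ (mul_le_mul_of_nonneg_left h2 (Real.exp_pos _).le)
    rw [← Real.exp_add]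
    refine Real.one_le_exp ?_
    nlinarith [mul_le_mul_of_nonneg_left h3 ha]
  refine (pr_le_ra (fun ξ => mul_nonneg (Real.exp_pos _).le
    (Finset.prod_nonneg fun k _ => hg0 _ _)) hlow).trans ?_
  rw [ra_const_mul]
  have h7 : (2 : ℝ) ^ Fintype.card K ≤ Real.exp (Fintype.card K) := by
    rw [← Real.exp_one_pow]
    exact pow_le_pow_left₀ (by norm_num) (by linarith [Real.add_one_le_exp (1 : ℝ)]) _
  refine (mul_le_mul_of_nonneg_left ((hind univ).trans h7) (Real.exp_pos _).le).trans ?_
  rw [← Real.exp_add]
  exact le_of_eq (by congr 1; ring)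

/-- The same with the reverse order (apply `peel` to `Kᵒᵈ`). -/
theorem peel' {I A K : Type} [Fintype I] [DecidableEq I] [Fintype A] [Nonempty A] [Fintype K]
    [LinearOrder K] (e : K → I) (bad : K → (I → A) → Prop)
    (hdep : ∀ k k', k' < k → ∀ ξ r, bad k (Function.update ξ (e k') r) ↔ bad k ξ) (a θ : ℝ)
    (ha : 0 ≤ a) (hsmall : ∀ k ξ, pr (fun r => bad k (Function.update ξ (e k) r)) ≤ Real.exp (-a)) :
    pr (fun ξ => θ < pr fun k => bad k ξ) ≤ Real.exp (Fintype.card K * (1 - a * θ)) := by
  exact peel (K := Kᵒᵈ) e bad (fun k k' h => hdep k k' h) a θ ha hsmall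

end Pool.Agent.Lib.MP_e0f470_an.Rob
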