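import Pool.Agent.Lib.MP_e0f470_an.RRowA

/-! Tail bounds for one random row: the quadratic term. -/

set_option autoImplicit false

namespace Pool.Agent.Lib.MP_e0f470_an.Rob

open Finset Filter
open scoped BigOperators Topology

variable {𝕜 : Type} [RCLike 𝕜]

/-- Resampling: the coordinates in `I` and outside `I` may be taken from two independent copies. -/
lemma rowB_mix {Φ : Type} [Fintype Φ] [DecidableEq Φ] (I : Finset Φ) (f : (Φ → Bool) → ℝ) :
    ra f = ra fun e' : Φ → Bool => ra fun e : Φ → Bool =>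
      f fun c => if c ∈ I then e c else e' c := by
  let σ : (Φ → Bool) × (Φ → Bool) ≃ (Φ → Bool) × (Φ → Bool) :=
    { toFun := fun z => (fun c => if c ∈ I then z.2 c else z.1 c,
        fun c => if c ∈ I then z.1 c else z.2 c)
      invFun := fun z => (fun c => if c ∈ I then z.2 c else z.1 c,
        fun c => if c ∈ I then z.1 c else z.2 c)
      left_inv := fun z => by
        ext c <;> by_cases h : c ∈ I <;> simp [h]
      right_inv := fun z => by
        ext c <;> by_cases h : c ∈ I <;> simp [h] }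
  have h1 := ra_equiv σ fun z => f z.1
  rw [ra_prod, ra_prod] at h1
  simp only [ra_const] at h1
  exact h1.symm

lemma rowB_exp_half : Real.exp (1 / 2) ≤ 2 := by
  have h1 : Real.exp (1 / 2) * Real.exp (1 / 2) = Real.exp 1 := by
    rw [← Real.exp_add]; norm_num
  have h2 := Real.exp_one_lt_d9
  nlinarith [Real.exp_pos (1 / 2)]

/-- One row of the chaos has a bounded exponential moment. -/
lemma rowB_lin {Φ : Type} [Fintype Φ] [DecidableEq Φ] (v : Φ → ℝ) (hv : ∑ c, v c ^ 2 ≤ 4)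
    (S : Finset Φ) (s : ℝ) (hs : s ^ 2 = 1 / 4) :
    (ra fun e : Φ → Bool => Real.exp (s * ∑ c ∈ S, v c * sr (e c))) ≤ 2 := by
  have h1 := mgf_signs fun c => if c ∈ S then s * v c else 0
  have h2 : ∀ e : Φ → Bool, s * ∑ c ∈ S, v c * sr (e c) =
      ∑ c, sr (e c) * (if c ∈ S then s * v c else 0) := fun e => by
    simp only [mul_ite, mul_zero, Finset.sum_ite_mem, Finset.univ_inter, Finset.mul_sum]
    exact Finset.sum_congr rfl fun c _ => by ring
  simp only [h2]
  refine h1.trans ((Real.exp_le_exp.2 ?_).trans rowB_exp_half)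
  have h3 : ∑ c, (if c ∈ S then s * v c else 0) ^ 2 ≤ ∑ c, 1 / 4 * v c ^ 2 :=
    Finset.sum_le_sum fun c _ => by
      split_ifs
      · rw [mul_pow, hs]
      · nlinarith [sq_nonneg (v c)]
  rw [← Finset.mul_sum] at h3
  linarith

lemma rowB_sq_le {Φ : Type} [Fintype Φ] (v : Φ → ℝ) (hv : ∑ c, v c ^ 2 ≤ 4) (S : Finset Φ)
    (e : Φ → Bool) (q : ℝ) (hn : (Fintype.card Φ : ℝ) = q ^ 4) :
    |∑ c ∈ S, v c * sr (e c)| ≤ 2 * q ^ 2 := by
  refine abs_le_of_sq_le_sq' ?_ (by positivity) |>.elim fun h h' => abs_le.2 ⟨h, h'⟩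
  have h1 := Finset.sum_mul_sq_le_sq_mul_sq S v fun c => sr (e c)
  simp only [sr_sq, Finset.sum_const, nsmul_eq_mul, mul_one] at h1
  have h2 : ∑ c ∈ S, v c ^ 2 ≤ 4 :=
    (Finset.sum_le_sum_of_subset_of_nonneg (Finset.subset_univ S) fun c _ _ => sq_nonneg _).trans hv
  have h3 : (S.card : ℝ) ≤ q ^ 4 := by
    rw [← hn]; exact_mod_cast Finset.card_le_univ S
  calc _ ≤ _ := h1
    _ ≤ 4 * q ^ 4 := mul_le_mul h2 h3 (by positivity) (by norm_num)
    _ = (2 * q ^ 2) ^ 2 := by ring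

lemma rowB_nonempty {Φ : Type} [Fintype Φ] {q : ℝ} (hq : 1 ≤ q)
    (hn : (Fintype.card Φ : ℝ) = q ^ 4) : Nonempty Φ := by
  rw [← Fintype.card_pos_iff]
  have : (0 : ℝ) < Fintype.card Φ := by rw [hn]; positivity
  exact_mod_cast this

/-- The bipartite chaos. With `g c = ∑ c' ∉ I, V c c' * sr (e c')`, averaging first over the signs
in `I` (`mgf_signs`; split `Φ → Bool` along `I`, or resample the coordinates with a second
independent copy) gives `exp (l ^ 2 / 2 * ∑ c, g c ^ 2)`, which is at most the average over `c` of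
`exp (l ^ 2 / 2 * n * g c ^ 2)` (`exp_ra_le`). As `|g c| ≤ 2 * q ^ 2` (Cauchy-Schwarz) and
`l ^ 2 * n * q ^ 2 ≤ 1 / 2`, this is at most `exp (g c / 2) + exp (- g c / 2)`, whose average is at
most `2 * exp (1 / 2) ≤ 4`. -/
lemma mgf_bip {Φ : Type} [Fintype Φ] [DecidableEq Φ] (V : Φ → Φ → ℝ)
    (hV : ∀ c, ∑ c', V c c' ^ 2 ≤ 4) (I : Finset Φ) (q l : ℝ) (hq : 1 ≤ q)
    (hn : (Fintype.card Φ : ℝ) = q ^ 4) (hl : l ^ 2 * q ^ 6 ≤ 1 / 2) :
    (ra fun e : Φ → Bool =>
      Real.exp (l * ∑ c ∈ I, ∑ c' ∈ Iᶜ, V c c' * (sr (e c) * sr (e c')))) ≤ 4 := by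
  have := rowB_nonempty hq hn
  have hq0 : 0 < q := by linarith
  let g : Φ → (Φ → Bool) → ℝ := fun c e' => ∑ c' ∈ Iᶜ, V c c' * sr (e' c')
  rw [rowB_mix I]
  have h1 : ∀ e' : Φ → Bool, (ra fun e : Φ → Bool => Real.exp (l * ∑ c ∈ I, ∑ c' ∈ Iᶜ,
      V c c' * (sr (if c ∈ I then e c else e' c) * sr (if c' ∈ I then e c' else e' c')))) ≤
      ra fun c => Real.exp (1 / 2 * g c e') + Real.exp (-(1 / 2) * g c e') := fun e' => by
    have h2 : ∀ e : Φ → Bool, l * ∑ c ∈ I, ∑ c' ∈ Iᶜ,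
        V c c' * (sr (if c ∈ I then e c else e' c) * sr (if c' ∈ I then e c' else e' c')) =
        ∑ c, sr (e c) * (if c ∈ I then l * g c e' else 0) := fun e => by
      simp only [mul_ite, mul_zero, Finset.sum_ite_mem, Finset.univ_inter, g]
      rw [Finset.mul_sum]
      refine Finset.sum_congr rfl fun c hc => ?_
      simp only [Finset.mul_sum]
      refine Finset.sum_congr rfl fun c' hc' => ?_
      rw [if_pos hc, if_neg (Finset.mem_compl.1 hc')]
      ring
    simp only [h2]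
    refine (mgf_signs _).trans ?_
    have h3 : (∑ c, (if c ∈ I then l * g c e' else 0) ^ 2) / 2 ≤
        ra fun c => l ^ 2 / 2 * q ^ 4 * g c e' ^ 2 := by
      have h4 : ∑ c, (if c ∈ I then l * g c e' else 0) ^ 2 ≤ ∑ c, l ^ 2 * g c e' ^ 2 :=
        Finset.sum_le_sum fun c _ => by
          split_ifs
          · rw [mul_pow]
          · nlinarith [sq_nonneg (l * g c e')]
      have h5 : (ra fun c => l ^ 2 / 2 * q ^ 4 * g c e' ^ 2) = (∑ c, l ^ 2 * g c e' ^ 2) / 2 := by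
        simp only [ra, hn, ← Finset.mul_sum]
        field_simp
      rw [h5]
      linarith
    refine (Real.exp_le_exp.2 h3).trans ((exp_ra_le _).trans (ra_mono fun c => ?_))
    have h6 : |g c e'| ≤ 2 * q ^ 2 := rowB_sq_le (V c) (hV c) Iᶜ e' q hn
    have h7 : l ^ 2 / 2 * q ^ 4 * g c e' ^ 2 ≤ 1 / 2 * |g c e'| := by
      have h8 : g c e' ^ 2 ≤ 2 * q ^ 2 * |g c e'| := by
        rw [← sq_abs, sq]
        exact mul_le_mul_of_nonneg_right h6 (abs_nonneg _)
      calc l ^ 2 / 2 * q ^ 4 * g c e' ^ 2 ≤ l ^ 2 / 2 * q ^ 4 * (2 * q ^ 2 * |g c e'|) :=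
            mul_le_mul_of_nonneg_left h8 (by positivity)
        _ = l ^ 2 * q ^ 6 * |g c e'| := by ring
        _ ≤ 1 / 2 * |g c e'| := mul_le_mul_of_nonneg_right hl (abs_nonneg _)
    refine (Real.exp_le_exp.2 h7).trans ?_
    rcases abs_cases (g c e') with h | h
    · rw [h.1]
      exact le_add_of_nonneg_right (Real.exp_pos _).le
    · rw [h.1, show 1 / 2 * -g c e' = -(1 / 2) * g c e' by ring]
      exact le_add_of_nonneg_left (Real.exp_pos _).le
  refine (ra_mono h1).trans ?_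
  rw [ra_comm]
  refine ra_le_of_le (by norm_num) fun c => ?_
  rw [ra_add]
  have h9 := rowB_lin (V c) (hV c) Iᶜ (1 / 2) (by norm_num)
  have h10 := rowB_lin (V c) (hV c) Iᶜ (-(1 / 2)) (by norm_num)
  linarith

lemma rowB_quarter {Φ : Type} [Fintype Φ] [DecidableEq Φ] {c c' : Φ} (h : c' ≠ c) :
    (ra fun s : Φ → Bool =>
      (if s c = true then (1 : ℝ) else 0) * (if s c' = true then 0 else 1)) = 1 / 4 := by
  have hb : ∀ f : Bool → ℝ, ra f = (f true + f false) / 2 := fun f => by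
    simp only [ra, Fintype.card_bool, Fintype.sum_bool]
    push_cast
    ring
  rw [ra_update c]
  simp only [Function.update_self, Function.update_of_ne h, hb]
  rw [ra_update c']
  simp only [Function.update_self, hb]
  norm_num
  exact ra_const _

/-- Decoupling: the chaos is four times the average over all `I` of the bipartite chaos (for
`c ≠ c'` a random set contains `c` and not `c'` with probability one quarter; index the sets by
`Φ → Bool`); use `exp_ra_le` and `ra_comm`. -/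
lemma mgf_chaos {Φ : Type} [Fintype Φ] [DecidableEq Φ] (V : Φ → Φ → ℝ)
    (hV : ∀ c, ∑ c', V c c' ^ 2 ≤ 4) (q l : ℝ) (hq : 1 ≤ q)
    (hn : (Fintype.card Φ : ℝ) = q ^ 4) (hl : (4 * l) ^ 2 * q ^ 6 ≤ 1 / 2) :
    (ra fun e : Φ → Bool =>
      Real.exp (l * ∑ c, ∑ c' ∈ univ.erase c, V c c' * (sr (e c) * sr (e c')))) ≤ 4 := by
  have h1 : ∀ (F : Φ → Φ → ℝ) (s : Φ → Bool),
      ∑ c ∈ univ.filter (fun c => s c = true), ∑ c' ∈ (univ.filter fun c => s c = true)ᶜ, F c c' =
      ∑ c, ∑ c' ∈ univ.erase c,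
        (if s c = true then (1 : ℝ) else 0) * (if s c' = true then 0 else 1) * F c c' :=
    fun F s => by
      rw [Finset.sum_filter]
      refine Finset.sum_congr rfl fun c _ => ?_
      by_cases hc : s c = true
      · rw [if_pos hc, Finset.sum_erase _ (by simp [hc]), Finset.compl_filter, Finset.sum_filter]
        refine Finset.sum_congr rfl fun c' _ => ?_
        by_cases hc' : s c' = true <;> simp [hc, hc']
      · simp [hc]
  have h2 : ∀ F : Φ → Φ → ℝ, l * ∑ c, ∑ c' ∈ univ.erase c, F c c' =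
      ra fun s : Φ → Bool => 4 * l * ∑ c ∈ univ.filter (fun c => s c = true),
        ∑ c' ∈ (univ.filter fun c => s c = true)ᶜ, F c c' := fun F => by
    simp only [h1]
    rw [ra_const_mul, ra_sum]
    have h3 : ∀ c, (ra fun s : Φ → Bool => ∑ c' ∈ univ.erase c,
        (if s c = true then (1 : ℝ) else 0) * (if s c' = true then 0 else 1) * F c c') =
        1 / 4 * ∑ c' ∈ univ.erase c, F c c' := fun c => by
      rw [ra_sum, Finset.mul_sum]
      refine Finset.sum_congr rfl fun c' hc' => ?_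
      rw [ra_mul_const, rowB_quarter (Finset.ne_of_mem_erase hc')]
    simp only [h3, ← Finset.mul_sum]
    ring
  refine (ra_mono fun e => ?_).trans (b := ra fun e : Φ → Bool => ra fun s : Φ → Bool =>
    Real.exp (4 * l * ∑ c ∈ univ.filter (fun c => s c = true),
      ∑ c' ∈ (univ.filter fun c => s c = true)ᶜ, V c c' * (sr (e c) * sr (e c')))) ?_
  · rw [h2]
    exact exp_ra_le _
  · rw [ra_comm]
    exact ra_le_of_le (by norm_num) fun s => mgf_bip V hV _ q (4 * l) hq hn hl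

/-- The one-sided real tail bound. -/
lemma rowB_tail {Φ : Type} [Fintype Φ] [DecidableEq Φ] (A : Φ → Φ → ℝ)
    (hA : ∀ c, ∑ c', A c c' ^ 2 ≤ 4) (ε q : ℝ) (hε : 0 < ε) (hε1 : ε ≤ 1) (hq : 1 ≤ q)
    (hn : (Fintype.card Φ : ℝ) = q ^ 4) :
    pr (fun e : Φ → Bool => ε / 2 <
        ra fun c => ∑ c' ∈ univ.erase c, A c c' * (sr (e c) * sr (e c'))) ≤
      4 * Real.exp (-(ε ^ 2 * q / 64)) := by
  have hq0 : 0 < q := by linarith
  have hl : (4 * (1 / (6 * q ^ 3))) ^ 2 * q ^ 6 ≤ 1 / 2 := by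
    have : (4 * (1 / (6 * q ^ 3))) ^ 2 * q ^ 6 = 4 / 9 := by field_simp; norm_num
    rw [this]; norm_num
  have h1 := pr_le_of_mgf _ (1 / (6 * q ^ 3)) (ε * q ^ 4 / 2) 4 (by positivity)
    (mgf_chaos A hA q _ hq hn hl)
  refine (pr_mono fun e he => ?_).trans (h1.trans ?_)
  · rw [ra, hn, lt_inv_mul_iff₀ (by positivity)] at he
    linarith
  · refine mul_le_mul_of_nonneg_left (Real.exp_le_exp.2 (neg_le_neg ?_)) (by norm_num)
    have h2 : 1 / (6 * q ^ 3) * (ε * q ^ 4 / 2) = ε * q / 12 := by field_simp; norm_num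
    rw [h2]
    nlinarith [mul_pos hε hq0, mul_nonneg (mul_pos hε hq0).le (sub_nonneg.2 hε1)]

/-- The tail bound for scalar coefficients. -/
lemma rowB_tailK {Φ : Type} [Fintype Φ] [DecidableEq Φ] (Z : Φ → Φ → 𝕜)
    (hZ : ∀ c, ∑ c', ‖Z c c'‖ ^ 2 ≤ 4) (ε q : ℝ) (hε : 0 < ε) (hε1 : ε ≤ 1) (hq : 1 ≤ q)
    (hn : (Fintype.card Φ : ℝ) = q ^ 4) :
    pr (fun e : Φ → Bool => ε < ‖av 𝕜 fun c => ∑ c' ∈ univ.erase c,
        ((sr (e c) * sr (e c') : ℝ) : 𝕜) * Z c c'‖) ≤ 16 * Real.exp (-(ε ^ 2 * q / 64)) := by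
  have hrow : ∀ A : Φ → Φ → ℝ, (∀ c c', |A c c'| ≤ ‖Z c c'‖) → ∀ c, ∑ c', A c c' ^ 2 ≤ 4 :=
    fun A h c => (Finset.sum_le_sum fun c' _ => by
      rw [← sq_abs]
      exact pow_le_pow_left₀ (abs_nonneg _) (h c c') 2).trans (hZ c)
  have hneg : ∀ f : Φ → ℝ, -ra f = ra fun c => -f c := fun f => by
    simp [ra, Finset.sum_neg_distrib]
  have hre := rowB_tail (fun c c' => RCLike.re (Z c c'))
    (hrow _ fun c c' => RCLike.abs_re_le_norm _) ε q hε hε1 hq hn
  have hre' := rowB_tail (fun c c' => -RCLike.re (Z c c'))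
    (hrow _ fun c c' => by rw [abs_neg]; exact RCLike.abs_re_le_norm _) ε q hε hε1 hq hn
  have him := rowB_tail (fun c c' => RCLike.im (Z c c'))
    (hrow _ fun c c' => RCLike.abs_im_le_norm _) ε q hε hε1 hq hn
  have him' := rowB_tail (fun c c' => -RCLike.im (Z c c'))
    (hrow _ fun c c' => by rw [abs_neg]; exact RCLike.abs_im_le_norm _) ε q hε hε1 hq hn
  refine (pr_norm_le _ ε (4 * Real.exp (-(ε ^ 2 * q / 64))) ?_ ?_ ?_ ?_).trans (le_of_eq (by ring))
  · refine (pr_congr fun e => ?_).trans_le hre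
    simp only [re_av, map_sum, RCLike.re_ofReal_mul]
    simp only [mul_comm]
  · refine (pr_congr fun e => ?_).trans_le hre'
    simp only [re_av, map_sum, RCLike.re_ofReal_mul, hneg, ← Finset.sum_neg_distrib, neg_mul]
    simp only [mul_comm]
  · refine (pr_congr fun e => ?_).trans_le him
    simp only [im_av, map_sum, RCLike.im_ofReal_mul]
    simp only [mul_comm]
  · refine (pr_congr fun e => ?_).trans_le him'
    simp only [im_av, map_sum, RCLike.im_ofReal_mul, hneg, ← Finset.sum_neg_distrib, neg_mul]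
    simp only [mul_comm]

/-- Condition on the second components of the row (`Equiv.arrowProdEquivProdArrow`, `pr_equiv`,
`pr_prod`); the real and imaginary parts of `V c c' * ind * y` have rows of square sum at most
four. Take `t = ε n / 2` and `l = 1 / (6 * q ^ 3)`; the bound is `16 * exp (- ε q / 12)`. -/
theorem rowB {J Φ : Type} [Fintype J] [DecidableEq J] [Nonempty J] [Fintype Φ] [DecidableEq Φ]
    (V : Φ → Φ → 𝕜) (hV : ∀ c, ∑ c', ‖V c c'‖ ^ 2 ≤ 4) (y : J → 𝕜) (hy : ∀ j, ‖y j‖ ≤ 1) (j : J)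
    (ε q : ℝ) (hε : 0 < ε) (hε1 : ε ≤ 1) (hq : 1 ≤ q) (hn : (Fintype.card Φ : ℝ) = q ^ 4) :
    pr (fun r : Φ → Bool × J => ε < ‖av 𝕜 fun c => ∑ c' ∈ univ.erase c,
        V c c' * (chi 𝕜 (r c) j * (sk 𝕜 (r c').1 * y (r c').2))‖) ≤
      16 * Real.exp (-(ε ^ 2 * q / 64)) := by
  rw [← pr_equiv ((Equiv.prodComm _ _).trans (Equiv.arrowProdEquivProdArrow Φ
    (fun _ => Bool) fun _ => J).symm), pr_prod]
  refine ra_le_of_le (by positivity) fun u => ?_
  have h1 := rowB_tailK (𝕜 := 𝕜) (fun c c' => V c c' * ((if u c = j then 1 else 0) * y (u c')))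
    (fun c => (Finset.sum_le_sum fun c' _ => ?_).trans (hV c)) ε q hε hε1 hq hn
  · refine (pr_congr fun e => ?_).trans_le h1
    refine iff_of_eq (congrArg (fun z : 𝕜 => ε < ‖z‖) (congrArg (av 𝕜) (funext fun c => ?_)))
    refine Finset.sum_congr rfl fun c' _ => ?_
    simp only [chi, Equiv.trans_apply, Equiv.prodComm_apply, Prod.swap_prod_mk,
      Equiv.arrowProdEquivProdArrow_symm_apply, sk_eq_sr]
    split_ifs <;> push_cast <;> ring
  · refine pow_le_pow_left₀ (norm_nonneg _) ?_ 2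
    rw [norm_mul, norm_mul]
    refine mul_le_of_le_one_right (norm_nonneg _) (mul_le_one₀ ?_ (norm_nonneg _) (hy _))
    split_ifs <;> simp

end Pool.Agent.Lib.MP_e0f470_an.Rob
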