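import Pool.Agent.Lib.MP_e0f470_an.RTen
import Pool.Agent.Lib.MP_e0f470_an.RRowB
import Pool.Agent.Lib.MP_e0f470_an.RPeel
import Pool.Agent.Lib.MP_e0f470_an.RPar

/-! Bad rows are conditionally unlikely. -/

set_option autoImplicit false

namespace Pool.Agent.Lib.MP_e0f470_an.Rob

open Finset Filter
open scoped BigOperators Topology

variable {𝕜 : Type} [RCLike 𝕜]

variable {J X Ω Φ : Type} [Fintype J] [Fintype X] [Fintype Ω] [Fintype Φ] [DecidableEq J]
  [DecidableEq Φ] [LinearOrder Ω] {T : ℕ} (x : X → J → 𝕜) (W : Φ → Φ → ℝ)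

omit [Fintype J] [Fintype X] [Fintype Ω] [Fintype Φ] [DecidableEq J] in
lemma keyA_wal (ξ : Fin T × Ω → Φ → Bool × J) (γ : Fin T → Lab X Ω Φ) (t : Fin T) (τ : Ω)
    (r : Φ → Bool × J) (S : Φ) :
    gen x W (Function.update ξ (t, τ) r) (Function.update γ t (wal S)) =
      gen x W ξ (Function.update γ t (wal S)) :=
  gen_update_row x W ξ _ t τ r fun i => by simp

omit [Fintype J] [Fintype X] [Fintype Ω] [Fintype Φ] [DecidableEq J] in
lemma keyA_del (ξ : Fin T × Ω → Φ → Bool × J) (γ : Fin T → Lab X Ω Φ) (t : Fin T) (τ : Ω)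
    (r : Φ → Bool × J) (S : Φ) :
    gen x W (Function.update ξ (t, τ) r) (Function.update γ t (del S)) =
      gen x W ξ (Function.update γ t (del S)) :=
  gen_update_row x W ξ _ t τ r fun i => by simp

omit [DecidableEq J] [LinearOrder Ω] in
lemma keyA_union {α : Type} [Fintype α] (P : J → (Fin T → Lab X Ω Φ) → α → Prop) {δ : ℝ}
    (h : ∀ j γ, pr (P j γ) ≤ (Fintype.card X + 2) * δ) :
    pr (fun a => ∃ j γ, P j γ a) ≤
      (Fintype.card J : ℝ) * ((Fintype.card Ω : ℝ) * Fintype.card X + 2 * Fintype.card Φ) ^ T *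
        (Fintype.card X + 2) * δ := by
  have h1 := pr_exists_le_card (fun j a => ∃ γ, P j γ a) fun j => pr_exists_le_card (P j) (h j)
  refine h1.trans (le_of_eq ?_)
  simp only [Fintype.card_fun, Fintype.card_fin, Fintype.card_sum, Fintype.card_prod]
  push_cast
  ring

lemma keyA_and {α : Type} [Fintype α] {Q : Prop} {P : α → Prop} {δ : ℝ} (hδ : 0 ≤ δ)
    (h : Q → pr P ≤ δ) : pr (fun a => Q ∧ P a) ≤ δ := by
  by_cases hQ : Q
  · exact (pr_mono fun a ha => ha.2).trans (h hQ)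
  · rw [pr_false fun a ha => hQ ha.1]; exact hδ

/-- `BadLt` does not depend on later rows (`gen_update_row`, `gen_update`, `ten_update_row`). -/
theorem badLt_update (ε : ℝ) (t : Fin T) (ζ : Φ → (Fin T → Φ) → 𝕜) {τ τ' : Ω} (h : τ < τ')
    (ξ : Fin T × Ω → Φ → Bool × J) (r : Φ → Bool × J) :
    BadLt x W ε t ζ τ (Function.update ξ (t, τ') r) ↔ BadLt x W ε t ζ τ ξ := by
  have e : Function.update ξ (t, τ') r (t, τ) = ξ (t, τ) :=
    Function.update_of_ne (by simp [h.ne]) _ _
  unfold BadLt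
  simp only [e, keyA_wal, keyA_del]
  refine exists_congr fun j => exists_congr fun γ => or_congr_left (and_congr_right fun h1 => ?_)
  rw [gen_update_row x W ξ γ t τ' r fun i hi => lt_asymm h (h1 _ _ hi)]

/-- `BadGt` does not depend on earlier rows. -/
theorem badGt_update (ε : ℝ) (t : Fin T) (ζ : Φ → (Fin T → Φ) → 𝕜) {τ τ' : Ω} (h : τ' < τ)
    (ξ : Fin T × Ω → Φ → Bool × J) (r : Φ → Bool × J) :
    BadGt x W ε t ζ τ (Function.update ξ (t, τ') r) ↔ BadGt x W ε t ζ τ ξ := by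
  have e : Function.update ξ (t, τ') r (t, τ) = ξ (t, τ) :=
    Function.update_of_ne (by simp [h.ne']) _ _
  unfold BadGt
  simp only [e]
  refine exists_congr fun j => exists_congr fun γ => and_congr_right fun h1 => ?_
  obtain ⟨τ'', i', h2, h3⟩ := h1
  rw [gen_update_row x W ξ γ t τ' r fun i hi => ?_]
  rw [h2] at hi
  obtain ⟨rfl, -⟩ := Prod.mk.inj (Sum.inl.inj hi)
  exact lt_asymm h h3

/-- Union bound over `j`, `γ` and `i`. For fixed `j`, `γ` the side conditions and the generators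
do not depend on the row `r` (`gen_update_row`); if a side condition fails the probability is zero,
otherwise use `rowA`, `rowC` and `rowB`; the rows of the matrix
`pair (ζ c) (gen (update γ t (del c')))` have square sum at most four by `parseval`, `gen_update`,
`pair_ten`, and its entries are then at most two. -/
theorem pr_badLt [Nonempty J] (hx : ∀ i j, ‖x i j‖ ≤ 1) (hW : Had W) (ε q : ℝ) (hε : 0 < ε)
    (hε1 : ε ≤ 1) (hq : 1 ≤ q) (hn : (Fintype.card Φ : ℝ) = q ^ 4) (t : Fin T)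
    (ζ : Φ → (Fin T → Φ) → 𝕜) (τ : Ω) (ξ : Fin T × Ω → Φ → Bool × J) :
    pr (fun r => BadLt x W ε t ζ τ (Function.update ξ (t, τ) r)) ≤
      (Fintype.card J : ℝ) * ((Fintype.card Ω : ℝ) * Fintype.card X + 2 * Fintype.card Φ) ^ T *
        (Fintype.card X + 2) * (16 * Real.exp (-(ε ^ 2 * q / 64))) := by
  have hδ : 0 ≤ 16 * Real.exp (-(ε ^ 2 * q / 64)) := by positivity
  unfold BadLt
  simp only [Function.update_self, keyA_wal, keyA_del]
  refine keyA_union _ fun j γ => (pr_or_le _ _).trans ?_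
  have hX : (0 : ℝ) ≤ Fintype.card X := Nat.cast_nonneg _
  have e : ((Fintype.card X : ℝ) + 2) * (16 * Real.exp (-(ε ^ 2 * q / 64))) =
      16 * Real.exp (-(ε ^ 2 * q / 64)) + (Fintype.card X * (16 * Real.exp (-(ε ^ 2 * q / 64))) +
        16 * Real.exp (-(ε ^ 2 * q / 64))) := by ring
  rw [e]
  refine add_le_add (keyA_and hδ fun h1 => ?_) (keyA_and (by positivity) fun h1 => ?_)
  · have e1 : ∀ r, gen x W (Function.update ξ (t, τ) r) γ = gen x W ξ γ :=
      fun r => gen_update_row x W ξ γ t τ r fun i hi => lt_irrefl _ (h1 _ _ hi)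
    simp only [e1]
    exact keyA_and hδ fun h2 => rowA _ h2 j ε q hε hε1 hq hn
  · have hV : ∀ c, ∑ c', ‖pair (ζ c) (gen x W ξ (Function.update γ t (del c')))‖ ^ 2 ≤ 4 := by
      intro c
      refine (parseval hW _ 2 fun S => ?_).trans (by norm_num)
      have h2 := h1 c S
      rwa [gen_update, pair_ten] at h2
    refine (pr_or_le _ _).trans (add_le_add (pr_exists_le_card _ fun i => ?_) ?_)
    · exact rowB _ hV (x i) (hx i) j ε q hε hε1 hq hn
    · refine rowC _ (fun c => ?_) j ε q hε hε1 hq hn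
      have h3 := (Finset.single_le_sum (f := fun c' =>
        ‖pair (ζ c) (gen x W ξ (Function.update γ t (del c')))‖ ^ 2) (fun _ _ => sq_nonneg _)
        (Finset.mem_univ c)).trans (hV c)
      exact abs_le_of_sq_le_sq' (by linarith) (by norm_num) |>.2

theorem pr_badGt [Nonempty J] (ε q : ℝ) (hε : 0 < ε)
    (hε1 : ε ≤ 1) (hq : 1 ≤ q) (hn : (Fintype.card Φ : ℝ) = q ^ 4) (t : Fin T)
    (ζ : Φ → (Fin T → Φ) → 𝕜) (τ : Ω) (ξ : Fin T × Ω → Φ → Bool × J) :
    pr (fun r => BadGt x W ε t ζ τ (Function.update ξ (t, τ) r)) ≤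
      (Fintype.card J : ℝ) * ((Fintype.card Ω : ℝ) * Fintype.card X + 2 * Fintype.card Φ) ^ T *
        (Fintype.card X + 2) * (16 * Real.exp (-(ε ^ 2 * q / 64))) := by
  have hδ : 0 ≤ 16 * Real.exp (-(ε ^ 2 * q / 64)) := by positivity
  unfold BadGt
  simp only [Function.update_self]
  have hX : (0 : ℝ) ≤ Fintype.card X := Nat.cast_nonneg _
  refine keyA_union _ fun j γ => le_trans (keyA_and hδ fun h1 => ?_) (by nlinarith)
  obtain ⟨τ', i', h2, h3⟩ := h1
  have e1 : ∀ r, gen x W (Function.update ξ (t, τ) r) γ = gen x W ξ γ := fun r =>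
    gen_update_row x W ξ γ t τ r fun i hi => by
      rw [h2] at hi
      obtain ⟨rfl, -⟩ := Prod.mk.inj (Sum.inl.inj hi)
      exact lt_irrefl _ h3
  simp only [e1]
  exact keyA_and hδ fun h2 => rowA _ h2 j ε q hε hε1 hq hn

end Pool.Agent.Lib.MP_e0f470_an.Rob
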