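import Pool.Agent.Lib.MP_e0f470_an.RTen
import Pool.Agent.Lib.MP_e0f470_an.RPar

/-! Rounding to a grid. -/

set_option autoImplicit false

namespace Pool.Agent.Lib.MP_e0f470_an.Rob

open Finset Filter
open scoped BigOperators Topology

variable {𝕜 : Type} [RCLike 𝕜]

lemma keyG_av_sub {α : Type} [Fintype α] {k p p' : α → 𝕜} {ε : ℝ} (hε : 0 ≤ ε)
    (hk : ∀ a, ‖k a‖ ≤ 1) (hp : ∀ a, ‖p' a - p a‖ ≤ ε) :
    ‖(av 𝕜 fun a => k a * p' a) - av 𝕜 fun a => k a * p a‖ ≤ ε := by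
  rw [← av_sub]
  refine (norm_av_le _).trans (ra_le_of_le hε fun a => ?_)
  rw [← mul_sub, norm_mul]
  exact (mul_le_of_le_one_left (norm_nonneg _) (hk a)).trans (hp a)

lemma keyG_le {a a' : 𝕜} {ε δ : ℝ} (h1 : ‖a' - a‖ ≤ ε) (h2 : ‖a'‖ ≤ δ) : ‖a‖ ≤ δ + ε := by
  have h := norm_sub_le a' (a' - a)
  rw [sub_sub_cancel] at h
  linarith

lemma keyG_chi {J : Type} [DecidableEq J] (z : Bool × J) (j : J) : ‖chi 𝕜 z j‖ ≤ 1 := by
  unfold chi
  split_ifs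
  · exact (norm_sk _).le
  · simp

lemma keyG_inv {J : Type} [Fintype J] [Nonempty J] : ‖(Fintype.card J : 𝕜)⁻¹‖ ≤ 1 := by
  rw [norm_inv, RCLike.norm_natCast]
  exact inv_le_one_of_one_le₀ (by exact_mod_cast Fintype.card_pos)

lemma keyG_ind {J : Type} [Fintype J] [Nonempty J] [DecidableEq J] (z : Bool × J) (j : J) :
    ‖ind 𝕜 z j - (Fintype.card J : 𝕜)⁻¹‖ ≤ 1 := by
  unfold ind
  split_ifs
  · have h1 : (1 : ℝ) ≤ Fintype.card J := by exact_mod_cast Fintype.card_pos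
    have h2 : (Fintype.card J : ℝ)⁻¹ ≤ 1 := inv_le_one_of_one_le₀ h1
    have h3 : 0 ≤ (Fintype.card J : ℝ)⁻¹ := by positivity
    have e : (1 : 𝕜) - (Fintype.card J : 𝕜)⁻¹ = ((1 - (Fintype.card J : ℝ)⁻¹ : ℝ) : 𝕜) := by
      push_cast
      rfl
    rw [e, RCLike.norm_ofReal, abs_le]
    constructor <;> linarith
  · rw [zero_sub, norm_neg]
    exact keyG_inv

lemma keyG_diag {J : Type} [DecidableEq J] (z : Bool × J) (j : J) (y : J → 𝕜) :
    chi 𝕜 z j * (sk 𝕜 z.1 * y z.2) = ind 𝕜 z j * y j := by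
  unfold chi ind
  split_ifs with h
  · rw [← mul_assoc, sk_mul_self, h]
  · simp

section
variable {J X Ω Φ : Type} [Fintype J] [Fintype X] [Fintype Ω] [Fintype Φ] [DecidableEq J]
  [DecidableEq Φ] [LinearOrder Ω] {T : ℕ} (x : X → J → 𝕜) (W : Φ → Φ → ℝ)

omit [Fintype X] [Fintype Ω] [LinearOrder Ω] in
lemma keyG_split (ξ : Fin T × Ω → Φ → Bool × J) (t : Fin T) (ζ : Φ → (Fin T → Φ) → 𝕜) (τ : Ω)
    (j : J) (γ : Fin T → Lab X Ω Φ) (i : X) :
    (av 𝕜 fun c => chi 𝕜 (ξ (t, τ) c) j *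
        pair (ζ c) (gen x W ξ (Function.update γ t (own τ i)))) -
      x i j * (Fintype.card J : 𝕜)⁻¹ *
        (av 𝕜 fun c => pair (ζ c) (gen x W ξ (Function.update γ t (del c)))) =
    (av 𝕜 fun c => ∑ c' ∈ univ.erase c,
        pair (ζ c) (gen x W ξ (Function.update γ t (del c'))) *
          (chi 𝕜 (ξ (t, τ) c) j * (sk 𝕜 (ξ (t, τ) c').1 * x i (ξ (t, τ) c').2))) +
      x i j * av 𝕜 fun c => (ind 𝕜 (ξ (t, τ) c) j - (Fintype.card J : 𝕜)⁻¹) *
        pair (ζ c) (gen x W ξ (Function.update γ t (del c))) := by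
  rw [← av_const_mul, ← av_const_mul, ← av_sub, ← av_add]
  congr 1
  funext c
  rw [gen_update_own, pair_ten, ← Finset.add_sum_erase _ _ (Finset.mem_univ c), mul_add,
    Finset.mul_sum]
  simp only [row_apply]
  have e : ∀ c' ∈ univ.erase c, chi 𝕜 (ξ (t, τ) c) j *
      (pair (ζ c) (gen x W ξ (Function.update γ t (del c'))) *
        (sk 𝕜 (ξ (t, τ) c').1 * x i (ξ (t, τ) c').2)) =
      pair (ζ c) (gen x W ξ (Function.update γ t (del c'))) *
        (chi 𝕜 (ξ (t, τ) c) j * (sk 𝕜 (ξ (t, τ) c').1 * x i (ξ (t, τ) c').2)) :=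
    fun _ _ => mul_left_comm _ _ _
  rw [Finset.sum_congr rfl e]
  linear_combination pair (ζ c) (gen x W ξ (Function.update γ t (del c))) *
    keyG_diag (ξ (t, τ) c) j (x i)

/-- Rounding. Given `ζ` in the polar, round its entries (`Pol.norm_le`, `exists_grid`) to get
`ζ'` with `‖pair (ζ' c) (gen γ) - pair (ζ c) (gen γ)‖ ≤ ε` (`norm_gen_le`), so the side conditions
in `BadLt` and `BadGt` hold. A row that is neither `BadLt` nor `BadGt` for `ζ'` satisfies the three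
estimates for `ζ` with `4 * ε`. For the second one expand with `gen_update_own` and `pair_ten`,
and split off the diagonal term using `chi z j * (sk z.1 * x i z.2) = ind z j * x i j`. -/
theorem key_of_grid [Nonempty J] (hx : ∀ i j, ‖x i j‖ ≤ 1) (hW : Had W)
    (ξ : Fin T × Ω → Φ → Bool × J) (ε : ℝ) (hε : 0 < ε) (hε1 : ε ≤ 1) (R : ℕ) (hR : 1 ≤ R)
    (hRε : (Fintype.card Φ : ℝ) ^ T * (2 / R) ≤ ε)
    (h : ∀ (t : Fin T) (g : Φ → (Fin T → Φ) → Fin (2 * R + 1) × Fin (2 * R + 1)),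
      pr (fun τ => BadLt x W ε t (fun c cs => grid 𝕜 R (g c cs)) τ ξ) ≤ ε ∧
      pr (fun τ => BadGt x W ε t (fun c cs => grid 𝕜 R (g c cs)) τ ξ) ≤ ε) :
    Key x W ξ (4 * ε) := by
  intro t ζ hζ
  choose g hg using fun c cs => exists_grid R hR (ζ c cs) (Pol.norm_le x W ξ (hζ c) cs)
  obtain ⟨h1, h2⟩ := h t g
  generalize hζ' : (fun c cs => grid 𝕜 R (g c cs)) = ζ' at h1 h2
  have hd : ∀ c γ, ‖pair (ζ' c) (gen x W ξ γ) - pair (ζ c) (gen x W ξ γ)‖ ≤ ε := by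
    intro c γ
    rw [← pair_sub_left]
    have e1 : ∀ cs, ‖(ζ' c - ζ c) cs‖ ≤ 2 / R := fun cs => by
      rw [← hζ']
      exact hg c cs
    have e2 : ∑ cs, ‖gen x W ξ γ cs‖ ≤ (Fintype.card Φ : ℝ) ^ T := by
      refine (Finset.sum_le_sum fun cs _ => norm_gen_le x W ξ hx hW γ cs).trans_eq ?_
      simp
    refine (norm_pair_le e1).trans (le_trans ?_ hRε)
    rw [mul_comm]
    exact mul_le_mul_of_nonneg_right e2 (by positivity)
  have h2b : ∀ c γ, ‖pair (ζ' c) (gen x W ξ γ)‖ ≤ 2 := fun c γ => by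
    have := keyG_le ((norm_sub_rev _ _).trans_le (hd c γ)) (hζ c γ)
    linarith
  refine le_trans (pr_mono (Q := fun τ => BadLt x W ε t ζ' τ ξ ∨ BadGt x W ε t ζ' τ ξ) ?_)
    ((pr_or_le _ _).trans (by linarith))
  intro τ hτ
  by_contra hbad
  obtain ⟨hlt, hgt⟩ := not_or.1 hbad
  refine hτ fun j γ => ?_
  have k3 : ‖av 𝕜 fun c => (ind 𝕜 (ξ (t, τ) c) j - (Fintype.card J : 𝕜)⁻¹) *
      pair (ζ' c) (gen x W ξ (Function.update γ t (del c)))‖ ≤ ε :=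
    not_lt.1 fun hc => hlt ⟨j, γ, Or.inr ⟨fun c S => h2b c _, Or.inr hc⟩⟩
  refine ⟨fun hγ => ?_, fun i => ?_, ?_⟩
  · have k1 : ‖av 𝕜 fun c => chi 𝕜 (ξ (t, τ) c) j * pair (ζ' c) (gen x W ξ γ)‖ ≤ ε := by
      refine not_lt.1 fun hc => ?_
      by_cases hA : ∀ τ' i, γ t = own τ' i → τ' < τ
      · exact hlt ⟨j, γ, Or.inl ⟨hA, fun c => h2b c γ, hc⟩⟩
      · push Not at hA
        obtain ⟨τ', i, e, hle⟩ := hA
        refine hgt ⟨j, γ, ⟨τ', i, e, lt_of_le_of_ne hle ?_⟩, fun c => h2b c γ, hc⟩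
        rintro rfl
        exact hγ i e
    have := keyG_le (keyG_av_sub hε.le (fun c => keyG_chi (ξ (t, τ) c) j) fun c => hd c γ) k1
    linarith
  · have k2 : ‖av 𝕜 fun c => ∑ c' ∈ univ.erase c,
        pair (ζ' c) (gen x W ξ (Function.update γ t (del c'))) *
          (chi 𝕜 (ξ (t, τ) c) j * (sk 𝕜 (ξ (t, τ) c').1 * x i (ξ (t, τ) c').2))‖ ≤ ε :=
      not_lt.1 fun hc => hlt ⟨j, γ, Or.inr ⟨fun c S => h2b c _, Or.inl ⟨i, hc⟩⟩⟩
    have k4 := (norm_add_le _ _).trans (add_le_add k2 ((norm_mul_le (x i j) _).trans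
      ((mul_le_of_le_one_left (norm_nonneg _) (hx i j)).trans k3)))
    rw [← keyG_split] at k4
    have k5 := keyG_av_sub hε.le (fun c => keyG_chi (𝕜 := 𝕜) (ξ (t, τ) c) j)
      fun c => hd c (Function.update γ t (own τ i))
    have k6 := keyG_av_sub (k := fun _ => x i j * (Fintype.card J : 𝕜)⁻¹) hε.le
      (fun _ => (norm_mul_le _ _).trans (mul_le_one₀ (hx i j) (norm_nonneg _) keyG_inv))
      fun c => hd c (Function.update γ t (del c))
    rw [av_const_mul, av_const_mul] at k6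
    have k7 := (norm_sub_le _ _).trans (add_le_add k5 k6)
    rw [sub_sub_sub_comm] at k7
    have := keyG_le k7 k4
    linarith
  · have := keyG_le (keyG_av_sub hε.le (fun c => keyG_ind (ξ (t, τ) c) j)
      fun c => hd c (Function.update γ t (del c))) k3
    linarith

omit [LinearOrder Ω] in
theorem Key.mono {ξ : Fin T × Ω → Φ → Bool × J} {ε ε' : ℝ} (h : Key x W ξ ε) (hε : ε ≤ ε') :
    Key x W ξ ε' := by
  intro t ζ hζ
  refine le_trans (pr_mono ?_) ((h t ζ hζ).trans hε)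
  intro τ hτ hg
  refine hτ fun j γ => ?_
  exact ⟨fun hγ => ((hg j γ).1 hγ).trans hε, fun i => ((hg j γ).2.1 i).trans hε,
    (hg j γ).2.2.trans hε⟩

end

end Pool.Agent.Lib.MP_e0f470_an.Rob
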