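import Pool.Agent.Lib.MP_e0f470_an.RKeyA
import Pool.Agent.Lib.MP_e0f470_an.RKeyG

/-! Existence of rows with the key property. -/

set_option autoImplicit false

namespace Pool.Agent.Lib.MP_e0f470_an.Rob

open Finset Filter
open scoped BigOperators Topology

variable {𝕜 : Type} [RCLike 𝕜]

/-- Replace `ε` by `min (ε / 4) 1`, take the parameters from `exists_params`, let
`Φ = Fin (4 * k) → Bool`, `q = 2 ^ k`, `Ω = Fin (N + 1)`. By `peel`, `peel'` (with `a = 4 / ε`,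
`θ = ε`, `e τ = (t, τ)`), `pr_badLt`, `pr_badGt` and the union bound over `t` and the grid
functions, the hypothesis of `key_of_grid` fails with probability less than one. -/
theorem exists_key {J X : Type} [Fintype J] [Fintype X] [DecidableEq J] [Nonempty J]
    (x : X → J → 𝕜) (hx : ∀ i j, ‖x i j‖ ≤ 1) (T : ℕ) (ε : ℝ) (hε : 0 < ε) :
    ∃ (k N : ℕ) (ξ : Fin T × Fin (N + 1) → (Fin k → Bool) → Bool × J), Key x walsh ξ ε := by
  classical
  set ε' : ℝ := min (ε / 4) 1 with hε'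
  have hε'0 : 0 < ε' := lt_min (by positivity) one_pos
  have hε'1 : ε' ≤ 1 := min_le_right _ _
  have hε'4 : 4 * ε' ≤ ε := by
    have := min_le_left (ε / 4) 1
    linarith
  obtain ⟨k, N, R, hR, h1, h2, h3⟩ :=
    exists_params (Fintype.card X) (Fintype.card J) T ε' hε'0
  have hcard : Fintype.card (Fin (4 * k) → Bool) = 16 ^ k := by
    rw [Fintype.card_fun, Fintype.card_bool, Fintype.card_fin, pow_mul]
    norm_num
  have hcardR : (Fintype.card (Fin (4 * k) → Bool) : ℝ) = 16 ^ k := by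
    rw [hcard]
    push_cast
    rfl
  have hq : (1 : ℝ) ≤ 2 ^ k := one_le_pow₀ (by norm_num)
  have hn : (Fintype.card (Fin (4 * k) → Bool) : ℝ) = ((2 : ℝ) ^ k) ^ 4 := by
    rw [hcardR, ← pow_mul, mul_comm k 4, pow_mul]
    norm_num
  have hW := had_walsh (4 * k)
  have ha : (0 : ℝ) ≤ 4 / ε' := by positivity
  have hΩ : (Fintype.card (Fin (N + 1)) : ℝ) = (N : ℝ) + 1 := by simp
  have hLt : ∀ (t : Fin T) (ζ : (Fin (4 * k) → Bool) → (Fin T → (Fin (4 * k) → Bool)) → 𝕜),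
      pr (fun ξ : Fin T × Fin (N + 1) → (Fin (4 * k) → Bool) → Bool × J =>
        ε' < pr fun τ => BadLt x walsh ε' t ζ τ ξ) ≤
        Real.exp (((N : ℝ) + 1) * (1 - 4 / ε' * ε')) := by
    intro t ζ
    have h := peel (I := Fin T × Fin (N + 1)) (A := (Fin (4 * k) → Bool) → Bool × J)
      (K := Fin (N + 1)) (fun τ => (t, τ)) (fun τ ξ => BadLt x walsh ε' t ζ τ ξ)
      (fun τ τ' hτ ξ r => badLt_update x walsh ε' t ζ hτ ξ r) (4 / ε') ε' ha
      (fun τ ξ => by
        refine le_trans ?_ h2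
        have h4 := pr_badLt x walsh hx hW ε' (2 ^ k) hε'0 hε'1 hq hn t ζ τ ξ
        rw [hΩ, hcardR] at h4
        exact h4)
    rwa [hΩ] at h
  have hGt : ∀ (t : Fin T) (ζ : (Fin (4 * k) → Bool) → (Fin T → (Fin (4 * k) → Bool)) → 𝕜),
      pr (fun ξ : Fin T × Fin (N + 1) → (Fin (4 * k) → Bool) → Bool × J =>
        ε' < pr fun τ => BadGt x walsh ε' t ζ τ ξ) ≤
        Real.exp (((N : ℝ) + 1) * (1 - 4 / ε' * ε')) := by
    intro t ζ
    have h := peel' (I := Fin T × Fin (N + 1)) (A := (Fin (4 * k) → Bool) → Bool × J)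
      (K := Fin (N + 1)) (fun τ => (t, τ)) (fun τ ξ => BadGt x walsh ε' t ζ τ ξ)
      (fun τ τ' hτ ξ r => badGt_update x walsh ε' t ζ hτ ξ r) (4 / ε') ε' ha
      (fun τ ξ => by
        refine le_trans ?_ h2
        have h4 := pr_badGt x walsh ε' (2 ^ k) hε'0 hε'1 hq hn t ζ τ ξ
        rw [hΩ, hcardR] at h4
        exact h4)
    rwa [hΩ] at h
  have hU := pr_exists_le_card
    (β := Fin T × ((Fin (4 * k) → Bool) → (Fin T → (Fin (4 * k) → Bool)) →
      Fin (2 * R + 1) × Fin (2 * R + 1)))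
    (fun b (ξ : Fin T × Fin (N + 1) → (Fin (4 * k) → Bool) → Bool × J) =>
      (ε' < pr fun τ => BadLt x walsh ε' b.1 (fun c cs => grid 𝕜 R (b.2 c cs)) τ ξ) ∨
      (ε' < pr fun τ => BadGt x walsh ε' b.1 (fun c cs => grid 𝕜 R (b.2 c cs)) τ ξ))
    (δ := 2 * Real.exp (((N : ℝ) + 1) * (1 - 4 / ε' * ε')))
    (fun b => by
      refine (pr_or_le _ _).trans ?_
      have h5 := hLt b.1 (fun c cs => grid 𝕜 R (b.2 c cs))
      have h6 := hGt b.1 (fun c cs => grid 𝕜 R (b.2 c cs))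
      linarith)
  have hc : (Fintype.card (Fin T × ((Fin (4 * k) → Bool) → (Fin T → (Fin (4 * k) → Bool)) →
      Fin (2 * R + 1) × Fin (2 * R + 1))) : ℝ) =
      (T : ℝ) * ((2 * (R : ℝ) + 1) ^ 2) ^ (16 ^ k * (16 ^ k) ^ T) := by
    rw [Fintype.card_prod, Fintype.card_fin, Fintype.card_fun, Fintype.card_fun, Fintype.card_fun,
      hcard, Fintype.card_prod, Fintype.card_fin, Fintype.card_fin, ← pow_mul,
      mul_comm ((16 ^ k) ^ T) (16 ^ k)]
    push_cast
    rw [sq]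
  rw [hc] at hU
  obtain ⟨ξ, hξ⟩ := exists_not_of_pr_lt_one (hU.trans_lt (by linarith))
  refine ⟨4 * k, N, ξ, Key.mono x walsh
    (key_of_grid x walsh hx hW ξ ε' hε'0 hε'1 R hR (by rw [hcardR]; exact h1) fun t g => ?_) hε'4⟩
  constructor
  · by_contra hcon
    exact hξ ⟨(t, g), Or.inl (not_le.1 hcon)⟩
  · by_contra hcon
    exact hξ ⟨(t, g), Or.inr (not_le.1 hcon)⟩

end Pool.Agent.Lib.MP_e0f470_an.Rob
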