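import Pool.Agent.Lib.MP_e0f470_an.RStep

/-! One level of the collapse, for all parameters at once. -/

set_option autoImplicit false

namespace Pool.Agent.Lib.MP_e0f470_an.Rob

open Finset Filter
open scoped BigOperators Topology

variable {𝕜 : Type} [RCLike 𝕜]

variable {J X Ω Φ : Type} [Fintype J] [Fintype X] [Fintype Ω] [Fintype Φ] [DecidableEq J]
  [DecidableEq Φ] {T : ℕ} {x : X → J → 𝕜} {W : Φ → Φ → ℝ} {ξ : Fin T × Ω → Φ → Bool × J} {ε : ℝ}

omit [Fintype X] [Fintype Ω] [Fintype Φ] [DecidableEq Φ] in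
lemma lev_update_own {t : ℕ} (ht : t < T) (cs : Fin T → Φ) (τs : Fin T → Ω) (xs : Fin T → X)
    (τ : Ω) (i' : X) : Function.update (lab t cs τs xs) ⟨t, ht⟩ (own τ i') =
      lab t cs (Function.update τs ⟨t, ht⟩ τ) (Function.update xs ⟨t, ht⟩ i') := by
  funext s
  by_cases hs : s = ⟨t, ht⟩
  · subst hs
    simp [lab]
  · simp [lab, Function.update_of_ne hs]

omit [Fintype X] [Fintype Ω] [Fintype Φ] [DecidableEq Φ] in
lemma lev_update_del {t : ℕ} (ht : t < T) (cs : Fin T → Φ) (τs : Fin T → Ω) (xs : Fin T → X) :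
    Function.update (lab t cs τs xs) ⟨t, ht⟩ (del (cs ⟨t, ht⟩)) = lab (t + 1) cs τs xs := by
  funext s
  by_cases hs : s = ⟨t, ht⟩
  · subst hs
    simp [lab]
  · have h1 : (s : ℕ) ≠ t := fun h => hs (Fin.ext h)
    have h2 : (s : ℕ) < t + 1 ↔ (s : ℕ) < t := by omega
    simp only [lab, Function.update_of_ne hs, h2]

omit [Fintype X] [Fintype Ω] [Fintype Φ] [DecidableEq Φ] in
lemma lev_lab_update {t : ℕ} (ht : t < T) (cs : Fin T → Φ) (τs : Fin T → Ω) (xs : Fin T → X)
    (c : Φ) : lab t (Function.update cs ⟨t, ht⟩ c) τs xs = lab t cs τs xs := by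
  funext s
  by_cases hs : s = ⟨t, ht⟩
  · subst hs
    simp [lab]
  · simp only [lab, Function.update_of_ne hs]

/-- Let `t' = ⟨t, ht⟩`, fix `c0 : Φ` and write `m cs τs = ⨆ xs, p (𝒥 (gen (lab t cs τs xs)))`
(at most two by `bn_gen_le`; it does not depend on `cs t'`). For `(cs, τs, xs)` apply `step` to
`γ = lab t cs τs xs` and `Λ τ = m cs (update τs t' τ) + η`, using
`update (lab t cs τs xs) t' (own τ i') = lab t cs (update τs t' τ) (update xs t' i')` and
`update (lab t cs τs xs) t' (del c) = lab (t + 1) (update cs t' c) τs xs`. Choose `Z'`, `dev'` as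
functions of `(cs, τs, xs)` and put `Z cs τs xs = Z' (update cs t' c0) τs xs (cs t')` and
`g cs τs = ra (Λ) / 2 + ∑ xs, dev' (update cs t' c0) τs xs (cs t')`. Compute the averages with
`ra_update` (in `cs` at `t'` for `dev'`, in `τs` at `t'` for `Λ`), `ra_comm` and `ra_sum`. -/
theorem level [Nonempty J] [Nonempty X] [Nonempty Ω] [Nonempty Φ] (F : Frame 𝕜) (i : ℕ)
    (hN : Nice x) (hR : Rig x W ξ ε) (hC : Cap F i x ξ ε) (hε : 0 ≤ ε) (p : Seminorm 𝕜 F.D)
    (M : ℝ) (hp : F.Ren p M) (𝒥 : ((Fin T → Φ) → 𝕜) →ₗ[𝕜] F.D)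
    (h𝒥 : ∀ u, F.nrm (𝒥 u) ≤ 2 * bn x W ξ u) (h𝒥s : ∀ u β, β.1 ≠ i → 𝒥 u β = 0)
    (H : ∀ a : (J → 𝕜) →ₗ[𝕜] F.D, (∀ y β, β.1 ≠ i → a y β = 0) → ¬ Fac x p a) (t : ℕ)
    (ht : t < T) (η : ℝ) (hη : 0 < η) (hη1 : η ≤ 1) :
    ∃ (Z : (Fin T → Φ) → (Fin T → Ω) → (Fin T → X) → F.D)
      (g : (Fin T → Φ) → (Fin T → Ω) → ℝ),
      (∀ cs τs xs β, β.1 ≤ i → Z cs τs xs β = 0) ∧
      (∀ cs τs xs, F.nrm (Z cs τs xs) ≤ 3 * Fintype.card J * M) ∧
      (∀ cs τs xs, p (𝒥 (gen x W ξ (lab (t + 1) cs τs xs)) + Z cs τs xs) ≤ g cs τs) ∧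
      (ra fun cs => ra fun τs => g cs τs) ≤ lam x W ξ p 𝒥 t / 2 + η +
        (Fintype.card X : ℝ) ^ T * (30 * (Fintype.card J : ℝ) ^ 2 * M * ε) := by
  classical
  obtain ⟨c0⟩ : Nonempty Φ := inferInstance
  set t' : Fin T := ⟨t, ht⟩ with ht'
  let m : (Fin T → Φ) → (Fin T → Ω) → ℝ := fun cs τs =>
    ⨆ xs : Fin T → X, p (𝒥 (gen x W ξ (lab t cs τs xs)))
  have hle : ∀ cs τs xs, p (𝒥 (gen x W ξ (lab t cs τs xs))) ≤ m cs τs := fun cs τs xs =>
    Finite.le_ciSup (fun xs : Fin T → X => p (𝒥 (gen x W ξ (lab t cs τs xs)))) xs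
  have hm2 : ∀ cs τs, m cs τs ≤ 2 := fun cs τs => ciSup_le fun xs => by
    have h1 := hp.2.1 (𝒥 (gen x W ξ (lab t cs τs xs)))
    have h2 := h𝒥 (gen x W ξ (lab t cs τs xs))
    have h3 := bn_gen_le x W ξ (lab t cs τs xs)
    linarith
  have hm0 : ∀ cs τs, 0 ≤ m cs τs := fun cs τs =>
    (apply_nonneg p _).trans (hle cs τs (Classical.arbitrary _))
  have hstep := fun (cs : Fin T → Φ) (τs : Fin T → Ω) (xs : Fin T → X) =>
    step F i hN hR hC hε p M hp 𝒥 h𝒥 h𝒥s H t' (lab t cs τs xs)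
      (fun τ => m cs (Function.update τs t' τ) + η)
      (fun τ => by have := hm0 cs (Function.update τs t' τ); linarith)
      (fun τ => by have := hm2 cs (Function.update τs t' τ); linarith)
      (fun τ i' => by
        rw [ht', lev_update_own ht]
        have := hle cs (Function.update τs t' τ) (Function.update xs t' i')
        linarith)
  choose Z' dev' h1 h2 h3 h4 h5 using hstep
  have hmu : ∀ cs τs c, m (Function.update cs t' c) τs = m cs τs := fun cs τs c => by
    simp only [m, ht', lev_lab_update ht]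
  refine ⟨fun cs τs xs => Z' (Function.update cs t' c0) τs xs (cs t'),
    fun cs τs => (ra fun τ => m cs (Function.update τs t' τ) + η) / 2 +
      ∑ xs, dev' (Function.update cs t' c0) τs xs (cs t'),
    fun cs τs xs β hβ => h1 _ _ _ _ β hβ, fun cs τs xs => h2 _ _ _ _, fun cs τs xs => ?_, ?_⟩
  · have h6 := h5 (Function.update cs t' c0) τs xs (cs t')
    simp only [hmu] at h6
    rw [ht', lev_lab_update ht, lev_update_del ht] at h6
    refine h6.trans (add_le_add le_rfl ?_)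
    exact Finset.single_le_sum (f := fun xs => dev' (Function.update cs t' c0) τs xs (cs t'))
      (fun xs _ => h3 _ _ _ _) (Finset.mem_univ xs)
  · have e1 : (ra fun cs => ra fun τs => (ra fun τ => m cs (Function.update τs t' τ) + η) / 2) =
        (lam x W ξ p 𝒥 t + η) / 2 := by
      simp only [ra_div_const, ra_add, ra_const]
      congr 2
      unfold lam
      congr 1
      funext cs
      exact (ra_update t' (m cs)).symm
    have e2 : ∀ xs, (ra fun cs => ra fun τs => dev' (Function.update cs t' c0) τs xs (cs t')) ≤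
        30 * (Fintype.card J : ℝ) ^ 2 * M * ε := fun xs => by
      rw [ra_comm]
      refine ra_le_of_le' fun τs => ?_
      rw [ra_update t']
      refine ra_le_of_le' fun cs => ?_
      simp only [Function.update_idem, Function.update_self]
      exact h4 _ _ _
    simp only [ra_add (fun τs => (ra fun τ => m _ (Function.update τs t' τ) + η) / 2), ra_sum]
    rw [ra_add, e1, ra_sum]
    have e3 : ∑ xs : Fin T → X,
        (ra fun cs => ra fun τs => dev' (Function.update cs t' c0) τs xs (cs t')) ≤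
          (Fintype.card X : ℝ) ^ T * (30 * (Fintype.card J : ℝ) ^ 2 * M * ε) := by
      refine (Finset.sum_le_sum fun xs _ => e2 xs).trans (le_of_eq ?_)
      rw [Finset.sum_const, Finset.card_univ, Fintype.card_fun, Fintype.card_fin, nsmul_eq_mul]
      push_cast
      rfl
    linarith

end Pool.Agent.Lib.MP_e0f470_an.Rob
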