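import Pool.Agent.Lib.MP_e0f470_an.RGlue
import Pool.Agent.Lib.MP_e0f470_an.RFrame
import Pool.Agent.Lib.MP_e0f470_an.RBasis
import Pool.Agent.Lib.MP_e0f470_an.Defs

/-! The counterexample. -/

set_option autoImplicit false

namespace Pool.Agent.Lib.MP_e0f470_an.Rob

open Finset Filter
open scoped BigOperators Topology

variable {𝕜 : Type} [RCLike 𝕜]

/-- A copy of the space of finitely supported families, to carry the norm. -/
def DN (F : Frame 𝕜) : Type := F.D

noncomputable instance instAddCommGroupDN (F : Frame 𝕜) : AddCommGroup (DN F) :=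
  inferInstanceAs (AddCommGroup F.D)

noncomputable instance instModuleDN (F : Frame 𝕜) : Module 𝕜 (DN F) :=
  inferInstanceAs (Module 𝕜 F.D)

/-- The identity map to the copy. -/
noncomputable def toDN (F : Frame 𝕜) : F.D ≃ₗ[𝕜] DN F := LinearEquiv.refl 𝕜 F.D

noncomputable instance instNormedAddCommGroupDN (F : Frame 𝕜) : NormedAddCommGroup (DN F) :=
  AddGroupNorm.toNormedAddCommGroup
    { toFun := fun x => F.nrm ((toDN F).symm x)
      map_zero' := by rw [map_zero]; exact F.nrm_zero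
      add_le' := fun x y => by rw [map_add]; exact F.nrm_add_le _ _
      neg' := fun x => by rw [map_neg]; exact F.nrm_neg _
      eq_zero_of_map_eq_zero' := fun x hx => by
        simpa using F.eq_zero_of_nrm hx }

lemma norm_DN (F : Frame 𝕜) (x : DN F) : ‖x‖ = F.nrm ((toDN F).symm x) := rfl

noncomputable instance instNormedSpaceDN (F : Frame 𝕜) : NormedSpace 𝕜 (DN F) where
  norm_smul_le a x := by rw [norm_DN, norm_DN, map_smul, F.nrm_smul]

/-- Every space isomorphic to the completion has a basis with bounded constant. -/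
theorem basis_of_iso (F : Frame 𝕜) (hF : Robust F) : ∃ C : ℝ, 1 ≤ C ∧
    ∀ (X : Type) [NormedAddCommGroup X] [NormedSpace 𝕜 X],
      (UniformSpace.Completion (DN F) ≃L[𝕜] X) →
        ∃ b : SchauderBasis 𝕜 X, ∀ k, ‖b.proj k‖ ≤ C := by
  obtain ⟨C, hC, h⟩ := basis_of_univ (𝕜 := 𝕜) 3 96 (by norm_num) (by norm_num)
  refine ⟨C, hC, fun X _ _ e => ?_⟩
  have : CompleteSpace X :=
    (completeSpace_congr (e := e.toEquiv) e.isUniformEmbedding).1 inferInstance
  set A : ℝ := ‖(e : UniformSpace.Completion (DN F) →L[𝕜] X)‖ + 1 with hA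
  set B : ℝ := ‖(e.symm : X →L[𝕜] UniformSpace.Completion (DN F))‖ + 1 with hB
  have hA1 : 1 ≤ A := le_add_of_nonneg_left (norm_nonneg _)
  have hB1 : 1 ≤ B := le_add_of_nonneg_left (norm_nonneg _)
  have hA0 : 0 < A := by linarith
  let ι0 : F.D →ₗ[𝕜] UniformSpace.Completion (DN F) :=
    (UniformSpace.Completion.toComplₗᵢ (𝕜 := 𝕜) (E := DN F)).toLinearMap ∘ₗ (toDN F).toLinearMap
  have hι0 : ∀ x, ‖ι0 x‖ = F.nrm x := fun x => by
    change ‖UniformSpace.Completion.toComplₗᵢ (𝕜 := 𝕜) (E := DN F) (toDN F x)‖ = _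
    rw [LinearIsometry.norm_map, norm_DN, LinearEquiv.symm_apply_apply]
  let ι : F.D →ₗ[𝕜] X := ((A⁻¹ : ℝ) : 𝕜) • (e.toLinearEquiv.toLinearMap ∘ₗ ι0)
  have hι : ∀ x, ‖ι x‖ = A⁻¹ * ‖e (ι0 x)‖ := fun x => by
    change ‖((A⁻¹ : ℝ) : 𝕜) • e (ι0 x)‖ = _
    rw [norm_smul, RCLike.norm_ofReal, abs_of_pos (inv_pos.2 hA0)]
  have hd0 : DenseRange ι0 :=
    UniformSpace.Completion.denseRange_coe.comp (toDN F).surjective.denseRange
      (UniformSpace.Completion.continuous_coe _)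
  have hd : DenseRange ι := by
    have hne : ((A⁻¹ : ℝ) : 𝕜) ≠ 0 := by exact_mod_cast (inv_pos.2 hA0).ne'
    have hs : Function.Surjective fun y : UniformSpace.Completion (DN F) =>
        ((A⁻¹ : ℝ) : 𝕜) • e y := fun z => ⟨e.symm (((A⁻¹ : ℝ) : 𝕜)⁻¹ • z), by
      simp only [ContinuousLinearEquiv.apply_symm_apply, smul_inv_smul₀ hne]⟩
    exact hs.denseRange.comp hd0 (e.continuous.const_smul _)
  have h1 : ∀ x, ‖ι x‖ ≤ F.nrm x := fun x => by
    rw [hι, inv_mul_le_iff₀ hA0, ← hι0]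
    have := (e : UniformSpace.Completion (DN F) →L[𝕜] X).le_opNorm (ι0 x)
    simp only [ContinuousLinearEquiv.coe_coe] at this
    nlinarith [norm_nonneg (ι0 x)]
  have h2 : ∀ x, F.nrm x ≤ (A * B) * ‖ι x‖ := fun x => by
    rw [hι, ← hι0]
    have := (e.symm : X →L[𝕜] UniformSpace.Completion (DN F)).le_opNorm (e (ι0 x))
    simp only [ContinuousLinearEquiv.coe_coe, ContinuousLinearEquiv.symm_apply_apply] at this
    have h3 : A * B * (A⁻¹ * ‖e (ι0 x)‖) = B * ‖e (ι0 x)‖ := by field_simp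
    rw [h3]
    nlinarith [norm_nonneg (e (ι0 x))]
  have hM : 1 ≤ A * B := one_le_mul_of_one_le_of_one_le hA1 hB1
  obtain ⟨S, hS, hS'⟩ := exists_fdd F ι (A * B) hd hM h1 h2
  exact h X S hS (mult_of_frame F ι (A * B) hd hM h1 h2 S hS')
    (univ_of_frame F ι (A * B) hF hd hM h1 h2 S hS')

/-- The basis constant is at least one. -/
lemma one_le_projBound {X : Type} [NormedAddCommGroup X] [NormedSpace 𝕜 X] [CompleteSpace X]
    (b : SchauderBasis 𝕜 X) : (1 : ℝ) ≤ b.nnnormProjBound := by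
  have h0 : b 0 ≠ 0 := b.linearIndependent.ne_zero 0
  have h1 : b.proj 1 (b 0) = b 0 := by rw [b.proj_apply_basis_mem]; simp
  have h2 := (b.proj 1).le_opNorm (b 0)
  rw [h1] at h2
  have h3 : 0 < ‖b 0‖ := norm_pos_iff.2 h0
  have h4 : (1 : ℝ) ≤ ‖b.proj 1‖ := by
    by_contra hc
    nlinarith [not_le.1 hc]
  exact h4.trans (b.norm_proj_le_nnnormProjBound 1)

theorem exists_counterexample (𝕜 : Type) [RCLike 𝕜] :
    ∃ (E : Type) (_ : NormedAddCommGroup E) (_ : NormedSpace 𝕜 E), CompleteSpace E ∧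
      ¬ FiniteDimensional 𝕜 E ∧ Nonempty (SchauderBasis 𝕜 E) ∧ ∃ n : ℕ, 1 ≤ n ∧
        ∀ (X : Type) [NormedAddCommGroup X] [NormedSpace 𝕜 X], Nonempty (E ≃L[𝕜] X) →
          1 / (n : ℝ) ≤ basisIndex 𝕜 X := by
  obtain ⟨F, hF⟩ := exists_robust (𝕜 := 𝕜)
  obtain ⟨C, hC, h⟩ := basis_of_iso F hF
  obtain ⟨b0, -⟩ := h _ (ContinuousLinearEquiv.refl 𝕜 _)
  refine ⟨UniformSpace.Completion (DN F), inferInstance, inferInstance, inferInstance, ?_, ⟨b0⟩,
    ⌈C⌉₊, Nat.one_le_ceil_iff.2 (by linarith), ?_⟩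
  · intro hfin
    exact not_finite_iff_infinite.2 (inferInstance : Infinite ℕ) b0.linearIndependent.finite
  · rintro X _ _ ⟨e⟩
    have : CompleteSpace X :=
      (completeSpace_congr (e := e.toEquiv) e.isUniformEmbedding).1 inferInstance
    obtain ⟨b, hb⟩ := h X e
    have hle : (b.nnnormProjBound : ℝ) ≤ C := by
      have hC0 : (0 : ℝ) ≤ C := by linarith
      have h5 : b.nnnormProjBound ≤ C.toNNReal := ciSup_le fun k => by
        rw [← NNReal.coe_le_coe, Real.coe_toNNReal C hC0, coe_nnnorm]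
        exact hb k
      have h6 := NNReal.coe_le_coe.2 h5
      rwa [Real.coe_toNNReal C hC0] at h6
    refine le_trans ?_ (le_ciSup (f := fun b' : SchauderBasis 𝕜 X => ((b'.nnnormProjBound : ℝ))⁻¹)
      ⟨1, by
        rintro _ ⟨b', rfl⟩
        exact inv_le_one_of_one_le₀ (one_le_projBound b')⟩ b)
    rw [one_div]
    exact inv_anti₀ (lt_of_lt_of_le zero_lt_one (one_le_projBound b)) (hle.trans (Nat.le_ceil C))

end Pool.Agent.Lib.MP_e0f470_an.Rob
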