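import Pool.Agent.Lib.MP_e0f470_an.RShr
import Pool.Agent.Lib.MP_e0f470_an.RUlt

/-! A lemma of Mazur type for renormings. -/

set_option autoImplicit false

namespace Pool.Agent.Lib.MP_e0f470_an.Rob

open Finset Filter
open scoped BigOperators Topology

variable {𝕜 : Type} [RCLike 𝕜]

/-- A norming functional for a seminorm. -/
lemma maz_norming {E : Type} [AddCommGroup E] [Module 𝕜 E] (p : Seminorm 𝕜 E) (u : E) :
    ∃ φ : E →ₗ[𝕜] 𝕜, φ u = ((p u : ℝ) : 𝕜) ∧ ∀ x, ‖φ x‖ ≤ p x := by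
  by_cases hu : u = 0
  · refine ⟨0, by simp [hu], fun x => by simp⟩
  let f : Module.Dual 𝕜 (Submodule.span 𝕜 ({u} : Set E)) :=
    ((p u : ℝ) : 𝕜) • (LinearEquiv.coord 𝕜 E u hu).toLinearMap
  have hf : ∀ x, ‖f x‖ ≤ p x := by
    intro x
    have hx : (LinearEquiv.coord 𝕜 E u hu x) • u = (x : E) := LinearEquiv.coord_apply_smul 𝕜 E u hu x
    have h1 : p x = ‖LinearEquiv.coord 𝕜 E u hu x‖ * p u := by
      rw [← map_smul_eq_mul, hx]
    rw [h1]
    simp only [f, LinearMap.smul_apply, LinearEquiv.coe_coe, smul_eq_mul, norm_mul,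
      RCLike.norm_ofReal, abs_of_nonneg (apply_nonneg p u)]
    rw [mul_comm]
  obtain ⟨g, hg, hle⟩ := Module.Dual.exists_extension_of_le_seminorm _ f hf
  refine ⟨g, ?_, hle⟩
  have h2 := hg ⟨u, Submodule.mem_span_singleton_self u⟩
  simp only [f, LinearMap.smul_apply, LinearEquiv.coe_coe, smul_eq_mul] at h2
  rw [h2, LinearEquiv.coord_self, mul_one]

/-- A vector with prescribed blocks on a finite set. -/
lemma maz_exists_vec (F : Frame 𝕜) (A : Finset Bk) (z : ∀ β : Bk, F.C β.1 → 𝕜) :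
    ∃ w : F.D, (∀ β ∈ A, w β = z β) ∧ ∀ β, β ∉ A → w β = 0 := by
  classical
  refine ⟨∑ β ∈ A, F.sing β (z β), fun β hβ => ?_, fun β hβ => ?_⟩
  · rw [DFinsupp.finsetSum_apply, Finset.sum_eq_single β]
    · exact F.sing_apply_self β _
    · intro b _ hb
      exact F.sing_apply_ne (Ne.symm hb) _
    · intro h
      exact absurd hβ h
  · rw [DFinsupp.finsetSum_apply]
    refine Finset.sum_eq_zero fun b hb => F.sing_apply_ne ?_ _
    rintro rfl
    exact hβ hb

/-- Mazur's lemma. Otherwise there are `u m`, `v m` with `p (u m) = 1`, `p (u m + v m) < 1 / 2`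
and `v m` vanishing on `box m m`. The finitely many coordinates of `u m` are bounded by `M` and
converge along the hyperfilter (`exists_ulim`) to those of some `u` supported in the box, with
`nrm (u m - u)` small (`nrm_le_sum`, `ν_le`). Take `φ` with `φ u = p u` and `‖φ x‖ ≤ p x`
(`Module.Dual.exists_extension_of_le_seminorm`) and use `shrink`, as `nrm (v m) ≤ 3 M / 2`. -/
theorem mazur (F : Frame 𝕜) (p : Seminorm 𝕜 F.D) (M : ℝ) (hp : F.Ren p M) (I n : ℕ) :
    ∃ n' : ℕ, ∀ u v : F.D, (∀ β, β ∉ box I n → u β = 0) → (∀ β ∈ box n' n', v β = 0) →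
      p u ≤ 2 * p (u + v) := by
  by_contra hcon
  push Not at hcon
  obtain ⟨hM, hpn, hnp⟩ := hp
  have hM0 : 0 < M := by linarith
  have hnorm : ∀ m : ℕ, ∃ u v : F.D, (∀ β, β ∉ box I n → u β = 0) ∧ (∀ β ∈ box m m, v β = 0) ∧
      p u = 1 ∧ p (u + v) < 1 / 2 := by
    intro m
    obtain ⟨u, v, hu, hv, hlt⟩ := hcon m
    have hpos : 0 < p u := lt_of_le_of_lt (by positivity) hlt
    have hn : ‖(((p u)⁻¹ : ℝ) : 𝕜)‖ = (p u)⁻¹ := by
      rw [RCLike.norm_ofReal, abs_of_nonneg (inv_nonneg.2 hpos.le)]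
    refine ⟨(((p u)⁻¹ : ℝ) : 𝕜) • u, (((p u)⁻¹ : ℝ) : 𝕜) • v, fun β hβ => ?_, fun β hβ => ?_,
      ?_, ?_⟩
    · rw [DFinsupp.smul_apply, hu β hβ, smul_zero]
    · rw [DFinsupp.smul_apply, hv β hβ, smul_zero]
    · rw [map_smul_eq_mul, hn, inv_mul_cancel₀ hpos.ne']
    · have hs : (((p u)⁻¹ : ℝ) : 𝕜) • u + (((p u)⁻¹ : ℝ) : 𝕜) • v
          = (((p u)⁻¹ : ℝ) : 𝕜) • (u + v) := by
        ext β c
        simp only [DFinsupp.add_apply, DFinsupp.smul_apply, Pi.add_apply, Pi.smul_apply,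
          smul_eq_mul]
        ring
      rw [hs, map_smul_eq_mul, hn, inv_mul_lt_iff₀ hpos]
      linarith
  choose u v hu hv hu1 huv using hnorm
  have hcoord : ∀ (β : Bk) (c : F.C β.1) (m : ℕ), ‖u m β c‖ ≤ M := by
    intro β c m
    have h1 := F.norm_apply_le_nrm (u m) β c
    have h2 := hnp (u m)
    rw [hu1 m, mul_one] at h2
    exact h1.trans h2
  have hlim : ∀ (β : Bk) (c : F.C β.1), ∃ z : 𝕜, ∀ ε : ℝ, 0 < ε →
      ∀ᶠ m in (hyperfilter ℕ : Filter ℕ), ‖u m β c - z‖ ≤ ε :=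
    fun β c => exists_ulim (hyperfilter ℕ) (fun m => u m β c) M (hcoord β c)
  choose z hz using hlim
  set A : Finset Bk := (box_finite I n).toFinset with hA
  have hmemA : ∀ β, β ∈ A ↔ β ∈ box I n := fun β => Set.Finite.mem_toFinset _
  obtain ⟨w, hwA, hwA'⟩ := maz_exists_vec F A z
  set K : ℝ := ∑ β ∈ A, (Fintype.card (F.C β.1) : ℝ) with hK
  have hK0 : 0 ≤ K := Finset.sum_nonneg fun β _ => Nat.cast_nonneg _
  have hε : 0 < 1 / (16 * (K + 1)) := by positivity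
  have hev : ∀ᶠ m in (hyperfilter ℕ : Filter ℕ), ∀ β ∈ A, ∀ c : F.C β.1,
      ‖u m β c - z β c‖ ≤ 1 / (16 * (K + 1)) := by
    rw [Filter.eventually_all_finset]
    intro β _
    rw [Filter.eventually_all]
    intro c
    exact hz β c _ hε
  obtain ⟨φ, hφw, hφ⟩ := maz_norming p w
  obtain ⟨n₀, hn₀⟩ := shrink F φ (fun x => (hφ x).trans (hpn x)) (1 / (16 * M)) (by positivity)
  have hev2 : ∀ᶠ m in (hyperfilter ℕ : Filter ℕ), n₀ ≤ m :=
    (eventually_ge_atTop n₀).filter_mono Nat.hyperfilter_le_atTop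
  obtain ⟨m, hm1, hm2⟩ := (hev.and hev2).exists
  have hclose : F.nrm (u m - w) ≤ 1 / 8 := by
    have h1 := F.nrm_le_sum (u m - w) A fun β hβ => by
      rw [DFinsupp.sub_apply, hu m β fun h => hβ ((hmemA β).2 h), hwA' β hβ, sub_zero]
    have h2 : ∑ β ∈ A, F.ν β.1 ((u m - w) β) ≤
        ∑ β ∈ A, (Fintype.card (F.C β.1) : ℝ) * (1 / (16 * (K + 1))) := by
      refine Finset.sum_le_sum fun β hβ => (F.ν_le _ _).trans ?_
      have h3 : ∑ c, ‖(u m - w) β c‖ ≤ ∑ _c : F.C β.1, 1 / (16 * (K + 1)) := by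
        refine Finset.sum_le_sum fun c _ => ?_
        rw [DFinsupp.sub_apply, hwA β hβ, Pi.sub_apply]
        exact hm1 β hβ c
      simpa [Finset.sum_const, nsmul_eq_mul] using h3
    rw [← Finset.sum_mul, ← hK] at h2
    have h4 : K * (1 / (16 * (K + 1))) ≤ 1 / 16 := by
      rw [mul_one_div, div_le_div_iff₀ (by positivity) (by norm_num)]
      linarith
    linarith
  have hv0 : ∀ β ∈ box n₀ n₀, v m β = 0 := fun β hβ => hv m β (box_mono hm2 hm2 hβ)
  have hpv : p (v m) ≤ 3 / 2 := by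
    have h1 := map_sub_le_add p (u m + v m) (u m)
    rw [add_sub_cancel_left, hu1 m] at h1
    linarith [huv m]
  have hφv : ‖φ (v m)‖ ≤ 3 / 32 := by
    have h1 := hn₀ (v m) hv0
    have h2 : F.nrm (v m) ≤ M * (3 / 2) :=
      (hnp (v m)).trans (mul_le_mul_of_nonneg_left hpv hM0.le)
    have h3 : 1 / (16 * M) * F.nrm (v m) ≤ 1 / (16 * M) * (M * (3 / 2)) :=
      mul_le_mul_of_nonneg_left h2 (by positivity)
    have h4 : 1 / (16 * M) * (M * (3 / 2)) = 3 / 32 := by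
      field_simp
      norm_num
    linarith
  have hd : p (u m - w) ≤ 1 / 8 := (hpn _).trans hclose
  have hpw : 7 / 8 ≤ p w := by
    have h1 := map_add_le_add p (u m - w) w
    rw [sub_add_cancel, hu1 m] at h1
    linarith
  have hid : φ w = φ (u m + v m) - φ (u m - w) - φ (v m) := by
    simp only [map_add, map_sub]
    ring
  have hnw : ‖φ w‖ = p w := by
    rw [hφw, RCLike.norm_ofReal, abs_of_nonneg (apply_nonneg p w)]
  have h5 : ‖φ w‖ ≤ ‖φ (u m + v m)‖ + ‖φ (u m - w)‖ + ‖φ (v m)‖ := by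
    rw [hid]
    exact (norm_sub_le _ _).trans (add_le_add_left (norm_sub_le _ _) _)
  have h6 := hφ (u m + v m)
  have h7 := hφ (u m - w)
  linarith [huv m]

end Pool.Agent.Lib.MP_e0f470_an.Rob
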