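import Pool.Agent.Lib.MP_e0f470_an.RMaz

/-! Uniformly bounded diagonal multipliers for a renorming. -/

set_option autoImplicit false

namespace Pool.Agent.Lib.MP_e0f470_an.Rob

open Finset Filter
open scoped BigOperators Topology

variable {𝕜 : Type} [RCLike 𝕜]

lemma rmul_mul_ra (F : Frame 𝕜) {α : Type} [Fintype α] (t : α → Bk → ℝ) (x : F.D) :
    F.mul (fun β => ra fun s => t s β) x = av 𝕜 fun s => F.mul (t s) x := by
  ext1 β
  rw [F.av_apply_blk, F.mul_apply, ← av_ofReal, ← av_smul_const]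
  simp only [F.mul_apply]

lemma rmul_ra_le {r : ℕ} (hr : 0 < r) (f : Fin r → ℝ) {c : ℝ} (hc : 0 ≤ c)
    (h : ∑ s, f s ^ 2 ≤ c ^ 2) : ra f ≤ c / √r := by
  refine (ra_le_sqrt f).trans ?_
  have hr' : (0 : ℝ) < r := by exact_mod_cast hr
  rw [← Real.sqrt_sq hc, ← Real.sqrt_div (sq_nonneg c)]
  refine Real.sqrt_le_sqrt ?_
  rw [ra, Fintype.card_fin, div_eq_inv_mul]
  exact mul_le_mul_of_nonneg_left h (by positivity)

lemma rmul_exists_r (c : ℝ) {δ : ℝ} (hδ : 0 < δ) : ∃ r : ℕ, 0 < r ∧ c / √r ≤ δ := by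
  obtain ⟨r, hr⟩ := exists_nat_gt ((c / δ) ^ 2)
  have h0 : (0 : ℝ) < r := (sq_nonneg _).trans_lt hr
  refine ⟨r, by exact_mod_cast h0, ?_⟩
  have h1 : c / δ ≤ √r := Real.le_sqrt_of_sq_le hr.le
  rw [div_le_iff₀ (Real.sqrt_pos.2 h0)]
  rw [div_le_iff₀ hδ] at h1
  linarith

/-- Inner average. With `Lm = ∑ k ∈ range I, L k` take `r` with `(1 + √Lm) / √r ≤ δ`. Choose
`n = n 0 ≤ n 1 ≤ …` and one `I' ≥ I` such that `mazur` holds for `box I (n s)` and
`box I' (n (s + 1))`. For `u = res (box I (n s)) x`, `v = res (box I' (n (s + 1)))ᶜ x` the rest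
`x - u - v` is the sum of a part with kinds in `[I, I')` and of the restriction to
`box I (n (s + 1)) \ box I (n s)`; these last sets are disjoint (`N1_lower`, `nrm_le_sqrt`,
Cauchy-Schwarz). Let `t` be the average of the indicators of `box I (n s)`, `s < r`. -/
theorem mult_inner (F : Frame 𝕜) (p : Seminorm 𝕜 F.D) (M : ℝ) (hp : F.Ren p M) (I n : ℕ) (δ : ℝ)
    (hδ : 0 < δ) : ∃ (I' n' : ℕ) (t : Bk → ℝ), I ≤ I' ∧ (∀ β ∈ box I n, t β = 1) ∧
      (∀ β, β ∉ box I n' → t β = 0) ∧ ∀ x, p (F.mul t x) ≤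
        2 * (p x + F.nrm (F.res {β | β.1 ∈ Set.Ico I I'} x) + δ * F.nrm x) := by
  classical
  choose g hg using mazur F p M hp I
  set Lm : ℝ := ∑ k ∈ range I, (F.L k : ℝ) with hLm
  obtain ⟨r, hr, hrδ⟩ := rmul_exists_r (1 + √Lm) hδ
  have : Nonempty (Fin r) := ⟨⟨0, hr⟩⟩
  let ns : ℕ → ℕ := fun s => Nat.rec n (fun _ m => max m (g m)) s
  have ns0 : ns 0 = n := rfl
  have nsS : ∀ s, ns (s + 1) = max (ns s) (g (ns s)) := fun s => rfl
  have nsm : Monotone ns := monotone_nat_of_le_succ fun s => by rw [nsS]; exact le_max_left _ _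
  refine ⟨max I (ns r), ns r, fun β => ra fun s : Fin r => (box I (ns s)).indicator 1 β,
    le_max_left _ _, fun β hβ => ?_, fun β hβ => ?_, fun x => ?_⟩
  · have : (fun s : Fin r => (box I (ns s)).indicator (1 : Bk → ℝ) β) = fun _ => 1 := by
      funext s
      rw [Set.indicator_of_mem (box_mono le_rfl (ns0 ▸ nsm (Nat.zero_le s)) hβ)]
      rfl
    simp only [this, ra_const]
  · have : (fun s : Fin r => (box I (ns s)).indicator (1 : Bk → ℝ) β) = fun _ => 0 := by
      funext s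
      exact Set.indicator_of_notMem (fun h => hβ (box_mono le_rfl (nsm s.2.le) h)) _
    simp only [this, ra_zero]
  set I' := max I (ns r) with hI'
  set K : Set Bk := {β | β.1 ∈ Set.Ico I I'} with hK
  let A : Fin r → Set Bk := fun s => box I (ns (s + 1)) \ box I (ns s)
  have hA : ∀ j j' : Fin r, j ≠ j' → Disjoint (A j) (A j') := by
    have : ∀ j j' : Fin r, j < j' → Disjoint (A j) (A j') := by
      intro j j' h
      rw [Set.disjoint_left]
      intro β h1 h2
      exact h2.2 (box_mono le_rfl (nsm (Nat.succ_le_of_lt h)) h1.1)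
    intro j j' h
    rcases lt_or_gt_of_ne h with h | h
    · exact this j j' h
    · exact (this j' j h).symm
  have key : ∀ s : Fin r, p (F.res (box I (ns s)) x) ≤
      2 * (p x + F.nrm (F.res K x)) + 2 * (1 + √Lm) * F.N1 (F.res (A s) x) := by
    intro s
    have hgs : g (ns s) ≤ ns (s + 1) := by rw [nsS]; exact le_max_right _ _
    have hsub : box (g (ns s)) (g (ns s)) ⊆ box I' (ns (s + 1)) :=
      box_mono ((hgs.trans (nsm (Nat.succ_le_of_lt s.2))).trans (le_max_right _ _)) hgs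
    have h1 := hg (ns s) (F.res (box I (ns s)) x) (F.res (box I' (ns (s + 1)))ᶜ x)
      (fun β hβ => F.res_apply_of_notMem hβ x)
      (fun β hβ => F.res_apply_of_notMem (A := (box I' (ns (s + 1)))ᶜ) (fun h => h (hsub hβ)) x)
    have e : F.res (box I (ns s)) x + F.res (box I' (ns (s + 1)))ᶜ x =
        x - F.res (K ∩ box I' (ns (s + 1))) x - F.res (A s) x := by
      ext1 β
      simp only [DFinsupp.add_apply, DFinsupp.sub_apply]
      by_cases b1 : β ∈ box I (ns s)
      · have b2 : β ∈ box I' (ns (s + 1)) := box_mono (le_max_left _ _) (nsm (Nat.le_succ _)) b1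
        rw [F.res_apply_of_mem b1, F.res_apply_of_notMem (A := (box I' (ns (s + 1)))ᶜ)
          (fun h => h b2), F.res_apply_of_notMem (A := K ∩ box I' (ns (s + 1)))
          (fun h => absurd b1.1 (not_lt.2 h.1.1)),
          F.res_apply_of_notMem (A := A s) (fun h => h.2 b1)]
        simp
      · by_cases b2 : β ∈ box I' (ns (s + 1))
        · rw [F.res_apply_of_notMem b1, F.res_apply_of_notMem (A := (box I' (ns (s + 1)))ᶜ)
            (fun h => h b2)]
          by_cases b3 : β.1 < I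
          · rw [F.res_apply_of_notMem (A := K ∩ box I' (ns (s + 1)))
              (fun h => absurd b3 (not_lt.2 h.1.1)),
              F.res_apply_of_mem (A := A s) ⟨⟨b3, b2.2⟩, b1⟩]
            simp
          · rw [F.res_apply_of_mem (A := K ∩ box I' (ns (s + 1))) ⟨⟨not_lt.1 b3, b2.1⟩, b2⟩,
              F.res_apply_of_notMem (A := A s) (fun h => b3 h.1.1)]
            simp
        · rw [F.res_apply_of_notMem b1, F.res_apply_of_mem (A := (box I' (ns (s + 1)))ᶜ) b2,
            F.res_apply_of_notMem (A := K ∩ box I' (ns (s + 1))) (fun h => b2 h.2),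
            F.res_apply_of_notMem (A := A s)
              (fun h => b2 (box_mono (le_max_left _ _) le_rfl h.1))]
          simp
    rw [e] at h1
    have h2 := map_sub_le_add p (x - F.res (K ∩ box I' (ns (s + 1))) x) (F.res (A s) x)
    have h3 := map_sub_le_add p x (F.res (K ∩ box I' (ns (s + 1))) x)
    have h4 : p (F.res (K ∩ box I' (ns (s + 1))) x) ≤ F.nrm (F.res K x) :=
      (hp.2.1 _).trans (F.nrm_mono (F.ν_res_mono Set.inter_subset_left x))
    have h5 : p (F.res (A s) x) ≤ (1 + √Lm) * F.N1 (F.res (A s) x) := by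
      refine (hp.2.1 _).trans (F.nrm_le_sqrt _ Lm fun β hβ => ?_)
      have hb : β ∈ A s := by
        by_contra hb
        exact hβ (F.res_apply_of_notMem hb x)
      exact single_le_sum (f := fun k => (F.L k : ℝ)) (fun k _ => Nat.cast_nonneg _)
        (mem_range.2 hb.1.1)
    linarith
  have h6 : (ra fun s : Fin r => F.N1 (F.res (A s) x)) ≤ F.N1 x / √r :=
    rmul_ra_le hr _ (F.N1_nonneg x) (F.N1_lower A hA x)
  rw [rmul_mul_ra F (fun s : Fin r => (box I (ns s)).indicator 1) x]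
  refine (seminorm_av_le p _).trans ((ra_mono key).trans ?_)
  rw [ra_add, ra_const, ra_const_mul]
  have h7 : (1 + √Lm) * (ra fun s : Fin r => F.N1 (F.res (A s) x)) ≤ δ * F.nrm x := by
    calc _ ≤ (1 + √Lm) * (F.N1 x / √r) := mul_le_mul_of_nonneg_left h6 (by positivity)
      _ = (1 + √Lm) / √r * F.N1 x := by ring
      _ ≤ δ * F.nrm x := mul_le_mul hrδ (F.N1_le_nrm x) (F.N1_nonneg x) hδ.le
  linarith

/-- Outer average. Iterate `mult_inner` with `δ = 1 / (4 M)` along `n = I 0 ≤ I 1 ≤ …` (always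
with the same `n`), and average `r` of the multipliers, where `√(2 / r) * M ≤ 1 / 4`
(`nrm_lower` for the disjoint sets `Ico (I s) (I (s + 1))` and Cauchy-Schwarz). -/
theorem exists_mult (F : Frame 𝕜) (p : Seminorm 𝕜 F.D) (M : ℝ) (hp : F.Ren p M) (n : ℕ) :
    ∃ (n' : ℕ) (t : Bk → ℝ), n ≤ n' ∧ (∀ β ∈ box n n, t β = 1) ∧
      (∀ β, β ∉ box n' n' → t β = 0) ∧ ∀ x, p (F.mul t x) ≤ 3 * p x := by
  classical
  have hM : 0 < M := one_pos.trans_le hp.1
  have hδ : 0 < 1 / (4 * M) := by positivity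
  choose J m t hJ h1 h0 hb using fun I => mult_inner F p M hp I n (1 / (4 * M)) hδ
  obtain ⟨r, hr, hrδ⟩ := rmul_exists_r (√2) hδ
  have : Nonempty (Fin r) := ⟨⟨0, hr⟩⟩
  let Is : ℕ → ℕ := fun s => Nat.rec n (fun _ I => J I) s
  have Is0 : Is 0 = n := rfl
  have IsS : ∀ s, Is (s + 1) = J (Is s) := fun s => rfl
  have Ism : Monotone Is := monotone_nat_of_le_succ fun s => by rw [IsS]; exact hJ _
  refine ⟨Is r + ∑ s : Fin r, m (Is s), fun β => ra fun s : Fin r => t (Is s) β,
    (Is0 ▸ Ism (Nat.zero_le r) : n ≤ Is r).trans (Nat.le_add_right _ _), fun β hβ => ?_,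
    fun β hβ => ?_, fun x => ?_⟩
  · have : (fun s : Fin r => t (Is s) β) = fun _ => 1 := by
      funext s
      exact h1 _ β (box_mono (Is0 ▸ Ism (Nat.zero_le s)) le_rfl hβ)
    simp only [this, ra_const]
  · have : (fun s : Fin r => t (Is s) β) = fun _ => 0 := by
      funext s
      refine h0 _ β fun h => hβ (box_mono ((Ism s.2.le).trans (Nat.le_add_right _ _)) ?_ h)
      exact (single_le_sum (f := fun s : Fin r => m (Is s)) (fun _ _ => Nat.zero_le _)
        (mem_univ s)).trans (Nat.le_add_left _ _)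
    simp only [this, ra_zero]
  let K : Fin r → Set ℕ := fun s => Set.Ico (Is s) (Is (s + 1))
  have hK : ∀ j j' : Fin r, j ≠ j' → Disjoint (K j) (K j') := by
    have : ∀ j j' : Fin r, j < j' → Disjoint (K j) (K j') := by
      intro j j' h
      rw [Set.disjoint_left]
      intro k a1 a2
      exact absurd (a1.2.trans_le (Ism (Nat.succ_le_of_lt h))) (not_lt.2 a2.1)
    intro j j' h
    rcases lt_or_gt_of_ne h with h | h
    · exact this j j' h
    · exact (this j' j h).symm
  have hn := F.nrm_nonneg x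
  have h6 : (ra fun s : Fin r => F.nrm (F.res {β | β.1 ∈ K s} x)) ≤ √2 * F.nrm x / √r := by
    refine rmul_ra_le hr _ (by positivity) ((F.nrm_lower K hK x).trans (le_of_eq ?_))
    rw [mul_pow, Real.sq_sqrt (by norm_num)]
  have key : ∀ s : Fin r, p (F.mul (t (Is s)) x) ≤
      2 * (p x + 1 / (4 * M) * F.nrm x) + 2 * F.nrm (F.res {β | β.1 ∈ K s} x) := by
    intro s
    have := hb (Is s) x
    have e : F.nrm (F.res {β | β.1 ∈ Set.Ico (Is s) (J (Is s))} x) =
        F.nrm (F.res {β | β.1 ∈ K s} x) := rfl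
    linarith
  rw [rmul_mul_ra F (fun s : Fin r => t (Is s)) x]
  refine (seminorm_av_le p _).trans ((ra_mono key).trans ?_)
  rw [ra_add, ra_const, ra_const_mul]
  have h7 : √2 * F.nrm x / √r ≤ 1 / (4 * M) * F.nrm x := by
    calc _ = √2 / √r * F.nrm x := by ring
      _ ≤ _ := mul_le_mul_of_nonneg_right hrδ hn
  have h8 : 1 / (4 * M) * F.nrm x ≤ p x / 4 := by
    calc _ ≤ 1 / (4 * M) * (M * p x) := mul_le_mul_of_nonneg_left (hp.2.2 x) hδ.le
      _ = p x / 4 := by field_simp
  linarith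

end Pool.Agent.Lib.MP_e0f470_an.Rob
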