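import Pool.Agent.Lib.MP_e0f470_an.RAvg

/-! Basic properties of the global norm. -/

set_option autoImplicit false

namespace Pool.Agent.Lib.MP_e0f470_an.Rob

open Finset Filter
open scoped BigOperators Topology

variable {𝕜 : Type} [RCLike 𝕜]

namespace Frame

variable (F : Frame 𝕜)

lemma N1_eq (x : F.D) (A : Finset Bk) (hA : ∀ β, β ∉ A → x β = 0) :
    F.N1 x = √(∑ β ∈ A, F.ν β.1 (x β) ^ 2) := by
  classical
  unfold N1
  congr 1
  refine Finset.sum_subset (fun β hβ => ?_) fun β _ hβ => ?_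
  · by_contra h
    exact (DFinsupp.mem_support_iff.1 hβ) (hA β h)
  · rw [DFinsupp.notMem_support_iff.1 hβ]
    simp

lemma N1_sq (x : F.D) (A : Finset Bk) (hA : ∀ β, β ∉ A → x β = 0) :
    F.N1 x ^ 2 = ∑ β ∈ A, F.ν β.1 (x β) ^ 2 := by
  rw [F.N1_eq x A hA, Real.sq_sqrt (Finset.sum_nonneg fun _ _ => sq_nonneg _)]

lemma exists_supp (x : F.D) : ∃ A : Finset Bk, ∀ β, β ∉ A → x β = 0 := by
  classical
  exact ⟨x.support, fun β hβ => DFinsupp.notMem_support_iff.1 hβ⟩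

lemma exists_supp_family {α : Type} [Fintype α] (x : α → F.D) :
    ∃ A : Finset Bk, ∀ a β, β ∉ A → x a β = 0 := by
  classical
  choose A hA using fun a => F.exists_supp (x a)
  exact ⟨univ.biUnion A, fun a β hβ =>
    hA a β fun h => hβ (Finset.mem_biUnion.2 ⟨a, Finset.mem_univ _, h⟩)⟩

lemma N1_nonneg (x : F.D) : 0 ≤ F.N1 x := Real.sqrt_nonneg _

lemma sum_sq_le_N1 (x : F.D) (A : Finset Bk) : ∑ β ∈ A, F.ν β.1 (x β) ^ 2 ≤ F.N1 x ^ 2 := by
  classical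
  obtain ⟨B, hB⟩ := F.exists_supp x
  rw [F.N1_sq x (A ∪ B) fun β h => hB β fun h' => h (Finset.mem_union_right _ h')]
  exact Finset.sum_le_sum_of_subset_of_nonneg Finset.subset_union_left fun _ _ _ => sq_nonneg _

lemma ν_le_N1 (x : F.D) (β : Bk) : F.ν β.1 (x β) ≤ F.N1 x := by
  have h := F.sum_sq_le_N1 x {β}
  rw [Finset.sum_singleton] at h
  exact (pow_le_pow_iff_left₀ (apply_nonneg _ _) (F.N1_nonneg x) two_ne_zero).1 h

lemma N1_mono {x y : F.D} (h : ∀ β, F.ν β.1 (x β) ≤ F.ν β.1 (y β)) : F.N1 x ≤ F.N1 y := by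
  obtain ⟨A, hA⟩ := F.exists_supp x
  refine (pow_le_pow_iff_left₀ (F.N1_nonneg x) (F.N1_nonneg y) two_ne_zero).1 ?_
  rw [F.N1_sq x A hA]
  exact (Finset.sum_le_sum fun β _ => pow_le_pow_left₀ (apply_nonneg _ _) (h β) 2).trans
    (F.sum_sq_le_N1 y A)

/-- Minkowski's inequality, for instance from the norm of `EuclideanSpace ℝ A` or
`Real.Lp_add_le`. -/
lemma N1_add_le (x y : F.D) : F.N1 (x + y) ≤ F.N1 x + F.N1 y := by
  obtain ⟨A, hA⟩ := F.exists_supp (x + y)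
  refine (pow_le_pow_iff_left₀ (F.N1_nonneg _)
    (add_nonneg (F.N1_nonneg x) (F.N1_nonneg y)) two_ne_zero).1 ?_
  rw [F.N1_sq _ A hA]
  have h1 := F.sum_sq_le_N1 x A
  have h2 := F.sum_sq_le_N1 y A
  have h3 := Finset.sum_mul_sq_le_sq_mul_sq A (fun β => F.ν β.1 (x β)) fun β => F.ν β.1 (y β)
  have h4 : ∑ β ∈ A, F.ν β.1 (x β) * F.ν β.1 (y β) ≤ F.N1 x * F.N1 y := by
    refine le_of_sq_le_sq ?_ (mul_nonneg (F.N1_nonneg x) (F.N1_nonneg y))
    rw [mul_pow]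
    exact h3.trans (mul_le_mul h1 h2 (Finset.sum_nonneg fun _ _ => sq_nonneg _) (sq_nonneg _))
  have h5 : ∑ β ∈ A, F.ν β.1 ((x + y) β) ^ 2 ≤ ∑ β ∈ A, (F.ν β.1 (x β) ^ 2 +
      2 * (F.ν β.1 (x β) * F.ν β.1 (y β)) + F.ν β.1 (y β) ^ 2) := by
    refine Finset.sum_le_sum fun β _ => ?_
    have h6 := pow_le_pow_left₀ (apply_nonneg _ _) (map_add_le_add (F.ν β.1) (x β) (y β)) 2
    rw [DFinsupp.add_apply]
    linarith
  rw [Finset.sum_add_distrib, Finset.sum_add_distrib, ← Finset.mul_sum] at h5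
  linarith

lemma N1_smul (s : 𝕜) (x : F.D) : F.N1 (s • x) = ‖s‖ * F.N1 x := by
  obtain ⟨A, hA⟩ := F.exists_supp x
  rw [F.N1_eq x A hA, F.N1_eq (s • x) A fun β h => by rw [DFinsupp.smul_apply, hA β h, smul_zero]]
  simp only [DFinsupp.smul_apply, map_smul_eq_mul, mul_pow]
  rw [← Finset.mul_sum, Real.sqrt_mul (sq_nonneg _), Real.sqrt_sq (norm_nonneg _)]

lemma chain_mono {S S' : Finset Bk} (h : F.Chain S) (hS : S' ⊆ S) : F.Chain S' := by
  exact ⟨fun β hβ β' hβ' => h.1 β (hS hβ) β' (hS hβ'),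
    fun β hβ => (Finset.card_le_card hS).trans (h.2 β (hS hβ))⟩

lemma chain_empty : F.Chain ∅ := by
  simp [Chain]

/-- Different members of a chain have the same kind and different first coordinates. -/
lemma chain_kind {S : Finset Bk} (h : F.Chain S) {β β' : Bk} (hβ : β ∈ S) (hβ' : β' ∈ S) :
    β.1 = β'.1 := by
  by_cases hne : β = β'
  · rw [hne]
  · rcases h.1 β hβ β' hβ' hne with h1 | h1
    · exact h1.1
    · exact h1.1.symm

lemma chain_key {S : Finset Bk} (h : F.Chain S) {β β' : Bk} (hβ : β ∈ S) (hβ' : β' ∈ S)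
    (hne : β ≠ β') : co β 0 ≠ co β' 0 := by
  rcases h.1 β hβ β' hβ' hne with h1 | h1
  · exact (h1.2.1 0 (Nat.zero_le _)).ne
  · exact (h1.2.1 0 (Nat.zero_le _)).ne'

/-- The chains of an admissible system are disjoint and the weights are at most one, so the value
is at most the sum of `ν` over the support. -/
lemma val_le_sum {Q : Type} [Fintype Q] {S : Q → Finset Bk} {b : Q → ℝ} (h : F.Adm S b) (x : F.D)
    (A : Finset Bk) (hA : ∀ β, β ∉ A → x β = 0) : F.val S b x ≤ ∑ β ∈ A, F.ν β.1 (x β) := by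
  classical
  obtain ⟨-, hk, hb, hs⟩ := h
  have hb1 : ∀ q, b q ≤ 1 := fun q => by
    have h1 : b q ^ 2 ≤ 1 :=
      (Finset.single_le_sum (f := fun q => b q ^ 2) (fun _ _ => sq_nonneg _)
        (Finset.mem_univ q)).trans hs
    nlinarith [hb q]
  have hd : ((univ : Finset Q) : Set Q).PairwiseDisjoint S := fun q _ q' _ hne =>
    Finset.disjoint_left.2 fun β h1 h2 => hk q q' hne β h1 β h2 rfl
  calc F.val S b x ≤ ∑ q, ∑ β ∈ S q, F.ν β.1 (x β) :=
        Finset.sum_le_sum fun q _ =>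
          mul_le_of_le_one_left (Finset.sum_nonneg fun _ _ => apply_nonneg _ _) (hb1 q)
    _ = ∑ β ∈ univ.biUnion S, F.ν β.1 (x β) := (Finset.sum_biUnion hd).symm
    _ ≤ ∑ β ∈ univ.biUnion S ∪ A, F.ν β.1 (x β) :=
        Finset.sum_le_sum_of_subset_of_nonneg Finset.subset_union_left
          fun _ _ _ => apply_nonneg _ _
    _ = ∑ β ∈ A, F.ν β.1 (x β) :=
        (Finset.sum_subset Finset.subset_union_right fun β _ hβ => by
          rw [hA β hβ, map_zero]).symm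

/-- Reindex by `Fintype.equivFin`. -/
lemma val_le_N2 {Q : Type} [Fintype Q] {S : Q → Finset Bk} {b : Q → ℝ} (h : F.Adm S b) (x : F.D) :
    F.val S b x ≤ F.N2 x := by
  obtain ⟨A, hA⟩ := F.exists_supp x
  have hbd : BddAbove (Set.range fun σ : F.Sys => F.val σ.1.2.1 σ.1.2.2 x) :=
    ⟨∑ β ∈ A, F.ν β.1 (x β), by
      rintro _ ⟨σ, rfl⟩
      exact F.val_le_sum σ.2 x A hA⟩
  let e := (Fintype.equivFin Q).symm
  have had : F.Adm (fun q => S (e q)) fun q => b (e q) :=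
    ⟨fun q => h.1 _, fun q q' hne => h.2.1 _ _ fun h' => hne (e.injective h'),
      fun q => h.2.2.1 _, by rw [e.sum_comp fun q => b q ^ 2]; exact h.2.2.2⟩
  have h1 := le_ciSup hbd ⟨⟨Fintype.card Q, fun q => S (e q), fun q => b (e q)⟩, had⟩
  refine le_trans (le_of_eq ?_) h1
  exact (e.sum_comp fun q => b q * ∑ β ∈ S q, F.ν β.1 (x β)).symm

/-- Homogeneous form of `val_le_N2`. -/
lemma val_le_sqrt_mul_N2 {Q : Type} [Fintype Q] {S : Q → Finset Bk} {b : Q → ℝ}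
    (hc : ∀ q, F.Chain (S q)) (hk : ∀ q q', q ≠ q' → ∀ β ∈ S q, ∀ β' ∈ S q', key β ≠ key β')
    (hb : ∀ q, 0 ≤ b q) (x : F.D) : F.val S b x ≤ √(∑ q, b q ^ 2) * F.N2 x := by
  have hn : 0 ≤ ∑ q, b q ^ 2 := Finset.sum_nonneg fun _ _ => sq_nonneg _
  rcases hn.eq_or_lt with h0 | h0
  · have hz : ∀ q, b q = 0 := fun q => pow_eq_zero_iff two_ne_zero |>.1
      ((Finset.sum_eq_zero_iff_of_nonneg fun _ _ => sq_nonneg _).1 h0.symm q (Finset.mem_univ q))
    simp [val, hz]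
  · have hs := Real.sqrt_pos.2 h0
    have had : F.Adm S fun q => b q / √(∑ q, b q ^ 2) := by
      refine ⟨hc, hk, fun q => div_nonneg (hb q) hs.le, le_of_eq ?_⟩
      simp only [div_pow]
      rw [← Finset.sum_div, Real.sq_sqrt hn, div_self h0.ne']
    have h1 := F.val_le_N2 had x
    have e : F.val S b x = √(∑ q, b q ^ 2) * F.val S (fun q => b q / √(∑ q, b q ^ 2)) x := by
      unfold val
      rw [Finset.mul_sum]
      refine Finset.sum_congr rfl fun q _ => ?_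
      rw [← mul_assoc, mul_div_cancel₀ _ hs.ne']
    rw [e]
    exact mul_le_mul_of_nonneg_left h1 hs.le

lemma N2_le {x : F.D} {c : ℝ}
    (h : ∀ (m : ℕ) (S : Fin m → Finset Bk) (b : Fin m → ℝ), F.Adm S b → F.val S b x ≤ c) :
    F.N2 x ≤ c := by
  have : Nonempty F.Sys := ⟨⟨⟨0, Fin.elim0, Fin.elim0⟩, by simp [Adm]⟩⟩
  exact ciSup_le fun σ => h _ _ _ σ.2

lemma N2_nonneg (x : F.D) : 0 ≤ F.N2 x := by
  have h := F.val_le_N2 (Q := Fin 0) (S := Fin.elim0) (b := Fin.elim0) (by simp [Adm]) x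
  simpa [val] using h

lemma chain_sum_le_N2 {S : Finset Bk} (h : F.Chain S) (x : F.D) :
    ∑ β ∈ S, F.ν β.1 (x β) ≤ F.N2 x := by
  have h1 := F.val_le_N2 (Q := Unit) (S := fun _ => S) (b := fun _ => 1)
    ⟨fun _ => h, fun q q' hne => absurd rfl hne, fun _ => zero_le_one, by simp⟩ x
  simpa [val] using h1

lemma N2_mono {x y : F.D} (h : ∀ β, F.ν β.1 (x β) ≤ F.ν β.1 (y β)) : F.N2 x ≤ F.N2 y := by
  refine F.N2_le fun m S b had => le_trans ?_ (F.val_le_N2 had y)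
  exact Finset.sum_le_sum fun q _ =>
    mul_le_mul_of_nonneg_left (Finset.sum_le_sum fun β _ => h β) (had.2.2.1 q)

lemma N2_add_le (x y : F.D) : F.N2 (x + y) ≤ F.N2 x + F.N2 y := by
  refine F.N2_le fun m S b had => le_trans ?_ (add_le_add (F.val_le_N2 had x) (F.val_le_N2 had y))
  unfold val
  rw [← Finset.sum_add_distrib]
  refine Finset.sum_le_sum fun q _ => ?_
  rw [← mul_add, ← Finset.sum_add_distrib]
  exact mul_le_mul_of_nonneg_left
    (Finset.sum_le_sum fun β _ => map_add_le_add (F.ν β.1) (x β) (y β)) (had.2.2.1 q)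

lemma N2_smul_le (s : 𝕜) (x : F.D) : F.N2 (s • x) ≤ ‖s‖ * F.N2 x := by
  refine F.N2_le fun m S b had =>
    le_trans (le_of_eq ?_) (mul_le_mul_of_nonneg_left (F.val_le_N2 had x) (norm_nonneg s))
  unfold val
  simp only [DFinsupp.smul_apply, map_smul_eq_mul, Finset.mul_sum]
  exact Finset.sum_congr rfl fun q _ => Finset.sum_congr rfl fun β _ => by ring

lemma N1_zero : F.N1 0 = 0 := by
  rw [F.N1_eq 0 ∅ fun _ _ => rfl]
  simp

lemma N2_zero : F.N2 0 = 0 := by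
  exact le_antisymm (F.N2_le fun m S b _ => by simp [val]) (F.N2_nonneg 0)

/-- The Euclidean part as a seminorm. -/
noncomputable def N1S : Seminorm 𝕜 F.D :=
  Seminorm.ofSMulLE F.N1 F.N1_zero F.N1_add_le fun s x => (F.N1_smul s x).le

/-- The chain part as a seminorm. -/
noncomputable def N2S : Seminorm 𝕜 F.D :=
  Seminorm.ofSMulLE F.N2 F.N2_zero F.N2_add_le F.N2_smul_le

/-- The norm as a seminorm. -/
noncomputable def nrmS : Seminorm 𝕜 F.D := F.N1S + F.N2S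

lemma N1S_apply (x : F.D) : F.N1S x = F.N1 x := rfl

lemma N2S_apply (x : F.D) : F.N2S x = F.N2 x := rfl

lemma nrmS_apply (x : F.D) : F.nrmS x = F.nrm x := rfl

lemma N2_smul (s : 𝕜) (x : F.D) : F.N2 (s • x) = ‖s‖ * F.N2 x := map_smul_eq_mul F.N2S s x

lemma nrm_nonneg (x : F.D) : 0 ≤ F.nrm x := apply_nonneg F.nrmS x

lemma nrm_zero : F.nrm 0 = 0 := map_zero F.nrmS

lemma nrm_add_le (x y : F.D) : F.nrm (x + y) ≤ F.nrm x + F.nrm y := map_add_le_add F.nrmS x y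

lemma nrm_sub_le (x y : F.D) : F.nrm (x - y) ≤ F.nrm x + F.nrm y := map_sub_le_add F.nrmS x y

lemma nrm_neg (x : F.D) : F.nrm (-x) = F.nrm x := map_neg_eq_map F.nrmS x

lemma nrm_smul (s : 𝕜) (x : F.D) : F.nrm (s • x) = ‖s‖ * F.nrm x := map_smul_eq_mul F.nrmS s x

lemma nrm_sum_le {ι : Type*} (s : Finset ι) (x : ι → F.D) :
    F.nrm (∑ i ∈ s, x i) ≤ ∑ i ∈ s, F.nrm (x i) := seminorm_sum_le F.nrmS s x

lemma nrm_av_le {α : Type} [Fintype α] (x : α → F.D) :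
    F.nrm (av 𝕜 x) ≤ ra fun a => F.nrm (x a) := seminorm_av_le F.nrmS x

lemma N1_le_nrm (x : F.D) : F.N1 x ≤ F.nrm x := le_add_of_nonneg_right (F.N2_nonneg x)

lemma N2_le_nrm (x : F.D) : F.N2 x ≤ F.nrm x := le_add_of_nonneg_left (F.N1_nonneg x)

lemma nrm_mono {x y : F.D} (h : ∀ β, F.ν β.1 (x β) ≤ F.ν β.1 (y β)) : F.nrm x ≤ F.nrm y :=
  add_le_add (F.N1_mono h) (F.N2_mono h)

lemma norm_apply_le_nrm (x : F.D) (β : Bk) (c : F.C β.1) : ‖x β c‖ ≤ F.nrm x :=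
  ((F.le_ν _ _ c).trans (F.ν_le_N1 x β)).trans (F.N1_le_nrm x)

lemma eq_zero_of_nrm {x : F.D} (h : F.nrm x = 0) : x = 0 := by
  ext β c
  have h1 := F.norm_apply_le_nrm x β c
  rw [h] at h1
  exact norm_le_zero_iff.1 h1

lemma ν_res_le (A : Set Bk) (x : F.D) (β : Bk) : F.ν β.1 (F.res A x β) ≤ F.ν β.1 (x β) := by
  by_cases h : β ∈ A
  · rw [F.res_apply_of_mem h]
  · rw [F.res_apply_of_notMem h, map_zero]
    exact apply_nonneg _ _

lemma ν_res_mono {A B : Set Bk} (h : A ⊆ B) (x : F.D) (β : Bk) :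
    F.ν β.1 (F.res A x β) ≤ F.ν β.1 (F.res B x β) := by
  by_cases h1 : β ∈ A
  · rw [F.res_apply_of_mem h1, F.res_apply_of_mem (h h1)]
  · rw [F.res_apply_of_notMem h1, map_zero]
    exact apply_nonneg _ _

lemma N1_res_le (A : Set Bk) (x : F.D) : F.N1 (F.res A x) ≤ F.N1 x := F.N1_mono (F.ν_res_le A x)

lemma N2_res_le (A : Set Bk) (x : F.D) : F.N2 (F.res A x) ≤ F.N2 x := F.N2_mono (F.ν_res_le A x)

lemma nrm_res_le (A : Set Bk) (x : F.D) : F.nrm (F.res A x) ≤ F.nrm x :=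
  F.nrm_mono (F.ν_res_le A x)

lemma res_add_res_compl (A : Set Bk) (x : F.D) : F.res A x + F.res Aᶜ x = x := by
  refine DFinsupp.ext fun β => ?_
  rw [DFinsupp.add_apply]
  by_cases h : β ∈ A
  · rw [F.res_apply_of_mem h, F.res_apply_of_notMem (A := Aᶜ) fun h' => h' h, add_zero]
  · rw [F.res_apply_of_notMem h, F.res_apply_of_mem (A := Aᶜ) h, zero_add]

lemma res_res (A B : Set Bk) (x : F.D) : F.res A (F.res B x) = F.res (A ∩ B) x := by
  refine DFinsupp.ext fun β => ?_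
  by_cases h : β ∈ A
  · rw [F.res_apply_of_mem h]
    by_cases h' : β ∈ B
    · rw [F.res_apply_of_mem h', F.res_apply_of_mem (A := A ∩ B) ⟨h, h'⟩]
    · rw [F.res_apply_of_notMem h', F.res_apply_of_notMem (A := A ∩ B) fun h2 => h' h2.2]
  · rw [F.res_apply_of_notMem h, F.res_apply_of_notMem (A := A ∩ B) fun h2 => h h2.1]

lemma res_union {A B : Set Bk} (h : Disjoint A B) (x : F.D) :
    F.res (A ∪ B) x = F.res A x + F.res B x := by
  refine DFinsupp.ext fun β => ?_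
  rw [DFinsupp.add_apply]
  by_cases h1 : β ∈ A
  · rw [F.res_apply_of_mem h1, F.res_apply_of_mem (A := A ∪ B) (Or.inl h1),
      F.res_apply_of_notMem (Set.disjoint_left.1 h h1), add_zero]
  · rw [F.res_apply_of_notMem h1, zero_add]
    by_cases h2 : β ∈ B
    · rw [F.res_apply_of_mem h2, F.res_apply_of_mem (A := A ∪ B) (Or.inr h2)]
    · rw [F.res_apply_of_notMem h2,
        F.res_apply_of_notMem (A := A ∪ B) fun h3 => h3.elim h1 h2]

lemma res_eq_self {A : Set Bk} {x : F.D} (h : ∀ β, β ∉ A → x β = 0) : F.res A x = x := by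
  refine DFinsupp.ext fun β => ?_
  by_cases h1 : β ∈ A
  · rw [F.res_apply_of_mem h1]
  · rw [F.res_apply_of_notMem h1, h β h1]

lemma res_eq_zero {A : Set Bk} {x : F.D} (h : ∀ β ∈ A, x β = 0) : F.res A x = 0 := by
  refine DFinsupp.ext fun β => ?_
  by_cases h1 : β ∈ A
  · rw [F.res_apply_of_mem h1, h β h1, DFinsupp.zero_apply]
  · rw [F.res_apply_of_notMem h1, DFinsupp.zero_apply]

lemma nrm_le_sum (x : F.D) (A : Finset Bk) (hA : ∀ β, β ∉ A → x β = 0) :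
    F.nrm x ≤ 2 * ∑ β ∈ A, F.ν β.1 (x β) := by
  have hn : 0 ≤ ∑ β ∈ A, F.ν β.1 (x β) := Finset.sum_nonneg fun _ _ => apply_nonneg _ _
  have h1 : F.N1 x ≤ ∑ β ∈ A, F.ν β.1 (x β) := by
    refine (pow_le_pow_iff_left₀ (F.N1_nonneg x) hn two_ne_zero).1 ?_
    rw [F.N1_sq x A hA]
    exact Finset.sum_sq_le_sq_sum_of_nonneg fun _ _ => apply_nonneg _ _
  have h2 : F.N2 x ≤ ∑ β ∈ A, F.ν β.1 (x β) := F.N2_le fun m S b had => F.val_le_sum had x A hA
  unfold nrm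
  linarith

lemma nrm_sing_le (β : Bk) (u : F.C β.1 → 𝕜) : F.nrm (F.sing β u) ≤ 2 * F.ν β.1 u := by
  have h := F.nrm_le_sum (F.sing β u) {β} fun β' h' =>
    F.sing_apply_ne (fun h2 => h' (Finset.mem_singleton.2 h2)) u
  rwa [Finset.sum_singleton, F.sing_apply_self] at h

lemma av_apply_blk {α : Type} [Fintype α] (x : α → F.D) (β : Bk) :
    av 𝕜 x β = av 𝕜 fun a => x a β := by
  unfold av
  rw [DFinsupp.smul_apply, DFinsupp.finsetSum_apply]

end Frame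

/-- Boxes are finite: a block is determined by its kind and its coordinates. -/
lemma box_finite (I n : ℕ) : (box I n).Finite := by
  have h : ∀ i : ℕ, (Set.range fun s : Fin (i + 1) → Fin n =>
      (⟨i, fun ρ => (s ρ : ℕ)⟩ : Bk)).Finite := fun i => Set.finite_range _
  refine ((Set.finite_Iio I).biUnion fun i _ => h i).subset ?_
  rintro ⟨i, s⟩ ⟨h1, h2⟩
  refine Set.mem_biUnion (show i ∈ Set.Iio I from h1) ⟨fun ρ => ⟨s ρ, ?_⟩, rfl⟩
  have h3 := h2 ρ (Nat.lt_succ_iff.1 ρ.2)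
  simpa [co, ρ.2] using h3

lemma box_mono {I I' n n' : ℕ} (hI : I ≤ I') (hn : n ≤ n') : box I n ⊆ box I' n' := by
  exact fun β hβ => ⟨hβ.1.trans_le hI, fun ρ hρ => (hβ.2 ρ hρ).trans_le hn⟩

lemma exists_box (A : Finset Bk) : ∃ n, ∀ β ∈ A, β ∈ box n n := by
  refine ⟨A.sup fun β => β.1 + ∑ ρ ∈ range (β.1 + 1), co β ρ + 1, fun β hβ => ?_⟩
  have h := Finset.le_sup (f := fun β : Bk => β.1 + ∑ ρ ∈ range (β.1 + 1), co β ρ + 1) hβ
  refine ⟨lt_of_lt_of_le (by omega) h, fun ρ hρ => lt_of_lt_of_le ?_ h⟩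
  have h2 : co β ρ ≤ ∑ ρ ∈ range (β.1 + 1), co β ρ :=
    Finset.single_le_sum (f := fun ρ => co β ρ) (fun _ _ => Nat.zero_le _)
      (Finset.mem_range.2 (Nat.lt_succ_of_le hρ))
  omega

lemma co_mk {i : ℕ} (s : Fin (i + 1) → ℕ) (ρ : Fin (i + 1)) : co ⟨i, s⟩ ρ = s ρ := by
  simp [co, ρ.2]

end Pool.Agent.Lib.MP_e0f470_an.Rob
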