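import Pool.Agent.Lib.MP_e0f470_an.RNorm

/-! Upper and lower Euclidean estimates for the global norm. -/

set_option autoImplicit false

namespace Pool.Agent.Lib.MP_e0f470_an.Rob

open Finset Filter
open scoped BigOperators Topology

variable {𝕜 : Type} [RCLike 𝕜]

lemma norm2_sum_le {Γ : Type} [Fintype Γ] (f : Γ → ℝ) {c : ℝ} (hc : 0 ≤ c) (h1 : ∀ j, f j ≤ c)
    (h2 : ∀ j j', j ≠ j' → f j = 0 ∨ f j' = 0) : ∑ j, f j ≤ c := by
  by_cases h : ∃ j, f j ≠ 0
  · obtain ⟨j, hj⟩ := h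
    rw [Finset.sum_eq_single j (fun j' _ hne => (h2 j' j hne).resolve_right hj) (by simp)]
    exact h1 j
  · push Not at h
    simpa [h] using hc

namespace Frame

variable (F : Frame 𝕜)

lemma norm2_sum_apply {Γ : Type} [Fintype Γ] (x : Γ → F.D) (β : Bk) :
    (∑ j, x j) β = ∑ j, x j β := DFinsupp.finsetSum_apply _ _ _

lemma norm2_approx (x : F.D) {ε : ℝ} (hε : 0 < ε) :
    ∃ (m : ℕ) (S : Fin m → Finset Bk) (b : Fin m → ℝ), F.Adm S b ∧ F.N2 x - ε ≤ F.val S b x := by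
  by_contra h
  push Not at h
  have := F.N2_le (c := F.N2 x - ε) fun m S b hS => (h m S b hS).le
  linarith

lemma N1_sum_disj {Γ : Type} [Fintype Γ] (x : Γ → F.D)
    (h : ∀ j j', j ≠ j' → ∀ β, x j β = 0 ∨ x j' β = 0) :
    F.N1 (∑ j, x j) ^ 2 = ∑ j, F.N1 (x j) ^ 2 := by
  obtain ⟨A, hA⟩ := F.exists_supp_family x
  rw [F.N1_sq _ A fun β hβ => by
    rw [norm2_sum_apply]; exact Finset.sum_eq_zero fun j _ => hA j β hβ]
  simp only [fun j => F.N1_sq (x j) A (hA j)]
  rw [Finset.sum_comm]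
  refine Finset.sum_congr rfl fun β _ => ?_
  rw [norm2_sum_apply]
  by_cases h0 : ∃ j, x j β ≠ 0
  · obtain ⟨j, hj⟩ := h0
    have h1 : ∀ j', j' ≠ j → x j' β = 0 := fun j' hne => (h j' j hne β).resolve_right hj
    rw [Finset.sum_eq_single j (fun j' _ hne => h1 j' hne) (by simp),
      Finset.sum_eq_single j (fun j' _ hne => by simp [h1 j' hne]) (by simp)]
  · push Not at h0
    simp [h0]

/-- If no chain meets the supports of two different vectors, the chain part of the norm satisfies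
an upper Euclidean estimate. For an admissible system let `b' j q = b q` if `S q` meets the
support of `x j` and `0` otherwise; for each `q` there is at most one such `j`. Bound the value by
`∑ j, val S (b' j) (x j)`, use `val_le_sqrt_mul_N2` and the Cauchy-Schwarz inequality. -/
lemma N2_sum_sep {Γ : Type} [Fintype Γ] (x : Γ → F.D)
    (h : ∀ j j', j ≠ j' → ∀ β β', x j β ≠ 0 → x j' β' ≠ 0 → β ≠ β' ∧ ¬ Prec β β') :
    F.N2 (∑ j, x j) ≤ √(∑ j, F.N2 (x j) ^ 2) := by
  classical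
  refine F.N2_le fun m S b hS => ?_
  obtain ⟨hc, hk, hb, hb2⟩ := hS
  let b' : Γ → Fin m → ℝ := fun j q => if ∃ β ∈ S q, x j β ≠ 0 then b q else 0
  have hb' : ∀ j q, 0 ≤ b' j q := fun j q => by
    simp only [b']
    split_ifs
    · exact hb q
    · exact le_rfl
  have h1 : F.val S b (∑ j, x j) ≤ ∑ j, F.val S (b' j) (x j) := by
    simp only [val]
    rw [Finset.sum_comm]
    refine Finset.sum_le_sum fun q _ => ?_
    have e : ∀ j, b' j q * ∑ β ∈ S q, F.ν β.1 (x j β) = b q * ∑ β ∈ S q, F.ν β.1 (x j β) := by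
      intro j
      simp only [b']
      split_ifs with hj
      · rfl
      · push Not at hj
        rw [Finset.sum_eq_zero fun β hβ => by rw [hj β hβ, map_zero], mul_zero, mul_zero]
    simp only [e]
    rw [← Finset.mul_sum, Finset.sum_comm]
    refine mul_le_mul_of_nonneg_left (Finset.sum_le_sum fun β _ => ?_) (hb q)
    rw [norm2_sum_apply]
    exact seminorm_sum_le _ _ _
  have h2 : ∑ j, F.val S (b' j) (x j) ≤ ∑ j, √(∑ q, b' j q ^ 2) * F.N2 (x j) :=
    Finset.sum_le_sum fun j _ => F.val_le_sqrt_mul_N2 hc hk (hb' j) (x j)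
  have h3 : ∑ j, √(∑ q, b' j q ^ 2) ^ 2 ≤ 1 := by
    have e : ∀ j, √(∑ q, b' j q ^ 2) ^ 2 = ∑ q, b' j q ^ 2 := fun j =>
      Real.sq_sqrt (Finset.sum_nonneg fun _ _ => sq_nonneg _)
    simp only [e]
    rw [Finset.sum_comm]
    refine le_trans (Finset.sum_le_sum fun q _ => ?_) hb2
    refine norm2_sum_le _ (sq_nonneg _) (fun j => ?_) fun j j' hne => ?_
    · simp only [b']
      split_ifs
      · exact le_rfl
      · simpa using sq_nonneg (b q)
    · by_contra hcon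
      push Not at hcon
      have g : ∀ i, b' i q ^ 2 ≠ 0 → ∃ β ∈ S q, x i β ≠ 0 := fun i hi => by
        by_contra hn
        exact hi (by simp only [b']; rw [if_neg hn]; norm_num)
      obtain ⟨β, hβ, hx⟩ := g j hcon.1
      obtain ⟨β', hβ', hx'⟩ := g j' hcon.2
      have k1 := h j j' hne β β' hx hx'
      have k2 := h j' j hne.symm β' β hx' hx
      exact ((hc q).1 β hβ β' hβ' k1.1).elim k1.2 k2.2
  refine h1.trans (h2.trans ((Real.sum_mul_le_sqrt_mul_sqrt _ _ _).trans ?_))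
  exact mul_le_of_le_one_left (Real.sqrt_nonneg _) (Real.sqrt_le_one.2 h3)

lemma N1_lower {Γ : Type} [Fintype Γ] (A : Γ → Set Bk)
    (hA : ∀ j j', j ≠ j' → Disjoint (A j) (A j')) (x : F.D) :
    ∑ j, F.N1 (F.res (A j) x) ^ 2 ≤ F.N1 x ^ 2 := by
  obtain ⟨B, hB⟩ := F.exists_supp x
  have h1 : ∀ j β, β ∉ B → F.res (A j) x β = 0 := fun j β hβ => by
    by_cases h : β ∈ A j
    · rw [F.res_apply_of_mem h, hB β hβ]
    · exact F.res_apply_of_notMem h x
  simp only [fun j => F.N1_sq _ B (h1 j)]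
  rw [F.N1_sq x B hB, Finset.sum_comm]
  refine Finset.sum_le_sum fun β _ => norm2_sum_le _ (sq_nonneg _) (fun j => ?_) fun j j' hne => ?_
  · exact pow_le_pow_left₀ (apply_nonneg _ _) (F.ν_res_le _ x β) 2
  · by_cases h : β ∈ A j
    · right
      rw [F.res_apply_of_notMem (Set.disjoint_left.1 (hA j j' hne) h)]
      simp
    · left
      rw [F.res_apply_of_notMem h]
      simp

/-- Lower Euclidean estimate over sets of kinds. It suffices to show
`∑ j, a j * N2 (res (A j) x) ≤ N2 x` for `a ≥ 0` with `∑ a ^ 2 ≤ 1`. Choose for each `j` an almost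
optimal system, remove from its chains the blocks outside `A j` (`chain_mono`), and merge the
systems over a sigma type with weights `a j * b j q`. -/
lemma N2_lower {Γ : Type} [Fintype Γ] (K : Γ → Set ℕ)
    (hK : ∀ j j', j ≠ j' → Disjoint (K j) (K j')) (x : F.D) :
    ∑ j, F.N2 (F.res {β | β.1 ∈ K j} x) ^ 2 ≤ F.N2 x ^ 2 := by
  classical
  set n : Γ → ℝ := fun j => F.N2 (F.res {β | β.1 ∈ K j} x) with hn
  have hn0 : ∀ j, 0 ≤ n j := fun j => F.N2_nonneg _
  have hT : 0 ≤ ∑ j, n j ^ 2 := Finset.sum_nonneg fun _ _ => sq_nonneg _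
  have key1 : ∀ ε : ℝ, 0 < ε → ∑ j, n j ^ 2 - ε * ∑ j, n j ≤ √(∑ j, n j ^ 2) * F.N2 x := by
    intro ε hε
    choose m S b hS hv using fun j => F.norm2_approx (F.res {β | β.1 ∈ K j} x) hε
    let S' : (Σ j, Fin (m j)) → Finset Bk := fun q => (S q.1 q.2).filter fun β => β.1 ∈ K q.1
    let b' : (Σ j, Fin (m j)) → ℝ := fun q => n q.1 * b q.1 q.2
    have h1 := F.val_le_sqrt_mul_N2 (S := S') (b := b')
      (fun q => F.chain_mono ((hS q.1).1 q.2) (Finset.filter_subset _ _))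
      (by
        rintro ⟨j, q⟩ ⟨j', q'⟩ hne β hβ β' hβ' hk
        obtain ⟨g1, g2⟩ := Finset.mem_filter.1 hβ
        obtain ⟨g1', g2'⟩ := Finset.mem_filter.1 hβ'
        by_cases hj : j = j'
        · subst hj
          exact (hS j).2.1 q q' (fun h => hne (by rw [h])) β g1 β' g1' hk
        · have e : β.1 = β'.1 := congrArg Prod.fst hk
          exact Set.disjoint_left.1 (hK j j' hj) g2 (e ▸ g2'))
      (fun q => mul_nonneg (hn0 _) ((hS q.1).2.2.1 q.2)) x
    have h2 : ∑ q, b' q ^ 2 ≤ ∑ j, n j ^ 2 := by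
      rw [Fintype.sum_sigma]
      refine Finset.sum_le_sum fun j _ => ?_
      simp only [b', mul_pow]
      rw [← Finset.mul_sum]
      exact mul_le_of_le_one_right (sq_nonneg _) (hS j).2.2.2
    have h3 : F.val S' b' x = ∑ j, n j * F.val (S j) (b j) (F.res {β | β.1 ∈ K j} x) := by
      simp only [val]
      rw [Fintype.sum_sigma]
      refine Finset.sum_congr rfl fun j _ => ?_
      rw [Finset.mul_sum]
      refine Finset.sum_congr rfl fun q _ => ?_
      simp only [S', b']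
      rw [mul_assoc, Finset.sum_filter]
      congr 2
      refine Finset.sum_congr rfl fun β _ => ?_
      split_ifs with hβ
      · rw [F.res_apply_of_mem (A := {β | β.1 ∈ K j}) hβ]
      · rw [F.res_apply_of_notMem (A := {β | β.1 ∈ K j}) hβ, map_zero]
    have h4 : ∑ j, n j ^ 2 - ε * ∑ j, n j ≤ F.val S' b' x := by
      rw [h3, Finset.mul_sum, ← Finset.sum_sub_distrib]
      refine Finset.sum_le_sum fun j _ => ?_
      have := mul_le_mul_of_nonneg_left (hv j) (hn0 j)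
      calc n j ^ 2 - ε * n j = n j * (n j - ε) := by ring
        _ ≤ _ := this
    exact h4.trans (h1.trans
      (mul_le_mul_of_nonneg_right (Real.sqrt_le_sqrt h2) (F.N2_nonneg x)))
  have key2 : ∑ j, n j ^ 2 ≤ √(∑ j, n j ^ 2) * F.N2 x := by
    refine le_of_forall_pos_le_add fun δ hδ => ?_
    have hs : 0 ≤ ∑ j, n j := Finset.sum_nonneg fun j _ => hn0 j
    have h1 := key1 (δ / (∑ j, n j + 1)) (by positivity)
    have h2 : δ / (∑ j, n j + 1) * ∑ j, n j ≤ δ := by
      rw [div_mul_eq_mul_div, div_le_iff₀ (by positivity)]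
      nlinarith
    linarith
  have h5 := Real.sq_sqrt hT
  change ∑ j, n j ^ 2 ≤ _
  nlinarith [sq_nonneg (√(∑ j, n j ^ 2) - F.N2 x)]

lemma nrm_lower {Γ : Type} [Fintype Γ] (K : Γ → Set ℕ)
    (hK : ∀ j j', j ≠ j' → Disjoint (K j) (K j')) (x : F.D) :
    ∑ j, F.nrm (F.res {β | β.1 ∈ K j} x) ^ 2 ≤ 2 * F.nrm x ^ 2 := by
  have h1 := F.N1_lower (fun j => {β : Bk | β.1 ∈ K j})
    (fun j j' hne => Set.disjoint_left.2 fun β g g' => Set.disjoint_left.1 (hK j j' hne) g g') x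
  have h2 := F.N2_lower K hK x
  have h3 : ∑ j, F.nrm (F.res {β | β.1 ∈ K j} x) ^ 2 ≤
      ∑ j, (2 * F.N1 (F.res {β | β.1 ∈ K j} x) ^ 2 + 2 * F.N2 (F.res {β | β.1 ∈ K j} x) ^ 2) :=
    Finset.sum_le_sum fun j _ => by
      rw [nrm]
      nlinarith [sq_nonneg (F.N1 (F.res {β | β.1 ∈ K j} x) - F.N2 (F.res {β | β.1 ∈ K j} x))]
  rw [Finset.sum_add_distrib, ← Finset.mul_sum, ← Finset.mul_sum] at h3
  have h4 := mul_nonneg (F.N1_nonneg x) (F.N2_nonneg x)
  rw [show F.nrm x = F.N1 x + F.N2 x from rfl]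
  nlinarith

/-- Upper Euclidean estimate for vectors living on different kinds. -/
lemma nrm_upper {Γ : Type} [Fintype Γ] (x : Γ → F.D)
    (h : ∀ j j', j ≠ j' → ∀ β β', x j β ≠ 0 → x j' β' ≠ 0 → β.1 ≠ β'.1) :
    F.nrm (∑ j, x j) ≤ 2 * √(∑ j, F.nrm (x j) ^ 2) := by
  have h1 := F.N1_sum_disj x fun j j' hne β => by
    by_contra hcon
    push Not at hcon
    exact h j j' hne β β hcon.1 hcon.2 rfl
  have h2 := F.N2_sum_sep x fun j j' hne β β' g g' =>
    ⟨fun e => h j j' hne β β' g g' (by rw [e]), fun e => h j j' hne β β' g g' e.1⟩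
  have h3 : F.N1 (∑ j, x j) ≤ √(∑ j, F.nrm (x j) ^ 2) := by
    refine Real.le_sqrt_of_sq_le ?_
    rw [h1]
    exact Finset.sum_le_sum fun j _ => pow_le_pow_left₀ (F.N1_nonneg _) (F.N1_le_nrm _) 2
  have h4 : F.N2 (∑ j, x j) ≤ √(∑ j, F.nrm (x j) ^ 2) :=
    h2.trans (Real.sqrt_le_sqrt
      (Finset.sum_le_sum fun j _ => pow_le_pow_left₀ (F.N2_nonneg _) (F.N2_le_nrm _) 2))
  rw [show F.nrm (∑ j, x j) = F.N1 (∑ j, x j) + F.N2 (∑ j, x j) from rfl]
  linarith

end Frame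

end Pool.Agent.Lib.MP_e0f470_an.Rob
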