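import Pool.Agent.Lib.MP_e0f470_an.RNorm2

/-! Comparison with the Euclidean norm and masses. -/

set_option autoImplicit false

namespace Pool.Agent.Lib.MP_e0f470_an.Rob

open Finset Filter
open scoped BigOperators Topology

variable {𝕜 : Type} [RCLike 𝕜]

namespace Frame

variable (F : Frame 𝕜)

/-- On boundedly many kinds the norm is Euclidean: a chain meeting the support has at most `Lm`
elements, and the chains of a system are disjoint; use the Cauchy-Schwarz inequality twice. -/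
lemma N2_le_sqrt (x : F.D) (Lm : ℝ) (h : ∀ β, x β ≠ 0 → (F.L β.1 : ℝ) ≤ Lm) :
    F.N2 x ≤ √Lm * F.N1 x := by
  classical
  refine F.N2_le fun m S b hS => ?_
  obtain ⟨hc, hk, hb, hb1⟩ := hS
  have hL : Lm ≤ √Lm ^ 2 := by
    rw [Real.sq_sqrt']
    exact le_max_left _ _
  have h1 : ∀ q, (∑ β ∈ S q, F.ν β.1 (x β)) ^ 2 ≤ √Lm ^ 2 * ∑ β ∈ S q, F.ν β.1 (x β) ^ 2 := by
    intro q
    by_cases hq : ∀ β ∈ S q, x β = 0
    · have e1 : ∑ β ∈ S q, F.ν β.1 (x β) = 0 :=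
        Finset.sum_eq_zero fun β hβ => by rw [hq β hβ, map_zero]
      rw [e1]
      have : (0 : ℝ) ≤ √Lm ^ 2 * ∑ β ∈ S q, F.ν β.1 (x β) ^ 2 :=
        mul_nonneg (sq_nonneg _) (Finset.sum_nonneg fun β _ => sq_nonneg _)
      simpa using this
    · push Not at hq
      obtain ⟨β0, hβ0, hx0⟩ := hq
      have hcard : ((S q).card : ℝ) ≤ √Lm ^ 2 := by
        have h2 : ((S q).card : ℝ) ≤ (F.L β0.1 : ℝ) := by exact_mod_cast (hc q).2 β0 hβ0
        exact h2.trans ((h β0 hx0).trans hL)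
      calc (∑ β ∈ S q, F.ν β.1 (x β)) ^ 2
          ≤ ((S q).card : ℝ) * ∑ β ∈ S q, F.ν β.1 (x β) ^ 2 := sq_sum_le_card_mul_sum_sq
        _ ≤ √Lm ^ 2 * ∑ β ∈ S q, F.ν β.1 (x β) ^ 2 :=
          mul_le_mul_of_nonneg_right hcard (Finset.sum_nonneg fun β _ => sq_nonneg _)
  have hdisj : ((univ : Finset (Fin m)) : Set (Fin m)).PairwiseDisjoint S := by
    intro q _ q' _ hqq
    rw [Function.onFun, Finset.disjoint_left]
    intro β hβ hβ'
    exact hk q q' hqq β hβ β hβ' rfl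
  have h2 : ∑ q, ∑ β ∈ S q, F.ν β.1 (x β) ^ 2 ≤ F.N1 x ^ 2 := by
    rw [← Finset.sum_biUnion hdisj]
    exact F.sum_sq_le_N1 x _
  have h3 : ∑ q, (∑ β ∈ S q, F.ν β.1 (x β)) ^ 2 ≤ (√Lm * F.N1 x) ^ 2 := by
    calc ∑ q, (∑ β ∈ S q, F.ν β.1 (x β)) ^ 2
        ≤ ∑ q, √Lm ^ 2 * ∑ β ∈ S q, F.ν β.1 (x β) ^ 2 := Finset.sum_le_sum fun q _ => h1 q
      _ = √Lm ^ 2 * ∑ q, ∑ β ∈ S q, F.ν β.1 (x β) ^ 2 := by rw [Finset.mul_sum]
      _ ≤ √Lm ^ 2 * F.N1 x ^ 2 := mul_le_mul_of_nonneg_left h2 (sq_nonneg _)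
      _ = (√Lm * F.N1 x) ^ 2 := by ring
  have h4 : F.val S b x ^ 2 ≤ (√Lm * F.N1 x) ^ 2 := by
    calc F.val S b x ^ 2
        ≤ (∑ q, b q ^ 2) * ∑ q, (∑ β ∈ S q, F.ν β.1 (x β)) ^ 2 :=
          Finset.sum_mul_sq_le_sq_mul_sq _ _ _
      _ ≤ 1 * (√Lm * F.N1 x) ^ 2 :=
          mul_le_mul hb1 h3 (Finset.sum_nonneg fun q _ => sq_nonneg _) zero_le_one
      _ = (√Lm * F.N1 x) ^ 2 := one_mul _
  exact (abs_le_of_sq_le_sq' h4 (mul_nonneg (Real.sqrt_nonneg _) (F.N1_nonneg x))).2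

lemma nrm_le_sqrt (x : F.D) (Lm : ℝ) (h : ∀ β, x β ≠ 0 → (F.L β.1 : ℝ) ≤ Lm) :
    F.nrm x ≤ (1 + √Lm) * F.N1 x := by
  have := F.N2_le_sqrt x Lm h
  unfold nrm
  linarith

/-- The restriction to a set of kinds is bounded by the masses of the single kinds: there is a
finite set `A ⊆ K` of kinds carrying it (apply `nrm_upper` with the index type `A`). -/
lemma nrm_res_kinds (x : F.D) (K : Set ℕ) : ∃ A : Finset ℕ, (∀ n ∈ A, n ∈ K) ∧
    F.nrm (F.res {β | β.1 ∈ K} x) ≤ 2 * √(∑ n ∈ A, F.nrm (F.res {β | β.1 = n} x) ^ 2) := by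
  classical
  obtain ⟨B, hB⟩ := F.exists_supp x
  refine ⟨(B.image fun β => β.1).filter (· ∈ K), fun n hn => (Finset.mem_filter.1 hn).2, ?_⟩
  set A : Finset ℕ := (B.image fun β => β.1).filter (· ∈ K) with hA
  have e : F.res {β | β.1 ∈ K} x = ∑ n : A, F.res {β | β.1 = (n : ℕ)} x := by
    refine DFinsupp.ext fun β => ?_
    rw [DFinsupp.finsetSum_apply]
    by_cases hβ : β.1 ∈ A
    · rw [Finset.sum_eq_single (⟨β.1, hβ⟩ : A)]
      · rw [F.res_apply_of_mem (A := {β | β.1 ∈ K}) (Finset.mem_filter.1 hβ).2,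
          F.res_apply_of_mem (A := {β' | β'.1 = ((⟨β.1, hβ⟩ : A) : ℕ)}) rfl]
      · intro n _ hn
        refine F.res_apply_of_notMem (fun h => hn ?_) x
        exact Subtype.ext (Eq.symm h)
      · intro h
        exact absurd (Finset.mem_univ _) h
    · have e2 : ∑ n : A, F.res {β | β.1 = (n : ℕ)} x β = 0 := by
        refine Finset.sum_eq_zero fun n _ => F.res_apply_of_notMem (fun h => hβ ?_) x
        have h' : β.1 = (n : ℕ) := h
        rw [h']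
        exact n.2
      rw [e2]
      by_cases hK : β.1 ∈ K
      · rw [F.res_apply_of_mem (A := {β | β.1 ∈ K}) hK]
        refine hB β fun hβB => hβ ?_
        exact Finset.mem_filter.2 ⟨Finset.mem_image_of_mem _ hβB, hK⟩
      · exact F.res_apply_of_notMem (A := {β | β.1 ∈ K}) hK x
  have h1 := F.nrm_upper (fun n : A => F.res {β | β.1 = (n : ℕ)} x) (by
    intro j j' hjj β β' hβ hβ' hne
    have e1 : β.1 = (j : ℕ) := by
      by_contra hc
      exact hβ (F.res_apply_of_notMem (A := {β | β.1 = (j : ℕ)}) hc x)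
    have e2 : β'.1 = (j' : ℕ) := by
      by_contra hc
      exact hβ' (F.res_apply_of_notMem (A := {β | β.1 = (j' : ℕ)}) hc x)
    exact hjj (Subtype.ext (by rw [← e1, ← e2, hne])))
  rw [e, ← Finset.sum_coe_sort A fun n => F.nrm (F.res {β | β.1 = n} x) ^ 2]
  exact h1

lemma sum_kinds_le (x : F.D) (A : Finset ℕ) :
    ∑ n ∈ A, F.nrm (F.res {β | β.1 = n} x) ^ 2 ≤ 2 * F.nrm x ^ 2 := by
  have h1 := F.nrm_lower (fun n : A => ({(n : ℕ)} : Set ℕ)) (by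
    intro j j' hjj
    rw [Set.disjoint_singleton]
    exact fun h => hjj (Subtype.ext h)) x
  rw [← Finset.sum_coe_sort A fun n => F.nrm (F.res {β | β.1 = n} x) ^ 2]
  exact h1

/-- The blocks of kind less than `I` with some coordinate in `K` are controlled by the masses of
the single values of the coordinates. -/
lemma N1_res_coords (x : F.D) (I : ℕ) (K : Set ℕ) : ∃ A : Finset ℕ, (∀ n ∈ A, n ∈ K) ∧
    F.N1 (F.res {β | β.1 < I ∧ ∃ ρ, ρ ≤ β.1 ∧ co β ρ ∈ K} x) ^ 2 ≤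
      ∑ n ∈ A, ∑ ρ ∈ range I, F.N1 (F.res {β | co β ρ = n} x) ^ 2 := by
  classical
  obtain ⟨B, hB⟩ := F.exists_supp x
  refine ⟨((B ×ˢ range I).image fun z => co z.1 z.2).filter (· ∈ K),
    fun n hn => (Finset.mem_filter.1 hn).2, ?_⟩
  set A : Finset ℕ := ((B ×ˢ range I).image fun z => co z.1 z.2).filter (· ∈ K) with hA
  have hres : ∀ (S : Set Bk) β, β ∉ B → F.res S x β = 0 := by
    intro S β hβ
    by_cases h : β ∈ S
    · rw [F.res_apply_of_mem h, hB β hβ]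
    · exact F.res_apply_of_notMem h x
  rw [F.N1_sq _ B (hres _)]
  have e : ∑ n ∈ A, ∑ ρ ∈ range I, F.N1 (F.res {β | co β ρ = n} x) ^ 2 =
      ∑ β ∈ B, ∑ n ∈ A, ∑ ρ ∈ range I, F.ν β.1 (F.res {β | co β ρ = n} x β) ^ 2 := by
    rw [Finset.sum_comm (s := B)]
    refine Finset.sum_congr rfl fun n _ => ?_
    rw [Finset.sum_comm (s := B)]
    exact Finset.sum_congr rfl fun ρ _ => F.N1_sq _ B (hres _)
  rw [e]
  refine Finset.sum_le_sum fun β hβ => ?_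
  by_cases h : β ∈ {β : Bk | β.1 < I ∧ ∃ ρ, ρ ≤ β.1 ∧ co β ρ ∈ K}
  · rw [F.res_apply_of_mem h]
    obtain ⟨hI, ρ, hρ, hK⟩ := h
    have hρI : ρ ∈ range I := Finset.mem_range.2 (lt_of_le_of_lt hρ hI)
    have hn : co β ρ ∈ A :=
      Finset.mem_filter.2 ⟨Finset.mem_image.2 ⟨(β, ρ), Finset.mem_product.2 ⟨hβ, hρI⟩, rfl⟩, hK⟩
    calc F.ν β.1 (x β) ^ 2 = F.ν β.1 (F.res {β' | co β' ρ = co β ρ} x β) ^ 2 := by
          rw [F.res_apply_of_mem (A := {β' | co β' ρ = co β ρ}) rfl]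
      _ ≤ ∑ ρ' ∈ range I, F.ν β.1 (F.res {β' | co β' ρ' = co β ρ} x β) ^ 2 :=
          Finset.single_le_sum
            (f := fun ρ' => F.ν β.1 (F.res {β' | co β' ρ' = co β ρ} x β) ^ 2)
            (fun _ _ => sq_nonneg _) hρI
      _ ≤ ∑ n ∈ A, ∑ ρ' ∈ range I, F.ν β.1 (F.res {β' | co β' ρ' = n} x β) ^ 2 :=
          Finset.single_le_sum
            (f := fun n => ∑ ρ' ∈ range I, F.ν β.1 (F.res {β' | co β' ρ' = n} x β) ^ 2)
            (fun _ _ => Finset.sum_nonneg fun _ _ => sq_nonneg _) hn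
  · rw [F.res_apply_of_notMem h, map_zero]
    have : (0 : ℝ) ≤ ∑ n ∈ A, ∑ ρ ∈ range I, F.ν β.1 (F.res {β | co β ρ = n} x β) ^ 2 :=
      Finset.sum_nonneg fun _ _ => Finset.sum_nonneg fun _ _ => sq_nonneg _
    simpa using this

lemma sum_coords_le (x : F.D) (I : ℕ) (A : Finset ℕ) :
    ∑ n ∈ A, ∑ ρ ∈ range I, F.N1 (F.res {β | co β ρ = n} x) ^ 2 ≤ I * F.N1 x ^ 2 := by
  rw [Finset.sum_comm]
  have h1 : ∀ ρ ∈ range I, ∑ n ∈ A, F.N1 (F.res {β | co β ρ = n} x) ^ 2 ≤ F.N1 x ^ 2 := by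
    intro ρ _
    have h2 := F.N1_lower (fun n : A => {β : Bk | co β ρ = (n : ℕ)}) (by
      intro j j' hjj
      rw [Set.disjoint_left]
      intro β h h'
      have e1 : co β ρ = (j : ℕ) := h
      have e2 : co β ρ = (j' : ℕ) := h'
      exact hjj (Subtype.ext (by rw [← e1, ← e2]))) x
    rw [← Finset.sum_coe_sort A fun n => F.N1 (F.res {β | co β ρ = n} x) ^ 2]
    exact h2
  calc ∑ ρ ∈ range I, ∑ n ∈ A, F.N1 (F.res {β | co β ρ = n} x) ^ 2
      ≤ ∑ _ρ ∈ range I, F.N1 x ^ 2 := Finset.sum_le_sum h1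
    _ = I * F.N1 x ^ 2 := by rw [Finset.sum_const, Finset.card_range, nsmul_eq_mul]

end Frame

end Pool.Agent.Lib.MP_e0f470_an.Rob
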