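import Pool.Agent.Lib.MP_e0f470_an.RDefs

/-! Uniformly bounded projections. -/

set_option autoImplicit false

namespace Pool.Agent.Lib.MP_e0f470_an.Rob

open Finset Filter
open scoped BigOperators Topology

variable {𝕜 : Type} [RCLike 𝕜]

variable {X : Type} [NormedAddCommGroup X] [NormedSpace 𝕜 X] {S : ℕ → X →L[𝕜] X}

/-- Take `T` between `S n` and `S n1`, then `a, b` with `a` between `n1` and `n2`, then `T'`
between `S n2` and `S n3`, and replace `b` by `b ∘ (1 - T) ∘ T'`. -/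
theorem univ2_of_univ (hS : FDD S) {l K : ℝ} (hl : 0 ≤ l) (hK : 0 ≤ K) (hM : Mult S l)
    (hU : Univ S K) : Univ2 S (K * (1 + l) * l) := by
  intro n G _ _ _
  obtain ⟨n1, T, h1, hT, hTa, -, hTc, -⟩ := hM n
  obtain ⟨n2, a, b, h2, ha, hb, hba, ha0, ha1⟩ := hU n1 G
  obtain ⟨n3, T', h3, hT', hTa', -, hTc', -⟩ := hM n2
  have hTz : ∀ g, T (a g) = 0 := fun g => by rw [← hTc, ha0, map_zero]
  have hT'a : ∀ g, T' (a g) = a g := fun g => by
    have h := hTa' (a g)
    rwa [ha1] at h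
  refine ⟨n3, a, b.comp ((ContinuousLinearMap.id 𝕜 X - T).comp T'), h1.trans (h2.trans h3), ha,
    ?_, ?_, ?_, ?_, ?_, ?_⟩
  · refine ContinuousLinearMap.opNorm_le_bound _ (by positivity) fun x => ?_
    have e1 : ‖T' x‖ ≤ l * ‖x‖ := T'.le_of_opNorm_le hT' x
    have e2 : ‖T (T' x)‖ ≤ l * ‖T' x‖ := T.le_of_opNorm_le hT _
    have e3 : ‖T' x - T (T' x)‖ ≤ (1 + l) * (l * ‖x‖) := by
      calc ‖T' x - T (T' x)‖ ≤ ‖T' x‖ + ‖T (T' x)‖ := norm_sub_le _ _
        _ ≤ (1 + l) * ‖T' x‖ := by linarith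
        _ ≤ (1 + l) * (l * ‖x‖) := by gcongr
    calc ‖(b.comp ((ContinuousLinearMap.id 𝕜 X - T).comp T')) x‖
        = ‖b (T' x - T (T' x))‖ := rfl
      _ ≤ K * ‖T' x - T (T' x)‖ := b.le_of_opNorm_le hb _
      _ ≤ K * ((1 + l) * (l * ‖x‖)) := by gcongr
      _ = K * (1 + l) * l * ‖x‖ := by ring
  · intro g
    change b (T' (a g) - T (T' (a g))) = g
    rw [hT'a, hTz, sub_zero, hba]
  · intro g
    have h := hS.comp n n1 (a g)
    rw [ha0, map_zero, min_eq_left h1] at h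
    exact h.symm
  · intro g
    have h := hS.comp n3 n2 (a g)
    rw [min_eq_right h3, ha1] at h
    exact h
  · intro x
    change b (T' (S n x) - T (T' (S n x))) = 0
    have h := hTa' (S n x)
    rw [hS.comp, min_eq_right (h1.trans h2)] at h
    rw [h, hTa, sub_self, map_zero]
  · intro x
    change b (T' (S n3 x) - T (T' (S n3 x))) = b (T' x - T (T' x))
    rw [hTc']

/-- Take `T` between `S n` and `S n1`. Let `G` be the range of `S n1 - S n` (finite-dimensional,
invariant under `T`, containing the range of `T - T ^ 2`) with inclusion `j`, and take `a, b` for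
`G` between `n1` and `n2`. Then `P = T + j b + a (T - T ^ 2) + a (1 - T) j b` is a projection
between `S n` and `S n2` (`T a = 0`, `b T = 0`, `b j = 0`, `b a = 1`). -/
theorem projs_of_univ2 (hS : FDD S) {l K : ℝ} (hl : 0 ≤ l) (hK : 0 ≤ K) (hM : Mult S l)
    (hU : Univ2 S K) : Projs S (l + K + (l + l ^ 2) + (1 + l) * K) := by
  intro n
  obtain ⟨n1, T, h1, hT, hTa, hTb, hTc, hTd⟩ := hM n
  let G : Submodule 𝕜 X :=
    LinearMap.ker (S n).toLinearMap ⊓ LinearMap.range (S n1).toLinearMap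
  have := hS.fin n1
  have : FiniteDimensional 𝕜 G := Submodule.finiteDimensional_inf_right _ _
  have hG : ∀ x, x ∈ G ↔ S n x = 0 ∧ S n1 x = x := by
    intro x
    constructor
    · rintro ⟨h0, y, rfl⟩
      refine ⟨h0, ?_⟩
      change S n1 (S n1 y) = S n1 y
      rw [hS.comp, min_self]
    · rintro ⟨h0, h⟩
      exact ⟨h0, x, h⟩
  obtain ⟨n2, a, b, h2, ha, hb, hba, ha0, ha1, hb0, hb1⟩ := hU n1 G
  have hrm : ∀ x, (T - T.comp T) x ∈ G := fun x => by
    change T x - T (T x) ∈ G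
    rw [hG, map_sub, map_sub, hTb, hTb, hTb, hTd, hTd]
    exact ⟨sub_self _, rfl⟩
  have hsm : ∀ g : G, ((ContinuousLinearMap.id 𝕜 X - T).comp G.subtypeL) g ∈ G := fun g => by
    change (g : X) - T g ∈ G
    obtain ⟨g0, g1⟩ := (hG g).1 g.2
    rw [hG, map_sub, map_sub, hTb, hTd, g1]
    exact ⟨sub_self _, rfl⟩
  let r : X →L[𝕜] G := (T - T.comp T).codRestrict G hrm
  let s : G →L[𝕜] G := ((ContinuousLinearMap.id 𝕜 X - T).comp G.subtypeL).codRestrict G hsm
  have hr : ∀ x, (r x : X) = T x - T (T x) := fun x => rfl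
  have hs : ∀ g : G, (s g : X) = g - T g := fun g => rfl
  let P : X →L[𝕜] X := T + G.subtypeL.comp b + a.comp r + a.comp (s.comp b)
  have hP : ∀ x, P x = T x + (b x : X) + a (r x) + a (s (b x)) := fun x => rfl
  have hTz : ∀ g, T (a g) = 0 := fun g => by rw [← hTc, ha0, map_zero]
  have hbT : ∀ x, b (T x) = 0 := fun x => by rw [← hTd, hb0]
  have hbj : ∀ g : G, b (g : X) = 0 := fun g => by rw [← ((hG g).1 g.2).2, hb0]
  have hna : ∀ g, S n (a g) = 0 := fun g => by
    have h := hS.comp n n1 (a g)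
    rw [ha0, map_zero, min_eq_left h1] at h
    exact h.symm
  refine ⟨n2, P, h1.trans h2, ?_, ⟨?_, ?_, ?_, ?_⟩, ?_⟩
  · refine ContinuousLinearMap.opNorm_le_bound _ (by positivity) fun x => ?_
    have e1 : ‖T x‖ ≤ l * ‖x‖ := T.le_of_opNorm_le hT x
    have e2 : ‖T (T x)‖ ≤ l * ‖T x‖ := T.le_of_opNorm_le hT _
    have e3 : ‖(b x : X)‖ ≤ K * ‖x‖ := b.le_of_opNorm_le hb x
    have e4 : ‖T (b x : X)‖ ≤ l * ‖(b x : X)‖ := T.le_of_opNorm_le hT _
    have e5 : ∀ g : G, ‖a g‖ ≤ ‖(g : X)‖ := fun g => by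
      have h := a.le_of_opNorm_le ha g
      rwa [one_mul] at h
    have e6 : ‖a (r x)‖ ≤ (l + l ^ 2) * ‖x‖ := by
      calc ‖a (r x)‖ ≤ ‖T x - T (T x)‖ := e5 _
        _ ≤ ‖T x‖ + ‖T (T x)‖ := norm_sub_le _ _
        _ ≤ (1 + l) * ‖T x‖ := by linarith
        _ ≤ (1 + l) * (l * ‖x‖) := by gcongr
        _ = (l + l ^ 2) * ‖x‖ := by ring
    have e7 : ‖a (s (b x))‖ ≤ (1 + l) * K * ‖x‖ := by
      calc ‖a (s (b x))‖ ≤ ‖(b x : X) - T (b x : X)‖ := e5 _
        _ ≤ ‖(b x : X)‖ + ‖T (b x : X)‖ := norm_sub_le _ _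
        _ ≤ (1 + l) * ‖(b x : X)‖ := by linarith
        _ ≤ (1 + l) * (K * ‖x‖) := by gcongr
        _ = (1 + l) * K * ‖x‖ := by ring
    rw [hP]
    have e8 := norm_add₄_le (a := T x) (b := (b x : X)) (c := a (r x)) (d := a (s (b x)))
    linarith
  · intro x
    have e1 : b (S n x) = 0 := by
      have h := hb0 (S n x)
      rwa [hS.comp, min_eq_right h1] at h
    have e2 : r (S n x) = 0 := by
      apply Subtype.ext
      rw [hr, hTa, hTa, sub_self]
      rfl
    rw [hP, e1, e2, hTa]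
    simp
  · intro x
    rw [hP, map_add, map_add, map_add, hTb, hna, hna, ((hG _).1 (b x).2).1]
    simp
  · intro x
    have e1 : T (S n2 x) = T x := by
      rw [← hTc, hS.comp, min_eq_left h2, hTc]
    have e2 : r (S n2 x) = r x := by
      apply Subtype.ext
      rw [hr, hr, e1]
    rw [hP, hP, e1, e2, hb1]
  · intro x
    have e1 : ∀ y, S n1 y = y → S n2 y = y := fun y hy => by
      have h := hS.comp n2 n1 y
      rwa [min_eq_right h2, hy] at h
    rw [hP, map_add, map_add, map_add, ha1, ha1, e1 _ (hTd x), e1 _ ((hG _).1 (b x).2).2]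
  · intro x
    have e1 : T (P x) = T (T x) + T (b x : X) := by
      rw [hP, map_add, map_add, map_add, hTz, hTz, add_zero, add_zero]
    have e2 : b (P x) = r x + s (b x) := by
      rw [hP, map_add, map_add, map_add, hbT, hbj, hba, hba, zero_add, zero_add]
    have e3 : r (P x) + s (b (P x)) = r x + s (b x) := by
      apply Subtype.ext
      rw [e2]
      simp only [Submodule.coe_add, hr, hs, e1, map_add, map_sub]
      abel
    have e4 : T (P x) + (b (P x) : X) = T x + (b x : X) := by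
      rw [e1, e2]
      simp only [Submodule.coe_add, hr, hs]
      abel
    rw [hP (P x), e4, add_assoc, ← map_add, e3, map_add, ← add_assoc, ← hP]

end Pool.Agent.Lib.MP_e0f470_an.Rob
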