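import Pool.Agent.Lib.MP_e0f470_an.RAvg

/-! Tail bounds for one random row: sums of independent variables. -/

set_option autoImplicit false

namespace Pool.Agent.Lib.MP_e0f470_an.Rob

open Finset Filter
open scoped BigOperators Topology

variable {𝕜 : Type} [RCLike 𝕜]

/-- The Chernoff bound. -/
lemma pr_le_of_mgf {α : Type} [Fintype α] (f : α → ℝ) (l t C : ℝ) (hl : 0 ≤ l)
    (h : (ra fun a => Real.exp (l * f a)) ≤ C) :
    pr (fun a => t < f a) ≤ C * Real.exp (-(l * t)) := by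
  have h1 : pr (fun a => t < f a) ≤ ra fun a => Real.exp (l * f a) * Real.exp (-(l * t)) := by
    refine pr_le_ra (fun a => by positivity) fun a ha => ?_
    rw [← Real.exp_add]
    refine Real.one_le_exp ?_
    have := mul_le_mul_of_nonneg_left ha.le hl
    linarith
  rw [ra_mul_const] at h1
  exact h1.trans (mul_le_mul_of_nonneg_right h (Real.exp_pos _).le)

/-- From one-sided real bounds to a bound for the norm: if `t < ‖z‖` then one of `± re z`,
`± im z` exceeds `t / 2`. -/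
lemma pr_norm_le {α : Type} [Fintype α] (f : α → 𝕜) (t δ : ℝ)
    (h1 : pr (fun a => t / 2 < RCLike.re (f a)) ≤ δ) (h2 : pr (fun a => t / 2 < -RCLike.re (f a)) ≤ δ)
    (h3 : pr (fun a => t / 2 < RCLike.im (f a)) ≤ δ) (h4 : pr (fun a => t / 2 < -RCLike.im (f a)) ≤ δ) :
    pr (fun a => t < ‖f a‖) ≤ 4 * δ := by
  have key : ∀ a, t < ‖f a‖ → ((t / 2 < RCLike.re (f a) ∨ t / 2 < -RCLike.re (f a)) ∨
      (t / 2 < RCLike.im (f a) ∨ t / 2 < -RCLike.im (f a))) := by
    intro a ha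
    by_contra hc
    push Not at hc
    obtain ⟨⟨k1, k2⟩, k3, k4⟩ := hc
    have e1 : |RCLike.re (f a)| ≤ t / 2 := abs_le.2 ⟨by linarith, k1⟩
    have e2 : |RCLike.im (f a)| ≤ t / 2 := abs_le.2 ⟨by linarith, k3⟩
    have e3 : ‖f a‖ ≤ |RCLike.re (f a)| + |RCLike.im (f a)| := by
      have e4 : ‖f a‖ ^ 2 = RCLike.re (f a) * RCLike.re (f a) +
          RCLike.im (f a) * RCLike.im (f a) := RCLike.norm_sq_eq_def
      refine abs_le_of_sq_le_sq' ?_ (by positivity) |>.2
      rw [e4, add_sq, sq_abs, sq_abs]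
      have : 0 ≤ 2 * |RCLike.re (f a)| * |RCLike.im (f a)| := by positivity
      nlinarith
    linarith
  have k1 := pr_mono key
  have k2 := pr_or_le (fun a => t / 2 < RCLike.re (f a) ∨ t / 2 < -RCLike.re (f a))
    (fun a => t / 2 < RCLike.im (f a) ∨ t / 2 < -RCLike.im (f a))
  have k3 := pr_or_le (fun a => t / 2 < RCLike.re (f a)) (fun a => t / 2 < -RCLike.re (f a))
  have k4 := pr_or_le (fun a => t / 2 < RCLike.im (f a)) (fun a => t / 2 < -RCLike.im (f a))
  linarith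

/-- The moment generating function of a Rademacher sum (`ra_pi_prod`,
`Real.cosh_le_exp_half_sq`). -/
lemma mgf_signs {Φ : Type} [Fintype Φ] [DecidableEq Φ] (a : Φ → ℝ) :
    (ra fun e : Φ → Bool => Real.exp (∑ c, sr (e c) * a c)) ≤ Real.exp ((∑ c, a c ^ 2) / 2) := by
  simp only [Real.exp_sum, Finset.sum_div]
  rw [ra_pi_prod (fun c (b : Bool) => Real.exp (sr b * a c))]
  refine Finset.prod_le_prod (fun c _ => ra_nonneg fun b => (Real.exp_pos _).le) fun c _ => ?_
  refine le_trans (le_of_eq ?_) (Real.cosh_le_exp_half_sq (a c))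
  rw [Real.cosh_eq]
  simp [ra, sr]
  ring

/-- One-sided tail bound for independent centered bounded variables. -/
lemma rowA_one {α Φ : Type} [Fintype α] [Nonempty α] [Fintype Φ] [DecidableEq Φ] [Nonempty Φ]
    (g : α → ℝ) (hg : ∀ z, |g z| ≤ 1) (h0 : ra g = 0) (a : Φ → ℝ) (ha : ∀ c, |a c| ≤ 2)
    (ε : ℝ) (hε : 0 < ε) (hε1 : ε ≤ 1) :
    pr (fun r : Φ → α => ε / 2 < ra fun c => g (r c) * a c) ≤
      Real.exp (-(ε ^ 2 * Fintype.card Φ / 64)) := by
  have hn : (0 : ℝ) < Fintype.card Φ := by positivity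
  have hm : (ra fun r : Φ → α => Real.exp (ε / 16 * ∑ c, g (r c) * a c)) ≤
      Real.exp (ε ^ 2 * Fintype.card Φ / 64) := by
    simp only [Finset.mul_sum, Real.exp_sum]
    rw [ra_pi_prod (fun c (z : α) => Real.exp (ε / 16 * (g z * a c)))]
    have hc : ∀ c, (ra fun z : α => Real.exp (ε / 16 * (g z * a c))) ≤ Real.exp (ε ^ 2 / 64) := by
      intro c
      have hy : ∀ z, |ε / 16 * (g z * a c)| ≤ ε / 8 := by
        intro z
        rw [abs_mul, abs_mul, abs_of_pos (by positivity : (0 : ℝ) < ε / 16)]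
        have : |g z| * |a c| ≤ 1 * 2 :=
          mul_le_mul (hg z) (ha c) (abs_nonneg _) zero_le_one
        nlinarith
      have h1 : (ra fun z : α => Real.exp (ε / 16 * (g z * a c))) ≤
          ra fun z : α => (1 + ε ^ 2 / 64) + ε / 16 * a c * g z := by
        refine ra_mono fun z => ?_
        have h2 := Real.abs_exp_sub_one_sub_id_le (x := ε / 16 * (g z * a c))
          ((hy z).trans (by linarith))
        have h3 : (ε / 16 * (g z * a c)) ^ 2 ≤ (ε / 8) ^ 2 := by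
          rw [← sq_abs]
          exact pow_le_pow_left₀ (abs_nonneg _) (hy z) 2
        have h4 := (abs_le.1 h2).2
        nlinarith
      rw [ra_add, ra_const, ra_const_mul, h0, mul_zero, add_zero] at h1
      refine h1.trans ?_
      have := Real.add_one_le_exp (ε ^ 2 / 64)
      linarith
    refine (Finset.prod_le_prod (fun c _ => ra_nonneg fun b => (Real.exp_pos _).le)
      fun c _ => hc c).trans (le_of_eq ?_)
    rw [Finset.prod_const, Finset.card_univ, ← Real.exp_nat_mul]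
    congr 1
    ring
  have h1 := pr_le_of_mgf (fun r : Φ → α => ∑ c, g (r c) * a c) (ε / 16)
    (ε / 2 * Fintype.card Φ) _ (by positivity) hm
  refine (pr_mono fun r hr => ?_).trans (h1.trans (le_of_eq ?_))
  · unfold ra at hr
    rw [lt_inv_mul_iff₀ hn] at hr
    linarith
  · rw [← Real.exp_add]
    congr 1
    ring

/-- Tail bound for the norm of an average of independent centered bounded variables. -/
lemma rowA_norm {α Φ : Type} [Fintype α] [Nonempty α] [Fintype Φ] [DecidableEq Φ]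
    (g : α → ℝ) (hg : ∀ z, |g z| ≤ 1) (h0 : ra g = 0) (ψ : Φ → 𝕜) (hψ : ∀ c, ‖ψ c‖ ≤ 2)
    (ε q : ℝ) (hε : 0 < ε) (hε1 : ε ≤ 1) (hq : 1 ≤ q) (hn : (Fintype.card Φ : ℝ) = q ^ 4) :
    pr (fun r : Φ → α => ε < ‖av 𝕜 fun c => ((g (r c) : ℝ) : 𝕜) * ψ c‖) ≤
      16 * Real.exp (-(ε ^ 2 * q / 64)) := by
  have hq4 : q ≤ q ^ 4 := le_self_pow₀ hq (by norm_num)
  have hpos : 0 < Fintype.card Φ := by
    have : (0 : ℝ) < Fintype.card Φ := by rw [hn]; linarith
    exact_mod_cast this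
  have : Nonempty Φ := Fintype.card_pos_iff.1 hpos
  have hre : ∀ c, |RCLike.re (ψ c)| ≤ 2 := fun c => (RCLike.abs_re_le_norm _).trans (hψ c)
  have him : ∀ c, |RCLike.im (ψ c)| ≤ 2 := fun c => (RCLike.abs_im_le_norm _).trans (hψ c)
  have hneg : ∀ (r : Φ → α) (a : Φ → ℝ),
      (ra fun c => g (r c) * -a c) = -ra fun c => g (r c) * a c := by
    intro r a
    simp [ra]
  have h4 := pr_norm_le (fun r : Φ → α => av 𝕜 fun c => ((g (r c) : ℝ) : 𝕜) * ψ c) ε
    (Real.exp (-(ε ^ 2 * Fintype.card Φ / 64)))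
    (by
      simp only [re_av, RCLike.re_ofReal_mul]
      exact rowA_one g hg h0 _ hre ε hε hε1)
    (by
      simp only [re_av, RCLike.re_ofReal_mul, ← hneg]
      exact rowA_one g hg h0 (fun c => -RCLike.re (ψ c)) (fun c => by rw [abs_neg]; exact hre c)
        ε hε hε1)
    (by
      simp only [im_av, RCLike.im_ofReal_mul]
      exact rowA_one g hg h0 _ him ε hε hε1)
    (by
      simp only [im_av, RCLike.im_ofReal_mul, ← hneg]
      exact rowA_one g hg h0 (fun c => -RCLike.im (ψ c)) (fun c => by rw [abs_neg]; exact him c)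
        ε hε hε1)
  refine h4.trans ?_
  have h5 : Real.exp (-(ε ^ 2 * Fintype.card Φ / 64)) ≤ Real.exp (-(ε ^ 2 * q / 64)) := by
    rw [Real.exp_le_exp, hn]
    have := mul_le_mul_of_nonneg_left hq4 (sq_nonneg ε)
    linarith
  have h6 := Real.exp_pos (-(ε ^ 2 * q / 64))
  linarith

variable {J Φ : Type} [Fintype J] [DecidableEq J] [Nonempty J] [Fintype Φ] [DecidableEq Φ]

/-- Signed indicators against bounded coefficients. For real `|a c| ≤ 2` the moment generating
function of `∑ c, chi (r c) j * a c` at `l` is at most `exp (2 * l ^ 2 * n)` (`ra_pi_prod`,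
`ra_prod`); take `t = ε n / 2`, `l = ε / 8`. The bound is `4 * exp (- ε ^ 2 n / 32)` and
`q ≤ q ^ 4 = n`. -/
theorem rowA (ψ : Φ → 𝕜) (hψ : ∀ c, ‖ψ c‖ ≤ 2) (j : J) (ε q : ℝ) (hε : 0 < ε) (hε1 : ε ≤ 1)
    (hq : 1 ≤ q) (hn : (Fintype.card Φ : ℝ) = q ^ 4) :
    pr (fun r : Φ → Bool × J => ε < ‖av 𝕜 fun c => chi 𝕜 (r c) j * ψ c‖) ≤
      16 * Real.exp (-(ε ^ 2 * q / 64)) := by
  have e : ∀ z : Bool × J, chi 𝕜 z j = (((if z.2 = j then sr z.1 else 0 : ℝ) : ℝ) : 𝕜) := by
    intro z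
    unfold chi
    split_ifs
    · exact sk_eq_sr _
    · simp
  simp only [e]
  refine rowA_norm (fun z : Bool × J => if z.2 = j then sr z.1 else 0) (fun z => ?_) ?_ ψ hψ ε q
    hε hε1 hq hn
  · split_ifs
    · exact (abs_sr _).le
    · simp
  · simp [ra, Fintype.sum_prod_type, sr]

/-- Centered indicators against bounded coefficients. Use `exp y ≤ 1 + y + y ^ 2` for `|y| ≤ 1`
(`Real.abs_exp_sub_one_sub_id_le`), so the moment generating function at `l ≤ 1 / 2` is at most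
`exp (4 * l ^ 2 * n)`; take `t = ε n / 2`, `l = ε / 16`. -/
theorem rowC (s : Φ → 𝕜) (hs : ∀ c, ‖s c‖ ≤ 2) (j : J) (ε q : ℝ) (hε : 0 < ε) (hε1 : ε ≤ 1)
    (hq : 1 ≤ q) (hn : (Fintype.card Φ : ℝ) = q ^ 4) :
    pr (fun r : Φ → Bool × J =>
        ε < ‖av 𝕜 fun c => (ind 𝕜 (r c) j - (Fintype.card J : 𝕜)⁻¹) * s c‖) ≤
      16 * Real.exp (-(ε ^ 2 * q / 64)) := by
  have hJ : (1 : ℝ) ≤ Fintype.card J := by exact_mod_cast Fintype.card_pos
  have hi0 : (0 : ℝ) < (Fintype.card J : ℝ)⁻¹ := by positivity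
  have hi1 : (Fintype.card J : ℝ)⁻¹ ≤ 1 := inv_le_one_of_one_le₀ hJ
  have e : ∀ z : Bool × J, ind 𝕜 z j - (Fintype.card J : 𝕜)⁻¹ =
      ((((if z.2 = j then 1 else 0) - (Fintype.card J : ℝ)⁻¹ : ℝ) : ℝ) : 𝕜) := by
    intro z
    unfold ind
    split_ifs <;> simp
  simp only [e]
  refine rowA_norm (fun z : Bool × J => (if z.2 = j then 1 else 0) - (Fintype.card J : ℝ)⁻¹)
    (fun z => ?_) ?_ s hs ε q hε hε1 hq hn
  · split_ifs
    · exact abs_le.2 ⟨by linarith, by linarith⟩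
    · exact abs_le.2 ⟨by linarith, by linarith⟩
  · rw [ra_sub, ra_const, ra_prod]
    have h1 : ∀ b : Bool, (ra fun k : J => if (b, k).2 = j then (1 : ℝ) else 0) =
        (Fintype.card J : ℝ)⁻¹ := by
      intro b
      simp [ra]
    simp only [h1, ra_const, sub_self]

end Pool.Agent.Lib.MP_e0f470_an.Rob
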