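import Pool.Agent.Lib.MP_e0f470_an.RNorm3

/-! The decomposition is shrinking. -/

set_option autoImplicit false

namespace Pool.Agent.Lib.MP_e0f470_an.Rob

open Finset Filter
open scoped BigOperators Topology

variable {𝕜 : Type} [RCLike 𝕜]

/-- The common core: if successive normalised vectors satisfy an upper Euclidean estimate, then
functionals have small tails. -/
lemma shr_core (F : Frame 𝕜) (φ : F.D →ₗ[𝕜] 𝕜) (hφ : ∀ x, ‖φ x‖ ≤ F.nrm x) (δ : ℝ)
    (hδ : 0 < δ) (E : ℕ → Set Bk) (hE : Monotone E)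
    (hex : ∀ A : Finset Bk, ∃ n, ∀ β ∈ A, β ∈ E n) (P : Set Bk) (K : ℝ)
    (hK : ∀ (r : ℕ) (x : Fin r → F.D), (∀ j, ∀ β ∈ P, x j β = 0) → (∀ j, F.nrm (x j) ≤ 1) →
      (∀ j j', j < j' → ∃ n, (∀ β, x j β ≠ 0 → β ∈ E n) ∧ ∀ β ∈ E n, x j' β = 0) →
      F.nrm (∑ j, x j) ≤ K * √r) :
    ∃ n : ℕ, ∀ v : F.D, (∀ β ∈ P, v β = 0) → (∀ β ∈ E n, v β = 0) → ‖φ v‖ ≤ δ * F.nrm v := by
  by_contra hcon
  push Not at hcon
  have h1 : ∀ n, ∃ w : F.D, (∀ β ∈ P, w β = 0) ∧ (∀ β ∈ E n, w β = 0) ∧ F.nrm w ≤ 1 ∧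
      δ ≤ RCLike.re (φ w) := by
    intro n
    obtain ⟨v, hP, hv, hlt⟩ := hcon n
    have h0 : 0 < ‖φ v‖ := lt_of_le_of_lt (mul_nonneg hδ.le (F.nrm_nonneg v)) hlt
    have hN : 0 < F.nrm v := h0.trans_le (hφ v)
    refine ⟨(((‖φ v‖ * F.nrm v)⁻¹ : ℝ) * (starRingEnd 𝕜) (φ v) : 𝕜) • v, ?_, ?_, ?_, ?_⟩
    · intro β hβ
      simp [hP β hβ]
    · intro β hβ
      simp [hv β hβ]
    · rw [F.nrm_smul, norm_mul, RCLike.norm_conj, RCLike.norm_ofReal, abs_of_pos (by positivity)]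
      apply le_of_eq
      field_simp
    · rw [map_smul, smul_eq_mul, mul_assoc, RCLike.conj_mul, ← RCLike.ofReal_pow,
        ← RCLike.ofReal_mul, RCLike.ofReal_re]
      rw [show (‖φ v‖ * F.nrm v)⁻¹ * ‖φ v‖ ^ 2 = ‖φ v‖ / F.nrm v by field_simp]
      rw [le_div_iff₀ hN]
      exact hlt.le
  choose w hwP hwE hw1 hwδ using h1
  have h2 : ∀ n, ∃ m, n ≤ m ∧ ∀ β, w n β ≠ 0 → β ∈ E m := by
    intro n
    obtain ⟨A, hA⟩ := F.exists_supp (w n)
    obtain ⟨m, hm⟩ := hex A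
    refine ⟨max n m, le_max_left _ _, fun β hβ => hE (le_max_right _ _) (hm β ?_)⟩
    by_contra hn
    exact hβ (hA β hn)
  choose g hg hgE using h2
  let u : ℕ → ℕ := fun k => g^[k] 0
  have hu : ∀ k, u (k + 1) = g (u k) := fun k => Function.iterate_succ_apply' g k 0
  have hum : Monotone u := monotone_nat_of_le_succ fun k => by rw [hu]; exact hg _
  obtain ⟨r, hr⟩ := exists_nat_gt ((K / δ) ^ 2)
  have hr0 : (0 : ℝ) < r := lt_of_le_of_lt (sq_nonneg _) hr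
  have hup := hK r (fun j => w (u j)) (fun j => hwP _) (fun j => hw1 _) (by
    intro j j' hj
    refine ⟨u j', fun β hβ => ?_, hwE _⟩
    have : g (u j) ≤ u j' := by
      rw [← hu]
      exact hum (Nat.succ_le_of_lt hj)
    exact hE this (hgE _ β hβ))
  have hlow : (r : ℝ) * δ ≤ F.nrm (∑ j : Fin r, w (u j)) := by
    calc (r : ℝ) * δ = ∑ _j : Fin r, δ := by simp
      _ ≤ ∑ j : Fin r, RCLike.re (φ (w (u j))) := Finset.sum_le_sum fun j _ => hwδ _
      _ = RCLike.re (φ (∑ j : Fin r, w (u j))) := by rw [map_sum, map_sum]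
      _ ≤ ‖φ (∑ j : Fin r, w (u j))‖ := RCLike.re_le_norm _
      _ ≤ _ := hφ _
  have hs : 0 < √(r : ℝ) := Real.sqrt_pos.2 hr0
  have hss : √(r : ℝ) * √(r : ℝ) = r := Real.mul_self_sqrt hr0.le
  have h3 : √(r : ℝ) * δ ≤ K := by
    have : √(r : ℝ) * (√(r : ℝ) * δ) ≤ √(r : ℝ) * K := by
      rw [← mul_assoc, hss]
      linarith [hlow.trans hup]
    exact le_of_mul_le_mul_left this hs
  have h4 : √(r : ℝ) ≤ K / δ := by rwa [le_div_iff₀ hδ]
  have h5 : (r : ℝ) ≤ (K / δ) ^ 2 := by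
    rw [← hss, sq]
    exact mul_self_le_mul_self hs.le h4
  linarith

lemma shr_sqrt_le {r : ℕ} (a : Fin r → ℝ) (h0 : ∀ j, 0 ≤ a j) (h1 : ∀ j, a j ≤ 1) :
    √(∑ j, a j ^ 2) ≤ √r := by
  refine Real.sqrt_le_sqrt ?_
  calc ∑ j, a j ^ 2 ≤ ∑ _j : Fin r, (1 : ℝ) :=
        Finset.sum_le_sum fun j _ => pow_le_one₀ (h0 j) (h1 j)
    _ = r := by simp

/-- Functionals have small tails in the kinds. Otherwise choose inductively `r` vectors `v s` of
norm at most one, living on successive intervals of kinds, with `φ (v s)` real and larger than `δ`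
(multiply by a unimodular scalar); `nrm_upper` bounds the norm of the sum by `2 √r`. -/
theorem shrink_kinds (F : Frame 𝕜) (φ : F.D →ₗ[𝕜] 𝕜) (hφ : ∀ x, ‖φ x‖ ≤ F.nrm x) (δ : ℝ)
    (hδ : 0 < δ) : ∃ I : ℕ, ∀ v : F.D, (∀ β, β.1 < I → v β = 0) → ‖φ v‖ ≤ δ * F.nrm v := by
  obtain ⟨I, hI⟩ := shr_core F φ hφ δ hδ (fun n => {β | β.1 < n})
    (fun a b hab β hβ => lt_of_lt_of_le hβ hab)
    (fun A => by
      obtain ⟨n, hn⟩ := exists_box A
      exact ⟨n, fun β hβ => (hn β hβ).1⟩) ∅ 2 (by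
      intro r x _ h1 hs
      refine (F.nrm_upper x ?_).trans ?_
      · have aux : ∀ j j', j < j' → ∀ β β', x j β ≠ 0 → x j' β' ≠ 0 → β.1 ≠ β'.1 := by
          intro j j' hj β β' hβ hβ' he
          obtain ⟨n, h2, h3⟩ := hs j j' hj
          have h4 : β.1 < n := h2 β hβ
          exact hβ' (h3 β' (show β'.1 < n from he ▸ h4))
        intro j j' hj β β' hβ hβ'
        rcases lt_or_gt_of_ne hj with h | h
        · exact aux j j' h β β' hβ hβ'
        · exact (aux j' j h β' β hβ' hβ).symm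
      · have := shr_sqrt_le (fun j => F.nrm (x j)) (fun j => F.nrm_nonneg _) h1
        linarith)
  exact ⟨I, fun v hv => hI v (fun β hβ => hβ.elim) fun β hβ => hv β hβ⟩

/-- Functionals have small tails inside finitely many kinds: as before, with disjointly supported
vectors, `nrm_le_sqrt` and `N1_sum_disj`. -/
theorem shrink_box (F : Frame 𝕜) (φ : F.D →ₗ[𝕜] 𝕜) (hφ : ∀ x, ‖φ x‖ ≤ F.nrm x) (δ : ℝ)
    (hδ : 0 < δ) (I : ℕ) : ∃ n : ℕ, ∀ v : F.D, (∀ β, I ≤ β.1 → v β = 0) →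
      (∀ β ∈ box I n, v β = 0) → ‖φ v‖ ≤ δ * F.nrm v := by
  obtain ⟨n, hn⟩ := shr_core F φ hφ δ hδ (fun n => box n n)
    (fun a b hab => box_mono hab hab) exists_box {β | I ≤ β.1}
    (1 + √(∑ i ∈ range I, (F.L i : ℝ))) (by
      intro r x hP h1 hs
      have hd : ∀ j j', j ≠ j' → ∀ β, x j β = 0 ∨ x j' β = 0 := by
        have aux : ∀ j j', j < j' → ∀ β, x j β = 0 ∨ x j' β = 0 := by
          intro j j' hj β
          obtain ⟨n, h2, h3⟩ := hs j j' hj
          by_cases h : x j β = 0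
          · exact Or.inl h
          · exact Or.inr (h3 β (h2 β h))
        intro j j' hj β
        rcases lt_or_gt_of_ne hj with h | h
        · exact aux j j' h β
        · exact (aux j' j h β).symm
      refine (F.nrm_le_sqrt _ (∑ i ∈ range I, (F.L i : ℝ)) ?_).trans ?_
      · intro β hβ
        have hlt : β.1 < I := by
          by_contra hge
          apply hβ
          rw [DFinsupp.finsetSum_apply]
          exact Finset.sum_eq_zero fun j _ => hP j β (not_lt.1 hge)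
        exact Finset.single_le_sum (f := fun i => (F.L i : ℝ)) (fun i _ => Nat.cast_nonneg _)
          (Finset.mem_range.2 hlt)
      · refine mul_le_mul_of_nonneg_left ?_ (by positivity)
        have h5 := shr_sqrt_le (fun j => F.N1 (x j)) (fun j => F.N1_nonneg _)
          fun j => (F.N1_le_nrm _).trans (h1 j)
        rw [← F.N1_sum_disj x hd, Real.sqrt_sq (F.N1_nonneg _)] at h5
        exact h5)
  refine ⟨n, fun v hv hb => hn v (fun β hβ => hv β hβ) fun β hβ => ?_⟩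
  by_cases h : I ≤ β.1
  · exact hv β h
  · exact hb β ⟨not_le.1 h, hβ.2⟩

/-- Combine the two previous results (split `v` with `res`). -/
theorem shrink (F : Frame 𝕜) (φ : F.D →ₗ[𝕜] 𝕜) (hφ : ∀ x, ‖φ x‖ ≤ F.nrm x) (δ : ℝ)
    (hδ : 0 < δ) : ∃ n : ℕ, ∀ v : F.D, (∀ β ∈ box n n, v β = 0) → ‖φ v‖ ≤ δ * F.nrm v := by
  obtain ⟨I, hI⟩ := shrink_kinds F φ hφ (δ / 2) (by positivity)
  obtain ⟨n, hn⟩ := shrink_box F φ hφ (δ / 2) (by positivity) I
  refine ⟨max I n, fun v hv => ?_⟩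
  have h1 := hn (F.res {β | β.1 < I} v)
    (fun β hβ => F.res_apply_of_notMem (show β ∉ {β : Bk | β.1 < I} from not_lt.2 hβ) v) (fun β hβ => by
      rw [F.res_apply_of_mem (show β ∈ {β : Bk | β.1 < I} from hβ.1)]
      exact hv β (box_mono (le_max_left _ _) (le_max_right _ _) hβ))
  have h2 := hI (F.res {β | β.1 < I}ᶜ v)
    (fun β hβ => F.res_apply_of_notMem (show β ∉ {β : Bk | β.1 < I}ᶜ from fun h => h hβ) v)
  have h3 := F.nrm_res_le {β | β.1 < I} v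
  have h4 := F.nrm_res_le {β | β.1 < I}ᶜ v
  calc ‖φ v‖ = ‖φ (F.res {β | β.1 < I} v) + φ (F.res {β | β.1 < I}ᶜ v)‖ := by
        rw [← map_add, F.res_add_res_compl]
    _ ≤ _ := norm_add_le _ _
    _ ≤ δ / 2 * F.nrm v + δ / 2 * F.nrm v :=
        add_le_add (h1.trans (by gcongr)) (h2.trans (by gcongr))
    _ = δ * F.nrm v := by ring

end Pool.Agent.Lib.MP_e0f470_an.Rob
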