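import Pool.Agent.Lib.MP_e0f470_an.RNorm3

/-! The slot estimate and the deterministic part of the incoherence lemma. -/

set_option autoImplicit false

namespace Pool.Agent.Lib.MP_e0f470_an.Rob

open Finset Filter
open scoped BigOperators Topology

variable {𝕜 : Type} [RCLike 𝕜]

namespace Frame

variable (F : Frame 𝕜)

lemma slot_aux_bdd (x : F.D) (k : ℕ) (I : Finset ℕ) :
    BddAbove (Set.range fun S : {S : Finset Bk // F.Chain S ∧ ∀ β ∈ S, β.1 = k ∧ co β 0 ∈ I} =>
      ∑ β ∈ S.1, F.ν β.1 (x β)) :=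
  ⟨F.N2 x, by
    rintro _ ⟨S, rfl⟩
    exact F.chain_sum_le_N2 S.2.1 x⟩

lemma slot_aux_ne (k : ℕ) (I : Finset ℕ) :
    Nonempty {S : Finset Bk // F.Chain S ∧ ∀ β ∈ S, β.1 = k ∧ co β 0 ∈ I} :=
  ⟨⟨∅, F.chain_empty, by simp⟩⟩

lemma slot_aux_exists (x : F.D) (k : ℕ) (I : Finset ℕ) {η : ℝ} (hη : 0 < η) :
    ∃ S : Finset Bk, F.Chain S ∧ (∀ β ∈ S, β.1 = k ∧ co β 0 ∈ I) ∧
      F.slot x k I ≤ ∑ β ∈ S, F.ν β.1 (x β) + η := by
  have := F.slot_aux_ne k I
  have h1 : F.slot x k I - η < F.slot x k I := by linarith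
  obtain ⟨S, hS⟩ := exists_lt_of_lt_ciSup h1
  exact ⟨S.1, S.2.1, S.2.2, by linarith⟩

lemma le_slot (x : F.D) {k : ℕ} {I : Finset ℕ} {S : Finset Bk} (hS : F.Chain S)
    (h : ∀ β ∈ S, β.1 = k ∧ co β 0 ∈ I) : ∑ β ∈ S, F.ν β.1 (x β) ≤ F.slot x k I := by
  exact le_ciSup (F.slot_aux_bdd x k I) ⟨S, hS, h⟩

lemma slot_nonneg (x : F.D) (k : ℕ) (I : Finset ℕ) : 0 ≤ F.slot x k I := by
  simpa using F.le_slot x (k := k) (I := I) F.chain_empty (by simp)

lemma slot_le_N2 (x : F.D) (k : ℕ) (I : Finset ℕ) : F.slot x k I ≤ F.N2 x := by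
  have := F.slot_aux_ne k I
  exact ciSup_le fun S => F.chain_sum_le_N2 S.2.1 x

/-- The slot estimate. Fix an admissible system and `η > 0`. For a pair `(q, j)` let `S' q j` be
the part of `S q` in the support of `x j`. If it is not empty, it has a kind `k < I0` and a set
`I ⊆ range N0` of first coordinates; choose a chain `S'' q j` of kind `k` with first coordinates
in `I` whose sum for `y` is at least `slot y k I - η` (otherwise `S'' q j = ∅`). The chains
`S'' q j` have pairwise different keys (`chain_key`, `chain_kind`, `hdisj`), so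
`val_le_sqrt_mul_N2` with the weights `b q` on pairs gives `√(card Γ) * N2 y`. There are at most
`I0 * N0` nonempty `S' q j`, since the keys of chosen members are different elements of
`range I0 ×ˢ range N0`. -/
lemma N2_slot {Γ : Type} [Fintype Γ] (x z : Γ → F.D) (y : F.D) (I0 N0 : ℕ) (δ : ℝ) (hδ : 0 ≤ δ)
    (hxz : ∀ j β, F.ν β.1 (x j β) ≤ F.ν β.1 (z j β))
    (hsupp : ∀ j β, x j β ≠ 0 → β.1 < I0 ∧ co β 0 < N0)
    (hdisj : ∀ j j', j ≠ j' → ∀ β, x j β = 0 ∨ x j' β = 0)
    (hslot : ∀ j k I, k < I0 → I ⊆ range N0 → F.slot (z j) k I ≤ F.slot y k I + δ) :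
    F.N2 (∑ j, x j) ≤ √(Fintype.card Γ) * F.N2 y + δ * (I0 * N0) := by
  classical
  refine F.N2_le fun m S b hA => ?_
  obtain ⟨hch, hkey, hb0, hb1⟩ := hA
  set S' : Fin m × Γ → Finset Bk := fun p => (S p.1).filter fun β => x p.2 β ≠ 0 with hS'
  have hmem : ∀ p β, β ∈ S' p → β ∈ S p.1 ∧ x p.2 β ≠ 0 := fun p β h => mem_filter.1 h
  have hK : ∀ p p', p ≠ p' → ∀ β ∈ S' p, ∀ β' ∈ S' p', key β ≠ key β' := by
    rintro ⟨q, j⟩ ⟨q', j'⟩ hne β hβ β' hβ'
    obtain ⟨h1, h2⟩ := hmem _ _ hβ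
    obtain ⟨h1', h2'⟩ := hmem _ _ hβ'
    by_cases hq : q = q'
    · subst hq
      have hj : j ≠ j' := fun h => hne (by rw [h])
      have hbb : β ≠ β' := by
        rintro rfl
        rcases hdisj j j' hj β with h | h
        · exact h2 h
        · exact h2' h
      intro hk
      exact F.chain_key (hch q) h1 h1' hbb (congrArg Prod.snd hk)
    · exact hkey q q' hq β h1 β' h1'
  -- the number of nonempty parts
  have hcard : ((univ.filter fun p => (S' p).Nonempty).card : ℝ) ≤ I0 * N0 := by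
    have hf : ∀ p, ∃ β : Bk, (S' p).Nonempty → β ∈ S' p := by
      intro p
      by_cases hp : (S' p).Nonempty
      · exact ⟨hp.choose, fun _ => hp.choose_spec⟩
      · exact ⟨⟨0, fun _ => 0⟩, fun h => absurd h hp⟩
    choose f hf using hf
    have h1 : (univ.filter fun p => (S' p).Nonempty).card ≤ (range I0 ×ˢ range N0).card := by
      refine card_le_card_of_injOn (fun p => key (f p)) ?_ ?_
      · intro p hp
        have hp' := hf p (mem_filter.1 (mem_coe.1 hp)).2
        have := hsupp _ _ (hmem _ _ hp').2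
        simp only [coe_product, coe_range, Set.mem_prod, Set.mem_Iio, key]
        exact this
      · intro p hp p' hp' hk
        by_contra hne
        exact hK p p' hne _ (hf p (mem_filter.1 (mem_coe.1 hp)).2) _
          (hf p' (mem_filter.1 (mem_coe.1 hp')).2) hk
    rw [card_product, card_range, card_range] at h1
    exact_mod_cast h1
  have hble : ∀ q, b q ≤ 1 := by
    intro q
    have h1 : b q ^ 2 ≤ 1 :=
      (single_le_sum (f := fun q => b q ^ 2) (fun q _ => sq_nonneg _) (mem_univ q)).trans hb1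
    nlinarith [hb0 q]
  -- splitting the value
  have hsplit : ∀ q, ∑ β ∈ S q, F.ν β.1 ((∑ j, x j) β) ≤
      ∑ j, ∑ β ∈ S' (q, j), F.ν β.1 (z j β) := by
    intro q
    calc ∑ β ∈ S q, F.ν β.1 ((∑ j, x j) β) ≤ ∑ β ∈ S q, ∑ j, F.ν β.1 (x j β) := by
          refine sum_le_sum fun β _ => ?_
          rw [DFinsupp.finsetSum_apply]
          exact seminorm_sum_le _ _ _
      _ = ∑ j, ∑ β ∈ S q, F.ν β.1 (x j β) := sum_comm
      _ = ∑ j, ∑ β ∈ S' (q, j), F.ν β.1 (x j β) := by
          refine sum_congr rfl fun j _ => ?_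
          refine (sum_subset (s₁ := S' (q, j)) (filter_subset _ _) fun β hβ hβ' => ?_).symm
          have h0' : x j β = 0 := by
            by_contra h0
            exact hβ' (mem_filter.2 ⟨hβ, h0⟩)
          rw [h0', map_zero]
      _ ≤ _ := sum_le_sum fun j _ => sum_le_sum fun β _ => hxz j β
  have main : ∀ η : ℝ, 0 < η →
      F.val S b (∑ j, x j) ≤ √(Fintype.card Γ) * F.N2 y + (δ + η) * (I0 * N0) := by
    intro η hη
    have hex : ∀ p : Fin m × Γ, ∃ S'' : Finset Bk, F.Chain S'' ∧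
        (∀ β ∈ S'', ∃ β0 ∈ S' p, key β = key β0) ∧
        ∑ β ∈ S' p, F.ν β.1 (z p.2 β) ≤
          ∑ β ∈ S'', F.ν β.1 (y β) + if (S' p).Nonempty then δ + η else 0 := by
      intro p
      by_cases hp : (S' p).Nonempty
      · obtain ⟨β1, hβ1⟩ := id hp
        have hk : β1.1 < I0 := (hsupp _ _ (hmem _ _ hβ1).2).1
        have hI : (S' p).image (fun β => co β 0) ⊆ range N0 := by
          intro n hn
          obtain ⟨β, hβ, rfl⟩ := mem_image.1 hn
          exact mem_range.2 (hsupp _ _ (hmem _ _ hβ).2).2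
        have hkind : ∀ β ∈ S' p, β.1 = β1.1 := fun β hβ =>
          F.chain_kind (hch p.1) (hmem _ _ hβ).1 (hmem _ _ hβ1).1
        have h1 := F.le_slot (z p.2) (k := β1.1) (I := (S' p).image fun β => co β 0) (S := S' p)
          (F.chain_mono (hch p.1) (filter_subset _ _))
          fun β hβ => ⟨hkind β hβ, mem_image_of_mem _ hβ⟩
        have h2 := hslot p.2 _ _ hk hI
        obtain ⟨S'', c1, c2, c3⟩ := F.slot_aux_exists y β1.1 ((S' p).image fun β => co β 0) hη
        refine ⟨S'', c1, fun β hβ => ?_, ?_⟩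
        · obtain ⟨β0, hβ0, he⟩ := mem_image.1 (c2 β hβ).2
          refine ⟨β0, hβ0, ?_⟩
          simp only [key]
          rw [he, (c2 β hβ).1, hkind β0 hβ0]
        · rw [if_pos hp]
          linarith
      · refine ⟨∅, F.chain_empty, by simp, ?_⟩
        rw [if_neg hp, not_nonempty_iff_eq_empty.1 hp]
        simp
    choose S'' c1 c2 c3 using hex
    have hv := F.val_le_sqrt_mul_N2 (S := S'') (b := fun p : Fin m × Γ => b p.1) c1
      (fun p p' hne β hβ β' hβ' => by
        obtain ⟨β0, h0, e0⟩ := c2 p β hβ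
        obtain ⟨β0', h0', e0'⟩ := c2 p' β' hβ'
        rw [e0, e0']
        exact hK p p' hne _ h0 _ h0') (fun p => hb0 p.1) y
    have hsq : ∑ p : Fin m × Γ, b p.1 ^ 2 ≤ Fintype.card Γ := by
      rw [Fintype.sum_prod_type]
      simp only [sum_const, card_univ, nsmul_eq_mul]
      rw [← mul_sum]
      exact mul_le_of_le_one_right (Nat.cast_nonneg _) hb1
    have hv2 : F.val S'' (fun p : Fin m × Γ => b p.1) y ≤ √(Fintype.card Γ) * F.N2 y :=
      hv.trans (mul_le_mul_of_nonneg_right (Real.sqrt_le_sqrt hsq) (F.N2_nonneg y))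
    have hδη : 0 ≤ δ + η := by linarith
    have he : ∑ p : Fin m × Γ, b p.1 * (if (S' p).Nonempty then δ + η else 0) ≤
        (δ + η) * (I0 * N0) := by
      calc ∑ p : Fin m × Γ, b p.1 * (if (S' p).Nonempty then δ + η else 0)
          ≤ ∑ p : Fin m × Γ, (if (S' p).Nonempty then δ + η else 0) := by
            refine sum_le_sum fun p _ => mul_le_of_le_one_left ?_ (hble _)
            split_ifs
            · exact hδη
            · exact le_rfl
        _ = (δ + η) * ((univ.filter fun p => (S' p).Nonempty).card : ℝ) := by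
            rw [← sum_filter, sum_const, nsmul_eq_mul, mul_comm]
        _ ≤ _ := mul_le_mul_of_nonneg_left hcard hδη
    calc F.val S b (∑ j, x j) ≤ ∑ q, b q * ∑ j, ∑ β ∈ S' (q, j), F.ν β.1 (z j β) :=
          sum_le_sum fun q _ => mul_le_mul_of_nonneg_left (hsplit q) (hb0 q)
      _ = ∑ p : Fin m × Γ, b p.1 * ∑ β ∈ S' p, F.ν β.1 (z p.2 β) := by
          rw [Fintype.sum_prod_type]
          exact sum_congr rfl fun q _ => mul_sum _ _ _
      _ ≤ ∑ p : Fin m × Γ, b p.1 * (∑ β ∈ S'' p, F.ν β.1 (y β) +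
            if (S' p).Nonempty then δ + η else 0) :=
          sum_le_sum fun p _ => mul_le_mul_of_nonneg_left (c3 p) (hb0 _)
      _ = F.val S'' (fun p : Fin m × Γ => b p.1) y +
            ∑ p : Fin m × Γ, b p.1 * (if (S' p).Nonempty then δ + η else 0) := by
          simp only [val, mul_add, sum_add_distrib]
      _ ≤ _ := add_le_add hv2 he
  refine le_of_forall_pos_le_add fun ε hε => ?_
  have hc : (0 : ℝ) ≤ I0 * N0 := by positivity
  have h1 := main (ε / (I0 * N0 + 1)) (by positivity)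
  have h2 : ε / (I0 * N0 + 1) * (I0 * N0) ≤ ε := by
    rw [div_mul_eq_mul_div, div_le_iff₀ (by positivity)]
    nlinarith
  linarith

end Frame

/-- Two interlacing blocks of kind larger than `i` cannot have all their coordinates in the
territories of two different groups. The values `o (co β ρ)` for `ρ = 0, …, i + 1` have second
component `j`, and `o (co β' ρ)` (second component `j'`) lies between two consecutive ones, so the
first components are strictly increasing: `i + 2` different elements of `Fin (i + 1)`. -/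
lemma not_prec_of_terr {Γ : Type} [LinearOrder Γ] {i : ℕ} (o : ℕ → Fin (i + 1) ×ₗ Γ)
    (ho : Monotone o) {j j' : Γ} (hj : j ≠ j') {β β' : Bk} (hi : i < β.1)
    (h : ∀ ρ, ρ ≤ β.1 → (ofLex (o (co β ρ))).2 = j)
    (h' : ∀ ρ, ρ ≤ β'.1 → (ofLex (o (co β' ρ))).2 = j') : ¬ Prec β β' := by
  rintro ⟨hk, h1, h2⟩
  have step : ∀ ρ, ρ < β.1 → (ofLex (o (co β ρ))).1 < (ofLex (o (co β (ρ + 1)))).1 := by
    intro ρ hρ
    have a1 : o (co β ρ) ≤ o (co β' ρ) := ho (h1 ρ hρ.le).le
    have a2 : o (co β' ρ) ≤ o (co β (ρ + 1)) := ho (h2 ρ hρ).le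
    have b0 := h ρ hρ.le
    have b1 := h' ρ (hk ▸ hρ.le)
    have b2 := h (ρ + 1) hρ
    rw [Prod.Lex.le_iff] at a1 a2
    rcases a1 with a1 | ⟨a1, a1'⟩
    · rcases a2 with a2 | ⟨a2, _⟩
      · exact a1.trans a2
      · exact a1.trans_eq a2
    · rcases a2 with a2 | ⟨a2, a2'⟩
      · exact a1.trans_lt a2
      · rw [b0, b1] at a1'
        rw [b1, b2] at a2'
        exact absurd (le_antisymm a1' a2') hj
  have grow : ∀ ρ, ρ ≤ β.1 → ρ ≤ ((ofLex (o (co β ρ))).1 : ℕ) := by
    intro ρ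
    induction ρ with
    | zero => exact fun _ => Nat.zero_le _
    | succ n ih =>
      intro hn
      have c1 := ih (by omega)
      have c2 : ((ofLex (o (co β n))).1 : ℕ) < (ofLex (o (co β (n + 1)))).1 := step n hn
      omega
  have c := grow (i + 1) hi
  have := (ofLex (o (co β (i + 1)))).1.2
  omega

end Pool.Agent.Lib.MP_e0f470_an.Rob
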