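import Pool.Agent.Lib.MP_e0f470_an.RDual

/-! The witnesses used in the collapse. -/

set_option autoImplicit false

namespace Pool.Agent.Lib.MP_e0f470_an.Rob

open Finset Filter
open scoped BigOperators Topology

variable {𝕜 : Type} [RCLike 𝕜]

/-- The form of the witnesses used in the collapse. If `Λ⁻¹ • a` is not factored, apply
`dual_alt` to it with `ρ = 2` and multiply the witnesses by `Λ`. With `P` from `exists_projMat`
put `η' j = ∑ j', P j' j • η j'` (in the span, of norm at most two, with `∑ j, η' j j = 1`), expand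
it with `Nice`, and let `κ j' j = (if j = j' then 1 else 0) - P j' j`. -/
theorem exists_witness {V J X : Type} [AddCommGroup V] [Module 𝕜 V] [Fintype J] [DecidableEq J]
    [Fintype X] (x : X → J → 𝕜) (hN : Nice x) :
    ∃ κ : J → J → 𝕜, (∀ j' j, ‖κ j' j‖ ≤ 2) ∧ (∀ j' i, ∑ j, κ j' j * x i j = 0) ∧
      ∀ (p : Seminorm 𝕜 V) (a : (J → 𝕜) →ₗ[𝕜] V) (Λ : ℝ), 0 < Λ → (∀ i, p (a (x i)) ≤ Λ) →
        ¬ Fac x p ((((Λ⁻¹ : ℝ) : 𝕜)) • a) →
        ∃ (w : J → V) (l : J → X → 𝕜), ∑ j, p (w j) ≤ Λ / 2 ∧ (∀ j, ∑ i, ‖l j i‖ ≤ 12) ∧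
          ∑ j, ∑ i, l j i * x i j = 1 ∧
          ∀ j, w j = ∑ i, l j i • a (x i) + ∑ j', κ j' j • w j' := by
  obtain ⟨P, hPG, hPid, hP1⟩ := exists_projMat (Submodule.span 𝕜 (Set.range x))
  refine ⟨fun j' j => (if j = j' then 1 else 0) - P j' j, fun j' j => ?_, fun j' i => ?_, ?_⟩
  · refine (norm_sub_le _ _).trans ?_
    have h1 : ‖(if j = j' then (1 : 𝕜) else 0)‖ ≤ 1 := by split_ifs <;> simp
    linarith [hP1 j' j]
  · have := hPid (x i) (Submodule.subset_span ⟨i, rfl⟩) j'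
    simp [sub_mul, Finset.sum_sub_distrib, this]
  intro p a Λ hΛ ha hF
  have hΛ' : ((Λ : ℝ) : 𝕜) ≠ 0 := by exact_mod_cast hΛ.ne'
  rcases dual_alt p (Submodule.span 𝕜 (Set.range x)) ((((Λ⁻¹ : ℝ) : 𝕜)) • a) 2 two_pos with
    hb | ⟨w, η, hηG, hid, htr, hw, hη⟩
  · refine absurd ⟨fun i => ?_, hb⟩ hF
    rw [LinearMap.smul_apply, map_smul_eq_mul, RCLike.norm_ofReal, abs_of_pos (inv_pos.2 hΛ),
      inv_mul_le_iff₀ hΛ, mul_one]
    exact ha i
  have hG : ∀ j, (∑ j', P j' j • η j') ∈ Submodule.span 𝕜 (Set.range x) := fun j =>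
    Submodule.sum_mem _ fun j' _ => Submodule.smul_mem _ _ (hηG j')
  choose l hl hl' using fun j => hN _ (hG j)
  refine ⟨fun j => ((Λ : ℝ) : 𝕜) • w j, l, ?_, fun j => ?_, ?_, fun j => ?_⟩
  · simp only [map_smul_eq_mul, RCLike.norm_ofReal, abs_of_pos hΛ, ← Finset.mul_sum]
    nlinarith
  · refine (hl' j).trans ?_
    have h1 : ‖∑ j', P j' j • η j'‖ ≤ ∑ j', ‖η j'‖ :=
      (norm_sum_le _ _).trans (Finset.sum_le_sum fun j' _ => by
        rw [norm_smul]
        exact mul_le_of_le_one_left (norm_nonneg _) (hP1 j' j))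
    linarith
  · have h1 : ∀ j, ∑ i, l j i * x i j = ∑ j', P j' j * η j' j := fun j => by
      have := congrFun (hl j) j
      simpa [Finset.sum_apply] using this.symm
    simp only [h1]
    rw [Finset.sum_comm, ← htr]
    exact Finset.sum_congr rfl fun j' _ => hPid (η j') (hηG j') j'
  · have h1 := hid _ (hPG j)
    have h2 : ∑ i, l j i • a (x i) = ∑ j', P j' j • ((Λ : ℝ) : 𝕜) • w j' := by
      simp only [← map_smul, ← map_sum, ← hl j, smul_comm _ ((Λ : ℝ) : 𝕜), ← Finset.smul_sum]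
      rw [h1, LinearMap.smul_apply, smul_smul, RCLike.ofReal_inv, mul_inv_cancel₀ hΛ', one_smul]
    rw [h2]
    simp [sub_smul, Finset.sum_sub_distrib]

end Pool.Agent.Lib.MP_e0f470_an.Rob
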