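import Pool.Agent.Lib.MP_e0f470_an.RTen
import Pool.Agent.Lib.MP_e0f470_an.RNorm
import Pool.Agent.Lib.MP_e0f470_an.RWit

/-! One step of the collapse. -/

set_option autoImplicit false

namespace Pool.Agent.Lib.MP_e0f470_an.Rob

open Finset Filter
open scoped BigOperators Topology

variable {𝕜 : Type} [RCLike 𝕜]

variable {J X Ω Φ : Type} [Fintype J] [Fintype X] [Fintype Ω] [Fintype Φ] [DecidableEq J]
  [DecidableEq Φ] {T : ℕ} {x : X → J → 𝕜} {W : Φ → Φ → ℝ} {ξ : Fin T × Ω → Φ → Bool × J} {ε : ℝ}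

omit [DecidableEq J] in
lemma step_aux {V : Type} [AddCommGroup V] [Module 𝕜 V] (s : 𝕜) (a : V) (k : J → 𝕜)
    (w : J → V) : s • (a + ∑ j, k j • w j) = s • a + ∑ j, (s * k j) • w j := by
  rw [smul_add, Finset.smul_sum]
  simp only [smul_smul]

/-- For each `τ` apply `exists_witness` to `a τ = 𝒥 ∘ ten γ t ∘ row (ξ (t, τ))`
(`gen_update_own`), which gives `w τ` and `l τ`. Let `n = card J`, and for `c` let
`A c = av fun τ => (n * sk (ξ (t, τ) c).1) • w τ (ξ (t, τ) c).2`. By the last property of the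
witnesses `A c = 𝒥 (gen (update γ t (del c))) + 𝒥 (y c) + B c`, where `y c` is `12` times the
vector in `Rig.lin` for `l / 12` and
`B c = ∑ j', n • av fun τ => (sk * κ j' (ξ (t, τ) c).2) • w τ j'`. Put
`Z c = res {β | β.1 ≤ i}ᶜ (B c)`. Then `𝒥 (gen …) + Z c = A c - 𝒥 (y c) - res {β | β.1 ≤ i} (B c)`.
Here `p (A c) ≤ ra fun τ => n * p (w τ (ξ (t, τ) c).2)`, which is the average of
`∑ j, p (w τ j) ≤ Λ τ / 2` up to `∑ j, |ra fun τ => ((if _ = j then n else 0) - 1) * p (w τ j)|`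
(`Rig.freq`, with `p (w τ j) ≤ 3 / 2`). The other two terms are bounded by `Rig.lin` and `Cap`
(with `nrm (w τ j') ≤ 3 * M / 2`). -/
theorem step [Nonempty J] [Nonempty Ω] (F : Frame 𝕜) (i : ℕ) (hN : Nice x) (hR : Rig x W ξ ε)
    (hC : Cap F i x ξ ε) (hε : 0 ≤ ε) (p : Seminorm 𝕜 F.D) (M : ℝ) (hp : F.Ren p M)
    (𝒥 : ((Fin T → Φ) → 𝕜) →ₗ[𝕜] F.D) (h𝒥 : ∀ u, F.nrm (𝒥 u) ≤ 2 * bn x W ξ u)
    (h𝒥s : ∀ u β, β.1 ≠ i → 𝒥 u β = 0)
    (H : ∀ a : (J → 𝕜) →ₗ[𝕜] F.D, (∀ y β, β.1 ≠ i → a y β = 0) → ¬ Fac x p a) (t : Fin T)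
    (γ : Fin T → Lab X Ω Φ) (Λ : Ω → ℝ) (hΛ0 : ∀ τ, 0 < Λ τ) (hΛ3 : ∀ τ, Λ τ ≤ 3)
    (hΛ : ∀ τ i', p (𝒥 (gen x W ξ (Function.update γ t (own τ i')))) ≤ Λ τ) :
    ∃ (Z : Φ → F.D) (dev : Φ → ℝ), (∀ c β, β.1 ≤ i → Z c β = 0) ∧
      (∀ c, F.nrm (Z c) ≤ 3 * Fintype.card J * M) ∧ (∀ c, 0 ≤ dev c) ∧
      ra dev ≤ 30 * (Fintype.card J : ℝ) ^ 2 * M * ε ∧
      ∀ c, p (𝒥 (gen x W ξ (Function.update γ t (del c))) + Z c) ≤ ra Λ / 2 + dev c := by
  obtain ⟨κ, hκ2, hκ0, hw⟩ := exists_witness (V := F.D) x hN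
  obtain ⟨hM, hp1, hp2⟩ := hp
  have hn1 : (1 : ℝ) ≤ Fintype.card J := by exact_mod_cast Fintype.card_pos
  have key : ∀ τ, ∃ (w : J → F.D) (l : J → X → 𝕜), ∑ j, p (w j) ≤ Λ τ / 2 ∧
      (∀ j, ∑ i, ‖l j i‖ ≤ 12) ∧ ∑ j, ∑ i, l j i * x i j = 1 ∧
      ∀ j, w j = ∑ i', l j i' • 𝒥 (gen x W ξ (Function.update γ t (own τ i'))) +
        ∑ j', κ j' j • w j' := by
    intro τ
    have h1 : ∀ i', (𝒥 ∘ₗ ten x W ξ γ t ∘ₗ row (ξ (t, τ))) (x i') =
        𝒥 (gen x W ξ (Function.update γ t (own τ i'))) := fun i' => by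
      rw [gen_update_own]; rfl
    have h2 := hw p (𝒥 ∘ₗ ten x W ξ γ t ∘ₗ row (ξ (t, τ))) (Λ τ) (hΛ0 τ)
      (fun i' => by rw [h1]; exact hΛ τ i')
      (H _ fun y β hβ => by
        rw [LinearMap.smul_apply, DFinsupp.smul_apply, LinearMap.comp_apply, h𝒥s _ β hβ,
          smul_zero])
    simpa only [h1] using h2
  choose w l hw1 hl1 hl2 hw2 using key
  have hw3 : ∀ τ, ∑ j, p (w τ j) ≤ 3 / 2 := fun τ => by linarith [hw1 τ, hΛ3 τ]
  have hw4 : ∀ τ j, p (w τ j) ≤ 3 / 2 := fun τ j =>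
    (Finset.single_le_sum (f := fun j => p (w τ j)) (fun j _ => apply_nonneg p _)
      (Finset.mem_univ j)).trans (hw3 τ)
  have hM0 : 0 < M := by linarith
  -- the three error terms
  let l' : Ω → J → X → 𝕜 := fun τ j i' => (12 : 𝕜)⁻¹ * l τ j i'
  have h12 : ‖(12 : 𝕜)‖ = 12 := by simp
  have hl' : ∀ τ j, ∑ i', ‖l' τ j i'‖ ≤ 1 := fun τ j => by
    simp only [l', norm_mul, norm_inv, h12, ← Finset.mul_sum]
    linarith [hl1 τ j]
  let u : Φ → (Fin T → Φ) → 𝕜 := fun c =>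
    (av 𝕜 fun τ => ((Fintype.card J : 𝕜) * sk 𝕜 (ξ (t, τ) c).1) •
        ∑ i', l' τ (ξ (t, τ) c).2 i' • gen x W ξ (Function.update γ t (own τ i'))) -
      (av 𝕜 fun τ => ∑ j, ∑ i', l' τ j i' * x i' j) • gen x W ξ (Function.update γ t (del c))
  have hu : (ra fun c => bn x W ξ (u c)) ≤ ε := hR.lin t γ l' hl'
  let v : J → Ω → ℝ := fun j τ => 2 / 3 * p (w τ j)
  let e1 : J → Φ → ℝ := fun j c => |ra fun τ =>
    ((if (ξ (t, τ) c).2 = j then (Fintype.card J : ℝ) else 0) - 1) * v j τ|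
  have he1 : ∀ j, ra (e1 j) ≤ ε := fun j => hR.freq t j (v j) fun τ => by
    have := apply_nonneg p (w τ j)
    have := hw4 τ j
    rw [abs_le]
    constructor <;> simp only [v] <;> linarith
  let w' : J → Ω → F.D := fun j τ => (((3 * M / 2)⁻¹ : ℝ) : 𝕜) • w τ j
  let E : J → Φ → F.D := fun j' c =>
    av 𝕜 fun τ => (sk 𝕜 (ξ (t, τ) c).1 * κ j' (ξ (t, τ) c).2) • w' j' τ
  have hE : ∀ j', (ra fun c => F.nrm (F.res {β | β.1 ≤ i} (E j' c))) ≤ ε := fun j' =>
    hC t (κ j') (hκ2 j') (hκ0 j') (w' j') fun τ => by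
      have h0 : 0 < 3 * M / 2 := by positivity
      simp only [w']
      rw [F.nrm_smul, RCLike.norm_ofReal, abs_of_pos (inv_pos.2 h0), inv_mul_le_iff₀ h0]
      have := mul_le_mul_of_nonneg_left (hw4 τ j') hM0.le
      linarith [hp2 (w τ j')]
  let B : Φ → F.D := fun c => av 𝕜 fun τ => ∑ j',
    ((Fintype.card J : 𝕜) * sk 𝕜 (ξ (t, τ) c).1 * κ j' (ξ (t, τ) c).2) • w τ j'
  have hB : ∀ c, B c = ∑ j', ((Fintype.card J * (3 * M / 2) : ℝ) : 𝕜) • E j' c := fun c => by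
    simp only [B, E, w']
    rw [av_sum]
    refine Finset.sum_congr rfl fun j' _ => ?_
    rw [← av_smul]
    congr 1
    funext τ
    rw [smul_smul, smul_smul]
    congr 1
    have : (M : 𝕜) ≠ 0 := by exact_mod_cast hM0.ne'
    push_cast
    field_simp
  let A : Φ → F.D := fun c => av 𝕜 fun τ =>
    ((Fintype.card J : 𝕜) * sk 𝕜 (ξ (t, τ) c).1) • w τ (ξ (t, τ) c).2
  have hA : ∀ c, A c = 𝒥 (gen x W ξ (Function.update γ t (del c))) + (12 : 𝕜) • 𝒥 (u c) +
      B c := fun c => by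
    have h1 : (av 𝕜 fun τ => ∑ j, ∑ i', l' τ j i' * x i' j) = (12 : 𝕜)⁻¹ := by
      have : (fun τ => ∑ j, ∑ i', l' τ j i' * x i' j) = fun _ : Ω => (12 : 𝕜)⁻¹ := by
        funext τ
        simp only [l', mul_assoc, ← Finset.mul_sum, hl2 τ, mul_one]
      rw [this, av_const]
    have h2 : (12 : 𝕜) • 𝒥 (u c) = (av 𝕜 fun τ => ((Fintype.card J : 𝕜) * sk 𝕜 (ξ (t, τ) c).1) •
        ∑ i', l τ (ξ (t, τ) c).2 i' • 𝒥 (gen x W ξ (Function.update γ t (own τ i')))) -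
        𝒥 (gen x W ξ (Function.update γ t (del c))) := by
      simp only [u]
      rw [h1, map_sub, smul_sub, map_smul, smul_smul, mul_inv_cancel₀ (by norm_num), one_smul,
        map_av, ← av_smul]
      congr 2
      funext τ
      rw [map_smul, smul_comm, map_sum, Finset.smul_sum]
      congr 1
      refine Finset.sum_congr rfl fun i' _ => ?_
      rw [map_smul, smul_smul]
      simp only [l']
      rw [← mul_assoc, mul_inv_cancel₀ (by norm_num), one_mul]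
    rw [h2, add_sub_cancel]
    simp only [A, B]
    rw [← av_add]
    congr 1
    funext τ
    rw [hw2 τ (ξ (t, τ) c).2]
    exact step_aux _ _ _ _
  refine ⟨fun c => F.res {β | β.1 ≤ i}ᶜ (B c), fun c => ∑ j, 3 / 2 * e1 j c +
    24 * bn x W ξ (u c) + ∑ j', Fintype.card J * (3 * M / 2) *
      F.nrm (F.res {β | β.1 ≤ i} (E j' c)), ?_, ?_, ?_, ?_, ?_⟩
  · intro c β hβ
    exact F.res_apply_of_notMem (show β ∉ {β : Bk | β.1 ≤ i}ᶜ from fun h => h hβ) _
  · intro c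
    refine (F.nrm_res_le _ _).trans ((F.nrm_av_le _).trans (ra_le_of_le' fun τ => ?_))
    refine (F.nrm_sum_le _ _).trans ?_
    have h1 : ∀ j' ∈ (univ : Finset J), F.nrm (((Fintype.card J : 𝕜) * sk 𝕜 (ξ (t, τ) c).1 *
        κ j' (ξ (t, τ) c).2) • w τ j') ≤ 2 * Fintype.card J * M * p (w τ j') := fun j' _ => by
      rw [F.nrm_smul, norm_mul, norm_mul, norm_sk, RCLike.norm_natCast, mul_one]
      calc (Fintype.card J : ℝ) * ‖κ j' (ξ (t, τ) c).2‖ * F.nrm (w τ j')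
          ≤ (Fintype.card J : ℝ) * 2 * (M * p (w τ j')) := by
            gcongr
            · exact F.nrm_nonneg _
            · exact hκ2 _ _
            · exact hp2 _
        _ = _ := by ring
    refine (Finset.sum_le_sum h1).trans ?_
    rw [← Finset.mul_sum]
    have h2 : 0 ≤ 2 * (Fintype.card J : ℝ) * M := by positivity
    have := mul_le_mul_of_nonneg_left (hw3 τ) h2
    linarith
  · intro c
    have := bn_nonneg x W ξ (u c)
    have h1 : 0 ≤ ∑ j, 3 / 2 * e1 j c := Finset.sum_nonneg fun j _ => by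
      simp only [e1]
      positivity
    have h2 : 0 ≤ ∑ j', Fintype.card J * (3 * M / 2) *
        F.nrm (F.res {β | β.1 ≤ i} (E j' c)) := Finset.sum_nonneg fun j' _ =>
      mul_nonneg (by positivity) (F.nrm_nonneg _)
    positivity
  · rw [ra_add, ra_add, ra_sum, ra_sum, ra_const_mul]
    have h1 : ∑ j, (ra fun c => 3 / 2 * e1 j c) ≤ Fintype.card J * (3 / 2 * ε) := by
      refine (Finset.sum_le_sum (g := fun _ => 3 / 2 * ε) fun j _ => ?_).trans ?_
      · rw [ra_const_mul]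
        linarith [he1 j]
      · simp [Finset.card_univ]
    have h2 : ∑ j', (ra fun c => Fintype.card J * (3 * M / 2) *
        F.nrm (F.res {β | β.1 ≤ i} (E j' c))) ≤
        Fintype.card J * (Fintype.card J * (3 * M / 2) * ε) := by
      refine (Finset.sum_le_sum (g := fun _ => Fintype.card J * (3 * M / 2) * ε)
        fun j _ => ?_).trans ?_
      · rw [ra_const_mul]
        exact mul_le_mul_of_nonneg_left (hE j) (by positivity)
      · simp [Finset.card_univ]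
    have h3 : (Fintype.card J : ℝ) * ε ≤ (Fintype.card J : ℝ) ^ 2 * M * ε := by
      refine mul_le_mul_of_nonneg_right ?_ hε
      nlinarith [mul_le_mul hn1 hM zero_le_one (by linarith)]
    have h4 : ε ≤ (Fintype.card J : ℝ) * ε := le_mul_of_one_le_left hε hn1
    nlinarith
  · intro c
    have h0 : 𝒥 (gen x W ξ (Function.update γ t (del c))) + F.res {β | β.1 ≤ i}ᶜ (B c) =
        A c - (12 : 𝕜) • 𝒥 (u c) - F.res {β | β.1 ≤ i} (B c) := by
      have := F.res_add_res_compl {β | β.1 ≤ i} (B c)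
      rw [hA c]
      rw [eq_sub_iff_add_eq, add_assoc, add_comm (F.res _ (B c)), this]
      abel
    have h1 : p (A c) ≤ ra Λ / 2 + ∑ j, 3 / 2 * e1 j c := by
      refine (seminorm_av_le p _).trans ?_
      have e : (fun τ => p (((Fintype.card J : 𝕜) * sk 𝕜 (ξ (t, τ) c).1) • w τ (ξ (t, τ) c).2)) =
          fun τ => ∑ j, p (w τ j) + ∑ j, 3 / 2 *
            (((if (ξ (t, τ) c).2 = j then (Fintype.card J : ℝ) else 0) - 1) * v j τ) := by
        funext τ
        rw [map_smul_eq_mul, norm_mul, norm_sk, RCLike.norm_natCast, mul_one,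
          ← Finset.sum_add_distrib]
        have : ∀ j, p (w τ j) + 3 / 2 *
            (((if (ξ (t, τ) c).2 = j then (Fintype.card J : ℝ) else 0) - 1) * v j τ) =
            if (ξ (t, τ) c).2 = j then (Fintype.card J : ℝ) * p (w τ j) else 0 := fun j => by
          simp only [v]
          split_ifs <;> ring
        simp only [this, Finset.sum_ite_eq, Finset.mem_univ, if_true]
      rw [e, ra_add, ra_sum]
      refine add_le_add ?_ ?_
      · rw [← ra_sum, ← ra_div_const]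
        exact ra_mono hw1
      · rw [ra_sum]
        refine Finset.sum_le_sum fun j _ => ?_
        rw [ra_const_mul]
        exact mul_le_mul_of_nonneg_left (le_abs_self _) (by norm_num)
    have h2 : p ((12 : 𝕜) • 𝒥 (u c)) ≤ 24 * bn x W ξ (u c) := by
      rw [map_smul_eq_mul, h12]
      linarith [hp1 (𝒥 (u c)), h𝒥 (u c)]
    have h3 : p (F.res {β | β.1 ≤ i} (B c)) ≤ ∑ j', Fintype.card J * (3 * M / 2) *
        F.nrm (F.res {β | β.1 ≤ i} (E j' c)) := by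
      refine (hp1 _).trans ?_
      rw [hB, map_sum]
      refine (F.nrm_sum_le _ _).trans (Finset.sum_le_sum fun j' _ => ?_)
      rw [map_smul, F.nrm_smul, RCLike.norm_ofReal, abs_of_nonneg (by positivity)]
    rw [h0]
    have h4 := map_sub_le_add p (A c - (12 : 𝕜) • 𝒥 (u c)) (F.res {β | β.1 ≤ i} (B c))
    have h5 := map_sub_le_add p (A c) ((12 : 𝕜) • 𝒥 (u c))
    linarith

end Pool.Agent.Lib.MP_e0f470_an.Rob
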