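import Pool.Agent.Lib.MP_e0f470_an.RAvg

/-! Elementary tensors, the pairing and the block norm. -/

set_option autoImplicit false

namespace Pool.Agent.Lib.MP_e0f470_an.Rob

open Finset Filter
open scoped BigOperators Topology

variable {𝕜 : Type} [RCLike 𝕜]

section pair
variable {A : Type} [Fintype A]

lemma pair_add_right (ζ u v : A → 𝕜) : pair ζ (u + v) = pair ζ u + pair ζ v := by
  simp [pair, mul_add, Finset.sum_add_distrib]

lemma pair_sub_right (ζ u v : A → 𝕜) : pair ζ (u - v) = pair ζ u - pair ζ v := by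
  simp [pair, mul_sub, Finset.sum_sub_distrib]

lemma pair_smul_right (ζ u : A → 𝕜) (s : 𝕜) : pair ζ (s • u) = s * pair ζ u := by
  simp [pair, Finset.mul_sum, mul_left_comm]

lemma pair_zero_right (ζ : A → 𝕜) : pair ζ 0 = 0 := by simp [pair]

lemma pair_comm (ζ u : A → 𝕜) : pair ζ u = pair u ζ := by simp [pair, mul_comm]

lemma pair_add_left (ζ ζ' u : A → 𝕜) : pair (ζ + ζ') u = pair ζ u + pair ζ' u := by
  simp [pair, add_mul, Finset.sum_add_distrib]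

lemma pair_sub_left (ζ ζ' u : A → 𝕜) : pair (ζ - ζ') u = pair ζ u - pair ζ' u := by
  simp [pair, sub_mul, Finset.sum_sub_distrib]

lemma pair_smul_left (ζ u : A → 𝕜) (s : 𝕜) : pair (s • ζ) u = s * pair ζ u := by
  simp [pair, Finset.mul_sum, mul_assoc]

lemma pair_zero_left (u : A → 𝕜) : pair 0 u = 0 := by simp [pair]

lemma pair_sum_right {ι : Type*} (s : Finset ι) (ζ : A → 𝕜) (u : ι → A → 𝕜) :
    pair ζ (∑ i ∈ s, u i) = ∑ i ∈ s, pair ζ (u i) := by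
  simp only [pair, Finset.sum_apply, Finset.mul_sum]
  rw [Finset.sum_comm]

lemma pair_sum_left {ι : Type*} (s : Finset ι) (ζ : ι → A → 𝕜) (u : A → 𝕜) :
    pair (∑ i ∈ s, ζ i) u = ∑ i ∈ s, pair (ζ i) u := by
  simp only [pair_comm _ u, pair_sum_right]

lemma pair_av_right {α : Type} [Fintype α] (ζ : A → 𝕜) (u : α → A → 𝕜) :
    pair ζ (av 𝕜 u) = av 𝕜 fun a => pair ζ (u a) := by
  simp only [av, pair_smul_right, pair_sum_right, smul_eq_mul]

lemma pair_av_left {α : Type} [Fintype α] (ζ : α → A → 𝕜) (u : A → 𝕜) :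
    pair (av 𝕜 ζ) u = av 𝕜 fun a => pair (ζ a) u := by
  simp only [pair_comm _ u, pair_av_right]

lemma pair_single_right [DecidableEq A] (ζ : A → 𝕜) (a : A) :
    pair ζ (Pi.single a 1) = ζ a := by
  simp [pair, Pi.single_apply]

lemma pair_single_left [DecidableEq A] (u : A → 𝕜) (a : A) (s : 𝕜) :
    pair (Pi.single a s) u = s * u a := by
  simp [pair, Pi.single_apply]

lemma norm_pair_le {ζ u : A → 𝕜} {c : ℝ} (h : ∀ a, ‖ζ a‖ ≤ c) :
    ‖pair ζ u‖ ≤ c * ∑ a, ‖u a‖ := by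
  rw [Finset.mul_sum]
  refine (norm_sum_le _ _).trans (Finset.sum_le_sum fun a _ => ?_)
  rw [norm_mul]
  exact mul_le_mul_of_nonneg_right (h a) (norm_nonneg _)

end pair

section blk
variable {J X Ω Φ : Type} [Fintype J] [Fintype X] [Fintype Ω] [Fintype Φ] [DecidableEq J]
  [DecidableEq Φ] {T : ℕ} (x : X → J → 𝕜) (W : Φ → Φ → ℝ) (ξ : Fin T × Ω → Φ → Bool × J)

omit [Fintype J] [Fintype Φ] [DecidableEq J] [DecidableEq Φ] in
lemma row_apply (r : Φ → Bool × J) (y : J → 𝕜) (c : Φ) :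
    row r y c = sk 𝕜 (r c).1 * y (r c).2 := rfl

omit [Fintype J] [Fintype X] [Fintype Ω] [Fintype Φ] [DecidableEq J] in
lemma vec_own (r : Ω → Φ → Bool × J) (τ : Ω) (i : X) :
    vec x W r (own τ i) = row (r τ) (x i) := rfl

omit [Fintype J] [Fintype X] [Fintype Ω] [Fintype Φ] [DecidableEq J] in
lemma vec_wal (r : Ω → Φ → Bool × J) (S : Φ) :
    vec x W r (wal S) = fun c => ((W S c : ℝ) : 𝕜) := rfl

omit [Fintype J] [Fintype X] [Fintype Ω] [Fintype Φ] [DecidableEq J] in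
lemma vec_del (r : Ω → Φ → Bool × J) (c' : Φ) :
    vec x W r (del c') = fun c => if c = c' then 1 else 0 := rfl

omit [Fintype J] [Fintype X] [Fintype Ω] [Fintype Φ] [DecidableEq J] in
lemma ten_apply (γ : Fin T → Lab X Ω Φ) (t : Fin T) (v : Φ → 𝕜) (cs : Fin T → Φ) :
    ten x W ξ γ t v cs =
      v (cs t) * ∏ s ∈ univ.erase t, vec x W (fun τ => ξ (s, τ)) (γ s) (cs s) := rfl

omit [Fintype J] [Fintype X] [Fintype Ω] [Fintype Φ] [DecidableEq J] in
lemma gen_eq_ten (γ : Fin T → Lab X Ω Φ) (t : Fin T) :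
    gen x W ξ γ = ten x W ξ γ t (vec x W (fun τ => ξ (t, τ)) (γ t)) := by
  funext cs
  rw [ten_apply, gen, ← Finset.mul_prod_erase _ _ (Finset.mem_univ t)]

omit [Fintype J] [Fintype X] [Fintype Ω] [Fintype Φ] [DecidableEq J] in
lemma ten_update (γ : Fin T → Lab X Ω Φ) (t : Fin T) (l : Lab X Ω Φ) :
    ten x W ξ (Function.update γ t l) t = ten x W ξ γ t := by
  ext v cs
  simp only [ten_apply]
  congr 1
  refine Finset.prod_congr rfl fun s hs => ?_
  rw [Function.update_of_ne (Finset.ne_of_mem_erase hs)]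

omit [Fintype J] [Fintype X] [Fintype Ω] [Fintype Φ] [DecidableEq J] in
lemma gen_update (γ : Fin T → Lab X Ω Φ) (t : Fin T) (l : Lab X Ω Φ) :
    gen x W ξ (Function.update γ t l) = ten x W ξ γ t (vec x W (fun τ => ξ (t, τ)) l) := by
  rw [gen_eq_ten x W ξ _ t, ten_update, Function.update_self]

omit [Fintype J] [Fintype X] [Fintype Ω] [Fintype Φ] [DecidableEq J] in
lemma gen_update_own (γ : Fin T → Lab X Ω Φ) (t : Fin T) (τ : Ω) (i : X) :
    gen x W ξ (Function.update γ t (own τ i)) = ten x W ξ γ t (row (ξ (t, τ)) (x i)) :=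
  gen_update x W ξ γ t _

omit [Fintype J] [Fintype X] [Fintype Ω] [DecidableEq J] in
lemma ten_eq_sum (γ : Fin T → Lab X Ω Φ) (t : Fin T) (v : Φ → 𝕜) :
    ten x W ξ γ t v = ∑ c, v c • gen x W ξ (Function.update γ t (del c)) := by
  simp only [gen_update, vec_del, ← map_smul, ← map_sum]
  congr 1
  funext c
  simp [Finset.sum_apply]

omit [Fintype J] [Fintype X] [Fintype Ω] [DecidableEq J] in
lemma pair_ten (ζ : (Fin T → Φ) → 𝕜) (γ : Fin T → Lab X Ω Φ) (t : Fin T) (v : Φ → 𝕜) :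
    pair ζ (ten x W ξ γ t v) =
      ∑ c, pair ζ (gen x W ξ (Function.update γ t (del c))) * v c := by
  rw [ten_eq_sum, pair_sum_right]
  exact Finset.sum_congr rfl fun c _ => by rw [pair_smul_right, mul_comm]

omit [Fintype J] [Fintype X] [Fintype Ω] [Fintype Φ] [DecidableEq J] in
lemma gen_del (cs : Fin T → Φ) :
    gen x W ξ (fun s => (del (cs s) : Lab X Ω Φ)) = Pi.single cs 1 := by
  funext cs'
  simp only [gen, vec_del, Pi.single_apply, Finset.prod_ite_zero, Finset.prod_const_one]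
  simp [funext_iff]

omit [Fintype J] [Fintype X] [Fintype Ω] [DecidableEq J] in
lemma norm_vec_le (hx : ∀ i j, ‖x i j‖ ≤ 1) (hW : Had W) (r : Ω → Φ → Bool × J)
    (l : Lab X Ω Φ) (c : Φ) : ‖vec x W r l c‖ ≤ 1 := by
  rcases l with ⟨τ, i⟩ | S | c'
  · change ‖sk 𝕜 (r τ c).1 * x i (r τ c).2‖ ≤ 1
    rw [norm_mul, norm_sk, one_mul]
    exact hx _ _
  · change ‖((W S c : ℝ) : 𝕜)‖ ≤ 1
    rw [RCLike.norm_ofReal]
    exact hW.1 _ _
  · change ‖(if c = c' then (1 : 𝕜) else 0)‖ ≤ 1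
    split_ifs <;> simp

omit [Fintype J] [Fintype X] [Fintype Ω] [DecidableEq J] in
lemma norm_gen_le (hx : ∀ i j, ‖x i j‖ ≤ 1) (hW : Had W) (γ : Fin T → Lab X Ω Φ)
    (cs : Fin T → Φ) : ‖gen x W ξ γ cs‖ ≤ 1 := by
  rw [gen, norm_prod]
  exact Finset.prod_le_one (fun _ _ => norm_nonneg _) fun s _ => norm_vec_le x W hx hW _ _ _

omit [Fintype J] [Fintype X] [Fintype Ω] [Fintype Φ] [DecidableEq J] in
/-- Changing a row of level `t` does not change the other levels. -/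
lemma ten_update_row [DecidableEq Ω] (γ : Fin T → Lab X Ω Φ) (t : Fin T) (τ : Ω)
    (r : Φ → Bool × J) : ten x W (Function.update ξ (t, τ) r) γ t = ten x W ξ γ t := by
  ext v cs
  simp only [ten_apply]
  congr 1
  refine Finset.prod_congr rfl fun s hs => ?_
  congr 1
  funext τ'
  rw [Function.update_of_ne]
  simp [Finset.ne_of_mem_erase hs]

omit [Fintype J] [Fintype X] [Fintype Ω] [Fintype Φ] [DecidableEq J] in
/-- Changing a row does not change the generators that do not use it. -/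
lemma gen_update_row [DecidableEq Ω] (γ : Fin T → Lab X Ω Φ) (t : Fin T) (τ : Ω)
    (r : Φ → Bool × J) (h : ∀ i, γ t ≠ own τ i) :
    gen x W (Function.update ξ (t, τ) r) γ = gen x W ξ γ := by
  rw [gen_eq_ten x W _ γ t, gen_eq_ten x W ξ γ t, ten_update_row]
  congr 1
  rcases hγ : γ t with ⟨τ', i⟩ | S | c'
  · have : τ' ≠ τ := by
      rintro rfl
      exact h i hγ
    change row (Function.update ξ (t, τ) r (t, τ')) (x i) = row (ξ (t, τ')) (x i)
    rw [Function.update_of_ne (by simp [this])]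
  · rfl
  · rfl

omit [Fintype J] [Fintype X] [Fintype Ω] [DecidableEq J] in
lemma pol_zero : Pol x W ξ 0 := fun γ => by simp [pair_zero_left]

omit [Fintype J] [Fintype X] [Fintype Ω] [DecidableEq J] in
lemma Pol.smul {ζ : (Fin T → Φ) → 𝕜} (h : Pol x W ξ ζ) {s : 𝕜} (hs : ‖s‖ ≤ 1) :
    Pol x W ξ (s • ζ) := fun γ => by
  rw [pair_smul_left, norm_mul]
  exact mul_le_one₀ hs (norm_nonneg _) (h γ)

omit [Fintype J] [Fintype X] [Fintype Ω] [DecidableEq J] in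
lemma Pol.norm_le {ζ : (Fin T → Φ) → 𝕜} (h : Pol x W ξ ζ) (cs : Fin T → Φ) : ‖ζ cs‖ ≤ 1 := by
  have := h fun s => del (cs s)
  rwa [gen_del, pair_single_right] at this

omit [Fintype J] [Fintype X] [Fintype Ω] [DecidableEq J] in
lemma pol_single (hx : ∀ i j, ‖x i j‖ ≤ 1) (hW : Had W) (cs : Fin T → Φ) {s : 𝕜} (hs : ‖s‖ ≤ 1) :
    Pol x W ξ (Pi.single cs s) := fun γ => by
  rw [pair_single_left, norm_mul]
  exact mul_le_one₀ hs (norm_nonneg _) (norm_gen_le x W ξ hx hW γ cs)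

omit [Fintype J] [Fintype X] [Fintype Ω] [DecidableEq J] in
lemma bn_bdd (u : (Fin T → Φ) → 𝕜) :
    BddAbove (Set.range fun ζ : {ζ // Pol x W ξ ζ} => ‖pair ζ.1 u‖) :=
  ⟨1 * ∑ a, ‖u a‖, by
    rintro _ ⟨ζ, rfl⟩
    exact norm_pair_le fun a => Pol.norm_le x W ξ ζ.2 a⟩

omit [Fintype J] [Fintype X] [Fintype Ω] [DecidableEq J] in
lemma le_bn {ζ : (Fin T → Φ) → 𝕜} (h : Pol x W ξ ζ) (u : (Fin T → Φ) → 𝕜) :
    ‖pair ζ u‖ ≤ bn x W ξ u :=
  le_ciSup (bn_bdd x W ξ u) ⟨ζ, h⟩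

omit [Fintype J] [Fintype X] [Fintype Ω] [DecidableEq J] in
lemma bn_le {u : (Fin T → Φ) → 𝕜} {c : ℝ} (h : ∀ ζ, Pol x W ξ ζ → ‖pair ζ u‖ ≤ c) :
    bn x W ξ u ≤ c := by
  have : Nonempty {ζ // Pol x W ξ ζ} := ⟨⟨0, pol_zero x W ξ⟩⟩
  exact ciSup_le fun ζ => h ζ.1 ζ.2

omit [Fintype J] [Fintype X] [Fintype Ω] [DecidableEq J] in
lemma bn_nonneg (u : (Fin T → Φ) → 𝕜) : 0 ≤ bn x W ξ u :=
  (norm_nonneg _).trans (le_bn x W ξ (pol_zero x W ξ) u)

omit [Fintype J] [Fintype X] [Fintype Ω] [DecidableEq J] in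
lemma bn_smul_le (s : 𝕜) (u : (Fin T → Φ) → 𝕜) : bn x W ξ (s • u) ≤ ‖s‖ * bn x W ξ u :=
  bn_le x W ξ fun ζ h => by
    rw [pair_smul_right, norm_mul]
    exact mul_le_mul_of_nonneg_left (le_bn x W ξ h u) (norm_nonneg _)

/-- The block norm as a seminorm. -/
noncomputable def bnS : Seminorm 𝕜 ((Fin T → Φ) → 𝕜) :=
  Seminorm.ofSMulLE (bn x W ξ)
    (le_antisymm (bn_le x W ξ fun ζ _ => by simp [pair_zero_right]) (bn_nonneg x W ξ 0))
    (fun u v => bn_le x W ξ fun ζ h => by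
      rw [pair_add_right]
      exact (norm_add_le _ _).trans (add_le_add (le_bn x W ξ h u) (le_bn x W ξ h v)))
    (bn_smul_le x W ξ)

omit [Fintype J] [Fintype X] [Fintype Ω] [DecidableEq J] in
lemma bnS_apply (u : (Fin T → Φ) → 𝕜) : bnS x W ξ u = bn x W ξ u := rfl

omit [Fintype J] [Fintype X] [Fintype Ω] [DecidableEq J] in
lemma bn_smul (s : 𝕜) (u : (Fin T → Φ) → 𝕜) : bn x W ξ (s • u) = ‖s‖ * bn x W ξ u :=
  map_smul_eq_mul (bnS x W ξ) s u

omit [Fintype J] [Fintype X] [Fintype Ω] [DecidableEq J] in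
lemma bn_le_sum (u : (Fin T → Φ) → 𝕜) : bn x W ξ u ≤ ∑ a, ‖u a‖ :=
  bn_le x W ξ fun ζ h => by
    simpa using norm_pair_le (u := u) fun a => Pol.norm_le x W ξ h a

omit [Fintype J] [Fintype X] [Fintype Ω] [DecidableEq J] in
lemma norm_le_bn (hx : ∀ i j, ‖x i j‖ ≤ 1) (hW : Had W) (u : (Fin T → Φ) → 𝕜)
    (cs : Fin T → Φ) : ‖u cs‖ ≤ bn x W ξ u := by
  have := le_bn x W ξ (pol_single x W ξ hx hW cs (s := 1) (by simp)) u
  rwa [pair_single_left, one_mul] at this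

omit [Fintype J] [Fintype X] [Fintype Ω] [DecidableEq J] in
lemma bn_gen_le (γ : Fin T → Lab X Ω Φ) : bn x W ξ (gen x W ξ γ) ≤ 1 :=
  bn_le x W ξ fun _ h => h γ

omit [Fintype J] [Fintype X] [Fintype Ω] [DecidableEq J] in
/-- A functional that is small on the generators is small. -/
lemma norm_pair_le_bn {ψ : (Fin T → Φ) → 𝕜} {s : ℝ} (hs : 0 < s)
    (h : ∀ γ, ‖pair ψ (gen x W ξ γ)‖ ≤ s) (u : (Fin T → Φ) → 𝕜) :
    ‖pair ψ u‖ ≤ s * bn x W ξ u := by
  have h1 : Pol x W ξ (((s⁻¹ : ℝ) : 𝕜) • ψ) := fun γ => by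
    rw [pair_smul_left, norm_mul, RCLike.norm_ofReal, abs_of_pos (inv_pos.2 hs),
      inv_mul_le_iff₀ hs, mul_one]
    exact h γ
  have h2 := le_bn x W ξ h1 u
  rwa [pair_smul_left, norm_mul, RCLike.norm_ofReal, abs_of_pos (inv_pos.2 hs),
    inv_mul_le_iff₀ hs] at h2

omit [Fintype J] [Fintype X] [Fintype Ω] [DecidableEq J] in
/-- Almost norming functionals with a real value. -/
lemma exists_norming (u : (Fin T → Φ) → 𝕜) {η : ℝ} (hη : 0 < η) :
    ∃ ζ, Pol x W ξ ζ ∧ bn x W ξ u ≤ RCLike.re (pair ζ u) + η := by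
  have : Nonempty {ζ // Pol x W ξ ζ} := ⟨⟨0, pol_zero x W ξ⟩⟩
  obtain ⟨ζ, hζ⟩ := exists_lt_of_lt_ciSup
    (f := fun ζ : {ζ // Pol x W ξ ζ} => ‖pair ζ.1 u‖) (b := bn x W ξ u - η)
    (by change _ < bn x W ξ u; linarith)
  obtain ⟨s, hs, hs'⟩ := RCLike.exists_norm_eq_mul_self (pair ζ.1 u)
  refine ⟨s • ζ.1, Pol.smul x W ξ ζ.2 hs.le, ?_⟩
  rw [pair_smul_left, ← hs', RCLike.ofReal_re]
  linarith

end blk

end Pool.Agent.Lib.MP_e0f470_an.Rob
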