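import Pool.Agent.Lib.MP_e0f470_an.Khin

/-! Small ball estimate and the empirical method. -/

set_option autoImplicit false

namespace Pool.Agent.Lib.MP_e0f470_an

open Finset
open scoped BigOperators

variable {𝕜 : Type*} [RCLike 𝕜]

section
variable {H : Type*} [NormedAddCommGroup H] [InnerProductSpace 𝕜 H]

lemma smallA_update {ι W : Type*} [Fintype ι] [DecidableEq ι] [AddCommGroup W] (x : ι → W)
    (ε : Cube ι) (i : ι) (b : Bool) :
    rs x (Function.update ε i b) =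
      (if b then x i else -x i) + ∑ j ∈ univ.erase i, if ε j then x j else -x j := by
  unfold rs
  rw [← Finset.add_sum_erase _ _ (Finset.mem_univ i), Function.update_self]
  congr 1
  refine Finset.sum_congr rfl fun j hj => ?_
  rw [Function.update_of_ne (Finset.ne_of_mem_erase hj)]

lemma smallA_pyth (u x : H) (hu : ‖u‖ = 1) :
    ‖x‖ ^ 2 = ‖x - (inner 𝕜 u x : 𝕜) • u‖ ^ 2 + ‖(inner 𝕜 u x : 𝕜)‖ ^ 2 := by
  have h0 : (inner 𝕜 (x - (inner 𝕜 u x : 𝕜) • u) ((inner 𝕜 u x : 𝕜) • u) : 𝕜) = 0 := by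
    have h1 : (inner 𝕜 u (x - (inner 𝕜 u x : 𝕜) • u) : 𝕜) = 0 := by
      rw [inner_sub_right, inner_smul_right, inner_self_eq_norm_sq_to_K, hu]
      simp
    rw [inner_smul_right, (inner_eq_zero_symm.mp h1), mul_zero]
  have h2 := norm_add_sq_eq_norm_sq_add_norm_sq_of_inner_eq_zero (𝕜 := 𝕜) _ _ h0
  rw [sub_add_cancel, norm_smul, hu, mul_one] at h2
  nlinarith [h2]

lemma smallA_two {d : ℝ} (hd : 0 < d) (a b : 𝕜) (hb : d ≤ ‖b‖) :
    Real.exp (-(‖a + b‖ ^ 2 / d ^ 2)) + Real.exp (-(‖a - b‖ ^ 2 / d ^ 2)) ≤ 7 / 5 := by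
  have hp := parallelogram_law_with_norm 𝕜 a b
  have hd2 : 0 < d ^ 2 := by positivity
  have hb2 : d ^ 2 ≤ ‖b‖ ^ 2 := by gcongr
  have he := Real.exp_neg_one_lt_d9
  have one : ∀ t : ℝ, Real.exp (-(t ^ 2 / d ^ 2)) ≤ 1 := fun t =>
    Real.exp_le_one_iff.mpr (by have : 0 ≤ t ^ 2 / d ^ 2 := by positivity
                                linarith)
  have big : ∀ t : ℝ, d ^ 2 ≤ t ^ 2 → Real.exp (-(t ^ 2 / d ^ 2)) ≤ Real.exp (-1) := fun t ht =>
    Real.exp_le_exp.mpr (by have : 1 ≤ t ^ 2 / d ^ 2 := (one_le_div hd2).mpr ht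
                            linarith)
  by_cases h : d ^ 2 ≤ ‖a + b‖ ^ 2
  · have := big _ h
    have := one ‖a - b‖
    linarith
  · have h' : d ^ 2 ≤ ‖a - b‖ ^ 2 := by nlinarith [sq_nonneg ‖a‖]
    have := big _ h'
    have := one ‖a + b‖
    linarith

/-- Induction on `k` for all `w`. If all `‖w i‖ ≤ d` take `U = ⊥`. Otherwise pick `i₀` with
`d < ‖w i₀‖`, let `u = w i₀ / ‖w i₀‖` and `w' i = w i - ⟪u, w i⟫ • u` (so `w' i₀ = 0`). If the
first alternative holds for `w'` with `U'` take `U' ⊔ span {u}`. Otherwise Pythagoras gives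
`‖rs w ε - y‖ ^ 2 = ‖rs w' ε - y'‖ ^ 2 + ‖⟪u, rs w ε - y⟫‖ ^ 2`; the first term does not depend on
`ε i₀`, and by `expect_update i₀` the average of `exp (-‖a ± b‖ ^ 2 / d ^ 2)` with `d ≤ ‖b‖` is at
most `(1 + exp (-1)) / 2 ≤ 7 / 10` (parallelogram law). -/
theorem small_ball [FiniteDimensional 𝕜 H] {ι : Type*} [Fintype ι] [DecidableEq ι] {d : ℝ}
    (hd : 0 < d) (k : ℕ) (w : ι → H) :
    (∃ U : Submodule 𝕜 H, Module.finrank 𝕜 U ≤ k ∧ ∀ i, ∃ u ∈ U, ‖w i - u‖ ≤ d) ∨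
      ∀ y : H, 𝔼 ε, Real.exp (-(‖rs w ε - y‖ ^ 2 / d ^ 2)) ≤ (7 / 10) ^ k := by
  induction k generalizing w with
  | zero =>
    right
    intro y
    rw [pow_zero]
    refine Finset.expect_le Finset.univ_nonempty fun ε _ => ?_
    refine Real.exp_le_one_iff.mpr ?_
    have : 0 ≤ ‖rs w ε - y‖ ^ 2 / d ^ 2 := by positivity
    linarith
  | succ k ih =>
    by_cases hall : ∀ i, ‖w i‖ ≤ d
    · left
      exact ⟨⊥, by simp, fun i => ⟨0, Submodule.zero_mem _, by simpa using hall i⟩⟩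
    push Not at hall
    obtain ⟨i₀, hi₀⟩ := hall
    have hpos : 0 < ‖w i₀‖ := lt_trans hd hi₀
    have hne : ((‖w i₀‖ : ℝ) : 𝕜) ≠ 0 := by exact_mod_cast hpos.ne'
    set u : H := ((‖w i₀‖ : ℝ) : 𝕜)⁻¹ • w i₀ with hu
    have hu1 : ‖u‖ = 1 := by
      rw [hu, norm_smul, norm_inv, RCLike.norm_ofReal, abs_of_pos hpos, inv_mul_cancel₀ hpos.ne']
    have hin : (inner 𝕜 u (w i₀) : 𝕜) = ((‖w i₀‖ : ℝ) : 𝕜) := by
      rw [hu, inner_smul_left, inner_self_eq_norm_sq_to_K]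
      simp only [map_inv₀, RCLike.conj_ofReal]
      field_simp
    let φ : H →ₗ[𝕜] 𝕜 := innerₛₗ 𝕜 u
    have hφ : ∀ x, φ x = inner 𝕜 u x := fun x => rfl
    let P : H →ₗ[𝕜] H := LinearMap.id - φ.smulRight u
    have hP : ∀ x, P x = x - (inner 𝕜 u x : 𝕜) • u := fun x => rfl
    have hP0 : P (w i₀) = 0 := by
      rw [hP, hin, hu, smul_smul, mul_inv_cancel₀ hne, one_smul, sub_self]
    rcases ih (fun i => P (w i)) with ⟨U, hU, hU2⟩ | hR
    · left
      refine ⟨U ⊔ Submodule.span 𝕜 {u}, ?_, fun i => ?_⟩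
      · have h1 := Submodule.finrank_add_le_finrank_add_finrank U (Submodule.span 𝕜 {u})
        have h2 : Module.finrank 𝕜 (Submodule.span 𝕜 ({u} : Set H)) ≤ 1 := by
          simpa using finrank_span_le_card (R := 𝕜) ({u} : Set H)
        omega
      · obtain ⟨v, hv, hv2⟩ := hU2 i
        refine ⟨v + (inner 𝕜 u (w i) : 𝕜) • u, Submodule.add_mem_sup hv
          (Submodule.smul_mem _ _ (Submodule.mem_span_singleton_self u)), ?_⟩
        rw [hP] at hv2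
        have : w i - (v + (inner 𝕜 u (w i) : 𝕜) • u) = w i - (inner 𝕜 u (w i) : 𝕜) • u - v := by
          abel
        rwa [this]
    · right
      intro y
      have hsplit : ∀ ε, Real.exp (-(‖rs w ε - y‖ ^ 2 / d ^ 2)) =
          Real.exp (-(‖rs (fun i => P (w i)) ε - P y‖ ^ 2 / d ^ 2)) *
            Real.exp (-(‖φ (rs w ε - y)‖ ^ 2 / d ^ 2)) := by
        intro ε
        rw [← Real.exp_add, ← map_rs P w ε, ← map_sub, hP, hφ,
          smallA_pyth (𝕜 := 𝕜) u (rs w ε - y) hu1]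
        congr 1
        ring
      have hind : ∀ ε b, rs (fun i => P (w i)) (Function.update ε i₀ b) =
          rs (fun i => P (w i)) ε := by
        intro ε b
        have h1 := smallA_update (fun i => P (w i)) ε i₀ b
        have h2 := smallA_update (fun i => P (w i)) ε i₀ (ε i₀)
        rw [Function.update_eq_self] at h2
        rw [h1, h2]
        simp [hP0]
      rw [expect_update i₀]
      refine le_trans (Finset.expect_le_expect (g := fun ε => 7 / 10 *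
        Real.exp (-(‖rs (fun i => P (w i)) ε - P y‖ ^ 2 / d ^ 2))) fun ε _ => ?_) ?_
      · rw [hsplit, hsplit, hind, hind, smallA_update, smallA_update]
        set z : H := ∑ j ∈ univ.erase i₀, if ε j then w j else -w j with hz
        have e1 : φ ((if true then w i₀ else -w i₀) + z - y) = φ (z - y) + φ (w i₀) := by
          rw [← map_add]; congr 1; simp; abel
        have e2 : φ ((if false then w i₀ else -w i₀) + z - y) = φ (z - y) - φ (w i₀) := by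
          rw [← map_sub]; congr 1; simp; abel
        rw [e1, e2]
        have hb : d ≤ ‖φ (w i₀)‖ := by
          rw [hφ, hin, RCLike.norm_ofReal, abs_of_pos hpos]; exact hi₀.le
        have h2 := smallA_two hd (φ (z - y)) (φ (w i₀)) hb
        have h3 := Real.exp_pos (-(‖rs (fun i => P (w i)) ε - P y‖ ^ 2 / d ^ 2))
        nlinarith
      · rw [← Finset.mul_expect, pow_succ' (7 / 10 : ℝ) k]
        exact mul_le_mul_of_nonneg_left (hR (P y)) (by norm_num)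

/-- Maurey's empirical method. With `x = ∑ μ a • pt a` (so `‖x‖ ≤ R`) show by induction on `s` that
there is `f` with `‖∑ l, (pt (f l) - x)‖ ^ 2 ≤ 4 * R ^ 2 * s`: the `μ`-average over `a` of
`‖z + (pt a - x)‖ ^ 2` is `‖z‖ ^ 2 + ∑ μ a * ‖pt a - x‖ ^ 2`. -/
theorem maurey {A : Type*} [Fintype A] (pt : A → H) {R : ℝ} (hR : ∀ a, ‖pt a‖ ≤ R) (μ : A → ℝ)
    (hμ : ∀ a, 0 ≤ μ a) (hμ1 : ∑ a, μ a = 1) {s : ℕ} (hs : 0 < s) :
    ∃ f : Fin s → A,
      ‖((s : 𝕜))⁻¹ • ∑ l, pt (f l) - ∑ a, ((μ a : ℝ) : 𝕜) • pt a‖ ^ 2 ≤ 4 * R ^ 2 / s := by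
  set x : H := ∑ a, ((μ a : ℝ) : 𝕜) • pt a with hx
  have hxR : ‖x‖ ≤ R := by
    calc ‖x‖ ≤ ∑ a, ‖((μ a : ℝ) : 𝕜) • pt a‖ := norm_sum_le _ _
      _ ≤ ∑ a, μ a * R := Finset.sum_le_sum fun a _ => by
          rw [norm_smul, RCLike.norm_ofReal, abs_of_nonneg (hμ a)]
          exact mul_le_mul_of_nonneg_left (hR a) (hμ a)
      _ = R := by rw [← Finset.sum_mul, hμ1, one_mul]
  have hcent : ∑ a, ((μ a : ℝ) : 𝕜) • (pt a - x) = 0 := by
    simp only [smul_sub, Finset.sum_sub_distrib]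
    rw [← Finset.sum_smul, ← hx]
    have : ∑ a, ((μ a : ℝ) : 𝕜) = 1 := by exact_mod_cast hμ1
    rw [this, one_smul, sub_self]
  have hstep : ∀ z : H, ∃ a, ‖z + (pt a - x)‖ ^ 2 ≤ ‖z‖ ^ 2 + 4 * R ^ 2 := by
    intro z
    by_contra hcon
    push Not at hcon
    have h1 : ∑ a, μ a * ‖z + (pt a - x)‖ ^ 2 ≤ ‖z‖ ^ 2 + 4 * R ^ 2 := by
      have e1 : ∀ a, μ a * ‖z + (pt a - x)‖ ^ 2 ≤ μ a * (‖z‖ ^ 2 + 4 * R ^ 2) +
          2 * RCLike.re (inner 𝕜 z (((μ a : ℝ) : 𝕜) • (pt a - x))) := by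
        intro a
        rw [norm_add_sq (𝕜 := 𝕜), inner_smul_right, RCLike.re_ofReal_mul]
        have h2 : ‖pt a - x‖ ≤ 2 * R := by
          have := norm_sub_le (pt a) x
          have := hR a
          linarith
        have h3 : ‖pt a - x‖ ^ 2 ≤ 4 * R ^ 2 := by nlinarith [norm_nonneg (pt a - x)]
        have h4 := mul_le_mul_of_nonneg_left h3 (hμ a)
        nlinarith
      refine le_trans (Finset.sum_le_sum fun a _ => e1 a) ?_
      rw [Finset.sum_add_distrib, ← Finset.sum_mul, hμ1, one_mul, ← Finset.mul_sum, ← map_sum,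
        ← inner_sum, hcent]
      simp
    have h2 : ∑ a, μ a * (‖z‖ ^ 2 + 4 * R ^ 2) < ∑ a, μ a * ‖z + (pt a - x)‖ ^ 2 := by
      obtain ⟨a, _, ha⟩ : ∃ a ∈ (univ : Finset A), μ a ≠ 0 :=
        Finset.exists_ne_zero_of_sum_ne_zero (by rw [hμ1]; exact one_ne_zero)
      refine Finset.sum_lt_sum (fun b _ => mul_le_mul_of_nonneg_left (hcon b).le (hμ b))
        ⟨a, Finset.mem_univ _, mul_lt_mul_of_pos_left (hcon a) (lt_of_le_of_ne (hμ a) ha.symm)⟩
    rw [← Finset.sum_mul, hμ1, one_mul] at h2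
    linarith
  have hind : ∀ n : ℕ, ∃ f : Fin n → A, ‖∑ l, (pt (f l) - x)‖ ^ 2 ≤ 4 * R ^ 2 * n := by
    intro n
    induction n with
    | zero => exact ⟨Fin.elim0, by simp⟩
    | succ n ih =>
      obtain ⟨f, hf⟩ := ih
      obtain ⟨a, ha⟩ := hstep (∑ l, (pt (f l) - x))
      refine ⟨Fin.cons a f, ?_⟩
      rw [Fin.sum_univ_succ]
      simp only [Fin.cons_zero, Fin.cons_succ]
      rw [add_comm]
      push_cast
      linarith
  obtain ⟨f, hf⟩ := hind s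
  refine ⟨f, ?_⟩
  have hs0 : (s : 𝕜) ≠ 0 := by exact_mod_cast hs.ne'
  have hsR : (0 : ℝ) < s := by exact_mod_cast hs
  have e : ((s : 𝕜))⁻¹ • ∑ l, pt (f l) - x = ((s : 𝕜))⁻¹ • ∑ l, (pt (f l) - x) := by
    rw [Finset.sum_sub_distrib, smul_sub, Finset.sum_const, Finset.card_univ, Fintype.card_fin,
      ← Nat.cast_smul_eq_nsmul 𝕜, smul_smul, inv_mul_cancel₀ hs0, one_smul]
  rw [e, norm_smul, norm_inv, RCLike.norm_natCast, mul_pow, le_div_iff₀ hsR]
  have e2 : ((s : ℝ)⁻¹) ^ 2 * ‖∑ l, (pt (f l) - x)‖ ^ 2 * s = ‖∑ l, (pt (f l) - x)‖ ^ 2 / s := by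
    field_simp
  rw [e2, div_le_iff₀ hsR]
  exact hf

end

end Pool.Agent.Lib.MP_e0f470_an
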