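import Pool.Agent.Lib.MP_e0f470_an.Bonami

/-! Tail estimates for functions on the cube with small defect. -/

set_option autoImplicit false

namespace Pool.Agent.Lib.MP_e0f470_an

open Finset
open scoped BigOperators

variable {𝕜 : Type*} [RCLike 𝕜]

section
variable {ι : Type*} [Fintype ι] [DecidableEq ι] {H : Type*} [NormedAddCommGroup H]

/-- The averaged defect. -/
noncomputable def dfcAvg (f : Cube ι → H) : ℝ :=
  𝔼 s : Cube ι, 𝔼 ε : Cube ι, 𝔼 ε' : Cube ι, ‖dfc f s ε ε'‖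

/-- The part of the average of the norm that comes from values above `t`. -/
noncomputable def tailAvg (f : Cube ι → H) (t : ℝ) : ℝ :=
  𝔼 ε, if t < ‖f ε‖ then ‖f ε‖ else 0

lemma tail_const {Ω : Type*} [Fintype Ω] [Nonempty Ω] (c : ℝ) : 𝔼 _t : Ω, c = c :=
  Finset.expect_const Finset.univ_nonempty c

lemma tail_mono {Ω : Type*} [Fintype Ω] {f g : Ω → ℝ} (h : ∀ t, f t ≤ g t) :
    𝔼 t, f t ≤ 𝔼 t, g t := Finset.expect_le_expect fun t _ => h t

lemma tail_nonneg {Ω : Type*} [Fintype Ω] {f : Ω → ℝ} (h : ∀ t, 0 ≤ f t) : 0 ≤ 𝔼 t, f t :=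
  Finset.expect_nonneg fun t _ => h t

lemma dfcAvg_nonneg (f : Cube ι → H) : 0 ≤ dfcAvg f :=
  tail_nonneg fun _ => tail_nonneg fun _ => tail_nonneg fun _ => norm_nonneg _

lemma tailAvg_le (f : Cube ι → H) (t : ℝ) : tailAvg f t ≤ 𝔼 ε, ‖f ε‖ :=
  tail_mono fun ε => by split_ifs <;> simp

/-- Each of the four points in the defect is uniformly distributed (`expect_mix_mix`). -/
lemma dfcAvg_le (f : Cube ι → H) : dfcAvg f ≤ 4 * 𝔼 ε, ‖f ε‖ := by
  have h1 : ∀ s : Cube ι, 𝔼 ε : Cube ι, 𝔼 ε' : Cube ι, ‖dfc f s ε ε'‖ ≤ 4 * 𝔼 ε, ‖f ε‖ := by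
    intro s
    have h2 : 𝔼 ε : Cube ι, 𝔼 ε' : Cube ι, ‖dfc f s ε ε'‖ ≤
        𝔼 ε : Cube ι, 𝔼 ε' : Cube ι,
          ((‖f ε‖ + ‖f ε'‖) + (‖f (mix s ε ε')‖ + ‖f (mix s ε' ε)‖)) := by
      refine tail_mono fun ε => tail_mono fun ε' => ?_
      unfold dfc
      have e1 := norm_sub_le (f ε + f ε' - f (mix s ε ε')) (f (mix s ε' ε))
      have e2 := norm_sub_le (f ε + f ε') (f (mix s ε ε'))
      have e3 := norm_add_le (f ε) (f ε')
      linarith
    have h3 := expect_mix_mix s (fun x y => ‖f x‖ + ‖f y‖)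
    have h4 : 𝔼 ε : Cube ι, 𝔼 ε' : Cube ι, (‖f ε‖ + ‖f ε'‖) = 2 * 𝔼 ε, ‖f ε‖ := by
      simp only [Finset.expect_add_distrib, tail_const]
      ring
    have h5 : 𝔼 ε : Cube ι, 𝔼 ε' : Cube ι,
        ((‖f ε‖ + ‖f ε'‖) + (‖f (mix s ε ε')‖ + ‖f (mix s ε' ε)‖)) =
        (𝔼 ε : Cube ι, 𝔼 ε' : Cube ι, (‖f ε‖ + ‖f ε'‖)) +
          𝔼 ε : Cube ι, 𝔼 ε' : Cube ι, (‖f (mix s ε ε')‖ + ‖f (mix s ε' ε)‖) := by
      rw [← Finset.expect_add_distrib]
      exact Finset.expect_congr rfl fun ε _ => Finset.expect_add_distrib _ _ _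
    rw [h5, h3, h4] at h2
    linarith
  exact (tail_mono h1).trans (tail_const _).le

lemma tail_point {a x d y₁ y₂ y₃ : ℝ} (ha : 0 ≤ a) (hd : 0 ≤ d) (h : x ≤ d + y₁ + y₂ + y₃) :
    (if a < x then x else 0) ≤ 4 * d + 2 * (if a / 4 < x then √x else 0) *
      ((if a / 4 < y₁ then √y₁ else 0) + (if a / 4 < y₂ then √y₂ else 0) +
        (if a / 4 < y₃ then √y₃ else 0)) := by
  have hG : ∀ y : ℝ, 0 ≤ (if a / 4 < y then √y else 0) := fun y => by
    split_ifs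
    · exact Real.sqrt_nonneg _
    · exact le_rfl
  by_cases hx : a < x
  · have hx0 : 0 ≤ x := ha.trans hx.le
    rw [if_pos hx, if_pos (by linarith : a / 4 < x)]
    have key : ∀ y : ℝ, x / 4 ≤ y → x ≤ 2 * √x * (if a / 4 < y then √y else 0) := by
      intro y hy
      rw [if_pos (by linarith)]
      have e1 : √x ≤ 2 * √y := by
        rw [show (2 : ℝ) = √4 by
          rw [show (4 : ℝ) = 2 ^ 2 by norm_num, Real.sqrt_sq (by norm_num)],
          ← Real.sqrt_mul (by norm_num)]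
        exact Real.sqrt_le_sqrt (by linarith)
      have e2 := Real.mul_self_sqrt hx0
      have e3 := mul_le_mul_of_nonneg_left e1 (Real.sqrt_nonneg x)
      linarith
    have g1 := mul_nonneg (Real.sqrt_nonneg x) (hG y₁)
    have g2 := mul_nonneg (Real.sqrt_nonneg x) (hG y₂)
    have g3 := mul_nonneg (Real.sqrt_nonneg x) (hG y₃)
    by_cases c0 : x / 4 ≤ d
    · nlinarith
    by_cases c1 : x / 4 ≤ y₁
    · have := key y₁ c1
      nlinarith
    by_cases c2 : x / 4 ≤ y₂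
    · have := key y₂ c2
      nlinarith
    have c3 : x / 4 ≤ y₃ := by linarith
    have := key y₃ c3
    nlinarith
  · rw [if_neg hx]
    have := mul_nonneg (hG x) (add_nonneg (add_nonneg (hG y₁) (hG y₂)) (hG y₃))
    nlinarith

omit [Fintype ι] [DecidableEq ι] in
lemma tail_mix_neg (s ε ε' : Cube ι) : mix (neg s) ε ε' = mix s ε' ε := by
  funext i
  rcases h : s i <;> simp [mix, neg, h]

lemma tail_noise1 (G : Cube ι → ℝ) :
    𝔼 s : Cube ι, 𝔼 ε : Cube ι, 𝔼 ε' : Cube ι, G ε * G (mix s ε ε') =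
      𝔼 ε, G ε * noise G ε := by
  rw [Finset.expect_comm]
  refine Finset.expect_congr rfl fun ε _ => ?_
  unfold noise
  rw [Finset.mul_expect]
  refine Finset.expect_congr rfl fun s _ => ?_
  rw [Finset.mul_expect]

lemma tail_noise2 (G : Cube ι → ℝ) :
    𝔼 s : Cube ι, 𝔼 ε : Cube ι, 𝔼 ε' : Cube ι, G ε * G (mix s ε' ε) =
      𝔼 ε, G ε * noise G ε := by
  rw [← tail_noise1,
    ← expect_neg (fun s => 𝔼 ε : Cube ι, 𝔼 ε' : Cube ι, G ε * G (mix s ε ε'))]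
  simp only [tail_mix_neg]

/-- One step. Let `G ε = √‖f ε‖` if `a / 4 < ‖f ε‖` and `0` otherwise, so `𝔼 G ^ 2 = tailAvg (a/4)`.
From `f ε = dfc - f ε' + f (mix s ε ε') + f (mix s ε' ε)` one of the four terms has norm at least
`‖f ε‖ / 4`, hence pointwise, when `a < ‖f ε‖`,
`‖f ε‖ ≤ 4 * ‖dfc‖ + 2 * G ε * (G ε' + G (mix s ε ε') + G (mix s ε' ε))`.
Now `(𝔼 G) ^ 2 ≤ P * 𝔼 G ^ 2` with `P ≤ min 1 (θ ^ 4) ≤ θ` the probability of the support, and
`𝔼 G * noise G ≤ √(𝔼 G ^ 2) * √(𝔼 1_A * (noise G) ^ 2) ≤ θ * 𝔼 G ^ 2` by Cauchy-Schwarz twice and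
`bonami`; finally `mix s ε' ε = mix (neg s) ε ε'` and `expect_neg`. -/
lemma tail_step (f : Cube ι → H) {a θ : ℝ} (ha : 0 ≤ a) (hθ : 0 ≤ θ)
    (hP : (𝔼 ε, if a / 4 < ‖f ε‖ then (1 : ℝ) else 0) ≤ θ ^ 4) :
    tailAvg f a ≤ 4 * dfcAvg f + 6 * θ * tailAvg f (a / 4) := by
  set G : Cube ι → ℝ := fun ε => if a / 4 < ‖f ε‖ then √‖f ε‖ else 0 with hG
  set I : Cube ι → ℝ := fun ε => if a / 4 < ‖f ε‖ then (1 : ℝ) else 0 with hI
  set T := tailAvg f (a / 4) with hT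
  have hT0 : 0 ≤ T := tail_nonneg fun ε => by split_ifs <;> simp
  have hG2 : 𝔼 ε, G ε ^ 2 = T := by
    refine Finset.expect_congr rfl fun ε _ => ?_
    simp only [hG]
    split_ifs
    · exact Real.sq_sqrt (norm_nonneg _)
    · simp
  have hI2 : ∀ ε, I ε ^ 2 = I ε := fun ε => by simp only [hI]; split_ifs <;> simp
  have hIG : ∀ ε, G ε = I ε * G ε := fun ε => by simp only [hI, hG]; split_ifs <;> simp
  have hI0 : 0 ≤ 𝔼 ε, I ε := tail_nonneg fun ε => by simp only [hI]; split_ifs <;> simp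
  have hI1 : 𝔼 ε, I ε ≤ 1 :=
    (tail_mono fun ε => by simp only [hI]; split_ifs <;> simp).trans (tail_const (1 : ℝ)).le
  have hPθ : 𝔼 ε, I ε ≤ θ := by
    rcases le_total θ 1 with h | h
    · refine hP.trans ?_
      calc θ ^ 4 = θ * θ ^ 3 := by ring
        _ ≤ θ * 1 := mul_le_mul_of_nonneg_left (pow_le_one₀ hθ h) hθ
        _ = θ := mul_one _
    · exact hI1.trans h
  have hsP : √(𝔼 ε, I ε) ≤ θ ^ 2 := by
    rw [show θ ^ 2 = √(θ ^ 4) by
      rw [show θ ^ 4 = (θ ^ 2) ^ 2 by ring, Real.sqrt_sq (by positivity)]]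
    exact Real.sqrt_le_sqrt hP
  have hA : (𝔼 ε, G ε) * (𝔼 ε, G ε) ≤ θ * T := by
    have e1 := expect_mul_le_sqrt I G
    simp only [← hIG, hI2, hG2] at e1
    have e0 : 0 ≤ 𝔼 ε, G ε := tail_nonneg fun ε => by
      simp only [hG]
      split_ifs
      · exact Real.sqrt_nonneg _
      · exact le_rfl
    calc (𝔼 ε, G ε) * (𝔼 ε, G ε) ≤ (√(𝔼 ε, I ε) * √T) * (√(𝔼 ε, I ε) * √T) :=
          mul_self_le_mul_self e0 e1
      _ = (√(𝔼 ε, I ε) * √(𝔼 ε, I ε)) * (√T * √T) := by ring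
      _ = (𝔼 ε, I ε) * T := by rw [Real.mul_self_sqrt hI0, Real.mul_self_sqrt hT0]
      _ ≤ θ * T := mul_le_mul_of_nonneg_right hPθ hT0
  have hB : 𝔼 ε, G ε * noise G ε ≤ θ * T := by
    have e1 := expect_mul_le_sqrt G (fun ε => I ε * noise G ε)
    have e2 := expect_mul_le_sqrt I (fun ε => noise G ε ^ 2)
    have e3 : ∀ ε, G ε * (I ε * noise G ε) = G ε * noise G ε := fun ε => by
      rw [← mul_assoc, mul_comm (G ε), ← hIG]
    have e4 : ∀ ε, (I ε * noise G ε) ^ 2 = I ε * noise G ε ^ 2 := fun ε => by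
      rw [mul_pow, hI2]
    have e5 : ∀ ε, (noise G ε ^ 2) ^ 2 = noise G ε ^ 4 := fun ε => by ring
    simp only [e3, e4, hG2] at e1
    simp only [hI2, e5] at e2
    have e6 : √(𝔼 ε, noise G ε ^ 4) ≤ T := by
      have := Real.sqrt_le_sqrt (bonami G)
      rwa [hG2, Real.sqrt_sq hT0] at this
    have e7 : 𝔼 ε, I ε * noise G ε ^ 2 ≤ θ ^ 2 * T :=
      e2.trans (mul_le_mul hsP e6 (Real.sqrt_nonneg _) (by positivity))
    have e8 : √(𝔼 ε, I ε * noise G ε ^ 2) ≤ θ * √T := by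
      have := Real.sqrt_le_sqrt e7
      rwa [Real.sqrt_mul (by positivity), Real.sqrt_sq hθ] at this
    calc 𝔼 ε, G ε * noise G ε ≤ √T * (θ * √T) :=
          e1.trans (mul_le_mul_of_nonneg_left e8 (Real.sqrt_nonneg _))
      _ = θ * (√T * √T) := by ring
      _ = θ * T := by rw [Real.mul_self_sqrt hT0]
  have hpt : ∀ s ε ε' : Cube ι, (if a < ‖f ε‖ then ‖f ε‖ else 0) ≤
      4 * ‖dfc f s ε ε'‖ + (2 * (G ε * G ε') + (2 * (G ε * G (mix s ε ε')) +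
        2 * (G ε * G (mix s ε' ε)))) := by
    intro s ε ε'
    have e : f ε = dfc f s ε ε' - f ε' + f (mix s ε ε') + f (mix s ε' ε) := by
      unfold dfc
      abel
    have e1 : ‖f ε‖ ≤ ‖dfc f s ε ε'‖ + ‖f ε'‖ + ‖f (mix s ε ε')‖ + ‖f (mix s ε' ε)‖ := by
      have b1 := norm_add_le (dfc f s ε ε' - f ε' + f (mix s ε ε')) (f (mix s ε' ε))
      have b2 := norm_add_le (dfc f s ε ε' - f ε') (f (mix s ε ε'))
      have b3 := norm_sub_le (dfc f s ε ε') (f ε')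
      rw [← e] at b1
      linarith
    have := tail_point ha (norm_nonneg _) e1
    simp only [hG]
    linarith
  have hsum : tailAvg f a ≤ 𝔼 s : Cube ι, 𝔼 ε : Cube ι, 𝔼 ε' : Cube ι,
      (4 * ‖dfc f s ε ε'‖ + (2 * (G ε * G ε') + (2 * (G ε * G (mix s ε ε')) +
        2 * (G ε * G (mix s ε' ε))))) := by
    refine le_trans ?_ (tail_mono fun s => tail_mono fun ε => tail_mono fun ε' => hpt s ε ε')
    simp only [tail_const]
    exact le_rfl
  have n1 := tail_noise1 G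
  have n2 := tail_noise2 G
  have n0 : 𝔼 _s : Cube ι, 𝔼 ε : Cube ι, 𝔼 ε' : Cube ι, G ε * G ε' =
      (𝔼 ε, G ε) * (𝔼 ε, G ε) := by
    rw [tail_const]
    simp only [← Finset.mul_expect, ← Finset.expect_mul]
  have hsplit : 𝔼 s : Cube ι, 𝔼 ε : Cube ι, 𝔼 ε' : Cube ι,
      (4 * ‖dfc f s ε ε'‖ + (2 * (G ε * G ε') + (2 * (G ε * G (mix s ε ε')) +
        2 * (G ε * G (mix s ε' ε))))) = 4 * dfcAvg f +
      (2 * (𝔼 _s : Cube ι, 𝔼 ε : Cube ι, 𝔼 ε' : Cube ι, G ε * G ε') +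
      (2 * (𝔼 s : Cube ι, 𝔼 ε : Cube ι, 𝔼 ε' : Cube ι, G ε * G (mix s ε ε')) +
        2 * 𝔼 s : Cube ι, 𝔼 ε : Cube ι, 𝔼 ε' : Cube ι, G ε * G (mix s ε' ε))) := by
    unfold dfcAvg
    simp only [Finset.expect_add_distrib, Finset.mul_expect]
  rw [hsplit, n0, n1, n2] at hsum
  linarith

/-- Iteration with `θ = 1 / 48` and Markov's inequality (if `σ = 0` then `f = 0`). -/
theorem tail_iter (f : Cube ι → H) (j : ℕ) :
    tailAvg f (4 ^ j * 48 ^ 4 * 𝔼 ε, ‖f ε‖) ≤ 5 * dfcAvg f + (𝔼 ε, ‖f ε‖) / 8 ^ j := by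
  set σ := 𝔼 ε, ‖f ε‖ with hσ
  have hD := dfcAvg_nonneg f
  have hσ0 : 0 ≤ σ := tail_nonneg fun _ => norm_nonneg _
  rcases hσ0.eq_or_lt with h0 | hpos
  · have := tailAvg_le f (4 ^ j * 48 ^ 4 * σ)
    rw [← hσ] at this
    have e : σ / 8 ^ j = 0 := by rw [← h0, zero_div]
    rw [e]
    exact this.trans (by linarith)
  induction j with
  | zero =>
    have := tailAvg_le f (4 ^ 0 * 48 ^ 4 * σ)
    rw [← hσ] at this
    simp only [pow_zero, div_one] at this ⊢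
    linarith
  | succ j ih =>
    have e : (4 : ℝ) ^ (j + 1) * 48 ^ 4 * σ / 4 = 4 ^ j * 48 ^ 4 * σ := by ring
    have hb : 48 ^ 4 * σ ≤ (4 : ℝ) ^ j * 48 ^ 4 * σ := by
      have : (1 : ℝ) ≤ 4 ^ j := one_le_pow₀ (by norm_num)
      nlinarith
    have hP : (𝔼 ε, if (4 : ℝ) ^ (j + 1) * 48 ^ 4 * σ / 4 < ‖f ε‖ then (1 : ℝ) else 0) ≤
        (1 / 48) ^ 4 := by
      rw [e]
      calc (𝔼 ε, if (4 : ℝ) ^ j * 48 ^ 4 * σ < ‖f ε‖ then (1 : ℝ) else 0)
          ≤ 𝔼 ε, (48 ^ 4 * σ)⁻¹ * ‖f ε‖ := by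
            refine tail_mono fun ε => ?_
            split_ifs with h
            · rw [inv_mul_eq_div, le_div_iff₀ (by positivity)]
              linarith
            · positivity
        _ = (1 / 48) ^ 4 := by
            rw [← Finset.mul_expect, ← hσ]
            field_simp
    have h := tail_step f (by positivity) (by norm_num) hP
    rw [e] at h
    have e2 : σ / 8 ^ (j + 1) = σ / 8 ^ j / 8 := by rw [pow_succ, div_div]
    rw [e2]
    linarith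

end

end Pool.Agent.Lib.MP_e0f470_an
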